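import Pool.Agent.AEF.LightHost
import Pool.Agent.AEK.LT1
import Pool.Agent.AEG.ItG

/-!
# Light trees at a good host, with ratio one

The light theorem of `AEF.LightHost` with the rooted theorem `AEK.lt1` instead of `lt`: no ratio and no unrooted
hypothesis. `itX_one` is its form for lists of items of any kind.
-/

namespace AET

open Finset AE15 AED AELT AEF
open scoped Classical

/-- **Light trees at a good host, ratio one.** -/
theorem light_one (b : ℕ) (hb : 1 ≤ b) {κ η : ℝ} (hκ : 0 < κ) (hκ1 : κ ≤ 1) (hη : 0 < η)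
    (hη1 : η ≤ 1 / 20) : ∃ (γ ε μ : ℝ) (m₁ : ℕ), 0 < γ ∧ 0 < ε ∧ 0 < μ ∧ μ ≤ 1 / 16 ∧
      ∀ {V : Type} {R : V → V → Prop}, AE32.Tour R → ∀ (X : Finset V) (z : V), m₁ ≤ X.card →
        Good R κ η X z → ∃ 𝓕 : Finset (Finset V), 𝓕.card ≤ 6 * X.card ^ 2 ∧ (∀ F ∈ 𝓕, F ⊆ X) ∧
          ∀ A ⊆ X, ((X \ A).card : ℝ) ≤ μ * X.card → OkL R b 1 (8 * η) γ m₁ A 𝓕 ε (R z) := by
  obtain ⟨k, hk⟩ : ∃ k, k = kGO κ η := ⟨_, rfl⟩
  obtain ⟨κ₁, hκ₁⟩ : ∃ κ₁, κ₁ = κGO κ η := ⟨_, rfl⟩
  have hk0 : 0 < k := by rw [hk]; exact kGO_pos hκ hη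
  have hκ₁0 : 0 < κ₁ := by rw [hκ₁]; exact κGO_pos hκ hη
  have hkη : k ≤ η / 64 := by
    have h1 : κ ^ 2 ≤ 1 := by nlinarith
    have h2 : η * κ ^ 2 ≤ η * 1 := mul_le_mul_of_nonneg_left h1 hη.le
    rw [hk]
    unfold kGO
    linarith
  obtain ⟨n₀, hn₀⟩ := AEK.lt1 b hb (κ := κ₁ / 2) (ε := k / 32) (by positivity) (by positivity)
  obtain ⟨e, he⟩ : ∃ e : ℝ, e = min (min (κ₁ / 4) (k / 4)) (η / 2) := ⟨_, rfl⟩
  have he0 : 0 < e := by
    rw [he]
    exact lt_min (lt_min (by positivity) (by positivity)) (by positivity)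
  have he1 : e ≤ κ₁ / 4 := by rw [he]; exact (min_le_left _ _).trans (min_le_left _ _)
  have he2 : e ≤ k / 4 := by rw [he]; exact (min_le_left _ _).trans (min_le_right _ _)
  have he3 : e ≤ η / 2 := by rw [he]; exact min_le_right _ _
  refine ⟨k / 16, e, e, max n₀ (⌈20 / η⌉₊ + ⌈16 / k⌉₊), by positivity, he0, he0, by linarith, ?_⟩
  intro V R hT X z hX hG
  have hX1 : (20 : ℝ) ≤ η * X.card := by
    have h1 : ((⌈20 / η⌉₊ : ℕ) : ℝ) ≤ X.card := by
      exact_mod_cast (Nat.le_add_right _ _).trans ((le_max_right _ _).trans hX)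
    have h2 := Nat.le_ceil (20 / η)
    calc (20 : ℝ) = η * (20 / η) := by field_simp
      _ ≤ η * X.card := mul_le_mul_of_nonneg_left (h2.trans h1) hη.le
  have hXc : 0 < X.card := by
    rcases Nat.eq_zero_or_pos X.card with h | h
    · rw [h] at hX1
      norm_num at hX1
    · exact h
  have hX3 : 3 ≤ X.card := by
    by_contra h1
    push Not at h1
    have h2 : (X.card : ℝ) ≤ 3 := by exact_mod_cast h1.le
    nlinarith
  set W := (nO R X z).filter (fun w => Good R κ₁ (4 * η) X w) with hW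
  have hWX : W ⊆ X := (filter_subset _ _).trans nO_sub
  have hWc : k * X.card ≤ (W.card : ℝ) := by
    rw [hW, hk, hκ₁]
    exact good_out hT hκ hκ1 hη (by linarith) hX1 hG
  obtain ⟨FF, hF1, hF2, hF3⟩ := exists_family R κ₁ (4 * η) X
  refine ⟨insert W (FF ∪ FF.image (fun F => X \ F)), ?_, ?_, ?_⟩
  · have c2 : (FF.image (fun F => X \ F)).card ≤ FF.card := card_image_le
    have c4 := card_union_le FF (FF.image (fun F => X \ F))
    have c6 := card_insert_le W (FF ∪ FF.image (fun F => X \ F))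
    nlinarith
  · intro F hF
    rw [mem_insert, mem_union, mem_image] at hF
    rcases hF with rfl | hF | ⟨F', _, rfl⟩
    · exact hWX
    · exact hF2 F hF
    · exact sdiff_subset
  · intro A hA hXA P hP hPm hrep c hlen hdeg hsz hblk
    rw [one_mul] at hsz hblk
    have hPX : P ⊆ X := hP.trans hA
    have hP1 : (16 : ℝ) ≤ k * P.card := by
      have h1 : ((⌈16 / k⌉₊ : ℕ) : ℝ) ≤ P.card := by
        exact_mod_cast (Nat.le_add_left _ _).trans ((le_max_right _ _).trans hPm)
      have h2 := Nat.le_ceil (16 / k)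
      calc (16 : ℝ) = k * (16 / k) := by field_simp
        _ ≤ k * P.card := mul_le_mul_of_nonneg_left (h2.trans h1) hk0.le
    have hPc : 0 < P.card := by
      rcases Nat.eq_zero_or_pos P.card with h | h
      · rw [h] at hP1
        norm_num at hP1
      · exact h
    have hPne : P.Nonempty := card_pos.1 hPc
    obtain ⟨q, hq⟩ : ∃ q : ℝ, q = (P.card : ℝ) := ⟨_, rfl⟩
    obtain ⟨n, hn⟩ : ∃ n : ℝ, n = (X.card : ℝ) := ⟨_, rfl⟩
    have hq0 : 0 < q := by rw [hq]; exact_mod_cast hPc
    have hn0 : 0 < n := by rw [hn]; exact_mod_cast hXc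
    have hXA' : 15 * (X.card : ℝ) ≤ 16 * A.card := by
      have h1 : (X.card : ℝ) = (X \ A).card + A.card := by exact_mod_cast (card_sdiff_add_card_eq_card hA).symm
      rw [← hn] at h1 hXA ⊢
      have h2 : e * n ≤ 1 / 40 * n := mul_le_mul_of_nonneg_right (by linarith) hn0.le
      linarith
    -- goodness in `P`
    have hgood : ∀ w ∈ W, Good R (κ₁ / 2) (5 * η) P w := by
      intro w hw
      refine hF3 P hPX (κ₁ / 2) (5 * η) ?_ ?_ w (hWX hw) (mem_filter.1 hw).2
      · intro F hF hFc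
        have h1 := hrep.lower hA hXA hP hPne (mem_insert_of_mem (mem_union_left _ hF)) (hF2 F hF)
        rw [← hn, ← hq] at h1
        rw [← hn] at hFc
        rw [← hq]
        have h2 : n * (κ₁ / 2 * q) ≤ (F.card - (e + e) * n) * q := by
          have h3 : κ₁ / 2 * n ≤ F.card - (e + e) * n := by nlinarith
          calc n * (κ₁ / 2 * q) = (κ₁ / 2 * n) * q := by ring
            _ ≤ _ := mul_le_mul_of_nonneg_right h3 hq0.le
        exact le_of_mul_le_mul_left (h2.trans h1) hn0
      · intro F hF hFc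
        have h1 := hrep.upper hA hXA' hP hPne
          (mem_insert_of_mem (mem_union_right _ (mem_image.2 ⟨F, hF, rfl⟩)))
        rw [← hn, ← hq] at h1
        rw [← hn] at hFc
        rw [← hq]
        have h2 : (16 * F.card + 15 * e * n) * q ≤ 15 * n * (5 * η * q) := by
          have h3 : 16 * (F.card : ℝ) + 15 * e * n ≤ 15 * n * (5 * η) := by nlinarith
          calc _ ≤ 15 * n * (5 * η) * q := mul_le_mul_of_nonneg_right h3 hq0.le
            _ = 15 * n * (5 * η * q) := by ring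
        exact le_of_mul_le_mul_left (h1.trans h2) (by positivity)
    -- the good out-neighbours in `P`
    set WP := W ∩ P with hWP
    have hWPc : k / 2 * q ≤ (WP.card : ℝ) := by
      have h1 := hrep.lower hA hXA hP hPne (mem_insert_self _ _) hWX
      rw [← hn, ← hq] at h1
      rw [← hn] at hWc
      have h2 : n * (k / 2 * q) ≤ (W.card - (e + e) * n) * q := by
        have h3 : k / 2 * n ≤ W.card - (e + e) * n := by nlinarith
        calc n * (k / 2 * q) = (k / 2 * n) * q := by ring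
          _ ≤ _ := mul_le_mul_of_nonneg_right h3 hq0.le
      exact le_of_mul_le_mul_left (h2.trans h1) hn0
    obtain ⟨j, hj⟩ : ∃ j : ℕ, j = ⌈k / 8 * q⌉₊ := ⟨_, rfl⟩
    have hj1 : k / 8 * q ≤ j := by rw [hj]; exact Nat.le_ceil _
    have hj2 : (j : ℝ) < k / 8 * q + 1 := by rw [hj]; exact Nat.ceil_lt_add_one (by positivity)
    have hlow := card_low_nI hT WP j
    rw [← hq] at hP1 hsz hblk
    have hkq : 0 < k * q := by positivity
    have hβ : k / 32 * q ≤ 3 * η * q := mul_le_mul_of_nonneg_right (by linarith) hq0.le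
    have hηq : 0 < η * q := by positivity
    have hdcl : ((dcl c : ℕ) : ℝ) ≤ c.size := by exact_mod_cast dcl_le c
    have hc0 : (0 : ℝ) ≤ dcl c := Nat.cast_nonneg _
    refine hn₀ hT P (R z) ((le_max_left _ _).trans hPm) c hlen hdeg ?_ ?_
    · rw [← hq]
      have h1 : (1 - 8 * η) * q ≤ (1 - k / 32) * q := mul_le_mul_of_nonneg_right (by linarith) hq0.le
      linarith
    · rw [← hq]
      have h1 : WP \ WP.filter (fun u => (nI R WP u).card < j) ⊆
          P.filter (fun w => R z w ∧ Wide R (κ₁ / 2) ((dcl c + 1) + k / 32 * q) P w ∧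
            Wide (fun a b => R b a) (κ₁ / 2) ((AEB.blk c + 1) + k / 32 * q) P w) := by
        intro w hw
        rw [mem_sdiff, mem_filter, not_and, not_lt] at hw
        have hwW : w ∈ W := (mem_inter.1 hw.1).1
        have hwP : w ∈ P := (mem_inter.1 hw.1).2
        have hwj := hw.2 hw.1
        rw [mem_filter]
        refine ⟨hwP, ?_, ?_, ?_⟩
        · exact (mem_nO.1 (mem_filter.1 hwW).1).2
        · intro Q hQ hnQ hcQ
          have h2 := hgood w hwW Q hQ hnQ hcQ
          rw [← hq] at h2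
          have h3 : (P.card : ℝ) = (P \ Q).card + Q.card := by exact_mod_cast (card_sdiff_add_card_eq_card hQ).symm
          rw [← hq] at h3
          have h4 : ((dcl c : ℝ) + 1) ≤ (c.size + 1) := by linarith
          have h5 : (1 - 8 * η) * q = q - 8 * (η * q) := by ring
          have h6 : 5 * η * q = 5 * (η * q) := by ring
          have h7 : 3 * η * q = 3 * (η * q) := by ring
          rw [h5] at hsz
          rw [h6] at h2
          rw [h7] at hβ
          linarith
        · intro Q hQ hnQ _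
          have h2 : nI R WP w ⊆ Q := by
            intro u hu
            rw [mem_nI] at hu
            exact hnQ (mem_nO.2 ⟨(mem_inter.1 hu.1).2, hu.2⟩)
          have h3 : (j : ℝ) ≤ Q.card := by exact_mod_cast hwj.trans (card_le_card h2)
          have h4 : k / 16 * q = k * q / 16 := by ring
          have h5 : k / 32 * q = k * q / 32 := by ring
          have h6 : k / 8 * q = k * q / 8 := by ring
          rw [h4] at hblk
          rw [h6] at hj1
          rw [h5]
          linarith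
      have h2 : WP.card ≤ (WP \ WP.filter (fun u => (nI R WP u).card < j)).card + 2 * j := by
        have h3 := card_sdiff_add_card_eq_card (filter_subset (fun u => (nI R WP u).card < j) WP)
        omega
      have h3 : (WP.card : ℝ) ≤ (WP \ WP.filter (fun u => (nI R WP u).card < j)).card + 2 * j := by
        exact_mod_cast h2
      have h4 : ((WP \ WP.filter (fun u => (nI R WP u).card < j)).card : ℝ) ≤
          ((P.filter (fun w => R z w ∧ Wide R (κ₁ / 2) ((dcl c + 1) + k / 32 * q) P w ∧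
            Wide (fun a b => R b a) (κ₁ / 2) ((AEB.blk c + 1) + k / 32 * q) P w)).card : ℝ) := by
        exact_mod_cast card_le_card h1
      refine le_trans ?_ h4
      have h5 : k / 32 * q = k * q / 32 := by ring
      have h6 : k / 8 * q = k * q / 8 := by ring
      have h7 : k / 2 * q = k * q / 2 := by ring
      rw [h6] at hj2
      rw [h7] at hWPc
      rw [h5]
      linarith


/-- the items of `AEG.ItX`: arbitrary trees with a small in-closure of the root at good hosts, with ratio one -/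
theorem itX_one (b : ℕ) (hb : 1 ≤ b) {κ η : ℝ} (hκ : 0 < κ) (hκ1 : κ ≤ 1) (hη : 0 < η) (hη1 : η ≤ 1 / 20) :
    ∃ (γ ε₀ μ₀ : ℝ) (m₁ : ℕ), 0 < γ ∧ 0 < ε₀ ∧ 0 < μ₀ ∧
      ∀ {V : Type} {R : V → V → Prop}, AE32.Tour R → ∀ (X : Finset V) (z : V), m₁ ≤ X.card → Good R κ η X z →
        ∀ ε μ : ℝ, 0 < ε → ε ≤ ε₀ → 0 < μ → μ ≤ μ₀ → ∀ D : Fd, D.len ≤ b → D.Deg b →
          AEG.ItX R X ε μ ((D.size + 1) / (1 - 8 * η) + (AEB.blk D + 1) / γ + m₁) z D := by
  obtain ⟨γ, ε₀, μ₀, m₁, hγ, hε₀, hμ₀, -, h⟩ := light_one b hb hκ hκ1 hη hη1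
  refine ⟨γ, ε₀, μ₀, m₁, hγ, hε₀, hμ₀, ?_⟩
  intro V R hT X z hX hG ε μ _ hε _ hμ D hl hd
  obtain ⟨𝓕, c1, c2, c3⟩ := h hT X z hX hG
  have key := AEG.itX_lt (R := R) (X := X) (z := z) (b := b) (m₁ := m₁) (ρ := 1) (η := η) (γ := γ) (ε := ε) (μ := μ)
    zero_le_one (by linarith) hγ ⟨𝓕, c1, c2, ?_⟩ hl hd
  · simpa only [one_mul] using key
  · intro A hA hXA P hP hm hrep c h1 h2 h3 h4
    refine c3 A hA (hXA.trans (mul_le_mul_of_nonneg_right hμ (Nat.cast_nonneg _))) P hP hm ?_ c h1 h2 h3 h4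
    intro F hF
    refine le_trans (mul_le_mul_of_nonneg_right ?_ (Nat.cast_nonneg _)) (hrep F hF)
    linarith

end AET
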