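import Pool.Agent.AET.CfgL
import Pool.Agent.AEG.CoreG
import Pool.Agent.AEB.WrapB
import Pool.Agent.AEB.StepB
import Pool.Agent.AEB.MainB

/-!
# Light branches: the step
-/

namespace AET

open Finset AE15 AED AEB AEG
open scoped Classical

/-- the light theorem at good hosts, as a hypothesis -/
def LightH (b : ℕ) (κ η γ ε₀ μ₀ : ℝ) (m₁ : ℕ) : Prop :=
  ∀ {V : Type} {R : V → V → Prop}, AE32.Tour R → ∀ (X : Finset V) (z : V), m₁ ≤ X.card → Good R κ η X z →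
    ∀ ε μ : ℝ, 0 < ε → ε ≤ ε₀ → 0 < μ → μ ≤ μ₀ → ∀ D : Fd, D.len ≤ b → D.Deg b →
      ItX R X ε μ ((D.size + 1) / (1 - 8 * η) + (blk D + 1) / γ + m₁) z D

theorem gdU_self {V : Type*} {R : V → V → Prop} {κ η : ℝ} {X : Finset V} {v : V} : GdU R κ η X X v ↔ Good R κ η X v :=
  Iff.rfl

private theorem sum_le_isz {V : Type*} (η γ : ℝ) (hη : 0 < 1 - 8 * η) (hγ : 0 < γ) {B : ℝ} (m₁ : ℕ) (L : List (V × Fd))
    (hB : ∀ q ∈ L, (blk q.2 : ℝ) + 1 ≤ B) :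
    (L.map (fun q => ((q.2.size : ℝ) + 1) / (1 - 8 * η) + ((blk q.2 : ℝ) + 1) / γ + m₁)).sum ≤
      (AEB.isz L : ℝ) / (1 - 8 * η) + L.length * (B / γ) + L.length * (m₁ : ℝ) := by
  induction L with
  | nil => simp [AEB.isz]
  | cons q L ih =>
    have h1 := ih fun q hq => hB q (List.mem_cons_of_mem _ hq)
    have h2 : ((blk q.2 : ℝ) + 1) / γ ≤ B / γ := div_le_div_of_nonneg_right (hB q List.mem_cons_self) hγ.le
    have h3 : ((AEB.isz (q :: L) : ℕ) : ℝ) = (q.2.size + 1) + AEB.isz L := by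
      rw [AEB.isz_cons]
      push_cast
      ring
    have h4 : ((q.2.size : ℝ) + 1 + AEB.isz L) / (1 - 8 * η) = ((q.2.size : ℝ) + 1) / (1 - 8 * η) +
        (AEB.isz L : ℝ) / (1 - 8 * η) := add_div _ _ _
    rw [List.map_cons, List.sum_cons, h3, h4]
    simp only [List.length_cons]
    push_cast
    linarith

/-- **Step** -/
theorem stepL (p : NP) (hp : p.OK) (hab : ab p.b p.l ≤ p.a) (hB2 : (2 * p.b) ^ p.A0 ≤ p.B) {D₀ : ℕ} (hD₀ : p.A ≤ D₀)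
    {ω c η η₁ κ₀ κ₁ κ γ₀ τ s σ₂ μ₂ : ℝ} (P : KB D₀ ω c η η₁ κ₀ κ₁ κ γ₀ τ s σ₂ μ₂) {γ ε₀ μ₀ : ℝ} {m₁ : ℕ} (hγ : 0 < γ)
    (hε₀ : 0 < ε₀) (hμ₀ : 0 < μ₀) (hL : LightH p.b κ η γ ε₀ μ₀ m₁) : ∃ K n₀ : ℕ,
    ∀ {V : Type} {R : V → V → Prop}, AE32.Tour R → ∀ C : ℝ, 0 ≤ C → ∀ F : Fd, FOL p.b p.l K 0 F →
      (∀ F' : Fd, FOL p.b p.l K 0 F' → F'.size < F.size → EE R κ η s p 1 C F') →
      ∀ (X : Finset V) (N : V → Prop), 1 * ((F.size : ℝ) + 1) + C ≤ X.card → n₀ ≤ X.card →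
        Cl R (Good R κ η X) s p F X N → In R F N X := by
  have hnum := P.num
  obtain ⟨hω0, hω1, hc0, hc1, hη0, hη1, hη₁0, hη₁1, hκ₀0, hκ₁0, hκ₁1, hκ0, hκ1, hs0, hγ₀0, hτ0, hσ₂0, -, hκ₁η, hκs⟩ :=
    hnum
  obtain ⟨n₁, hcfg⟩ := cfg p hp hab hB2 hγ₀0 hs0
  have P' := P
  obtain ⟨hD, hω, hc, hη, hη₁, hκ₀, hκ₁, hκ, hγ₀, hτ, hs, hσ₂, hμ₂⟩ := P'
  -- the constants
  obtain ⟨μ, hμ⟩ : ∃ μ : ℝ, μ = min μ₀ (ω / 16) := ⟨_, rfl⟩
  have hμ0 : 0 < μ := by rw [hμ]; exact lt_min hμ₀ (by positivity)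
  have hμ1 : μ ≤ μ₀ := by rw [hμ]; exact min_le_left _ _
  have hμω : μ ≤ ω / 16 := by rw [hμ]; exact min_le_right _ _
  obtain ⟨σ, hσ⟩ : ∃ σ : ℝ, σ = min (min (γ₀ / 16) κ₁) (μ / (6 * (1 + p.c0 + p.c))) := ⟨_, rfl⟩
  have hpc : (0 : ℝ) < 6 * (1 + p.c0 + p.c) := by positivity
  have hσ0 : 0 < σ := by rw [hσ]; exact lt_min (lt_min (by positivity) hκ₁0) (by positivity)
  have hσ1 : σ ≤ γ₀ / 16 := by rw [hσ]; exact (min_le_left _ _).trans (min_le_left _ _)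
  have hσ2 : σ ≤ κ₁ := by rw [hσ]; exact (min_le_left _ _).trans (min_le_right _ _)
  have hσ3 : 6 * (1 + p.c0 + p.c) * σ ≤ μ := by
    have h1 : σ ≤ μ / (6 * (1 + p.c0 + p.c)) := by rw [hσ]; exact min_le_right _ _
    rw [le_div_iff₀ hpc] at h1
    linarith
  obtain ⟨ε, hε⟩ : ∃ ε : ℝ, ε = min (min ε₀ (c * σ / 4)) (μ / 2) := ⟨_, rfl⟩
  have hcσ : 0 < c * σ := by positivity
  have hε0 : 0 < ε := by rw [hε]; exact lt_min (lt_min hε₀ (by positivity)) (by positivity)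
  have hε1 : ε ≤ ε₀ := by rw [hε]; exact (min_le_left _ _).trans (min_le_left _ _)
  have hε2 : ε ≤ c * σ / 4 := by rw [hε]; exact (min_le_left _ _).trans (min_le_right _ _)
  have hε3 : ε ≤ μ / 2 := by rw [hε]; exact min_le_right _ _
  obtain ⟨m, hm⟩ : ∃ m : ℕ, m = p.b * (p.e + 1) := ⟨_, rfl⟩
  obtain ⟨n₂, hhost⟩ := host_itemsG (c := c) hε0 (by linarith) hc0 m
  obtain ⟨K, hK⟩ : ∃ K : ℕ, K = ⌈4 * m / (γ * ω)⌉₊ + 1 := ⟨_, rfl⟩
  have hK0 : 0 < K := by omega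
  have hK0' : (0 : ℝ) < K := by exact_mod_cast hK0
  have hKm : 4 * (m : ℝ) ≤ γ * ω * K := by
    have h1 : 4 * (m : ℝ) / (γ * ω) ≤ ⌈4 * (m : ℝ) / (γ * ω)⌉₊ := Nat.le_ceil _
    have h2 : 4 * (m : ℝ) / (γ * ω) ≤ K := by
      rw [hK]
      push_cast
      linarith
    rw [div_le_iff₀ (by positivity)] at h2
    linarith
  obtain ⟨A₀, hA₀⟩ : ∃ A₀ : ℕ, A₀ = max p.A (K * p.a) := ⟨_, rfl⟩
  obtain ⟨n₃, h₃⟩ := exists_big [(1, κ₀), ((2 : ℝ) ^ A₀, s), ((m : ℝ) * m₁, ω / 16), (2 * n₂, 1), (m₁, 1), (40, 1), (m, 1),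
      (8 * (p.c0 + p.c1 + p.u0 + p.g + 1 : ℝ), c * σ), (p.e, ε)] (by
    intro q hq
    simp only [List.mem_cons, List.not_mem_nil, or_false] at hq
    rcases hq with rfl | rfl | rfl | rfl | rfl | rfl | rfl | rfl | rfl
    · exact hκ₀0
    · exact hs0
    · show 0 < ω / 16
      positivity
    · exact one_pos
    · exact one_pos
    · exact one_pos
    · exact one_pos
    · exact hcσ
    · exact hε0)
  refine ⟨K, max n₁ n₃, ?_⟩
  intro V R hT C hC F hF ih X N hn hnX hcl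
  have hn1 : n₁ ≤ X.card := (le_max_left _ _).trans hnX
  have hn3 : n₃ ≤ X.card := (le_max_right _ _).trans hnX
  have hbig := h₃ X.card hn3
  have b1 : (1 : ℝ) ≤ κ₀ * X.card := hbig (1, κ₀) (by simp)
  have b2 : (2 : ℝ) ^ A₀ ≤ s * X.card := hbig ((2 : ℝ) ^ A₀, s) (by simp)
  have b3 : (m : ℝ) * m₁ ≤ ω / 16 * X.card := hbig ((m : ℝ) * m₁, ω / 16) (by simp)
  have b4 : 2 * (n₂ : ℝ) ≤ 1 * X.card := hbig (2 * (n₂ : ℝ), 1) (by simp)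
  have b5 : (m₁ : ℝ) ≤ 1 * X.card := hbig ((m₁ : ℝ), 1) (by simp)
  have b6 : (40 : ℝ) ≤ 1 * X.card := hbig (40, 1) (by simp)
  have b7 : (m : ℝ) ≤ 1 * X.card := hbig ((m : ℝ), 1) (by simp)
  have b8 : 8 * (p.c0 + p.c1 + p.u0 + p.g + 1 : ℝ) ≤ c * σ * X.card :=
    hbig (8 * (p.c0 + p.c1 + p.u0 + p.g + 1 : ℝ), c * σ) (by simp)
  have b9 : (p.e : ℝ) ≤ ε * X.card := hbig ((p.e : ℝ), ε) (by simp)
  rw [one_mul] at b4 b5 b6 b7
  by_cases hsz : F.size < A₀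
  · -- small trees
    obtain ⟨w, hw1, hw2, hw3⟩ := exists_tl hT (F.size + 1) (X.filter (fun v => Good R κ η X v ∧ N v)) (by
      have h1 := b2.trans hcl.1
      have h2 : 2 ^ A₀ ≤ (X.filter (fun v => Good R κ η X v ∧ N v)).card := by exact_mod_cast h1
      exact (Nat.pow_le_pow_right (by norm_num) (by omega)).trans h2)
    obtain ⟨x, A, hxA, hA, hE⟩ := trans_emb hT F w hw3 hw1
    have hmem : ∀ v ∈ insert x A, v ∈ X ∧ N v := by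
      intro v hv
      rw [hA, List.mem_toFinset] at hv
      have := mem_filter.1 (hw2 v hv)
      exact ⟨this.1, this.2.2⟩
    exact ⟨x, (hmem x (mem_insert_self _ _)).1, A, fun v hv => (hmem v (mem_insert_of_mem hv)).1, hxA,
      (hmem x (mem_insert_self _ _)).2, hE⟩
  push Not at hsz
  have hpA : p.A ≤ F.size := (le_max_left _ _).trans (hA₀ ▸ hsz)
  have hKa : K * p.a ≤ F.size + 1 := ((le_max_right p.A (K * p.a)).trans (hA₀ ▸ hsz)).trans (Nat.le_succ _)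
  have hX : X.Nonempty := by
    rw [← card_pos]
    have : (0 : ℝ) < X.card := by linarith
    exact_mod_cast this
  obtain ⟨G, hG, hGg, hGc, hGo⟩ := exists_G P hT X b1
  have hcη : c * η ≤ 1 * η := mul_le_mul_of_nonneg_right (by linarith) hη0.le
  have hSt : St R p (Good R κ η X) γ₀ s X G N := by
    refine ⟨hT, hG, fun g hg => ?_, hGc, hGo, hcl.1⟩
    exact AEB.Good.gdU (hGg g hg) (Subset.refl _) (mul_le_mul_of_nonneg_right (by linarith) (Nat.cast_nonneg _)) (by linarith)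
  obtain ⟨y₀, x, Z, L, D, ⟨hH, hq⟩, hDF, hDs, hsize, hcov⟩ := hcfg (Y := X) (Subset.refl _) hn1 hSt hKa hF le_rfl hpA hcl
  obtain ⟨hy₀, hx, hNy, hyZ, hZX, hPE, hZe, hxZ, hxD, hGd⟩ := hH
  have hins : insert y₀ Z ⊆ X := insert_subset hy₀ hZX
  -- the final class
  obtain ⟨𝓕x, H, h𝓕x, hHX, hHE, hHc, hfin⟩ := final_cl hT hp (κ := κ) (η := η) (s := s) (σ := σ) (δ := ε) (ε := ε)
    (c := c) (γ := γ₀ / 16) (E := insert y₀ Z) (x := x) (D := D) hG hGg hcov (by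
      rw [mem_insert]
      exact hxZ) ((card_insert_le _ _).trans hZe) hX hκ0 hη0 hκ₁0 hη₁0 hσ0 hε0.le hε0 hc0 (by linarith) hσ1 (by linarith)
    hσ2 (by linarith) (by linarith) hs0 (by rw [hs, hγ₀]; linarith) b8
  obtain ⟨Lh, hLh⟩ : ∃ Lh, L.Perm ((x, D) :: Lh) := ⟨L.erase (x, D), List.perm_cons_erase hxD⟩
  have hLl : L.length = Lh.length + 1 := by rw [hLh.length_eq, List.length_cons]
  have hlen : Lh.length ≤ m := by
    have h1 := hPE.length_le hF.1 hF.2.1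
    have h2 : p.b * (Z.card + 1) ≤ p.b * (p.e + 1) := Nat.mul_le_mul_left _ (by omega)
    omega
  have hmemL : ∀ q ∈ Lh, q ∈ L := fun q hq' => hLh.symm.subset (List.mem_cons_of_mem _ hq')
  obtain ⟨n, hnd⟩ : ∃ n : ℝ, n = (X.card : ℝ) := ⟨_, rfl⟩
  have hn0 : 0 < n := by rw [hnd]; linarith
  have hfn : (F.size : ℝ) + 1 ≤ n := by rw [hnd]; linarith
  obtain ⟨S, hS, hSZ, hE⟩ := coreG (R := R) (X := X) (H := H) (Z := Z) (Za := insert y₀ Z) (h := y₀) (e := x) (ω := ω)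
    (c := c) (μ := μ) (ε := ε) (δ := ε) (m := m) hω0 (by linarith) hc hμ0 hμω hε3
    (by exact_mod_cast b6) (by exact_mod_cast b7) h𝓕x hHX (by
      refine hHc.trans (mul_le_mul_of_nonneg_right ?_ (Nat.cast_nonneg _))
      linarith) (F := F) (L := L) (Lh := Lh) (cf := D)
    (t := fun q => ((q.2.size : ℝ) + 1) / (1 - 8 * η) + ((blk q.2 : ℝ) + 1) / γ + m₁) (by
      intro A Q P₀ a1 a2 a3 a4 a5 a6 a7 a8 a9 a10 a11
      have hcls := hfin A Q P₀ a1 a2 a3 a4 a5 a6 a7 a8 a9 a10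
      obtain ⟨y, hy, B, hB, hyB, hN, hEm⟩ := ih D hDF hDs P₀ (R x) (by
        have h1 : (insert y₀ Z \ Z).card ≤ 1 := by
          refine (card_le_card (t := {y₀}) ?_).trans (card_singleton _).le
          intro v hv
          rw [mem_sdiff, mem_insert] at hv
          rw [mem_singleton]
          exact hv.1.resolve_right hv.2
        have h2 : X.card + (D.size + 1) ≤ P₀.card + (F.size + 1) := by omega
        have h3 : (X.card : ℝ) + (D.size + 1) ≤ P₀.card + (F.size + 1) := by exact_mod_cast h2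
        linarith) hcls
      exact ⟨y, hy, B, hB, hyB, hN, hEm⟩) hPE (Subset.refl _) (fun q hq' => (PE.host hPE q hq').1)
    hHE.symm (by
      have h1 : (insert y₀ Z).card ≤ p.e := (card_insert_le _ _).trans hZe
      have h2 : ((insert y₀ Z).card : ℝ) ≤ p.e := by exact_mod_cast h1
      linarith) hLh hlen (fun q _ => by
      have : 0 < 1 - 8 * η := by linarith
      positivity) (fun q hq' => by
      have h1 := hGd q (hmemL q hq')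
      exact hL hT X q.1 (by exact_mod_cast b5) h1 ε μ hε0 hε1 hμ0 hμ1 q.2 (hq q (hmemL q hq')).2.1
        (hq q (hmemL q hq')).2.2) (by
      -- the sizes
      have hη8 : 0 < 1 - 8 * η := by linarith
      have h1 := sum_le_isz η γ hη8 hγ (B := ((F.size : ℝ) + 1) / K) m₁ Lh (by
        intro q hq'
        have h2 := (hq q (hmemL q hq')).1
        rw [le_div_iff₀ hK0']
        have h3 : (K : ℝ) * ((blk q.2 : ℝ) + 1) ≤ F.size + 1 := by exact_mod_cast h2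
        linarith)
      refine h1.trans ?_
      rw [← hnd]
      -- the total size
      have h2 : F.size = Z.card + (D.size + 1 + AEB.isz Lh) := by
        rw [hPE.size]
        congr 1
        unfold AEB.isz
        rw [(hLh.map _).sum_eq]
        simp
      have h3 : (AEB.isz Lh : ℝ) + (D.size + 1) ≤ F.size := by
        have : AEB.isz Lh + (D.size + 1) ≤ F.size := by omega
        exact_mod_cast this
      have h4 : 2 * ω * (F.size + 1) ≤ D.size + 1 := by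
        have g1 : (F.size : ℝ) + 1 ≤ D₀ * (D.size + 1) := by
          exact_mod_cast hsize.trans (Nat.mul_le_mul_right _ hD₀)
        have hD' : (64 : ℝ) ≤ D₀ := by exact_mod_cast hD
        rw [hω]
        have g2 : 2 * (1 / (2 * (D₀ : ℝ))) * (F.size + 1) = (F.size + 1) / D₀ := by
          field_simp
        rw [g2, div_le_iff₀ (by linarith)]
        linarith
      have h5 : (AEB.isz Lh : ℝ) / (1 - 8 * η) ≤ (1 - ω) * n := by
        rw [div_le_iff₀ hη8, hη]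
        have g1 : (AEB.isz Lh : ℝ) ≤ (1 - 2 * ω) * (F.size + 1) := by linarith
        have g2 : (1 - 2 * ω) * ((F.size : ℝ) + 1) ≤ (1 - 2 * ω) * n := mul_le_mul_of_nonneg_left hfn (by linarith)
        have g3 : (1 - ω) * n * (1 - 8 * (ω / 56)) = (1 - 2 * ω) * n + (6 * ω / 7 + ω * ω / 7) * n := by ring
        have g4 : 0 ≤ (6 * ω / 7 + ω * ω / 7) * n := by positivity
        linarith
      have h6 : (Lh.length : ℝ) * (((F.size : ℝ) + 1) / K / γ) ≤ ω / 4 * n := by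
        have g1 : (Lh.length : ℝ) ≤ m := by exact_mod_cast hlen
        have g2 : (0 : ℝ) ≤ ((F.size : ℝ) + 1) / K / γ := by positivity
        have g3 : ((F.size : ℝ) + 1) / K / γ ≤ n / K / γ :=
          div_le_div_of_nonneg_right (div_le_div_of_nonneg_right hfn hK0'.le) hγ.le
        have g4 : (Lh.length : ℝ) * (((F.size : ℝ) + 1) / K / γ) ≤ m * (n / K / γ) :=
          mul_le_mul g1 g3 g2 (Nat.cast_nonneg _)
        refine g4.trans ?_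
        have g5 : (m : ℝ) * (n / K / γ) = (m * n) / (γ * K) := by
          field_simp
        rw [g5, div_le_iff₀ (by positivity)]
        have g6 : 4 * (m : ℝ) * n ≤ γ * ω * K * n := mul_le_mul_of_nonneg_right hKm hn0.le
        linarith
      have h7 : (Lh.length : ℝ) * (m₁ : ℝ) ≤ ω / 16 * n := by
        have g1 : (Lh.length : ℝ) ≤ m := by exact_mod_cast hlen
        have g2 : (Lh.length : ℝ) * (m₁ : ℝ) ≤ m * m₁ := mul_le_mul_of_nonneg_right g1 (Nat.cast_nonneg _)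
        rw [hnd]
        linarith
      have h8 : 0 ≤ ω * n := by positivity
      linarith) (by exact_mod_cast b4) (fun A 𝓕 => hhost A 𝓕)
  refine ⟨y₀, hy₀, Z ∪ S, union_subset hZX hS, ?_, hNy, hE⟩
  rw [mem_union, not_or]
  exact ⟨hyZ, fun h => disjoint_left.1 hSZ h (mem_insert_self _ _)⟩

/-- **the main statement with `|T| + C` vertices** -/
theorem ee_all (p : NP) (hp : p.OK) (hab : ab p.b p.l ≤ p.a) (hB2 : (2 * p.b) ^ p.A0 ≤ p.B) {D₀ : ℕ} (hD₀ : p.A ≤ D₀)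
    {ω c η η₁ κ₀ κ₁ κ γ₀ τ s σ₂ μ₂ : ℝ} (P : KB D₀ ω c η η₁ κ₀ κ₁ κ γ₀ τ s σ₂ μ₂) {γ ε₀ μ₀ : ℝ} {m₁ : ℕ} (hγ : 0 < γ)
    (hε₀ : 0 < ε₀) (hμ₀ : 0 < μ₀) (hL : LightH p.b κ η γ ε₀ μ₀ m₁) : ∃ K C : ℕ,
    ∀ {V : Type} {R : V → V → Prop}, AE32.Tour R → ∀ F : Fd, FOL p.b p.l K 0 F → EE R κ η s p 1 C F := by
  obtain ⟨K, n₀, h⟩ := stepL p hp hab hB2 hD₀ P hγ hε₀ hμ₀ hL
  refine ⟨K, n₀, ?_⟩
  intro V R hT F
  induction hs : F.size using Nat.strong_induction_on generalizing F with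
  | _ n ih =>
    intro hF X N hn hcl
    refine h hT n₀ (Nat.cast_nonneg _) F hF (fun F' hF' hlt => ih F'.size (hs ▸ hlt) F' rfl hF') X N hn ?_ hcl
    have h1 : (0 : ℝ) ≤ F.size := Nat.cast_nonneg _
    have h2 : (n₀ : ℝ) ≤ X.card := by linarith
    exact_mod_cast h2

/-- constants in which `B` is large compared with `A0` -/
theorem exists_npL (b l : ℕ) (hb : 1 ≤ b) : ∃ p : NP, p.OK ∧ p.b = b ∧ p.l = l ∧ ab b l ≤ p.a ∧ (2 * p.b) ^ p.A0 ≤ p.B := by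
  obtain ⟨a, ha⟩ : ∃ a, a = max 1 (ab b l) := ⟨_, rfl⟩
  obtain ⟨c, hc⟩ : ∃ c, c = 2 ^ a + 2 * a ^ 2 + a + 2 := ⟨_, rfl⟩
  obtain ⟨cx, hcx⟩ : ∃ cx, cx = 2 ^ a + 4 * a + 8 := ⟨_, rfl⟩
  obtain ⟨q, hq⟩ : ∃ q, q = 4 * c + 2 * a := ⟨_, rfl⟩
  obtain ⟨g, hg⟩ : ∃ g, g = q + 2 * cx := ⟨_, rfl⟩
  obtain ⟨A0, hA0⟩ : ∃ A0, A0 = 2 * g := ⟨_, rfl⟩
  obtain ⟨B, hB⟩ : ∃ B, B = max (A0 + a + 1) ((2 * b) ^ A0) := ⟨_, rfl⟩
  obtain ⟨r0, hr0⟩ : ∃ r0, r0 = b * B := ⟨_, rfl⟩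
  obtain ⟨c0, hc0⟩ : ∃ c0, c0 = 2 ^ r0 + 2 * (2 * c + r0) ^ 2 + r0 + c + 2 := ⟨_, rfl⟩
  obtain ⟨e, he⟩ : ∃ e, e = 4 + 2 * r0 + 5 * a + A0 := ⟨_, rfl⟩
  obtain ⟨c1, hc1⟩ : ∃ c1, c1 = c0 + e + 2 ^ r0 + 2 := ⟨_, rfl⟩
  obtain ⟨M0, hM0⟩ : ∃ M0, M0 = 2 ^ (A0 + a + 1) + 2 * cx + 2 * a + 2 := ⟨_, rfl⟩
  refine ⟨⟨b, l, a, c, cx, q, g, A0, B, r0, c0, e, c1, M0, M0⟩, ⟨hb, ?_, hc.ge, hcx.ge, hq.ge, hg.ge, hA0.ge,
    ?_, hr0.ge, hc0.ge, he.ge, hc1.ge, hM0.ge, le_rfl⟩, rfl, rfl, ?_, ?_⟩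
  · rw [ha]
    exact le_max_left _ _
  · show A0 + a + 1 ≤ B
    rw [hB]
    exact le_max_left _ _
  · show ab b l ≤ a
    rw [ha]
    exact le_max_right _ _
  · show (2 * b) ^ A0 ≤ B
    rw [hB]
    exact le_max_right _ _

/-- **trees of the class, as forests** -/
theorem main_fd (b l : ℕ) (hb : 1 ≤ b) (hlight : ∀ κ η : ℝ, 0 < κ → κ ≤ 1 → 0 < η → η ≤ 1 / 20 → ∃ (γ ε₀ μ₀ : ℝ) (m₁ : ℕ),
      0 < γ ∧ 0 < ε₀ ∧ 0 < μ₀ ∧ LightH b κ η γ ε₀ μ₀ m₁) : ∃ K C : ℕ,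
    ∀ {V : Type} {R : V → V → Prop}, AE32.Tour R → ∀ F : Fd, FOL b l K 0 F → ∀ X : Finset V,
      F.size + 1 + C ≤ X.card → In R F (fun _ => True) X := by
  obtain ⟨p, hp, hpb, hpl, hab, hB2⟩ := exists_npL b l hb
  subst hpb hpl
  obtain ⟨ω, c, η, η₁, κ₀, κ₁, κ, γ₀, τ, s, σ₂, μ, P⟩ := exists_KB hp.D₀
  obtain ⟨hω0, hω1, hc0, hc1, hη0, hη1, hη₁0, hη₁1, hκ₀0, hκ₁0, hκ₁1, hκ0, hκ1, hs0, hγ₀0, hτ0, hσ₂0, -, hκ₁η, hκs⟩ :=
    P.num
  have hcη : c * η ≤ 1 * η := mul_le_mul_of_nonneg_right (by linarith) hη0.le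
  obtain ⟨γ, ε₀, μ₀, m₁, hγ, hε₀, hμ₀, hL⟩ := hlight κ η hκ0 (by linarith) hη0 (by linarith)
  obtain ⟨K, C, h⟩ := ee_all p hp hab hB2 le_rfl P hγ hε₀ hμ₀ hL
  refine ⟨K, C + ⌈1 / κ₀⌉₊, fun {V R} hT F hF X hn => ?_⟩
  refine h hT F hF X _ ?_ (cl_true P hT p F X ?_ _ fun _ => trivial)
  · have h2 : (F.size : ℝ) + 1 + C ≤ X.card := by exact_mod_cast (by omega : F.size + 1 + C ≤ X.card)
    linarith
  · have h1 : 1 / κ₀ ≤ (⌈1 / κ₀⌉₊ : ℝ) := Nat.le_ceil _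
    have h2 : ((⌈1 / κ₀⌉₊ : ℕ) : ℝ) ≤ X.card := by exact_mod_cast (by omega : ⌈1 / κ₀⌉₊ ≤ X.card)
    have h3 : 1 / κ₀ ≤ X.card := h1.trans h2
    rw [div_le_iff₀ hκ₀0] at h3
    linarith

end AET
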