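import Pool.Agent.AET.GlueL

/-!
# Light branches: the final theorem for both directions
-/

namespace AET

open Finset Relation AE15 AED AEB
open scoped Classical

/-- `h u` is a child of `u` with the maximal number of vertices behind it (the tree `G` is rooted at `r`; the vertices
behind `u` are the vertices `x` with `dist r x = dist r u + dist u x`) -/
def MainChild {τ : Type*} (G : SimpleGraph τ) (r : τ) (h : τ → τ) : Prop :=
  ∀ u w, G.Adj u w → G.dist r w = G.dist r u + 1 → G.Adj u (h u) ∧ G.dist r (h u) = G.dist r u + 1 ∧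
    {x | G.dist r x = G.dist r w + G.dist w x}.ncard ≤ {x | G.dist r x = G.dist r (h u) + G.dist (h u) x}.ncard

/-- every directed path with `l + 1` arcs towards `r` starts behind a light arc: an arc from `u` to a child `w ≠ h u`
such that the number of vertices from which a directed path towards `r` leads to `w` is at most `1 / K` of the number
of vertices behind `u` -/
def LightRuns {τ : Type*} (l K : ℕ) (E : τ → τ → Prop) (G : SimpleGraph τ) (r : τ) (h : τ → τ) : Prop :=
  ∀ p : ℕ → τ, (∀ i ≤ l, E (p i) (p (i + 1)) ∧ G.dist r (p i) = G.dist r (p (i + 1)) + 1) →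
    ∃ u w, E u w ∧ G.dist r w = G.dist r u + 1 ∧ w ≠ h u ∧
      K * {x | ReflTransGen (fun a b => E a b ∧ G.dist r a = G.dist r b + 1) x w}.ncard ≤
        {x | G.dist r x = G.dist r u + G.dist u x}.ncard ∧
      G.dist r (p 0) = G.dist r w + G.dist w (p 0)

/-- the final theorem with the mirror image -/
theorem final_both_fol (hm : ∀ b l : ℕ, 1 ≤ b → ∃ K C : ℕ,
    ∀ {V : Type} {R : V → V → Prop}, AE32.Tour R → ∀ F : Fd, FOL b l K 0 F → ∀ X : Finset V,
      F.size + 1 + C ≤ X.card → In R F (fun _ => True) X) (Δ l : ℕ) :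
    ∃ K C : ℕ, ∀ k n : ℕ, k + C ≤ n → ∀ R : Fin n → Fin n → Prop,
    (∀ a, ¬ R a a) → (∀ a b, a ≠ b → R a b ∨ R b a) → (∀ a b, R a b → ¬ R b a) →
    ∀ E : Fin (k + 1) → Fin (k + 1) → Prop,
      (∀ a b, E a b → ¬ E b a) →
      (SimpleGraph.fromRel E).IsTree →
      (∀ v, ((SimpleGraph.fromRel E).neighborSet v).ncard ≤ Δ) →
      ∀ (r : Fin (k + 1)) (h : Fin (k + 1) → Fin (k + 1)), MainChild (SimpleGraph.fromRel E) r h →
      LightRuns l K E (SimpleGraph.fromRel E) r h ∨
        LightRuns l K (fun a b => E b a) (SimpleGraph.fromRel E) r h →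
      ∃ f : Fin (k + 1) → Fin n, Function.Injective f ∧ ∀ a b, E a b → R (f a) (f b) := by
  obtain ⟨K, C, hC⟩ := final_of_fol hm Δ l
  refine ⟨K, C, fun k n hn R h1 h2 h3 E h4 h5 h6 r h hh h7 => ?_⟩
  rcases h7 with h7 | h7
  · exact hC k n hn R h1 h2 h3 E h4 h5 h6 ⟨r, h, hh, h7⟩
  · have he : SimpleGraph.fromRel (fun a b => E b a) = SimpleGraph.fromRel E := by
      ext a b
      rw [SimpleGraph.fromRel_adj, SimpleGraph.fromRel_adj, or_comm]
    obtain ⟨f, hf1, hf2⟩ := hC k n hn (fun a b => R b a) h1 (fun a b hab => (h2 a b hab).symm) (fun a b => h3 b a)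
      (fun a b => E b a) (fun a b => h4 b a) (by rw [he]; exact h5) (by rw [he]; exact h6) ⟨r, h, by
        rw [he]
        exact ⟨hh, h7⟩⟩
    exact ⟨f, hf1, fun a b hab => hf2 b a hab⟩

end AET
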