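import Pool.Agent.AET.NearL
import Pool.Agent.AET.GlueLPM
import Pool.Agent.AEG.GlueS

/-!
# Light branches along a short path: coded forests of the trees which hang on the path
-/

set_option autoImplicit false

namespace AET

open Finset Relation AE15 AED AEB
open scoped Classical

set_option linter.unusedSectionVars false

section gluep

variable {τ : Type*} [Fintype τ] {E P : τ → τ → Prop}

/-- the forest with the children forests `g c` of the vertices `c` of the list -/
private noncomputable def mkF (E : τ → τ → Prop) (v : τ) (g : τ → Fd) : List τ → Fd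
  | [] => .nil
  | c :: l => .node (decide (E v c)) (g c) (mkF E v g l)

private theorem mkF_trees (v : τ) (g : τ → Fd) (l : List τ) :
    (mkF E v g l).trees = l.map (fun c => (decide (E v c), g c)) := by
  induction l with
  | nil => rfl
  | cons c l ih => simp [mkF, Fd.trees, ih]

private theorem mkF_len (v : τ) (g : τ → Fd) (l : List τ) : (mkF E v g l).len = l.length := by
  induction l with
  | nil => rfl
  | cons c l ih => simp [mkF, Fd.len, ih]

private theorem mkF_size (v : τ) (g : τ → Fd) (l : List τ) :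
    (mkF E v g l).size = (l.map (fun c => (g c).size + 1)).sum := by
  induction l with
  | nil => rfl
  | cons c l ih =>
    simp only [mkF, Fd.size, ih, List.map_cons, List.sum_cons]
    omega

private theorem mkF_blk (v : τ) (g : τ → Fd) (l : List τ) :
    blk (mkF E v g l) = (l.map (fun c => if E v c then 0 else blk (g c) + 1)).sum := by
  induction l with
  | nil => rfl
  | cons c l ih =>
    simp only [mkF, blk, ih, List.map_cons, List.sum_cons, decide_eq_true_eq]

private theorem mkF_deg {b : ℕ} (v : τ) (g : τ → Fd) (l : List τ) (h : ∀ c ∈ l, (g c).len ≤ b ∧ (g c).Deg b) :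
    (mkF E v g l).Deg b := by
  induction l with
  | nil => trivial
  | cons c l ih =>
    exact ⟨(h c List.mem_cons_self).1, (h c List.mem_cons_self).2, ih fun d hd => h d (List.mem_cons_of_mem _ hd)⟩

/-- a copy of the forest gives a copy of the vertices -/
private def EmbL (E P : τ → τ → Prop) (v : τ) (l : List τ) (F : Fd) : Prop :=
  ∀ {V : Type} {R : V → V → Prop} {x : V} {S : Finset V}, Emb R F x S →
      ∃ f : τ → V, (∀ c ∈ l, Adj R (decide (E v c)) x (f c)) ∧ (∀ c ∈ l, ∀ a ∈ AE32.desc P c, f a ∈ S) ∧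
        (∀ c ∈ l, ∀ a ∈ AE32.desc P c, ∀ c' ∈ l, ∀ a' ∈ AE32.desc P c', f a = f a' → a = a') ∧
        ∀ c ∈ l, ∀ a ∈ AE32.desc P c, ∀ a', P a a' → Adj R (decide (E a a')) (f a) (f a')

/-- a copy of the tree gives a copy of the vertices below `v` -/
private def EmbV (E P : τ → τ → Prop) (v : τ) (c : Fd) : Prop :=
  ∀ {V : Type} {R : V → V → Prop} {x : V} {S : Finset V}, x ∉ S → Emb R c x S →
      ∃ f : τ → V, f v = x ∧ (∀ a ∈ AE32.desc P v, f a ∈ insert x S) ∧
        (∀ a ∈ AE32.desc P v, ∀ a' ∈ AE32.desc P v, f a = f a' → a = a') ∧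
        ∀ a ∈ AE32.desc P v, ∀ a', P a a' → Adj R (decide (E a a')) (f a) (f a')

private theorem embL_of (v : τ) (g : τ → Fd) (l : List τ) (hl : l.Nodup)
    (hdis : ∀ c ∈ l, ∀ d ∈ l, c ≠ d → Disjoint (AE32.desc P c) (AE32.desc P d))
    (h : ∀ c ∈ l, EmbV E P c (g c)) : EmbL E P v l (mkF E v g l) := by
  induction l with
  | nil =>
    intro V R x S _
    exact ⟨fun _ => x, by simp, by simp, by simp, by simp⟩
  | cons c l ih =>
    rw [List.nodup_cons] at hl
    have hF4 : EmbL E P v l (mkF E v g l) := ih hl.2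
      (fun c hc d hd => hdis c (List.mem_cons_of_mem _ hc) d (List.mem_cons_of_mem _ hd))
      (fun c hc => h c (List.mem_cons_of_mem _ hc))
    have hG4 : EmbV E P c (g c) := h c List.mem_cons_self
    have hcl : ∀ d ∈ l, Disjoint (AE32.desc P c) (AE32.desc P d) := fun d hd =>
      hdis c List.mem_cons_self d (List.mem_cons_of_mem _ hd) (fun e => hl.1 (e ▸ hd))
    have hnot : ∀ d ∈ l, ∀ a ∈ AE32.desc P d, a ∉ AE32.desc P c := fun d hd a ha ha' =>
      (Finset.disjoint_left.1 (hcl d hd)) ha' ha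
    intro V R x S hS
    obtain ⟨y, A, B, hy, hyA, hyB, hAB, rfl, hA, hB⟩ := hS
    obtain ⟨f₁, p1, p2, p3, p4⟩ := hG4 hyA hA
    obtain ⟨f₂, q1, q2, q3, q4⟩ := hF4 hB
    have hsep : Disjoint (insert y A) B := by
      rw [disjoint_insert_left]
      exact ⟨hyB, hAB⟩
    refine ⟨fun a => if a ∈ AE32.desc P c then f₁ a else f₂ a, ?_, ?_, ?_, ?_⟩
    · intro d hd
      rcases List.mem_cons.1 hd with rfl | hd
      · simp only [AE32.self_mem_desc, if_true, p1]
        exact hy
      · simp only [hnot d hd d (AE32.self_mem_desc d), if_false]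
        exact q1 d hd
    · intro d hd a ha
      rcases List.mem_cons.1 hd with rfl | hd
      · simp only [ha, if_true]
        have := p2 a ha
        rw [mem_insert] at this
        simp only [mem_insert, mem_union]
        tauto
      · simp only [hnot d hd a ha, if_false]
        exact mem_insert_of_mem (mem_union_right _ (q2 d hd a ha))
    · intro d hd a ha d' hd' a' ha' haa
      rcases List.mem_cons.1 hd with e | hd1
      · rw [e] at ha
        rcases List.mem_cons.1 hd' with e' | hd2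
        · rw [e'] at ha'
          simp only [ha, ha', if_true] at haa
          exact p3 a ha a' ha' haa
        · simp only [ha, if_true, hnot d' hd2 a' ha', if_false] at haa
          exact absurd (haa ▸ q2 d' hd2 a' ha') ((Finset.disjoint_left.1 hsep) (p2 a ha))
      · rcases List.mem_cons.1 hd' with e' | hd2
        · rw [e'] at ha'
          simp only [ha', if_true, hnot d hd1 a ha, if_false] at haa
          exact absurd (haa.symm ▸ q2 d hd1 a ha) ((Finset.disjoint_left.1 hsep) (p2 a' ha'))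
        · simp only [hnot d hd1 a ha, hnot d' hd2 a' ha', if_false] at haa
          exact q3 d hd1 a ha d' hd2 a' ha' haa
    · intro d hd a ha a' haa
      rcases List.mem_cons.1 hd with rfl | hd
      · have ha' : a' ∈ AE32.desc P d := AE32.mem_desc.2 ((AE32.mem_desc.1 ha).tail haa)
        simp only [ha, ha', if_true]
        exact p4 a ha a' haa
      · have ha' : a' ∈ AE32.desc P d := AE32.mem_desc.2 ((AE32.mem_desc.1 ha).tail haa)
        simp only [hnot d hd a ha, hnot d hd a' ha', if_false]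
        exact q4 d hd a ha a' haa
/-- the conditions on a code of the tree below `v`, without runs and light branches -/
private def CodesB (E P : τ → τ → Prop) (b : ℕ) (v : τ) (c : Fd) : Prop :=
  c.size + 1 = (AE32.desc P v).card ∧ c.len ≤ b ∧ c.Deg b ∧ blk c + 1 = (inc E P v).card ∧ EmbV E P v c

/-- `v` is not behind a light arc inside `D` -/
private def NLt (P La : τ → τ → Prop) (D : τ → Prop) (v : τ) : Prop :=
  ∀ u w, D u → P u w → La u w → v ∉ AE32.desc P w

private theorem wk_le {l : ℕ} {La : τ → τ → Prop} {D : τ → Prop}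
    (h7 : ∀ f : ℕ → τ, (∀ i ≤ l, E (f i) (f (i + 1)) ∧ P (f (i + 1)) (f i) ∧ D (f i)) → ¬ NLt P La D (f 0)) {j : ℕ}
    {v : τ} (h : AEG.Wk E P D j v) (hv : NLt P La D v) : j ≤ l := by
  obtain ⟨f, h1, h3, h2⟩ := h
  by_contra hj
  push Not at hj
  exact h7 f (fun i hi => ⟨(h2 i (by omega)).1, (h2 i (by omega)).2, h3 i (by omega)⟩) (h1 ▸ hv)

private theorem mkF_inL_tail {L K S j : ℕ} (v : τ) (g : τ → Fd) (l : List τ)
    (h : ∀ c ∈ l, (E v c → K * (blk (g c) + 1) ≤ S ∨ InL L K true ((g c).size + 1) 0 (g c)) ∧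
      (¬ E v c → j + 1 ≤ L ∧ InL L K true ((g c).size + 1) (j + 1) (g c))) : InL L K false S j (mkF E v g l) := by
  induction l with
  | nil => trivial
  | cons c l ih =>
    refine ⟨?_, ih fun d hd => h d (List.mem_cons_of_mem _ hd), by simp⟩
    obtain ⟨h1, h2⟩ := h c List.mem_cons_self
    by_cases he : E v c
    · simp only [he, decide_true, if_true, true_and]
      exact h1 he
    · simp only [he, decide_false, Bool.false_eq_true, if_false]
      exact h2 he

private theorem mkF_inL_head {L K S j : ℕ} (v : τ) (g : τ → Fd) (m : τ) (l : List τ)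
    (hm : (E v m → InL L K true ((g m).size + 1) 0 (g m)) ∧
      (¬ E v m → j + 1 ≤ L ∧ InL L K true ((g m).size + 1) (j + 1) (g m)))
    (hs : ∀ c ∈ l, (g c).size ≤ (g m).size)
    (h : ∀ c ∈ l, (E v c → K * (blk (g c) + 1) ≤ S ∨ InL L K true ((g c).size + 1) 0 (g c)) ∧
      (¬ E v c → j + 1 ≤ L ∧ InL L K true ((g c).size + 1) (j + 1) (g c))) :
    InL L K true S j (mkF E v g (m :: l)) := by
  refine ⟨?_, mkF_inL_tail v g l h, ?_⟩
  · by_cases he : E v m
    · simp only [he, decide_true, if_true]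
      exact Or.inr (hm.1 he)
    · simp only [he, decide_false, Bool.false_eq_true, if_false]
      exact hm.2 he
  · intro _ q hq
    rw [mkF_trees, List.mem_map] at hq
    obtain ⟨c, hc, rfl⟩ := hq
    exact hs c hc

private theorem mkF_nl {L K m : ℕ} (v : τ) (g : τ → Fd) (l : List τ)
    (h : ∀ c ∈ l, (E v c → InL L K true ((g c).size + 1) 0 (g c)) ∧ NL L K (g c) m) :
    NL L K (mkF E v g l) (m + 1) := by
  induction l with
  | nil => trivial
  | cons c l ih =>
    obtain ⟨h1, h2⟩ := h c List.mem_cons_self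
    refine ⟨fun he => h1 (by simpa using he), h2, ih fun d hd => h d (List.mem_cons_of_mem _ hd)⟩

private theorem rk_le {D : τ → Prop} (hD : ∀ a c, D a → P a c → D c) (rk : τ → ℕ)
    (hrk : ∀ u w, D u → P u w → rk w = rk u + 1) {u v : τ} (hu : D u) (h : ReflTransGen P u v) : D v ∧ rk u ≤ rk v := by
  induction h with
  | refl => exact ⟨hu, le_rfl⟩
  | @tail a c _ h2 ih => exact ⟨hD _ _ ih.1 h2, by have := hrk _ _ ih.1 h2; omega⟩

private theorem codes_gen {h : τ → ℕ} (hE : ∀ a b, P a b → h a < h b) (hin : ∀ a b c, P a c → P b c → a = b)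
    (hP : ∀ a c, P a c → E a c ∨ E c a) (hanti : ∀ a c, E a c → ¬ E c a) {b L K gg : ℕ}
    (hout : ∀ v, {w | E v w ∨ E w v}.ncard ≤ b) {D : τ → Prop} (hD : ∀ a c, D a → P a c → D c) (hm : τ → τ)
    (hmain : ∀ u w, P u w → P u (hm u) ∧ (AE32.desc P w).card ≤ (AE32.desc P (hm u)).card)
    (rk : τ → ℕ) (hrk : ∀ u w, D u → P u w → rk w = rk u + 1) (La : τ → τ → Prop)
    (hLa : ∀ u w, La u w ↔ E u w ∧ w ≠ hm u ∧ gg ≤ rk u ∧ K * (inc E P w).card ≤ (AE32.desc P u).card)
    (h7 : ∀ f : ℕ → τ, (∀ i ≤ L, E (f i) (f (i + 1)) ∧ P (f (i + 1)) (f i) ∧ D (f i)) → ¬ NLt P La D (f 0)) (n : ℕ) :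
    ∀ v j, D v → (AE32.desc P v).card = n → ∃ c, CodesB E P b v c ∧
      (AEG.Wk E P D j v → NLt P La D v → InL L K true (c.size + 1) j c) ∧ ∀ m, rk v + m ≤ gg → NL L K c m := by
  induction n using Nat.strong_induction_on with
  | _ n ih =>
    intro v j hDv hv
    set ch : Finset τ := univ.filter (fun w => P v w) with hch
    have hmemch : ∀ c, c ∈ ch ↔ P v c := by
      intro c
      rw [hch, mem_filter]
      simp
    have hlt : ∀ c, P v c → (AE32.desc P c).card < n := by
      intro c hc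
      rw [← hv]
      refine card_lt_card ⟨AE32.desc_subset hc, fun hcon => ?_⟩
      exact AE32.notMem_desc hE hc (hcon (AE32.self_mem_desc v))
    -- the codes of the children
    have hex : ∀ c, ∃ G, P v c → CodesB E P b c G ∧ (E v c → NLt P La D c → InL L K true (G.size + 1) 0 G) ∧
        (¬ E v c → AEG.Wk E P D j v → NLt P La D c → j + 1 ≤ L ∧ InL L K true (G.size + 1) (j + 1) G) ∧
        ∀ m, rk c + m ≤ gg → NL L K G m := by
      intro c
      by_cases hc : P v c
      · have hDc : D c := hD v c hDv hc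
        by_cases he : E v c
        · obtain ⟨G, h1, h2, h2'⟩ := ih _ (hlt c hc) c 0 hDc rfl
          exact ⟨G, fun _ => ⟨h1, fun _ h3 => h2 (AEG.wk_zero hDc) h3, fun h3 => absurd he h3, h2'⟩⟩
        · obtain ⟨G, h1, h2, h2'⟩ := ih _ (hlt c hc) c (j + 1) hDc rfl
          have h0 : E c v := (hP _ _ hc).resolve_left he
          refine ⟨G, fun _ => ⟨h1, fun h3 => absurd h3 he, fun _ h3 h4 => ?_, h2'⟩⟩
          have h5 : AEG.Wk E P D (j + 1) c := AEG.wk_succ h3 h0 hc hDc
          exact ⟨wk_le h7 h5 h4, h2 h5 h4⟩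
      · exact ⟨.nil, fun h => absurd h hc⟩
    choose g hg using hex
    -- the list of the children, the main one first
    obtain ⟨l, hl1, hl2, hl3⟩ : ∃ l : List τ, l.Nodup ∧ (∀ c, c ∈ l ↔ P v c) ∧
        (l = [] ∨ ∃ l', l = hm v :: l' ) := by
      by_cases hne : ∃ w, P v w
      · obtain ⟨w, hw⟩ := hne
        have h1 := (hmain v w hw).1
        refine ⟨hm v :: (ch.erase (hm v)).toList, ?_, ?_, Or.inr ⟨_, rfl⟩⟩
        · rw [List.nodup_cons]
          exact ⟨by simp, Finset.nodup_toList _⟩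
        · intro c
          rw [List.mem_cons, Finset.mem_toList, mem_erase, hmemch]
          constructor
          · rintro (rfl | h2)
            · exact h1
            · exact h2.2
          · intro h2
            by_cases h3 : c = hm v
            · exact Or.inl h3
            · exact Or.inr ⟨h3, h2⟩
      · refine ⟨[], List.nodup_nil, ?_, Or.inl rfl⟩
        intro c
        constructor
        · intro h; simp at h
        · intro h; exact absurd ⟨c, h⟩ hne
    have hfin : l.toFinset = ch := by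
      ext c
      rw [List.mem_toFinset, hl2, hmemch]
    have hsum : ∀ q : τ → ℕ, (l.map q).sum = ∑ c ∈ ch, q c := by
      intro q
      rw [← hfin, List.sum_toFinset q hl1]
    have hdesc : AE32.desc P v = insert v (ch.biUnion (AE32.desc P)) := by
      ext x
      rw [mem_insert, mem_biUnion, AE32.mem_desc, ReflTransGen.cases_head_iff]
      constructor
      · rintro (h1 | ⟨c, h1, h2⟩)
        · exact Or.inl h1.symm
        · exact Or.inr ⟨c, by simp [hch, h1], AE32.mem_desc.2 h2⟩
      · rintro (h1 | ⟨c, h1, h2⟩)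
        · exact Or.inl h1.symm
        · exact Or.inr ⟨c, by simpa [hch] using h1, AE32.mem_desc.1 h2⟩
    have hnv : v ∉ ch.biUnion (AE32.desc P) := by
      rw [mem_biUnion]
      rintro ⟨c, h1, h2⟩
      exact AE32.notMem_desc hE (by simpa [hch] using h1) h2
    have hincv : inc E P v = insert v ((ch.filter (fun c => ¬ E v c)).biUnion (inc E P)) := by
      ext x
      rw [mem_insert, mem_biUnion, mem_inc, ReflTransGen.cases_head_iff]
      constructor
      · rintro (h1 | ⟨c, h1, h2⟩)
        · exact Or.inl h1.symm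
        · refine Or.inr ⟨c, ?_, mem_inc.2 h2⟩
          rw [mem_filter, hmemch]
          exact ⟨h1.1, hanti _ _ h1.2⟩
      · rintro (h1 | ⟨c, h1, h2⟩)
        · exact Or.inl h1.symm
        · rw [mem_filter, hmemch] at h1
          exact Or.inr ⟨c, ⟨h1.1, (hP _ _ h1.1).resolve_left h1.2⟩, mem_inc.1 h2⟩
    have hnv' : v ∉ (ch.filter (fun c => ¬ E v c)).biUnion (inc E P) := by
      rw [mem_biUnion]
      rintro ⟨c, h1, h2⟩
      rw [mem_filter, hmemch] at h1
      exact AE32.notMem_desc hE h1.1 (inc_subset _ h2)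
    have hsize : (mkF E v g l).size + 1 = (AE32.desc P v).card := by
      rw [mkF_size, hsum, hdesc, card_insert_of_notMem hnv, card_biUnion]
      · congr 1
        exact sum_congr rfl fun c hc => (hg c ((hmemch c).1 hc)).1.1
      · intro c hc d hd hcd
        exact AE32.desc_disjoint hE hin ((hmemch c).1 hc) ((hmemch d).1 hd) hcd
    have hblk : blk (mkF E v g l) + 1 = (inc E P v).card := by
      rw [mkF_blk, hsum, hincv, card_insert_of_notMem hnv', card_biUnion]
      · congr 1
        rw [sum_filter (s := ch) (fun c => ¬ E v c) (fun c => (inc E P c).card)]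
        apply sum_congr rfl
        intro c hc
        by_cases he : E v c
        · simp [he]
        · simp only [he, if_false, not_false_eq_true, if_true]
          exact (hg c ((hmemch c).1 hc)).1.2.2.2.1
      · intro c hc d hd hcd
        rw [mem_coe, mem_filter] at hc hd
        exact Disjoint.mono (inc_subset _) (inc_subset _)
          (AE32.desc_disjoint hE hin ((hmemch c).1 hc.1) ((hmemch d).1 hd.1) hcd)
    have hemb : EmbL E P v l (mkF E v g l) := embL_of (E := E) (P := P) v g l hl1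
      (fun c hc d hd hcd => AE32.desc_disjoint hE hin ((hl2 c).1 hc) ((hl2 d).1 hd) hcd)
      (fun c hc => (hg c ((hl2 c).1 hc)).1.2.2.2.2)
    refine ⟨mkF E v g l, ⟨hsize, ?_, ?_, hblk, ?_⟩, ?_, ?_⟩
    · rw [mkF_len, ← List.toFinset_card_of_nodup hl1, hfin, hch]
      have h1 := hout v
      have h2 : {w | P v w}.ncard ≤ {w | E v w ∨ E w v}.ncard :=
        Set.ncard_le_ncard (fun w hw => hP v w hw) (Set.toFinite _)
      have h3 := h2.trans h1
      rwa [Set.ncard_eq_toFinset_card', Set.toFinset_ofPred] at h3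
    · exact mkF_deg v g l fun c hc => ⟨(hg c ((hl2 c).1 hc)).1.2.1, (hg c ((hl2 c).1 hc)).1.2.2.1⟩
    · intro V R x S hxS hS
      obtain ⟨f, q1, q2, q3, q4⟩ := hemb hS
      have hcase : ∀ a ∈ AE32.desc P v, a = v ∨ ∃ c ∈ l, a ∈ AE32.desc P c := by
        intro a ha
        rw [hdesc, mem_insert, mem_biUnion] at ha
        rcases ha with h1 | ⟨c, h1, h2⟩
        · exact Or.inl h1
        · exact Or.inr ⟨c, (hl2 c).2 ((hmemch c).1 h1), h2⟩
      have hne : ∀ c ∈ l, ∀ a ∈ AE32.desc P c, a ≠ v := by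
        rintro c hc a ha rfl
        exact AE32.notMem_desc hE ((hl2 c).1 hc) ha
      refine ⟨fun a => if a = v then x else f a, by simp, ?_, ?_, ?_⟩
      · intro a ha
        rcases hcase a ha with rfl | ⟨c, hc, hac⟩
        · simp
        · simp only [hne c hc a hac, if_false]
          exact mem_insert_of_mem (q2 c hc a hac)
      · intro a ha a' ha' haa
        rcases hcase a ha with rfl | ⟨c, hc, hac⟩
        · rcases hcase a' ha' with rfl | ⟨c', hc', hac'⟩
          · rfl
          · simp only [if_true, hne c' hc' a' hac', if_false] at haa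
            exact absurd (haa ▸ q2 c' hc' a' hac') hxS
        · rcases hcase a' ha' with rfl | ⟨c', hc', hac'⟩
          · simp only [if_true, hne c hc a hac, if_false] at haa
            exact absurd (haa.symm ▸ q2 c hc a hac) hxS
          · simp only [hne c hc a hac, hne c' hc' a' hac', if_false] at haa
            exact q3 c hc a hac c' hc' a' hac' haa
      · intro a ha a' haa
        have ha'v : a' ≠ v := by
          rintro rfl
          have h1 := AE32.rank_le hE (AE32.mem_desc.1 ha)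
          have h2 := hE _ _ haa
          omega
        rcases hcase a ha with rfl | ⟨c, hc, hac⟩
        · simp only [if_true, ha'v, if_false]
          exact q1 a' ((hl2 a').2 haa)
        · simp only [hne c hc a hac, ha'v, if_false]
          exact q4 c hc a hac a' haa
    · intro hw hNL
      -- the children which are not behind a light arc
      have hNLc : ∀ c, P v c → ¬ La v c → NLt P La D c := by
        intro c hc hcl u w hDu huw hL hcw
        rcases (AE32.mem_desc.1 hcw).cases_tail with h1 | ⟨e, h1, h2⟩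
        · subst h1
          obtain rfl := hin _ _ _ huw hc
          exact hcl hL
        · obtain rfl := hin _ _ _ h2 hc
          exact hNL u w hDu huw hL (AE32.mem_desc.2 h1)
      have hany : ∀ c, P v c → (E v c → K * (blk (g c) + 1) ≤ (mkF E v g l).size + 1 ∨
          InL L K true ((g c).size + 1) 0 (g c)) ∧
          (¬ E v c → j + 1 ≤ L ∧ InL L K true ((g c).size + 1) (j + 1) (g c)) := by
        intro c hc
        obtain ⟨h1, h2, h3, -⟩ := hg c hc
        refine ⟨fun he => ?_, fun he => h3 he hw (hNLc c hc fun h => absurd ((hLa _ _).1 h).1 he)⟩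
        by_cases hlight : La v c
        · left
          rw [h1.2.2.2.1, hsize]
          exact ((hLa _ _).1 hlight).2.2.2
        · right
          exact h2 he (hNLc c hc hlight)
      rcases hl3 with rfl | ⟨l', rfl⟩
      · trivial
      · have hmv : P v (hm v) := (hl2 _).1 List.mem_cons_self
        obtain ⟨h1, h2, h3, -⟩ := hg (hm v) hmv
        have hNm : NLt P La D (hm v) := hNLc _ hmv fun h => ((hLa _ _).1 h).2.1 rfl
        refine mkF_inL_head v g (hm v) l' ⟨fun he => h2 he hNm, fun he => h3 he hw hNm⟩ ?_ ?_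
        · intro c hc
          have hcv : P v c := (hl2 c).1 (List.mem_cons_of_mem _ hc)
          have h4 := (hmain v c hcv).2
          have h5 := (hg c hcv).1.1
          have h6 := h1.1
          omega
        · intro c hc
          exact hany c ((hl2 c).1 (List.mem_cons_of_mem _ hc))
    · intro m hmg
      cases m with
      | zero => exact NL.zero _
      | succ m =>
        refine mkF_nl v g l fun c hc => ?_
        have hcv : P v c := (hl2 c).1 hc
        obtain ⟨h1, h2, h3, h4⟩ := hg c hcv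
        have hrc := hrk v c hDv hcv
        refine ⟨fun he => h2 he ?_, h4 m (by omega)⟩
        intro u w hDu huw hL hcw
        have h5 := (rk_le hD rk hrk (hD _ _ hDu huw) (AE32.mem_desc.1 hcw)).2
        have h6 := hrk u w hDu huw
        have h8 := ((hLa _ _).1 hL).2.2.1
        omega

/-- the vertices behind `u`, seen from `ρ` -/
theorem reach_iffP {G : SimpleGraph τ} (hG : G.IsTree) (ρ u : τ) (v : τ) :
    ReflTransGen (fun a c => G.Adj a c ∧ G.dist ρ c = G.dist ρ a + 1) u v ↔ G.dist ρ v = G.dist ρ u + G.dist u v := by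
  constructor
  · intro h
    induction h with
    | refl => simp
    | @tail a c _ h2 ih =>
      have h3 := hG.connected.dist_triangle (u := ρ) (v := u) (w := c)
      have h4 := hG.connected.dist_triangle (u := u) (v := a) (w := c)
      have h5 : G.dist a c = 1 := SimpleGraph.dist_eq_one_iff_adj.2 h2.1
      have h6 := h2.2
      omega
  · generalize hn : G.dist u v = n
    intro h
    induction n generalizing v with
    | zero =>
      rw [hG.connected.dist_eq_zero_iff] at hn
      rw [hn]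
    | succ n ih =>
      obtain ⟨p, hp⟩ := hG.connected.exists_walk_length_eq_dist u v
      have hnil : ¬ p.Nil := by
        intro hn'
        have := SimpleGraph.Walk.length_eq_zero_iff.2 hn'
        omega
      have hadj := p.adj_penultimate hnil
      have h2 := SimpleGraph.dist_le p.dropLast
      have h3 : p.dropLast.length + 1 = p.length := by
        have := congrArg SimpleGraph.Walk.length (p.concat_dropLast hadj)
        rw [SimpleGraph.Walk.length_concat] at this
        exact this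
      have h4 := hG.connected.dist_triangle (u := u) (v := p.penultimate) (w := v)
      have h5 : G.dist p.penultimate v = 1 := SimpleGraph.dist_eq_one_iff_adj.2 hadj
      have h6 := hG.connected.dist_triangle (u := ρ) (v := p.penultimate) (w := v)
      have h7 := hG.connected.dist_triangle (u := ρ) (v := u) (w := p.penultimate)
      have h8 : G.dist u p.penultimate = n := by omega
      exact (ih p.penultimate h8 (by omega)).tail ⟨hadj, by omega⟩

theorem inc_iffP {w x : τ} : x ∈ inc E P w ↔ ReflTransGen (fun a b => E a b ∧ P b a) x w := by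
  rw [mem_inc, ← Relation.reflTransGen_swap]
  constructor
  · intro h
    refine ReflTransGen.mono ?_ _ _ h
    intro a b hab
    exact ⟨hab.2, hab.1⟩
  · intro h
    refine ReflTransGen.mono ?_ _ _ h
    intro a b hab
    exact ⟨hab.2, hab.1⟩

/-- the forest `F` codes the trees below the vertices of `K`, which are joined to `v` by arcs away from `v` -/
def SideF (E P : τ → τ → Prop) (v : τ) (K : Finset τ) (F : Fd) : Prop :=
  F.size = (K.biUnion (AE32.desc P)).card ∧ (∀ q ∈ F.trees, q.1 = true) ∧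
    ∀ {V : Type} {R : V → V → Prop} {x : V} {S : Finset V}, Emb R F x S →
      ∃ f : τ → V, (∀ u ∈ K, R x (f u)) ∧ (∀ a ∈ K.biUnion (AE32.desc P), f a ∈ S) ∧
        (∀ a ∈ K.biUnion (AE32.desc P), ∀ a' ∈ K.biUnion (AE32.desc P), f a = f a' → a = a') ∧
        ∀ a ∈ K.biUnion (AE32.desc P), ∀ a', P a a' → Adj R (decide (E a a')) (f a) (f a')

/-- the trees below some children of `v`, all of them joined to `v` by arcs away from `v`, as a coded forest -/
theorem side_genL {h : τ → ℕ} (hE : ∀ a b, P a b → h a < h b) (hin : ∀ a b c, P a c → P b c → a = b)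
    (hP : ∀ a c, P a c → E a c ∨ E c a) (hanti : ∀ a c, E a c → ¬ E c a) {b L K gg : ℕ}
    (hout : ∀ v, {w | E v w ∨ E w v}.ncard ≤ b) (hm : τ → τ)
    (hmain : ∀ u w, P u w → P u (hm u) ∧ (AE32.desc P w).card ≤ (AE32.desc P (hm u)).card)
    (v : τ) (rk : τ → ℕ) (Kc : Finset τ) (hK : ∀ u ∈ Kc, E v u ∧ P v u) (hrv : ∀ u ∈ Kc, rk u = 1)
    (hrk : ∀ u ∈ Kc, ∀ x w, ReflTransGen P u x → P x w → rk w = rk x + 1)
    (h7 : ∀ u ∈ Kc, ∀ f : ℕ → τ, (∀ i ≤ L, E (f i) (f (i + 1)) ∧ P (f (i + 1)) (f i) ∧ ReflTransGen P u (f i)) →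
      ∃ x w, ReflTransGen P u x ∧ P x w ∧ E x w ∧ w ≠ hm x ∧ gg ≤ rk x ∧
        K * (inc E P w).card ≤ (AE32.desc P x).card ∧ f 0 ∈ AE32.desc P w) :
    ∃ F : Fd, FON b L K gg F ∧ SideF E P v Kc F := by
  have hex : ∀ u, ∃ G, u ∈ Kc → CodesB E P b u G ∧ InL L K true (G.size + 1) 0 G ∧ ∀ m, 1 + m ≤ gg → NL L K G m := by
    intro u
    by_cases hu : u ∈ Kc
    · obtain ⟨G, h1, h2, h3⟩ := codes_gen (D := fun x => ReflTransGen P u x) (gg := gg) (K := K) (L := L) hE hin hP
        hanti hout
        (fun a c ha hac => ReflTransGen.tail ha hac) hm hmain rk (fun x w hx hxw => hrk u hu x w hx hxw)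
        (fun x w => E x w ∧ w ≠ hm x ∧ gg ≤ rk x ∧ K * (inc E P w).card ≤ (AE32.desc P x).card) (fun _ _ => Iff.rfl)
        (fun f hf hN => by
          obtain ⟨x, w, e1, e2, e3, e4, e5, e6, e7⟩ := h7 u hu f hf
          exact hN x w e1 e2 ⟨e3, e4, e5, e6⟩ e7) _ u 0 ReflTransGen.refl rfl
      refine ⟨G, fun _ => ⟨h1, h2 (AEG.wk_zero ReflTransGen.refl) ?_, fun m hm => h3 m (by rw [hrv u hu]; exact hm)⟩⟩
      intro x w hx hxw _ hw
      have e1 := AE32.rank_le hE hx
      have e2 := hE _ _ hxw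
      have e3 := AE32.rank_le hE (AE32.mem_desc.1 hw)
      omega
    · exact ⟨.nil, fun h => absurd h hu⟩
  choose g hg using hex
  -- the list, the largest tree first
  obtain ⟨l, hl1, hl2, hl3⟩ : ∃ l : List τ, l.Nodup ∧ (∀ c, c ∈ l ↔ c ∈ Kc) ∧
      (l = [] ∨ ∃ u l', l = u :: l' ∧ ∀ c ∈ l', (AE32.desc P c).card ≤ (AE32.desc P u).card) := by
    by_cases hne : Kc.Nonempty
    · obtain ⟨u, hu, hmax⟩ := exists_max_image Kc (fun c => (AE32.desc P c).card) hne
      refine ⟨u :: (Kc.erase u).toList, ?_, ?_, Or.inr ⟨u, _, rfl, ?_⟩⟩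
      · rw [List.nodup_cons]
        exact ⟨by simp, Finset.nodup_toList _⟩
      · intro c
        rw [List.mem_cons, Finset.mem_toList, mem_erase]
        constructor
        · rintro (rfl | h2)
          · exact hu
          · exact h2.2
        · intro h2
          by_cases h3 : c = u
          · exact Or.inl h3
          · exact Or.inr ⟨h3, h2⟩
      · intro c hc
        exact hmax c (mem_of_mem_erase (Finset.mem_toList.1 hc))
    · rw [not_nonempty_iff_eq_empty] at hne
      subst hne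
      exact ⟨[], List.nodup_nil, by simp, Or.inl rfl⟩
  have hfin : l.toFinset = Kc := by
    ext c
    rw [List.mem_toFinset, hl2]
  have hsum : ∀ q : τ → ℕ, (l.map q).sum = ∑ c ∈ Kc, q c := by
    intro q
    rw [← hfin, List.sum_toFinset q hl1]
  have hEv : ∀ c ∈ l, E v c := fun c hc => (hK c ((hl2 c).1 hc)).1
  have hPv : ∀ c ∈ l, P v c := fun c hc => (hK c ((hl2 c).1 hc)).2
  have hC : ∀ c ∈ l, CodesB E P b c (g c) := fun c hc => (hg c ((hl2 c).1 hc)).1
  have hI : ∀ c ∈ l, InL L K true ((g c).size + 1) 0 (g c) := fun c hc => (hg c ((hl2 c).1 hc)).2.1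
  have hN : ∀ c ∈ l, ∀ m, 1 + m ≤ gg → NL L K (g c) m := fun c hc => (hg c ((hl2 c).1 hc)).2.2
  have hemb : EmbL E P v l (mkF E v g l) := embL_of (E := E) (P := P) v g l hl1
    (fun c hc d hd hcd => AE32.desc_disjoint hE hin (hPv c hc) (hPv d hd) hcd) (fun c hc => (hC c hc).2.2.2.2)
  refine ⟨mkF E v g l, ⟨⟨?_, ?_, ?_⟩, ?_⟩, ?_, ?_, ?_⟩
  · rw [mkF_len, ← List.toFinset_card_of_nodup hl1, hfin]
    refine le_trans ?_ (hout v)
    rw [← Set.ncard_coe_finset]
    refine Set.ncard_le_ncard ?_ (Set.toFinite _)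
    intro w hw
    exact Or.inl (hK w hw).1
  · exact mkF_deg v g l fun c hc => ⟨(hC c hc).2.1, (hC c hc).2.2.1⟩
  · rcases hl3 with rfl | ⟨u, l', rfl, hmx⟩
    · trivial
    · refine mkF_inL_head v g u l' ⟨fun _ => hI u List.mem_cons_self, fun he => absurd (hEv u List.mem_cons_self) he⟩ ?_ ?_
      · intro c hc
        have h1 := hmx c hc
        have h2 := (hC c (List.mem_cons_of_mem _ hc)).1
        have h3 := (hC u List.mem_cons_self).1
        omega
      · intro c hc
        exact ⟨fun _ => Or.inr (hI c (List.mem_cons_of_mem _ hc)),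
          fun he => absurd (hEv c (List.mem_cons_of_mem _ hc)) he⟩
  · cases gg with
    | zero => exact NL.zero _
    | succ m => exact mkF_nl v g l fun c hc => ⟨fun _ => hI c hc, hN c hc m (by omega)⟩
  · rw [mkF_size, hsum, card_biUnion]
    · exact sum_congr rfl fun c hc => (hC c ((hl2 c).2 hc)).1
    · intro c hc d hd hcd
      exact AE32.desc_disjoint hE hin (hK c hc).2 (hK d hd).2 hcd
  · intro q hq
    rw [mkF_trees, List.mem_map] at hq
    obtain ⟨c, hc, rfl⟩ := hq
    simp [hEv c hc]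
  · intro V R x S hS
    obtain ⟨f, p1, p2, p3, p4⟩ := hemb hS
    refine ⟨f, ?_, ?_, ?_, ?_⟩
    · intro u hu
      have := p1 u ((hl2 u).2 hu)
      simpa [Adj, (hK u hu).1] using this
    · intro a ha
      obtain ⟨c, hc, hac⟩ := mem_biUnion.1 ha
      exact p2 c ((hl2 c).2 hc) a hac
    · intro a ha a' ha' haa
      obtain ⟨c, hc, hac⟩ := mem_biUnion.1 ha
      obtain ⟨c', hc', hac'⟩ := mem_biUnion.1 ha'
      exact p3 c ((hl2 c).2 hc) a hac c' ((hl2 c').2 hc') a' hac' haa
    · intro a ha a' haa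
      obtain ⟨c, hc, hac⟩ := mem_biUnion.1 ha
      exact p4 c ((hl2 c).2 hc) a hac a' haa

/-- one vertex of the line: the side trees -/
theorem sidesP {h : τ → ℕ} (hE : ∀ a b, P a b → h a < h b) (hin : ∀ a b c, P a c → P b c → a = b)
    (hP : ∀ a c, P a c → E a c ∨ E c a) (has : ∀ a c, E a c → ¬ E c a) {Cl : Fd → Prop} (v : τ) (M : Finset τ)
    (hM : ∀ u ∈ M, E v u ∧ P v u)
    (h7 : ∀ K₂ : Finset τ, (∀ u ∈ K₂, u ∉ M ∧ P v u ∧ E v u) → ∃ D, Cl D ∧ SideF E P v K₂ D)
    (h8 : ∀ K₁ : Finset τ, (∀ u ∈ K₁, u ∉ M ∧ P v u ∧ E u v) → ∃ A, Cl A ∧ SideF (fun a c => E c a) P v K₁ A) :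
    ∃ (A D : Fd) (B : Finset τ), Cl A ∧ Cl D ∧ (∀ q ∈ A.trees, q.1 = true) ∧ (∀ q ∈ D.trees, q.1 = true) ∧
      A.size + D.size = B.card ∧ Disjoint B (M.biUnion (AE32.desc P)) ∧
      AE32.desc P v = insert v (B ∪ M.biUnion (AE32.desc P)) ∧ v ∉ B ∪ M.biUnion (AE32.desc P) ∧
      (∀ a, P v a → a ∈ B ∪ M.biUnion (AE32.desc P)) ∧
      ∀ {V : Type} {R : V → V → Prop} {x : V} {S₁ S₂ : Finset V}, Disjoint S₁ S₂ → Emb (SPD.rv R) A x S₁ →
        Emb R D x S₂ → ∃ f, AEG.Blk E P R v x B (S₁ ∪ S₂) f := by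
  set K₂ : Finset τ := univ.filter (fun u => u ∉ M ∧ P v u ∧ E v u) with hK2
  set K₁ : Finset τ := univ.filter (fun u => u ∉ M ∧ P v u ∧ E u v) with hK1
  have m2 : ∀ u, u ∈ K₂ ↔ u ∉ M ∧ P v u ∧ E v u := by simp [hK2]
  have m1 : ∀ u, u ∈ K₁ ↔ u ∉ M ∧ P v u ∧ E u v := by simp [hK1]
  obtain ⟨D, a0, a1, a5, a6⟩ := h7 K₂ fun u hu => (m2 u).1 hu
  obtain ⟨A, b0, b1, b5, b6⟩ := h8 K₁ fun u hu => (m1 u).1 hu
  have hdj : ∀ K K' : Finset τ, (∀ u ∈ K, P v u) → (∀ u ∈ K', P v u) → Disjoint K K' →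
      Disjoint (K.biUnion (AE32.desc P)) (K'.biUnion (AE32.desc P)) := by
    intro K K' h1 h2 h3
    rw [disjoint_biUnion_left]
    intro u hu
    rw [disjoint_biUnion_right]
    intro w hw
    refine AE32.desc_disjoint hE hin (h1 u hu) (h2 w hw) ?_
    rintro rfl
    exact (Finset.disjoint_left.1 h3) hu hw
  have c12 : Disjoint (K₁.biUnion (AE32.desc P)) (K₂.biUnion (AE32.desc P)) := by
    refine hdj _ _ (fun u hu => ((m1 u).1 hu).2.1) (fun u hu => ((m2 u).1 hu).2.1) ?_
    rw [Finset.disjoint_left]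
    intro u h1 h2
    exact has _ _ ((m1 u).1 h1).2.2 ((m2 u).1 h2).2.2
  have c1M : Disjoint (K₁.biUnion (AE32.desc P)) (M.biUnion (AE32.desc P)) := by
    refine hdj _ _ (fun u hu => ((m1 u).1 hu).2.1) (fun u hu => (hM u hu).2) ?_
    rw [Finset.disjoint_left]
    intro u h1 h2
    exact ((m1 u).1 h1).1 h2
  have c2M : Disjoint (K₂.biUnion (AE32.desc P)) (M.biUnion (AE32.desc P)) := by
    refine hdj _ _ (fun u hu => ((m2 u).1 hu).2.1) (fun u hu => (hM u hu).2) ?_
    rw [Finset.disjoint_left]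
    intro u h1 h2
    exact ((m2 u).1 h1).1 h2
  have hchild : ∀ a, P v a → a ∈ K₁ ∨ a ∈ K₂ ∨ a ∈ M := by
    intro a ha
    by_cases haM : a ∈ M
    · exact Or.inr (Or.inr haM)
    · rcases hP _ _ ha with h | h
      · exact Or.inr (Or.inl ((m2 a).2 ⟨haM, ha, h⟩))
      · exact Or.inl ((m1 a).2 ⟨haM, ha, h⟩)
  have hself : ∀ K : Finset τ, ∀ u ∈ K, u ∈ K.biUnion (AE32.desc P) := fun K u hu =>
    mem_biUnion.2 ⟨u, hu, AE32.self_mem_desc u⟩
  have hcl : ∀ K : Finset τ, ∀ a ∈ K.biUnion (AE32.desc P), ∀ a', P a a' → a' ∈ K.biUnion (AE32.desc P) := by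
    intro K a ha a' haa
    obtain ⟨u, hu, hau⟩ := mem_biUnion.1 ha
    exact mem_biUnion.2 ⟨u, hu, AE32.mem_desc.2 ((AE32.mem_desc.1 hau).tail haa)⟩
  have hnv : ∀ K : Finset τ, (∀ u ∈ K, P v u) → v ∉ K.biUnion (AE32.desc P) := by
    intro K hK hmem
    obtain ⟨u, hu, h⟩ := mem_biUnion.1 hmem
    exact AE32.notMem_desc hE (hK u hu) h
  refine ⟨A, D, K₁.biUnion (AE32.desc P) ∪ K₂.biUnion (AE32.desc P), b0, a0, b5, a5, ?_, ?_, ?_, ?_, ?_, ?_⟩
  · rw [card_union_of_disjoint c12, a1, b1]
  · rw [disjoint_union_left]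
    exact ⟨c1M, c2M⟩
  · ext a
    rw [AE32.mem_desc, ReflTransGen.cases_head_iff]
    simp only [mem_insert, mem_union]
    constructor
    · rintro (h1 | ⟨c, h1, h2⟩)
      · exact Or.inl h1.symm
      · right
        rcases hchild c h1 with h | h | h
        · exact Or.inl (Or.inl (mem_biUnion.2 ⟨c, h, AE32.mem_desc.2 h2⟩))
        · exact Or.inl (Or.inr (mem_biUnion.2 ⟨c, h, AE32.mem_desc.2 h2⟩))
        · exact Or.inr (mem_biUnion.2 ⟨c, h, AE32.mem_desc.2 h2⟩)
    · rintro (h1 | (h1 | h1) | h1)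
      · exact Or.inl h1.symm
      · obtain ⟨u, hu, h⟩ := mem_biUnion.1 h1
        exact Or.inr ⟨u, ((m1 u).1 hu).2.1, AE32.mem_desc.1 h⟩
      · obtain ⟨u, hu, h⟩ := mem_biUnion.1 h1
        exact Or.inr ⟨u, ((m2 u).1 hu).2.1, AE32.mem_desc.1 h⟩
      · obtain ⟨u, hu, h⟩ := mem_biUnion.1 h1
        exact Or.inr ⟨u, (hM u hu).2, AE32.mem_desc.1 h⟩
  · rw [mem_union, mem_union]
    rintro ((h | h) | h)
    · exact hnv K₁ (fun u hu => ((m1 u).1 hu).2.1) h
    · exact hnv K₂ (fun u hu => ((m2 u).1 hu).2.1) h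
    · exact hnv M (fun u hu => (hM u hu).2) h
  · intro a ha
    rw [mem_union, mem_union]
    rcases hchild a ha with h | h | h
    · exact Or.inl (Or.inl (hself _ _ h))
    · exact Or.inl (Or.inr (hself _ _ h))
    · exact Or.inr (hself _ _ h)
  · intro V R x S₁ S₂ hd he1 he2
    obtain ⟨f₁, q1, q2, q3, q4⟩ := b6 he1
    obtain ⟨f₂, p1, p2, p3, p4⟩ := a6 he2
    have hroot : ∀ K : Finset τ, (∀ u ∈ K, P v u) → ∀ a ∈ K.biUnion (AE32.desc P), P v a → a ∈ K := by
      intro K hK a ha hva
      obtain ⟨u, hu, h⟩ := mem_biUnion.1 ha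
      have : a = u := by
        by_contra hne
        exact (Finset.disjoint_left.1 (AE32.desc_disjoint hE hin hva (hK u hu) hne)) (AE32.self_mem_desc a) h
      rw [this]
      exact hu
    have k1 : AEG.Blk E P R v x (K₁.biUnion (AE32.desc P)) S₁ f₁ := by
      refine ⟨q2, q3, ?_, fun a ha a' haa => ⟨hcl K₁ a ha a' haa, ?_⟩⟩
      · intro a ha hva
        have h1 := hroot K₁ (fun u hu => ((m1 u).1 hu).2.1) a ha hva
        exact ⟨fun h => absurd ((m1 a).1 h1).2.2 (has _ _ h), fun _ => q1 a h1⟩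
      · have h := q4 a ha a' haa
        refine ⟨fun h' => ?_, fun h' => ?_⟩
        · have h'' : ¬ E a' a := has _ _ h'
          simpa [Adj, h'', SPD.rv] using h
        · simpa [Adj, h', SPD.rv] using h
    have k2 : AEG.Blk E P R v x (K₂.biUnion (AE32.desc P)) S₂ f₂ := by
      refine ⟨p2, p3, ?_, fun a ha a' haa => ⟨hcl K₂ a ha a' haa, ?_⟩⟩
      · intro a ha hva
        have h1 := hroot K₂ (fun u hu => ((m2 u).1 hu).2.1) a ha hva
        exact ⟨fun _ => p1 a h1, fun h => absurd ((m2 a).1 h1).2.2 (has _ _ h)⟩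
      · have h := p4 a ha a' haa
        refine ⟨fun h' => ?_, fun h' => ?_⟩
        · simpa [Adj, h'] using h
        · have h'' : ¬ E a a' := has _ _ h'
          simpa [Adj, h''] using h
    exact ⟨_, k1.union k2 c12 hd⟩

/-- the tree below a vertex of the line is coded by a list of pairs of forests -/
theorem lineP {h : τ → ℕ} (hh : ∀ a c, P a c → h c = h a + 1) (hin : ∀ a b c, P a c → P b c → a = b)
    (hP : ∀ a c, P a c → E a c ∨ E c a) (has : ∀ a c, E a c → ¬ E c a) {Cl : Fd → Prop} {m : ℕ} {p : ℕ → τ}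
    (hp : ∀ i < m, E (p i) (p (i + 1)) ∧ P (p i) (p (i + 1)))
    (h7 : ∀ i ≤ m, ∀ K₂ : Finset τ, (∀ u ∈ K₂, (∀ j ≤ m, u ≠ p j) ∧ P (p i) u ∧ E (p i) u) →
      ∃ D, Cl D ∧ SideF E P (p i) K₂ D)
    (h8 : ∀ i ≤ m, ∀ K₁ : Finset τ, (∀ u ∈ K₁, (∀ j ≤ m, u ≠ p j) ∧ P (p i) u ∧ E u (p i)) →
      ∃ A, Cl A ∧ SideF (fun a c => E c a) P (p i) K₁ A) (n : ℕ) :
    ∀ i, i + n = m → ∃ L : List (Fd × Fd), L.length = n + 1 ∧
      (L.map (fun q => q.1.size + q.2.size + 1)).sum = (AE32.desc P (p i)).card ∧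
      (∀ q ∈ L, Cl q.1 ∧ Cl q.2 ∧ (∀ t ∈ q.1.trees, t.1 = true) ∧ ∀ t ∈ q.2.trees, t.1 = true) ∧
      ∀ {V : Type} {R : V → V → Prop} {y : V} {S : Finset V}, y ∉ S → AEG.EmbS R L y S → AEG.Dec E P R (p i) y S := by
  have hE : ∀ a b, P a b → h a < h b := fun a c hac => by rw [hh a c hac]; omega
  have hrank : ∀ i ≤ m, h (p i) = h (p 0) + i := by
    intro i hi
    induction i with
    | zero => rfl
    | succ i ih =>
      rw [hh _ _ (hp i (by omega)).2, ih (by omega)]
      omega
  have hnext : ∀ i ≤ m, ∀ j ≤ m, P (p i) (p j) → j = i + 1 := by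
    intro i hi j hj hij
    have h1 := hh _ _ hij
    rw [hrank i hi, hrank j hj] at h1
    omega
  induction n with
  | zero =>
    intro i hi
    have him : i = m := by omega
    subst him
    have hne : ∀ u, P (p i) u → ∀ j ≤ i, u ≠ p j := by
      rintro u hu j hj rfl
      have := hnext i le_rfl j hj hu
      omega
    obtain ⟨A, D, B, g1, g2, g3, g4, g5, g6, g7, g8, g9, g10⟩ := sidesP (E := E) hE hin hP has (p i) ∅ (by simp)
      (fun K₂ hK => h7 i le_rfl K₂ fun u hu => ⟨hne u (hK u hu).2.1, (hK u hu).2⟩)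
      (fun K₁ hK => h8 i le_rfl K₁ fun u hu => ⟨hne u (hK u hu).2.1, (hK u hu).2⟩)
    rw [biUnion_empty, union_empty] at g7 g8 g9
    refine ⟨[(A, D)], rfl, ?_, ?_, ?_⟩
    · rw [g7, card_insert_of_notMem g8, ← g5]
      simp
    · intro q hq
      rw [List.mem_singleton] at hq
      subst hq
      exact ⟨g1, g2, g3, g4⟩
    · intro V R y S hy hS
      obtain ⟨S₁, S₂, s1, rfl, s2, s3⟩ := hS
      obtain ⟨f, hf⟩ := g10 s1 s2 s3
      exact hf.root g8 g7 hy g9
  | succ n ih =>
    intro i hi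
    obtain ⟨L', l1, l2, l3, l4⟩ := ih (i + 1) (by omega)
    obtain ⟨pe, pp⟩ := hp i (by omega)
    have hne : ∀ u, u ∉ ({p (i + 1)} : Finset τ) → P (p i) u → ∀ j ≤ m, u ≠ p j := by
      rintro u hu1 hu j hj rfl
      have := hnext i (by omega) j hj hu
      subst this
      exact hu1 (mem_singleton_self _)
    obtain ⟨A, D, B, g1, g2, g3, g4, g5, g6, g7, g8, g9, g10⟩ := sidesP (E := E) hE hin hP has (p i) {p (i + 1)}
      (fun u hu => by rw [mem_singleton] at hu; subst hu; exact ⟨pe, pp⟩)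
      (fun K₂ hK => h7 i (by omega) K₂ fun u hu => ⟨hne u (hK u hu).1 (hK u hu).2.1, (hK u hu).2⟩)
      (fun K₁ hK => h8 i (by omega) K₁ fun u hu => ⟨hne u (hK u hu).1 (hK u hu).2.1, (hK u hu).2⟩)
    rw [singleton_biUnion] at g6 g7 g8 g9
    obtain ⟨q', L'', rfl⟩ : ∃ q' L'', L' = q' :: L'' := by
      cases L' with
      | nil => simp at l1
      | cons q' L'' => exact ⟨q', L'', rfl⟩
    refine ⟨(A, D) :: q' :: L'', by rw [List.length_cons, l1], ?_, ?_, ?_⟩
    · rw [List.map_cons, List.sum_cons, l2, g7, card_insert_of_notMem g8, card_union_of_disjoint g6, ← g5]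
      simp only
      omega
    · intro q hq
      rcases List.mem_cons.1 hq with rfl | hq
      · exact ⟨g1, g2, g3, g4⟩
      · exact l3 q hq
    · intro V R y S hy hS
      obtain ⟨S₁, S₂, z, S₃, s1, s2, s3, s4, rfl, s5, s6, s7⟩ := hS
      obtain ⟨f, hf⟩ := g10 s1 s5 s6
      obtain ⟨f', hf'⟩ := (l4 s3 s7).blk hE hin pp pe (has _ _ pe) s4
      exact (hf.union hf' g6 s2).root g8 g7 hy g9


end gluep

end AET
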