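import Pool.Agent.AET.ListsL

/-!
# Light branches: blocks with the exit, blocks with a placed heavy out-child, with a condition on the pending items
-/

namespace AET

open Finset AE15 AED AEB
open scoped Classical

variable {V : Type*} {R : V → V → Prop}

/-- the first tree (in a permuted list of the trees) is placed at `x`, the others are given -/
private theorem assemble {F c : Fd} {d : Bool} {ts : List (Bool × Fd)} (hF : F.trees.Perm ((d, c) :: ts)) {v x : V}
    {Z₁ Z₂ : Finset V} {L₁ L₂ : List (V × Fd)} (hx : Adj R d v x) (hP : PE R c x Z₁ L₁) (h1 : x ∉ Z₁)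
    (h2 : PEL R v ts Z₂ L₂) (hd : Disjoint (insert x Z₁) Z₂) :
    ∃ L, PE R F v (insert x Z₁ ∪ Z₂) L ∧ L.Perm (L₁ ++ L₂) := by
  have h3 : PEL R v ((d, c) :: ts) (insert x Z₁ ∪ Z₂) (L₁ ++ L₂) :=
    ⟨insert x Z₁, Z₂, L₁, L₂, hd, rfl, rfl, Or.inr ⟨x, Z₁, hx, h1, rfl, hP⟩, h2⟩
  obtain ⟨L', hL', h4⟩ := PEL.perm hF.symm h3
  exact ⟨L', (pe_iff F v _ _).2 h4, hL'⟩

private theorem sum_perm {F c : Fd} {d : Bool} {ts : List (Bool × Fd)} (hF : F.trees.Perm ((d, c) :: ts))
    (f : Bool × Fd → ℕ) : (F.trees.map f).sum = f (d, c) + (ts.map f).sum := by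
  rw [(hF.map f).sum_eq, List.map_cons, List.sum_cons]

private theorem split_list (w : List V) (m k : ℕ) (h : m + 1 + k ≤ w.length) :
    ∃ w₁ y w₂, w = w₁ ++ y :: w₂ ∧ w₁.length = m ∧ k ≤ w₂.length := by
  have h1 : m < w.length := by omega
  refine ⟨w.take m, w[m], w.drop (m + 1), ?_, ?_, ?_⟩
  · rw [List.getElem_cons_drop, List.take_append_drop]
  · rw [List.length_take]
    omega
  · rw [List.length_drop]
    omega

theorem OutB.perm {Q : Fd → Prop} {F c : Fd} {d : Bool} {ts : List (Bool × Fd)} (hQ : OutB Q F)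
    (hF : F.trees.Perm ((d, c) :: ts)) :
    (if d then Q c else OutB Q c) ∧ ∀ p ∈ ts, if p.1 then Q p.2 else OutB Q p.2 := by
  rw [outB_iff] at hQ
  exact ⟨hQ (d, c) (hF.symm.subset (by simp)), fun p hp => hQ p (hF.symm.subset (by simp [hp]))⟩

theorem OutB.perm_in {Q : Fd → Prop} {F c : Fd} {ts : List (Bool × Fd)} (hQ : OutB Q F)
    (hF : F.trees.Perm ((false, c) :: ts)) : OutB Q c := by
  have := (hQ.perm hF).1
  simpa using this

/-- the block of `v` on the list, everything else pending -/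
theorem pe_block (hT : AE32.Tour R) {Q : Fd → Prop} (F : Fd) (hQ : OutB Q F) (v : V) (w : List V) (hw : w.Pairwise R) (hv : ∀ z ∈ w, R z v)
    (hl : blk F ≤ w.length) : ∃ Z L, PE R F v Z L ∧ Z ⊆ w.toFinset ∧ (∀ c, (true, c) ∈ F.trees → (v, c) ∈ L) ∧
      ∀ q ∈ L, Q q.2 := by
  rw [blk_eq] at hl
  obtain ⟨Z, L, h1, h2, h3, hq⟩ := pel_block hT v F.trees ((outB_iff Q F).1 hQ) w hw hv hl
  exact ⟨Z, L, (pe_iff F v Z L).2 h1, h2, h3, hq⟩

theorem pe_whole (hT : AE32.Tour R) {Q : Fd → Prop} (F : Fd) (hQ : OutB Q F) (v : V) (w : List V) (hw : w.Pairwise R)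
    (hv : ∀ z ∈ w, R z v)
    (hl : inw F ≤ w.length) : ∃ Z L, PE R F v Z L ∧ Z ⊆ w.toFinset ∧ (∀ p ∈ L, p.1 = v) ∧
      (∀ c, (true, c) ∈ F.trees → (v, c) ∈ L) ∧ ∀ q ∈ L, Q q.2 := by
  rw [inw_eq] at hl
  obtain ⟨Z, L, h1, h2, h3, h4, hq⟩ := pel_whole hT v F.trees ((outB_iff Q F).1 hQ) w hw hv hl
  exact ⟨Z, L, (pe_iff F v Z L).2 h1, h2, h3, h4, hq⟩

/-- the block of `v` on the list `w`, the heavy out-child placed at `v₁` with a given incomplete embedding of its forest -/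
theorem pe_heavy (hT : AE32.Tour R) {Q : Fd → Prop} {F c : Fd} (hQ : OutB Q F) (hF : F.hv = some (true, c)) (v v₁ : V)
    (w : List V) (hw : w.Pairwise R)
    (hv : ∀ z ∈ w, R z v) (hv₁ : R v v₁) {Z₁ : Finset V} {L₁ : List (V × Fd)} (hP : PE R c v₁ Z₁ L₁)
    (hQ₁ : ∀ q ∈ L₁, Q q.2) (h1 : v₁ ∉ Z₁)
    (h2 : ∀ z ∈ w, z ≠ v₁ ∧ z ∉ Z₁) (hl : blk F ≤ w.length) :
    ∃ Z L, PE R F v Z L ∧ Z ⊆ w.toFinset ∪ insert v₁ Z₁ ∧ insert v₁ Z₁ ⊆ Z ∧ (∀ p ∈ L₁, p ∈ L) ∧ ∀ q ∈ L, Q q.2 := by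
  obtain ⟨⟨ts, hts⟩, -⟩ := hv_some hF
  rw [blk_eq, sum_perm hts] at hl
  obtain ⟨Z₂, L₂, h3, h4, -, hq⟩ := pel_block hT v ts (hQ.perm hts).2 w hw hv (by simpa using hl)
  have hd : Disjoint (insert v₁ Z₁) Z₂ := by
    rw [disjoint_left]
    intro a ha ha2
    have h5 := h2 a (List.mem_toFinset.1 (h4 ha2))
    rcases mem_insert.1 ha with h6 | h6
    · exact h5.1 h6
    · exact h5.2 h6
  obtain ⟨L, h5, h6⟩ := assemble hts (v := v) (x := v₁) (by simpa [Adj] using hv₁) hP h1 h3 hd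
  refine ⟨_, L, h5, ?_, subset_union_left, ?_, ?_⟩
  · intro a ha
    rcases mem_union.1 ha with h7 | h7
    · exact mem_union_right _ h7
    · exact mem_union_left _ (h4 h7)
  · intro p hp
    exact h6.symm.subset (List.mem_append_left _ hp)
  · intro q hq'
    rcases List.mem_append.1 (h6.subset hq') with h7 | h7
    · exact hQ₁ q h7
    · exact hq q h7

/-- the same with whole in-branches on the list -/
theorem pe_heavy_whole (hT : AE32.Tour R) {Q : Fd → Prop} {F c : Fd} (hQ : OutB Q F) (hF : F.hv = some (true, c))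
    (v v₁ : V) (w : List V)
    (hw : w.Pairwise R) (hv : ∀ z ∈ w, R z v) (hv₁ : R v v₁) {Z₁ : Finset V} {L₁ : List (V × Fd)}
    (hP : PE R c v₁ Z₁ L₁) (hQ₁ : ∀ q ∈ L₁, Q q.2) (h1 : v₁ ∉ Z₁) (h2 : ∀ z ∈ w, z ≠ v₁ ∧ z ∉ Z₁)
    (hl : inw F ≤ w.length) :
    ∃ Z L, PE R F v Z L ∧ Z ⊆ w.toFinset ∪ insert v₁ Z₁ ∧ insert v₁ Z₁ ⊆ Z ∧ (∀ p ∈ L₁, p ∈ L) ∧
      (∀ p ∈ L, p.1 = v ∨ p ∈ L₁) ∧ ∀ q ∈ L, Q q.2 := by
  obtain ⟨⟨ts, hts⟩, -⟩ := hv_some hF
  rw [inw_eq, sum_perm hts] at hl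
  obtain ⟨Z₂, L₂, h3, h4, h3', -, hq⟩ := pel_whole hT v ts (hQ.perm hts).2 w hw hv (by simpa using hl)
  have hd : Disjoint (insert v₁ Z₁) Z₂ := by
    rw [disjoint_left]
    intro a ha ha2
    have h5 := h2 a (List.mem_toFinset.1 (h4 ha2))
    rcases mem_insert.1 ha with h6 | h6
    · exact h5.1 h6
    · exact h5.2 h6
  obtain ⟨L, h5, h6⟩ := assemble hts (v := v) (x := v₁) (by simpa [Adj] using hv₁) hP h1 h3 hd
  refine ⟨_, L, h5, ?_, subset_union_left, ?_, ?_, ?_⟩
  · intro a ha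
    rcases mem_union.1 ha with h7 | h7
    · exact mem_union_right _ h7
    · exact mem_union_left _ (h4 h7)
  · intro p hp
    exact h6.symm.subset (List.mem_append_left _ hp)
  · intro p hp
    rcases List.mem_append.1 (h6.subset hp) with h7 | h7
    · exact Or.inr h7
    · exact Or.inl (h3' p h7)
  · intro q hq'
    rcases List.mem_append.1 (h6.subset hq') with h7 | h7
    · exact hQ₁ q h7
    · exact hq q h7

/-- S', S'': whole block on the list; the exit item hangs on a vertex of the list -/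
theorem pe_turn (hT : AE32.Tour R) {Q : Fd → Prop} {F D : Fd} (hF : Turn F D) (hQ : OutB Q F) (v : V) (w : List V)
    (hw : w.Pairwise R) (hv : ∀ x ∈ w, R x v) (hl : blk F ≤ w.length) :
    ∃ Z L y, PE R F v Z L ∧ Z ⊆ w.toFinset ∧ y ∈ Z ∧ (y, D) ∈ L ∧ ∀ q ∈ L, Q q.2 := by
  induction hF generalizing v w with
  | one F c D h1 h2 =>
    obtain ⟨⟨ts, hts⟩, -⟩ := hv_some h1
    rw [blk_eq, sum_perm hts] at hl
    obtain ⟨w₁, y, w₂, rfl, hw₁, hw₂⟩ := split_list w (blk c) _ (by simpa using hl)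
    have hnd := tl_nodup hT hw
    rw [List.pairwise_append, List.pairwise_cons] at hw
    obtain ⟨hp1, ⟨hp2, hp3⟩, hp4⟩ := hw
    obtain ⟨Z₁, L₁, h3, h4, h5, hq₁⟩ := pe_block hT c (hQ.perm_in hts) y w₁ hp1 (fun z hz => hp4 z hz y (by simp)) hw₁.ge
    obtain ⟨Z₂, L₂, h6, h7, -, hq₂⟩ := pel_block hT v ts (hQ.perm hts).2 w₂ hp3 (fun z hz => hv z (by simp [hz])) hw₂
    rw [List.nodup_append, List.nodup_cons] at hnd
    obtain ⟨hn1, ⟨hn2, hn3⟩, hn4⟩ := hnd
    have hyZ : y ∉ Z₁ := fun h => hn4 y (List.mem_toFinset.1 (h4 h)) y (by simp) rfl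
    have hd : Disjoint (insert y Z₁) Z₂ := by
      rw [disjoint_left]
      intro a ha ha2
      have h8 := List.mem_toFinset.1 (h7 ha2)
      rcases mem_insert.1 ha with h9 | h9
      · exact hn2 (h9 ▸ h8)
      · exact hn4 a (List.mem_toFinset.1 (h4 h9)) a (by simp [h8]) rfl
    obtain ⟨L, h8, h9⟩ := assemble hts (v := v) (x := y) (by simpa [Adj] using hv y (by simp)) h3 hyZ h6 hd
    refine ⟨_, L, y, h8, ?_, by simp, ?_, fun q hq' => (List.mem_append.1 (h9.subset hq')).elim (hq₁ q) (hq₂ q)⟩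
    · intro a ha
      rw [List.mem_toFinset]
      rcases mem_union.1 ha with h10 | h10
      · rcases mem_insert.1 h10 with h11 | h11
        · simp [h11]
        · simp [List.mem_toFinset.1 (h4 h11)]
      · simp [List.mem_toFinset.1 (h7 h10)]
    · obtain ⟨⟨ts', hts'⟩, -⟩ := hv_some h2
      exact h9.symm.subset (List.mem_append_left _ (h5 D (hts'.symm.subset (by simp))))
  | more F c D h1 h2 ih =>
    obtain ⟨⟨ts, hts⟩, -⟩ := hv_some h1
    rw [blk_eq, sum_perm hts] at hl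
    obtain ⟨w₁, y, w₂, rfl, hw₁, hw₂⟩ := split_list w (blk c) _ (by simpa using hl)
    have hnd := tl_nodup hT hw
    rw [List.pairwise_append, List.pairwise_cons] at hw
    obtain ⟨hp1, ⟨hp2, hp3⟩, hp4⟩ := hw
    obtain ⟨Z₁, L₁, y', h3, h4, h5, h5', hq₁⟩ := ih (hQ.perm_in hts) y w₁ hp1 (fun z hz => hp4 z hz y (by simp)) hw₁.ge
    obtain ⟨Z₂, L₂, h6, h7, -, hq₂⟩ := pel_block hT v ts (hQ.perm hts).2 w₂ hp3 (fun z hz => hv z (by simp [hz])) hw₂
    rw [List.nodup_append, List.nodup_cons] at hnd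
    obtain ⟨hn1, ⟨hn2, hn3⟩, hn4⟩ := hnd
    have hyZ : y ∉ Z₁ := fun h => hn4 y (List.mem_toFinset.1 (h4 h)) y (by simp) rfl
    have hd : Disjoint (insert y Z₁) Z₂ := by
      rw [disjoint_left]
      intro a ha ha2
      have h8 := List.mem_toFinset.1 (h7 ha2)
      rcases mem_insert.1 ha with h9 | h9
      · exact hn2 (h9 ▸ h8)
      · exact hn4 a (List.mem_toFinset.1 (h4 h9)) a (by simp [h8]) rfl
    obtain ⟨L, h8, h9⟩ := assemble hts (v := v) (x := y) (by simpa [Adj] using hv y (by simp)) h3 hyZ h6 hd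
    refine ⟨_, L, y', h8, ?_, by simp [h5], ?_, fun q hq' => (List.mem_append.1 (h9.subset hq')).elim (hq₁ q) (hq₂ q)⟩
    · intro a ha
      rw [List.mem_toFinset]
      rcases mem_union.1 ha with h10 | h10
      · rcases mem_insert.1 h10 with h11 | h11
        · simp [h11]
        · simp [List.mem_toFinset.1 (h4 h11)]
      · simp [List.mem_toFinset.1 (h7 h10)]
    · exact h9.symm.subset (List.mem_append_left _ h5')

/-- S+: the exit at `x`, which dominates `v` and the list; the in-closure of the exit on the list `w'` dominating `x` -/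
theorem pe_turn_x (hT : AE32.Tour R) {Q : Fd → Prop} {F D : Fd} (hF : Turn F D) (hQ : OutB Q F) (v x : V) (w w' : List V) (hw : w.Pairwise R)
    (hw' : w'.Pairwise R) (hv : ∀ z ∈ w, R z v) (hxv : R x v) (hx : ∀ z ∈ w, R x z) (hx' : ∀ z ∈ w', R z x)
    (hd : ∀ z ∈ w, z ∉ w') (hl : blk F ≤ w.length) (hl' : blk F ≤ w'.length) :
    ∃ Z L, PE R F v Z L ∧ Z ⊆ insert x (w.toFinset ∪ w'.toFinset) ∧ x ∈ Z ∧ (x, D) ∈ L ∧ ∀ q ∈ L, Q q.2 := by
  have hxw : x ∉ w := fun h => hT.1 x (hx x h)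
  have hxw' : x ∉ w' := fun h => hT.1 x (hx' x h)
  induction hF generalizing v w with
  | one F c D h1 h2 =>
    obtain ⟨⟨ts, hts⟩, -⟩ := hv_some h1
    rw [blk_eq, sum_perm hts] at hl hl'
    simp only [Bool.false_eq_true, if_false] at hl hl'
    have hl2 : blk c + 1 ≤ w'.length := le_trans (Nat.le_add_right _ _) hl'
    have hl3 := le_trans (Nat.le_add_left _ _) hl
    obtain ⟨Z₁, L₁, h3, h4, h5, hq₁⟩ := pe_block hT c (hQ.perm_in hts) x w' hw' hx' (by omega)
    obtain ⟨Z₂, L₂, h6, h7, -, hq₂⟩ := pel_block hT v ts (hQ.perm hts).2 w hw hv hl3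
    have hyZ : x ∉ Z₁ := fun h => hxw' (List.mem_toFinset.1 (h4 h))
    have hdd : Disjoint (insert x Z₁) Z₂ := by
      rw [disjoint_left]
      intro a ha ha2
      have h8 := List.mem_toFinset.1 (h7 ha2)
      rcases mem_insert.1 ha with h9 | h9
      · exact hxw (h9 ▸ h8)
      · exact hd a h8 (List.mem_toFinset.1 (h4 h9))
    obtain ⟨L, h8, h9⟩ := assemble hts (v := v) (x := x) (by simpa [Adj] using hxv) h3 hyZ h6 hdd
    refine ⟨_, L, h8, ?_, by simp, ?_, fun q hq' => (List.mem_append.1 (h9.subset hq')).elim (hq₁ q) (hq₂ q)⟩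
    · intro a ha
      rcases mem_union.1 ha with h10 | h10
      · rcases mem_insert.1 h10 with h11 | h11
        · simp [h11]
        · exact mem_insert_of_mem (mem_union_right _ (h4 h11))
      · exact mem_insert_of_mem (mem_union_left _ (h7 h10))
    · obtain ⟨⟨ts', hts'⟩, -⟩ := hv_some h2
      exact h9.symm.subset (List.mem_append_left _ (h5 D (hts'.symm.subset (by simp))))
  | more F c D h1 h2 ih =>
    obtain ⟨⟨ts, hts⟩, -⟩ := hv_some h1
    rw [blk_eq, sum_perm hts] at hl hl'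
    simp only [Bool.false_eq_true, if_false] at hl hl'
    have hl2 : blk c + 1 ≤ w'.length := le_trans (Nat.le_add_right _ _) hl'
    obtain ⟨w₁, y, w₂, rfl, hw₁, hw₂⟩ := split_list w (blk c) _ hl
    have hnd := tl_nodup hT hw
    rw [List.pairwise_append, List.pairwise_cons] at hw
    obtain ⟨hp1, ⟨hp2, hp3⟩, hp4⟩ := hw
    obtain ⟨Z₁, L₁, h3, h4, h5, h5', hq₁⟩ := ih (hQ.perm_in hts) y w₁ hp1 (fun z hz => hp4 z hz y (by simp)) (hx y (by simp))
      (fun z hz => hx z (by simp [hz])) (fun z hz => hd z (by simp [hz])) hw₁.ge (by omega)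
      (fun h => hxw (by simp [h]))
    obtain ⟨Z₂, L₂, h6, h7, -, hq₂⟩ := pel_block hT v ts (hQ.perm hts).2 w₂ hp3 (fun z hz => hv z (by simp [hz])) hw₂
    rw [List.nodup_append, List.nodup_cons] at hnd
    obtain ⟨hn1, ⟨hn2, hn3⟩, hn4⟩ := hnd
    have hmem : ∀ a ∈ Z₁, a = x ∨ a ∈ w₁ ∨ a ∈ w' := by
      intro a ha
      rcases mem_insert.1 (h4 ha) with h8 | h8
      · exact Or.inl h8
      · rcases mem_union.1 h8 with h9 | h9
        · exact Or.inr (Or.inl (List.mem_toFinset.1 h9))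
        · exact Or.inr (Or.inr (List.mem_toFinset.1 h9))
    have hyZ : y ∉ Z₁ := by
      intro h
      rcases hmem y h with h8 | h8 | h8
      · exact hxw (by simp [h8])
      · exact hn4 y h8 y (by simp) rfl
      · exact hd y (by simp) h8
    have hdd : Disjoint (insert y Z₁) Z₂ := by
      rw [disjoint_left]
      intro a ha ha2
      have h8 := List.mem_toFinset.1 (h7 ha2)
      rcases mem_insert.1 ha with h9 | h9
      · exact hn2 (h9 ▸ h8)
      · rcases hmem a h9 with h10 | h10 | h10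
        · exact hxw (by simp [← h10, h8])
        · exact hn4 a h10 a (by simp [h8]) rfl
        · exact hd a (by simp [h8]) h10
    obtain ⟨L, h8, h9⟩ := assemble hts (v := v) (x := y) (by simpa [Adj] using hv y (by simp)) h3 hyZ h6 hdd
    refine ⟨_, L, h8, ?_, by simp [h5], ?_, fun q hq' => (List.mem_append.1 (h9.subset hq')).elim (hq₁ q) (hq₂ q)⟩
    · intro a ha
      rcases mem_union.1 ha with h10 | h10
      · rcases mem_insert.1 h10 with h11 | h11
        · simp [h11]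
        · rcases hmem a h11 with h12 | h12 | h12
          · simp [h12]
          · simp [h12]
          · simp [h12]
      · simp [List.mem_toFinset.1 (h7 h10)]
    · exact h9.symm.subset (List.mem_append_left _ h5')

/-- S-: the whole block on the list, which dominates `x`; the root of the exit item is at `x`, its in-closure on the list
`w'` dominating `x`; the heavy out-item of `x` is pending -/
theorem pe_turn_next (hT : AE32.Tour R) {Q : Fd → Prop} {F D D' : Fd} (hF : Turn F D) (hQ : OutB Q F) (hQD : OutB Q D)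
    (hD : D.hv = some (true, D')) (v x : V)
    (w w' : List V) (hw : w.Pairwise R) (hw' : w'.Pairwise R) (hv : ∀ z ∈ w, R z v) (hx : ∀ z ∈ w, R z x)
    (hx' : ∀ z ∈ w', R z x) (hd : ∀ z ∈ w, z ∉ w') (hl : blk F ≤ w.length) (hl' : blk D ≤ w'.length) :
    ∃ Z L, PE R F v Z L ∧ Z ⊆ insert x (w.toFinset ∪ w'.toFinset) ∧ x ∈ Z ∧ (x, D') ∈ L ∧ ∀ q ∈ L, Q q.2 := by
  have hxw : x ∉ w := fun h => hT.1 x (hx x h)
  have hxw' : x ∉ w' := fun h => hT.1 x (hx' x h)
  induction hF generalizing v w with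
  | one F c D h1 h2 =>
    obtain ⟨⟨ts, hts⟩, -⟩ := hv_some h1
    rw [blk_eq, sum_perm hts] at hl
    simp only [Bool.false_eq_true, if_false] at hl
    obtain ⟨w₁, y, w₂, rfl, hw₁, hw₂⟩ := split_list w (blk c) _ hl
    have hnd := tl_nodup hT hw
    rw [List.pairwise_append, List.pairwise_cons] at hw
    obtain ⟨hp1, ⟨hp2, hp3⟩, hp4⟩ := hw
    rw [List.nodup_append, List.nodup_cons] at hnd
    obtain ⟨hn1, ⟨hn2, hn3⟩, hn4⟩ := hnd
    -- the exit item at `x`
    obtain ⟨Z₀, L₀, g3, g4, g5, hq₀⟩ := pe_block hT D hQD x w' hw' hx' hl'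
    have hxZ₀ : x ∉ Z₀ := fun h => hxw' (List.mem_toFinset.1 (g4 h))
    obtain ⟨Z₁, L₁, h3, h4, h5, h5', hq₁⟩ := pe_heavy hT (hQ.perm_in hts) h2 y x w₁ hp1 (fun z hz => hp4 z hz y (by simp))
      (hx y (by simp)) g3 hq₀ hxZ₀ (fun z hz => ⟨fun h => hxw (by simp [← h, hz]), fun h => hd z (by simp [hz]) (List.mem_toFinset.1 (g4 h))⟩)
      hw₁.ge
    obtain ⟨Z₂, L₂, h6, h7, -, hq₂⟩ := pel_block hT v ts (hQ.perm hts).2 w₂ hp3 (fun z hz => hv z (by simp [hz])) hw₂
    have hmem : ∀ a ∈ Z₁, a = x ∨ a ∈ w₁ ∨ a ∈ w' := by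
      intro a ha
      rcases mem_union.1 (h4 ha) with h8 | h8
      · exact Or.inr (Or.inl (List.mem_toFinset.1 h8))
      · rcases mem_insert.1 h8 with h9 | h9
        · exact Or.inl h9
        · exact Or.inr (Or.inr (List.mem_toFinset.1 (g4 h9)))
    have hyZ : y ∉ Z₁ := by
      intro h
      rcases hmem y h with h8 | h8 | h8
      · exact hxw (by simp [h8])
      · exact hn4 y h8 y (by simp) rfl
      · exact hd y (by simp) h8
    have hdd : Disjoint (insert y Z₁) Z₂ := by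
      rw [disjoint_left]
      intro a ha ha2
      have h8 := List.mem_toFinset.1 (h7 ha2)
      rcases mem_insert.1 ha with h9 | h9
      · exact hn2 (h9 ▸ h8)
      · rcases hmem a h9 with h10 | h10 | h10
        · exact hxw (by simp [← h10, h8])
        · exact hn4 a h10 a (by simp [h8]) rfl
        · exact hd a (by simp [h8]) h10
    obtain ⟨L, h8, h9⟩ := assemble hts (v := v) (x := y) (by simpa [Adj] using hv y (by simp)) h3 hyZ h6 hdd
    refine ⟨_, L, h8, ?_, ?_, ?_, fun q hq' => (List.mem_append.1 (h9.subset hq')).elim (hq₁ q) (hq₂ q)⟩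
    · intro a ha
      rcases mem_union.1 ha with h10 | h10
      · rcases mem_insert.1 h10 with h11 | h11
        · simp [h11]
        · rcases hmem a h11 with h12 | h12 | h12
          · simp [h12]
          · simp [h12]
          · simp [h12]
      · simp [List.mem_toFinset.1 (h7 h10)]
    · exact mem_union_left _ (mem_insert_of_mem (h5 (mem_insert_self _ _)))
    · obtain ⟨⟨ts', hts'⟩, -⟩ := hv_some hD
      exact h9.symm.subset (List.mem_append_left _ (h5' _ (g5 D' (hts'.symm.subset (by simp)))))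
  | more F c D h1 h2 ih =>
    obtain ⟨⟨ts, hts⟩, -⟩ := hv_some h1
    rw [blk_eq, sum_perm hts] at hl
    simp only [Bool.false_eq_true, if_false] at hl
    obtain ⟨w₁, y, w₂, rfl, hw₁, hw₂⟩ := split_list w (blk c) _ hl
    have hnd := tl_nodup hT hw
    rw [List.pairwise_append, List.pairwise_cons] at hw
    obtain ⟨hp1, ⟨hp2, hp3⟩, hp4⟩ := hw
    obtain ⟨Z₁, L₁, h3, h4, h5, h5', hq₁⟩ := ih (hQ.perm_in hts) hQD hD y w₁ hp1 (fun z hz => hp4 z hz y (by simp))
      (fun z hz => hx z (by simp [hz])) (fun z hz => hd z (by simp [hz])) hw₁.ge hl'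
      (fun h => hxw (by simp [h]))
    obtain ⟨Z₂, L₂, h6, h7, -, hq₂⟩ := pel_block hT v ts (hQ.perm hts).2 w₂ hp3 (fun z hz => hv z (by simp [hz])) hw₂
    rw [List.nodup_append, List.nodup_cons] at hnd
    obtain ⟨hn1, ⟨hn2, hn3⟩, hn4⟩ := hnd
    have hmem : ∀ a ∈ Z₁, a = x ∨ a ∈ w₁ ∨ a ∈ w' := by
      intro a ha
      rcases mem_insert.1 (h4 ha) with h8 | h8
      · exact Or.inl h8
      · rcases mem_union.1 h8 with h9 | h9
        · exact Or.inr (Or.inl (List.mem_toFinset.1 h9))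
        · exact Or.inr (Or.inr (List.mem_toFinset.1 h9))
    have hyZ : y ∉ Z₁ := by
      intro h
      rcases hmem y h with h8 | h8 | h8
      · exact hxw (by simp [h8])
      · exact hn4 y h8 y (by simp) rfl
      · exact hd y (by simp) h8
    have hdd : Disjoint (insert y Z₁) Z₂ := by
      rw [disjoint_left]
      intro a ha ha2
      have h8 := List.mem_toFinset.1 (h7 ha2)
      rcases mem_insert.1 ha with h9 | h9
      · exact hn2 (h9 ▸ h8)
      · rcases hmem a h9 with h10 | h10 | h10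
        · exact hxw (by simp [← h10, h8])
        · exact hn4 a h10 a (by simp [h8]) rfl
        · exact hd a (by simp [h8]) h10
    obtain ⟨L, h8, h9⟩ := assemble hts (v := v) (x := y) (by simpa [Adj] using hv y (by simp)) h3 hyZ h6 hdd
    refine ⟨_, L, h8, ?_, by simp [h5], ?_, fun q hq' => (List.mem_append.1 (h9.subset hq')).elim (hq₁ q) (hq₂ q)⟩
    · intro a ha
      rcases mem_union.1 ha with h10 | h10
      · rcases mem_insert.1 h10 with h11 | h11
        · simp [h11]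
        · rcases hmem a h11 with h12 | h12 | h12
          · simp [h12]
          · simp [h12]
          · simp [h12]
      · simp [List.mem_toFinset.1 (h7 h10)]
    · exact h9.symm.subset (List.mem_append_left _ h5')

end AET
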