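import Pool.Agent.AET.FinYL
import Pool.Agent.AET.LightOne
import Pool.Agent.AEB.TopB

/-!
# Light branches: two forests at a common root
-/

namespace AET

open Finset AE15 AED SPD AEB
open scoped Classical

/-- both sides at a common root, for all pairs of large forests whose trees hang by arcs directed away from the root
(in `R` for the second forest, in the reversed tournament for the first one) -/
def TwoL (b l : ℕ) : Prop :=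
  ∃ K g m C : ℕ, ∀ {V : Type} {R : V → V → Prop}, AE32.Tour R → ∀ c₁ c₂ : Fd, FON b l K g c₁ → FON b l K g c₂ →
    (∀ q ∈ c₁.trees, q.1 = true) → (∀ q ∈ c₂.trees, q.1 = true) → m ≤ c₁.size → c₁.size ≤ c₂.size →
    ∀ X : Finset V, c₁.size + c₂.size + 1 + C ≤ X.card →
      ∃ r ∈ X, ∃ S₁ ⊆ X, ∃ S₂ ⊆ X, Disjoint S₁ S₂ ∧ r ∉ S₁ ∧ r ∉ S₂ ∧ AED.Emb (SPD.rv R) c₁ r S₁ ∧
        AED.Emb R c₂ r S₂

/-- the configuration on one side of the cut -/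
theorem top_cfgL (p : NP) (hp : p.OK) (hab : ab p.b p.l ≤ p.a) (hB2 : (2 * p.b) ^ p.A0 ≤ p.B) {D₀ : ℕ} {ω c η η₁ κ₀ κ₁ κ γ₀ τ s σ₂ μ : ℝ}
    (P : KB D₀ ω c η η₁ κ₀ κ₁ κ γ₀ τ s σ₂ μ) {s' : ℝ} (hs' : 0 < s') : ∃ n₀ : ℕ,
    ∀ {V : Type} {R : V → V → Prop}, AE32.Tour R → ∀ {U Y X : Finset V} {y : V} {κU : ℝ} {F : Fd} {K : ℕ},
      n₀ ≤ X.card →
      X ⊆ Y → Y ⊆ U → y ∈ U → y ∉ Y → κU * U.card ≤ κ₁ * X.card → GdU R κU η U X y → FOL p.b p.l K 0 F →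
      (∀ q ∈ F.trees, q.1 = true) → p.b * (p.A + K * p.a + 1) ≤ F.size →
      (∀ D : Fd, ClU R (GdU R κU η U X) s' p D Y X (R y)) →
      ∃ (G : Finset V) (x : V) (E : Finset V) (L : List (V × Fd)) (D : Fd), G ⊆ X ∧ (∀ g ∈ G, Good R κ₁ η₁ X g) ∧
        E ⊆ Y ∧ E.card ≤ p.e ∧ x ∈ E ∧ PE R F y E L ∧ (x, D) ∈ L ∧ (∀ q ∈ L, q.1 ∈ U ∧ GdU R κU η U X q.1) ∧
        F.size ≤ p.b * p.A * (D.size + 1) ∧
        ((¬ NN D ∧ γ₀ / 16 * X.card ≤ ((nO R G x).card : ℝ)) ∨ Cov R p (γ₀ / 16) X G E x (p.ub D)) := by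
  obtain ⟨hω0, hω1, hc0, hc1, hη0, hη1, hη₁0, hη₁1, hκ₀0, hκ₁0, hκ₁1, hκ0, hκ1, hs0, hγ₀0, hτ0, hσ₂0, hμ0, hκ₁η, hκs⟩ :=
    P.num
  obtain ⟨n₁, hcfg⟩ := cfg p hp hab hB2 hγ₀0 hs'
  obtain ⟨n₂, h₂⟩ := exists_big [((1 : ℝ), κ₀)] (by
    intro q hq
    simp only [List.mem_cons, List.not_mem_nil, or_false] at hq
    rw [hq]
    exact hκ₀0)
  refine ⟨max n₁ n₂, ?_⟩
  intro V R hT U Y X y κU F K hnX hXY hYU hyU hyY hκU hgy hF hflag hsz hcl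
  have hXU : X ⊆ U := hXY.trans hYU
  have b1 : (1 : ℝ) ≤ κ₀ * X.card := h₂ X.card ((le_max_right _ _).trans hnX) (1, κ₀) (by simp)
  have hη₁η : η₁ ≤ η := by
    have : c * η ≤ 1 * η := mul_le_mul_of_nonneg_right (by linarith only [hc1]) hη0.le
    linarith only [this, hη₁1, hη0]
  -- the heavy child
  have hne : F.hv ≠ none := by
    intro h
    rw [hv_none] at h
    rw [h] at hsz
    have h1 : 1 ≤ p.b * (p.A + K * p.a + 1) := Nat.mul_pos hp.hb (by omega)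
    simp only [Fd.size] at hsz
    omega
  obtain ⟨⟨d, F₁⟩, hhv⟩ := Option.ne_none_iff_exists'.1 hne
  obtain ⟨⟨ts, hts⟩, -⟩ := hv_some hhv
  have hmem : (d, F₁) ∈ F.trees := hts.symm.subset List.mem_cons_self
  obtain rfl : d = true := hflag _ hmem
  have hF₁ : FOL p.b p.l K 0 F₁ := hF.heavy hhv
  have hsz1 : F.size ≤ p.b * (F₁.size + 1) := (hv_size hhv hF.1).1
  have hA' : p.A + K * p.a ≤ F₁.size := by
    have h1 : p.b * (p.A + K * p.a + 1) ≤ p.b * (F₁.size + 1) := hsz.trans hsz1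
    have h2 := Nat.le_of_mul_le_mul_left h1 hp.hb
    omega
  have hA : p.A ≤ F₁.size := (Nat.le_add_right _ _).trans hA'
  obtain ⟨G, hG, hGg, hGc, hGo⟩ := exists_G P hT X b1
  have hSt : St R p (GdU R κU η U X) γ₀ s' X G (R y) :=
    ⟨hT, hG, fun g hg => good_gdU hXU (hGg g hg) hκU hη₁η, hGc, hGo, (hcl F₁).1⟩
  obtain ⟨y₀, x, Z, L, D, ⟨hH, -⟩, hD, hDF, hsize, hcov⟩ := hcfg (K := K) (M := F₁.size + 1) hXY
    ((le_max_left _ _).trans hnX) hSt (by omega) hF₁ le_rfl hA (hcl F₁)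
  obtain ⟨hy₀, hx, hNy, hyZ, hZY, hPE, hZe, hxZ, hxD, hGd⟩ := hH
  have hinw : inw F ≤ ([] : List V).length := by
    rw [inw_eq]
    apply le_of_eq
    rw [List.length_nil]
    apply List.sum_eq_zero
    intro k hk
    obtain ⟨q, hq, rfl⟩ := List.mem_map.1 hk
    rw [hflag q hq]
    rfl
  obtain ⟨E, L', hPE', hE1, hE2, hLL, hLL'⟩ := AEB.pe_heavy_whole hT hhv y y₀ [] List.Pairwise.nil (by simp) hNy hPE hyZ
    (by simp) hinw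
  have hE : E = insert y₀ Z := by
    apply Subset.antisymm _ hE2
    intro v hv
    have := hE1 hv
    simpa using this
  have hEY : E ⊆ Y := by
    rw [hE]
    exact insert_subset (hXY hy₀) hZY
  refine ⟨G, x, E, L', D, hG, hGg, hEY, ?_, ?_, hPE', hLL _ hxD, ?_, ?_, ?_⟩
  · rw [hE]
    exact (card_insert_le _ _).trans hZe
  · rw [hE, mem_insert]
    exact hxZ
  · intro q hq
    rcases hLL' q hq with h | h
    · rw [h]
      exact ⟨hyU, hgy⟩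
    · refine ⟨?_, hGd q h⟩
      rcases (PE.host hPE q h).1 with h1 | h1
      · rw [h1]
        exact hXU hy₀
      · exact hYU (hZY h1)
  · calc F.size ≤ p.b * (F₁.size + 1) := hsz1
      _ ≤ p.b * (p.A * (D.size + 1)) := Nat.mul_le_mul_left _ hsize
      _ = p.b * p.A * (D.size + 1) := by ring
  · rw [hE]
    exact hcov

/-- the second record of constants -/
theorem exists_np2L (p : NP) (hp : p.OK) (m : ℕ) : ∃ p₁ : NP, p₁.OK ∧ p₁.b = p.b ∧ p₁.l = p.l ∧ p₁.a = p.a ∧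
    p₁.e = p.e ∧ p₁.c0 = p.c0 ∧ p₁.A = p.A ∧ m ≤ p₁.u0 ∧ p₁.A0 = p.A0 ∧ p₁.B = p.B := by
  refine ⟨{ p with u0 := p.u0 + m }, ?_, rfl, rfl, rfl, rfl, rfl, rfl, Nat.le_add_left _ _, rfl, rfl⟩
  exact { hb := hp.hb, ha := hp.ha, hc := hp.hc, hcx := hp.hcx, hq := hp.hq, hg := hp.hg, hA0 := hp.hA0, hB := hp.hB,
          hr0 := hp.hr0, hc0 := hp.hc0, he := hp.he, hc1 := hp.hc1, hM0 := hp.hM0,
          hu0 := hp.hu0.trans (Nat.le_add_right _ _) }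

/-- **Top step** -/
theorem topL (b l : ℕ) (hb : 1 ≤ b) : TwoL b l := by
  obtain ⟨p, hp, hpb, hpl, hab, hB2⟩ := exists_npL b l hb
  subst hpb hpl
  have hbA : p.A ≤ p.b * p.A := Nat.le_mul_of_pos_left _ hp.hb
  obtain ⟨ω, c, η, η₁, κ₀, κ₁, κ, γ₀, τ, s, σ₂, μ, P⟩ := exists_KB (hp.D₀.trans hbA)
  obtain ⟨hω0, hω1, hc0, hc1, hη0, hη1, hη₁0, hη₁1, hκ₀0, hκ₁0, hκ₁1, hκ0, hκ1, hs0, hγ₀0, hτ0, hσ₂0, hμ0, hκ₁η, hκs⟩ :=
    P.num
  obtain ⟨hB, hhB⟩ : ∃ hB : ℕ, hB = (2 * (p.e + p.e + 2 * p.c0 + 1) + 4 * (p.c1 + p.u0 + p.g)) * (1 + p.c0 + p.c) :=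
    ⟨_, rfl⟩
  obtain ⟨e₂, he₂⟩ : ∃ e₂ : ℕ, e₂ = p.e + hB + 1 := ⟨_, rfl⟩
  obtain ⟨p₁, hp₁, q1, q2, q3, q4, q5, q6, q7, q8, q9⟩ := exists_np2L p hp (2 * e₂)
  have hab₁ : ab p₁.b p₁.l ≤ p₁.a := by rw [q1, q2, q3]; exact hab
  have hB2₁ : (2 * p₁.b) ^ p₁.A0 ≤ p₁.B := by rw [q1, q8, q9]; exact hB2
  have P₁ : KB (p₁.b * p₁.A) ω c η η₁ κ₀ κ₁ κ γ₀ τ s σ₂ μ := by rw [q1, q6]; exact P
  obtain ⟨κc, ξ, sc, τc, nc, hκc, hξ, hsc, hτc, hcut⟩ := AECut.cut (p.c0 + e₂) (β := η / 2) (ζ := 1) (by positivity)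
    (by linarith only [hη1]) one_pos
  obtain ⟨κU, hκU⟩ : ∃ κU : ℝ, κU = min (min (κ / 4) κc) (κ * ξ / 2) := ⟨_, rfl⟩
  have hU0 : 0 < κU := by rw [hκU]; positivity
  have hU1 : κU ≤ κ / 4 := by rw [hκU]; exact (min_le_left _ _).trans (min_le_left _ _)
  have hU2 : κU ≤ κc := by rw [hκU]; exact (min_le_left _ _).trans (min_le_right _ _)
  have hU3 : κU ≤ κ * ξ / 2 := by rw [hκU]; exact min_le_right _ _
  have hUκ : κU ≤ κ := by linarith only [hU1, hκ0]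
  have hs' : 0 < sc / 2 := by positivity
  obtain ⟨n2, hcfg2⟩ := top_cfgL p hp hab hB2 P hs'
  obtain ⟨n1, hcfg1⟩ := top_cfgL p₁ hp₁ hab₁ hB2₁ P₁ hs'
  have hcη' : c * η ≤ 1 * η := mul_le_mul_of_nonneg_right (by linarith only [hc1]) hη0.le
  obtain ⟨gl, el, ml, kl, hgl, hel, hml, hLi⟩ := itX_one p.b hp.hb hκ0 (by linarith only [hκ1, hκ₁η, hη₁1, hcη', hη1]) hη0
    (by linarith only [hη1])
  obtain ⟨K2, CE2', hEE2⟩ := ee_all p hp hab hB2 hbA P hgl hel hml hLi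
  obtain ⟨K1, CE1', hEE1⟩ := ee_all p₁ hp₁ hab₁ hB2₁ (by rw [q1, q6]; exact hbA) P₁ hgl hel hml (by rw [q1]; exact hLi)
  obtain ⟨CE2, hCE2e⟩ : ∃ CE2 : ℝ, CE2 = CE2' := ⟨_, rfl⟩
  obtain ⟨CE1, hCE1e⟩ : ∃ CE1 : ℝ, CE1 = CE1' := ⟨_, rfl⟩
  have hCE2 : 0 ≤ CE2 := by rw [hCE2e]; exact Nat.cast_nonneg _
  have hCE1 : 0 ≤ CE1 := by rw [hCE1e]; exact Nat.cast_nonneg _
  rw [← hCE2e] at hEE2
  rw [← hCE1e] at hEE1
  obtain ⟨K, hK⟩ : ∃ K, K = max K1 K2 := ⟨_, rfl⟩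
  have hK1 : K1 ≤ K := by rw [hK]; exact le_max_left _ _
  have hK2 : K2 ≤ K := by rw [hK]; exact le_max_right _ _
  obtain ⟨m2, w2, l2, gn2, hpl2⟩ := placeL p hp P hU0 hUκ (p.e + 1)
  obtain ⟨m1, w1, l1, gn1, hpl1⟩ := placeL p₁ hp₁ P₁ hU0 hUκ (p.e + 1)
  obtain ⟨g, hg⟩ : ∃ g, g = gn1 + gn2 + p.e + 1 := ⟨_, rfl⟩
  obtain ⟨J, hJ⟩ : ∃ J : ℕ, J = 2 * p.e + w1 + w2 + 1 := ⟨_, rfl⟩
  obtain ⟨f2, hf2⟩ := finYL p hp P hCE2 l2 J
  obtain ⟨f1, hf1⟩ := finYL p₁ hp₁ P₁ hCE1 l1 J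
  obtain ⟨b2, hb2⟩ : ∃ b2 : ℕ, b2 = (2 * (J + 2 * p.e + 2 * p.c0 + 1) + 4 * (p.c1 + p.u0 + p.g)) * (1 + p.c0 + p.c) :=
    ⟨_, rfl⟩
  obtain ⟨b1, hb1⟩ : ∃ b1 : ℕ, b1 = (2 * (J + p.e + 2 * p₁.c0 + 1) + 4 * (p₁.c1 + p₁.u0 + p₁.g)) *
    (1 + p₁.c0 + p₁.c) := ⟨_, rfl⟩
  obtain ⟨n3, h3⟩ := exists_big [(((J + 2 * p.e + 2 * p.c0 + 1 : ℕ) : ℝ), γ₀ / 16),
      (((1 + J + b1 + b2 : ℕ) : ℝ), κU ^ 2 / 128), (((2 * e₂ + 2 : ℕ) : ℝ), sc), ((e₂ : ℝ), τc)] (by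
    intro q hq
    simp only [List.mem_cons, List.not_mem_nil, or_false] at hq
    rcases hq with rfl | rfl | rfl | rfl
    · show 0 < γ₀ / 16
      positivity
    · show 0 < κU ^ 2 / 128
      positivity
    · exact hsc
    · exact hτc)
  obtain ⟨C₁, hC₁⟩ : ∃ C₁ : ℕ, C₁ = nc + n1 + n2 + n3 + m1 + m2 + f1 + f2 + ⌈CE1⌉₊ + ⌈CE2⌉₊ + J + 3 * e₂ +
    16 * (p.c0 + e₂) + 100 := ⟨_, rfl⟩
  refine ⟨K, g, p.b * (p.A + K * p.a + 1), 2 * C₁ + 4 * (p.c0 + e₂), ?_⟩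
  intro V R hT c₁ c₂ hN₁ hN₂ hfl₁ hfl₂ hm₁ hm₂ X hX
  have hF₁ := hN₁.1
  have hF₂ := hN₂.1
  have hT' := rv_tour hT
  obtain ⟨n, hn⟩ : ∃ n : ℕ, n = c₁.size + C₁ := ⟨_, rfl⟩
  obtain ⟨y, P₁', P₂', U₁, hyX, hP₁U, hP₂X, hU₁X, hyU, hPd, hP₁c, hP₂c, hP₂c', -, hξU, hSd2, hSd1⟩ := hcut hT X n
    (by omega) (by omega)
  have hP₂s : c₂.size + C₁ ≤ P₂'.card := by omega
  have hX4 : (X.card : ℝ) ≤ 4 * P₂'.card := by
    have : X.card ≤ 4 * P₂'.card := by omega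
    exact_mod_cast this
  have hy2 : y ∉ P₂' := hSd2.notMem
  have hy1 : y ∉ P₁' := hSd1.side.notMem
  have hP₁R : (P₁'.card : ℝ) = n := by exact_mod_cast hP₁c
  have g2 := h3 P₂'.card (by omega)
  have g21 : ((J + 2 * p.e + 2 * p.c0 + 1 : ℕ) : ℝ) ≤ γ₀ / 16 * P₂'.card :=
    g2 _ List.mem_cons_self
  have g22 : ((1 + J + b1 + b2 : ℕ) : ℝ) ≤ κU ^ 2 / 128 * P₂'.card :=
    g2 _ (List.mem_cons_of_mem _ List.mem_cons_self)
  have g23 : ((2 * e₂ + 2 : ℕ) : ℝ) ≤ sc * P₂'.card :=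
    g2 _ (List.mem_cons_of_mem _ (List.mem_cons_of_mem _ List.mem_cons_self))
  -- side 2: the configuration
  have hκU2 : κU * X.card ≤ κ * P₂'.card := by
    have h1 : κU * X.card ≤ κ / 4 * (4 * P₂'.card) := mul_le_mul hU1 hX4 (Nat.cast_nonneg _) (by positivity)
    linarith only [h1]
  have hκκ₁ : κ * P₂'.card ≤ κ₁ * P₂'.card := mul_le_mul_of_nonneg_right (by linarith only [hκ1, hκ₁0]) (Nat.cast_nonneg _)
  have hk2 : κU * X.card ≤ κc * X.card := mul_le_mul_of_nonneg_right hU2 (Nat.cast_nonneg _)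
  have ht2 : η / 2 * P₂'.card ≤ η * P₂'.card := mul_le_mul_of_nonneg_right (by linarith only [hη0]) (Nat.cast_nonneg _)
  have hy2g : GdU R κU η X P₂' y := rea_gdU hSd2.reach hk2 (Subset.refl _) ht2
  obtain ⟨G₂, x₂, E₂, L₂, D₂, a1, a2, a3, a4, a5, a6, a7, a8, a9, a10⟩ := hcfg2 hT (U := X) (Y := X \ {y}) (X := P₂')
    (y := y) (κU := κU) (F := c₂) (K := K) (by omega) (by
      intro v hv
      rw [mem_sdiff, mem_singleton]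
      exact ⟨hP₂X hv, fun e => hy2 (e ▸ hv)⟩) sdiff_subset hyX (by simp) (hκU2.trans hκκ₁) hy2g hF₂ hfl₂ (by omega)
    (fun D => side_cl hT hp hSd2 le_rfl (by push_cast at g23; linarith only [g23, Nat.cast_nonneg (α := ℝ) e₂]) hk2 ht2
      (by omega) D)
  have a10' : (¬ NN D₂ ∧ γ₀ / 16 * P₂'.card ≤ ((nO R G₂ x₂).card : ℝ)) ∨
      CovE R p (γ₀ / 16) P₂' G₂ E₂ x₂ (p.ub D₂) := a10.imp id (fun h => covE_of_cov hp a1 h a4)
  obtain ⟨Ha, a11, a12, a13, a14⟩ := dc_avoid hT hp a1 a10' p.e p.e a4 (by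
    refine le_trans ?_ g21
    exact_mod_cast (by omega : p.e + p.e + 2 * p.c0 + 1 ≤ J + 2 * p.e + 2 * p.c0 + 1))
  rw [← hhB] at a13
  -- side 1: the configuration
  obtain ⟨E', hE'⟩ : ∃ E' : Finset V, E' = insert y (E₂ ∪ Ha) := ⟨_, rfl⟩
  have hE'c : E'.card ≤ e₂ := by
    rw [hE']
    have h1 := card_insert_le y (E₂ ∪ Ha)
    have h2 := card_union_le E₂ Ha
    omega
  have hyE' : y ∈ E' := by rw [hE']; exact mem_insert_self _ _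
  have hX₁c : P₁'.card ≤ (P₁' \ E').card + e₂ := by
    have h1 := le_card_sdiff E' P₁'
    omega
  have hX₁R : (n : ℝ) ≤ (P₁' \ E').card + e₂ := by
    rw [hP₁c] at hX₁c
    exact_mod_cast hX₁c
  have hne : 3 * (e₂ : ℝ) ≤ n := by exact_mod_cast (by omega : 3 * e₂ ≤ n)
  have he0 : (0 : ℝ) ≤ e₂ := Nat.cast_nonneg _
  have g1 := h3 (P₁' \ E').card (by omega)
  have g11 : ((J + 2 * p.e + 2 * p.c0 + 1 : ℕ) : ℝ) ≤ γ₀ / 16 * (P₁' \ E').card :=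
    g1 _ List.mem_cons_self
  have g12 : ((1 + J + b1 + b2 : ℕ) : ℝ) ≤ κU ^ 2 / 128 * (P₁' \ E').card :=
    g1 _ (List.mem_cons_of_mem _ List.mem_cons_self)
  have g13 : ((2 * e₂ + 2 : ℕ) : ℝ) ≤ sc * P₁'.card :=
    h3 P₁'.card (by omega) _ (List.mem_cons_of_mem _ (List.mem_cons_of_mem _ List.mem_cons_self))
  have g14 : (e₂ : ℝ) ≤ τc * P₁'.card :=
    h3 P₁'.card (by omega) _ (List.mem_cons_of_mem _ (List.mem_cons_of_mem _ (List.mem_cons_of_mem _ List.mem_cons_self)))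
  have hE'R : (E'.card : ℝ) ≤ e₂ := by exact_mod_cast hE'c
  have hκU1 : κU * U₁.card ≤ κ * (P₁' \ E').card := by
    have h1 : κU * U₁.card ≤ κ * ξ / 2 * U₁.card := mul_le_mul_of_nonneg_right hU3 (Nat.cast_nonneg _)
    have h2 : κ / 2 * (ξ * U₁.card) ≤ κ / 2 * n := mul_le_mul_of_nonneg_left hξU (by positivity)
    have h3 : κ / 2 * (n : ℝ) ≤ κ / 2 * (2 * (P₁' \ E').card) :=
      mul_le_mul_of_nonneg_left (by linarith only [hX₁R, hne, he0]) (by positivity)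
    linarith only [h1, h2, h3]
  have hκκ₂ : κ * (P₁' \ E').card ≤ κ₁ * (P₁' \ E').card :=
    mul_le_mul_of_nonneg_right (by linarith only [hκ1, hκ₁0]) (Nat.cast_nonneg _)
  have hk1 : κU * U₁.card ≤ κc * U₁.card := mul_le_mul_of_nonneg_right hU2 (Nat.cast_nonneg _)
  have ht1 : η / 2 * n ≤ η * (P₁' \ E').card := by
    have h1 : η * (n : ℝ) ≤ η * (2 * (P₁' \ E').card) :=
      mul_le_mul_of_nonneg_left (by linarith only [hX₁R, hne, he0]) hη0.le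
    linarith only [h1]
  have hy1g : GdU (rv R) κU η U₁ (P₁' \ E') y := rea_gdU hSd1.side.reach hk1 sdiff_subset ht1
  obtain ⟨G₁, x₁, E₁, L₁, D₁, d1, d2, d3, d4, d5, d6, d7, d8, d9, d10⟩ := hcfg1 hT' (U := U₁) (Y := U₁ \ E')
    (X := P₁' \ E') (y := y) (κU := κU) (F := c₁) (K := K) (by omega) (sdiff_subset_sdiff hP₁U (Subset.refl _)) sdiff_subset hyU
    (by
      rw [mem_sdiff, not_and, not_not]
      exact fun _ => hyE') (hκU1.trans hκκ₂) hy1g (by rw [q1, q2]; exact hF₁) hfl₁ (by rw [q1, q6, q3]; exact hm₁)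
    (fun D => sideC_cl hT' hp₁ hSd1 hs'.le le_rfl (by push_cast at g13; linarith only [g13, hE'R])
      (hE'R.trans g14) hk1 ht1 (by rw [q5]; omega) (by omega) D)
  rw [q4] at d4
  have d10' : (¬ NN D₁ ∧ γ₀ / 16 * (P₁' \ E').card ≤ ((nO (rv R) G₁ x₁).card : ℝ)) ∨
      CovE (rv R) p₁ (γ₀ / 16) (P₁' \ E') G₁ E₁ x₁ (p₁.ub D₁) :=
    d10.imp id (fun h => covE_of_cov hp₁ d1 h (by rw [q4]; exact d4))
  have hE₁E' : Disjoint E₁ E' := by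
    rw [disjoint_left]
    intro v hv hv'
    exact (mem_sdiff.1 (d3 hv)).2 hv'
  have hHaE' : Ha ⊆ E' := by
    rw [hE']
    exact subset_union_right.trans (subset_insert _ _)
  have hE₂E' : E₂ ⊆ E' := by
    rw [hE']
    exact subset_union_left.trans (subset_insert _ _)
  obtain ⟨Hb, a21, a22, a23, a24⟩ := dc_avoid hT hp a1 (a14 E₁ d4 (hE₁E'.mono_right hHaE')) J (2 * p.e) (by
    have := card_union_le E₂ E₁
    omega) g21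
  rw [← hb2] at a23
  obtain ⟨Hc, d21, d22, d23, d24⟩ := dc_avoid hT' hp₁ d1 d10' J p.e d4 (by
    rw [q5]
    refine le_trans ?_ g11
    exact_mod_cast (by omega : J + p.e + 2 * p.c0 + 1 ≤ J + 2 * p.e + 2 * p.c0 + 1))
  rw [← hb1] at d23
  -- placing on side 1
  obtain ⟨K₁, hK₁, hK₁', Z₁, L₁', L₁'', e1, e2, e3, e4, e5, e6, e7, e8, e9⟩ := hpl1 hT' (U := U₁) (X := P₁' \ E')
    (Z := E₁) (F₀ := insert y (E₂ ∪ (Hb ∪ Hc))) (h := y) (x := x₁) (F := c₁) (D := D₁) (L := L₁) (K := K) (by omega)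
    (sdiff_subset.trans hP₁U) hκU1 d6 (by rw [q1, q2]; exact hN₁.mono (by omega)) (by omega) d7
    (fun q hq => ⟨(d8 q hq).1, Or.inl (d8 q hq).2⟩) (by
      refine le_trans ?_ g12
      have h1 := card_insert_le y (E₂ ∪ (Hb ∪ Hc))
      have h2 := card_union_le E₂ (Hb ∪ Hc)
      have h3 := card_union_le Hb Hc
      exact_mod_cast (by omega : (insert y (E₂ ∪ (Hb ∪ Hc))).card ≤ 1 + J + b1 + b2))
  have e6' : ∀ v ∈ Z₁, v ∉ E₁ → v ≠ y ∧ v ∉ E₂ ∧ v ∉ Hb ∧ v ∉ Hc := by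
    intro v hv hvE
    have h1 := disjoint_left.1 e6 (mem_sdiff.2 ⟨hv, hvE⟩)
    rw [mem_insert, mem_union, mem_union, not_or, not_or, not_or] at h1
    exact h1
  have hZ₁c : Z₁.card ≤ p.e + w1 := by
    have h1 := card_sdiff_add_card_eq_card e3
    omega
  -- placing on side 2
  obtain ⟨K₂, hK₂, hK₂', Z₂, L₂', L₂'', k1, k2, k3, k4, k5, k6, k7, k8, k9⟩ := hpl2 hT (U := X) (X := P₂')
    (Z := E₂) (F₀ := insert y (Z₁ ∪ (Hb ∪ Hc))) (h := y) (x := x₂) (F := c₂) (D := D₂) (L := L₂) (K := K) (by omega)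
    hP₂X hκU2 a6 (hN₂.mono (by omega)) (by omega) a7 (fun q hq => ⟨(a8 q hq).1, Or.inl (a8 q hq).2⟩) (by
      refine le_trans ?_ g22
      have h1 := card_insert_le y (Z₁ ∪ (Hb ∪ Hc))
      have h2 := card_union_le Z₁ (Hb ∪ Hc)
      have h3 := card_union_le Hb Hc
      exact_mod_cast (by omega : (insert y (Z₁ ∪ (Hb ∪ Hc))).card ≤ 1 + J + b1 + b2))
  have k6' : ∀ v ∈ Z₂, v ∉ E₂ → v ≠ y ∧ v ∉ Z₁ ∧ v ∉ Hb ∧ v ∉ Hc := by
    intro v hv hvE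
    have h1 := disjoint_left.1 k6 (mem_sdiff.2 ⟨hv, hvE⟩)
    rw [mem_insert, mem_union, mem_union, not_or, not_or, not_or] at h1
    exact h1
  have hZ₂c : Z₂.card ≤ p.e + w2 := by
    have h1 := card_sdiff_add_card_eq_card k3
    omega
  -- all used vertices
  obtain ⟨Za, hZa⟩ : ∃ Za : Finset V, Za = insert y (Z₁ ∪ Z₂) := ⟨_, rfl⟩
  have hZaJ : Za.card ≤ J := by
    rw [hZa]
    have h1 := card_insert_le y (Z₁ ∪ Z₂)
    have h2 := card_union_le Z₁ Z₂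
    omega
  have hZ₁a : Z₁ ⊆ Za := by rw [hZa]; exact subset_union_left.trans (subset_insert _ _)
  have hZ₂a : Z₂ ⊆ Za := by rw [hZa]; exact subset_union_right.trans (subset_insert _ _)
  have hya : y ∈ Za := by rw [hZa]; exact mem_insert_self _ _
  have hE₂X : E₂ ⊆ X := a3.trans sdiff_subset
  have hyE₂ : y ∉ E₂ := fun h => (mem_sdiff.1 (a3 h)).2 (mem_singleton_self _)
  have hyE₁ : y ∉ E₁ := fun h => (mem_sdiff.1 (d3 h)).2 hyE'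
  have hyZ₁ : y ∉ Z₁ := fun h => (e6' y h hyE₁).1 rfl
  have hyZ₂ : y ∉ Z₂ := fun h => (k6' y h hyE₂).1 rfl
  have hZ₁₂ : Disjoint Z₁ Z₂ := by
    rw [disjoint_left]
    intro v hv1 hv2
    by_cases h : v ∈ E₂
    · by_cases h' : v ∈ E₁
      · exact disjoint_left.1 hE₁E' h' (hE₂E' h)
      · exact (e6' v hv1 h').2.1 h
    · exact (k6' v hv2 h).2.1 hv1
  have hHb : Disjoint Za Hb := by
    rw [disjoint_left]
    intro v hv hvH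
    have hvE : v ∉ E₂ ∪ E₁ := disjoint_left.1 a22 hvH
    rw [mem_union, not_or] at hvE
    rw [hZa, mem_insert, mem_union] at hv
    rcases hv with h | h | h
    · exact hy2 (h ▸ a21 hvH)
    · exact (e6' v h hvE.2).2.2.1 hvH
    · exact (k6' v h hvE.1).2.2.1 hvH
  have hHc : Disjoint Za Hc := by
    rw [disjoint_left]
    intro v hv hvH
    have hvE : v ∉ E₁ := disjoint_left.1 d22 hvH
    have hvP := mem_sdiff.1 (d21 hvH)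
    rw [hZa, mem_insert, mem_union] at hv
    rcases hv with h | h | h
    · exact hy1 (h ▸ hvP.1)
    · exact (e6' v h hvE).2.2.2 hvH
    · by_cases h' : v ∈ E₂
      · exact hvP.2 (hE₂E' h')
      · exact (k6' v h h').2.2.2 hvH
  have hcov2 := a24 Za hZaJ hHb
  have hcov1 := d24 Za hZaJ hHc
  rw [union_eq_right.2 (union_subset (k3.trans hZ₂a) (e3.trans hZ₁a))] at hcov2
  rw [union_eq_right.2 (e3.trans hZ₁a)] at hcov1
  -- the pieces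
  obtain ⟨S₁, hS₁, hS₁Z, hS₁E⟩ := hf1 hT' (X := P₁' \ E') (G := G₁) (Ks := K₁) (Z := Z₁) (Za := Za) (h := y) (x := x₁)
    (F := c₁) (D := D₁) (L := L₁'') (Lh := L₁') (K := K) (by omega) d1 d2 hcov1 (insert_subset hya hZ₁a) hZaJ
    (hZ₁a (e3 d5)) hK₁ hK₁' e1 (by rw [q1, q2]; exact (PE.near d6 hN₁ (by omega) _ d7).1) e2 e9 e8 d9
    (fun F' hF' => hEE1 hT' F' (hF'.mono_K hK1)) (by
      have h1 := Nat.le_ceil CE1
      have h2 : c₁.size + ⌈CE1⌉₊ + J ≤ (P₁' \ E').card := by omega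
      have h3 : ((c₁.size + ⌈CE1⌉₊ + J : ℕ) : ℝ) ≤ (P₁' \ E').card := by exact_mod_cast h2
      push_cast at h3
      linarith only [h1, h3])
  obtain ⟨S₂, hS₂, hS₂Z, hS₂E⟩ := hf2 hT (X := P₂') (G := G₂) (Ks := K₂) (Z := Z₂) (Za := Za) (h := y) (x := x₂)
    (F := c₂) (D := D₂) (L := L₂'') (Lh := L₂') (K := K) (by omega) a1 a2 hcov2 (insert_subset hya hZ₂a) hZaJ
    (hZ₂a (k3 a5)) hK₂ hK₂' k1 (PE.near a6 hN₂ (by omega) _ a7).1 k2 k9 k8 a9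
    (fun F' hF' => hEE2 hT F' (hF'.mono_K hK2)) (by
      have h1 := Nat.le_ceil CE2
      have h2 : c₂.size + ⌈CE2⌉₊ + J ≤ P₂'.card := by omega
      have h3 : ((c₂.size + ⌈CE2⌉₊ + J : ℕ) : ℝ) ≤ P₂'.card := by exact_mod_cast h2
      push_cast at h3
      linarith only [h1, h3])
  have hS₁P : S₁ ⊆ P₁' := hS₁.trans sdiff_subset
  have hZ₁X : Z₁ ⊆ X := by
    intro v hv
    by_cases h : v ∈ E₁
    · exact hU₁X (sdiff_subset (d3 h))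
    · exact hU₁X (e4 (mem_sdiff.2 ⟨hv, h⟩))
  have hZ₂X : Z₂ ⊆ X := by
    intro v hv
    by_cases h : v ∈ E₂
    · exact hE₂X h
    · exact k4 (mem_sdiff.2 ⟨hv, h⟩)
  refine ⟨y, hyX, Z₁ ∪ S₁, union_subset hZ₁X (hS₁P.trans (hP₁U.trans hU₁X)), Z₂ ∪ S₂,
    union_subset hZ₂X (hS₂.trans hP₂X), ?_, ?_, ?_, hS₁E, hS₂E⟩
  · rw [disjoint_union_left, disjoint_union_right, disjoint_union_right]
    exact ⟨⟨hZ₁₂, (hS₂Z.mono_right hZ₁a).symm⟩, hS₁Z.mono_right hZ₂a, (hPd.mono_left hS₁P).mono_right hS₂⟩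
  · rw [mem_union, not_or]
    exact ⟨hyZ₁, fun h => disjoint_left.1 hS₁Z h hya⟩
  · rw [mem_union, not_or]
    exact ⟨hyZ₂, fun h => disjoint_left.1 hS₂Z h hya⟩

end AET
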