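import Pool.Agent.AEB.Absorb
import Pool.Agent.AEB.Cfg

/-!
# Light branches: the predicate on forests

In the children forest of every vertex the first tree has maximal size (main child). A tree which is not the first one and
hangs by an arc directed away from the root is light if the in-closure of its root has at most `1 / K` of the number of
vertices behind the common vertex. Behind light arcs everything is allowed; in the rest the runs towards the root have
at most `l` arcs.
-/

namespace AET

open Finset AE15 AED AEB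
open scoped Classical

variable {V : Type*} {R : V → V → Prop}

/-- `InL l K e S j F`: `F` is (a final segment of, if `e = false`) the children forest of a vertex `u`, where `S` is the
number of vertices behind `u` and the parent arc of `u` is the `j`-th arc of a run directed towards the root -/
def InL (l K : ℕ) : Bool → ℕ → ℕ → Fd → Prop
  | _, _, _, .nil => True
  | e, S, j, .node d c s => (if d then (e = false ∧ K * (blk c + 1) ≤ S) ∨ InL l K true (c.size + 1) 0 c
      else j + 1 ≤ l ∧ InL l K true (c.size + 1) (j + 1) c) ∧ InL l K false S j s ∧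
      (e = true → ∀ q ∈ s.trees, q.2.size ≤ c.size)

/-- all conditions on the forest -/
def FOL (b l K j : ℕ) (F : Fd) : Prop := F.len ≤ b ∧ F.Deg b ∧ InL l K true (F.size + 1) j F

theorem InL.child {l K S j : ℕ} {e : Bool} {F : Fd} (h : InL l K e S j F) {p : Bool × Fd} (hp : p ∈ F.trees) :
    (p.1 = true → K * (blk p.2 + 1) ≤ S ∨ InL l K true (p.2.size + 1) 0 p.2) ∧
      (p.1 = false → j + 1 ≤ l ∧ InL l K true (p.2.size + 1) (j + 1) p.2) := by
  induction F generalizing e with
  | nil => simp [Fd.trees] at hp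
  | node d c s _ ihs =>
    simp only [Fd.trees, List.mem_cons] at hp
    rcases hp with rfl | hp
    · cases d with
      | true =>
        have h1 := h.1
        simp only [if_true] at h1
        exact ⟨fun _ => h1.imp (fun h => h.2) id, by simp⟩
      | false =>
        have h1 := h.1
        simp only [Bool.false_eq_true, if_false] at h1
        exact ⟨by simp, fun _ => h1⟩
    · exact ihs h.2.1 hp

theorem FOL.child {b l K j : ℕ} {F : Fd} (h : FOL b l K j F) {p : Bool × Fd} (hp : p ∈ F.trees) :
    (p.1 = true → K * (blk p.2 + 1) ≤ F.size + 1 ∨ FOL b l K 0 p.2) ∧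
      (p.1 = false → j + 1 ≤ l ∧ FOL b l K (j + 1) p.2) := by
  obtain ⟨-, h2, h3⟩ := h
  obtain ⟨h4, h5⟩ := (Fd.deg_iff b F).1 h2 p hp
  obtain ⟨h6, h7⟩ := h3.child hp
  exact ⟨fun e => (h6 e).imp id fun h => ⟨h4, h5, h⟩, fun e => ⟨(h7 e).1, h4, h5, (h7 e).2⟩⟩

theorem FOL.child_in {b l K j : ℕ} {F c : Fd} (h : FOL b l K j F) (hp : (false, c) ∈ F.trees) :
    FOL b l K (j + 1) c ∧ j + 1 ≤ l :=
  ⟨((h.child hp).2 rfl).2, ((h.child hp).2 rfl).1⟩

/-- the first tree is the heavy one -/
theorem InL.hv {l K S j : ℕ} {d : Bool} {c s : Fd} (h : InL l K true S j (.node d c s)) :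
    (Fd.node d c s).hv = some (d, c) := by
  have h1 := h.2.2 rfl
  simp only [Fd.hv]
  cases hs : s.hv with
  | none => rfl
  | some q =>
    simp only
    rw [if_pos (h1 q (hv_mem hs))]

/-- the heavy child is not behind a light arc -/
theorem FOL.heavy {b l K j : ℕ} {F c : Fd} (h : FOL b l K j F) (hp : F.hv = some (true, c)) :
    FOL b l K 0 c := by
  obtain ⟨-, h2, h3⟩ := h
  cases F with
  | nil => simp [Fd.hv] at hp
  | node d c' s =>
    rw [h3.hv] at hp
    simp only [Option.some.injEq, Prod.mk.injEq] at hp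
    obtain ⟨rfl, rfl⟩ := hp
    have h4 := h3.1
    simp only [if_true, Bool.true_eq_false, false_and, false_or] at h4
    exact ⟨h2.1, h2.2.1, h4⟩

theorem FOL.len_le {b l K j : ℕ} {F : Fd} (h : FOL b l K j F) : F.len ≤ b := h.1

private theorem geo_succ (b m : ℕ) : ∑ i ∈ range (m + 1), b ^ i = b * ∑ i ∈ range m, b ^ i + 1 := by
  rw [sum_range_succ', mul_sum, pow_zero]
  congr 1
  exact sum_congr rfl fun i _ => by rw [pow_succ, mul_comm]

private theorem blk_le_aux {b l K : ℕ} (F : Fd) : ∀ {e : Bool} {S j : ℕ}, F.Deg b → InL l K e S j F → j ≤ l →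
    blk F ≤ F.len * ∑ i ∈ range (l - j), b ^ i := by
  induction F with
  | nil => intro e S j _ _ _; simp [blk]
  | node d c s ihc ihs =>
    intro e S j hd hr hj
    have h1 := ihs hd.2.2 hr.2.1 hj
    simp only [blk, Fd.len, add_mul, one_mul]
    cases d with
    | true =>
      simp only [if_true]
      omega
    | false =>
      have h2 := hr.1
      simp only [Bool.false_eq_true, if_false] at h2 ⊢
      have h3 := ihc hd.2.1 h2.2 h2.1
      have h4 : l - j = (l - (j + 1)) + 1 := by omega
      have h5 : c.len * ∑ i ∈ range (l - (j + 1)), b ^ i ≤ b * ∑ i ∈ range (l - (j + 1)), b ^ i :=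
        Nat.mul_le_mul_right _ hd.1
      have h6 := geo_succ b (l - (j + 1))
      rw [← h4] at h6
      omega

theorem FOL.blk_le {b l K j : ℕ} {F : Fd} (h : FOL b l K j F) (hj : j ≤ l) :
    blk F + 1 ≤ ∑ i ∈ range (l + 1 - j), b ^ i := by
  have h1 := blk_le_aux F h.2.1 h.2.2 hj
  have h2 : l + 1 - j = (l - j) + 1 := by omega
  rw [h2, geo_succ]
  have h3 : F.len * ∑ i ∈ range (l - j), b ^ i ≤ b * ∑ i ∈ range (l - j), b ^ i := Nat.mul_le_mul_right _ h.1
  omega

theorem FOL.blk_lt_a {b l K j a : ℕ} {F : Fd} (h : FOL b l K j F) (hj : j ≤ l) (ha : ab b l ≤ a) : blk F + 1 ≤ a := by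
  refine (h.blk_le hj).trans (le_trans ?_ ha)
  unfold ab
  apply sum_le_sum_of_subset
  intro i hi
  rw [Finset.mem_range] at hi ⊢
  omega

/-- one heavy step -/
theorem step_size {b : ℕ} (hb : 1 ≤ b) {F : Fd} {p : Bool × Fd} (h : F.hv = some p) (hl : F.len ≤ b) :
    F.size + 1 ≤ 2 * b * (p.2.size + 1) := by
  have h1 := (hv_size h hl).1
  have h2 : 1 ≤ b * (p.2.size + 1) := Nat.mul_pos hb (Nat.succ_pos _)
  have h3 : 2 * b * (p.2.size + 1) = b * (p.2.size + 1) + b * (p.2.size + 1) := by ring
  omega

theorem big_child {b m : ℕ} (hb : 1 ≤ b) {F : Fd} {p : Bool × Fd} (h : F.hv = some p) (hl : F.len ≤ b)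
    (hs : (2 * b) ^ (m + 1) ≤ F.size) : (2 * b) ^ m ≤ p.2.size := by
  have h1 := step_size hb h hl
  by_contra h2
  have h3 : p.2.size + 1 ≤ (2 * b) ^ m := by omega
  have h4 : 2 * b * (p.2.size + 1) ≤ 2 * b * (2 * b) ^ m := Nat.mul_le_mul_left _ h3
  have h5 : (2 * b) ^ (m + 1) = 2 * b * (2 * b) ^ m := by rw [pow_succ]; ring
  omega

private theorem turn_of {b l K : ℕ} (hb : 1 ≤ b) : ∀ (m j : ℕ) {F c : Fd}, l - j = m → FOL b l K j F →
    F.hv = some (false, c) → (2 * b) ^ (m + 2) ≤ F.size →
    ∃ D, Turn F D ∧ FOL b l K 0 D ∧ D.size < F.size ∧ F.size + 1 ≤ (2 * b) ^ (m + 1) * (D.size + 1) := by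
  intro m
  induction m with
  | zero =>
    intro j F c hm h hc _
    have h1 := (h.child_in (hv_mem hc)).2
    omega
  | succ m ih =>
    intro j F c hm h hc hs
    obtain ⟨h1, h2⟩ := h.child_in (hv_mem hc)
    have h3 : F.size + 1 ≤ 2 * b * (c.size + 1) := step_size hb hc h.1
    have h4 : (2 * b) ^ (m + 2) ≤ c.size := big_child hb hc h.1 hs
    have h5 : c.size < F.size := (hv_size hc h.1).2
    have hpos : 1 ≤ (2 * b) ^ m := Nat.one_le_pow _ _ (by omega)
    cases hc' : c.hv with
    | none =>
      obtain rfl := hv_none.1 hc'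
      have h6 : 1 ≤ (2 * b) ^ (m + 2) := Nat.one_le_pow _ _ (by omega)
      simp only [Fd.size] at h4
      omega
    | some p =>
      obtain ⟨d, D⟩ := p
      cases d with
      | true =>
        have h6 := h1.heavy hc'
        have h7 : c.size + 1 ≤ 2 * b * (D.size + 1) := step_size hb hc' h1.1
        have h8 : D.size < c.size := (hv_size hc' h1.1).2
        refine ⟨D, Turn.one F c D hc hc', h6, h8.trans h5, ?_⟩
        calc F.size + 1 ≤ 2 * b * (c.size + 1) := h3
          _ ≤ 2 * b * (2 * b * (D.size + 1)) := Nat.mul_le_mul_left _ h7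
          _ = 1 * ((2 * b) ^ 2 * (D.size + 1)) := by ring
          _ ≤ (2 * b) ^ m * ((2 * b) ^ 2 * (D.size + 1)) := Nat.mul_le_mul_right _ hpos
          _ = (2 * b) ^ (m + 1 + 1) * (D.size + 1) := by ring
      | false =>
        obtain ⟨E, h6, h7, h8, h9⟩ := ih (j + 1) (by omega) h1 hc' h4
        refine ⟨E, Turn.more F c E hc h6, h7, h8.trans h5, ?_⟩
        calc F.size + 1 ≤ 2 * b * (c.size + 1) := h3
          _ ≤ 2 * b * ((2 * b) ^ (m + 1) * (E.size + 1)) := Nat.mul_le_mul_left _ h9
          _ = (2 * b) ^ (m + 1 + 1) * (E.size + 1) := by ring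

/-- routing -/
theorem routeL {b l K : ℕ} (hb : 1 ≤ b) {F : Fd} (h : FOL b l K 0 F) (hs : (2 * b) ^ (l + 3) ≤ F.size) :
    NN F ∨ (∃ D, Turn F D ∧ FOL b l K 0 D ∧ D.size < F.size ∧ F.size + 1 ≤ (2 * b) ^ (l + 2) * (D.size + 1)) ∨
      ∃ c D, F.hv = some (true, c) ∧ Turn c D ∧ FOL b l K 0 c ∧ FOL b l K 0 D ∧ D.size < F.size ∧
        F.size + 1 ≤ (2 * b) ^ (l + 2) * (D.size + 1) := by
  have h2b : 1 ≤ 2 * b := by omega
  cases hF : F.hv with
  | none =>
    obtain rfl := hv_none.1 hF
    have h6 : 1 ≤ (2 * b) ^ (l + 3) := Nat.one_le_pow _ _ (by omega)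
    simp only [Fd.size] at hs
    omega
  | some p =>
    obtain ⟨d, c⟩ := p
    cases d with
    | false =>
      right
      left
      have h1 : (2 * b) ^ (l + 2) ≤ F.size := (Nat.pow_le_pow_right h2b (by omega)).trans hs
      obtain ⟨D, h3, h4, h5, h6⟩ := turn_of hb l 0 (by omega) h hF h1
      refine ⟨D, h3, h4, h5, h6.trans (Nat.mul_le_mul_right _ (Nat.pow_le_pow_right h2b (by omega)))⟩
    | true =>
      have h1 := h.heavy hF
      have h3 : F.size + 1 ≤ 2 * b * (c.size + 1) := step_size hb hF h.1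
      have h4 : (2 * b) ^ (l + 2) ≤ c.size := big_child hb hF h.1 hs
      have h5 : c.size < F.size := (hv_size hF h.1).2
      cases hc : c.hv with
      | none =>
        obtain rfl := hv_none.1 hc
        have h6 : 1 ≤ (2 * b) ^ (l + 2) := Nat.one_le_pow _ _ (by omega)
        simp only [Fd.size] at h4
        omega
      | some q =>
        obtain ⟨d', c'⟩ := q
        cases d' with
        | true => exact Or.inl ⟨c, c', hF, hc⟩
        | false =>
          right
          right
          obtain ⟨D, h6, h7, h8, h9⟩ := turn_of hb l 0 (by omega) h1 hc h4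
          refine ⟨c, D, rfl, h6, h1, h7, h8.trans h5, ?_⟩
          calc F.size + 1 ≤ 2 * b * (c.size + 1) := h3
            _ ≤ 2 * b * ((2 * b) ^ (l + 1) * (D.size + 1)) := Nat.mul_le_mul_left _ h9
            _ = (2 * b) ^ (l + 2) * (D.size + 1) := by ring

/-- the exit of a turn -/
theorem turn_folL {b l K : ℕ} {F D : Fd} (h : Turn F D) : ∀ {j : ℕ}, FOL b l K j F → FOL b l K 0 D := by
  induction h with
  | one F c D h1 h2 =>
    intro j hF
    exact (hF.child_in (hv_mem h1)).1.heavy h2
  | more F c D h1 _ ih =>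
    intro j hF
    exact ih (hF.child_in (hv_mem h1)).1

/-- the pending items: bounded degree, the in-closure of the root has at most `M / K` vertices -/
def Qi (K b M : ℕ) (D : Fd) : Prop := K * (blk D + 1) ≤ M ∧ D.len ≤ b ∧ D.Deg b

/-- all trees which hang by an arc away from the root at a vertex of the in-closure of the common vertex (or at this
vertex) satisfy `Q` -/
def OutB (Q : Fd → Prop) : Fd → Prop
  | .nil => True
  | .node d c s => (if d then Q c else OutB Q c) ∧ OutB Q s

theorem outB_iff (Q : Fd → Prop) (F : Fd) : OutB Q F ↔ ∀ p ∈ F.trees, if p.1 then Q p.2 else OutB Q p.2 := by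
  induction F with
  | nil => simp [OutB, Fd.trees]
  | node d c s _ ihs =>
    simp only [OutB, Fd.trees, List.mem_cons, forall_eq_or_imp, ihs]

private theorem outB_aux {b l K M a : ℕ} (ha : ab b l ≤ a) (hKa : K * a ≤ M) (F : Fd) : ∀ {e : Bool} {S j : ℕ},
    F.Deg b → InL l K e S j F → j ≤ l → S ≤ M → F.size + 1 ≤ M → OutB (Qi K b M) F := by
  induction F with
  | nil => intro e S j _ _ _ _ _; trivial
  | node d c s ihc ihs =>
    intro e S j hd hr hj hS hM
    simp only [Fd.size] at hM
    refine ⟨?_, ihs hd.2.2 hr.2.1 hj hS (by omega)⟩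
    cases d with
    | true =>
      have h1 := hr.1
      simp only [if_true] at h1 ⊢
      rcases h1 with h1 | h1
      · exact ⟨h1.2.trans hS, hd.1, hd.2.1⟩
      · have h2 : FOL b l K 0 c := ⟨hd.1, hd.2.1, h1⟩
        exact ⟨(Nat.mul_le_mul_left _ (h2.blk_lt_a (Nat.zero_le _) ha)).trans hKa, hd.1, hd.2.1⟩
    | false =>
      have h1 := hr.1
      simp only [Bool.false_eq_true, if_false] at h1 ⊢
      exact ihc hd.2.1 h1.2 h1.1 (by omega) (by omega)

theorem FOL.outB {b l K M a j : ℕ} {F : Fd} (h : FOL b l K j F) (hj : j ≤ l) (ha : ab b l ≤ a) (hKa : K * a ≤ M)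
    (hM : F.size + 1 ≤ M) : OutB (Qi K b M) F :=
  outB_aux ha hKa F h.2.1 h.2.2 hj hM hM

/-- the thick part: everything behind light arcs is deleted -/
def thk (K : ℕ) : Bool → ℕ → Fd → Fd
  | _, _, .nil => .nil
  | e, S, .node d c s => if d = true ∧ e = false ∧ K * (blk c + 1) ≤ S then thk K false S s
      else .node d (thk K true (c.size + 1) c) (thk K false S s)

theorem thk_node (K S : ℕ) (e d : Bool) (c s : Fd) : thk K e S (.node d c s) =
    if d = true ∧ e = false ∧ K * (blk c + 1) ≤ S then thk K false S s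
      else .node d (thk K true (c.size + 1) c) (thk K false S s) := by rw [thk]

theorem thk_len (K : ℕ) (F : Fd) : ∀ e S, (thk K e S F).len ≤ F.len := by
  induction F with
  | nil => intro e S; exact le_rfl
  | node d c s ihc ihs =>
    intro e S
    have := ihs false S
    rw [thk_node]
    split_ifs with h
    · simp only [Fd.len]; omega
    · simp only [Fd.len]; omega

theorem thk_deg (K : ℕ) {b : ℕ} (F : Fd) : ∀ e S, F.Deg b → (thk K e S F).Deg b := by
  induction F with
  | nil => intro e S h; exact h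
  | node d c s ihc ihs =>
    intro e S h
    obtain ⟨h1, h2, h3⟩ := h
    rw [thk_node]
    split_ifs with h
    · exact ihs false S h3
    · exact ⟨(thk_len K c _ _).trans h1, ihc _ _ h2, ihs false S h3⟩

theorem thk_inR {l K : ℕ} (F : Fd) : ∀ e S j, InL l K e S j F → InR l j (thk K e S F) := by
  induction F with
  | nil => intro e S j _; exact trivial
  | node d c s ihc ihs =>
    intro e S j h
    obtain ⟨h1, h2, -⟩ := h
    rw [thk_node]
    split_ifs with h
    · exact ihs false S j h2
    · refine ⟨?_, ihs false S j h2⟩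
      cases d with
      | true =>
        simp only [if_true] at h1 ⊢
        rcases h1 with h1 | h1
        · exact absurd ⟨rfl, h1.1, h1.2⟩ h
        · exact ihc _ _ 0 h1
      | false =>
        simp only [Bool.false_eq_true, if_false] at h1 ⊢
        exact ⟨h1.1, ihc _ _ _ h1.2⟩

theorem thk_fok {b l K j : ℕ} {F : Fd} (h : FOL b l K j F) : FOK b l j (thk K true (F.size + 1) F) :=
  ⟨(thk_len K F _ _).trans h.1, thk_deg K F _ _ h.2.1, thk_inR F _ _ _ h.2.2⟩

theorem thk_size {b l K : ℕ} (hb : 1 ≤ b) : ∀ (m : ℕ) {j : ℕ} {F : Fd}, FOL b l K j F →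
    (2 * b) ^ m ≤ F.size + 1 → m ≤ (thk K true (F.size + 1) F).size + 1 := by
  intro m
  induction m with
  | zero => intro j F _ _; omega
  | succ m ih =>
    intro j F h hs
    cases F with
    | nil =>
      have h1 : 2 * b ≤ (2 * b) ^ (m + 1) := Nat.le_self_pow (by omega) _
      simp only [Fd.size] at hs
      omega
    | node d c s =>
      have hF := h.2.2.hv
      have h1 := step_size hb hF h.1
      have h2 : (2 * b) ^ m ≤ c.size + 1 := by
        have h3 : (2 * b) ^ (m + 1) = 2 * b * (2 * b) ^ m := by rw [pow_succ]; ring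
        have h4 : 2 * b * (2 * b) ^ m ≤ 2 * b * (c.size + 1) := by
          simp only at h1
          omega
        exact Nat.le_of_mul_le_mul_left h4 (by omega)
      have h3 : ∃ j', FOL b l K j' c := by
        cases d with
        | true => exact ⟨0, h.heavy hF⟩
        | false => exact ⟨j + 1, (h.child_in (hv_mem hF)).1⟩
      obtain ⟨j', h3⟩ := h3
      have h4 := ih h3 h2
      rw [thk_node, if_neg (by simp)]
      simp only [Fd.size]
      omega

theorem blk_thk (K : ℕ) (F : Fd) : ∀ e S, blk (thk K e S F) = blk F := by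
  induction F with
  | nil => intro e S; rfl
  | node d c s ihc ihs =>
    intro e S
    rw [thk_node]
    split_ifs with h
    · obtain ⟨rfl, -⟩ := h
      simp only [blk, if_true, zero_add]
      exact ihs false S
    · simp only [blk, ihc, ihs]

/-- an embedding of a truncation of the thick part is an incomplete embedding of the forest -/
theorem trunc_pe {b l K M a : ℕ} (ha : ab b l ≤ a) (hKa : K * a ≤ M) (F : Fd) : ∀ {e : Bool} {S j : ℕ} {F' : Fd},
    F.Deg b → InL l K e S j F → j ≤ l → S ≤ M → F.size + 1 ≤ M → Trunc (thk K e S F) F' →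
      ∀ {v : V} {A : Finset V}, Emb R F' v A → ∃ L, PE R F v A L ∧ ∀ q ∈ L, Qi K b M q.2 := by
  induction F with
  | nil =>
    intro e S j F' _ _ _ _ _ hT v A hE
    cases hT
    have hA : A = ∅ := hE
    subst hA
    exact ⟨[], PE.nil v, by simp⟩
  | node d c s ihc ihs =>
    intro e S j F' hd hr hj hS hM hT v A hE
    simp only [Fd.size] at hM
    rw [thk_node] at hT
    split_ifs at hT with h
    · obtain ⟨rfl, -, h2⟩ := h
      obtain ⟨L, h3, h4⟩ := ihs hd.2.2 hr.2.1 hj hS (by omega) hT hE
      refine ⟨(v, c) :: L, PE.pend c s v A L h3, ?_⟩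
      intro q hq
      rcases List.mem_cons.1 hq with rfl | hq
      · exact ⟨h2.trans hS, hd.1, hd.2.1⟩
      · exact h4 q hq
    · -- the class of the first tree
      have hc : ∃ j', j' ≤ l ∧ InL l K true (c.size + 1) j' c := by
        have h1 := hr.1
        cases d with
        | true =>
          simp only [if_true] at h1
          rcases h1 with h1 | h1
          · exact absurd ⟨rfl, h1.1, h1.2⟩ h
          · exact ⟨0, Nat.zero_le _, h1⟩
        | false =>
          simp only [Bool.false_eq_true, if_false] at h1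
          exact ⟨j + 1, h1.1, h1.2⟩
      obtain ⟨j', hj', hc⟩ := hc
      generalize hg : thk K true (c.size + 1) c = c₁ at hT
      generalize hg' : thk K false S s = s₁ at hT
      cases hT with
      | drop _ _ s' hT' =>
        subst hg'
        obtain ⟨L, h3, h4⟩ := ihs hd.2.2 hr.2.1 hj hS (by omega) hT' hE
        refine ⟨(v, c) :: L, PE.pend c s v A L h3, ?_⟩
        intro q hq
        rcases List.mem_cons.1 hq with rfl | hq
        · have h5 : FOL b l K j' c := ⟨hd.1, hd.2.1, hc⟩
          exact ⟨(Nat.mul_le_mul_left _ (h5.blk_lt_a hj' ha)).trans hKa, hd.1, hd.2.1⟩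
        · exact h4 q hq
      | keep _ _ c' _ s' hTc hTs =>
        subst hg hg'
        obtain ⟨x, A₁, B₁, h1, h2, h3, h4, rfl, h6, h7⟩ := hE
        obtain ⟨L₁, g1, g2⟩ := ihc hd.2.1 hc hj' (by omega) (by omega) hTc h6
        obtain ⟨L₂, g3, g4⟩ := ihs hd.2.2 hr.2.1 hj hS (by omega) hTs h7
        refine ⟨L₁ ++ L₂, PE.place d c s v x A₁ B₁ L₁ L₂ h1 h2 h3 h4 g1 g3, ?_⟩
        intro q hq
        rcases List.mem_append.1 hq with hq | hq
        · exact g2 q hq
        · exact g4 q hq

/-- hosts and sizes of the pending items -/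
theorem PE.host {F : Fd} {v : V} {Z : Finset V} {L : List (V × Fd)} (h : PE R F v Z L) :
    ∀ p ∈ L, (p.1 = v ∨ p.1 ∈ Z) ∧ p.2.size < F.size := by
  induction h with
  | nil v => simp
  | pend c s v A L _ ih =>
    intro p hp
    rcases List.mem_cons.1 hp with rfl | hp
    · exact ⟨Or.inl rfl, by simp only [Fd.size]; omega⟩
    · obtain ⟨h7, h8⟩ := ih p hp
      exact ⟨h7, by simp only [Fd.size]; omega⟩
  | place d c s v x A B L₁ L₂ _ _ _ _ _ _ ih1 ih2 =>
    intro p hp
    rcases List.mem_append.1 hp with hp | hp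
    · obtain ⟨h7, h8⟩ := ih1 p hp
      refine ⟨Or.inr ?_, by simp only [Fd.size]; omega⟩
      rcases h7 with h7 | h7
      · rw [h7]
        exact mem_insert_self _ _
      · exact mem_insert_of_mem (mem_union_left _ h7)
    · obtain ⟨h7, h8⟩ := ih2 p hp
      refine ⟨?_, by simp only [Fd.size]; omega⟩
      rcases h7 with h7 | h7
      · exact Or.inl h7
      · exact Or.inr (mem_insert_of_mem (mem_union_right _ h7))

end AET
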