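import Pool.Agent.AET.P1LinL
import Pool.Agent.AET.P2PartL
import Pool.Agent.AEG.Cluster

/-!
# Light branches: the cluster round, the out-side being linear
-/

set_option autoImplicit false

namespace AET

open Finset AE15 AED AEB SPD AEG
open scoped Classical

/-- the hypothesis on the branches -/
def BrGL (b l Kl g : ℕ) (q : Fd × Fd) : Prop :=
  FON b l Kl g q.1 ∧ FON b l Kl g q.2 ∧ (∀ t ∈ q.1.trees, t.1 = true) ∧ ∀ t ∈ q.2.trees, t.1 = true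

/-- **The cluster round, the out-side being linear.** -/
theorem cluster_linL (p : NP) (hp : p.OK) (hab : ab p.b p.l ≤ p.a) (hB2 : (2 * p.b) ^ p.A0 ≤ p.B) {D₀ : ℕ} (hD₀ : p.A ≤ D₀)
    {ω c η η₁ κ₀ κ₁ κ γ₀ τ s σ₂ μ : ℝ} (P : KB D₀ ω c η η₁ κ₀ κ₁ κ γ₀ τ s σ₂ μ) {κ' : ℝ} (hκ' : 0 < κ')
    (hωδ : 2 * ω ≤ κ') (N B₀ : ℕ) (hN : 1 ≤ N) :
    ∃ Kl g cc K₁ : ℕ, ∀ lam' : ℕ, cc ≤ lam' → ∃ w' : ℕ, ∀ K w : ℕ, ∃ B₂ : ℕ, ∀ sig : ℕ, cc ≤ sig → ∃ C₀ : ℕ,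
      ∀ {T : Type} {R : T → T → Prop}, AE32.Tour R → ∀ {Y V₀ : Finset T} {Nn : T → Prop} {lam : ℕ}, cc ≤ lam →
        StM R Y V₀ Nn κ η s lam sig K → (V₀ \ low R sig (Y ∪ V₀)).card ≤ w →
        ∀ (l₁ l₂ t₁ t₂ : Fd × Fd) (gr rest : List (Fd × Fd)),
          (∀ q ∈ l₁ :: l₂ :: (gr ++ t₁ :: t₂ :: rest), BrGL p.b p.l Kl g q) →
          l₁.1.size + l₁.2.size ≤ B₀ → l₂.1.size + l₂.2.size ≤ B₀ → t₁.1.size + t₁.2.size ≤ B₀ →
          t₂.1.size + t₂.2.size ≤ B₀ → gr ≠ [] → gr.length ≤ N → B₂ ≤ inS gr → rest ≠ [] →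
          ∀ C : ℕ, C₀ ≤ C → szS (l₁ :: l₂ :: (gr ++ t₁ :: t₂ :: rest)) + C = (Y ∪ V₀).card →
          κ' * (Y ∪ V₀).card ≤ (szS rest + C : ℕ) →
          ∀ sig' : ℕ, sig ≤ sig' → ∃ L' : List (Fd × Fd), (L' = t₂ :: rest ∨ L' = rest) ∧
            Nxt R κ η s lam' sig' K₁ w' (l₁ :: l₂ :: (gr ++ t₁ :: t₂ :: rest)) Nn (Y ∪ V₀) L' C := by
  have hnum := P.num
  obtain ⟨hω0, hω1, hc0, hc1, hη0, hη1, hη₁0, hη₁1, hκ₀0, hκ₁0, hκ₁1, hκ0, hκ1, hs0, hγ₀0, hτ0, hσ₂0, hμ0, hκ₁η, hκs⟩ :=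
    hnum
  have hcη : c * η ≤ 1 * η := mul_le_mul_of_nonneg_right (by linarith only [hc1]) hη0.le
  obtain ⟨ηp, hηp0, hηp1, hp1⟩ := p1_linL p.b p.l N hp.hb hN
  obtain ⟨β, hβ⟩ : ∃ β : ℝ, β = min η ηp := ⟨_, rfl⟩
  have hβ0 : 0 < β := by rw [hβ]; exact lt_min hη0 hηp0
  have hβη : β ≤ η := by rw [hβ]; exact min_le_left _ _
  have hβp : β ≤ ηp := by rw [hβ]; exact min_le_right _ _
  obtain ⟨κc, ξ, sc, τc, εc, hκc0, hκc1, hξ0, hξ1, hsc0, hτc0, hεc0, hcut⟩ := gcut_allB.{0} (β := β) (ζ := κ' / 4) hβ0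
    (by linarith) (by positivity)
  obtain ⟨κU, hκU⟩ : ∃ κU : ℝ, κU = min κc (min κ (κ * κ' / 2)) := ⟨_, rfl⟩
  have hU0 : 0 < κU := by rw [hκU]; exact lt_min hκc0 (lt_min hκ0 (by positivity))
  have hU1 : κU ≤ κc := by rw [hκU]; exact min_le_left _ _
  have hU2 : κU ≤ κ := by rw [hκU]; exact (min_le_right _ _).trans (min_le_left _ _)
  have hU3 : κU ≤ κ * κ' / 2 := by rw [hκU]; exact (min_le_right _ _).trans (min_le_right _ _)
  obtain ⟨Kl₂, g₂, w₀, hp2⟩ := p2_partL p hp hab hB2 hD₀ P hU0 hU2 N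
  obtain ⟨Kl₁, g₁, J₁, C₁, hp1⟩ := hp1 κc ξ sc τc hκc0 hκc1 hξ0 hξ1 hsc0 hτc0 (4 * N) (w₀ + 4 * B₀ + 2)
  obtain ⟨h₀, K₁, hp2⟩ := hp2 (J₁ + 4 * B₀ + 4)
  obtain ⟨cc, hcc⟩ : ∃ cc : ℕ, cc = N + h₀ + 4 * B₀ + 4 + 2 ^ B₀ := ⟨_, rfl⟩
  refine ⟨max Kl₁ Kl₂, max g₁ g₂, cc, K₁, fun lam' hlam' => ?_⟩
  obtain ⟨c₂, hc₂, hp2⟩ := hp2 lam'
  obtain ⟨C₂, hp2⟩ := hp2 (20 * cc)
  refine ⟨C₁ + J₁ + (20 * cc + 2 * c₂), fun K w => ?_⟩
  obtain ⟨n₁, hp1⟩ := hp1 (cc + w₀)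
  have hcut' : ∀ Ng : ℕ, ∃ n₀ : ℕ, 1 ≤ Ng → ∀ {V : Type} {R : V → V → Prop}, AE32.Tour R →
      ∀ (X Bd : Finset V) (p : ℕ), Bd.card ≤ 0 → n₀ ≤ p →
        p + n₀ ≤ X.card → ∃ (ys : List V) (y₁ y₂ : V) (P₁ P₂ U₁ U₂ R₁ R₂ : Finset V), P₁.card = p ∧
          GA R X Bd Ng (5 * (Ng * 0) + 8 * cc) κc ξ sc τc εc β (κ' / 4) ys y₁ y₂ P₁ P₂ U₁ U₂ R₁ R₂ ∧
          GX R X Ng 0 cc κc sc τc β ys P₁ P₂ U₁ U₂ R₁ R₂ := by
    intro Ng
    by_cases h : 1 ≤ Ng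
    · obtain ⟨n₀, hn₀⟩ := hcut Ng 0 cc h
      exact ⟨n₀, fun _ => hn₀⟩
    · exact ⟨0, fun h' => absurd h' h⟩
  choose ncut hncut using hcut'
  obtain ⟨nc, hnc⟩ : ∃ nc : ℕ, ∀ Ng ≤ N, ncut Ng ≤ nc :=
    ⟨(range (N + 1)).sup ncut, fun Ng h => le_sup (f := ncut) (mem_range.2 (by omega))⟩
  obtain ⟨fF, hfF⟩ : ∃ fF : ℕ, fF = N + 2 + 2 * B₀ + h₀ := ⟨_, rfl⟩
  obtain ⟨nB, hnB⟩ := exists_big [(((w + 2 * cc + K * fF + fF + 2 : ℕ) : ℝ), sc)] (by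
    intro q hq
    simp only [List.mem_cons, List.not_mem_nil, or_false] at hq
    subst hq
    exact hsc0)
  refine ⟨nc + n₁ + nB + 1, fun sig hsig => ?_⟩
  obtain ⟨n₂, hn₂⟩ := exists_big [(((2 * sig + N + C₁ : ℕ) : ℝ), κ' / 2), ((C₂ : ℝ), κ' / 2), ((2 * cc : ℝ), τc * κ' / 2),
      ((cc : ℝ), γ₀ / 4 * (κ' / 2)), ((cc : ℝ) + w + 2 * sig, κ), ((cc : ℝ), κc * κ' / 2), ((cc : ℝ), κ' / 4),
      ((nc : ℝ), κ' / 2), (((C₂ + 2 * sig + C₁ : ℕ) : ℝ), κ' / 2), (1, 1)] (by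
    intro q hq
    simp only [List.mem_cons, List.not_mem_nil, or_false] at hq
    rcases hq with rfl | rfl | rfl | rfl | rfl | rfl | rfl | rfl | rfl | rfl
    · show 0 < κ' / 2
      positivity
    · show 0 < κ' / 2
      positivity
    · show 0 < τc * κ' / 2
      positivity
    · show 0 < γ₀ / 4 * (κ' / 2)
      positivity
    · exact hκ0
    · show 0 < κc * κ' / 2
      positivity
    · show 0 < κ' / 4
      positivity
    · show 0 < κ' / 2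
      positivity
    · show 0 < κ' / 2
      positivity
    · exact one_pos)
  refine ⟨n₂, ?_⟩
  intro T R hT Y V₀ Nn lam hlam hSt hw l₁ l₂ t₁ t₂ gr rest hBr hl₁ hl₂ ht₁ ht₂ hgr hgrN hB₂ hrest C hC hsz hδ sig' hsig'
  obtain ⟨X₀, hX₀⟩ : ∃ X₀, X₀ = Y ∪ V₀ := ⟨_, rfl⟩
  rw [← hX₀] at hw hsz hδ ⊢
  obtain ⟨n, hnd⟩ : ∃ n : ℝ, n = (X₀.card : ℝ) := ⟨_, rfl⟩
  rw [← hnd] at hδ
  have hbig := hn₂ X₀.card (by omega)
  rw [← hnd] at hbig
  have b1 : ((2 * sig + N + C₁ : ℕ) : ℝ) ≤ κ' / 2 * n := hbig (((2 * sig + N + C₁ : ℕ) : ℝ), κ' / 2) (by simp)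
  have b2 : (C₂ : ℝ) ≤ κ' / 2 * n := hbig ((C₂ : ℝ), κ' / 2) (by simp)
  have b3 : (2 * cc : ℝ) ≤ τc * κ' / 2 * n := hbig ((2 * cc : ℝ), τc * κ' / 2) (by simp)
  have b4 : (cc : ℝ) ≤ γ₀ / 4 * (κ' / 2) * n := hbig ((cc : ℝ), γ₀ / 4 * (κ' / 2)) (by simp)
  have b5 : (cc : ℝ) + w + 2 * sig ≤ κ * n := hbig ((cc : ℝ) + w + 2 * sig, κ) (by simp)
  have b6 : (cc : ℝ) ≤ κc * κ' / 2 * n := hbig ((cc : ℝ), κc * κ' / 2) (by simp)
  have b7 : (cc : ℝ) ≤ κ' / 4 * n := hbig ((cc : ℝ), κ' / 4) (by simp)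
  have b8 : (nc : ℝ) ≤ κ' / 2 * n := hbig ((nc : ℝ), κ' / 2) (by simp)
  have b9 : (1 : ℝ) ≤ 1 * n := hbig (1, 1) (by simp)
  have b10 : ((C₂ + 2 * sig + C₁ : ℕ) : ℝ) ≤ κ' / 2 * n := hbig (((C₂ + 2 * sig + C₁ : ℕ) : ℝ), κ' / 2) (by simp)
  have hn0 : 0 < n := by linarith only [b9]
  obtain ⟨Q, hQd⟩ : ∃ Q : ℕ, Q = inS gr := ⟨_, rfl⟩
  rw [← hQd] at hB₂
  have hszL : szS (l₁ :: l₂ :: (gr ++ t₁ :: t₂ :: rest)) = l₁.1.size + l₁.2.size + 1 + (l₂.1.size + l₂.2.size + 1 +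
      (szS gr + (t₁.1.size + t₁.2.size + 1 + (t₂.1.size + t₂.2.size + 1 + szS rest)))) := by
    rw [szS_cons, szS_cons, szS_app, szS_cons, szS_cons]
  have hQ : (Q : ℝ) + κ' * n ≤ n := by
    have h1 := inS_le_szS gr
    have h2 : Q + (szS rest + C) ≤ X₀.card := by omega
    have h3 : (Q : ℝ) + (szS rest + C : ℕ) ≤ n := by rw [hnd]; exact_mod_cast h2
    linarith only [h3, hδ]
  -- the universe of the cut
  obtain ⟨X₁, hX₁⟩ : ∃ X₁, X₁ = X₀ \ low R sig X₀ := ⟨_, rfl⟩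
  have hX₁₀ : X₁ ⊆ X₀ := by rw [hX₁]; exact sdiff_subset
  have hlowc : (low R sig X₀).card ≤ 2 * sig := card_lowin hT X₀ sig
  have hX₁c : X₀.card ≤ X₁.card + 2 * sig := by
    have := le_card_sdiff (low R sig X₀) X₀
    rw [hX₁]
    omega
  have hX₁r : n ≤ X₁.card + 2 * sig := by rw [hnd]; exact_mod_cast hX₁c
  have hX₁n : (X₁.card : ℝ) ≤ n := by rw [hnd]; exact_mod_cast card_le_card hX₁₀
  push_cast at b1
  have hNr : (0 : ℝ) ≤ N := Nat.cast_nonneg _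
  have hC₁r : (0 : ℝ) ≤ C₁ := Nat.cast_nonneg _
  have hsr : (0 : ℝ) ≤ sig := Nat.cast_nonneg _
  have hNg1 : 1 ≤ gr.length := List.length_pos_of_ne_nil hgr
  obtain ⟨ys, y₁, y₂, P₁, P₂, U₁, U₂, R₁, R₂, hP₁, hGA, hGX⟩ := hncut gr.length hNg1 hT X₁ ∅ (Q + C₁) (by simp) (by
      have := hnc gr.length hgrN
      omega) (by
      have h1 := hnc gr.length hgrN
      have h2 : ((Q + C₁ + nc : ℕ) : ℝ) ≤ X₁.card := by
        push_cast
        linarith only [hQ, b1, b8, hX₁r, hNr, hC₁r]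
      have h3 : Q + C₁ + nc ≤ X₁.card := by exact_mod_cast h2
      omega)
  have hP₂c : κ' / 2 * n ≤ P₂.card := by
    have h1 := hGA.card
    have h2 : (P₁.card : ℝ) + gr.length + P₂.card = X₁.card := by exact_mod_cast h1
    have h3 : (P₁.card : ℝ) = Q + C₁ := by rw [hP₁]; push_cast; ring
    have h4 : (gr.length : ℝ) ≤ N := by exact_mod_cast hgrN
    linarith only [h2, h3, h4, hQ, hX₁r, b1]
  have hP₂X : P₂ ⊆ U₂ := hGA.sub₂
  have hU₂ : U₂ = X₁ := by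
    rcases hGA.amb with h | h | h
    · exact h.2
    · exact h.1
    · exfalso
      have h1 : (P₂.card : ℝ) ≤ U₂.card := by exact_mod_cast card_le_card hP₂X
      have h2 : κ' / 4 * (X₁.card : ℝ) ≤ κ' / 4 * n := mul_le_mul_of_nonneg_left hX₁n (by positivity)
      have h3 : 0 < κ' * n := by positivity
      linarith only [h.2, h1, h2, h3, hP₂c]
  subst hU₂
  have hX₁P : (P₂.card : ℝ) ≤ U₂.card := by exact_mod_cast card_le_card hP₂X
  have hP₂0 : (0 : ℝ) ≤ P₂.card := Nat.cast_nonneg _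
  -- the vertex `z`
  obtain ⟨Bz, hBz⟩ : ∃ Bz, Bz = P₂.filter (fun u => R u y₂ ∧ (∀ w ∈ R₂, ¬ R w u) ∧
      (P₂.filter (fun w => R y₂ w ∧ R w u ∧ Rea R U₂ P₂ (κc * U₂.card) (β * P₂.card) w)).card ≤ 2 * cc) := ⟨_, rfl⟩
  have hBzc : Bz.card ≤ 20 * cc := by
    have h1 := hGA.out₂.cnt (2 * cc) (by
      push_cast
      have h2 : τc * (κ' / 2 * n) ≤ τc * P₂.card := mul_le_mul_of_nonneg_left hP₂c hτc0.le
      linarith only [h2, b3])
    rw [← hBz] at h1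
    omega
  obtain ⟨Ex, hEx⟩ : ∃ Ex, Ex = Bz ∪ low R c₂ P₂ := ⟨_, rfl⟩
  obtain ⟨z, hzP, hzE, hzO, H, hHP, hHc, hHE, hzH, hp2⟩ := hp2 hT (U := U₂) (Y := P₂) (Bz := Bz) (Ex := Ex) (by
      have h1 : (C₂ : ℝ) ≤ P₂.card := b2.trans hP₂c
      exact_mod_cast h1) hP₂X (by
      have h1 : κU * (U₂.card : ℝ) ≤ κU * n := mul_le_mul_of_nonneg_left hX₁n hU0.le
      have h2 : κU * n ≤ κ * κ' / 2 * n := mul_le_mul_of_nonneg_right hU3 hn0.le
      have h3 : κ * (κ' / 2 * n) ≤ κ * P₂.card := mul_le_mul_of_nonneg_left hP₂c hκ0.le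
      linarith only [h1, h2, h3]) hBzc hEx
  have hzX : z ∈ U₂ := hP₂X hzP
  have hy₂ : y₂ ∈ ys := List.mem_of_getLast? hGA.last
  have hy₁ : y₁ ∈ ys := List.mem_of_head? hGA.first
  have hout : ∀ w, Rea R U₂ P₂ (κc * U₂.card) (β * P₂.card) w → cc ≤ (nO R U₂ w).card := by
    intro w hw
    have h1 := Rea.many hw
    have h2 : (cc : ℝ) ≤ min (κc * U₂.card) (P₂.card - β * P₂.card) := by
      refine le_min ?_ ?_
      · have h3 : κc * (κ' / 2 * n) ≤ κc * U₂.card := mul_le_mul_of_nonneg_left (hP₂c.trans hX₁P) hκc0.le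
        linarith only [h3, b6]
      · have h3 : β * P₂.card ≤ 1 / 2 * P₂.card := mul_le_mul_of_nonneg_right (by linarith only [hβη, hη1]) hP₂0
        linarith only [h3, b7, hP₂c]
    exact_mod_cast h2.trans h1
  have hzI : cc ≤ (nI R U₂ z).card := by
    have h1 : z ∉ low R c₂ P₂ := fun h => hzE (by rw [hEx]; exact mem_union_right _ h)
    rw [mem_low, not_and, not_lt] at h1
    exact hlam'.trans (hc₂.trans ((h1 hzP).trans (card_le_card (nI_mono hP₂X))))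
  have hzO' : cc ≤ (nO R U₂ z).card := by
    have h1 : ((nO R P₂ z).card : ℝ) ≤ (nO R U₂ z).card := by exact_mod_cast card_le_card (nO_mono hP₂X)
    have h2 : γ₀ / 4 * (κ' / 2 * n) ≤ γ₀ / 4 * P₂.card := mul_le_mul_of_nonneg_left hP₂c (by positivity)
    have h3 : (cc : ℝ) ≤ (nO R U₂ z).card := by linarith only [h1, h2, hzO, b4]
    exact_mod_cast h3
  have hyz := zw_choice hT hGA.out₂ hP₂X (hGA.hys y₂ hy₂).2.2.2.1 (le_refl (2 * cc)) (fun w hw => (hGX.cap₂ w hw).1)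
    hout hzP (by
      rw [← hBz]
      exact fun h => hzE (by rw [hEx]; exact mem_union_left _ h))
  -- the links behind the group
  have hbt₁ := hBr t₁ (by simp)
  have hbt₂ := hBr t₂ (by simp)
  have hbl₁ := hBr l₁ (by simp)
  have hbl₂ := hBr l₂ (by simp)
  have hysc : ys.toFinset.card ≤ N := by
    have h1 := List.toFinset_card_le ys
    have h2 := hGA.len
    omega
  obtain ⟨tl₀, q₀, L', SAt, SDt, e1, e2, e3, e4, e5, e6, e7, e8, e9, e10, e11, e12, e13⟩ := tail_part hT (F := ys.toFinset)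
    rest hyz hzP hzI hzO' hzH (by omega) hbt₁.2.2.1 hbt₁.2.2.2 ht₁ hbt₂.2.2.1 hbt₂.2.2.2 ht₂
  obtain ⟨tl, htl⟩ : ∃ tl, tl = tl₀ ++ [(z, q₀)] := ⟨_, rfl⟩
  rw [← htl] at e1 e3 e4 e5 e6 e7 e8 e12
  have hztl : (z, q₀) ∈ tl := by rw [htl]; simp
  have htlc : (hostsF tl).card ≤ 2 := by rw [card_hostsF e5]; exact e3
  -- the front
  obtain ⟨F1, hF1⟩ : ∃ F1, F1 = ys.toFinset ∪ H ∪ hostsF tl ∪ (SAt ∪ SDt) := ⟨_, rfl⟩
  have hF1c : F1.card ≤ fF := by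
    have h1 := card_union_le (ys.toFinset ∪ H ∪ hostsF tl) (SAt ∪ SDt)
    have h2 := card_union_le (ys.toFinset ∪ H) (hostsF tl)
    have h3 := card_union_le ys.toFinset H
    have h4 := card_union_le SAt SDt
    rw [hF1]
    omega
  have hP₁X : P₁ ⊆ U₂ := hGA.sub₁.trans hGA.hU₁
  have hin := hGX.inn rfl
  obtain ⟨v, a, SAf, SDf, f1, f2, f3, f4, f5, f6, f7, f8, f9, f10, f11, f12, f13, f14, f15, f16, f17, f18, f19, f20, f21⟩ :=
    front hT (P₁ := P₁) (F := F1) (s₁ := sc) (f := fF) (B₀ := B₀) (c := cc) (y₁ := y₁) (t₁ := l₁) (t₂ := l₂) (w := w)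
      hSt (by linarith) (by rw [← hX₀]; exact hw) (by rw [← hX₀, ← hX₁]; exact hP₁X) (by
      refine (hin y₁ hy₁).lin.trans (Nat.cast_le.2 (card_le_card ?_))
      intro u hu
      rw [mem_filter] at hu ⊢
      exact ⟨hu.1, hu.2.1⟩) hF1c hbl₁.2.2.1 hbl₁.2.2.2 hl₁ hbl₂.2.2.1 hbl₂.2.2.2 hl₂ (by omega) hlam hsig (by
      have h1 : X₀.card ≤ Y.card + (w + 2 * sig) := by
        have h2 : X₀ ⊆ Y ∪ ((V₀ \ low R sig X₀) ∪ low R sig X₀) := by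
          intro x hx
          rw [hX₀, mem_union] at hx
          rw [mem_union, mem_union, mem_sdiff]
          tauto
        have h3 := card_le_card h2
        have h4 := card_union_le Y ((V₀ \ low R sig X₀) ∪ low R sig X₀)
        have h5 := card_union_le (V₀ \ low R sig X₀) (low R sig X₀)
        omega
      have h2 : n ≤ Y.card + (w + 2 * sig) := by rw [hnd]; exact_mod_cast h1
      have h3 : κ * n ≤ κ * (Y.card + (w + 2 * sig)) := mul_le_mul_of_nonneg_left h2 hκ0.le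
      have h4 : κ * ((w : ℝ) + 2 * sig) ≤ 1 * (w + 2 * sig) :=
        mul_le_mul_of_nonneg_right (by linarith only [hκ1, hκ₁η, hη₁1, hcη, hη1, hη0]) (by positivity)
      linarith only [h3, h4, b5]) (hnB P₁.card (by omega) _ (List.mem_singleton.2 rfl))
  rw [← hX₀] at f12 f13
  -- all vertices chosen so far
  obtain ⟨F2, hF2⟩ : ∃ F2, F2 = insert v (insert a (ys.toFinset ∪ H ∪ hostsF tl ∪ (SAt ∪ SDt) ∪ (SAf ∪ SDf))) :=
    ⟨_, rfl⟩
  have hF2c : F2.card ≤ cc := by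
    have h1 := card_insert_le v (insert a (F1 ∪ (SAf ∪ SDf)))
    have h2 := card_insert_le a (F1 ∪ (SAf ∪ SDf))
    have h3 := card_union_le F1 (SAf ∪ SDf)
    have h4 := card_union_le SAf SDf
    rw [hF2, ← hF1]
    have h5 : 1 ≤ 2 ^ B₀ := Nat.one_le_two_pow
    omega
  have hlenys : ys.length = gr.length := hGA.len
  have hzipm : ∀ r ∈ ys.zip gr, r.1 ∈ ys ∧ r.2 ∈ gr := fun r hr => List.of_mem_zip (a := r.1) (b := r.2) hr
  -- tops of the out-branches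
  obtain ⟨Z, Lp, hPEs, hZU, hZF, hZc, hp2⟩ := hp2 ((ys.zip gr).map (fun r => (r.1, r.2.2))) F2 (by
      rw [List.length_map, List.length_zip]
      omega) (by
      intro r hr
      rw [List.mem_map] at hr
      obtain ⟨r', hr', rfl⟩ := hr
      obtain ⟨g1, g2⟩ := hzipm r' hr'
      have g3 := hBr r'.2 (by simp [g2])
      exact ⟨(hGA.hys _ g1).2.1, rea_gdU (hGA.host₂ _ g1).reach (mul_le_mul_of_nonneg_right hU1 (Nat.cast_nonneg _))
        (Subset.refl _) (mul_le_mul_of_nonneg_right hβη hP₂0), (g3.2.1.mono (le_max_right _ _)).mono_K (le_max_right _ _), g3.2.2.2⟩) (by omega)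
  -- the in-branches
  obtain ⟨A, hA⟩ : ∃ A, A = F2 ∪ Z := ⟨_, rfl⟩
  have hysP₁ : ∀ y ∈ ys, y ∉ P₁ := fun y hy => (hGA.hys y hy).2.2.1
  have hysP₂ : ∀ y ∈ ys, y ∉ P₂ := fun y hy => (hGA.hys y hy).2.2.2.1
  have htlP : ∀ x ∈ hostsF tl, x ∈ P₂ ∧ x ∉ H := by
    intro x hx
    obtain ⟨r, hr, rfl⟩ := mem_hostsF.1 hx
    exact e6 r hr
  have hdP : ∀ x, x ∈ P₁ → x ∈ P₂ → False := fun x h1 h2 => disjoint_left.1 hGA.disj h1 h2
  have hAm : ∀ x, x ∈ A ↔ x = v ∨ x = a ∨ x ∈ ys.toFinset ∨ x ∈ H ∨ x ∈ hostsF tl ∨ x ∈ SAt ∪ SDt ∨ x ∈ SAf ∪ SDf ∨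
      x ∈ Z := by
    intro x
    rw [hA, hF2]
    exact mem_chosen
  have hmid : ∀ r ∈ (ys.zip gr).map (fun r => (r.1, r.2.1)), r.1 ∈ ys := by
    intro r hr
    rw [List.mem_map] at hr
    obtain ⟨r', hr', rfl⟩ := hr
    exact (hzipm r' hr').1
  obtain ⟨SAg, g1, g2, g3, g4⟩ := hp1 (rv_tour hT) U₁ P₁ A ((ys.zip gr).map (fun r => (r.1, r.2.1))) (β * P₁.card)
    hGA.sub₁ (by
      intro h
      have h1 := congrArg List.length h
      rw [List.length_map, List.length_zip, List.length_nil] at h1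
      omega) (by
      rw [List.length_map, List.length_zip]
      omega) (by
      intro r hr
      rw [List.mem_map] at hr
      obtain ⟨r', hr', rfl⟩ := hr
      have h3 := hBr r'.2 (by simp [(hzipm r' hr').2])
      exact ⟨(h3.1.mono (le_max_left _ _)).mono_K (le_max_left _ _), h3.2.2.1⟩) (by
      intro r hr
      have h3 := hmid r hr
      refine ⟨(hGA.hys _ h3).1, hysP₁ _ h3, (hAm _).2 (Or.inr (Or.inr (Or.inl (List.mem_toFinset.2 h3)))), ?_⟩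
      exact (hin _ h3).weak le_rfl le_rfl le_rfl le_rfl (by
        have := Nat.mul_le_mul_left 4 hgrN
        omega)) hGA.sz₁ (mul_le_mul_of_nonneg_right hβp (Nat.cast_nonneg _)) (by
      have h1 := card_union_le F2 Z
      rw [hA]
      omega) (by
      have h1 : A ∩ P₁ ⊆ insert v (insert a ((SAt ∪ SDt) ∪ (SAf ∪ SDf) ∪ Z)) := by
        intro x hx
        rw [mem_inter] at hx
        rw [mem_insert, mem_insert, mem_union, mem_union (s := SAt ∪ SDt)]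
        rcases (hAm x).1 hx.1 with h | h | h | h | h | h | h | h
        · exact Or.inl h
        · exact Or.inr (Or.inl h)
        · exact absurd hx.2 (hysP₁ x (List.mem_toFinset.1 h))
        · exact absurd (hHP h) (fun h' => hdP x hx.2 h')
        · exact absurd (htlP x h).1 (fun h' => hdP x hx.2 h')
        · exact Or.inr (Or.inr (Or.inl (Or.inl h)))
        · exact Or.inr (Or.inr (Or.inl (Or.inr h)))
        · exact Or.inr (Or.inr (Or.inr h))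
      have h2 := card_le_card h1
      have h3 := card_insert_le v (insert a ((SAt ∪ SDt) ∪ (SAf ∪ SDf) ∪ Z))
      have h4 := card_insert_le a ((SAt ∪ SDt) ∪ (SAf ∪ SDf) ∪ Z)
      have h5 := card_union_le ((SAt ∪ SDt) ∪ (SAf ∪ SDf)) Z
      have h6 := card_union_le (SAt ∪ SDt) (SAf ∪ SDf)
      have h7 := card_union_le SAt SDt
      have h8 := card_union_le SAf SDf
      omega) (by
      rw [totB_zip1 ys gr hlenys, hP₁]
      omega) (by omega)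
  have hSAgc : SAg.card = Q := by rw [EmbAllB.card g1, totB_zip1 ys gr hlenys, hQd]
  -- the used vertices except for the light part
  have hcF1 : ∀ x ∈ H, x ∈ F1 := fun x hx => by
    rw [hF1]
    exact mem_union_left _ (mem_union_left _ (mem_union_right _ hx))
  obtain ⟨W, hW⟩ : ∃ W, W = insert v (insert a (ys.toFinset ∪ hostsF tl)) ∪ (SAt ∪ SDt) ∪ (SAf ∪ SDf) ∪ Z ∪ SAg :=
    ⟨_, rfl⟩
  have hWm : ∀ x, x ∈ W ↔ x = v ∨ x = a ∨ x ∈ ys.toFinset ∨ x ∈ hostsF tl ∨ x ∈ SAt ∪ SDt ∨ x ∈ SAf ∪ SDf ∨ x ∈ Z ∨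
      x ∈ SAg := by
    intro x
    rw [hW]
    exact mem_usedW
  have hWH : Disjoint W H := by
    rw [disjoint_left]
    intro x hx hxH
    rcases (hWm x).1 hx with h | h | h | h | h | h | h | h
    · exact f8 (h ▸ hcF1 x hxH)
    · exact f9 (h ▸ hcF1 x hxH)
    · exact hysP₂ x (List.mem_toFinset.1 h) (hHP hxH)
    · exact (htlP x h).2 hxH
    · exact (e12 x h).2.1 hxH
    · rcases mem_union.1 h with h | h
      · exact disjoint_left.1 f15 h (hcF1 x hxH)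
      · exact disjoint_left.1 f16 h (hcF1 x hxH)
    · refine disjoint_left.1 hZF h ?_
      rw [hF2, ← hF1]
      exact mem_insert_of_mem (mem_insert_of_mem (mem_union_left _ (hcF1 x hxH)))
    · exact disjoint_left.1 g3 h ((hAm x).2 (Or.inr (Or.inr (Or.inr (Or.inl hxH)))))
  have hWc : (W ∩ P₂).card ≤ w₀ + (J₁ + 4 * B₀ + 4) := by
    have h1 : W ∩ P₂ ⊆ insert v (insert a (hostsF tl ∪ ((SAt ∪ SDt) ∪ ((SAf ∪ SDf) ∪ (Z ∪ (SAg \ P₁)))))) := by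
      intro x hx
      rw [mem_inter] at hx
      rw [mem_insert, mem_insert, mem_union, mem_union (s := SAt ∪ SDt), mem_union (s := SAf ∪ SDf), mem_union (s := Z),
        mem_sdiff]
      rcases (hWm x).1 hx.1 with h | h | h | h | h | h | h | h
      · exact Or.inl h
      · exact Or.inr (Or.inl h)
      · exact absurd hx.2 (hysP₂ x (List.mem_toFinset.1 h))
      · exact Or.inr (Or.inr (Or.inl h))
      · exact Or.inr (Or.inr (Or.inr (Or.inl h)))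
      · exact Or.inr (Or.inr (Or.inr (Or.inr (Or.inl h))))
      · exact Or.inr (Or.inr (Or.inr (Or.inr (Or.inr (Or.inl h)))))
      · exact Or.inr (Or.inr (Or.inr (Or.inr (Or.inr (Or.inr ⟨h, fun h' => hdP x h' hx.2⟩)))))
    have h2 := card_le_card h1
    have h3 := card_insert_le v (insert a (hostsF tl ∪ ((SAt ∪ SDt) ∪ ((SAf ∪ SDf) ∪ (Z ∪ (SAg \ P₁))))))
    have h4 := card_insert_le a (hostsF tl ∪ ((SAt ∪ SDt) ∪ ((SAf ∪ SDf) ∪ (Z ∪ (SAg \ P₁)))))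
    have h5 := card_union_le (hostsF tl) ((SAt ∪ SDt) ∪ ((SAf ∪ SDf) ∪ (Z ∪ (SAg \ P₁))))
    have h6 := card_union_le (SAt ∪ SDt) ((SAf ∪ SDf) ∪ (Z ∪ (SAg \ P₁)))
    have h7 := card_union_le (SAf ∪ SDf) (Z ∪ (SAg \ P₁))
    have h8 := card_union_le Z (SAg \ P₁)
    have h9 := card_union_le SAt SDt
    have h10 := card_union_le SAf SDf
    omega
  -- the light part and the state
  obtain ⟨S, hE, hSP, hstate⟩ := hp2 W (fun x hx => (hWm x).2 (by simp [hx])) ((hWm z).2 (by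
      have : z ∈ hostsF tl := mem_hostsF.2 ⟨_, hztl, rfl⟩
      simp [this])) (by
      intro r hr
      rw [List.mem_map] at hr
      obtain ⟨r', hr', rfl⟩ := hr
      exact (hWm _).2 (Or.inr (Or.inr (Or.inl (List.mem_toFinset.2 (hzipm r' hr').1))))) hWH hWc (by
      have h1 := szS_zip ys gr hlenys
      have h2 := hGA.card
      have h3 : totB ((ys.zip gr).map (fun r => (r.1, r.2.2))) + (szS rest + C) ≤ P₂.card + (2 * sig + C₁) := by omega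
      have h4 : ((totB ((ys.zip gr).map (fun r => (r.1, r.2.2))) : ℕ) : ℝ) + (szS rest + C : ℕ) ≤
          P₂.card + (2 * sig + C₁ : ℕ) := by exact_mod_cast h3
      have h5 : 2 * ω * (P₂.card : ℝ) ≤ κ' * n :=
        mul_le_mul hωδ (hX₁P.trans hX₁n) (Nat.cast_nonneg _) hκ'.le
      push_cast at b10 h4
      push_cast at hδ
      linarith only [h4, h5, b10, hδ])
  have hExP : Ex ⊆ P₂ := by
    rw [hEx]
    refine union_subset ?_ ?_
    · rw [hBz]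
      exact filter_subset _ _
    · exact fun x hx => (mem_low.1 hx).1
  have hExc : Ex.card ≤ 20 * cc + 2 * c₂ := by
    rw [hEx]
    refine (card_union_le _ _).trans (Nat.add_le_add hBzc ?_)
    exact card_lowin hT P₂ c₂
  refine ⟨L', e2, ?_⟩
  have hfin := cluster_end (R := R) (κ := κ) (η := η) (s := s) (lam' := lam') (sig := sig) (sig' := sig') (K₁ := K₁)
    (C := C) (C₁ := C₁) (J₁ := J₁) (e₂ := 20 * cc + 2 * c₂) (X₀ := X₀) (U₁ := U₁) (U₂ := U₂) (P₁ := P₁) (P₂ := P₂)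
    (H := H) (Ex := Ex) (Z := Z) (S := S) (SAt := SAt) (SDt := SDt) (SAf := SAf) (SDf := SDf) (SAg := SAg) (W := W)
    (A := A) (ys := ys) (y₁ := y₁) (y₂ := y₂) (v := v) (a := a) (z := z) (tl₀ := tl₀) (tl := tl) (q₀ := q₀) (l₁ := l₁)
    (l₂ := l₂) (gr := gr) (L' := L') (Nn := Nn) hW (by rw [hA, hF2]) hX₁ hGA.part hGA.hU₁ hP₂X
    (fun y hy => ⟨(hGA.hys y hy).2.1, hysP₁ y hy, hysP₂ y hy⟩) hGA.nodup hGA.chain hGA.first hGA.last hlenys htl e4 e5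
    (fun t ht => (e6 t ht).1) e7 e8 e9 e10 e11 (fun x hx => ⟨(e12 x hx).1, (e12 x hx).2.2⟩)
    (by rw [hX₀]; exact mem_union_left _ f1) f2 (by rw [hX₀]; exact mem_union_left _ f4) f5 f6 f7
    (by rw [← hF1]; exact f8) (by rw [← hF1]; exact f9) f10 f11 f12 f13 f14 (by rw [← hF1]; exact f15)
    (by rw [← hF1]; exact f16) f17 f18 f19 f20 (by rw [← hF2]; exact hZF) hZU g1 g2 g3 g4 hE hSP hExc
    (by rw [hP₁, hQd]) hsig' (hstate _ sig' (by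
      intro x hx
      rw [mem_sdiff] at hx
      rw [mem_sdiff, mem_sdiff, mem_union, not_or]
      refine ⟨⟨hX₁₀ (hP₂X (hExP hx.1)), hx.2, ?_⟩, ?_⟩
      · intro h
        have h1 := hSP h
        rw [mem_sdiff, mem_union, not_or] at h1
        exact h1.2.2 hx.1
      · intro h
        rw [mem_sdiff, mem_union, mem_union] at h
        exact h.2 (Or.inl (Or.inr hx.1))) disjoint_sdiff) (by
      rw [e1]
      exact hsz.le) (by
      rcases e2 with h | h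
      · rw [h]; simp
      · rw [h]; exact hrest) (by rw [hSAgc, hQd])
  rw [e1] at hfin
  exact hfin

end AET
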