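import Pool.Agent.AET.SplitML
import Pool.Agent.AET.ClusterL
import Pool.Agent.AEG.ClLinM

/-!
# Light branches: the regime `ClLin` of the driver
-/

set_option autoImplicit false

namespace AET

open Finset AE15 AED AEB SPD AEG
open scoped Classical

/-- **`ClLin` for all `KB` with `D₀` large** -/
theorem clLinL (p : NP) (hp : p.OK) (hab : ab p.b p.l ≤ p.a) (hB2 : (2 * p.b) ^ p.A0 ≤ p.B) (B N : ℕ) (hN : 1 ≤ N) {ζ δ : ℝ} (hζ : 0 < ζ) (hδ : 0 < δ) :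
    ∃ D₁ : ℕ, ∀ D₀ : ℕ, D₁ ≤ D₀ → ∀ {ω c η η₁ κ₀ κ₁ κ γ₀ τ s σ₂ μ : ℝ}, KB D₀ ω c η η₁ κ₀ κ₁ κ γ₀ τ s σ₂ μ →
      ∃ Kl g : ℕ, ClLinL p.b p.l Kl g B N ζ δ κ η s := by
  obtain ⟨D₁, hD₁, hω⟩ := exists_D_of p (mul_pos hδ hζ)
  refine ⟨D₁, fun D₀ hD ω c η η₁ κ₀ κ₁ κ γ₀ τ s σ₂ μ P => ?_⟩
  obtain ⟨Kl, g, cc, K₁, h⟩ := cluster_linL p hp hab hB2 (hD₁.trans hD) P (mul_pos hδ hζ) (hω D₀ hD ω P.hω) N B hN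
  refine ⟨Kl, g, cc, K₁, fun lam₁ hlam₁ => ?_⟩
  obtain ⟨w', h⟩ := h lam₁ hlam₁
  refine ⟨w', fun K w => ?_⟩
  obtain ⟨B₂, h⟩ := h K w
  refine ⟨B₂, fun B₂' hB => ⟨cc, fun sig hsig => ?_⟩⟩
  obtain ⟨C₀, h⟩ := h sig hsig
  refine ⟨C₀, fun C hC lam hlam => ?_⟩
  intro T R l₁ l₂ t₁ t₂ gr rest Pp Y V hI s1 s2 s3 s4 hgr hgrN hrest hB₂ h1 h2
  obtain ⟨L', hL', hN'⟩ := h hI.tour hlam hI.st hI.low l₁ l₂ t₁ t₂ gr rest hI.cl s1 s2 s3 s4 hgr hgrN (by omega) hrest C hC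
    hI.card (by
      have h3 : δ * (ζ * (Y ∪ V).card) ≤ δ * (outS gr + szS rest + C : ℕ) := mul_le_mul_of_nonneg_left h1 hδ.le
      rw [← mul_assoc] at h3
      exact h3.trans h2) sig le_rfl
  rcases hL' with rfl | rfl
  · exact Or.inl hN'
  · exact Or.inr hN'

end AET
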