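import Pool.Agent.AET.P2PartL
import Pool.Agent.AEG.P2Part2

/-!
# Light branches: the side of the structure, two sets of constants
-/

set_option autoImplicit false

namespace AET

open Finset AE15 AED AEB SPD AEG
open scoped Classical

/-- **The part of a cluster round on the side of the structure `Y`**, with separate constants `P'` for the hosts and
their forests, `P` for the state -/
theorem p2_part2L (p : NP) (hp : p.OK) (hab : ab p.b p.l ≤ p.a) (hB2 : (2 * p.b) ^ p.A0 ≤ p.B) {D₀ : ℕ} (hD₀ : p.A ≤ D₀)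
    {ω' c' η' η₁' κ₀' κ₁' κ' γ₀' τ' s' σ₂' μ' : ℝ} (P' : KB D₀ ω' c' η' η₁' κ₀' κ₁' κ' γ₀' τ' s' σ₂' μ') {D₁ : ℕ}
    (hD : D₀ ≤ D₁) {ω c η η₁ κ₀ κ₁ κ γ₀ τ s σ₂ μ : ℝ} (P : KB D₁ ω c η η₁ κ₀ κ₁ κ γ₀ τ s σ₂ μ) {κU : ℝ} (hU0 : 0 < κU)
    (hUκ : κU ≤ κ')
    (N : ℕ) :
    ∃ Kl g w₀ : ℕ, ∀ J : ℕ, ∃ h₀ K₁ : ℕ, ∀ lam : ℕ, ∃ c₂ : ℕ, lam ≤ c₂ ∧ ∀ f : ℕ, ∃ C : ℕ,
      ∀ {T : Type} {R : T → T → Prop}, AE32.Tour R →
      ∀ {U Y Bz Ex : Finset T}, C ≤ Y.card → Y ⊆ U → κU * U.card ≤ κ' * Y.card → Bz.card ≤ f →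
      Ex = Bz ∪ low R c₂ Y →
      ∃ z ∈ Y, z ∉ Ex ∧ γ₀ / 4 * Y.card ≤ ((nO R Y z).card : ℝ) ∧
        ∃ H : Finset T, H ⊆ Y ∧ H.card ≤ h₀ ∧ Disjoint H Ex ∧ (∀ v ∈ H, R z v) ∧
        ∀ (os : List (T × Fd)) (F₀ : Finset T), os.length ≤ N →
          (∀ q ∈ os, q.1 ∈ U ∧ GdU R κU η' U Y q.1 ∧ FON p.b p.l Kl g q.2 ∧ ∀ t ∈ q.2.trees, t.1 = true) →
          F₀.card ≤ f → ∃ (Z : Finset T) (L : List (T × Fd)), PEsB R os Z L ∧ Z ⊆ U ∧ Disjoint Z F₀ ∧ Z.card ≤ w₀ ∧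
            ∀ W : Finset T, Z ⊆ W → z ∈ W → (∀ q ∈ os, q.1 ∈ W) → Disjoint W H → (W ∩ Y).card ≤ w₀ + J →
              (totB os : ℝ) + C ≤ (1 - ω') * Y.card →
              ∃ S : Finset T, EmbAllB R os (Z ∪ S) ∧ S ⊆ Y \ (W ∪ H ∪ Ex) ∧
                ∀ (V' : Finset T) (sig : ℕ), Ex \ W ⊆ V' → Disjoint (Y \ (W ∪ Ex ∪ S)) V' →
                  StM R (Y \ (W ∪ Ex ∪ S)) V' (R z) κ η s lam sig K₁ := by
  obtain ⟨hω0, hω1, hc0, hc1, hη0, hη1, hη₁0, hη₁1, hκ₀0, hκ₁0, hκ₁1, hκ0, hκ1, hs0, hγ₀0, hτ0, hσ₂0, hμ0, hκ₁η, hκs⟩ :=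
    P.num
  obtain ⟨hω0', hω1', hc0', hc1', hη0', hη1', hη₁0', hη₁1', hκ₀0', hκ₁0', hκ₁1', hκ0', hκ1', hs0', hγ₀0', hτ0', hσ₂0',
    hμ0', hκ₁η', hκs'⟩ := P'.num
  have hcc : c ≤ c' := by
    have h1 := P.hc
    have h2 := P'.hc
    have h3 := P.hω
    have h4 := P'.hω
    have h5 : (D₀ : ℝ) ≤ D₁ := by exact_mod_cast hD
    have h6 : (64 : ℝ) ≤ D₀ := by exact_mod_cast P'.hD
    have h7 : (1 : ℝ) / (2 * D₁) ≤ 1 / (2 * D₀) := one_div_le_one_div_of_le (by linarith) (by linarith)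
    rw [h1, h2, h3, h4]
    linarith
  obtain ⟨ε, hεd⟩ : ∃ ε : ℝ, ε = min (c * σ₂ / 8) (min (σ₂' / 8) η₁') := ⟨_, rfl⟩
  have hε : 0 < ε := by rw [hεd]; exact lt_min (by positivity) (lt_min (by positivity) hη₁0')
  have hε1 : ε ≤ c * σ₂ / 8 := by rw [hεd]; exact min_le_left _ _
  have hε2 : ε ≤ σ₂' / 8 := by rw [hεd]; exact (min_le_right _ _).trans (min_le_left _ _)
  have hε3 : ε ≤ η₁' := by rw [hεd]; exact (min_le_right _ _).trans (min_le_right _ _)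
  obtain ⟨Kl, g, w₀, hL⟩ := lightsG2L p hp hab hB2 hD₀ P' hU0 hUκ hε (by linarith) hε3 N
  refine ⟨Kl, g, w₀, fun J => ?_⟩
  obtain ⟨h₀, Kg, hS⟩ := state_z P hε (by linarith) (w₀ + J)
  obtain ⟨C₁, M₉, c₉, hM₉, hL⟩ := hL Kg
  obtain ⟨K₁, hS⟩ := hS M₉ hM₉
  refine ⟨h₀, K₁, fun lam => ?_⟩
  obtain ⟨c₂, hlc, hS⟩ := hS c₉ lam
  refine ⟨c₂, hlc, fun f => ?_⟩
  obtain ⟨n₀, hS⟩ := hS f
  obtain ⟨n₂, hn₂⟩ := exists_big [((f : ℝ), κU ^ 2 / 128), ((w₀ : ℝ) + J + h₀ + f + 2 * c₂, μ')] (by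
    intro q hq
    simp only [List.mem_cons, List.not_mem_nil, or_false] at hq
    rcases hq with rfl | rfl
    · show 0 < κU ^ 2 / 128
      positivity
    · exact hμ0')
  refine ⟨C₁ + n₀ + n₂, ?_⟩
  intro T R hT U Y Bz Ex hC hYU hUY hBz hEx
  obtain ⟨z, hzY, hzE, hzO, 𝓕x, H, h𝓕, hHY, hHc, hHE, hzH, hS⟩ := hS hT (Y := Y) (Bz := Bz) (Ex := Ex) (by omega) hBz hEx
  have hbig := hn₂ Y.card (by omega)
  have b1 : (f : ℝ) ≤ κU ^ 2 / 128 * Y.card := hbig ((f : ℝ), κU ^ 2 / 128) (by simp)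
  have b2 : (w₀ : ℝ) + J + h₀ + f + 2 * c₂ ≤ μ' * Y.card := hbig ((w₀ : ℝ) + J + h₀ + f + 2 * c₂, μ') (by simp)
  refine ⟨z, hzY, hzE, hzO, H, hHY, hHc, hHE, hzH, ?_⟩
  intro os F₀ hlen hos hF₀
  obtain ⟨Z, L, hPEs, hZU, hZF, hZc, hL⟩ := hL hT (U := U) (Y := Y) (F₀ := F₀) os (by omega) hYU hUY hlen hos (by
    have : (F₀.card : ℝ) ≤ f := by exact_mod_cast hF₀
    linarith)
  refine ⟨Z, L, hPEs, hZU, hZF, hZc, ?_⟩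
  intro W hZW hzW hosW hWH hWc hsz
  obtain ⟨G, D, S₀, I, hD, hDne, hGD, hI, hSI, hS⟩ := hS W hzW hWH hWc
  have hExc : Ex.card ≤ f + 2 * c₂ := by
    rw [hEx]
    refine (card_union_le _ _).trans (Nat.add_le_add hBz ?_)
    exact card_lowin hT Y c₂
  obtain ⟨S, Q, hE, hSA, hQA, hSQ, hQc, hRep, hkD, hkI⟩ := hL (W ∪ H ∪ Ex)
    (hZW.trans (subset_union_left.trans subset_union_left))
    (fun q hq => mem_union_left _ (mem_union_left _ (hosW q hq))) (by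
      have h1 : (W ∪ H ∪ Ex) ∩ Y ⊆ (W ∩ Y) ∪ H ∪ Ex := by
        intro v hv
        rw [mem_inter, mem_union, mem_union] at hv
        rw [mem_union, mem_union, mem_inter]
        tauto
      have h2 := (card_le_card h1).trans (card_union_le _ _)
      have h3 := card_union_le (W ∩ Y) H
      have h4 : ((W ∪ H ∪ Ex) ∩ Y).card ≤ w₀ + J + h₀ + f + 2 * c₂ := by omega
      have h5 : (((W ∪ H ∪ Ex) ∩ Y).card : ℝ) ≤ (w₀ : ℝ) + J + h₀ + f + 2 * c₂ := by exact_mod_cast h4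
      linarith) 𝓕x (by
      refine h𝓕.trans (Nat.mul_le_mul_left _ (Nat.pow_le_pow_right ?_ (by norm_num)))
      exact card_pos.2 ⟨z, hzY⟩) G D hD hDne hGD S₀ I hI hSI (by
      have h6 : ((C₁ + n₀ + n₂ : ℕ) : ℝ) = C₁ + n₀ + n₂ := by push_cast; ring
      rw [h6] at hsz
      have h7 : (0 : ℝ) ≤ n₀ := Nat.cast_nonneg _
      have h8 : (0 : ℝ) ≤ n₂ := Nat.cast_nonneg _
      linarith)
  refine ⟨S, hE, hSA, fun V' sig hV hd => ?_⟩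
  exact (hS S Q hSA hQA hSQ ((mul_le_mul_of_nonneg_right hcc (Nat.cast_nonneg _)).trans hQc) hRep hkD hkI V' sig hV hd).1

end AET
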