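import Pool.Agent.AET.SplitML
import Pool.Agent.AET.PackTwoL
import Pool.Agent.AEG.FinIn

/-!
# Light branches: the final cluster with a small first part
-/

set_option autoImplicit false

namespace AET

open Finset AE15 AED AEB SPD AEG
open scoped Classical

/-- **The final stage, first part small, avoiding a bounded set.** -/
theorem small_coreL (b l N f : ℕ) (hb : 1 ≤ b) (hN : 1 ≤ N) {kap : ℝ} (hkap : 0 < kap) :
    ∃ (kap1 delta s₁ : ℝ) (Kl gd : ℕ), 0 < kap1 ∧ 0 < delta ∧ 0 < s₁ ∧ ∀ p₀ : ℕ, ∃ C : ℕ, ∀ {V : Type} {R : V → V → Prop},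
      AE32.Tour R → ∀ (G rest : List (Fd × Fd)) (q : Fd × Fd) (X : Finset V), (G ++ [q]).length ≤ N →
        (∀ t ∈ G ++ q :: rest, FON b l Kl gd t.1 ∧ FON b l Kl gd t.2 ∧ (∀ r ∈ t.1.trees, r.1 = true) ∧
          ∀ r ∈ t.2.trees, r.1 = true) →
        szS (G ++ q :: rest) + C ≤ X.card → ((inS (G ++ [q]) : ℕ) : ℝ) ≤ kap1 * X.card →
        kap * X.card ≤ (q.2.size : ℝ) → (szS rest : ℝ) ≤ delta * X.card →
        ∃ (y₁ : V) (zs : List (V × (Fd × Fd))) (P₁ : Finset V), zs.map Prod.snd = G ++ [q] ∧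
          y₁ ∈ (zs.map Prod.fst).head? ∧ (zs.map Prod.fst).Nodup ∧ (zs.map Prod.fst).IsChain R ∧
          (∀ r ∈ zs, r.1 ∈ X ∧ r.1 ∉ P₁) ∧ P₁ ⊆ X ∧ p₀ ≤ P₁.card ∧
          s₁ * P₁.card ≤ ((P₁.filter (fun a => R a y₁)).card : ℝ) ∧
          ∀ E : Finset V, E.card ≤ f → (∀ r ∈ zs, r.1 ∉ E) → ∃ S₁ ⊆ X, ∃ S₂ ⊆ X, ∃ T ⊆ X,
            Disjoint S₁ S₂ ∧ Disjoint S₁ T ∧ Disjoint S₂ T ∧ Disjoint S₁ E ∧ Disjoint S₂ E ∧ Disjoint T E ∧
            (∀ r ∈ zs, r.1 ∉ S₁ ∧ r.1 ∉ S₂ ∧ r.1 ∉ T) ∧ EmbAllB (rv R) (zs.map (fun r => (r.1, r.2.1))) S₁ ∧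
            EmbAllB R (zs.map (fun r => (r.1, r.2.2))) S₂ ∧ ∀ y ∈ (zs.map Prod.fst).getLast?, FS.Rst R rest T y := by
  obtain ⟨K, hK⟩ : ∃ K : ℕ, K = ⌈1 / kap⌉₊ + 1 := ⟨_, rfl⟩
  have hK1 : 1 ≤ K := by omega
  obtain ⟨c₀, η, hη0, hη8, h2⟩ := packTwoL b l N K hb hN hK1
  obtain ⟨η₀, hη₀⟩ : ∃ η₀ : ℝ, η₀ = η / 16 := ⟨_, rfl⟩
  obtain ⟨κ₀, hκ₀⟩ : ∃ κ₀ : ℝ, κ₀ = η₀ / 25 := ⟨_, rfl⟩
  have hη₀0 : 0 < η₀ := by rw [hη₀]; positivity
  have hκ₀0 : 0 < κ₀ := by rw [hκ₀]; positivity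
  have hκ₀1 : κ₀ ≤ 1 / 3200 := by rw [hκ₀, hη₀]; linarith
  obtain ⟨lam, hlam⟩ : ∃ lam : ℕ, lam = 2 * c₀ + N + f := ⟨_, rfl⟩
  obtain ⟨e, he⟩ : ∃ e : ℕ, e = 4 * N + 8 * lam + 6 * f := ⟨_, rfl⟩
  have hκ2 : κ₀ ^ 2 / 8 ≤ 1 := by
    have : κ₀ ^ 2 ≤ 1 := pow_le_one₀ hκ₀0.le (by linarith)
    linarith
  obtain ⟨Kl, gd, C₀, δ, hδ, h2⟩ := h2 4 e (κ₀ ^ 2 / 8) (1 / 8) (κ₀ / 2) (η₀ / 16) (by positivity) hκ2 (by norm_num) (by norm_num)
    (by positivity) (by positivity)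
  obtain ⟨σ, hσ⟩ : ∃ σ : ℝ, σ = κ₀ / (64 * (1 + c₀)) := ⟨_, rfl⟩
  have hc0 : (0 : ℝ) ≤ c₀ := Nat.cast_nonneg _
  have hσ0 : 0 < σ := by rw [hσ]; positivity
  have hσ1 : σ * (1 + c₀) = κ₀ / 64 := by
    rw [hσ]
    field_simp
  have hσκ : σ ≤ κ₀ / 64 := by
    have : 0 ≤ σ * c₀ := by positivity
    linarith
  refine ⟨σ, min (δ / 2) (σ / 2), η₀ / 8, Kl, gd, hσ0, lt_min (by positivity) (by positivity), by positivity, fun p₀ => ?_⟩
  obtain ⟨n₁, hn₁⟩ : ∃ n₁ : ℕ, n₁ = ⌈(8 + 4 * N + 4 * f + lam : ℝ) / κ₀⌉₊ + ⌈(f : ℝ) / δ⌉₊ + lam + 4 * N + 2 * f + p₀ :=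
    ⟨_, rfl⟩
  obtain ⟨n₂, hn₂⟩ := exists_big [(((2 * c₀ + 1 : ℕ) : ℝ), σ / 2), ((f : ℝ), δ / 2),
      ((((4 * (C₀ + n₁) + 1 + 8 * lam + 6 * f + f) * (1 + c₀) : ℕ) : ℝ), κ₀ / 16), ((1 : ℝ), κ₀)] (by
    intro q hq
    simp only [List.mem_cons, List.not_mem_nil, or_false] at hq
    rcases hq with rfl | rfl | rfl | rfl
    · show 0 < σ / 2
      positivity
    · show 0 < δ / 2
      positivity
    · show 0 < κ₀ / 16
      positivity
    · exact hκ₀0)
  refine ⟨2 * C₀ + n₁ + n₂ + 1 + f, ?_⟩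
  intro V R hT Gl rest q X hlen hcls hsz hQ hq hrest
  obtain ⟨n, hn⟩ : ∃ n : ℝ, n = (X.card : ℝ) := ⟨_, rfl⟩
  rw [← hn] at hQ hq hrest
  have hn0 : (0 : ℝ) ≤ n := by rw [hn]; exact Nat.cast_nonneg _
  have g := hn₂ X.card (by omega)
  have g1 : ((2 * c₀ + 1 : ℕ) : ℝ) ≤ σ / 2 * n := by rw [hn]; exact g (_, _) (by simp)
  have g4 : (f : ℝ) ≤ δ / 2 * n := by rw [hn]; exact g ((f : ℝ), δ / 2) (by simp)
  have g2 : (((4 * (C₀ + n₁) + 1 + 8 * lam + 6 * f + f) * (1 + c₀) : ℕ) : ℝ) ≤ κ₀ / 16 * n := by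
    rw [hn]; exact g (_, κ₀ / 16) (by simp)
  have g3 : (1 : ℝ) ≤ κ₀ * n := by rw [hn]; exact g (1, κ₀) (by simp)
  have hnpos : 0 < n := by
    by_contra hc
    have : n = 0 := le_antisymm (not_lt.1 hc) hn0
    rw [this] at g3
    norm_num at g3
  have hrest1 : (szS rest : ℝ) ≤ δ / 2 * n := hrest.trans (mul_le_mul_of_nonneg_right (min_le_left _ _) hn0)
  have hrest2 : (szS rest : ℝ) ≤ σ / 2 * n := hrest.trans (mul_le_mul_of_nonneg_right (min_le_right _ _) hn0)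
  obtain ⟨L, hL⟩ : ∃ L : List (Fd × Fd), L = Gl ++ [q] := ⟨_, rfl⟩
  have hLr : Gl ++ q :: rest = L ++ rest := by rw [hL, List.append_assoc]; rfl
  rw [hLr] at hsz hcls
  rw [← hL] at hlen hQ ⊢
  have hqL : q ∈ L := by rw [hL]; simp
  have hLlen : 1 ≤ L.length := by rw [hL, List.length_append]; simp
  obtain ⟨Q, hQd⟩ : ∃ Q : ℕ, Q = inS L := ⟨_, rfl⟩
  rw [← hQd] at hQ
  obtain ⟨p, hp⟩ : ∃ p : ℕ, p = Q + C₀ + n₁ := ⟨_, rfl⟩
  have hg2 : 4 * ((C₀ : ℝ) + n₁) * (1 + c₀) + (1 + 8 * lam + 6 * f + f) * (1 + c₀) ≤ κ₀ / 16 * n := by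
    refine le_trans (le_of_eq ?_) g2
    push_cast
    ring
  have hcn0 : (0 : ℝ) ≤ (C₀ : ℝ) + n₁ := by positivity
  have hlam0 : (0 : ℝ) ≤ lam := Nat.cast_nonneg _
  have hf0 : (0 : ℝ) ≤ f := Nat.cast_nonneg _
  have hpr : (p : ℝ) = Q + C₀ + n₁ := by rw [hp]; push_cast; ring
  have hQ0 : (0 : ℝ) ≤ Q := Nat.cast_nonneg _
  have h4p : 4 * (p : ℝ) * (1 + c₀) ≤ κ₀ / 8 * n - (1 + 8 * lam + 6 * f + f) * (1 + c₀) := by
    have h3 : 4 * (Q : ℝ) * (1 + c₀) ≤ κ₀ / 16 * n := by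
      have h4 : 4 * (Q : ℝ) * (1 + c₀) ≤ 4 * (σ * n) * (1 + c₀) := by
        have h5 : (0 : ℝ) ≤ 4 * (1 + c₀) := by positivity
        have h6 := mul_le_mul_of_nonneg_left hQ h5
        linarith
      have h5 : 4 * (σ * n) * (1 + c₀) = 4 * (σ * (1 + c₀)) * n := by ring
      rw [h5, hσ1] at h4
      linarith
    rw [hpr]
    linarith
  have hcf : (1 + 8 * (lam : ℝ) + 6 * f + f) * 1 ≤ (1 + 8 * lam + 6 * f + f) * (1 + c₀) :=
    mul_le_mul_of_nonneg_left (by linarith) (by positivity)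
  have h4p' : 4 * (p : ℝ) + f ≤ κ₀ / 8 * n := by
    have h3 : (0 : ℝ) ≤ 4 * (p : ℝ) * c₀ := by positivity
    linarith
  -- the cut
  obtain ⟨Bad, hBad⟩ : ∃ Bad : Finset V, Bad = (X.filter (Good R (κ₀ ^ 2 / 4) η₀ X)).filter (fun g =>
    (X.filter (fun v => R v g ∧ Good R (κ₀ ^ 2 / 4) η₀ X v)).card < lam) := ⟨_, rfl⟩
  have hBadc : Bad.card ≤ 2 * lam := by rw [hBad]; exact card_bad hT X _ lam
  have hn1p : n₁ ≤ p := by omega
  have hκp : (8 + 4 * N + 4 * f + lam : ℝ) ≤ κ₀ * p := by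
    have h3 : (8 + 4 * N + 4 * f + lam : ℝ) / κ₀ ≤ p := by
      refine (Nat.le_ceil _).trans ?_
      exact_mod_cast (by omega : ⌈(8 + 4 * N + 4 * f + lam : ℝ) / κ₀⌉₊ ≤ p)
    rw [div_le_iff₀ hκ₀0] at h3
    linarith
  have hN0 : (0 : ℝ) ≤ N := Nat.cast_nonneg _
  obtain ⟨G₁, ys, y, P₁, P₂, U₁, Gc, hgc⟩ := gcutG hT (X := X) (Bd := ∅) (Bad := Bad) (p := p) (q := 2 * p)
    (N := L.length) (e := 0) (b₀ := lam) (κ₀ := κ₀) (η := η₀) hκ₀0 (by rw [hκ₀]; linarith) (by rw [hη₀]; linarith) hLlen (by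
      have h4 : ((L.length * (0 + 1) : ℕ) : ℝ) ≤ N := by
        rw [Nat.zero_add, Nat.mul_one]
        exact_mod_cast hlen
      linarith) (by omega) (by
      rw [← hn]
      push_cast
      have : (0 : ℝ) ≤ p := Nat.cast_nonneg _
      linarith) (by simp) (by linarith) (by
      intro g hg
      rw [hBad, mem_filter] at hg
      exact hg.2)
  have hP₁c : P₁.card = p := hgc.card₁
  have hys : ∀ z ∈ ys, z ∈ X ∧ z ∉ P₁ ∧ z ∉ P₂ := fun z hz =>
    ⟨hgc.hGX (hgc.hys z hz).1, (hgc.hys z hz).2.2.1, (hgc.hys z hz).2.2.2.1⟩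
  have hyy : y ∈ ys := List.mem_of_mem_getLast? hgc.last
  have hU₁c : (U₁.card : ℝ) ≤ 4 * p := by
    have h3 := hgc.hU₁c
    exact_mod_cast (by omega : U₁.card ≤ 4 * p)
  have hpU₁ : p ≤ U₁.card := by
    rw [← hP₁c]
    exact card_le_card hgc.hP₁
  have hP₁X : P₁ ⊆ X := hgc.hP₁.trans (hgc.hU₁.trans hgc.hGX)
  have hP₂X : P₂ ⊆ X := fun w hw => ((hgc.part w).1 hw).1
  -- the list of the hosts
  obtain ⟨zs, hzs⟩ : ∃ zs : List (V × (Fd × Fd)), zs = ys.zip L := ⟨_, rfl⟩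
  have hylen : ys.length = L.length := hgc.len
  have hfst : zs.map Prod.fst = ys := by rw [hzs]; exact List.map_fst_zip hylen.le
  have hsnd : zs.map Prod.snd = L := by rw [hzs]; exact List.map_snd_zip hylen.ge
  have hzslen : zs.length = L.length := by rw [hzs, List.length_zip, hylen, min_self]
  have hmem : ∀ r ∈ zs, r.1 ∈ ys ∧ r.2 ∈ L := by
    intro r hr
    rw [hzs] at hr
    exact List.of_mem_zip hr
  have hmem' : ∀ z ∈ ys, ∃ r ∈ zs, r.1 = z := by
    intro z hz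
    rw [← hfst, List.mem_map] at hz
    exact hz
  obtain ⟨y₁, hy₁⟩ : ∃ y₁, y₁ ∈ ys.head? := by
    rcases ys with _ | ⟨a, ys'⟩
    · simp at hyy
    · exact ⟨a, by simp⟩
  have hy₁y : y₁ ∈ ys := List.mem_of_mem_head? hy₁
  refine ⟨y₁, zs, P₁, hsnd, by rw [hfst]; exact hy₁, by rw [hfst]; exact hgc.nodup, by rw [hfst]; exact hgc.chain,
    fun r hr => ⟨(hys _ (hmem r hr).1).1, (hys _ (hmem r hr).1).2.1⟩, hP₁X, by omega, ?_, ?_⟩
  · refine (hgc.inn y₁ hy₁y).lin.trans (Nat.cast_le.2 (card_le_card ?_))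
    intro w hw
    rw [mem_filter] at hw ⊢
    exact ⟨hw.1, hw.2.1⟩
  intro E hEc hEz
  have hEys : ∀ z ∈ ys, z ∉ E := by
    intro z hz
    obtain ⟨r, hr, rfl⟩ := hmem' z hz
    exact hEz r hr
  have hEcr : (E.card : ℝ) ≤ f := by exact_mod_cast hEc
  -- the reserve
  obtain ⟨j, hj⟩ : ∃ j : ℕ, j = ⌊σ * n⌋₊ := ⟨_, rfl⟩
  have hj1 : (j : ℝ) ≤ σ * n := by rw [hj]; exact Nat.floor_le (by positivity)
  have hj2 : σ * n < j + 1 := by rw [hj]; exact Nat.lt_floor_add_one _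
  have hσn : σ * n ≤ κ₀ / 64 * n := mul_le_mul_of_nonneg_right hσκ hn0
  obtain ⟨Hr, V₂, r1, r1', r2, r2', r3, r4, r5, r6⟩ := hgc.res' hT (F₁ := E) (c₀ := c₀) (j := j) (f := f) hEc
    (disjoint_empty_right _) (by
      rw [← hn]
      push_cast
      have h3 : 0 < κ₀ * n := by positivity
      have h4 : (0 : ℝ) ≤ p := Nat.cast_nonneg _
      linarith) (by
      intro g hg hgB
      by_contra hc
      apply hgB
      rw [hBad, mem_filter, mem_filter]
      exact ⟨⟨hgc.hGX hg, hgc.good g hg⟩, by omega⟩)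
  have hHr : (Hr.card : ℝ) ≤ κ₀ / 4 * n := by
    have h3 : (Hr.card : ℝ) ≤
        (((2 * (2 * p) + 0 + 1 + (6 * (j + f) + 4 * Bad.card + 4 * (L.length * 0))) * (1 + c₀) : ℕ) : ℝ) := by
      exact_mod_cast r5
    have h4 : (Bad.card : ℝ) ≤ 2 * lam := by exact_mod_cast hBadc
    have h5 : (((2 * (2 * p) + 0 + 1 + (6 * (j + f) + 4 * Bad.card + 4 * (L.length * 0))) * (1 + c₀) : ℕ) : ℝ) =
        4 * (p : ℝ) * (1 + c₀) + 6 * (j * (1 + c₀)) + (1 + 4 * Bad.card + 6 * f) * (1 + c₀) := by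
      push_cast
      ring
    have h6 : (j : ℝ) * (1 + c₀) ≤ κ₀ / 64 * n := by
      have := mul_le_mul_of_nonneg_right hj1 (by positivity : (0 : ℝ) ≤ 1 + c₀)
      have h7 : σ * n * (1 + c₀) = σ * (1 + c₀) * n := by ring
      rw [h7, hσ1] at this
      exact this
    have h7 : (1 + 4 * (Bad.card : ℝ) + 6 * f) * (1 + c₀) ≤ (1 + 8 * lam + 6 * f + f) * (1 + c₀) :=
      mul_le_mul_of_nonneg_right (by linarith) (by positivity)
    have h8 : 0 ≤ κ₀ * n := by positivity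
    linarith
  -- the rest of the line
  obtain ⟨T, hTP, hTH, hTU, hTE, hTc, hTR⟩ : ∃ T : Finset V, T ⊆ P₂ ∧ Disjoint T Hr ∧ Disjoint T U₁ ∧ Disjoint T E ∧
      T.card = szS rest ∧ FS.Rst R rest T y := by
    rcases rest with _ | ⟨r, rest'⟩
    · exact ⟨∅, empty_subset _, disjoint_empty_left _, disjoint_empty_left _, disjoint_empty_left _, rfl,
        Or.inl ⟨rfl, rfl⟩⟩
    · obtain ⟨D, hD⟩ : ∃ D : Finset V, D = (P₂.filter (fun w => R y w)) \ (Hr ∪ (U₁ ∪ E)) := ⟨_, rfl⟩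
      have h3 : κ₀ * n ≤ ((P₂.filter (fun w => R y w)).card : ℝ) := by
        rw [hn]
        refine hgc.lin.trans (Nat.cast_le.2 (card_le_card ?_))
        intro w hw
        rw [mem_filter] at hw ⊢
        exact ⟨hw.1, hw.2.1⟩
      have h4 : ((P₂.filter (fun w => R y w)).card : ℝ) ≤ D.card + (Hr.card + (U₁.card + E.card)) := by
        have h5 := le_card_sdiff (Hr ∪ (U₁ ∪ E)) (P₂.filter (fun w => R y w))
        have h6 := card_union_le Hr (U₁ ∪ E)
        have h7 := card_union_le U₁ E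
        rw [← hD] at h5
        exact_mod_cast (by omega : (P₂.filter (fun w => R y w)).card ≤ D.card + (Hr.card + (U₁.card + E.card)))
      have h5 : 4 * ((chF r rest').size + 1) ≤ D.card := by
        rw [chF_size]
        have h6 : 4 * (szS (r :: rest') : ℝ) ≤ D.card := by linarith
        exact_mod_cast h6
      obtain ⟨z, hz, -, S, hS, hzS, hE⟩ := embS_of_in r rest' (tree_four hT (chF r rest') h5)
      have hins : insert z S ⊆ D := insert_subset hz hS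
      rw [hD] at hz
      refine ⟨insert z S, ?_, ?_, ?_, ?_, ?_, Or.inr ⟨r, rest', z, S, rfl, (mem_filter.1 (mem_sdiff.1 hz).1).2, hzS, rfl, hE⟩⟩
      · refine hins.trans ?_
        rw [hD]
        exact sdiff_subset.trans (filter_subset _ _)
      · rw [hD] at hins
        exact disjoint_of_subset_left hins (disjoint_of_subset_right subset_union_left sdiff_disjoint)
      · rw [hD] at hins
        exact disjoint_of_subset_left hins (disjoint_of_subset_right (subset_union_left.trans subset_union_right)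
          sdiff_disjoint)
      · rw [hD] at hins
        exact disjoint_of_subset_left hins (disjoint_of_subset_right (subset_union_right.trans subset_union_right)
          sdiff_disjoint)
      · rw [card_insert_of_notMem hzS, hE.card]
  have hTcr : (T.card : ℝ) = szS rest := by rw [hTc]
  have hTX : T ⊆ X := hTP.trans hP₂X
  obtain ⟨TT, hTT⟩ : ∃ TT : Finset V, TT = E ∪ T := ⟨_, rfl⟩
  have hTTc : TT.card ≤ f + szS rest := by
    rw [hTT, ← hTc]
    exact (card_union_le _ _).trans (Nat.add_le_add_right hEc _)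
  have hTTr : (TT.card : ℝ) ≤ f + szS rest := by exact_mod_cast hTTc
  have hyq : (y, q) ∈ zs := by
    obtain ⟨ys', rfl⟩ : ∃ ys', ys = ys' ++ [y] := List.getLast?_eq_some_iff.1 hgc.last
    have h3 : ys'.length = Gl.length := by
      rw [hL, List.length_append, List.length_append] at hylen
      simpa using hylen
    rw [hzs, hL, List.zip_append h3]
    simp
  have hcls' : ∀ r ∈ zs, FON b l Kl gd r.2.1 ∧ FON b l Kl gd r.2.2 ∧ (∀ t ∈ r.2.1.trees, t.1 = true) ∧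
      ∀ t ∈ r.2.2.trees, t.1 = true := fun r hr => hcls r.2 (List.mem_append_left _ (hmem r hr).2)
  obtain ⟨la, hla⟩ : ∃ la : List (V × Fd), la = zs.map (fun r => (r.1, r.2.1)) := ⟨_, rfl⟩
  obtain ⟨ld, hld⟩ : ∃ ld : List (V × Fd), ld = zs.map (fun r => (r.1, r.2.2)) := ⟨_, rfl⟩
  have hla' : ∀ p ∈ la, p.1 ∈ ys ∧ FON b l Kl gd p.2 ∧ ∀ t ∈ p.2.trees, t.1 = true := by
    intro p hp
    rw [hla, List.mem_map] at hp
    obtain ⟨r, hr, rfl⟩ := hp
    exact ⟨(hmem r hr).1, (hcls' r hr).1, (hcls' r hr).2.2.1⟩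
  have hld' : ∀ p ∈ ld, p.1 ∈ ys ∧ FON b l Kl gd p.2 ∧ (∀ t ∈ p.2.trees, t.1 = true) ∧ p.2.size ≤ FS.ouS L := by
    intro p hp
    rw [hld, List.mem_map] at hp
    obtain ⟨r, hr, rfl⟩ := hp
    refine ⟨(hmem r hr).1, (hcls' r hr).2.1, (hcls' r hr).2.2.2, ?_⟩
    exact List.single_le_sum (by simp) _ (List.mem_map.2 ⟨r.2, (hmem r hr).2, rfl⟩)
  have hlalen : la.length = L.length := by rw [hla, List.length_map, hzslen]
  have hldlen : ld.length = L.length := by rw [hld, List.length_map, hzslen]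
  have htla : totB la = inS L := by
    rw [hla, ← hsnd]
    simp only [totB, inS, List.map_map, Function.comp_def]
  have htld : totB ld = FS.ouS L := by
    rw [hld, ← hsnd]
    simp only [totB, FS.ouS, List.map_map, Function.comp_def]
  obtain ⟨p₁, hp₁, hp₁m⟩ := FS.exists_maxL la (fun p => p.2.size) (by
    intro h
    rw [h] at hlalen
    simp at hlalen
    omega)
  have hyqd : (y, q.2) ∈ ld := by
    rw [hld, List.mem_map]
    exact ⟨(y, q), hyq, rfl⟩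
  have perm₁ : la.Perm (p₁ :: la.erase p₁) := List.perm_cons_erase hp₁
  have perm₂ : ld.Perm ((y, q.2) :: ld.erase (y, q.2)) := List.perm_cons_erase hyqd
  have hlen₁ : (la.erase p₁).length + 1 ≤ N := by
    have := perm₁.length_eq
    rw [List.length_cons] at this
    omega
  have hlen₂ : (ld.erase (y, q.2)).length + 1 ≤ N := by
    have := perm₂.length_eq
    rw [List.length_cons] at this
    omega
  -- sizes
  have hszL : szS (L ++ rest) = inS L + FS.ouS L + L.length + szS rest := by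
    rw [FS.szS_append, FS.szS_split]
  have hXc : X.card ≤ P₁.card + L.length + P₂.card := by
    have h3 : X ⊆ (P₁ ∪ ys.toFinset) ∪ P₂ := by
      intro u hu
      rw [mem_union, mem_union, List.mem_toFinset]
      by_cases h4 : u ∈ P₁
      · exact Or.inl (Or.inl h4)
      · by_cases h5 : u ∈ ys
        · exact Or.inl (Or.inr h5)
        · exact Or.inr ((hgc.part u).2 ⟨hu, h4, h5⟩)
    have h4 := card_le_card h3
    have h5 := card_union_le (P₁ ∪ ys.toFinset) P₂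
    have h6 := card_union_le P₁ ys.toFinset
    have h7 := ys.toFinset_card_le
    omega
  obtain ⟨P, hP⟩ : ∃ P : Finset V, P = P₂ \ TT := ⟨_, rfl⟩
  have hPc : P₂.card ≤ P.card + (f + szS rest) := by
    have := le_card_sdiff TT P₂
    rw [← hP] at this
    omega
  obtain ⟨Y, hY⟩ : ∃ Y : Finset V, Y = X \ (ys.toFinset ∪ TT) := ⟨_, rfl⟩
  have hPY : P ⊆ Y := by
    intro u hu
    rw [hP, mem_sdiff] at hu
    rw [hY, mem_sdiff, mem_union, List.mem_toFinset, not_or]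
    exact ⟨hP₂X hu.1, fun h => (hys u h).2.2 hu.1, hu.2⟩
  have hVY : V₂ ⊆ Y := by
    intro u hu
    have hu1 := r2 hu
    rw [hY, mem_sdiff, mem_union, List.mem_toFinset, not_or, hTT, mem_union, not_or]
    exact ⟨hP₁X hu1, fun h => (hys u h).2.1 hu1, fun h => disjoint_left.1 r2' hu h,
      fun h => disjoint_left.1 hgc.disj hu1 (hTP h)⟩
  have hPn : n ≤ 2 * P.card := by
    have h3 : n ≤ p + N + (P.card + (f + szS rest)) := by
      rw [hn]
      exact_mod_cast (by omega : X.card ≤ p + N + (P.card + (f + szS rest)))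
    have h4 : (N : ℝ) ≤ κ₀ / 16 * n := by
      have h5 : N ≤ (4 * (C₀ + n₁) + 1 + 8 * lam + 6 * f + f) * (1 + c₀) := by
        calc N ≤ 4 * (C₀ + n₁) + 1 + 8 * lam + 6 * f + f := by omega
          _ = (4 * (C₀ + n₁) + 1 + 8 * lam + 6 * f + f) * 1 := (mul_one _).symm
          _ ≤ _ := Nat.mul_le_mul_left _ (by omega)
      have h6 : (N : ℝ) ≤ (((4 * (C₀ + n₁) + 1 + 8 * lam + 6 * f + f) * (1 + c₀) : ℕ) : ℝ) := by exact_mod_cast h5
      linarith
    have h5 : κ₀ * n ≤ 1 / 3200 * n := mul_le_mul_of_nonneg_right hκ₀1 hn0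
    linarith
  have hTj : T.card + 2 * c₀ ≤ j := by
    have h3 : ((T.card + 2 * c₀ : ℕ) : ℝ) < j + 1 := by
      push_cast at g1 ⊢
      rw [hTcr]
      linarith
    have h4 : T.card + 2 * c₀ < j + 1 := by exact_mod_cast h3
    omega
  obtain ⟨s1, s2⟩ := r6 T hTH hTj (κ₀ ^ 2 / 8 * X.card) (η₀ * X.card) (by
    have : (0 : ℝ) ≤ κ₀ ^ 2 * X.card := by positivity
    linarith) le_rfl P (by rw [hP, hTT])
  have hreaX : ∀ z ∈ ys, Rea R X P (κ₀ ^ 2 / 8 * X.card) (η₀ * X.card) z := by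
    intro z hz
    refine AECut.rea_mono (AECut.Good.rea (hgc.good z (hgc.hys z hz).1) (hPY.trans ?_) le_rfl) ?_ le_rfl
    · rw [hY]; exact sdiff_subset
    · have : (0 : ℝ) ≤ κ₀ ^ 2 * X.card := by positivity
      linarith
  have hside₂ : PackYL R b l N K e c₀ Kl gd (κ₀ ^ 2 / 8) (1 / 8) (κ₀ / 2) η X Y P y q.2 (ld.erase (y, q.2)) (η₀ * X.card) := by
    refine ⟨hPY, by rw [hY]; exact sdiff_subset, hlen₂, (hld' _ hyqd).2.1, (hld' _ hyqd).2.2.1, ?_, (hys y hyy).1, ?_, ?_,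
      ?_, hreaX y hyy, ?_, ?_, ?_, ?_⟩
    · intro t ht
      obtain ⟨-, h3, h4, h5⟩ := hld' t (List.mem_of_mem_erase ht)
      refine ⟨h3, h4, ?_⟩
      have h6 : (t.2.size : ℝ) ≤ n := by
        rw [hn]
        exact_mod_cast (by omega : t.2.size ≤ X.card)
      have h7 : n ≤ 1 / kap * q.2.size := by
        rw [div_mul_eq_mul_div, one_mul, le_div_iff₀ hkap]
        linarith
      have h8 : 1 / kap * q.2.size ≤ K * (q.2.size + 1) := by
        have h9 : 1 / kap ≤ K := by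
          rw [hK]
          push_cast
          have := Nat.le_ceil (1 / kap)
          linarith
        have h10 : (0 : ℝ) ≤ q.2.size := Nat.cast_nonneg _
        have h11 : (0 : ℝ) ≤ K := Nat.cast_nonneg _
        have h12 := mul_le_mul_of_nonneg_right h9 h10
        linarith
      exact_mod_cast (h6.trans h7).trans h8
    · rw [hY, mem_sdiff, mem_union, List.mem_toFinset]
      exact fun h => h.2 (Or.inl hyy)
    · intro t ht
      obtain ⟨h3, -⟩ := hld' t (List.mem_of_mem_erase ht)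
      refine ⟨(hys _ h3).1, fun h => (hys _ h3).2.2 ?_⟩
      rw [hP, mem_sdiff] at h
      exact h.1
    · rw [← hn]
      linarith
    · refine le_trans ?_ s2
      rw [hTcr, ← hn]
      have h3 : (P.card : ℝ) ≤ n := by
        rw [hn]
        exact_mod_cast card_le_card (hPY.trans (by rw [hY]; exact sdiff_subset))
      have h4 := mul_le_mul_of_nonneg_left h3 (by positivity : (0 : ℝ) ≤ κ₀ / 2)
      have h5 : 0 ≤ κ₀ * n := by positivity
      have h6 : (0 : ℝ) ≤ p := Nat.cast_nonneg _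
      linarith
    · refine le_trans (card_le_card ?_) (s1.trans ?_)
      · intro u hu
        rw [mem_filter] at hu ⊢
        refine ⟨hu.1, hu.2.1, fun hc => hu.2.2 ?_⟩
        obtain ⟨w, h3, h4, h5, h6, h7⟩ := hc
        refine ⟨w, h3, h4, h5, h6, h7.trans (card_le_card ?_)⟩
        intro v hv
        rw [mem_filter, mem_union] at hv
        rw [mem_filter]
        exact ⟨hv.1.elim (fun h => hPY h) (fun h => hVY h), hv.2⟩
      · rw [he]
        omega
    · intro t ht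
      exact hreaX _ (hld' t (List.mem_of_mem_erase ht)).1
    · rw [← hn, hη₀]
      have h3 := mul_le_mul_of_nonneg_left hPn (by positivity : (0 : ℝ) ≤ η / 16)
      have h4 : 0 ≤ η * (P.card : ℝ) := by positivity
      linarith
  have hpP : κ₀ * P₁.card ≤ η₀ / 25 * P₁.card := by rw [hκ₀]
  have hP₁r : (P₁.card : ℝ) = p := by exact_mod_cast hP₁c
  have hside₁' : PackHL (rv R) b l N K 4 (4 * N) Kl gd (κ₀ ^ 2 / 8) (1 / 4) κ₀ (η₀ / 8) (η / 2) U₁ P₁ p₁.1 p₁.2 (la.erase p₁)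
      (2 * η₀ * U₁.card) := by
    obtain ⟨a1, a2, a3⟩ := hla' p₁ hp₁
    have hms := hgc.inn p₁.1 a1
    have hUP : (U₁.card : ℝ) ≤ 4 * P₁.card := by rw [hP₁c]; exact hU₁c
    refine ⟨hgc.hP₁, hlen₁, a2, a3, ?_, (hgc.hys _ a1).2.1, (hys _ a1).2.1, ?_, by linarith, hms.reach, ?_, ?_, ?_, ?_⟩
    · intro t ht
      obtain ⟨-, h3, h4⟩ := hla' t (List.mem_of_mem_erase ht)
      refine ⟨h3, h4, ?_⟩
      have h5 := hp₁m t (List.mem_of_mem_erase ht)
      have h6 : p₁.2.size + 1 ≤ K * (p₁.2.size + 1) := Nat.le_mul_of_pos_left _ hK1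
      omega
    · intro t ht
      have h3 := (hla' t (List.mem_of_mem_erase ht)).1
      exact ⟨(hgc.hys _ h3).2.1, (hys _ h3).2.1⟩
    · refine le_trans (mul_le_mul_of_nonneg_right ?_ (Nat.cast_nonneg _)) hms.lin
      rw [hκ₀]
      linarith
    · intro i hi
      refine (hms.cnt i hi).trans ?_
      omega
    · intro t ht
      exact (hgc.inn _ (hla' t (List.mem_of_mem_erase ht)).1).reach
    · rw [hη₀]
      have h3 := mul_le_mul_of_nonneg_left hUP (by positivity : (0 : ℝ) ≤ 2 * (η / 16))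
      linarith
  have hside₁ : PackHL (rv R) b l N K 4 e Kl gd (κ₀ ^ 2 / 8) (1 / 8) (κ₀ / 2) (η₀ / 16) η U₁ (P₁ \ E) p₁.1 p₁.2 (la.erase p₁)
      (2 * η₀ * U₁.card) := by
    have h3 := hside₁'.sdiff (F₀ := E) (e₀ := f) (η := η) (by positivity) (by linarith) hκ₀0.le (by positivity) hEc
      (by omega) (by rw [hP₁r]; linarith) (by
        rw [hP₁r] at hpP ⊢
        linarith)
    refine ⟨h3.sub, h3.len, h3.fok, h3.flag, h3.osF, h3.yU, h3.yP, h3.osU, ?_, h3.rea, h3.lin, ?_, h3.reaos, h3.ht⟩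
    · refine le_trans (le_of_eq ?_) h3.lin0
      ring
    · intro i hi
      refine (h3.cnt i (hi.trans (le_of_eq (by ring)))).trans ?_
      rw [he]
      omega
  have hTTP₁ : Disjoint TT (P₁ \ E) := by
    rw [hTT, disjoint_union_left]
    exact ⟨disjoint_sdiff, disjoint_of_subset_right sdiff_subset (disjoint_of_subset_left hTP hgc.disj.symm)⟩
  have hTTU : (((TT ∩ U₁).card : ℕ) : ℝ) ≤ δ * U₁.card := by
    have h3 : TT ∩ U₁ ⊆ E := by
      intro u hu
      rw [hTT, mem_inter, mem_union] at hu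
      rcases hu.1 with h4 | h4
      · exact h4
      · exact absurd hu.2 (disjoint_left.1 hTU h4)
    have h4 : (((TT ∩ U₁).card : ℕ) : ℝ) ≤ f := by exact_mod_cast (card_le_card h3).trans hEc
    have h5 : (f : ℝ) / δ ≤ U₁.card := by
      refine (Nat.le_ceil _).trans ?_
      exact_mod_cast (by omega : ⌈(f : ℝ) / δ⌉₊ ≤ U₁.card)
    rw [div_le_iff₀ hδ] at h5
    linarith
  have hP₁E : P₁.card ≤ (P₁ \ E).card + f := by
    have := le_card_sdiff E P₁
    omega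
  obtain ⟨S₁, hS₁X, S₂, hS₂X, d1, d2, d3, d4, d5, e1, e2⟩ := h2 hT X U₁ (P₁ \ E) Y P TT ys.toFinset p₁.1 y p₁.2 q.2
    (la.erase p₁) (ld.erase (y, q.2)) (2 * η₀ * U₁.card) (η₀ * X.card) hside₁ hside₂ (hgc.hU₁.trans hgc.hGX)
    (by rw [hP]; exact disjoint_of_subset_left sdiff_subset (disjoint_of_subset_right sdiff_subset hgc.disj)) hTTP₁ (by
      rw [hY]
      exact disjoint_of_subset_left subset_union_right disjoint_sdiff) hTTU (by rw [← hn]; linarith) (by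
      have := ys.toFinset_card_le
      omega) (List.mem_toFinset.2 (hla' p₁ hp₁).1) (List.mem_toFinset.2 hyy)
    (fun t ht => List.mem_toFinset.2 (hla' t (List.mem_of_mem_erase ht)).1)
    (fun t ht => List.mem_toFinset.2 (hld' t (List.mem_of_mem_erase ht)).1) (by
      rw [disjoint_left]
      intro u hu hu'
      exact (hys u (List.mem_toFinset.1 hu)).2.1 (mem_sdiff.1 hu').1) (by
      rw [hY]
      exact disjoint_of_subset_left subset_union_left disjoint_sdiff) (by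
      have h3 : totB ((p₁.1, p₁.2) :: la.erase p₁) = inS L := by rw [← htla]; exact (FS.totB_perm perm₁).symm
      omega) (by
      have h3 : totB ((y, q.2) :: ld.erase (y, q.2)) = FS.ouS L := by rw [← htld]; exact (FS.totB_perm perm₂).symm
      omega)
  have e1' : EmbAllB (rv R) la S₁ := FS.embAllB_perm perm₁.symm e1
  have e2' : EmbAllB R ld S₂ := FS.embAllB_perm perm₂.symm e2
  rw [hTT, disjoint_union_right] at d4 d5
  rw [hla] at e1'
  rw [hld] at e2'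
  refine ⟨S₁, hS₁X, S₂, hS₂X, T, hTX, d1, d4.2, d5.2, d4.1, d5.1, hTE, ?_, e1', e2', ?_⟩
  · intro r hr
    have h3 := (hmem r hr).1
    exact ⟨fun h => disjoint_left.1 d2 h (List.mem_toFinset.2 h3), fun h => disjoint_left.1 d3 h (List.mem_toFinset.2 h3),
      fun h => (hys _ h3).2.2 (hTP h)⟩
  · intro y' hy'
    rw [hfst, hgc.last, Option.mem_def, Option.some.injEq] at hy'
    rw [← hy']
    exact hTR

/-- **Final cluster, first part small** -/
theorem fin_inL' (b l B N : ℕ) (hb : 1 ≤ b) : ∀ ζ : ℝ, 0 < ζ → ∃ (ζ₁ δ : ℝ) (Kl g : ℕ), 0 < ζ₁ ∧ 0 < δ ∧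
    ∀ κ η s : ℝ, StOk κ η s → FinInL b l Kl g B N ζ ζ₁ δ κ η s := by
  intro ζ hζ
  obtain ⟨kap1, delta, s₁, Kl, gd, hk1, hde, hs₁, hcore⟩ := small_coreL b l (N + 1) (2 + 2 * B) hb (by omega) hζ
  refine ⟨kap1 / 2, delta / 2, Kl, gd, by positivity, by positivity, ?_⟩
  rintro κ η s ⟨hκ, hη, hκη, hs⟩
  refine ⟨0, fun lam _ K w => ⟨0, fun sig _ => ?_⟩⟩
  obtain ⟨c, hc⟩ : ∃ c : ℕ, c = (N + 1) + 2 + B + 2 ^ B := ⟨_, rfl⟩
  obtain ⟨j, hj⟩ : ∃ j : ℕ, j = (N + 1) + 2 * c := ⟨_, rfl⟩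
  obtain ⟨p₀, hp₀⟩ : ∃ p₀ : ℕ, p₀ = ⌈((w + 4 * c + K * j + (N + 1) + 2 : ℕ) : ℝ) / s₁⌉₊ := ⟨_, rfl⟩
  obtain ⟨C₁, hcore⟩ := hcore p₀
  refine ⟨C₁ + 4 * sig + w + 2 * sig + ⌈(c : ℝ) / κ⌉₊, ?_⟩
  intro C hC T R l₁ l₂ q gr rest P Y V hI e1 e2 hlen hQ hq hrest
  have hT := hI.tour
  obtain ⟨X, hX⟩ : ∃ X : Finset T, X = (Y ∪ V) \ low R sig (Y ∪ V) := ⟨_, rfl⟩
  have hXY : X ⊆ Y ∪ V := by rw [hX]; exact sdiff_subset
  have hlow : (low R sig (Y ∪ V)).card ≤ 2 * sig := AECut.card_lowin hT sig (Y ∪ V)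
  have hXc : (Y ∪ V).card ≤ X.card + 2 * sig := by
    have := le_card_sdiff (low R sig (Y ∪ V)) (Y ∪ V)
    rw [← hX] at this
    omega
  have hcard := hI.card
  have hszL : szS (l₁ :: l₂ :: (gr ++ q :: rest)) =
      l₁.1.size + l₁.2.size + 1 + (l₂.1.size + l₂.2.size + 1 + szS (gr ++ q :: rest)) := by
    rw [szS_cons, szS_cons]
  have hX2 : (Y ∪ V).card ≤ 2 * X.card := by omega
  have hX2r : ((Y ∪ V).card : ℝ) ≤ 2 * X.card := by exact_mod_cast hX2
  have hXr : (X.card : ℝ) ≤ (Y ∪ V).card := by exact_mod_cast card_le_card hXY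
  have hYc : (Y ∪ V).card ≤ Y.card + (w + 2 * sig) := by
    have h1 : Y ∪ V ⊆ Y ∪ ((V \ low R sig (Y ∪ V)) ∪ low R sig (Y ∪ V)) := by
      intro u hu
      simp only [mem_union, mem_sdiff] at hu ⊢
      tauto
    have h2 := (card_le_card h1).trans ((card_union_le _ _).trans (Nat.add_le_add_left (card_union_le _ _) _))
    have h3 := hI.low
    omega
  have hκY : (c : ℝ) ≤ κ * Y.card := by
    have h1 : (c : ℝ) / κ ≤ Y.card := by
      refine (Nat.le_ceil _).trans ?_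
      exact_mod_cast (by omega : ⌈(c : ℝ) / κ⌉₊ ≤ Y.card)
    rw [div_le_iff₀ hκ] at h1
    linarith
  obtain ⟨y₁, zs, P₁, z1, z2, z3, z4, z5, z6, z7, z8, z9⟩ := hcore hT gr rest q X (by omega) (by
      intro t ht
      exact hI.cl t (List.mem_cons_of_mem _ (List.mem_cons_of_mem _ ht))) (by omega) (by
      have h1 := mul_le_mul_of_nonneg_left hX2r (by positivity : (0 : ℝ) ≤ kap1 / 2)
      linarith) (le_trans (mul_le_mul_of_nonneg_left hXr hζ.le) hq) (by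
      have h1 := mul_le_mul_of_nonneg_left hX2r (by positivity : (0 : ℝ) ≤ delta / 2)
      linarith)
  have hzlen : zs.length = (gr ++ [q]).length := by rw [← z1, List.length_map]
  obtain ⟨F, hF⟩ : ∃ F : Finset T, F = (zs.map Prod.fst).toFinset := ⟨_, rfl⟩
  have hFm : ∀ r ∈ zs, r.1 ∈ F := by
    intro r hr
    rw [hF, List.mem_toFinset]
    exact List.mem_map_of_mem hr
  have hFc : F.card ≤ N + 1 := by
    rw [hF]
    refine (List.toFinset_card_le _).trans ?_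
    rw [List.length_map]
    omega
  obtain ⟨-, -, c1, c2⟩ := hI.cl l₁ List.mem_cons_self
  obtain ⟨-, -, c3, c4⟩ := hI.cl l₂ (List.mem_cons_of_mem _ List.mem_cons_self)
  obtain ⟨v, a, SA, SD, f1, f2, f3, f4, f5, f6, f7, f8, f9, f10, f11, f12, f13, f14, f15, f16, f17, f18, f19, f20, f21⟩ :=
    front_big hT (P₁ := P₁) (F := F) (s₁ := s₁) (f := N + 1) (B₀ := B) (c := c) (j := j) (y₁ := y₁) (t₁ := l₁) (t₂ := l₂)
      hI.st hκη hI.low (by rw [← hX]; exact z6) z8 hFc c1 c2 e1 c3 c4 e2 (by omega) (by omega) hκY (by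
        have h1 : ((w + 4 * c + K * j + (N + 1) + 2 : ℕ) : ℝ) / s₁ ≤ P₁.card := by
          refine (Nat.le_ceil _).trans ?_
          exact_mod_cast (by omega : ⌈((w + 4 * c + K * j + (N + 1) + 2 : ℕ) : ℝ) / s₁⌉₊ ≤ P₁.card)
        rw [div_le_iff₀ hs₁] at h1
        linarith)
  obtain ⟨E, hE⟩ : ∃ E : Finset T, E = insert v (insert a (SA ∪ SD)) := ⟨_, rfl⟩
  have hvE : v ∈ E := by rw [hE]; exact mem_insert_self _ _
  have haE : a ∈ E := by rw [hE]; exact mem_insert_of_mem (mem_insert_self _ _)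
  have hSAE : SA ⊆ E := by
    rw [hE]
    exact subset_union_left.trans ((subset_insert _ _).trans (subset_insert _ _))
  have hSDE : SD ⊆ E := by
    rw [hE]
    exact subset_union_right.trans ((subset_insert _ _).trans (subset_insert _ _))
  have hEc : E.card ≤ 2 + 2 * B := by
    have h1 := card_insert_le v (insert a (SA ∪ SD))
    have h2 := card_insert_le a (SA ∪ SD)
    have h3 := card_union_le SA SD
    rw [← hE] at h1
    omega
  obtain ⟨S₁, g1, S₂, g2, TT, g3, g4, g5, g6, g7, g8, g9, g10, g11, g12, g13⟩ := z9 E hEc (by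
    intro r hr hrE
    have h1 := hFm r hr
    rw [hE, mem_insert, mem_insert, mem_union] at hrE
    rcases hrE with h | h | h | h
    · exact f8 (h ▸ h1)
    · exact f9 (h ▸ h1)
    · exact disjoint_left.1 f15 h h1
    · exact disjoint_left.1 f16 h h1)
  obtain ⟨z₀, zs', rfl⟩ : ∃ z₀ zs', zs = z₀ :: zs' := by
    rcases zs with _ | ⟨z₀, zs'⟩
    · simp at z2
    · exact ⟨z₀, zs', rfl⟩
  rw [List.map_cons, List.head?_cons, Option.mem_some_iff] at z2
  obtain ⟨S, k1, k2, k3⟩ := FS.chain_glue (R := R) ((a, l₂) :: z₀ :: zs') (v, l₁) (SA ∪ S₁) (SD ∪ S₂) (rest := rest)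
    (T := TT) (by
      rw [List.map_cons, List.map_cons, List.map_cons, List.isChain_cons_cons, List.isChain_cons_cons, ← List.map_cons]
      exact ⟨f5, by rw [z2]; exact f6, z4⟩) (by
      rw [List.map_cons, List.map_cons, List.nodup_cons, List.nodup_cons]
      refine ⟨?_, ?_, z3⟩
      · rw [List.mem_cons, not_or]
        refine ⟨f7, fun h => f8 ?_⟩
        rw [hF, List.mem_toFinset]
        exact h
      · intro h
        apply f9
        rw [hF, List.mem_toFinset]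
        exact h) (by
      have h1 := embAllB_append.2 ⟨SA, S₁, (g7.mono_right hSAE).symm, rfl, f10, g11⟩
      exact h1) (by
      have h1 := embAllB_append.2 ⟨SD, S₂, (g8.mono_right hSDE).symm, rfl, f11, g12⟩
      exact h1) (by
      rw [disjoint_union_left, disjoint_union_right, disjoint_union_right]
      exact ⟨⟨f14, (g8.mono_right hSAE).symm⟩, g7.mono_right hSDE, g4⟩) (by
      intro r hr
      rw [List.mem_cons, List.mem_cons] at hr
      rcases hr with rfl | rfl | hr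
      · refine ⟨?_, ?_, fun h => disjoint_left.1 g9 h hvE⟩
        · rw [mem_union, not_or]
          exact ⟨f17, fun h => disjoint_left.1 g7 h hvE⟩
        · rw [mem_union, not_or]
          exact ⟨f18, fun h => disjoint_left.1 g8 h hvE⟩
      · refine ⟨?_, ?_, fun h => disjoint_left.1 g9 h haE⟩
        · rw [mem_union, not_or]
          exact ⟨f19, fun h => disjoint_left.1 g7 h haE⟩
        · rw [mem_union, not_or]
          exact ⟨f20, fun h => disjoint_left.1 g8 h haE⟩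
      · obtain ⟨h1, h2, h3⟩ := g10 r hr
        refine ⟨?_, ?_, h3⟩
        · rw [mem_union, not_or]
          exact ⟨fun h => disjoint_left.1 f15 h (hFm r hr), h1⟩
        · rw [mem_union, not_or]
          exact ⟨fun h => disjoint_left.1 f16 h (hFm r hr), h2⟩) (by
      rw [disjoint_union_left]
      exact ⟨(g9.mono_right hSAE).symm, g5⟩) (by
      rw [disjoint_union_left]
      exact ⟨(g9.mono_right hSDE).symm, g6⟩) (by
      intro y hy
      apply g13 y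
      rw [List.map_cons, List.map_cons, List.map_cons, List.getLast?_cons_cons, List.getLast?_cons_cons] at hy
      rw [List.map_cons]
      exact hy)
  have hL : ((v, l₁) :: (a, l₂) :: z₀ :: zs').map Prod.snd ++ rest = l₁ :: l₂ :: (gr ++ q :: rest) := by
    rw [List.map_cons, List.map_cons, z1]
    simp
  rw [hL] at k1
  refine ⟨v, mem_union_left _ f1, f2, S, k3.trans ?_, k2, k1⟩
  refine union_subset (union_subset (union_subset (union_subset f12 (g1.trans hXY))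
    (union_subset f13 (g2.trans hXY))) ?_) (g3.trans hXY)
  intro u hu
  rw [List.mem_toFinset, List.map_cons, List.mem_cons] at hu
  rcases hu with rfl | hu
  · exact mem_union_left _ f4
  · rw [List.mem_map] at hu
    obtain ⟨r, hr, rfl⟩ := hu
    exact hXY (z5 r hr).1

/-- the same, in the form of the glue -/
theorem fin_inL (b l B N : ℕ) (hb : 1 ≤ b) : ∀ ζ : ℝ, 0 < ζ → ∃ ζ₁ δ : ℝ, 0 < ζ₁ ∧ 0 < δ ∧
    ∀ κ η s : ℝ, StOk κ η s → ∃ Kl g : ℕ, FinInL b l Kl g B N ζ ζ₁ δ κ η s := by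
  intro ζ hζ
  obtain ⟨ζ₁, δ, Kl, g, h1, h2, h3⟩ := fin_inL' b l B N hb ζ hζ
  exact ⟨ζ₁, δ, h1, h2, fun κ η s h => ⟨Kl, g, h3 κ η s h⟩⟩

end AET
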