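import Pool.Agent.AET.PackTL
import Pool.Agent.AET.FinLL
import Pool.Agent.AEG.P2Fin

/-!
# Light branches: the side of the small second part at the end of the line
-/

set_option autoImplicit false

namespace AET

open Finset AE15 AED AEB SPD AEG
open scoped Classical

variable {V : Type} {R : V → V → Prop}

/-- the packing data after a part of the class `Zt` has been removed -/
theorem packH_classL {b l N e₁ Kl g : ℕ} {κc s τ η k t : ℝ} {U P T Zt : Finset V} {x : V × Fd} {L : List (V × Fd)}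
    (hPU : P ⊆ U) (hk : k = κc * U.card) (hs : 0 ≤ s) (hτ : 0 ≤ τ) (hη : 0 ≤ η) (hUP : (U.card : ℝ) ≤ 4 * P.card)
    (hTP : T ⊆ P) (hTZ : T ⊆ Zt) (hT1 : (T.card : ℝ) ≤ 1 / 2 * P.card) (hT2 : (T.card : ℝ) ≤ s / 2 * P.card)
    (hx : MSide R U P k t s τ e₁ x.1) (hos : ∀ p ∈ x :: L, p.1 ∈ U ∧ p.1 ∉ P ∧ Rea R U P k t p.1)
    (hfok : ∀ p ∈ x :: L, FON b l Kl g p.2 ∧ ∀ q ∈ p.2.trees, q.1 = true) (hmax : ∀ p ∈ L, p.2.size ≤ x.2.size)
    (hlen : L.length + 1 ≤ N)
    (hZt : ∀ u ∈ P, R u x.1 → (P.filter (fun w => R x.1 w ∧ R w u ∧ Rea R U P k t w)).card ≤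
      4 * ((P.filter (fun w => R x.1 w ∧ R w u ∧ Rea R U P k t w)) \ Zt).card)
    (ht : 2 * t ≤ η * P.card) :
    PackHL R b l N 1 16 e₁ Kl g κc (1 / 8) (s / 2) (τ / 4) η U (P \ T) x.1 x.2 L t := by
  have hP0 : (0 : ℝ) ≤ P.card := Nat.cast_nonneg _
  have hsub : P \ T ⊆ P := sdiff_subset
  have hc : ((P \ T).card : ℝ) + T.card = P.card := by exact_mod_cast card_sdiff_add_card_eq_card hTP
  have hc' : ((P \ T).card : ℝ) ≤ P.card := by exact_mod_cast card_le_card hsub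
  refine ⟨hsub.trans hPU, hlen, (hfok x List.mem_cons_self).1, (hfok x List.mem_cons_self).2, ?_,
    (hos x List.mem_cons_self).1, fun h => (hos x List.mem_cons_self).2.1 (hsub h), ?_, by linarith, ?_, ?_, ?_, ?_, ?_⟩
  · intro p hp
    have h1 := hfok p (List.mem_cons_of_mem _ hp)
    have h2 := hmax p hp
    exact ⟨h1.1, h1.2, by omega⟩
  · intro p hp
    have h1 := hos p (List.mem_cons_of_mem _ hp)
    exact ⟨h1.1, fun h => h1.2.1 (hsub h)⟩
  · rw [← hk]
    exact rea_sub hx.reach hsub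
  · rw [← hk]
    have h1 := hx.lin
    have h2 : P.filter (fun w => R x.1 w ∧ Rea R U P k t w) ⊆
        ((P \ T).filter (fun w => R x.1 w ∧ Rea R U (P \ T) k t w)) ∪ T := by
      intro w hw
      rw [mem_filter] at hw
      rw [mem_union, mem_filter, mem_sdiff]
      by_cases h5 : w ∈ T
      · exact Or.inr h5
      · exact Or.inl ⟨⟨hw.1, h5⟩, hw.2.1, rea_sub hw.2.2 hsub⟩
    have h3 : ((P.filter (fun w => R x.1 w ∧ Rea R U P k t w)).card : ℝ) ≤
        ((P \ T).filter (fun w => R x.1 w ∧ Rea R U (P \ T) k t w)).card + T.card := by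
      exact_mod_cast (card_le_card h2).trans (card_union_le _ _)
    have h4 : s / 2 * ((P \ T).card : ℝ) ≤ s / 2 * P.card := mul_le_mul_of_nonneg_left hc' (by positivity)
    linarith
  · intro j hj
    rw [← hk]
    have h1 := hx.cnt (4 * j) (by
      push_cast
      have h4 : τ / 4 * ((P \ T).card : ℝ) ≤ τ / 4 * P.card := mul_le_mul_of_nonneg_left hc' (by positivity)
      linarith)
    refine le_trans (card_le_card ?_) (h1.trans (by omega))
    intro u hu
    rw [mem_filter] at hu ⊢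
    have huP : u ∈ P := hsub hu.1
    refine ⟨huP, hu.2.1, ?_⟩
    have h2 := hZt u huP hu.2.1
    have h3 : ((P.filter (fun w => R x.1 w ∧ R w u ∧ Rea R U P k t w)) \ Zt).card ≤ j := by
      refine le_trans (card_le_card ?_) hu.2.2
      intro w hw
      rw [mem_sdiff] at hw
      have h4 := mem_filter.1 hw.1
      rw [mem_filter, mem_sdiff]
      exact ⟨⟨h4.1, fun h => hw.2 (hTZ h)⟩, h4.2.1, h4.2.2.1, rea_sub h4.2.2.2 hsub⟩
    omega
  · intro p hp
    rw [← hk]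
    exact rea_sub (hos p (List.mem_cons_of_mem _ hp)).2.2 hsub
  · have h1 : η * (1 / 2 * P.card) ≤ η * (P \ T).card := mul_le_mul_of_nonneg_left (by linarith) hη
    linarith

/-- **The side of the small second part at the end of the line.** -/
theorem p2_finL (b l N : ℕ) (hb : 1 ≤ b) (hN : 1 ≤ N) : ∃ ηF : ℝ, 0 < ηF ∧ ηF ≤ 1 / 8 ∧
    ∀ (κ₀ η₀ : ℝ) (e₁ J₂ : ℕ), 0 < κ₀ → κ₀ ≤ 1 → 0 < η₀ → 16 * η₀ ≤ ηF → ∃ (δ : ℝ) (Kl g f C : ℕ), 0 < δ ∧
    ∀ {V : Type} {R : V → V → Prop}, AE32.Tour R → ∀ {U P : Finset V} {ys : List V} {os : List (V × Fd)}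
      {rest : List (Fd × Fd)} {yl : V}, P ⊆ U → U.card ≤ 4 * P.card → C ≤ P.card →
      (∀ z ∈ ys, z ∈ U ∧ z ∉ P ∧
        MSide R U P (κ₀ ^ 2 / 8 * U.card) (2 * η₀ * U.card) (η₀ / 8) (η₀ / 8) e₁ z) →
      ys.length ≤ N → os ≠ [] → os.length ≤ N →
      (∀ o ∈ os, o.1 ∈ ys ∧ FON b l Kl g o.2 ∧ ∀ t ∈ o.2.trees, t.1 = true) → yl ∈ ys → (szS rest : ℝ) ≤ δ * P.card →
      ∃ E ⊆ U, E.card ≤ f ∧ (∀ z ∈ ys, z ∉ E) ∧ ∀ W : Finset V, (W ∩ P).card ≤ J₂ → Disjoint W E →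
        totB os + szS rest + C ≤ P.card →
        ∃ S T : Finset V, EmbAllB R os S ∧ S ⊆ E ∪ P ∧ Disjoint S W ∧ (∀ z ∈ ys, z ∉ S) ∧ T ⊆ P ∧ Disjoint T W ∧
          Disjoint S T ∧ T.card = szS rest ∧
          ((rest = [] ∧ T = ∅) ∨ ∃ z S', z ∉ S' ∧ T = insert z S' ∧ R yl z ∧ EmbS R rest z S') := by
  obtain ⟨c₀, η, hη0, hη8, hpack⟩ := packTL b l N 1 hb hN le_rfl
  refine ⟨η, hη0, hη8, ?_⟩
  intro κ₀ η₀ e₁ J₂ hκ₀ hκ₀1 hη₀ hηη
  obtain ⟨Kl, g, J, δA, hδA, hpack⟩ := hpack (16 * (2 * c₀) + e₁) (κ₀ ^ 2 / 8) (1 / 8) (η₀ / 8 / 2) (by positivity)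
    (by nlinarith) (by norm_num) (by norm_num) (by positivity)
  obtain ⟨Cp, cH, hpack⟩ := hpack J₂
  obtain ⟨Kc, hKc⟩ : ∃ Kc : ℝ, Kc = 4 + e₁ + 8 / η₀ := ⟨_, rfl⟩
  obtain ⟨cc, hclass⟩ := Pool.Agent.H12AE.exists_class 2 Kc 1 le_rfl
  obtain ⟨n₁, hn₁⟩ := exists_big [(((N : ℕ) : ℝ), δA / 2), (((2 * c₀ : ℕ) : ℝ), η₀ / 64 / 2),
      ((cc : ℝ), η₀ / 16)] (by
    intro q hq
    simp only [List.mem_cons, List.not_mem_nil, or_false] at hq
    rcases hq with rfl | rfl | rfl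
    · show 0 < δA / 2
      positivity
    · show 0 < η₀ / 64 / 2
      positivity
    · show 0 < η₀ / 16
      positivity)
  obtain ⟨δ, hδ⟩ : ∃ δ : ℝ, δ = min (min (1 / 2) (η₀ / 8 / 2)) (min (δA / 2) (η₀ / 64 / (J₂ + 5))) := ⟨_, rfl⟩
  have hδ0 : 0 < δ := by
    rw [hδ]
    exact lt_min (lt_min (by norm_num) (by positivity)) (lt_min (by positivity) (by positivity))
  have hδ1 : δ ≤ 1 / 2 := by rw [hδ]; exact (min_le_left _ _).trans (min_le_left _ _)
  have hδ2 : δ ≤ η₀ / 8 / 2 := by rw [hδ]; exact (min_le_left _ _).trans (min_le_right _ _)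
  have hδ3 : δ ≤ δA / 2 := by rw [hδ]; exact (min_le_right _ _).trans (min_le_left _ _)
  have hδ4 : δ ≤ η₀ / 64 / (J₂ + 5) := by rw [hδ]; exact (min_le_right _ _).trans (min_le_right _ _)
  have hJ0 : (0 : ℝ) ≤ J₂ := Nat.cast_nonneg _
  have hδ4' : (J₂ + 5) * δ ≤ η₀ / 64 := by
    rw [le_div_iff₀ (by positivity)] at hδ4
    linarith
  refine ⟨δ, Kl, g, (J₂ + 1) * (J + cH), 2 * Cp + n₁, hδ0, ?_⟩
  intro V R hT U P ys os rest yl hPU hUP hCP hys hysN hosne hosN hos hyl hrest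
  obtain ⟨n, hn⟩ : ∃ n : ℝ, n = (P.card : ℝ) := ⟨_, rfl⟩
  have hn0 : 0 ≤ n := by rw [hn]; exact Nat.cast_nonneg _
  rw [← hn] at hrest
  have hUPr : (U.card : ℝ) ≤ 4 * P.card := by exact_mod_cast hUP
  have hPUr : (P.card : ℝ) ≤ U.card := by exact_mod_cast card_le_card hPU
  have hPn := hn₁ P.card (by omega)
  rw [← hn] at hPn
  have g1 : ((N : ℕ) : ℝ) ≤ δA / 2 * n := hPn (_, _) (by simp)
  have g2 : ((2 * c₀ : ℕ) : ℝ) ≤ η₀ / 64 / 2 * n := hPn (((2 * c₀ : ℕ) : ℝ), η₀ / 64 / 2) (by simp)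
  have g3 : (cc : ℝ) ≤ η₀ / 16 * n := hPn ((cc : ℝ), η₀ / 16) (by simp)
  obtain ⟨x, L, hL, hmax⟩ := exists_largest hosne
  have hmem : ∀ p ∈ x :: L, p.1 ∈ ys ∧ FON b l Kl g p.2 ∧ ∀ t ∈ p.2.trees, t.1 = true := fun p hp =>
    hos p (hL.symm.subset hp)
  have hx := hmem x List.mem_cons_self
  have hlenL : L.length + 1 ≤ N := by
    have := hL.length_eq
    rw [List.length_cons] at this
    omega
  have htotL : totB (x :: L) = totB os := (fl_totB_perm hL).symm
  obtain ⟨k, hk⟩ : ∃ k : ℝ, k = κ₀ ^ 2 / 8 * U.card := ⟨_, rfl⟩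
  obtain ⟨t, ht⟩ : ∃ t : ℝ, t = 2 * η₀ * U.card := ⟨_, rfl⟩
  rw [← hk, ← ht] at hys
  have hMx := (hys x.1 hx.1).2.2
  obtain ⟨D, hDd⟩ : ∃ D : V → Finset V, D = fun u => P.filter (fun w => R x.1 w ∧ R w u ∧ Rea R U P k t w) :=
    ⟨_, rfl⟩
  have he0 : (0 : ℝ) ≤ e₁ := Nat.cast_nonneg _
  have h8η : (0 : ℝ) ≤ 8 / η₀ := by positivity
  obtain ⟨Zt, hZt, -, -, hZD, hZE, -⟩ := hclass P (P.filter (fun u => R u x.1)) D (by
      intro u _
      rw [hDd]
      exact filter_subset _ _) (by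
      intro j
      have hsub : (P.filter (fun u => R u x.1)).filter (fun u => (D u).card = j) ⊆
          P.filter (fun u => R u x.1 ∧ (P.filter (fun w => R x.1 w ∧ R w u ∧ Rea R U P k t w)).card ≤ j) := by
        intro u hu
        rw [mem_filter, mem_filter] at hu
        rw [mem_filter]
        refine ⟨hu.1.1, hu.1.2, ?_⟩
        have := hu.2
        rw [hDd] at this
        exact this.le
      have hj0 : (0 : ℝ) ≤ j := Nat.cast_nonneg _
      rcases le_or_gt (j : ℝ) (η₀ / 8 * P.card) with h | h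
      · have h1 : (((P.filter (fun u => R u x.1)).filter (fun u => (D u).card = j)).card : ℝ) ≤ 4 * j + e₁ := by
          exact_mod_cast (card_le_card hsub).trans (hMx.cnt j h)
        have h2 : 4 * (j : ℝ) + e₁ ≤ (4 + e₁) * (j + 1) := by nlinarith
        have h3 : (4 + (e₁ : ℝ)) * (j + 1) ≤ Kc * (j + 1) :=
          mul_le_mul_of_nonneg_right (by rw [hKc]; linarith) (by linarith)
        linarith
      · have h1 : (((P.filter (fun u => R u x.1)).filter (fun u => (D u).card = j)).card : ℝ) ≤ P.card := by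
          exact_mod_cast card_le_card ((filter_subset _ _).trans (filter_subset _ _))
        have h2 : (P.card : ℝ) ≤ 8 / η₀ * j := by
          have h3 : 8 / η₀ * (η₀ / 8 * P.card) = P.card := by
            field_simp
          have h4 := mul_le_mul_of_nonneg_left h.le h8η
          linarith
        have h3 : 8 / η₀ * (j : ℝ) ≤ Kc * (j + 1) := by
          have h4 : 8 / η₀ * (j : ℝ) ≤ 8 / η₀ * (j + 1) := mul_le_mul_of_nonneg_left (by linarith) h8η
          have h5 : 8 / η₀ * ((j : ℝ) + 1) ≤ Kc * (j + 1) :=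
            mul_le_mul_of_nonneg_right (by rw [hKc]; linarith) (by linarith)
          linarith
        linarith) (univ : Finset Unit) (fun _ => nO R P yl) (fun _ _ => nO_sub) (by simp)
  have hZD' : ∀ u ∈ P, R u x.1 → (P.filter (fun w => R x.1 w ∧ R w u ∧ Rea R U P k t w)).card ≤
      4 * ((P.filter (fun w => R x.1 w ∧ R w u ∧ Rea R U P k t w)) \ Zt).card := by
    intro u hu hux
    have := hZD u (mem_filter.2 ⟨hu, hux⟩)
    rw [hDd] at this
    exact this
  -- the copies of the rest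
  have hEc : η₀ / 8 * n ≤ (nO R P yl).card := by
    rw [hn]
    refine (hys yl hyl).2.2.lin.trans ?_
    apply Nat.cast_le.2
    apply card_le_card
    intro w hw
    rw [mem_filter] at hw
    exact mem_nO.2 ⟨hw.1, hw.2.1⟩
  have hEZ : ((nO R P yl).card : ℝ) ≤ 4 * (nO R P yl ∩ Zt).card + cc := by
    have := hZE () (mem_univ _)
    exact_mod_cast this
  obtain ⟨T, hTm, hTd⟩ := exists_copies hT rest (y := yl) (W := nO R P yl ∩ Zt)
    (fun w hw => (mem_nO.1 (mem_inter.1 hw).1).2) (J₂ + 1) (by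
      have h1 : ((J₂ : ℝ) + 5) * szS rest ≤ (nO R P yl ∩ Zt).card := by
        have h2 : ((J₂ : ℝ) + 5) * szS rest ≤ (J₂ + 5) * (δ * n) := mul_le_mul_of_nonneg_left hrest (by linarith)
        have h3 : ((J₂ : ℝ) + 5) * (δ * n) = (J₂ + 5) * δ * n := by ring
        have h4 : ((J₂ : ℝ) + 5) * δ * n ≤ η₀ / 64 * n := mul_le_mul_of_nonneg_right hδ4' hn0
        linarith
      exact_mod_cast h1)
  have hTP : ∀ i < J₂ + 1, T i ⊆ P := fun i hi v hv => (mem_nO.1 (mem_inter.1 ((hTm i hi).1 hv)).1).1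
  have hTZ : ∀ i < J₂ + 1, T i ⊆ Zt := fun i hi v hv => (mem_inter.1 ((hTm i hi).1 hv)).2
  have hδn : ∀ δ' : ℝ, δ ≤ δ' → δ * n ≤ δ' * n := fun δ' h => mul_le_mul_of_nonneg_right h hn0
  have hTc : ∀ i < J₂ + 1, ((T i).card : ℝ) ≤ δ * n := by
    intro i hi
    rw [(hTm i hi).2.1]
    exact hrest
  have hPc : ∀ i < J₂ + 1, (P \ T i).card + szS rest = P.card := by
    intro i hi
    rw [← (hTm i hi).2.1]
    exact card_sdiff_add_card_eq_card (hTP i hi)
  -- the first phase for every copy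
  have hphase : ∀ i : ℕ, ∃ (Z Hm : Finset V) (L' : List (V × Fd)), i < J₂ + 1 → PEsB R (x :: L) Z L' ∧ Z ⊆ U ∧
      Disjoint (Z \ (P \ T i)) (ys.toFinset ∪ T i) ∧ Z.card ≤ J ∧ Hm ⊆ P \ T i ∧ Hm.card ≤ cH ∧ Disjoint Hm Z ∧
      (∀ q ∈ L', q.1 ∈ Z) ∧
        ∀ W : Finset V, Z ⊆ W → (W ∩ (P \ T i)).card ≤ J + J₂ → Disjoint W Hm → AEB.isz L' + Cp ≤ (P \ T i).card →
          ∃ S ⊆ P \ T i, Disjoint S W ∧ AEB.EmbI R L' S := by
    intro i
    by_cases hi : i < J₂ + 1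
    · have hPi := hPc i hi
      have hTi := hTc i hi
      have hhalf : ((T i).card : ℝ) ≤ 1 / 2 * P.card := by
        rw [← hn]
        exact hTi.trans (hδn _ hδ1)
      have hPiR : ((P \ T i).card : ℝ) + (T i).card = n := by
        rw [hn]
        exact_mod_cast card_sdiff_add_card_eq_card (hTP i hi)
      have hH : PackHL R b l N 1 16 e₁ Kl g (κ₀ ^ 2 / 8) (1 / 8) (η₀ / 8 / 2) (η₀ / 8 / 4) η U (P \ T i) x.1 x.2 L t := by
        refine packH_classL hPU hk (by positivity) (by positivity) hη0.le hUPr (hTP i hi) (hTZ i hi) hhalf ?_ hMx ?_ ?_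
          hmax hlenL hZD' ?_
        · rw [← hn]
          exact hTi.trans (hδn _ hδ2)
        · intro p hp
          obtain ⟨h1, h2, h3⟩ := hys p.1 (hmem p hp).1
          exact ⟨h1, h2, h3.reach⟩
        · intro p hp
          exact (hmem p hp).2
        · rw [ht]
          have h1 : 16 * η₀ * P.card ≤ η * P.card := mul_le_mul_of_nonneg_right hηη (Nat.cast_nonneg _)
          have h2 : 4 * η₀ * U.card ≤ 4 * η₀ * (4 * P.card) := mul_le_mul_of_nonneg_left hUPr (by positivity)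
          linarith
      have hY := hH.toY hT (c₀ := c₀) (by
        have h1 : η₀ / 8 / 4 * (1 / 2 * n) ≤ η₀ / 8 / 4 * (P \ T i).card :=
          mul_le_mul_of_nonneg_left (by rw [← hn] at hhalf; linarith) (by positivity)
        linarith)
      obtain ⟨Z, Hm, L', a1, a2, a3, a4, a5, a6, a7, a8, a9⟩ := hpack hT U (P \ T i) (P \ T i) (ys.toFinset ∪ T i) x.1
        x.2 L t hY.subP hY.subY hY.len hY.fok hY.flag hY.osF hY.yU hY.yY
        (mem_union_left _ (List.mem_toFinset.2 hx.1)) (fun p hp => ⟨(hY.osU p hp).1, (hY.osU p hp).2,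
          mem_union_left _ (List.mem_toFinset.2 (hmem p (List.mem_cons_of_mem _ hp)).1)⟩) hY.lin0 hY.rea hY.lin hY.cov
        hY.reaos hY.ht (by
          have h1 : (((ys.toFinset ∪ T i).card : ℕ) : ℝ) ≤ N + (T i).card := by
            exact_mod_cast (card_union_le _ _).trans (Nat.add_le_add_right ((List.toFinset_card_le _).trans hysN) _)
          have h2 : δA * n ≤ δA * U.card := mul_le_mul_of_nonneg_left (by rw [hn]; exact hPUr) hδA.le
          have h3 := hδn _ hδ3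
          linarith) (by
          have h1 : ((Cp : ℕ) : ℝ) ≤ (P \ T i).card := by
            have h2 : (2 * Cp : ℝ) ≤ n := by
              rw [hn]
              exact_mod_cast (by omega : 2 * Cp ≤ P.card)
            rw [← hn] at hhalf
            linarith
          exact_mod_cast h1)
      exact ⟨Z, Hm, L', fun _ => ⟨a1, a2, a3, a4, a5, a6, a7, a8, a9⟩⟩
    · exact ⟨∅, ∅, [], fun h => absurd h hi⟩
  choose Z Hm L' hph using hphase
  obtain ⟨E, hE⟩ : ∃ E, E = (range (J₂ + 1)).biUnion (fun i => Z i ∪ Hm i) := ⟨_, rfl⟩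
  have hZE' : ∀ i < J₂ + 1, Z i ⊆ E := by
    intro i hi v hv
    rw [hE, mem_biUnion]
    exact ⟨i, mem_range.2 hi, mem_union_left _ hv⟩
  have hHE' : ∀ i < J₂ + 1, Hm i ⊆ E := by
    intro i hi v hv
    rw [hE, mem_biUnion]
    exact ⟨i, mem_range.2 hi, mem_union_right _ hv⟩
  have hZy : ∀ i < J₂ + 1, ∀ z ∈ ys, z ∉ Z i := by
    intro i hi z hz hzZ
    have h1 := (hph i hi).2.2.1
    have h2 : z ∉ P := (hys z hz).2.1
    exact disjoint_left.1 h1 (mem_sdiff.2 ⟨hzZ, fun h => h2 (mem_sdiff.1 h).1⟩)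
      (mem_union_left _ (List.mem_toFinset.2 hz))
  refine ⟨E, ?_, ?_, ?_, ?_⟩
  · intro v hv
    rw [hE, mem_biUnion] at hv
    obtain ⟨i, hi, hv⟩ := hv
    have h1 := hph i (mem_range.1 hi)
    rcases mem_union.1 hv with h | h
    · exact h1.2.1 h
    · exact hPU (mem_sdiff.1 (h1.2.2.2.2.1 h)).1
  · rw [hE]
    refine card_biUnion_le.trans ?_
    refine (sum_le_card_nsmul _ _ (J + cH) (fun i hi => ?_)).trans ?_
    · have h1 := hph i (mem_range.1 hi)
      exact (card_union_le _ _).trans (Nat.add_le_add h1.2.2.2.1 h1.2.2.2.2.2.1)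
    · rw [card_range, smul_eq_mul]
  · intro z hz hzE
    rw [hE, mem_biUnion] at hzE
    obtain ⟨i, hi, hv⟩ := hzE
    have h1 := hph i (mem_range.1 hi)
    rcases mem_union.1 hv with h | h
    · exact hZy i (mem_range.1 hi) z hz h
    · exact (hys z hz).2.1 (mem_sdiff.1 (h1.2.2.2.2.1 h)).1
  intro W hWP hWE htot
  obtain ⟨i, hi, hiW⟩ := exists_missed hTP hTd hWP
  obtain ⟨a1, a2, a3, a4, a5, a6, a7, a8, a9⟩ := hph i hi
  have hPi := hPc i hi
  obtain ⟨S, s1, s2, s3⟩ := a9 (W ∪ Z i) subset_union_right (by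
      have h1 : (W ∪ Z i) ∩ (P \ T i) ⊆ (W ∩ P) ∪ Z i := by
        intro v hv
        rw [mem_inter, mem_union, mem_sdiff] at hv
        rw [mem_union, mem_inter]
        tauto
      have h2 := (card_le_card h1).trans (card_union_le _ _)
      omega) (by
      rw [disjoint_union_left]
      exact ⟨hWE.mono_right (hHE' i hi), a7.symm⟩) (by
      have h1 := a1.size
      rw [htotL] at h1
      omega)
  rw [disjoint_union_right] at s2
  have hfull : EmbAllB R (x :: L) (Z i ∪ S) := a1.complete S s2.2.symm s3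
  have hZT : Disjoint (Z i) (T i) := by
    rw [disjoint_left]
    intro v hv hvT
    exact disjoint_left.1 a3 (mem_sdiff.2 ⟨hv, fun h => (mem_sdiff.1 h).2 hvT⟩) (mem_union_right _ hvT)
  refine ⟨Z i ∪ S, T i, EmbAllB.perm hL.symm hfull, ?_, ?_, ?_, hTP i hi, hiW, ?_, (hTm i hi).2.1, (hTm i hi).2.2⟩
  · exact union_subset_union (hZE' i hi) (s1.trans sdiff_subset)
  · rw [disjoint_union_left]
    exact ⟨(hWE.mono_right (hZE' i hi)).symm, s2.1⟩
  · intro z hz hzS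
    rcases mem_union.1 hzS with h | h
    · exact hZy i hi z hz h
    · exact (hys z hz).2.1 (mem_sdiff.1 (s1 h)).1
  · rw [disjoint_union_left]
    exact ⟨hZT, disjoint_of_subset_left s1 sdiff_disjoint⟩

end AET
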