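import Pool.Agent.AET.DriverML
import Pool.Agent.AEG.SplitM

/-!
# Light branches: the regimes of the cluster rounds of M2
-/

set_option autoImplicit false

namespace AET

open Finset AE15 AED AEB SPD AEG
open scoped Classical

/-! ### The regimes -/

/-- **Cluster round, `P₂` linear** (`|P₂| ≥ ζ n`), the part behind the group has at least the share `δ` of `P₂`.
To be proved for all `KB` with `D₀ ≥ D₁(ζ, δ)` -/
def ClLinL (b l Kl g B N : ℕ) (ζ δ κ η s : ℝ) : Prop := ∃ lam₀ K₁ : ℕ, ∀ lam₁, lam₀ ≤ lam₁ → ∃ w₁ : ℕ,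
  ∀ K w : ℕ, ∃ B₂' : ℕ, ∀ B₂, B₂' ≤ B₂ → ∃ sig' : ℕ, ∀ sig, sig' ≤ sig → ∃ C₀ : ℕ, ∀ C, C₀ ≤ C → ∀ lam, lam₀ ≤ lam →
    ∀ {T : Type} {R : T → T → Prop} {l₁ l₂ t₁ t₂ : Fd × Fd} {gr rest : List (Fd × Fd)} {P : T → Prop}
    {Y V : Finset T}, InpL b l Kl g R κ η s lam sig K w C (l₁ :: l₂ :: (gr ++ t₁ :: t₂ :: rest)) P Y V →
    smB B l₁ → smB B l₂ → smB B t₁ → smB B t₂ → gr ≠ [] → gr.length ≤ N → rest ≠ [] → B₂ < inS gr →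
    ζ * (Y ∪ V).card ≤ (outS gr + szS rest + C : ℕ) →
    δ * (outS gr + szS rest + C : ℕ) ≤ (szS rest + C : ℕ) →
    Nxt R κ η s lam₁ sig K₁ w₁ (l₁ :: l₂ :: (gr ++ t₁ :: t₂ :: rest)) P (Y ∪ V) (t₂ :: rest) C ∨
      Nxt R κ η s lam₁ sig K₁ w₁ (l₁ :: l₂ :: (gr ++ t₁ :: t₂ :: rest)) P (Y ∪ V) rest C

/-- **Cluster round, `P₂` small** (`|P₂| ≤ ζ n`); `qa` has the largest in-branches of the group; the out-branches of `pre`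
are embedded in `P₁`; the part behind the group has at least the share `δ` of the rest.
To be proved for all `KB` with `D₀ ≥ D₁`, `ζ = ζ(δ)` and `D₁ = D₁(δ)` being fixed before the `KB` -/
def ClSmL (b l Kl g B N : ℕ) (ζ δ κ η s : ℝ) : Prop := ∃ lam₀ K₁ : ℕ, ∀ lam₁, lam₀ ≤ lam₁ → ∃ w₁ : ℕ,
  ∀ K w : ℕ, ∃ B₂' : ℕ, ∀ B₂, B₂' ≤ B₂ → ∃ sig' : ℕ, ∀ sig, sig' ≤ sig → ∃ C₀ : ℕ, ∀ C, C₀ ≤ C → ∀ lam, lam₀ ≤ lam →
    ∀ {T : Type} {R : T → T → Prop} {l₁ l₂ qa t₁ t₂ : Fd × Fd} {pre post rest : List (Fd × Fd)} {P : T → Prop}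
    {Y V : Finset T}, InpL b l Kl g R κ η s lam sig K w C (l₁ :: l₂ :: (pre ++ qa :: (post ++ t₁ :: t₂ :: rest))) P Y V →
    smB B l₁ → smB B l₂ → smB B t₁ → smB B t₂ → (pre ++ qa :: post).length ≤ N → rest ≠ [] →
    (∀ t ∈ pre ++ post, t.1.size ≤ qa.1.size) → B₂ < inS (pre ++ qa :: post) →
    ((outS (pre ++ qa :: post) + szS rest + C : ℕ) : ℝ) ≤ ζ * (Y ∪ V).card →
    δ * (outS (qa :: post) + szS rest + C : ℕ) ≤ (szS rest + C : ℕ) →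
    Nxt R κ η s lam₁ sig K₁ w₁ (l₁ :: l₂ :: (pre ++ qa :: (post ++ t₁ :: t₂ :: rest))) P (Y ∪ V) (t₂ :: rest) C ∨
      Nxt R κ η s lam₁ sig K₁ w₁ (l₁ :: l₂ :: (pre ++ qa :: (post ++ t₁ :: t₂ :: rest))) P (Y ∪ V) rest C

/-- **Final cluster, both parts linear**, everything behind the group is crude; `δ` is fixed before `κ`, `η`, `s` -/
def FinBothL (b l Kl g B N : ℕ) (ζ δ κ η s : ℝ) : Prop := EvF fun lam K w sig C =>
  ∀ {T : Type} {R : T → T → Prop} {l₁ l₂ : Fd × Fd} {gr rest : List (Fd × Fd)} {P : T → Prop}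
    {Y V : Finset T}, InpL b l Kl g R κ η s lam sig K w C (l₁ :: l₂ :: (gr ++ rest)) P Y V →
    smB B l₁ → smB B l₂ → gr ≠ [] → gr.length ≤ N →
    ζ * (Y ∪ V).card ≤ (inS gr : ℕ) → ζ * (Y ∪ V).card ≤ (outS gr : ℕ) →
    ((szS rest + C : ℕ) : ℝ) ≤ δ * (Y ∪ V).card →
    InS R (l₁ :: l₂ :: (gr ++ rest)) P (Y ∪ V)

/-- **Final cluster, `P₁` small**: the last out-branch of the group is linear, everything behind it is crude; `ζ₁`, `δ` are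
fixed before `κ`, `η`, `s` -/
def FinInL (b l Kl g B N : ℕ) (ζ ζ₁ δ κ η s : ℝ) : Prop := EvF fun lam K w sig C =>
  ∀ {T : Type} {R : T → T → Prop} {l₁ l₂ q : Fd × Fd} {gr rest : List (Fd × Fd)} {P : T → Prop}
    {Y V : Finset T}, InpL b l Kl g R κ η s lam sig K w C (l₁ :: l₂ :: (gr ++ q :: rest)) P Y V →
    smB B l₁ → smB B l₂ → (gr ++ [q]).length ≤ N →
    ((inS (gr ++ [q]) : ℕ) : ℝ) ≤ ζ₁ * (Y ∪ V).card → ζ * (Y ∪ V).card ≤ (q.2.size : ℝ) →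
    (szS rest : ℝ) ≤ δ * (Y ∪ V).card →
    InS R (l₁ :: l₂ :: (gr ++ q :: rest)) P (Y ∪ V)

/-- **Final cluster, `P₂` small**: `qa` has the largest in-branches of the group; the out-branches of `pre` are embedded in
`P₁`, everything behind the group is crude in `P₂`; `ζ`, `δ` are fixed before `κ`, `η`, `s` -/
def FinOutL (b l Kl g B N : ℕ) (ζ δ κ η s : ℝ) : Prop := EvF fun lam K w sig C =>
  ∀ {T : Type} {R : T → T → Prop} {l₁ l₂ qa : Fd × Fd} {pre post rest : List (Fd × Fd)} {P : T → Prop}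
    {Y V : Finset T}, InpL b l Kl g R κ η s lam sig K w C (l₁ :: l₂ :: (pre ++ qa :: (post ++ rest))) P Y V →
    smB B l₁ → smB B l₂ → (pre ++ qa :: post).length ≤ N → (∀ t ∈ pre ++ post, t.1.size ≤ qa.1.size) →
    ((outS (pre ++ qa :: post) + szS rest + C : ℕ) : ℝ) ≤ ζ * (Y ∪ V).card →
    (szS rest : ℝ) ≤ δ * (outS (qa :: post) + szS rest + C : ℕ) →
    InS R (l₁ :: l₂ :: (pre ++ qa :: (post ++ rest))) P (Y ∪ V)

/-! ### Monotonicity in the class -/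

theorem TameRL.monoL {b l Kl g Kl' g' : ℕ} {κ η s : ℝ} (h : TameRL b l Kl g κ η s) (h1 : Kl ≤ Kl') (h2 : g ≤ g') :
    TameRL b l Kl' g' κ η s := by
  obtain ⟨M₁, C₁, K₁, h⟩ := h
  refine ⟨M₁, C₁, K₁, fun K w h' lam lam' sig h3 h4 => ?_⟩
  obtain ⟨C₀, h⟩ := h K w h' lam lam' sig h3 h4
  exact ⟨C₀, fun C hC T R L P Y V hI => h C hC (hI.mono h1 h2)⟩

theorem ClLinL.monoL {b l Kl g Kl' g' B N : ℕ} {ζ δ κ η s : ℝ} (h : ClLinL b l Kl g B N ζ δ κ η s) (h1 : Kl ≤ Kl')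
    (h2 : g ≤ g') : ClLinL b l Kl' g' B N ζ δ κ η s := by
  obtain ⟨lam₀, K₁, h⟩ := h
  refine ⟨lam₀, K₁, fun lam₁ h3 => ?_⟩
  obtain ⟨w₁, h⟩ := h lam₁ h3
  refine ⟨w₁, fun K w => ?_⟩
  obtain ⟨B₂', h⟩ := h K w
  refine ⟨B₂', fun B₂ h4 => ?_⟩
  obtain ⟨sig', h⟩ := h B₂ h4
  refine ⟨sig', fun sig h5 => ?_⟩
  obtain ⟨C₀, h⟩ := h sig h5
  exact ⟨C₀, fun C hC lam hlam T R l₁ l₂ t₁ t₂ gr rest P Y V hI => h C hC lam hlam (hI.mono h1 h2)⟩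

theorem ClSmL.monoL {b l Kl g Kl' g' B N : ℕ} {ζ δ κ η s : ℝ} (h : ClSmL b l Kl g B N ζ δ κ η s) (h1 : Kl ≤ Kl')
    (h2 : g ≤ g') : ClSmL b l Kl' g' B N ζ δ κ η s := by
  obtain ⟨lam₀, K₁, h⟩ := h
  refine ⟨lam₀, K₁, fun lam₁ h3 => ?_⟩
  obtain ⟨w₁, h⟩ := h lam₁ h3
  refine ⟨w₁, fun K w => ?_⟩
  obtain ⟨B₂', h⟩ := h K w
  refine ⟨B₂', fun B₂ h4 => ?_⟩
  obtain ⟨sig', h⟩ := h B₂ h4
  refine ⟨sig', fun sig h5 => ?_⟩
  obtain ⟨C₀, h⟩ := h sig h5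
  exact ⟨C₀, fun C hC lam hlam T R l₁ l₂ qa t₁ t₂ pre post rest P Y V hI => h C hC lam hlam (hI.mono h1 h2)⟩

theorem FinBothL.monoL {b l Kl g Kl' g' B N : ℕ} {ζ δ κ η s : ℝ} (h : FinBothL b l Kl g B N ζ δ κ η s) (h1 : Kl ≤ Kl')
    (h2 : g ≤ g') : FinBothL b l Kl' g' B N ζ δ κ η s := by
  refine EvF.mono h 0 ?_
  intro lam K w sig C _ h T R l₁ l₂ gr rest P Y V hI
  exact h (hI.mono h1 h2)

theorem FinInL.monoL {b l Kl g Kl' g' B N : ℕ} {ζ ζ₁ δ κ η s : ℝ} (h : FinInL b l Kl g B N ζ ζ₁ δ κ η s) (h1 : Kl ≤ Kl')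
    (h2 : g ≤ g') : FinInL b l Kl' g' B N ζ ζ₁ δ κ η s := by
  refine EvF.mono h 0 ?_
  intro lam K w sig C _ h T R l₁ l₂ q gr rest P Y V hI
  exact h (hI.mono h1 h2)

theorem FinOutL.monoL {b l Kl g Kl' g' B N : ℕ} {ζ δ κ η s : ℝ} (h : FinOutL b l Kl g B N ζ δ κ η s) (h1 : Kl ≤ Kl')
    (h2 : g ≤ g') : FinOutL b l Kl' g' B N ζ δ κ η s := by
  refine EvF.mono h 0 ?_
  intro lam K w sig C _ h T R l₁ l₂ qa pre post rest P Y V hI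
  exact h (hI.mono h1 h2)

/-! ### Glue -/

/-- **Final cluster, `P₁` small**: some out-branch of the group is linear; at most `k` vertices of the group behind it -/
def FinIndL (b l Kl g B N k : ℕ) (ζ ζ₁ δ κ η s : ℝ) : Prop := EvF fun lam K w sig C =>
  ∀ {T : Type} {R : T → T → Prop} {l₁ l₂ q : Fd × Fd} {gr gr' rest : List (Fd × Fd)} {P : T → Prop}
    {Y V : Finset T}, InpL b l Kl g R κ η s lam sig K w C (l₁ :: l₂ :: (gr ++ q :: (gr' ++ rest))) P Y V →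
    smB B l₁ → smB B l₂ → gr'.length ≤ k → (gr ++ q :: gr').length ≤ N →
    ((inS (gr ++ q :: gr') : ℕ) : ℝ) ≤ ζ₁ * (Y ∪ V).card → ζ * (Y ∪ V).card ≤ (q.2.size : ℝ) →
    (szS rest : ℝ) ≤ δ * (Y ∪ V).card →
    InS R (l₁ :: l₂ :: (gr ++ q :: (gr' ++ rest))) P (Y ∪ V)

theorem FinIndL.monoL {b l Kl g Kl' g' B N k : ℕ} {ζ ζ₁ δ κ η s : ℝ} (h : FinIndL b l Kl g B N k ζ ζ₁ δ κ η s)
    (h1 : Kl ≤ Kl') (h2 : g ≤ g') : FinIndL b l Kl' g' B N k ζ ζ₁ δ κ η s := by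
  refine EvF.mono h 0 ?_
  intro lam K w sig C _ h T R l₁ l₂ q gr gr' rest P Y V hI
  exact h (hI.mono h1 h2)

/-- the scales -/
theorem finIndL {b l B N : ℕ} (hF : ∀ ζ : ℝ, 0 < ζ → ∃ ζ₁ δ : ℝ, 0 < ζ₁ ∧ 0 < δ ∧ ∀ κ η s : ℝ, StOk κ η s →
    ∃ Kl g : ℕ, FinInL b l Kl g B N ζ ζ₁ δ κ η s) (k : ℕ) : ∀ ζ : ℝ, 0 < ζ → ∃ ζ₁ δ : ℝ, 0 < ζ₁ ∧ 0 < δ ∧
    ∀ κ η s : ℝ, StOk κ η s → ∃ Kl g : ℕ, FinIndL b l Kl g B N k ζ ζ₁ δ κ η s := by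
  induction k with
  | zero =>
    intro ζ hζ
    obtain ⟨ζ₁, δ, h1, h2, h3⟩ := hF ζ hζ
    refine ⟨ζ₁, δ, h1, h2, fun κ η s hκ => ?_⟩
    obtain ⟨Kl, g, h3⟩ := h3 κ η s hκ
    refine ⟨Kl, g, EvF.mono h3 0 ?_⟩
    intro lam K w sig C _ h T R l₁ l₂ q gr gr' rest P Y V hI e1 e2 hk hN hin hq hr
    obtain rfl : gr' = [] := List.eq_nil_of_length_eq_zero (by omega)
    exact h hI e1 e2 hN hin hq hr
  | succ k ih =>
    intro ζ hζ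
    obtain ⟨ζ₁, δ, h1, h2, h3⟩ := hF ζ hζ
    obtain ⟨ε, hε⟩ : ∃ ε : ℝ, ε = δ / (8 * (N + 1)) := ⟨_, rfl⟩
    have hε0 : 0 < ε := by rw [hε]; positivity
    obtain ⟨ζ₂, δ₂, h4, h5, h6⟩ := ih ε hε0
    refine ⟨min (min ζ₁ ζ₂) (δ / 8), min δ₂ (δ / 2), by positivity, by positivity, fun κ η s hκ => ?_⟩
    obtain ⟨Kl₁, g₁, h3⟩ := h3 κ η s hκ
    obtain ⟨Kl₂, g₂, h6⟩ := h6 κ η s hκ
    have h3' := h3.monoL (le_max_left Kl₁ Kl₂) (le_max_left g₁ g₂)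
    have h6' := h6.monoL (le_max_right Kl₁ Kl₂) (le_max_right g₁ g₂)
    refine ⟨max Kl₁ Kl₂, max g₁ g₂, (EvF.and h3' h6').mono (⌈8 * N / δ⌉₊) ?_⟩
    intro lam K w sig C hC h T R l₁ l₂ q gr gr' rest P Y V hI e1 e2 hk hN hin hq hr
    obtain ⟨hA, hB⟩ := h
    have hX0 : (0 : ℝ) ≤ (Y ∪ V).card := Nat.cast_nonneg _
    have hNX : (N : ℝ) ≤ δ / 8 * (Y ∪ V).card := by
      have hc : (⌈8 * N / δ⌉₊ : ℝ) ≤ (Y ∪ V).card := by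
        have := hI.card
        exact_mod_cast (by omega : ⌈8 * N / δ⌉₊ ≤ (Y ∪ V).card)
      have h10 : 8 * (N : ℝ) / δ ≤ (Y ∪ V).card := (Nat.le_ceil _).trans hc
      rw [div_le_iff₀ h2] at h10
      linarith
    have hin' : ((inS (gr ++ q :: gr') : ℕ) : ℝ) ≤ δ / 8 * (Y ∪ V).card :=
      hin.trans (mul_le_mul_of_nonneg_right (min_le_right _ _) hX0)
    by_cases hsm : (szS (gr' ++ rest) : ℝ) ≤ δ * (Y ∪ V).card
    · refine hA hI e1 e2 ?_ ?_ hq hsm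
      · rw [List.length_append, List.length_cons] at hN
        rw [List.length_append, List.length_singleton]
        omega
      · refine le_trans ?_ (hin.trans (mul_le_mul_of_nonneg_right ((min_le_left _ _).trans (min_le_left _ _)) hX0))
        refine Nat.cast_le.2 ?_
        rw [inS_append, inS_append]
        simp only [inS, List.map_cons, List.map_nil, List.sum_cons, List.sum_nil]
        omega
    · push Not at hsm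
      have hlen : gr'.length ≤ N := by
        rw [List.length_append, List.length_cons] at hN
        omega
      have hin2 : (inS gr' : ℝ) ≤ δ / 8 * (Y ∪ V).card := by
        refine le_trans ?_ hin'
        refine Nat.cast_le.2 ?_
        rw [inS_append]
        simp only [inS, List.map_cons, List.sum_cons]
        omega
      have hout : (N : ℝ) * (ε * (Y ∪ V).card) < outS gr' := by
        have h11 : (szS (gr' ++ rest) : ℝ) = inS gr' + outS gr' + gr'.length + szS rest := by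
          rw [szS_append, szS_eq gr']
          push_cast
          ring
        have h12 : (gr'.length : ℝ) ≤ N := by exact_mod_cast hlen
        have h13 : (N : ℝ) * ε ≤ δ / 8 := by
          rw [hε, mul_div_assoc', div_le_div_iff₀ (by positivity) (by norm_num)]
          nlinarith [(Nat.cast_nonneg N : (0 : ℝ) ≤ N)]
        have h14 := mul_le_mul_of_nonneg_right h13 hX0
        have h15 : (szS rest : ℝ) ≤ δ / 2 * (Y ∪ V).card := hr.trans (mul_le_mul_of_nonneg_right (min_le_right _ _) hX0)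
        nlinarith
      obtain ⟨G', q', rest', h15, h16⟩ := exists_big_out (by positivity) hlen hout
      subst h15
      have h17 : gr ++ q :: ((G' ++ q' :: rest') ++ rest) = (gr ++ q :: G') ++ q' :: (rest' ++ rest) := by
        simp
      rw [h17] at hI ⊢
      have h18 : gr ++ q :: (G' ++ q' :: rest') = (gr ++ q :: G') ++ q' :: rest' := by simp
      rw [h18] at hN hin
      refine hB hI e1 e2 ?_ hN (hin.trans (mul_le_mul_of_nonneg_right ((min_le_left _ _).trans (min_le_right _ _)) hX0))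
        h16.le (hr.trans (mul_le_mul_of_nonneg_right (min_le_left _ _) hX0))
      rw [List.length_append, List.length_cons] at hk
      omega

/-- **Final cluster, `P₂` linear** -/
def FinLnL (b l Kl g B N : ℕ) (ζ δ κ η s : ℝ) : Prop := EvF fun lam K w sig C =>
  ∀ {T : Type} {R : T → T → Prop} {l₁ l₂ : Fd × Fd} {gr rest : List (Fd × Fd)} {P : T → Prop}
    {Y V : Finset T}, InpL b l Kl g R κ η s lam sig K w C (l₁ :: l₂ :: (gr ++ rest)) P Y V →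
    smB B l₁ → smB B l₂ → gr ≠ [] → gr.length ≤ N →
    ζ * (Y ∪ V).card ≤ (outS gr + szS rest + C : ℕ) →
    ((szS rest + C : ℕ) : ℝ) ≤ δ * (outS gr + szS rest + C : ℕ) →
    InS R (l₁ :: l₂ :: (gr ++ rest)) P (Y ∪ V)

theorem FinLnL.monoL {b l Kl g Kl' g' B N : ℕ} {ζ δ κ η s : ℝ} (h : FinLnL b l Kl g B N ζ δ κ η s) (h1 : Kl ≤ Kl')
    (h2 : g ≤ g') : FinLnL b l Kl' g' B N ζ δ κ η s := by
  refine EvF.mono h 0 ?_
  intro lam K w sig C _ h T R l₁ l₂ gr rest P Y V hI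
  exact h (hI.mono h1 h2)

/-- **The final cluster round from its two linear regimes** -/
theorem finLn_ofL {b l B N : ℕ}
    (h1 : ∀ ζ : ℝ, 0 < ζ → ∃ δ : ℝ, 0 < δ ∧ ∀ κ η s : ℝ, StOk κ η s → ∃ Kl g : ℕ, FinBothL b l Kl g B N ζ δ κ η s)
    (h2 : ∀ ζ : ℝ, 0 < ζ → ∃ ζ₁ δ : ℝ, 0 < ζ₁ ∧ 0 < δ ∧ ∀ κ η s : ℝ, StOk κ η s →
      ∃ Kl g : ℕ, FinInL b l Kl g B N ζ ζ₁ δ κ η s)
    {ζ₃ : ℝ} (hζ₃ : 0 < ζ₃) :
    ∃ δ : ℝ, 0 < δ ∧ ∀ κ η s : ℝ, StOk κ η s → ∃ Kl g : ℕ, FinLnL b l Kl g B N ζ₃ δ κ η s := by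
  obtain ⟨ζ₂, δ₂, hζ₂, hδ₂, h2⟩ := finIndL h2 N (ζ₃ / (4 * (N + 1))) (by positivity)
  obtain ⟨ζ₁, hζ₁⟩ : ∃ ζ₁, ζ₁ = min ζ₂ (ζ₃ / 2) := ⟨_, rfl⟩
  have hζ₁0 : 0 < ζ₁ := by rw [hζ₁]; positivity
  obtain ⟨δ₁, hδ₁, h1⟩ := h1 ζ₁ hζ₁0
  obtain ⟨δ, hδ⟩ : ∃ δ, δ = min (min δ₁ δ₂) (ζ₃ / 4) := ⟨_, rfl⟩
  have hδ0 : 0 < δ := by rw [hδ]; positivity
  have hd1 : δ ≤ δ₁ := by rw [hδ]; exact (min_le_left _ _).trans (min_le_left _ _)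
  have hd2 : δ ≤ δ₂ := by rw [hδ]; exact (min_le_left _ _).trans (min_le_right _ _)
  have hd4 : δ ≤ ζ₃ / 4 := by rw [hδ]; exact min_le_right _ _
  refine ⟨δ, hδ0, fun κ η s hκ => ?_⟩
  obtain ⟨Kl₁, g₁, h1⟩ := h1 κ η s hκ
  obtain ⟨Kl₂, g₂, h2⟩ := h2 κ η s hκ
  have h1' := h1.monoL (le_max_left Kl₁ Kl₂) (le_max_left g₁ g₂)
  have h2' := h2.monoL (le_max_right Kl₁ Kl₂) (le_max_right g₁ g₂)
  refine ⟨max Kl₁ Kl₂, max g₁ g₂, (EvF.and h1' h2').mono 1 ?_⟩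
  intro lam K w sig C hC1 h T R l₁ l₂ gr rest P Y V hI e1 e2 hne hN hreg hr
  obtain ⟨hA, hB⟩ := h
  have hX0 : (0 : ℝ) ≤ (Y ∪ V).card := Nat.cast_nonneg _
  have hcard : (outS gr + szS rest + C : ℕ) ≤ (Y ∪ V).card := by
    have h5 := hI.card
    rw [szS_cons, szS_cons, szS_append, szS_eq gr] at h5
    omega
  have hcardr : ((outS gr + szS rest + C : ℕ) : ℝ) ≤ (Y ∪ V).card := by exact_mod_cast hcard
  have hr1 : ((szS rest + C : ℕ) : ℝ) ≤ δ * (Y ∪ V).card := hr.trans (mul_le_mul_of_nonneg_left hcardr hδ0.le)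
  have hr2 : δ * ((Y ∪ V).card : ℝ) ≤ ζ₃ / 4 * (Y ∪ V).card := mul_le_mul_of_nonneg_right hd4 hX0
  have hsum : ((outS gr + szS rest + C : ℕ) : ℝ) = outS gr + (szS rest + C : ℕ) := by push_cast; ring
  have hXp : (0 : ℝ) < (Y ∪ V).card := by
    exact_mod_cast (by omega : 0 < (Y ∪ V).card)
  have hpos : (0 : ℝ) < ζ₃ * (Y ∪ V).card := by positivity
  have hout : ζ₃ / 2 * (Y ∪ V).card ≤ (outS gr : ℝ) := by linarith
  by_cases hin : (inS gr : ℝ) ≤ ζ₂ * (Y ∪ V).card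
  · have h6 : (N : ℝ) * (ζ₃ / (4 * (N + 1)) * (Y ∪ V).card) < outS gr := by
      have h13 : (N : ℝ) * (ζ₃ / (4 * (N + 1))) ≤ ζ₃ / 4 := by
        rw [mul_div_assoc', div_le_div_iff₀ (by positivity) (by norm_num)]
        nlinarith [(Nat.cast_nonneg N : (0 : ℝ) ≤ N)]
      have h14 := mul_le_mul_of_nonneg_right h13 hX0
      nlinarith
    obtain ⟨G', q', rest', h15, h16⟩ := exists_big_out (by positivity) hN h6
    subst h15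
    have h17 : (G' ++ q' :: rest') ++ rest = G' ++ q' :: (rest' ++ rest) := by simp
    rw [h17] at hI ⊢
    refine hB hI e1 e2 ?_ hN hin h16.le ?_
    · rw [List.length_append, List.length_cons] at hN
      omega
    · refine le_trans ?_ (hr1.trans (mul_le_mul_of_nonneg_right hd2 hX0))
      exact_mod_cast Nat.le_add_right _ _
  · push Not at hin
    refine hA hI e1 e2 hne hN ?_ ?_ (hr1.trans (mul_le_mul_of_nonneg_right hd1 hX0))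
    · refine le_trans (mul_le_mul_of_nonneg_right ?_ hX0) hin.le
      rw [hζ₁]
      exact min_le_left _ _
    · refine le_trans (mul_le_mul_of_nonneg_right ?_ hX0) hout
      rw [hζ₁]
      exact min_le_right _ _

/-- **The cluster round from its four regimes** -/
theorem roundRL_of {b l Kl g B N : ℕ} {ζ δ δ' κ η s : ℝ} (hδ : 0 < δ) (hδ' : 0 < δ') (hO : FinOutL b l Kl g B N ζ δ κ η s)
    (hS : ClSmL b l Kl g B N ζ (δ / 2) κ η s) (hF : FinLnL b l Kl g B N ζ δ' κ η s) (hL : ClLinL b l Kl g B N (ζ / 2) (δ' / 2) κ η s) :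
    RoundRL b l Kl g B N κ η s := by
  obtain ⟨c₁, hOF⟩ := EvF.and hO hF
  obtain ⟨c₂, K₂, hS⟩ := hS
  obtain ⟨c₃, K₃, hL⟩ := hL
  obtain ⟨lam₀, hlam₀⟩ : ∃ lam₀, lam₀ = max c₁ (max c₂ c₃) := ⟨_, rfl⟩
  have g1 : c₁ ≤ lam₀ := by rw [hlam₀]; exact le_max_left _ _
  have g2 : c₂ ≤ lam₀ := by rw [hlam₀]; exact (le_max_left _ _).trans (le_max_right _ _)
  have g3 : c₃ ≤ lam₀ := by rw [hlam₀]; exact (le_max_right _ _).trans (le_max_right _ _)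
  refine ⟨lam₀, max K₂ K₃, fun lam₁ hlam₁ => ?_⟩
  obtain ⟨w₂, hS⟩ := hS lam₁ (g2.trans hlam₁)
  obtain ⟨w₃, hL⟩ := hL lam₁ (g3.trans hlam₁)
  refine ⟨max w₂ w₃, fun K w => ?_⟩
  obtain ⟨s₁, hOF⟩ := hOF lam₀ g1 K w
  obtain ⟨B₁', hS⟩ := hS K w
  obtain ⟨B₂', hL⟩ := hL K w
  refine ⟨max B₁' B₂', fun B₂ hB₂ => ?_⟩
  obtain ⟨s₂, hS⟩ := hS B₂ ((le_max_left _ _).trans hB₂)
  obtain ⟨s₃, hL⟩ := hL B₂ ((le_max_right _ _).trans hB₂)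
  refine ⟨s₁ + s₂ + s₃, fun sig hsig => ?_⟩
  obtain ⟨C₁, hOF⟩ := hOF sig (by omega)
  obtain ⟨C₂, hS⟩ := hS sig (by omega)
  obtain ⟨C₃, hL⟩ := hL sig (by omega)
  refine ⟨C₁ + C₂ + C₃ + (2 * B + 2), fun C hC lam hlam => ?_⟩
  intro T R l₁ l₂ t₁ t₂ gr rest P Y V hI e1 e2 e3 e4 hne hlen hre hin
  obtain ⟨hO, hF⟩ := hOF C (by omega)
  have hI₀ : InpL b l Kl g R κ η s lam₀ sig K w C (l₁ :: l₂ :: (gr ++ t₁ :: t₂ :: rest)) P Y V :=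
    ⟨hI.tour, hI.cl, hI.st.mono hlam le_rfl le_rfl, hI.low, hI.card⟩
  have h5 : szS (t₁ :: t₂ :: rest) ≤ szS rest + C := by
    rw [szS_cons, szS_cons]
    unfold smB at e3 e4
    omega
  have h5' : szS rest ≤ szS (t₁ :: t₂ :: rest) := by
    rw [szS_cons, szS_cons]
    omega
  by_cases hreg : ((outS gr + szS (t₁ :: t₂ :: rest) + C : ℕ) : ℝ) ≤ ζ * (Y ∪ V).card
  · obtain ⟨pre, qa, post, rfl, hqa⟩ := exists_qa hne
    have e : (pre ++ qa :: post) ++ t₁ :: t₂ :: rest = pre ++ qa :: (post ++ t₁ :: t₂ :: rest) := by simp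
    rw [e] at hI hI₀ ⊢
    by_cases hfin : (szS (t₁ :: t₂ :: rest) : ℝ) ≤ δ * (outS (qa :: post) + szS (t₁ :: t₂ :: rest) + C : ℕ)
    · exact Or.inl (hO hI₀ e1 e2 hlen hqa hreg hfin)
    · refine Or.inr ?_
      rw [not_le] at hfin
      have h7 : ((outS (qa :: post) + szS rest + C : ℕ) : ℝ) ≤ (outS (qa :: post) + szS (t₁ :: t₂ :: rest) + C : ℕ) := by
        exact_mod_cast (by omega : outS (qa :: post) + szS rest + C ≤ outS (qa :: post) + szS (t₁ :: t₂ :: rest) + C)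
      have h8 := mul_le_mul_of_nonneg_left h7 hδ.le
      have h6 : (szS (t₁ :: t₂ :: rest) : ℝ) ≤ 2 * (szS rest + C : ℕ) := by
        exact_mod_cast (by omega : szS (t₁ :: t₂ :: rest) ≤ 2 * (szS rest + C))
      have hreg' : ((outS (pre ++ qa :: post) + szS rest + C : ℕ) : ℝ) ≤ ζ * (Y ∪ V).card := by
        refine le_trans ?_ hreg
        exact_mod_cast (by omega : outS (pre ++ qa :: post) + szS rest + C ≤
          outS (pre ++ qa :: post) + szS (t₁ :: t₂ :: rest) + C)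
      rcases hS C (by omega) lam (g2.trans hlam) hI e1 e2 e3 e4 hlen hre hqa hin hreg' (by linarith) with h | h
      · exact Or.inl (h.mono (le_max_left _ _) (le_max_left _ _))
      · exact Or.inr (h.mono (le_max_left _ _) (le_max_left _ _))
  · rw [not_le] at hreg
    by_cases hfin : ((szS (t₁ :: t₂ :: rest) + C : ℕ) : ℝ) ≤ δ' * (outS gr + szS (t₁ :: t₂ :: rest) + C : ℕ)
    · exact Or.inl (hF hI₀ e1 e2 hne hlen hreg.le hfin)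
    · refine Or.inr ?_
      rw [not_le] at hfin
      have h6 : ((szS (t₁ :: t₂ :: rest) + C : ℕ) : ℝ) ≤ 2 * (szS rest + C : ℕ) := by
        exact_mod_cast (by omega : szS (t₁ :: t₂ :: rest) + C ≤ 2 * (szS rest + C))
      have h7 : ((outS gr + szS rest + C : ℕ) : ℝ) ≤ (outS gr + szS (t₁ :: t₂ :: rest) + C : ℕ) := by
        exact_mod_cast (by omega : outS gr + szS rest + C ≤ outS gr + szS (t₁ :: t₂ :: rest) + C)
      have h8 := mul_le_mul_of_nonneg_left h7 hδ'.le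
      have h9 : ((outS gr + szS (t₁ :: t₂ :: rest) + C : ℕ) : ℝ) ≤ 2 * (outS gr + szS rest + C : ℕ) := by
        exact_mod_cast (by omega : outS gr + szS (t₁ :: t₂ :: rest) + C ≤ 2 * (outS gr + szS rest + C))
      rcases hL C (by omega) lam (g3.trans hlam) hI e1 e2 e3 e4 hne hlen hre hin (by linarith) (by linarith) with h | h
      · exact Or.inl (h.mono (le_max_right _ _) (le_max_right _ _))
      · exact Or.inr (h.mono (le_max_right _ _) (le_max_right _ _))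

theorem FinOutL.mono {b l Kl g B N : ℕ} {ζ ζ' δ κ η s : ℝ} (h : FinOutL b l Kl g B N ζ δ κ η s) (hζ : ζ' ≤ ζ) :
    FinOutL b l Kl g B N ζ' δ κ η s := by
  refine EvF.mono h 0 ?_
  intro lam K w sig C _ h T R l₁ l₂ qa pre post rest P Y V hI e1 e2 hN hqa hreg hr
  exact h hI e1 e2 hN hqa (hreg.trans (mul_le_mul_of_nonneg_right hζ (Nat.cast_nonneg _))) hr

theorem ClSmL.mono {b l Kl g B N : ℕ} {ζ ζ' δ κ η s : ℝ} (h : ClSmL b l Kl g B N ζ δ κ η s) (hζ : ζ' ≤ ζ) :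
    ClSmL b l Kl g B N ζ' δ κ η s := by
  obtain ⟨lam₀, K₁, h⟩ := h
  refine ⟨lam₀, K₁, fun lam₁ h1 => ?_⟩
  obtain ⟨w₁, h⟩ := h lam₁ h1
  refine ⟨w₁, fun K w => ?_⟩
  obtain ⟨B₂', h⟩ := h K w
  refine ⟨B₂', fun B₂ h2 => ?_⟩
  obtain ⟨sig', h⟩ := h B₂ h2
  refine ⟨sig', fun sig h3 => ?_⟩
  obtain ⟨C₀, h⟩ := h sig h3
  refine ⟨C₀, fun C hC lam hlam => ?_⟩
  intro T R l₁ l₂ qa t₁ t₂ pre post rest P Y V hI e1 e2 e3 e4 hN hre hqa hin hreg hr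
  exact h C hC lam hlam hI e1 e2 e3 e4 hN hre hqa hin (hreg.trans (mul_le_mul_of_nonneg_right hζ (Nat.cast_nonneg _))) hr

/-- **The coded statement of M2 with light branches from the rounds** -/
theorem codIIL_of {b l B N : ℕ}
    (hT : ∃ D₁ : ℕ, ∀ D₀, D₁ ≤ D₀ → ∀ ω c η η₁ κ₀ κ₁ κ γ₀ τ s σ₂ μ : ℝ, KB D₀ ω c η η₁ κ₀ κ₁ κ γ₀ τ s σ₂ μ →
      ∃ Kl g : ℕ, TameRL b l Kl g κ η s)
    (hL : ∀ ζ δ : ℝ, 0 < ζ → 0 < δ → ∃ D₁ : ℕ, ∀ D₀, D₁ ≤ D₀ → ∀ ω c η η₁ κ₀ κ₁ κ γ₀ τ s σ₂ μ : ℝ,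
      KB D₀ ω c η η₁ κ₀ κ₁ κ γ₀ τ s σ₂ μ → ∃ Kl g : ℕ, ClLinL b l Kl g B (2 * (N + 6)) ζ δ κ η s)
    (hS : ∀ δ : ℝ, 0 < δ → ∃ ζ : ℝ, 0 < ζ ∧ ∃ D₁ : ℕ, ∀ D₀, D₁ ≤ D₀ → ∀ ω c η η₁ κ₀ κ₁ κ γ₀ τ s σ₂ μ : ℝ,
      KB D₀ ω c η η₁ κ₀ κ₁ κ γ₀ τ s σ₂ μ → ∃ Kl g : ℕ, ClSmL b l Kl g B (2 * (N + 6)) ζ δ κ η s)
    (h1 : ∀ ζ : ℝ, 0 < ζ → ∃ δ : ℝ, 0 < δ ∧ ∀ κ η s : ℝ, StOk κ η s →
      ∃ Kl g : ℕ, FinBothL b l Kl g B (2 * (N + 6)) ζ δ κ η s)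
    (h2 : ∀ ζ : ℝ, 0 < ζ → ∃ ζ₁ δ : ℝ, 0 < ζ₁ ∧ 0 < δ ∧ ∀ κ η s : ℝ, StOk κ η s →
      ∃ Kl g : ℕ, FinInL b l Kl g B (2 * (N + 6)) ζ ζ₁ δ κ η s)
    (h3 : ∃ ζ δ : ℝ, 0 < ζ ∧ 0 < δ ∧ ∀ κ η s : ℝ, StOk κ η s →
      ∃ Kl g : ℕ, FinOutL b l Kl g B (2 * (N + 6)) ζ δ κ η s) :
    ∃ Kl g C : ℕ, CodIIL b l B N Kl g C := by
  obtain ⟨ζ₃, δ₃, hζ₃, hδ₃, h3⟩ := h3
  obtain ⟨ζ₄, hζ₄, D₂, hS⟩ := hS (δ₃ / 2) (by linarith)
  obtain ⟨ζ, hζ⟩ : ∃ ζ, ζ = min ζ₃ ζ₄ := ⟨_, rfl⟩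
  have hζ0 : 0 < ζ := by rw [hζ]; positivity
  obtain ⟨δ, hδ, hF⟩ := finLn_ofL h1 h2 hζ0
  obtain ⟨D₁, hT⟩ := hT
  obtain ⟨D₃, hL⟩ := hL (ζ / 2) (δ / 2) (by linarith) (by linarith)
  obtain ⟨D₀, hD₀⟩ : ∃ D₀, D₀ = D₁ + D₂ + D₃ + 64 := ⟨_, rfl⟩
  obtain ⟨ω, c, η, η₁, κ₀, κ₁, κ, γ₀, τ, s, σ₂, μ, P⟩ := exists_KB (D := D₀) (by omega)
  have hok := KB.stOk P
  obtain ⟨k1, g1, hT⟩ := hT D₀ (by omega) _ _ _ _ _ _ _ _ _ _ _ _ P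
  obtain ⟨k2, g2, h3⟩ := h3 κ η s hok
  obtain ⟨k3, g3, hS⟩ := hS D₀ (by omega) _ _ _ _ _ _ _ _ _ _ _ _ P
  obtain ⟨k4, g4, hF⟩ := hF κ η s hok
  obtain ⟨k5, g5, hL⟩ := hL D₀ (by omega) _ _ _ _ _ _ _ _ _ _ _ _ P
  obtain ⟨Kl, hKl⟩ : ∃ Kl, Kl = k1 + k2 + k3 + k4 + k5 := ⟨_, rfl⟩
  obtain ⟨g, hg⟩ : ∃ g, g = g1 + g2 + g3 + g4 + g5 := ⟨_, rfl⟩
  refine ⟨Kl, g, ?_⟩
  exact driverML P (hT.monoL (by omega) (by omega))
    (roundRL_of hδ₃ hδ ((h3.monoL (by omega) (by omega)).mono (by rw [hζ]; exact min_le_left _ _))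
      ((hS.monoL (by omega) (by omega)).mono (by rw [hζ]; exact min_le_right _ _)) (hF.monoL (by omega) (by omega))
      (hL.monoL (by omega) (by omega)))

end AET
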