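import Pool.Agent.AET.LightCoreL
import Pool.Agent.AEG.Tame
import Pool.Agent.AEG.TameFin

/-!
# Light branches: the tame round
-/

set_option autoImplicit false

namespace AET

open Finset AE15 AED AEB SPD AEG
open scoped Classical

/-! ### Parts of a forest -/

theorem inL_of_trees {l K : ℕ} (F : Fd) : ∀ {S j : ℕ}, (∀ q ∈ F.trees, q.1 = true ∧ InL l K true (q.2.size + 1) 0 q.2) →
    InL l K false S j F := by
  induction F with
  | nil => intro _ _ _; exact trivial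
  | node d c s _ ihs =>
    intro S j h
    have h1 := h (d, c) (by simp [Fd.trees])
    obtain ⟨h2, h3⟩ := h1
    simp only at h2 h3
    subst h2
    refine ⟨?_, ihs fun q hq => h q (by simp [Fd.trees, hq]), by simp⟩
    simp only [if_true]
    exact Or.inr h3

theorem nl_iff {l K g : ℕ} (F : Fd) : NL l K F (g + 1) ↔ ∀ q ∈ F.trees,
    (q.1 = true → InL l K true (q.2.size + 1) 0 q.2) ∧ NL l K q.2 g := by
  induction F with
  | nil => simp [NL, Fd.trees]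
  | node d c s _ ihs =>
    simp only [NL, Fd.trees, List.forall_mem_cons, ihs]
    tauto

theorem exists_first (L : List (Bool × Fd)) : ∃ L' : List (Bool × Fd), L'.Perm L ∧ ∀ q ∈ L'.head?, ∀ q' ∈ L', q'.2.size ≤ q.2.size := by
  cases L with
  | nil => exact ⟨[], List.Perm.refl _, by simp⟩
  | cons x L =>
    obtain ⟨m, hm, hmax⟩ : ∃ m ∈ x :: L, ∀ q ∈ x :: L, q.2.size ≤ m.2.size := by
      induction L with
      | nil => exact ⟨x, by simp, by simp⟩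
      | cons y L ih =>
        obtain ⟨m, hm, hmax⟩ := ih
        by_cases h : y.2.size ≤ m.2.size
        · refine ⟨m, ?_, ?_⟩
          · simp only [List.mem_cons] at hm ⊢
            tauto
          · intro q hq
            simp only [List.mem_cons] at hq hmax
            rcases hq with rfl | rfl | hq
            · exact hmax _ (Or.inl rfl)
            · exact h
            · exact hmax _ (Or.inr hq)
        · refine ⟨y, by simp, ?_⟩
          intro q hq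
          simp only [List.mem_cons] at hq hmax
          rcases hq with rfl | rfl | hq
          · have := hmax _ (Or.inl rfl)
            omega
          · exact le_rfl
          · have := hmax _ (Or.inr hq)
            omega
    obtain ⟨L₁, L₂, hsplit⟩ := List.append_of_mem hm
    refine ⟨m :: (L₁ ++ L₂), ?_, ?_⟩
    · rw [hsplit]
      exact List.perm_middle.symm
    · intro q hq q' hq'
      have h1 : q = m := by simpa using hq.symm
      rw [h1]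
      apply hmax
      rw [hsplit]
      simp only [List.mem_cons, List.mem_append] at hq' ⊢
      tauto

/-- the forest without one of its trees -/
theorem fon_ofT {b l Kl g : ℕ} {F : Fd} {a : Bool × Fd} {L : List (Bool × Fd)} (h : FON b l Kl g F) (hg : 1 ≤ g)
    (hfl : ∀ q ∈ F.trees, q.1 = true) (hp : F.trees.Perm (a :: L)) : ∃ L', L'.Perm L ∧ FON b l Kl g (ofT L') := by
  obtain ⟨L', hL', hmax⟩ := exists_first L
  refine ⟨L', hL', ?_⟩
  obtain ⟨g', rfl⟩ : ∃ g', g = g' + 1 := ⟨g - 1, by omega⟩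
  have hs : ∀ q ∈ L', q ∈ F.trees := fun q hq => hp.mem_iff.2 (List.mem_cons_of_mem _ (hL'.mem_iff.1 hq))
  have hlen := hp.length_eq
  rw [List.length_cons] at hlen
  have hlen' := hL'.length_eq
  have hN := (nl_iff F).1 h.2
  obtain ⟨h1, h2, -⟩ := h.1
  have hin : ∀ q ∈ L', q.1 = true ∧ InL l Kl true (q.2.size + 1) 0 q.2 := fun q hq =>
    ⟨hfl q (hs q hq), (hN q (hs q hq)).1 (hfl q (hs q hq))⟩
  refine ⟨⟨?_, (Fd.deg_iff b _).2 ?_, ?_⟩, ?_⟩
  · rw [Fd.len_eq] at h1 ⊢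
    rw [trees_ofT]
    omega
  · rw [trees_ofT]
    exact fun q hq => (Fd.deg_iff b F).1 h2 q (hs q hq)
  · cases L' with
    | nil => exact trivial
    | cons q L' =>
      obtain ⟨d, c⟩ := q
      obtain ⟨h3, h4⟩ := hin (d, c) (by simp)
      simp only at h3 h4
      subst h3
      refine ⟨?_, inL_of_trees (ofT L') (by rw [trees_ofT]; exact fun q hq => hin q (by simp [hq])), ?_⟩
      · simp only [if_true]
        exact Or.inr h4
      · intro _ q hq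
        rw [trees_ofT] at hq
        exact hmax (true, c) (by simp) q (by simp [hq])
  · rw [nl_iff, trees_ofT]
    exact fun q hq => hN q (hs q hq)

/-- **The tame round**, with room for a further item: `P₂` is a piece of the rest which is representative for the family
`𝓕 z` and has at least `w` vertices -/
theorem tame_genL (p : NP) (hp : p.OK) {D₀ : ℕ} {ω c η η₁ κ₀ κ₁ κ γ₀ τ s σ₂ μ : ℝ}
    (P : KB D₀ ω c η η₁ κ₀ κ₁ κ γ₀ τ s σ₂ μ) {κU : ℝ} (hU0 : 0 < κU) (hUκ : κU ≤ κ) (C : ℝ) (hC : 0 ≤ C) {εs : ℝ}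
    (hεs : 0 < εs) :
    ∃ (δZ : ℝ) (gd n₀ M₁ C₁ K₁ : ℕ), 0 < δZ ∧ ∀ {V : Type} {R : V → V → Prop}, AE32.Tour R →
      ∀ Kl : ℕ, (∀ F : Fd, FOL p.b p.l Kl 0 F → AEB.EE R κ η s p 1 C F) →
      (∀ F : Fd, FOL p.b p.l Kl 0 F → AEB.EE (SPD.rv R) κ η s p 1 C F) →
      ∀ (Y V₀ : Finset V) (N : V → Prop) (κ' η' s' : ℝ) (h lam lam' sig Kin : ℕ), κU ≤ κ' → η' ≤ η →
        M₁ * h + C₁ ≤ lam → M₁ * (lam' + h) + C₁ ≤ sig → (sig : ℝ) ≤ δZ / 2 * Y.card → n₀ ≤ Y.card →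
        StM R Y V₀ N κ' η' s' lam sig Kin → ∀ (𝓕 : V → Finset (Finset V)) (w : ℝ),
        (∀ z ∈ Y, Good R κ η Y z → (𝓕 z).card ≤ 6 * Y.card ^ 2) → 0 ≤ w → ∀ A₁ D₁ A₂ D₂ : Fd,
        (∀ F : Fd, F = A₁ ∨ F = D₁ ∨ F = A₂ ∨ F = D₂ → FON p.b p.l Kl gd F ∧ ∀ q ∈ F.trees, q.1 = true) →
        A₁.size ≤ h → A₂.size ≤ h → (D₁.size + D₂.size : ℝ) + w ≤ (1 - 2 * ω) * Y.card →
        (∃ z ∈ Y, N z ∧ ∃ S T : Finset V, Emb (SPD.rv R) A₁ z S ∧ Emb R D₁ z T ∧ S ⊆ Y ∪ V₀ ∧ T ⊆ Y ∧ Disjoint S T ∧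
          z ∉ S ∧ z ∉ T ∧ StM R (Y \ ({z} ∪ T ∪ S)) (V₀ \ S) (R z) κ η s lam' sig K₁) ∨
        (∃ v ∈ Y, ∃ z ∈ Y, N v ∧ R v z ∧ Good R κ η Y z ∧ ∃ S₁ T₁ S₂ T₂ P₂ : Finset V, Emb (SPD.rv R) A₁ v S₁ ∧
          Emb R D₁ v T₁ ∧
          Emb (SPD.rv R) A₂ z S₂ ∧ Emb R D₂ z T₂ ∧ S₁ ⊆ Y ∪ V₀ ∧ S₂ ⊆ Y ∪ V₀ ∧ T₁ ⊆ Y ∧ T₂ ⊆ Y ∧ Disjoint S₁ S₂ ∧
          Disjoint T₁ T₂ ∧ Disjoint (S₁ ∪ S₂) (T₁ ∪ T₂) ∧ v ∉ S₁ ∪ S₂ ∪ (T₁ ∪ T₂) ∧ z ∉ S₁ ∪ S₂ ∪ (T₁ ∪ T₂) ∧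
          (P₂ ⊆ Y ∧ Disjoint P₂ (S₁ ∪ S₂ ∪ (T₁ ∪ T₂)) ∧ v ∉ P₂ ∧ z ∉ P₂ ∧ w ≤ P₂.card ∧
            ∃ A ⊆ Y, ((Y \ A).card : ℝ) ≤ εs * Y.card ∧ P₂ ⊆ A ∧ Rep A (𝓕 z) εs P₂) ∧
          ∀ S₃ ⊆ P₂, StM R (Y \ ({v, z} ∪ (T₁ ∪ T₂ ∪ S₃) ∪ (S₁ ∪ S₂))) (V₀ \ (S₁ ∪ S₂)) (R z) κ η s lam' sig K₁) := by
  obtain ⟨δZ, gd, n₁, M₉, C₉, K₁, hδZ0, hδZ1, hM₉, hcore⟩ := light_coreL p hp P hU0 hUκ C hC 2 hεs
  obtain ⟨C₀, hun⟩ := unrootL P p C
  have hnum := P.num
  obtain ⟨hω0, hω1, hc0, hc1, hη0, hη1, hη₁0, hη₁1, hκ₀0, hκ₁0, hκ₁1, hκ0, hκ1, hs0, hγ₀0, hτ0, hσ₂0, hμ0, hκ₁η, hκs⟩ :=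
    hnum
  obtain ⟨n₂, hn₂⟩ := exists_big [(1, κ₀)] (by
    intro q hq
    simp only [List.mem_cons, List.not_mem_nil, or_false] at hq
    rcases hq with rfl
    exact hκ₀0)
  refine ⟨δZ, gd + 1, max n₁ n₂, 2 * M₉, M₉ * C₀ + C₉, K₁, hδZ0, ?_⟩
  intro V R hT Kl hEE hEE' Y V₀ N κ' η' s' h lam lam' sig Kin hκ' hη' hlam hsig hsigY hnY hSt 𝓕 w h𝓕 hw A₁ D₁ A₂ D₂ hok hA₁
    hA₂ hD
  have hT' : AE32.Tour (SPD.rv R) := ⟨hT.irr, fun a b h => (hT.tot a b h).symm, fun a b h => hT.asym b a h⟩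
  have hn1 : n₁ ≤ Y.card := (le_max_left _ _).trans hnY
  have hn2 := hn₂ Y.card ((le_max_right _ _).trans hnY)
  obtain ⟨n, hnd⟩ : ∃ n : ℝ, n = (Y.card : ℝ) := ⟨_, rfl⟩
  rw [← hnd] at hn2 hsigY hD
  have b1 : (1 : ℝ) ≤ κ₀ * n := hn2 (1, κ₀) (by simp)
  have hn0 : 0 < n := by
    by_contra hc
    push Not at hc
    have := mul_nonpos_of_nonneg_of_nonpos hκ₀0.le hc
    linarith
  have hcη : c * η ≤ 1 * η := mul_le_mul_of_nonneg_right (by linarith) hη0.le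
  have hκU2 : κU ^ 2 ≤ κU := by
    rw [sq]
    have : κU * κU ≤ 1 * κU := mul_le_mul_of_nonneg_right (by linarith) hU0.le
    linarith
  obtain ⟨Low, hLow⟩ : ∃ Low, Low = Y.filter (fun u => (nI R (Y ∪ V₀) u).card < sig) := ⟨_, rfl⟩
  have hLowc : (Low.card : ℝ) ≤ δZ * n := by
    have h1 : Low.card ≤ 2 * sig := by
      refine le_trans (card_le_card ?_) (card_lowin hT (Y ∪ V₀) sig)
      intro u hu
      rw [hLow, mem_filter] at hu
      rw [mem_filter, mem_union]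
      exact ⟨Or.inl hu.1, hu.2⟩
    have h2 : (Low.card : ℝ) ≤ 2 * sig := by exact_mod_cast h1
    linarith
  obtain ⟨G, hG, hGg, hGc, hGo⟩ := exists_G P hT Y (by rw [← hnd]; exact b1)
  rw [← hnd] at hGc hGo
  have hGκ : κ₁ ≤ η₁ / 64 ∧ γ₀ = η₁ / 2 := ⟨hκ₁η, P.hγ₀⟩
  obtain ⟨z, hXD⟩ := exists_x (Z := Low) hT hG (m := ⌊γ₀ / 16 * n⌋₊) (fun u hu huG => Nat.le_floor (hGo u hu huG)) (by
    rw [sdiff_nonempty]
    intro hsub
    have h1 : (G.card : ℝ) ≤ Low.card := by exact_mod_cast card_le_card hsub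
    have h2 : δZ * n ≤ γ₀ / 256 * n := mul_le_mul_of_nonneg_right (by linarith [hGκ.1, hGκ.2]) hn0.le
    have h3 : 0 < γ₀ * n := by positivity
    linarith)
  have hmr : ((⌊γ₀ / 16 * n⌋₊ : ℕ) : ℝ) ≤ γ₀ / 16 * n := Nat.floor_le (by positivity)
  have hzG : z ∈ G ∧ z ∉ Low := mem_sdiff.1 hXD.hx
  have hzY : z ∈ Y := hG hzG.1
  have hzs : sig ≤ (nI R (Y ∪ V₀) z).card := by
    by_contra hc
    push Not at hc
    exact hzG.2 (by rw [hLow, mem_filter]; exact ⟨hzY, hc⟩)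
  have hzGood : Good R κU η Y z := by
    have h1 := hGg z hzG.1
    exact GdU_self.1 (AEB.Good.gdU h1 (Subset.refl _) (mul_le_mul_of_nonneg_right (by linarith) (Nat.cast_nonneg _))
      (by have : c * η ≤ 1 * η := mul_le_mul_of_nonneg_right (by linarith) hη0.le
          linarith))
  have hzGood' : Good R κ η Y z := by
    have h1 := hGg z hzG.1
    exact GdU_self.1 (AEB.Good.gdU h1 (Subset.refl _) (mul_le_mul_of_nonneg_right (by linarith) (Nat.cast_nonneg _))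
      (by have : c * η ≤ 1 * η := mul_le_mul_of_nonneg_right (by linarith) hη0.le
          linarith))
  have hirr : ¬ R z z := hT.irr z
  obtain ⟨hA₁o, hA₁f⟩ := hok A₁ (by simp)
  obtain ⟨hD₁o, hD₁f⟩ := hok D₁ (by simp)
  obtain ⟨hA₂o, hA₂f⟩ := hok A₂ (by simp)
  obtain ⟨hD₂o, hD₂f⟩ := hok D₂ (by simp)
  have hM₁ : M₉ * (h + C₀) + C₉ ≤ lam := by
    have h1 : M₉ * (h + C₀) = M₉ * h + M₉ * C₀ := by ring
    have h2 : 2 * M₉ * h = M₉ * h + M₉ * h := by ring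
    omega
  have hM₂ : M₉ * (h + (h + C₀)) + C₉ ≤ sig := by
    have h1 : M₉ * (h + (h + C₀)) = 2 * M₉ * h + M₉ * C₀ := by ring
    have h2 : 2 * M₉ * (lam' + h) = 2 * M₉ * lam' + 2 * M₉ * h := by ring
    have h3 : 0 ≤ 2 * M₉ * lam' := Nat.zero_le _
    omega
  have hM₃ : M₉ * (lam' + 2 * h) + C₉ ≤ sig := by
    have h1 : M₉ * (lam' + 2 * h) = M₉ * lam' + 2 * M₉ * h := by ring
    have h2 : 2 * M₉ * (lam' + h) = M₉ * lam' + M₉ * lam' + 2 * M₉ * h := by ring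
    have h3 : 0 ≤ M₉ * lam' := Nat.zero_le _
    omega
  have hXY : ∀ v ∈ (Y ∪ V₀) \ Y, v ∈ V₀ ∧ v ∉ Y := by
    intro v hv
    rw [mem_sdiff, mem_union] at hv
    exact ⟨hv.1.resolve_left hv.2, hv.2⟩
  have hDL : Disjoint (nO R (G \ Low) z) Low := by
    rw [disjoint_left]
    intro v hv
    rw [mem_nO, mem_sdiff] at hv
    exact hv.1.2
  by_cases hNz : N z
  · left
    have hhs : hosts [(z, D₁)] = {z} := by
      ext v
      rw [mem_hosts, mem_singleton]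
      constructor
      · rintro ⟨o, ho, rfl⟩
        rw [List.mem_singleton] at ho
        rw [ho]
      · rintro rfl
        exact ⟨_, List.mem_singleton_self _, rfl⟩
    obtain ⟨T, Q, P₀, P₁, P₂, -, hE, hTs, hQs, hP₀s, hP₁s, hTQ, hTP₀, hTP₁, hQP₀, hQP₁, hP₀₁, hg, hd, hc, hcap⟩ :=
      hcore hT Kl hEE (Y ∪ V₀) Y G Low z ⌊γ₀ / 16 * n⌋₊ [(z, D₁)] hn1 hG hGg (by rw [← hnd]; exact hGc) hXD
        (by rw [← hnd]; exact hmr) (by rw [← hnd]; exact hLowc) (by simp) (by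
          intro o ho
          rw [List.mem_singleton] at ho
          rw [ho]
          exact ⟨hzY, hzGood, hirr, hD₁o.mono (Nat.le_succ _), hD₁f⟩) (by rw [hhs]; exact mem_singleton_self _) ∅ 0 (by simp) le_rfl (by
          rw [← hnd, add_zero]
          refine le_trans ?_ hD
          have h1 : totB [(z, D₁)] = D₁.size := by simp [totB]
          rw [h1]
          have : (0 : ℝ) ≤ D₂.size := Nat.cast_nonneg _
          linarith)
    rw [hhs] at hTs hQs hP₀s hP₁s hc hcap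
    have hET : Emb R D₁ z T := by
      obtain ⟨S₁, S₂, -, h2, h3, h4⟩ := hE
      have h5 : S₂ = ∅ := h4
      rw [h2, h5, union_empty]
      exact h3
    -- the in-branch
    obtain ⟨S, hSs, hES⟩ := hun (R := SPD.rv R) hT' Kl hEE' A₁ (hA₁o.trees (Nat.succ_pos _) hA₁f) hA₁f z
      (nI R (((Y ∪ V₀) \ Y) ∪ (Low \ {z}) ∪ P₀) z) (fun w hw => (mem_nI.1 hw).2) (by
        have h1 := hcap z (mem_union_right _ (mem_singleton_self _)) P₀ (Or.inr (Or.inl rfl))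
        have h2 : M₉ * (h + (h + C₀)) ≤ M₉ * (nI R (((Y ∪ V₀) \ Y) ∪ (Low \ {z}) ∪ P₀) z).card := by omega
        have h3 := Nat.le_of_mul_le_mul_left h2 (by omega)
        omega)
    have hSc : S.card = A₁.size := EmbB.card hES
    have hSm : ∀ v ∈ S, (v ∈ V₀ ∧ v ∉ Y) ∨ (v ∈ Low ∧ v ≠ z) ∨ v ∈ P₀ := by
      intro v hv
      have h1 := (mem_nI.1 (hSs hv)).1
      rw [mem_union, mem_union] at h1
      rcases h1 with (h1 | h1) | h1
      · exact Or.inl (hXY v h1)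
      · rw [mem_sdiff, mem_singleton] at h1
        exact Or.inr (Or.inl h1)
      · exact Or.inr (Or.inr h1)
    have hBm : ∀ B ⊆ Y \ (Low ∪ {z}), ∀ v ∈ B, v ∈ Y ∧ v ∉ Low ∧ v ≠ z := by
      intro B hB v hv
      have := hB hv
      rw [mem_sdiff, mem_union, not_or, mem_singleton] at this
      exact ⟨this.1, this.2.1, this.2.2⟩
    have hSB : ∀ B ⊆ Y \ (Low ∪ {z}), Disjoint P₀ B → Disjoint S B := by
      intro B hB hPB
      rw [disjoint_left]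
      intro v hv hvB
      obtain ⟨h1, h2, h3⟩ := hBm B hB v hvB
      rcases hSm v hv with h4 | h4 | h4
      · exact h4.2 h1
      · exact h2 h4.1
      · exact disjoint_left.1 hPB h4 hvB
    have hLowY : ∀ v ∈ Low, v ∈ Y := fun v hv => by
      rw [hLow, mem_filter] at hv
      exact hv.1
    have hzS : z ∉ S := by
      intro h1
      rcases hSm z h1 with h4 | h4 | h4
      · exact h4.2 hzY
      · exact h4.2 rfl
      · exact (hBm P₀ hP₀s z h4).2.2 rfl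
    refine ⟨z, hzY, hNz, S, T, hES, hET, ?_, fun v hv => (hBm T hTs v hv).1, hSB T hTs hTP₀.symm, hzS,
      fun h1 => (hBm T hTs z h1).2.2 rfl, ?_⟩
    · intro v hv
      rw [mem_union]
      rcases hSm v hv with h4 | h4 | h4
      · exact Or.inr h4.1
      · exact Or.inl (hLowY v h4.1)
      · exact Or.inl (hBm P₀ hP₀s v h4).1
    · exact next_state hSt.disj hLow hM₉ hs0.le (nO_sub.trans sdiff_subset) hDL (fun w hw => (mem_nO.1 hw).2) hTs hQs hTQ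
        (hSB Q hQs hQP₀.symm) (by omega) hg hd hc (fun w hw => hcap w (mem_union_left _ hw) Q (Or.inl rfl)) hM₃
  · right
    obtain ⟨v, hv, hvz⟩ := hSt.cov hzY hzs hNz
    rw [mem_cg] at hv
    obtain ⟨hvY, hNv, hvG, hvlam⟩ := hv
    have hvz' : v ≠ z := fun e => hirr (by rw [e] at hvz; exact hvz)
    have hvGood : Good R κU η Y v := by
      exact GdU_self.1 (AEB.Good.gdU hvG (Subset.refl _) (mul_le_mul_of_nonneg_right hκ' (Nat.cast_nonneg _)) hη')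
    have hhs : hosts [(v, D₁), (z, D₂)] = {v, z} := by
      ext u
      rw [mem_hosts, mem_insert, mem_singleton]
      constructor
      · rintro ⟨o, ho, rfl⟩
        rw [List.mem_cons, List.mem_singleton] at ho
        rcases ho with rfl | rfl
        · exact Or.inl rfl
        · exact Or.inr rfl
      · rintro (rfl | rfl)
        · exact ⟨_, List.mem_cons_self, rfl⟩
        · exact ⟨_, List.mem_cons_of_mem _ (List.mem_singleton_self _), rfl⟩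
    obtain ⟨T, Q, P₀, P₁, P₂, ⟨hP₂s, hTP₂, hQP₂, hP₀₂, hP₁₂, hwP, A, hAY, hYA, hPA, hRep⟩, hE, hTs, hQs, hP₀s, hP₁s, hTQ,
      hTP₀, hTP₁, hQP₀, hQP₁, hP₀₁, hg, hd, hc, hcap⟩ :=
      hcore hT Kl hEE (Y ∪ V₀) Y G Low z ⌊γ₀ / 16 * n⌋₊ [(v, D₁), (z, D₂)] hn1 hG hGg (by rw [← hnd]; exact hGc) hXD
        (by rw [← hnd]; exact hmr) (by rw [← hnd]; exact hLowc) (by simp) (by
          intro o ho
          rw [List.mem_cons, List.mem_singleton] at ho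
          rcases ho with rfl | rfl
          · exact ⟨hvY, hvGood, hT.asym _ _ hvz, hD₁o.mono (Nat.le_succ _), hD₁f⟩
          · exact ⟨hzY, hzGood, hirr, hD₂o.mono (Nat.le_succ _), hD₂f⟩) (by rw [hhs]; simp) (𝓕 z) w (h𝓕 z hzY hzGood') hw (by
          rw [← hnd]
          refine le_trans (le_of_eq ?_) hD
          have h1 : totB [(v, D₁), (z, D₂)] = D₁.size + D₂.size := by simp [totB]
          rw [h1]
          push_cast
          ring)
    rw [hhs] at hTs hQs hP₀s hP₁s hP₂s hc hcap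
    obtain ⟨T₁, T₂, hT12, hTe, hET₁, hET₂⟩ : ∃ T₁ T₂, Disjoint T₁ T₂ ∧ T = T₁ ∪ T₂ ∧ Emb R D₁ v T₁ ∧ Emb R D₂ z T₂ := by
      obtain ⟨S₁, S₂, h1, h2, h3, S₃, S₄, h4, h5, h6, h7⟩ := hE
      have h8 : S₄ = ∅ := h7
      rw [h8, union_empty] at h5
      rw [h5] at h1 h2
      exact ⟨S₁, S₃, h1, h2, h3, h6⟩
    have hBm : ∀ B ⊆ Y \ (Low ∪ {v, z}), ∀ u ∈ B, u ∈ Y ∧ u ∉ Low ∧ u ≠ v ∧ u ≠ z := by
      intro B hB u hu
      have := hB hu
      rw [mem_sdiff, mem_union, not_or, mem_insert, mem_singleton, not_or] at this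
      exact ⟨this.1, this.2.1, this.2.2.1, this.2.2.2⟩
    have hLowY : ∀ v ∈ Low, v ∈ Y := fun v hv => by
      rw [hLow, mem_filter] at hv
      exact hv.1
    -- the first in-branch
    obtain ⟨S₁, hSs₁, hES₁⟩ := hun (R := SPD.rv R) hT' Kl hEE' A₁ (hA₁o.trees (Nat.succ_pos _) hA₁f) hA₁f v
      (nI R (((Y ∪ V₀) \ Y) ∪ (Low \ {v, z}) ∪ P₀) v) (fun w hw => (mem_nI.1 hw).2) (by
        have h1 := hcap v (mem_union_right _ (by simp)) P₀ (Or.inr (Or.inl rfl))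
        have h2 : M₉ * (h + C₀) ≤ M₉ * (nI R (((Y ∪ V₀) \ Y) ∪ (Low \ {v, z}) ∪ P₀) v).card := by omega
        have h3 := Nat.le_of_mul_le_mul_left h2 (by omega)
        omega)
    have hSc₁ : S₁.card = A₁.size := EmbB.card hES₁
    -- the second in-branch
    obtain ⟨S₂, hSs₂, hES₂⟩ := hun (R := SPD.rv R) hT' Kl hEE' A₂ (hA₂o.trees (Nat.succ_pos _) hA₂f) hA₂f z
      (nI R (((Y ∪ V₀) \ Y) ∪ (Low \ {v, z}) ∪ P₁) z \ S₁) (fun w hw => (mem_nI.1 (mem_sdiff.1 hw).1).2) (by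
        have h1 := hcap z (mem_union_right _ (by simp)) P₁ (Or.inr (Or.inr rfl))
        have h2 : M₉ * (h + (h + C₀)) ≤ M₉ * (nI R (((Y ∪ V₀) \ Y) ∪ (Low \ {v, z}) ∪ P₁) z).card := by omega
        have h3 := Nat.le_of_mul_le_mul_left h2 (by omega)
        have h4 := le_card_sdiff S₁ (nI R (((Y ∪ V₀) \ Y) ∪ (Low \ {v, z}) ∪ P₁) z)
        omega)
    have hSc₂ : S₂.card = A₂.size := EmbB.card hES₂
    have hSm : ∀ u ∈ S₁ ∪ S₂, (u ∈ V₀ ∧ u ∉ Y) ∨ (u ∈ Low ∧ u ≠ v ∧ u ≠ z) ∨ u ∈ P₀ ∨ u ∈ P₁ := by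
      intro u hu
      have h1 : u ∈ ((Y ∪ V₀) \ Y) ∪ (Low \ {v, z}) ∪ (P₀ ∪ P₁) := by
        rcases mem_union.1 hu with h | h
        · have := (mem_nI.1 (hSs₁ h)).1
          exact union_subset_union (Subset.refl _) subset_union_left this
        · have := (mem_nI.1 (mem_sdiff.1 (hSs₂ h)).1).1
          exact union_subset_union (Subset.refl _) subset_union_right this
      rw [mem_union, mem_union, mem_union] at h1
      rcases h1 with (h1 | h1) | h1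
      · exact Or.inl (hXY u h1)
      · rw [mem_sdiff, mem_insert, mem_singleton, not_or] at h1
        exact Or.inr (Or.inl h1)
      · exact Or.inr (Or.inr h1)
    have hSB : ∀ B ⊆ Y \ (Low ∪ {v, z}), Disjoint P₀ B → Disjoint P₁ B → Disjoint (S₁ ∪ S₂) B := by
      intro B hB hPB hPB'
      rw [disjoint_left]
      intro u hu huB
      obtain ⟨h1, h2, h3⟩ := hBm B hB u huB
      rcases hSm u hu with h4 | h4 | h4 | h4
      · exact h4.2 h1
      · exact h2 h4.1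
      · exact disjoint_left.1 hPB h4 huB
      · exact disjoint_left.1 hPB' h4 huB
    have hSY : S₁ ∪ S₂ ⊆ Y ∪ V₀ := by
      intro u hu
      rw [mem_union]
      rcases hSm u hu with h4 | h4 | h4 | h4
      · exact Or.inr h4.1
      · exact Or.inl (hLowY u h4.1)
      · exact Or.inl (hBm P₀ hP₀s u h4).1
      · exact Or.inl (hBm P₁ hP₁s u h4).1
    have hTm : ∀ u ∈ T₁ ∪ T₂, u ∈ Y ∧ u ∉ Low ∧ u ≠ v ∧ u ≠ z := by
      intro u hu
      rw [← hTe] at hu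
      exact hBm T hTs u hu
    have hST : Disjoint (S₁ ∪ S₂) (T₁ ∪ T₂) := by
      rw [← hTe]
      exact hSB T hTs hTP₀.symm hTP₁.symm
    have hvn : v ∉ S₁ ∪ S₂ ∪ (T₁ ∪ T₂) := by
      rw [mem_union, not_or]
      refine ⟨fun h1 => ?_, fun h1 => (hTm v h1).2.2.1 rfl⟩
      rcases hSm v h1 with h4 | h4 | h4 | h4
      · exact h4.2 hvY
      · exact h4.2.1 rfl
      · exact (hBm P₀ hP₀s v h4).2.2.1 rfl
      · exact (hBm P₁ hP₁s v h4).2.2.1 rfl
    have hzn : z ∉ S₁ ∪ S₂ ∪ (T₁ ∪ T₂) := by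
      rw [mem_union, not_or]
      refine ⟨fun h1 => ?_, fun h1 => (hTm z h1).2.2.2 rfl⟩
      rcases hSm z h1 with h4 | h4 | h4 | h4
      · exact h4.2 hzY
      · exact h4.2.2 rfl
      · exact (hBm P₀ hP₀s z h4).2.2.2 rfl
      · exact (hBm P₁ hP₁s z h4).2.2.2 rfl
    refine ⟨v, hvY, z, hzY, hNv, hvz, hzGood', S₁, T₁, S₂, T₂, P₂, hES₁, hET₁, hES₂, hET₂, subset_union_left.trans hSY,
      subset_union_right.trans hSY, fun u hu => (hTm u (mem_union_left _ hu)).1,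
      fun u hu => (hTm u (mem_union_right _ hu)).1, ?_, hT12, hST, hvn, hzn, ⟨fun u hu => (hBm P₂ hP₂s u hu).1, ?_,
      fun hu => (hBm P₂ hP₂s v hu).2.2.1 rfl, fun hu => (hBm P₂ hP₂s z hu).2.2.2 rfl, hwP, A, hAY, hYA, hPA, hRep⟩, ?_⟩
    · rw [disjoint_right]
      intro u hu
      exact (mem_sdiff.1 (hSs₂ hu)).2
    · rw [disjoint_union_right, ← hTe]
      exact ⟨(hSB P₂ hP₂s hP₀₂ hP₁₂).symm, hTP₂.symm⟩
    · intro S₃ hS₃
      rw [← hTe]
      exact next_state hSt.disj hLow hM₉ hs0.le (nO_sub.trans sdiff_subset) hDL (fun w hw => (mem_nO.1 hw).2)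
        (union_subset hTs (hS₃.trans hP₂s)) hQs (disjoint_union_left.2 ⟨hTQ, (hQP₂.mono_right hS₃).symm⟩)
        (hSB Q hQs hQP₀.symm hQP₁.symm) (by
          have := card_union_le S₁ S₂
          omega) hg hd hc (fun w hw => hcap w (mem_union_left _ hw) Q (Or.inl rfl)) hM₃

end AET
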