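import Pool.Agent.AET.FinBL
import Pool.Agent.AET.TameL
import Pool.Agent.AET.SplitML
import Pool.Agent.AEG.TameAll

/-!
# Light branches: the tame rounds
-/

set_option autoImplicit false

namespace AET

open Finset AE15 AED AEB SPD AEG
open scoped Classical

/-- the final step at the first vertex: its out-branch is at least `K` times as large as the rest of the line -/
def FinASL (p : NP) (κF ηF : ℝ) (K Kl : ℕ) : Prop := ∀ κU s' : ℝ, 0 < κU → κU ≤ κF → 0 < s' → ∃ gd M C₀ : ℕ,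
  ∀ h lam sig w K1 : ℕ, M * h + C₀ ≤ lam → ∃ C : ℕ, ∀ {V : Type} {R : V → V → Prop}, AE32.Tour R →
    ∀ {Y W : Finset V} {N : V → Prop}, StM R Y W N κU ηF s' lam sig K1 → (W \ low R sig (Y ∪ W)).card ≤ w →
      ∀ {q : Fd × Fd} {L : List (Fd × Fd)}, q.1.size ≤ h → (∀ q' ∈ L.head?, q'.1.size ≤ h) →
      (∀ t ∈ q :: L, BrOkL p.b p.l Kl gd t) → K * (szS L + 1) ≤ q.2.size →
      szS (q :: L) + C ≤ (Y ∪ W).card → InS R (q :: L) N (Y ∪ W)

/-- **The tame rounds**, from the final step at the first vertex -/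
theorem tameRL_of (p : NP) (hp : p.OK) (hab : ab p.b p.l ≤ p.a) (hB2 : (2 * p.b) ^ p.A0 ≤ p.B) {κF ηF : ℝ}
    (hκF : 0 < κF) {K KlF : ℕ} (hA : FinASL p κF ηF K KlF) (hK : 16 * p.b ≤ K) {D₀ : ℕ} (hD₀ : p.A ≤ D₀) (hD₁ : 2 * p.b * (K + 2) ≤ D₀)
    (hD₂ : 2 * ((K + 1) * K + K) ≤ D₀) {ω c η η₁ κ₀ κ₁ κ γ₀ τ s σ₂ μ : ℝ} (P : KB D₀ ω c η η₁ κ₀ κ₁ κ γ₀ τ s σ₂ μ)
    (hη : η ≤ ηF) : ∃ Kl g : ℕ, TameRL p.b p.l Kl g κ η s := by
  obtain ⟨hω0, hω1, hc0, hc1, hη0, hη1, hη₁0, hη₁1, hκ₀0, hκ₁0, hκ₁1, hκ0, hκ1, hs0, hγ₀0, hτ0, hσ₂0, hμ0, hκ₁η, hκs⟩ :=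
    P.num
  have hωD : 2 * ω * D₀ = 1 := by
    have h1 : (0 : ℝ) < D₀ := by
      have := P.hD
      exact_mod_cast (by omega : 0 < D₀)
    rw [P.hω]
    field_simp
  have hκ1' : κ ≤ 1 := by
    have h1 : c * η ≤ 1 * η := mul_le_mul_of_nonneg_right (by linarith) hη0.le
    linarith
  have hb1 := hp.hb
  obtain ⟨gl, el, ul, ml, hgl, hel, hul, hLi⟩ := itX_one p.b hp.hb hκ0 hκ1' hη0 (by linarith)
  obtain ⟨Kl₀, hKl0, hKl4⟩ := exists_KL p.b p.e hgl hω0
  obtain ⟨CE', hEE⟩ := ee_allU p hp hab hB2 hD₀ P hgl hel hul hLi hKl0 hKl4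
  obtain ⟨CE, hCEe⟩ : ∃ CE : ℝ, CE = CE' := ⟨_, rfl⟩
  have hCE : 0 ≤ CE := by rw [hCEe]; exact Nat.cast_nonneg _
  rw [← hCEe] at hEE
  obtain ⟨γ, εh, μh, mh, hγ, hεh, hμh, hμh1, hlight⟩ := AEF.light_host (2 * p.b + 1) (ρ := 4) (C := 0) (κ := κ) (η := η)
    (by norm_num) (fun κ' β h1 h2 => by
      obtain ⟨n₀, h3⟩ := AELT.lt (2 * p.b + 1) (by omega) (ρ := 4) (C := 0) (by norm_num) le_rfl h1 h2
      exact ⟨n₀, h3⟩) hκ0 hκ1' hη0 (by linarith)
  obtain ⟨εs, hεsd⟩ : ∃ εs, εs = min εh μh := ⟨_, rfl⟩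
  have hεs0 : 0 < εs := by rw [hεsd]; exact lt_min hεh hμh
  have hεs1 : εs ≤ εh := by rw [hεsd]; exact min_le_left _ _
  have hεs2 : εs ≤ μh := by rw [hεsd]; exact min_le_right _ _
  obtain ⟨δZ, gt, n₀, M₁, C₁, K₁, hδZ, hgen⟩ := tame_genL p hp P hκ0 le_rfl CE hCE hεs0
  obtain ⟨gA, MA, CA, hA⟩ := hA (min κ κF) s (lt_min hκ0 hκF) (min_le_right _ _) hs0
  obtain ⟨Kl, hKl⟩ : ∃ Kl : ℕ, Kl = max Kl₀ KlF := ⟨_, rfl⟩
  obtain ⟨g, hg⟩ : ∃ g : ℕ, g = gt + gA + 1 := ⟨_, rfl⟩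
  have hKl1 : Kl₀ ≤ Kl := by rw [hKl]; exact le_max_left _ _
  have hKl2 : KlF ≤ Kl := by rw [hKl]; exact le_max_right _ _
  refine ⟨Kl, g, max M₁ MA, max C₁ CA, K₁, ?_⟩
  intro Kin w h lam lam' sig hlam hsig
  have hlam1 : M₁ * h + C₁ ≤ lam :=
    (Nat.add_le_add (Nat.mul_le_mul_right _ (le_max_left _ _)) (le_max_left _ _)).trans hlam
  have hlamA : MA * h + CA ≤ lam :=
    (Nat.add_le_add (Nat.mul_le_mul_right _ (le_max_right _ _)) (le_max_right _ _)).trans hlam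
  have hsig1 : M₁ * (lam' + h) + C₁ ≤ sig :=
    (Nat.add_le_add (Nat.mul_le_mul_right _ (le_max_left _ _)) (le_max_left _ _)).trans hsig
  obtain ⟨CF, hA⟩ := hA h lam sig w Kin hlamA
  obtain ⟨p₁, hp₁, q1, q2, q3, q4, q5, q6, q7, q8, q9⟩ := exists_np2L p hp (2 * sig + K₁ * (2 * p.c0))
  obtain ⟨CE1', hEE1⟩ := ee_allU p₁ hp₁ (by rw [q1, q2, q3]; exact hab) (by rw [q1, q8, q9]; exact hB2)
    (by rw [q6]; exact hD₀) P hgl hel hul (by rw [q1]; exact hLi) hKl0 (by rw [q1, q4]; exact hKl4)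
  obtain ⟨CE1, hCE1e⟩ : ∃ CE1 : ℝ, CE1 = CE1' := ⟨_, rfl⟩
  have hCE1 : 0 ≤ CE1 := by rw [hCE1e]; exact Nat.cast_nonneg _
  rw [← hCE1e] at hEE1
  obtain ⟨c₂, hc₂⟩ : ∃ c₂ : ℝ, c₂ = 4 * ((h : ℝ) + 1) / γ + mh := ⟨_, rfl⟩
  have hc₂0 : 0 ≤ c₂ := by rw [hc₂]; positivity
  obtain ⟨W, hW⟩ : ∃ W : ℕ, W = w + 2 * sig := ⟨_, rfl⟩
  obtain ⟨C₀, hC₀⟩ : ∃ C₀ : ℕ, C₀ = n₀ + ⌈2 * (sig : ℝ) / δZ⌉₊ + mh + W + CF + ⌈CE1⌉₊ + 2 * (K * (h + 2) + ⌈c₂⌉₊) +
    (K * (h + 2) + (K + 1) * K) + 2 * K := ⟨_, rfl⟩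
  refine ⟨C₀, ?_⟩
  intro C hC T R L N Y V hI hL htame
  obtain ⟨hT, hcl, hSt, hlow, hcard⟩ := hI
  have hT' : AE32.Tour (SPD.rv R) := ⟨hT.irr, fun a b h => (hT.tot a b h).symm, fun a b h => hT.asym b a h⟩
  have hVW : V.card ≤ W := by
    have h1 : V ⊆ (V \ low R sig (Y ∪ V)) ∪ low R sig (Y ∪ V) := by
      intro v hv
      by_cases h2 : v ∈ low R sig (Y ∪ V)
      · exact mem_union_right _ h2
      · exact mem_union_left _ (mem_sdiff.2 ⟨hv, h2⟩)
    have h3 := (card_le_card h1).trans (card_union_le _ _)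
    have h4 := AE15.card_low_in hT sig (Y ∪ V)
    omega
  have hXc : (Y ∪ V).card = Y.card + V.card := card_union_of_disjoint hSt.disj
  have hYn : szS L + C ≤ Y.card + W := by omega
  have hn0 : n₀ ≤ Y.card := by omega
  have hmh : mh ≤ Y.card := by omega
  have h2K : 2 * K ≤ Y.card := by omega
  have hsY : (sig : ℝ) ≤ δZ / 2 * Y.card := by
    have h1 : ⌈2 * (sig : ℝ) / δZ⌉₊ ≤ Y.card := by omega
    have h2 := Nat.le_ceil (2 * (sig : ℝ) / δZ)
    have h3 : 2 * (sig : ℝ) / δZ ≤ Y.card := h2.trans (by exact_mod_cast h1)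
    rw [div_le_iff₀ hδZ] at h3
    linarith
  have gen := hgen hT Kl₀ (hEE hT) (hEE hT') Y V N κ η s h lam lam' sig Kin le_rfl le_rfl hlam1 hsig1 hsY hn0 hSt
  obtain ⟨q₁, L₁, rfl⟩ := List.exists_cons_of_ne_nil hL
  have hq₁ : q₁.1.size ≤ h := by
    by_contra hc
    exact htame 0 (by omega) ⟨q₁, rfl, by omega⟩
  obtain ⟨o1', o2', o3, o4⟩ := hcl q₁ List.mem_cons_self
  have o1 : FON p.b p.l Kl₀ gt q₁.1 := (o1'.mono (by omega)).mono_K hKl1
  have o2 : FON p.b p.l Kl₀ gt q₁.2 := (o2'.mono (by omega)).mono_K hKl1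
  by_cases ha : K * (szS L₁ + 1) ≤ q₁.2.size
  · left
    refine hA hT (hSt.mono_good (min_le_left _ _) hη) hlow hq₁ ?_ (fun t ht => (hcl t ht).mono hKl2 (by omega)) ha
      (by omega)
    intro q' hq'
    by_contra hc
    cases L₁ with
    | nil => simp at hq'
    | cons q₂ L₂ =>
      obtain rfl : q₂ = q' := by simpa using hq'
      exact htame 1 (by omega) ⟨q₂, rfl, by omega⟩
  push Not at ha
  have hd1 : (q₁.2.size : ℝ) ≤ K * (szS L₁ + 1) := by exact_mod_cast ha.le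
  have hnn : FON p.b p.l Kl₀ gt Fd.nil ∧ ∀ q ∈ Fd.nil.trees, q.1 = true := ⟨fon_nil _ _ _ _, by simp [Fd.trees]⟩
  cases L₁ with
  | nil =>
    left
    rcases gen (fun _ => ∅) 0 (by simp) le_rfl q₁.1 q₁.2 Fd.nil Fd.nil (by
      rintro F (rfl | rfl | rfl | rfl)
      · exact ⟨o1, o3⟩
      · exact ⟨o2, o4⟩
      · exact hnn
      · exact hnn) hq₁ (Nat.zero_le _) (by
      have h1 : szS ([] : List (Fd × Fd)) = 0 := rfl
      rw [h1] at hd1
      have h2 : (2 * K : ℝ) ≤ Y.card := by exact_mod_cast h2K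
      have h3 : ((Fd.nil.size : ℕ) : ℝ) = 0 := by simp [Fd.size]
      rw [h3]
      push_cast at hd1
      have h4 : 1 / 2 * (Y.card : ℝ) ≤ (1 - 2 * ω) * Y.card :=
        mul_le_mul_of_nonneg_right (by linarith) (Nat.cast_nonneg _)
      linarith) with h | h
    · obtain ⟨z, hz, hNz, S, T', e1, e2, e3, e4, e5, e6, e7, -⟩ := h
      exact InS.cons (X' := ∅) (mem_union_left _ hz) hNz e1 e2 e5 e6 e7 e3 (e4.trans subset_union_left) (by simp)
        (by simp) (by simp) (by simp) (Or.inl rfl)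
    · obtain ⟨v, hv, z, hz, hNv, hvz, -, S₁, T₁, S₂, T₂, -, e1, e2, -, -, e5, -, e7, -, -, -, e8, e9, -⟩ := h
      rw [disjoint_union_left, disjoint_union_right, disjoint_union_right] at e8
      simp only [mem_union, not_or] at e9
      exact InS.cons (X' := ∅) (mem_union_left _ hv) hNv e1 e2 e8.1.1 e9.1.1 e9.2.1 e5 (e7.trans subset_union_left)
        (by simp) (by simp) (by simp) (by simp) (Or.inl rfl)
  | cons q₂ L₂ =>
    have hq₂ : q₂.1.size ≤ h := by
      by_contra hc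
      exact htame 1 (by omega) ⟨q₂, rfl, by omega⟩
    obtain ⟨u1', u2', u3, u4⟩ := hcl q₂ (by simp)
    have u1 : FON p.b p.l Kl₀ gt q₂.1 := (u1'.mono (by omega)).mono_K hKl1
    have u2 : FON p.b p.l Kl₀ gt q₂.2 := (u2'.mono (by omega)).mono_K hKl1
    have u2g : FON p.b p.l Kl₀ g q₂.2 := u2'.mono_K hKl1
    have hsz1 : szS (q₂ :: L₂) = q₂.1.size + q₂.2.size + 1 + szS L₂ := szS_cons _ _
    have hsz0 : szS (q₁ :: q₂ :: L₂) = q₁.1.size + q₁.2.size + 1 + szS (q₂ :: L₂) := szS_cons _ _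
    have hA₂ : (q₂.1.size : ℝ) ≤ h := by exact_mod_cast hq₂
    have hK0 : (0 : ℝ) ≤ K := Nat.cast_nonneg _
    have hd1' : (q₁.2.size : ℝ) ≤ K * (h + q₂.2.size + szS L₂ + 2) := by
      refine hd1.trans (mul_le_mul_of_nonneg_left ?_ hK0)
      rw [hsz1]
      push_cast
      linarith
    by_cases hb : K * (szS L₂ + 1) ≤ q₂.2.size
    · -- a large tree in the second out-branch
      have hD₂nil : q₂.2 ≠ Fd.nil := by
        intro h1
        rw [h1] at hb
        have h2 : 1 * 1 ≤ K * (szS L₂ + 1) := Nat.mul_le_mul (by omega) (by omega)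
        simp only [Fd.size] at hb
        omega
      obtain ⟨a, Lr₀, hperm₀, hbig⟩ := exists_large p.b q₂.2 hD₂nil u2.1.1
      obtain ⟨Lr, hLr, hofF⟩ := fon_ofT u2g (by omega) u4 hperm₀
      have hperm : q₂.2.trees.Perm (a :: Lr) := hperm₀.trans (List.Perm.cons a hLr.symm)
      have ha1 : a.1 = true := u4 a (hperm.mem_iff.2 List.mem_cons_self)
      have haF : FOL p.b p.l Kl₀ 0 a.2 := u2g.trees (by omega) u4 a (hperm.mem_iff.2 List.mem_cons_self)
      have hsza := size_ofT hperm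
      have hfam : ∀ z : T, ∃ 𝓕 : Finset (Finset T), Good R κ η Y z → 𝓕.card ≤ 6 * Y.card ^ 2 ∧
          ∀ A ⊆ Y, ((Y \ A).card : ℝ) ≤ μh * Y.card → AEF.OkL R (2 * p.b + 1) 4 (8 * η) γ mh A 𝓕 εh (R z) := by
        intro z
        by_cases hz : Good R κ η Y z
        · obtain ⟨𝓕, h1, -, h2⟩ := hlight hT (AEX.un_four hT _) Y z hmh hz
          exact ⟨𝓕, fun _ => ⟨h1, h2⟩⟩
        · exact ⟨∅, fun h => absurd h hz⟩
      choose 𝓕 h𝓕 using hfam
      have hsize : (q₁.2.size + (ofT Lr).size : ℝ) + (8 * szS L₂ + c₂) ≤ (1 - 2 * ω) * Y.card := by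
        refine arith_c (D := D₀) (K := K) (b := p.b) (c := a.2.size + 1) (t := szS L₂) (h := h) (Cc := C) (W := W) hωD
          hω0.le (by linarith) (by exact_mod_cast hD₁) (by exact_mod_cast hK) (by exact_mod_cast hb1) ?_ ?_ ?_
          (Nat.cast_nonneg _) (Nat.cast_nonneg _) (by positivity) hc₂0 ?_ ?_
        · exact_mod_cast (by omega : a.2.size + 1 + (ofT Lr).size ≤ p.b * (a.2.size + 1))
        · exact_mod_cast (by omega : K * (szS L₂ + 1) ≤ a.2.size + 1 + (ofT Lr).size)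
        · have h1 : (q₂.2.size : ℝ) = a.2.size + 1 + (ofT Lr).size := by exact_mod_cast hsza
          rw [h1] at hd1'
          exact hd1'
        · exact_mod_cast (by omega : q₁.2.size + (a.2.size + 1 + (ofT Lr).size) + C ≤ Y.card + W)
        · have h1 : c₂ ≤ ⌈c₂⌉₊ := Nat.le_ceil _
          have h2 : (W : ℝ) + 2 * (K * (h + 2) + ⌈c₂⌉₊) ≤ C := by
            exact_mod_cast (by omega : W + 2 * (K * (h + 2) + ⌈c₂⌉₊) ≤ C)
          linarith
      have hofT : FON p.b p.l Kl₀ gt (ofT Lr) ∧ ∀ q ∈ (ofT Lr).trees, q.1 = true := by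
        refine ⟨hofF.mono (by omega), ?_⟩
        rw [trees_ofT]
        exact fun q hq => u4 q (hperm.mem_iff.2 (List.mem_cons_of_mem _ hq))
      rcases gen 𝓕 (8 * szS L₂ + c₂) (fun z _ hz => (h𝓕 z hz).1) (by positivity) q₁.1 q₁.2 q₂.1 (ofT Lr) (by
        rintro F (rfl | rfl | rfl | rfl)
        · exact ⟨o1, o3⟩
        · exact ⟨o2, o4⟩
        · exact ⟨u1, u3⟩
        · exact hofT) hq₁ hq₂ hsize with g | g
      · right
        left
        obtain ⟨z, hz, hNz, S, T', e1, e2, e3, e4, e5, e6, e7, e8⟩ := g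
        exact nxt_one (by simp) hSt.disj hlow hcard hz hNz e1 e2 e3 e4 e5 e6 e7 e8
      · left
        obtain ⟨v, hv, z, hz, hNv, hvz, hzG, S₁, T₁, S₂, T₂, P₂, e1, e2, e3, e4, k1, k2, k3, k4, d1, d2, d3, hv', hz',
          ⟨hP₂Y, hP₂d, hvP, hzP, hwP, A, hAY, hYA, hPA, hRep⟩, hst⟩ := g
        obtain ⟨-, hOkL⟩ := h𝓕 z hzG
        have hne : v ≠ z := fun e => hT.irr z (by rw [e] at hvz; exact hvz)
        -- the rest of the line in `P₂`
        obtain ⟨S₃, hS₃P, hS₃c, hS₃⟩ : ∃ S₃ ⊆ P₂, S₃.card = szS L₂ ∧ (L₂ = [] ∨ InS R L₂ (R z) S₃) := by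
          cases L₂ with
          | nil => exact ⟨∅, empty_subset _, rfl, Or.inl rfl⟩
          | cons q₃ L₃ =>
            have hq₃ : q₃.1.size ≤ h := by
              by_contra hc
              exact htame 2 (by omega) ⟨q₃, rfl, by omega⟩
            have hcl₃ : ∀ t ∈ q₃ :: L₃, BrOkL p.b p.l Kl g t := fun t ht => hcl t (by
              simp only [List.mem_cons] at ht ⊢
              tauto)
            have hsz₃ : ∀ t ∈ q₃ :: L₃, t.1.size + t.2.size + 1 ≤ szS (q₃ :: L₃) := by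
              intro t ht
              unfold szS
              exact List.single_le_sum (by simp) _ (List.mem_map.2 ⟨t, ht, rfl⟩)
            have hF := chF_fok (b := p.b) (l := szS (q₃ :: L₃)) (B := szS (q₃ :: L₃)) q₃ L₃ (fun t ht => by
              have h6 := hsz₃ t ht
              exact ⟨fok_of_deg (hcl₃ t ht).1.1.1 (hcl₃ t ht).1.1.2.1 (by omega),
                fok_of_deg (hcl₃ t ht).2.1.1.1 (hcl₃ t ht).2.1.1.2.1 (by omega)⟩) (fun t ht => size_le_szS ht)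
            have hc₂' : c₂ ≤ P₂.card := by
              have : (0 : ℝ) ≤ 8 * szS (q₃ :: L₃) := by positivity
              linarith
            have h4 : 4 * ((h : ℝ) + 1) / γ ≤ P₂.card := by
              have : (0 : ℝ) ≤ mh := Nat.cast_nonneg _
              linarith
            have hmhP : mh ≤ P₂.card := by
              have h5 : 0 ≤ 4 * ((h : ℝ) + 1) / γ := by positivity
              have h6 : (mh : ℝ) ≤ P₂.card := by linarith
              exact_mod_cast h6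
            have hIn := hOkL A hAY (hYA.trans (mul_le_mul_of_nonneg_right hεs2 (Nat.cast_nonneg _))) P₂ hPA hmhP (by
              intro F hF
              exact le_trans (mul_le_mul_of_nonneg_right (sub_le_sub_left hεs1 _) (Nat.cast_nonneg _)) (hRep F hF))
              (chF q₃ L₃) hF.1 hF.2.1 (by
                have h5 := chF_size q₃ L₃
                have h6 : ((chF q₃ L₃).size : ℝ) + 1 = szS (q₃ :: L₃) := by exact_mod_cast h5
                rw [h6]
                have h7 : 1 / 2 * (P₂.card : ℝ) ≤ (1 - 8 * η) * P₂.card :=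
                  mul_le_mul_of_nonneg_right (by linarith) (Nat.cast_nonneg _)
                linarith) (by
                have h5 : blk (chF q₃ L₃) ≤ h := (blk_chF q₃ L₃ (hcl₃ q₃ List.mem_cons_self).2.2.2).trans hq₃
                have h6 : (blk (chF q₃ L₃) : ℝ) ≤ h := by exact_mod_cast h5
                rw [div_le_iff₀ hγ] at h4
                linarith)
            obtain ⟨y, hy, hRy, B, hB, hyB, hE⟩ := embS_of_in q₃ L₃ hIn
            refine ⟨insert y B, insert_subset hy hB, ?_, Or.inr ⟨y, mem_insert_self _ _, hRy, B, subset_insert _ _, hyB,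
              hE⟩⟩
            rw [card_insert_of_notMem hyB]
            exact hE.card
        have hst3 := hst S₃ hS₃P
        obtain ⟨Z, hZ⟩ : ∃ Z, Z = {v, z} ∪ (T₁ ∪ T₂ ∪ S₃) ∪ (S₁ ∪ S₂) := ⟨_, rfl⟩
        rw [← hZ] at hst3
        have hZc : Z.card ≤ 2 + (q₁.2.size + (ofT Lr).size + szS L₂) + (q₁.1.size + q₂.1.size) := by
          rw [hZ, ← e2.card, ← e4.card, ← hS₃c, ← e1.card, ← e3.card]
          refine (card_union_le _ _).trans (Nat.add_le_add ((card_union_le _ _).trans (Nat.add_le_add card_le_two ?_))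
            (card_union_le _ _))
          exact (card_union_le _ _).trans (Nat.add_le_add_right (card_union_le _ _) _)
        have hYZ := le_card_sdiff Z Y
        obtain ⟨x, hx, B, hB, hxB, hzx, hEB⟩ := hEE1 hT a.2 (by rw [q1, q2]; exact haF) (Y \ Z) (R z) (by
          have h1 : CE1 ≤ ⌈CE1⌉₊ := Nat.le_ceil _
          have h2 : a.2.size + 1 + ⌈CE1⌉₊ ≤ (Y \ Z).card := by omega
          have h3 : (a.2.size : ℝ) + 1 + ⌈CE1⌉₊ ≤ (Y \ Z).card := by exact_mod_cast h2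
          linarith) (hst3.cl hT hp₁ (by rw [q5]; exact q7) a.2)
        have hxZ : ∀ u ∈ insert x B, u ∈ Y ∧ u ∉ Z := by
          intro u hu
          rw [mem_insert] at hu
          rcases hu with rfl | hu
          · exact mem_sdiff.1 hx
          · exact mem_sdiff.1 (hB hu)
        have hZm : ∀ u, u ∈ Z ↔ u = v ∨ u = z ∨ u ∈ T₁ ∨ u ∈ T₂ ∨ u ∈ S₃ ∨ u ∈ S₁ ∨ u ∈ S₂ := by
          intro u
          rw [hZ]
          simp only [mem_union, mem_insert, mem_singleton]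
          tauto
        have hdB : ∀ E : Finset T, E ⊆ Z → Disjoint (insert x B) E := by
          intro E hE
          rw [disjoint_left]
          exact fun u hu hu' => (hxZ u hu).2 (hE hu')
        have zT₁ : T₁ ⊆ Z := fun u hu => (hZm u).2 (by tauto)
        have zT₂ : T₂ ⊆ Z := fun u hu => (hZm u).2 (by tauto)
        have zS₁ : S₁ ⊆ Z := fun u hu => (hZm u).2 (by tauto)
        have zS₂ : S₂ ⊆ Z := fun u hu => (hZm u).2 (by tauto)
        have zS₃ : S₃ ⊆ Z := fun u hu => (hZm u).2 (by tauto)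
        have hfull := emb_join hperm ha1 hzx hxB hEB e4 (hdB T₂ zT₂)
        rw [disjoint_union_left, disjoint_union_right, disjoint_union_right] at d3
        obtain ⟨⟨f1, f2⟩, f3, f4⟩ := d3
        simp only [mem_union, not_or] at hv' hz'
        have hP3 : Disjoint (S₁ ∪ S₂ ∪ (T₁ ∪ T₂)) S₃ := (hP₂d.mono_left hS₃P).symm
        rw [disjoint_union_left, disjoint_union_left, disjoint_union_left] at hP3
        obtain ⟨⟨g1, g2⟩, g3, g4⟩ := hP3
        have hvx : v ∉ insert x B := fun h => (hxZ v h).2 ((hZm v).2 (Or.inl rfl))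
        have hzx' : z ∉ insert x B := fun h => (hxZ z h).2 ((hZm z).2 (Or.inr (Or.inl rfl)))
        refine InS.cons2 (X' := S₃) (mem_union_left _ hv) (mem_union_left _ hz) hNv hvz hne e1 e2 e3 hfull f1 ?_ ?_ ?_ ?_
          ?_ ?_ (fun h => hvP (hS₃P h)) (fun h => hzP (hS₃P h)) ?_ hS₃
        · exact disjoint_union_right.2 ⟨(hdB S₂ zS₂).symm, f4⟩
        · rw [disjoint_union_left, disjoint_union_right, disjoint_union_right, disjoint_union_right,
            disjoint_union_right]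
          exact ⟨⟨d1, (hdB S₁ zS₁).symm, f2⟩, f3.symm, (hdB T₁ zT₁).symm, d2⟩
        · simp only [mem_union, not_or]
          exact ⟨⟨hv'.1.1, hv'.2.1⟩, hv'.1.2, hvx, hv'.2.2⟩
        · simp only [mem_union, not_or]
          exact ⟨⟨hz'.1.1, hz'.2.1⟩, hz'.1.2, hzx', hz'.2.2⟩
        · intro u hu
          simp only [mem_union] at hu
          rcases hu with (h | h) | h | h | h
          · exact k1 h
          · exact mem_union_left _ (k3 h)
          · exact k2 h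
          · exact mem_union_left _ (hxZ u h).1
          · exact mem_union_left _ (k4 h)
        · exact (hS₃P.trans hP₂Y).trans subset_union_left
        · rw [disjoint_union_left, disjoint_union_left, disjoint_union_left, disjoint_union_left]
          exact ⟨⟨g1, g3⟩, g2, hdB S₃ zS₃, g4⟩
    · push Not at hb
      have hd2 : (q₂.2.size : ℝ) ≤ K * (szS L₂ + 1) := by exact_mod_cast hb.le
      have hsize : (q₁.2.size + q₂.2.size : ℝ) + 0 ≤ (1 - 2 * ω) * Y.card := by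
        refine arith_d (D := D₀) (K := K) (t := szS L₂) (h := h) (Cc := C) (W := W) hωD hω0.le (by linarith)
          (by exact_mod_cast hD₂) hd2 hd1' (Nat.cast_nonneg _) (Nat.cast_nonneg _) (Nat.cast_nonneg _)
          (Nat.cast_nonneg _) (Nat.cast_nonneg _) ?_ ?_
        · exact_mod_cast (by omega : q₁.2.size + q₂.2.size + szS L₂ + C ≤ Y.card + W)
        · exact_mod_cast (by omega : W + (K * (h + 2) + (K + 1) * K) ≤ C)
      rcases gen (fun _ => ∅) 0 (by simp) le_rfl q₁.1 q₁.2 q₂.1 q₂.2 (by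
        rintro F (rfl | rfl | rfl | rfl)
        · exact ⟨o1, o3⟩
        · exact ⟨o2, o4⟩
        · exact ⟨u1, u3⟩
        · exact ⟨u2, u4⟩) hq₁ hq₂ hsize with g | g
      · right
        left
        obtain ⟨z, hz, hNz, S, T', e1, e2, e3, e4, e5, e6, e7, e8⟩ := g
        exact nxt_one (by simp) hSt.disj hlow hcard hz hNz e1 e2 e3 e4 e5 e6 e7 e8
      · obtain ⟨v, hv, z, hz, hNv, hvz, hzG, S₁, T₁, S₂, T₂, P₂, e1, e2, e3, e4, k1, k2, k3, k4, d1, d2, d3, hv', hz',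
          -, hst⟩ := g
        have hne : v ≠ z := fun e => hT.irr z (by rw [e] at hvz; exact hvz)
        cases L₂ with
        | nil =>
          left
          rw [disjoint_union_left, disjoint_union_right, disjoint_union_right] at d3
          obtain ⟨⟨f1, f2⟩, f3, f4⟩ := d3
          simp only [mem_union, not_or] at hv' hz'
          refine InS.cons2 (X' := ∅) (mem_union_left _ hv) (mem_union_left _ hz) hNv hvz hne e1 e2 e3 e4 f1 f4 ?_ ?_ ?_
            ?_ (by simp) (by simp) (by simp) (by simp) (Or.inl rfl)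
          · rw [disjoint_union_left, disjoint_union_right, disjoint_union_right]
            exact ⟨⟨d1, f2⟩, f3.symm, d2⟩
          · simp only [mem_union, not_or]
            exact ⟨⟨hv'.1.1, hv'.2.1⟩, hv'.1.2, hv'.2.2⟩
          · simp only [mem_union, not_or]
            exact ⟨⟨hz'.1.1, hz'.2.1⟩, hz'.1.2, hz'.2.2⟩
          · intro u hu
            simp only [mem_union] at hu
            rcases hu with (h | h) | h | h
            · exact k1 h
            · exact mem_union_left _ (k3 h)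
            · exact k2 h
            · exact mem_union_left _ (k4 h)
        | cons q₃ L₃ =>
          right
          right
          exact nxt_two (by simp) hSt.disj hlow hcard hv hz hNv hvz hne e1 e2 e3 e4 k1 k2 k3 k4 d1 d2 d3 hv' hz'
            (hst ∅ (empty_subset _))

/-- **The tame rounds** -/
theorem tameRLall (b l : ℕ) (hb : 1 ≤ b) : ∃ D₁ : ℕ, ∀ D₀, D₁ ≤ D₀ → ∀ ω c η η₁ κ₀ κ₁ κ γ₀ τ s σ₂ μ : ℝ,
    KB D₀ ω c η η₁ κ₀ κ₁ κ γ₀ τ s σ₂ μ → ∃ Kl g : ℕ, TameRL b l Kl g κ η s := by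
  obtain ⟨p, hp, hpb, hpl, hab, hB2⟩ := exists_npL b l hb
  subst hpb hpl
  have h64 := hp.D₀
  obtain ⟨ωF, cF, ηF, η₁F, κ₀F, κ₁F, κF, γF, τF, sF, σF, μF, PF⟩ := exists_KB (D := 2 * p.A) (by omega)
  obtain ⟨hω0, hω1, hc0, hc1, hη0, hη1, hη₁0, hη₁1, hκ₀0, hκ₁0, hκ₁1, hκ0, hκ1, hs0, hγ₀0, hτ0, hσ₂0, hμ0, hκ₁η, hκs⟩ :=
    PF.num
  have hcη : cF * ηF ≤ 1 * ηF := mul_le_mul_of_nonneg_right (by linarith) hη0.le
  obtain ⟨gl, el, ul, ml, hgl, hel, hul, hLi⟩ := itX_one p.b hp.hb hκ0 (by linarith) hη0 (by linarith)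
  obtain ⟨KlF, hKl0, hKl4⟩ := exists_KL p.b p.e hgl hω0
  obtain ⟨K, hK, hA⟩ := finASL p hp hab hB2 le_rfl PF hgl hel hul hLi hKl0 hKl4
  have hκF : 0 < κF := hκ0
  refine ⟨2 * p.A + 2 * p.b * (K + 2) + 2 * ((K + 1) * K + K), ?_⟩
  intro D₀ hD ω c η η₁ κ₀ κ₁ κ γ₀ τ s σ₂ μ P
  refine tameRL_of p hp hab hB2 hκF (K := K) (KlF := KlF) hA hK (by omega) (by omega) (by omega) P ?_
  have h1 : (0 : ℝ) < 2 * p.A := by
    have : 0 < p.A := by omega
    positivity
  have h2 : (2 * p.A : ℝ) ≤ D₀ := by exact_mod_cast (by omega : 2 * p.A ≤ D₀)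
  have h3 : ω ≤ ωF := by
    rw [P.hω, PF.hω]
    push_cast
    apply one_div_le_one_div_of_le (by positivity)
    linarith
  rw [P.hη, PF.hη]
  linarith

end AET
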