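import Pool.Agent.AET.GlueQ
import Pool.Agent.AET.SplitML
import Pool.Agent.AET.TameRL
import Pool.Agent.AET.ClLinML
import Pool.Agent.AET.ClSmML
import Pool.Agent.AET.FinBothML
import Pool.Agent.AET.FinInML
import Pool.Agent.AET.FinOutML

/-!
# Light branches along a path: all rounds together
-/

set_option autoImplicit false

namespace AET

open Finset Relation AE15 AED AEB AEG

/-- **The coded statement of the class M2 with light branches** -/
theorem codIIL (b l B N : ℕ) (hb : 1 ≤ b) : ∃ Kl g C : ℕ, CodIIL b l B N Kl g C := by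
  obtain ⟨p, hp, rfl, rfl, hab, hB2⟩ := exists_npL b l hb
  refine codIIL_of (tameRLall p.b p.l hb) (fun ζ δ hζ hδ => ?_) (fun δ hδ => clSmL p.b p.l B (2 * (N + 6)) hb (by omega) hδ)
    (finBothL p.b p.l B (2 * (N + 6)) hb (by omega)) (fin_inL p.b p.l B (2 * (N + 6)) hb) (finOutL p.b p.l B (2 * (N + 6)) hb)
  obtain ⟨D₁, h⟩ := clLinL p hp hab hB2 B (2 * (N + 6)) (by omega) hζ hδ
  exact ⟨D₁, fun D₀ hD ω c η η₁ κ₀ κ₁ κ γ₀ τ s σ₂ μ P => h D₀ hD P⟩

/-- **Oriented trees with light branches along a path, one class** -/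
theorem mainM2L : ∀ Δ l B N : ℕ, ∃ K g C : ℕ,
    ∀ k n : ℕ, k + C ≤ n → ∀ R : Fin n → Fin n → Prop,
    (∀ a, ¬ R a a) → (∀ a b, a ≠ b → R a b ∨ R b a) → (∀ a b, R a b → ¬ R b a) →
    ∀ E : Fin (k + 1) → Fin (k + 1) → Prop,
      (∀ a b, E a b → ¬ E b a) →
      (SimpleGraph.fromRel E).IsTree →
      (∀ v, ((SimpleGraph.fromRel E).neighborSet v).ncard ≤ Δ) →
      (∃ (m : ℕ) (p : ℕ → Fin (k + 1)) (h : Fin (k + 1) → Fin (k + 1)), (∀ i < m, E (p i) (p (i + 1))) ∧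
        MainChild (SimpleGraph.fromRel E) (p 0) h ∧
        LightRunsP l K g E (SimpleGraph.fromRel E) m p h ∧
        LightRunsP l K g (fun a b => E b a) (SimpleGraph.fromRel E) m p h ∧
        (∀ i ≤ m, B < {x | ∃ u, E u (p i) ∧ (∀ t ≤ m, u ≠ p t) ∧
            (SimpleGraph.fromRel E).dist (p i) x = (SimpleGraph.fromRel E).dist u x + 1}.ncard →
          (N ≤ i → ∃ j, i ≤ j + N ∧ j + 6 ≤ i ∧ ∀ s < 6, {x | ∃ u, (E (p (j + s)) u ∨ E u (p (j + s))) ∧
            (∀ t ≤ m, u ≠ p t) ∧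
            (SimpleGraph.fromRel E).dist (p (j + s)) x = (SimpleGraph.fromRel E).dist u x + 1}.ncard ≤ B) ∧
          (i + N ≤ m → ∃ j, i < j ∧ j + 6 ≤ i + 1 + N ∧ ∀ s < 6, {x | ∃ u, (E (p (j + s)) u ∨ E u (p (j + s))) ∧
            (∀ t ≤ m, u ≠ p t) ∧
            (SimpleGraph.fromRel E).dist (p (j + s)) x = (SimpleGraph.fromRel E).dist u x + 1}.ncard ≤ B))) →
      ∃ f : Fin (k + 1) → Fin n, Function.Injective f ∧ ∀ a b, E a b → R (f a) (f b) :=
  mainM2L_of codIIL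

end AET
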