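import Pool.Agent.AET.CfgDL

/-!
# Light branches: big exact rounds
-/

namespace AET

open Finset AE15 AED AEB
open scoped Classical

/-- bounds for `NP.ub` -/
private theorem ub_le (p : NP) (F : Fd) : p.ub F ≤ p.u0 + p.g := by
  unfold NP.ub
  split_ifs <;> omega

private theorem le_ub (p : NP) (F : Fd) : p.u0 ≤ p.ub F := by
  unfold NP.ub
  split_ifs <;> omega

/-! the arithmetic of the big rounds -/

private theorem ar_covA {p : NP} (hp : p.OK) {e i u m' a b : ℕ} (h1 : e ≤ u + p.g) (h2 : u ≤ p.u0 + p.g)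
    (h3 : p.A0 ≤ i) (h4 : i ≤ a) (h5 : b + a = e) (h6 : p.u0 ≤ m') : b ≤ m' := by
  have := hp.hA0
  omega

private theorem ar_wx {p : NP} (hp : p.OK) {i t : ℕ} (h : p.cx ≤ i) (ht : t ≤ 1) : 2 ^ p.a + t ≤ i := by
  have := hp.hcx
  omega

private theorem ar_wv {p : NP} (hp : p.OK) {u h w i : ℕ} (h1 : u ≤ h + w) (h2 : h ≤ 2 * p.a * p.a) (h3 : w ≤ p.a)
    (h4 : p.c ≤ i) : 2 ^ p.a + u ≤ i := by
  have := hp.hc
  have h5 : 2 * p.a * p.a = 2 * p.a ^ 2 := by ring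
  omega

private theorem ar_W {p : NP} (hp : p.OK) {u b i : ℕ} (h1 : u ≤ 2 * p.a) (h2 : p.M0 ≤ b) (h3 : b ≤ i + 2 * p.cx) :
    2 ^ (p.A0 + p.a) + u ≤ i := by
  have := hp.hM0
  rw [pow_succ] at this
  omega

private theorem ar_e1 {p : NP} (hp : p.OK) {z : ℕ} (h : z ≤ p.a + (p.A0 + p.a)) : z + 1 ≤ p.e := by
  have := hp.he
  omega

private theorem ar_e2 {p : NP} (hp : p.OK) {z w v u : ℕ} (h1 : w ≤ p.a) (h2 : v ≤ p.a) (h3 : u ≤ p.A0 + p.a)
    (h : z ≤ w + (v + u) + 1) : z + 1 ≤ p.e := by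
  have := hp.he
  omega

private theorem ar_m {p : NP} (hp : p.OK) {b u : ℕ} (h1 : ¬ p.M0 ≤ b) (h2 : p.u0 ≤ u) : b ≤ u := by
  have := hp.hu0
  omega

/-- the vertices used with absorption at the root of the host -/
private theorem sub_v {V : Type*} {x : V} {w wv w₂ Z₁ Z₂ : Finset V} (g : Z₁ ⊆ w) (q : Z₂ ⊆ wv ∪ w₂ ∪ insert x Z₁) :
    Z₂ ⊆ insert x (w ∪ (wv ∪ w₂)) := by
  intro z hz
  have h := q hz
  simp only [mem_union, mem_insert] at h ⊢
  rcases h with (h | h) | h | h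
  · exact Or.inr (Or.inr (Or.inl h))
  · exact Or.inr (Or.inr (Or.inr h))
  · exact Or.inl h
  · exact Or.inr (Or.inl (g h))

/-- the vertices used with absorption at `x` -/
private theorem sub_x {V : Type*} {x : V} {w wv w₂ Z₁ Z₂ : Finset V} (g : Z₁ ⊆ w ∪ w₂) (q : Z₂ ⊆ wv ∪ insert x Z₁) :
    Z₂ ⊆ insert x (w ∪ (wv ∪ w₂)) := by
  intro z hz
  have h := q hz
  simp only [mem_union, mem_insert] at h ⊢
  rcases h with h | h | h
  · exact Or.inr (Or.inr (Or.inl h))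
  · exact Or.inl h
  · rcases mem_union.1 (g h) with h | h
    · exact Or.inr (Or.inl h)
    · exact Or.inr (Or.inr (Or.inr h))

private theorem mem_of_sub {V : Type*} {x : V} {w wv : List V} {T W Z₂ : Finset V} (hW : ∀ z ∈ T, z ∈ W)
    (q : Z₂ ⊆ insert x (w.toFinset ∪ (wv.toFinset ∪ T))) : ∀ z ∈ Z₂, z = x ∨ z ∈ w ∨ z ∈ wv ∨ z ∈ W := by
  intro z hz
  have h := q hz
  simp only [mem_union, mem_insert, List.mem_toFinset] at h
  rcases h with h | h | h | h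
  · exact Or.inl h
  · exact Or.inr (Or.inl h)
  · exact Or.inr (Or.inr (Or.inl h))
  · exact Or.inr (Or.inr (Or.inr (hW z h)))

theorem cfg_big (p : NP) (hp : p.OK) (hab : ab p.b p.l ≤ p.a) (hB2 : (2 * p.b) ^ p.A0 ≤ p.B) {γ₀ s : ℝ} (hγ : 0 < γ₀) (_hs : 0 < s) :
    ∃ n₀ : ℕ, ∀ {V : Type} {R : V → V → Prop} {Gd : V → Prop} {Y X G : Finset V} {N : V → Prop}, n₀ ≤ X.card →
      X ⊆ Y → St R p Gd γ₀ s X G N → ∀ {K M : ℕ}, K * p.a ≤ M → ∀ {F c c' : Fd}, FOL p.b p.l K 0 F →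
      F.size + 1 ≤ M → F.hv = some (true, c) →
      c.hv = some (true, c') → (Big p.B F ∨ Big p.B c) → ClBU R Gd s p (p.ub F) Y X N →
      ∃ y₀ x Z L D₁, (D₁ = c ∨ D₁ = c') ∧ HostUQ (Qi K p.b M) R p Gd Y X N F y₀ x Z L D₁ ∧
        Cov R p (γ₀ / 16) X G (insert y₀ Z) x (p.ub D₁) := by
  obtain ⟨n₁, hn₁⟩ := big_setup (s := s) p hp hγ
  obtain ⟨n₂, hn₂⟩ := cov_big p hp hγ
  refine ⟨max n₁ n₂, ?_⟩
  intro V R Gd Y X G N hX hXY hSt K M hKa F c c' hF hM₀ hvF hvc hBig hCl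
  have hub : p.ub F ≤ p.u0 + p.g := ub_le p F
  have hub0 : ∀ D : Fd, p.u0 ≤ p.ub D := le_ub p
  obtain ⟨Z, Exc, Bad, W, m, x, hS⟩ := hn₁ ((le_max_left _ _).trans hX) hSt hub hCl
  obtain ⟨hT, hG, hGd, hGc, hGo, hD⟩ := hSt
  have hX2 : n₂ ≤ X.card := (le_max_right _ _).trans hX
  have hc : FOL p.b p.l K 0 c := hF.heavy hvF
  have hbF : blk F ≤ p.a := Nat.le_of_succ_le (hF.blk_lt_a (Nat.zero_le _) hab)
  have hbc : blk c ≤ p.a := Nat.le_of_succ_le (hc.blk_lt_a (Nat.zero_le _) hab)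
  have hb1 := hp.hb
  have hMc : c.size + 1 ≤ M := (Nat.succ_le_of_lt (size_lt_of_mem (hv_mem hvF))).trans (Nat.le_of_succ_le hM₀)
  have hQF : OutB (Qi K p.b M) F := hF.outB (Nat.zero_le _) hab hKa hM₀
  have hQc : OutB (Qi K p.b M) c := hc.outB (Nat.zero_le _) hab hKa hMc
  have hxG := (mem_sdiff.1 hS.xd.hx).1
  have hxX := hG hxG
  obtain ⟨H, hHc, hHx, hH⟩ := harm hT hS.xd p.a
  have p11 := hS.excc
  -- coverage after absorption
  have covA : ∀ E T : Finset V, E ∩ nO R (G \ Z) x ⊆ T → T.card ≤ p.a → (∀ z ∈ T, z ∉ H) → ∀ W₂ : Finset V, W₂ ⊆ W →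
      p.A0 ≤ (E ∩ W₂).card → ∀ m', p.u0 ≤ m' → Cov R p (γ₀ / 16) X G E x m' := by
    intro E T h1 h2 h3 W₂ h4 h5 m' h6
    refine hn₂ hT hX2 hG hS.xd hGc hS.hm hS.zc hS.lam hS.zexc h1 h2 ?_ m' (Exc \ E) ?_ ?_
    · intro u hu huZ hux huc
      rw [disjoint_left]
      intro z hz hzT
      exact h3 z hzT (hH u hu huZ hux huc hz)
    · have h7 : E ∩ W₂ ⊆ Exc ∩ E := by
        intro z hz
        rw [mem_inter] at hz ⊢
        exact ⟨hS.wE (h4 hz.2), hz.1⟩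
      exact ar_covA hp p11 hub h5 (card_le_card h7) (card_sdiff_add_card_inter Exc E) h6
    · intro u hu huE _ huU
      exact absurd (mem_sdiff.2 ⟨hu, huE⟩) huU
  -- coverage without absorption
  have covN : ∀ E T : Finset V, E ∩ nO R (G \ Z) x ⊆ T → T.card ≤ p.a → (∀ z ∈ T, z ∉ H) →
      ∀ m', Bad.card ≤ m' → Cov R p (γ₀ / 16) X G E x m' := by
    intro E T h1 h2 h3 m' h6
    refine hn₂ hT hX2 hG hS.xd hGc hS.hm hS.zc hS.lam hS.zexc h1 h2 ?_ m' Bad h6 ?_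
    · intro u hu huZ hux huc
      rw [disjoint_left]
      intro z hz hzT
      exact h3 z hzT (hH u hu huZ hux huc hz)
    · intro u hu huE hux huU
      exact hS.bad u hu hux huU
  by_cases hNx : N x
  · -- the root is hosted at `x`
    obtain ⟨w, hw1, hw2, hw3⟩ := exists_tl_avoid hT p.a (nI R G x) ∅ (ar_wx hp hS.cx (Nat.zero_le 1))
    have hwx : ∀ z ∈ w, R z x := fun z hz => (mem_nI.1 (hw2 z hz).1).2
    have hwG : ∀ z ∈ w, z ∈ G := fun z hz => (mem_nI.1 (hw2 z hz).1).1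
    have hwc : w.toFinset.card ≤ p.a := (List.toFinset_card_le w).trans hw1.le
    have hcap : ∀ Z₁ : Finset V, (∀ z ∈ Z₁, R z x) → insert x Z₁ ∩ nO R (G \ Z) x ⊆ ∅ := by
      intro Z₁ h z hz
      rw [mem_inter, mem_insert, mem_nO] at hz
      rcases hz.1 with h1 | h1
      · exact absurd (h1 ▸ hz.2.2) (hT.irr _)
      · exact absurd (h z h1) (hT.asym _ _ hz.2.2)
    have hhost : ∀ (Z₁ : Finset V) (L : List (V × Fd)), PE R F x Z₁ L → (∀ z ∈ Z₁, R z x) → Z₁ ⊆ G → Z₁.card + 1 ≤ p.e →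
        (∀ c, (true, c) ∈ F.trees → (x, c) ∈ L) → (∀ q ∈ L, Qi K p.b M q.2) →
        HostUQ (Qi K p.b M) R p Gd Y X N F x x Z₁ L c := by
      intro Z₁ L h1 h2 h3 h4 h5 hq
      refine ⟨⟨hxX, hxX, hNx, fun h => hT.irr _ (h2 x h), (h3.trans hG).trans hXY, h1, h4, Or.inl rfl, h5 c (hv_mem hvF),
        ?_⟩, hq⟩
      intro i hi
      rcases (PE.host h1 i hi).1 with h6 | h6
      · rw [h6]; exact hGd x hxG
      · exact hGd _ (h3 h6)
    by_cases hA : Big p.B F ∧ p.M0 ≤ Bad.card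
    · obtain ⟨⟨t, ht, htB⟩, hM⟩ := hA
      obtain ⟨w₂, k1, k2, k3⟩ := exists_tl_avoid hT (p.A0 + p.a) W w.toFinset
        (ar_W hp (hwc.trans (Nat.le_mul_of_pos_left _ Nat.two_pos)) hM hS.wc)
      obtain ⟨Z₁, L, g1, g2, g3, g4, hq⟩ := pe_absorb hT hb1 hKa hF hM₀ (Nat.zero_le _) hab ht
        (hB2.trans htB) x w w₂ hw3 k3
        hwx (fun z hz => hS.wx z (k2 z hz).1) (fun z hz hz2 => (k2 z hz2).2 (mem_w.2 hz)) (hbF.trans hw1.ge) k1.ge
      have hZ1 : ∀ z ∈ Z₁, R z x ∧ z ∈ G := by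
        intro z hz
        rcases mem_union.1 (g2 hz) with h | h
        · exact ⟨hwx z (mem_w.1 h), hwG z (mem_w.1 h)⟩
        · exact ⟨hS.wx z (k2 z (mem_w.1 h)).1, hS.wG (k2 z (mem_w.1 h)).1⟩
      have hZc : Z₁.card ≤ p.a + (p.A0 + p.a) := by
        refine (card_le_card g2).trans ((card_union_le _ _).trans (add_le_add hwc ?_))
        exact (List.toFinset_card_le w₂).trans k1.le
      refine ⟨x, x, Z₁, L, c, Or.inl rfl, hhost Z₁ L g1 (fun z hz => (hZ1 z hz).1) (fun z hz => (hZ1 z hz).2)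
        (ar_e1 hp hZc) g4 hq, ?_⟩
      refine covA _ ∅ (hcap Z₁ (fun z hz => (hZ1 z hz).1)) (by simp) (by simp) w₂.toFinset
        (fun z hz => (k2 z (mem_w.1 hz)).1) (g3.trans (card_le_card ?_)) _ (hub0 c)
      exact inter_subset_inter_right (subset_insert _ _)
    · obtain ⟨Z₁, L, g1, g2, g3, hq⟩ := pe_block hT F hQF x w hw3 hwx (hbF.trans hw1.ge)
      have hZ1 : ∀ z ∈ Z₁, R z x ∧ z ∈ G := fun z hz => ⟨hwx z (mem_w.1 (g2 hz)), hwG z (mem_w.1 (g2 hz))⟩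
      have hZc : Z₁.card ≤ p.a := (card_le_card g2).trans hwc
      refine ⟨x, x, Z₁, L, c, Or.inl rfl, hhost Z₁ L g1 (fun z hz => (hZ1 z hz).1) (fun z hz => (hZ1 z hz).2)
        (ar_e1 hp (hZc.trans (Nat.le_add_right _ _))) g3 hq, ?_⟩
      refine covN _ ∅ (hcap Z₁ (fun z hz => (hZ1 z hz).1)) (by simp) (by simp) _ ?_
      by_cases hBF : Big p.B F
      · exact ar_m hp (fun h => hA ⟨hBF, h⟩) (hub0 c)
      · have h1 : p.ub F = p.u0 := if_neg hBF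
        have h2 : p.ub c = p.u0 + p.g := if_pos (hBig.resolve_left hBF)
        rw [h1] at p11
        rw [h2]
        exact (card_le_card hS.badE).trans p11
  · -- the root is hosted at `v`
    obtain ⟨v, hvX, hNv, hvx, hvs⟩ := hS.str hNx
    have hvne : v ≠ x := fun e => hT.irr _ (e ▸ hvx)
    obtain ⟨w, hw1, hw2, hw3⟩ := exists_tl_avoid hT p.a (nI R G x) {v}
      (ar_wx hp hS.cx (card_singleton v).le)
    have hwx : ∀ z ∈ w, R z x := fun z hz => (mem_nI.1 (hw2 z hz).1).2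
    have hwG : ∀ z ∈ w, z ∈ G := fun z hz => (mem_nI.1 (hw2 z hz).1).1
    have hwv : ∀ z ∈ w, z ≠ v := fun z hz => by simpa using (hw2 z hz).2
    have hwc : w.toFinset.card ≤ p.a := (List.toFinset_card_le w).trans hw1.le
    obtain ⟨wv, hv1, hv2, hv3⟩ := exists_tl_avoid hT p.a (nI R (Y.filter Gd) v) (H ∪ w.toFinset)
      (ar_wv hp (card_union_le H w.toFinset) hHc hwc hvs.2)
    have hvv : ∀ z ∈ wv, R z v := fun z hz => (mem_nI.1 (hv2 z hz).1).2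
    have hvXG : ∀ z ∈ wv, z ∈ Y ∧ Gd z := fun z hz => mem_filter.1 (mem_nI.1 (hv2 z hz).1).1
    have hvH : ∀ z ∈ wv, z ∉ H := fun z hz h => (hv2 z hz).2 (mem_union_left _ h)
    have hvw : ∀ z ∈ wv, z ∉ w := fun z hz h => (hv2 z hz).2 (mem_union_right _ (mem_w.2 h))
    have hvxne : ∀ z ∈ wv, z ≠ x := fun z hz e => hT.asym _ _ hvx (e ▸ hvv z hz)
    have hwvc : wv.toFinset.card ≤ p.a := (List.toFinset_card_le wv).trans hv1.le
    have hWv : ∀ z ∈ W, R z v := fun z hz => hS.ws z hz v hvX hNv hvs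
    have hhost : ∀ (Z₁ : Finset V) (L : List (V × Fd)), PE R F v Z₁ L →
        (∀ z ∈ Z₁, z = x ∨ z ∈ w ∨ z ∈ wv ∨ z ∈ W) → x ∈ Z₁ → Z₁.card + 1 ≤ p.e → (x, c') ∈ L →
        (∀ q ∈ L, Qi K p.b M q.2) → HostUQ (Qi K p.b M) R p Gd Y X N F v x Z₁ L c' := by
      intro Z₁ L h1 h2 h3 h4 h5 hq
      have h6 : ∀ z ∈ Z₁, z ∈ Y ∧ Gd z ∧ z ≠ v := by
        intro z hz
        rcases h2 z hz with h | h | h | h
        · rw [h]; exact ⟨hXY hxX, hGd x hxG, hvne.symm⟩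
        · exact ⟨hXY (hG (hwG z h)), hGd z (hwG z h), hwv z h⟩
        · exact ⟨(hvXG z h).1, (hvXG z h).2, fun e => hT.irr _ (e ▸ hvv z h)⟩
        · exact ⟨hXY (hG (hS.wG h)), hGd z (hS.wG h), fun e => hT.irr _ (e ▸ hWv z h)⟩
      refine ⟨⟨hvX, hxX, hNv, fun h => (h6 v h).2.2 rfl, fun z hz => (h6 z hz).1, h1, h4, Or.inr h3, h5, ?_⟩, hq⟩
      intro i hi
      rcases (PE.host h1 i hi).1 with h7 | h7
      · rw [h7]; exact hvs.1.1
      · exact (h6 _ h7).2.1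
    have hcap : ∀ Z₁ : Finset V, (∀ z ∈ Z₁, z = x ∨ z ∈ w ∨ z ∈ wv ∨ z ∈ W) →
        insert v Z₁ ∩ nO R (G \ Z) x ⊆ wv.toFinset := by
      intro Z₁ h2 z hz
      rw [mem_inter, mem_insert, mem_nO] at hz
      rcases hz.1 with h1 | h1
      · exact absurd hvx (hT.asym _ _ (h1 ▸ hz.2.2))
      · rcases h2 z h1 with h | h | h | h
        · exact absurd (h ▸ hz.2.2) (hT.irr _)
        · exact absurd (hwx z h) (hT.asym _ _ hz.2.2)
        · exact mem_w.2 h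
        · exact absurd (hS.wx z h) (hT.asym _ _ hz.2.2)
    have hvH' : ∀ z ∈ wv.toFinset, z ∉ H := fun z hz => hvH z (mem_w.1 hz)
    have hcardZ : ∀ (Z₁ W₂ : Finset V), W₂.card ≤ p.A0 + p.a → Z₁ ⊆ insert x (w.toFinset ∪ (wv.toFinset ∪ W₂)) →
        Z₁.card + 1 ≤ p.e := by
      intro Z₁ W₂ h1 h2
      exact ar_e2 hp hwc hwvc h1 ((card_le_card h2).trans ((card_insert_le _ _).trans (Nat.succ_le_succ
        ((card_union_le _ _).trans (Nat.add_le_add_left (card_union_le _ _) _)))))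
    by_cases hM : p.M0 ≤ Bad.card
    · obtain ⟨w₂, k1, k2, k3⟩ := exists_tl_avoid hT (p.A0 + p.a) W (w.toFinset ∪ wv.toFinset)
        (ar_W hp ((card_union_le _ _).trans ((Nat.add_le_add hwc hwvc).trans (two_mul p.a).ge)) hM hS.wc)
      have k2w : ∀ z ∈ w₂, z ∉ w := fun z hz h => (k2 z hz).2 (mem_union_left _ (mem_w.2 h))
      have k2v : ∀ z ∈ w₂, z ∉ wv := fun z hz h => (k2 z hz).2 (mem_union_right _ (mem_w.2 h))
      have k2c : w₂.toFinset.card ≤ p.A0 + p.a := (List.toFinset_card_le w₂).trans k1.le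
      by_cases hBF : Big p.B F
      · -- absorption at `v`
        obtain ⟨t, ht, htB⟩ := hBF
        obtain ⟨Z₁, L₁, g1, g2, g3, hq₁⟩ := pe_block hT c hQc x w hw3 hwx (hbc.trans hw1.ge)
        have hxZ1 : x ∉ Z₁ := fun h => hT.irr _ (hwx x (mem_w.1 (g2 h)))
        obtain ⟨Z₂, L, q1, q2, q3, q4, q5, hq⟩ := pe_absorb_heavy hT hb1 hKa hF hM₀ (Nat.zero_le _) hab ht
          (hB2.trans htB) hvF v x wv w₂ hv3 k3 hvv (fun z hz => hWv z (k2 z hz).1)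
          (fun z hz hz2 => k2v z hz2 hz) (hbF.trans hv1.ge) k1.ge hvx g1 hq₁ hxZ1
          (fun z hz => ⟨hvxne z hz, fun h => hvw z hz (mem_w.1 (g2 h))⟩)
          (fun z hz => ⟨fun e => hT.irr _ (e ▸ hS.wx z (k2 z hz).1), fun h => k2w z hz (mem_w.1 (g2 h))⟩)
        have hsub : Z₂ ⊆ insert x (w.toFinset ∪ (wv.toFinset ∪ w₂.toFinset)) := sub_v g2 q2
        have hmem : ∀ z ∈ Z₂, z = x ∨ z ∈ w ∨ z ∈ wv ∨ z ∈ W :=
          mem_of_sub (fun z hz => (k2 z (mem_w.1 hz)).1) hsub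
        refine ⟨v, x, Z₂, L, c', Or.inr rfl, hhost Z₂ L q1 hmem (q3 (mem_insert_self _ _)) (hcardZ Z₂ _ k2c hsub)
          (q5 _ (g3 c' (hv_mem hvc))) hq, ?_⟩
        refine covA _ wv.toFinset (hcap Z₂ hmem) hwvc hvH' w₂.toFinset (fun z hz => (k2 z (mem_w.1 hz)).1)
          (q4.trans (card_le_card ?_)) _ (hub0 c')
        exact inter_subset_inter_right (subset_insert _ _)
      · -- absorption at `x`
        obtain ⟨t, ht, htB⟩ := hBig.resolve_left hBF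
        obtain ⟨Z₁, L₁, g1, g2, g3, g4, hq₁⟩ := pe_absorb hT hb1 hKa hc hMc (Nat.zero_le _) hab ht
          (hB2.trans htB) x w w₂ hw3 k3 hwx (fun z hz => hS.wx z (k2 z hz).1) (fun z hz hz2 => k2w z hz2 hz)
          (hbc.trans hw1.ge) k1.ge
        have hZ1 : ∀ z ∈ Z₁, R z x := by
          intro z hz
          rcases mem_union.1 (g2 hz) with h | h
          · exact hwx z (mem_w.1 h)
          · exact hS.wx z (k2 z (mem_w.1 h)).1
        have hxZ1 : x ∉ Z₁ := fun h => hT.irr _ (hZ1 x h)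
        obtain ⟨Z₂, L, q1, q2, q3, q5, hq⟩ := pe_heavy hT hQF hvF v x wv hv3 hvv hvx g1 hq₁ hxZ1
          (fun z hz => ⟨hvxne z hz, fun h => by
            rcases mem_union.1 (g2 h) with h' | h'
            · exact hvw z hz (mem_w.1 h')
            · exact k2v z (mem_w.1 h') hz⟩) (hbF.trans hv1.ge)
        have hsub : Z₂ ⊆ insert x (w.toFinset ∪ (wv.toFinset ∪ w₂.toFinset)) := sub_x g2 q2
        have hmem : ∀ z ∈ Z₂, z = x ∨ z ∈ w ∨ z ∈ wv ∨ z ∈ W :=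
          mem_of_sub (fun z hz => (k2 z (mem_w.1 hz)).1) hsub
        refine ⟨v, x, Z₂, L, c', Or.inr rfl, hhost Z₂ L q1 hmem (q3 (mem_insert_self _ _)) (hcardZ Z₂ _ k2c hsub)
          (q5 _ (g4 c' (hv_mem hvc))) hq, ?_⟩
        refine covA _ wv.toFinset (hcap Z₂ hmem) hwvc hvH' w₂.toFinset (fun z hz => (k2 z (mem_w.1 hz)).1)
          (g3.trans (card_le_card ?_)) _ (hub0 c')
        exact inter_subset_inter_right (((subset_insert _ _).trans q3).trans (subset_insert _ _))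
    · -- no absorption
      obtain ⟨Z₁, L₁, g1, g2, g3, hq₁⟩ := pe_block hT c hQc x w hw3 hwx (hbc.trans hw1.ge)
      have hxZ1 : x ∉ Z₁ := fun h => hT.irr _ (hwx x (mem_w.1 (g2 h)))
      obtain ⟨Z₂, L, q1, q2, q3, q5, hq⟩ := pe_heavy hT hQF hvF v x wv hv3 hvv hvx g1 hq₁ hxZ1
        (fun z hz => ⟨hvxne z hz, fun h => hvw z hz (mem_w.1 (g2 h))⟩) (hbF.trans hv1.ge)
      have hsub : Z₂ ⊆ insert x (w.toFinset ∪ (wv.toFinset ∪ ∅)) := sub_x (g2.trans subset_union_left) q2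
      have hmem : ∀ z ∈ Z₂, z = x ∨ z ∈ w ∨ z ∈ wv ∨ z ∈ W :=
        mem_of_sub (fun z hz => absurd hz (notMem_empty z)) hsub
      refine ⟨v, x, Z₂, L, c', Or.inr rfl, hhost Z₂ L q1 hmem (q3 (mem_insert_self _ _))
        (hcardZ Z₂ ∅ (by simp) hsub) (q5 _ (g3 c' (hv_mem hvc))) hq, ?_⟩
      exact covN _ wv.toFinset (hcap Z₂ hmem) hwvc hvH' _ (ar_m hp hM (hub0 c'))

end AET
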