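import Pool.Agent.AET.AbsorbL

/-!
# Light branches: the dense configurations
-/

namespace AET

open Finset AE15 AED AEB
open scoped Classical

variable {V : Type*} {R : V → V → Prop}

/-- `Host`, with a condition on the pending items -/
def HostQ (Q : Fd → Prop) (R : V → V → Prop) (p : NP) (Gd : V → Prop) (X : Finset V) (N : V → Prop) (F : Fd) (y₀ x : V)
    (Z : Finset V) (L : List (V × Fd)) (D : Fd) : Prop :=
  Host R p Gd X N F y₀ x Z L D ∧ ∀ q ∈ L, Q q.2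

/-- `HostU`, with a condition on the pending items -/
def HostUQ (Q : Fd → Prop) (R : V → V → Prop) (p : NP) (Gd : V → Prop) (Y X : Finset V) (N : V → Prop) (F : Fd)
    (y₀ x : V) (Z : Finset V) (L : List (V × Fd)) (D : Fd) : Prop :=
  HostU R p Gd Y X N F y₀ x Z L D ∧ ∀ q ∈ L, Q q.2

/-- one block, on a list dominating the host of the root -/
private theorem one_block (hT : AE32.Tour R) {p : NP} {Gd : V → Prop} {X G : Finset V} {N : V → Prop} {F D : Fd}
    {Q : Fd → Prop} {B : ℝ} (hQ : OutB Q F) (hb : blk F ≤ p.a) (he : p.a + 1 ≤ p.e) (hD : Turn F D) (v : V) (w : List V)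
    (hw : w.Pairwise R) (hl : w.length = p.a) (hv : ∀ z ∈ w, R z v) (hvX : v ∈ X) (hvN : N v) (hvG : Gd v)
    (hwX : ∀ z ∈ w, z ∈ X ∧ Gd z ∧ B ≤ ((nO R G z).card : ℝ)) :
    ∃ y₀ x Z L, HostQ Q R p Gd X N F y₀ x Z L D ∧ B ≤ ((nO R G x).card : ℝ) := by
  obtain ⟨Z, L, y, h1, h2, h3, h4, hq⟩ := pe_turn hT hD hQ v w hw hv (by omega)
  have hZ : ∀ z ∈ Z, z ∈ w := fun z hz => List.mem_toFinset.1 (h2 hz)
  refine ⟨v, y, Z, L, ⟨⟨hvX, hvN, ?_, fun z hz => (hwX z (hZ z hz)).1, h1, ?_, Or.inr h3, h4, ?_⟩, hq⟩,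
    (hwX y (hZ y h3)).2.2⟩
  · intro hz
    exact hT.irr v (hv v (hZ v hz))
  · have h5 := card_le_card h2
    have h6 := w.toFinset_card_le
    omega
  · intro i hi
    rcases (PE.host h1 i hi).1 with h | h
    · rw [h]
      exact hvG
    · exact (hwX _ (hZ _ h)).2.1

/-- two blocks: the heavy out-child of the root is hosted at `v₁` -/
private theorem two_block (hT : AE32.Tour R) {p : NP} {Gd : V → Prop} {X G : Finset V} {N : V → Prop} {F c D : Fd}
    {Q : Fd → Prop} {B : ℝ} (hQ : OutB Q F) (hQc : OutB Q c) (hb : blk F ≤ p.a) (hbc : blk c ≤ p.a) (he : 2 * p.a + 2 ≤ p.e)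
    (hc : F.hv = some (true, c)) (hD : Turn c D) (v v₁ : V) (w w₁ : List V)
    (hw : w.Pairwise R) (hl : w.length = p.a) (hw₁ : w₁.Pairwise R) (hl₁ : w₁.length = p.a)
    (hv : ∀ z ∈ w, R z v) (hvv : R v v₁) (hv₁ : ∀ z ∈ w₁, R z v₁) (hwv₁ : ∀ z ∈ w, R z v₁)
    (hd : ∀ z ∈ w₁, z ∉ w ∧ z ≠ v)
    (hvX : v ∈ X) (hvN : N v) (hvG : Gd v) (hv₁X : v₁ ∈ X) (hv₁G : Gd v₁) (hwX : ∀ z ∈ w, z ∈ X ∧ Gd z)
    (hw₁X : ∀ z ∈ w₁, z ∈ X ∧ Gd z ∧ B ≤ ((nO R G z).card : ℝ)) :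
    ∃ y₀ x Z L, HostQ Q R p Gd X N F y₀ x Z L D ∧ B ≤ ((nO R G x).card : ℝ) := by
  obtain ⟨Z₁, L₁, y, h1, h2, h3, h4, hq₁⟩ := pe_turn hT hD hQc v₁ w₁ hw₁ hv₁ (by omega)
  have hZ₁ : ∀ z ∈ Z₁, z ∈ w₁ := fun z hz => List.mem_toFinset.1 (h2 hz)
  have hv₁Z : v₁ ∉ Z₁ := fun hz => hT.irr v₁ (hv₁ v₁ (hZ₁ v₁ hz))
  obtain ⟨Z, L, h5, h6, h7, h8, hq⟩ := pe_heavy hT hQ hc v v₁ w hw hv hvv h1 hq₁ hv₁Z
    (fun z hz => ⟨fun e => hT.irr v₁ (hwv₁ v₁ (e ▸ hz)), fun hz' => (hd z (hZ₁ z hz')).1 hz⟩) (by omega)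
  have hZ : ∀ z ∈ Z, z ∈ w ∨ z = v₁ ∨ z ∈ w₁ := by
    intro z hz
    rcases mem_union.1 (h6 hz) with h | h
    · exact Or.inl (List.mem_toFinset.1 h)
    · rcases mem_insert.1 h with h | h
      · exact Or.inr (Or.inl h)
      · exact Or.inr (Or.inr (hZ₁ z h))
  have hZX : ∀ z ∈ Z, z ∈ X ∧ Gd z := by
    intro z hz
    rcases hZ z hz with h | rfl | h
    · exact hwX z h
    · exact ⟨hv₁X, hv₁G⟩
    · exact ⟨(hw₁X z h).1, (hw₁X z h).2.1⟩
  refine ⟨v, y, Z, L, ⟨⟨hvX, hvN, ?_, fun z hz => (hZX z hz).1, h5, ?_, Or.inr (h7 (mem_insert_of_mem h3)),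
    h8 _ h4, ?_⟩, hq⟩, (hw₁X y (hZ₁ y h3)).2.2⟩
  · intro hz
    rcases hZ v hz with h | h | h
    · exact hT.irr v (hv v h)
    · rw [← h] at hvv
      exact hT.irr v hvv
    · exact (hd v h).2 rfl
  · have h9 := card_le_card h6
    have h10 := card_union_le w.toFinset (insert v₁ Z₁)
    have h11 := card_insert_le v₁ Z₁
    have h12 := card_le_card h2
    have h13 := w.toFinset_card_le
    have h14 := w₁.toFinset_card_le
    omega
  · intro i hi
    rcases (PE.host h5 i hi).1 with h | h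
    · rw [h]
      exact hvG
    · exact (hZX _ h).2

/-- splitting a list of length `2 a + 2` -/
private theorem split4 (w : List V) (a : ℕ) (h : w.length = 2 * a + 2) :
    ∃ wa y wb v, w = wa ++ y :: (wb ++ [v]) ∧ wa.length = a ∧ wb.length = a := by
  have h1 : w = w.take a ++ w.drop a := (List.take_append_drop a w).symm
  have h2 : (w.drop a).length = a + 2 := by rw [List.length_drop]; omega
  cases hd : w.drop a with
  | nil => rw [hd] at h2; simp at h2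
  | cons y t =>
    rw [hd] at h2
    simp only [List.length_cons] at h2
    have ht : t ≠ [] := by
      intro e
      rw [e] at h2
      simp at h2
    refine ⟨w.take a, y, t.dropLast, t.getLast ht, ?_, ?_, ?_⟩
    · rw [List.dropLast_append_getLast ht, ← hd]
      exact h1
    · rw [List.length_take]; omega
    · rw [List.length_dropLast]; omega

/-- configurations S', S'' (the final item needs only the dense class) -/
theorem cfg_dense (p : NP) (hp : p.OK) (hab : ab p.b p.l ≤ p.a) {γ₀ s : ℝ} (hγ : 0 < γ₀) (hs : 0 < s) :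
    ∃ n₀ : ℕ, ∀ {V : Type} {R : V → V → Prop} {Gd : V → Prop} {X G : Finset V} {N : V → Prop}, n₀ ≤ X.card →
      St R p Gd γ₀ s X G N → ∀ {K M : ℕ}, K * p.a ≤ M → ∀ {F D : Fd}, FOL p.b p.l K 0 F → F.size + 1 ≤ M →
      (Turn F D ∨ ∃ c, F.hv = some (true, c) ∧ Turn c D) →
      ∃ y₀ x Z L, HostQ (Qi K p.b M) R p Gd X N F y₀ x Z L D ∧ γ₀ / 16 * X.card ≤ ((nO R G x).card : ℝ) := by
  obtain ⟨n₁, hn₁⟩ := exists_nat_ge ((2 : ℝ) ^ (2 * p.a + 2) * (2 / s))
  obtain ⟨n₂, hn₂⟩ := exists_nat_ge (((2 : ℝ) ^ p.a + p.a + 4) * (2 / γ₀))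
  refine ⟨max n₁ n₂, ?_⟩
  intro V R Gd X G N hn hSt K M hKa F D hF hM hD
  have hT := hSt.hT
  have hn1 : (n₁ : ℝ) ≤ X.card := by exact_mod_cast (le_max_left _ _).trans hn
  have hn2 : (n₂ : ℝ) ≤ X.card := by exact_mod_cast (le_max_right _ _).trans hn
  have hE1 : (2 : ℝ) ^ (2 * p.a + 2) ≤ s / 2 * X.card := by
    have h := mul_le_mul_of_nonneg_left (hn₁.trans hn1) (by positivity : (0 : ℝ) ≤ s / 2)
    have e : s / 2 * ((2 : ℝ) ^ (2 * p.a + 2) * (2 / s)) = (2 : ℝ) ^ (2 * p.a + 2) := by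
      field_simp
    rwa [e] at h
  have hE2 : (2 : ℝ) ^ p.a + p.a + 4 ≤ γ₀ / 2 * X.card := by
    have h := mul_le_mul_of_nonneg_left (hn₂.trans hn2) (by positivity : (0 : ℝ) ≤ γ₀ / 2)
    have e : γ₀ / 2 * (((2 : ℝ) ^ p.a + p.a + 4) * (2 / γ₀)) = (2 : ℝ) ^ p.a + p.a + 4 := by
      field_simp
    rwa [e] at h
  have hbF : ∀ {c : Fd}, FOL p.b p.l K 0 c → blk c ≤ p.a := by
    intro c hc
    have h1 := hc.blk_lt_a (Nat.zero_le _) hab
    omega
  have hQF : OutB (Qi K p.b M) F := hF.outB (Nat.zero_le _) hab hKa hM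
  have hQc : ∀ {c : Fd}, F.hv = some (true, c) → OutB (Qi K p.b M) c := fun hc =>
    (hF.heavy hc).outB (Nat.zero_le _) hab hKa (by
      have := size_lt_of_mem (hv_mem hc)
      simp only at this
      omega)
  have he : 2 * p.a + 2 ≤ p.e := by
    have := hp.he
    omega
  set Ls : Finset V := X.filter (fun v => Gd v ∧ N v) with hLs
  have hLs' : s * X.card ≤ (Ls.card : ℝ) := hSt.hD
  set L' : Finset V := Ls.filter (fun y => γ₀ / 16 * X.card ≤ ((nO R G y).card : ℝ)) with hL'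
  set M₀ : Finset V := Ls.filter (fun y => ¬ γ₀ / 16 * X.card ≤ ((nO R G y).card : ℝ)) with hM₀
  have hsum : L'.card + M₀.card = Ls.card := Finset.card_filter_add_card_filter_not _
  have hsumR : (L'.card : ℝ) + M₀.card = Ls.card := by exact_mod_cast hsum
  have hcase : 2 ^ (2 * p.a + 2) ≤ L'.card ∨ 2 ^ (2 * p.a + 2) ≤ M₀.card := by
    by_contra hcon
    push Not at hcon
    have h1 : (L'.card : ℝ) < 2 ^ (2 * p.a + 2) := by exact_mod_cast hcon.1
    have h2 : (M₀.card : ℝ) < 2 ^ (2 * p.a + 2) := by exact_mod_cast hcon.2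
    linarith
  have hmem : ∀ z ∈ Ls, z ∈ X ∧ Gd z ∧ N z := by
    intro z hz
    rw [hLs, mem_filter] at hz
    exact hz
  rcases hcase with hcase | hcase
  · -- S'
    obtain ⟨w, hwl, hwS, hwR⟩ := exists_tl hT _ _ hcase
    obtain ⟨wa, y, wb, v, rfl, hla, hlb⟩ := split4 w p.a hwl
    have hS : ∀ z ∈ wa ++ y :: (wb ++ [v]), z ∈ X ∧ Gd z ∧ N z ∧ γ₀ / 16 * X.card ≤ ((nO R G z).card : ℝ) := by
      intro z hz
      have h := hwS z hz
      rw [hL', mem_filter] at h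
      exact ⟨(hmem z h.1).1, (hmem z h.1).2.1, (hmem z h.1).2.2, h.2⟩
    rw [List.pairwise_append, List.pairwise_cons, List.pairwise_append] at hwR
    obtain ⟨hwa, ⟨hy, hwb, -, hbv⟩, hab'⟩ := hwR
    have hva : v ∈ wa ++ y :: (wb ++ [v]) := by simp
    have hya : y ∈ wa ++ y :: (wb ++ [v]) := by simp
    have hwam : ∀ z ∈ wa, z ∈ wa ++ y :: (wb ++ [v]) := fun z hz => List.mem_append_left _ hz
    have hwbm : ∀ z ∈ wb, z ∈ wa ++ y :: (wb ++ [v]) := by
      intro z hz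
      simp [hz]
    rcases hD with hD | ⟨c, hc, hD⟩
    · exact one_block hT hQF (hbF hF) (by omega) hD v wb hwb hlb (fun z hz => hbv z hz v (by simp)) (hS v hva).1
        (hS v hva).2.2.1 (hS v hva).2.1 (fun z hz => ⟨(hS z (hwbm z hz)).1, (hS z (hwbm z hz)).2.1,
          (hS z (hwbm z hz)).2.2.2⟩)
    · have hcF : FOL p.b p.l K 0 c := hF.heavy hc
      refine two_block hT hQF (hQc hc) (hbF hF) (hbF hcF) he hc hD y v wa wb hwa hla hwb hlb
        (fun z hz => hab' z hz y (by simp)) (hy v (by simp)) (fun z hz => hbv z hz v (by simp))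
        (fun z hz => hab' z hz v (by simp)) ?_ (hS y hya).1 (hS y hya).2.2.1 (hS y hya).2.1 (hS v hva).1
        (hS v hva).2.1 (fun z hz => ⟨(hS z (hwam z hz)).1, (hS z (hwam z hz)).2.1⟩)
        (fun z hz => ⟨(hS z (hwbm z hz)).1, (hS z (hwbm z hz)).2.1, (hS z (hwbm z hz)).2.2.2⟩)
      intro z hz
      refine ⟨fun hz' => hT.irr z (hab' z hz' z (by simp [hz])), ?_⟩
      rintro rfl
      exact hT.irr z (hy z (by simp [hz]))
  · -- S''
    obtain ⟨w, hwl, hwS, hwR⟩ := exists_tl hT _ _ hcase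
    obtain ⟨wa, y, wb, v, rfl, hla, hlb⟩ := split4 w p.a hwl
    have hS : ∀ z ∈ wa ++ y :: (wb ++ [v]), z ∈ X ∧ Gd z ∧ N z ∧ ((nO R G z).card : ℝ) < γ₀ / 16 * X.card := by
      intro z hz
      have h := hwS z hz
      rw [hM₀, mem_filter] at h
      exact ⟨(hmem z h.1).1, (hmem z h.1).2.1, (hmem z h.1).2.2, not_le.1 h.2⟩
    rw [List.pairwise_append, List.pairwise_cons, List.pairwise_append] at hwR
    obtain ⟨hwa, ⟨hy, hwb, -, hbv⟩, hab'⟩ := hwR
    have hva : v ∈ wa ++ y :: (wb ++ [v]) := by simp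
    have hya : y ∈ wa ++ y :: (wb ++ [v]) := by simp
    have hwam : ∀ z ∈ wa, z ∈ wa ++ y :: (wb ++ [v]) := fun z hz => List.mem_append_left _ hz
    -- the set of good dominators of `v`
    set S : Finset V := nI R (G1 R G) v \ insert y wa.toFinset with hSdef
    have hG1 : G1 R G ⊆ G := filter_subset _ _
    have hG1c := card_G1 hT G
    have hsub : G1 R G ⊆ insert v (nI R (G1 R G) v ∪ nO R G v) := by
      intro u hu
      by_cases huv : u = v
      · rw [huv]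
        exact mem_insert_self _ _
      · apply mem_insert_of_mem
        rcases hT.tot u v huv with h2 | h2
        · exact mem_union_left _ (mem_nI.2 ⟨hu, h2⟩)
        · exact mem_union_right _ (mem_nO.2 ⟨hG1 hu, h2⟩)
    have hc1 : (G1 R G).card ≤ (nI R (G1 R G) v).card + (nO R G v).card + 1 := by
      refine (card_le_card hsub).trans ((card_insert_le _ _).trans ?_)
      have := card_union_le (nI R (G1 R G) v) (nO R G v)
      omega
    have hc2 : (nI R (G1 R G) v).card ≤ S.card + (p.a + 1) := by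
      have h1 := card_le_card_sdiff_add_card (s := nI R (G1 R G) v) (t := insert y wa.toFinset)
      have h2 := card_insert_le y wa.toFinset
      have h3 := wa.toFinset_card_le
      rw [← hSdef] at h1
      omega
    have hcS : 2 ^ p.a ≤ S.card := by
      have h1 : ((nO R G v).card : ℝ) < γ₀ / 16 * X.card := (hS v hva).2.2.2
      have h2 : 3 * (G.card : ℝ) ≤ 4 * ((G1 R G).card : ℝ) + 4 := by exact_mod_cast hG1c
      have h3 : ((G1 R G).card : ℝ) ≤ (nI R (G1 R G) v).card + (nO R G v).card + 1 := by exact_mod_cast hc1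
      have h4 : ((nI R (G1 R G) v).card : ℝ) ≤ S.card + (p.a + 1) := by exact_mod_cast hc2
      have h5 := hSt.hGc
      have h6 : (0 : ℝ) ≤ γ₀ * X.card := by positivity
      have h7 : ((2 : ℝ) ^ p.a) ≤ S.card := by
        nlinarith
      exact_mod_cast h7
    obtain ⟨w₁, hw₁l, hw₁S, hw₁R⟩ := exists_tl hT _ _ hcS
    have hw₁ : ∀ z ∈ w₁, z ∈ G1 R G ∧ R z v ∧ z ≠ y ∧ z ∉ wa := by
      intro z hz
      have h := hw₁S z hz
      rw [hSdef, mem_sdiff, mem_nI, mem_insert, List.mem_toFinset, not_or] at h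
      exact ⟨h.1.1, h.1.2, h.2.1, h.2.2⟩
    have hw₁X : ∀ z ∈ w₁, z ∈ X ∧ Gd z ∧ γ₀ / 16 * X.card ≤ ((nO R G z).card : ℝ) := by
      intro z hz
      have h := (hw₁ z hz).1
      refine ⟨hSt.hG (hG1 h), hSt.hGd z (hG1 h), ?_⟩
      rw [G1, mem_filter] at h
      have h1 : (G.card : ℝ) ≤ 8 * ((nO R G z).card : ℝ) := by exact_mod_cast h.2
      have h2 := hSt.hGc
      have h6 : (0 : ℝ) ≤ γ₀ * X.card := by positivity
      linarith
    rcases hD with hD | ⟨c, hc, hD⟩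
    · exact one_block hT hQF (hbF hF) (by omega) hD v w₁ hw₁R hw₁l (fun z hz => (hw₁ z hz).2.1) (hS v hva).1
        (hS v hva).2.2.1 (hS v hva).2.1 hw₁X
    · have hcF : FOL p.b p.l K 0 c := hF.heavy hc
      exact two_block hT hQF (hQc hc) (hbF hF) (hbF hcF) he hc hD y v wa w₁ hwa hla hw₁R hw₁l
        (fun z hz => hab' z hz y (by simp)) (hy v (by simp)) (fun z hz => (hw₁ z hz).2.1)
        (fun z hz => hab' z hz v (by simp)) (fun z hz => ⟨(hw₁ z hz).2.2.2, (hw₁ z hz).2.2.1⟩)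
        (hS y hya).1 (hS y hya).2.2.1 (hS y hya).2.1 (hS v hva).1
        (hS v hva).2.1 (fun z hz => ⟨(hS z (hwam z hz)).1, (hS z (hwam z hz)).2.1⟩) hw₁X

end AET
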