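import Pool.Agent.AET.CfgDL

/-!
# Light branches: small exact rounds
-/

namespace AET

open Finset AE15 AED AEB
open scoped Classical

/-- small exact rounds: no big in-tree at the root and at the heavy child of the root -/
theorem cfg_small (p : NP) (hp : p.OK) (hab : ab p.b p.l ≤ p.a) {γ₀ s : ℝ} (hγ : 0 < γ₀) (hs : 0 < s) :
    ∃ n₀ : ℕ, ∀ {V : Type} {R : V → V → Prop} {Gd : V → Prop} {Y X G : Finset V} {N : V → Prop}, X ⊆ Y → n₀ ≤ X.card →
      St R p Gd γ₀ s X G N → ∀ {K M : ℕ}, K * p.a ≤ M → ∀ {F c c' : Fd}, FOL p.b p.l K 0 F → F.size + 1 ≤ M →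
      F.hv = some (true, c) → c.hv = some (true, c') →
      ¬ Big p.B F → ¬ Big p.B c → ClBU R Gd s p p.u0 Y X N →
      ∃ y₀ x Z L D₁, (D₁ = c ∨ D₁ = c') ∧ HostUQ (Qi K p.b M) R p Gd Y X N F y₀ x Z L D₁ ∧
        Cov R p (γ₀ / 16) X G (insert y₀ Z) x p.u0 := by
  obtain ⟨n₁, hn₁⟩ := cov_of p hp hγ
  obtain ⟨n₂, hn₂⟩ := exists_nat_gt ((p.u0 + 2 * p.c1 + 1 : ℝ) / γ₀)
  refine ⟨max n₁ n₂, ?_⟩
  intro V R Gd Y X G N hXY hX hSt K M hKa F c c' hF hM hFc hcc hBF hBc hCl
  have hX1 : n₁ ≤ X.card := (le_max_left _ _).trans hX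
  have hX2 : n₂ ≤ X.card := (le_max_right _ _).trans hX
  have hT := hSt.hT
  have hG := hSt.hG
  obtain ⟨-, U, Q, hU, -, hcov, -⟩ := hCl
  -- the excluded set
  set Lam : Finset V := X.filter (fun u => (nI R X u).card < p.c1) with hLam
  have hLamc : Lam.card ≤ 2 * p.c1 := card_lowin hT X p.c1
  set W : Finset V := U ∪ Lam with hW
  have hWc : W.card ≤ p.u0 + 2 * p.c1 := (card_union_le _ _).trans (by omega)
  have hWlow : ∀ u ∈ X, (nI R X u).card < p.c1 → u ∈ W := by
    intro u hu h1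
    exact mem_union_right _ (mem_filter.2 ⟨hu, h1⟩)
  -- the bound for the vertices outside `G`
  obtain ⟨m, hm⟩ : ∃ m : ℕ, m = ⌊γ₀ / 16 * (X.card : ℝ)⌋₊ := ⟨_, rfl⟩
  have hnn : (0 : ℝ) ≤ γ₀ / 16 * X.card := by positivity
  have hm1 : (m : ℝ) ≤ γ₀ / 16 * X.card := by rw [hm]; exact Nat.floor_le hnn
  have hm2 : ∀ u ∈ X, u ∉ G → (nO R G u).card ≤ m := by
    intro u hu huG
    rw [hm]
    exact Nat.le_floor (hSt.hGo u hu huG)
  have hne : (G \ W).Nonempty := by
    rw [← card_pos]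
    have h1 : (p.u0 + 2 * p.c1 + 1 : ℝ) < γ₀ * X.card := by
      rw [div_lt_iff₀ hγ] at hn₂
      have h2 : (n₂ : ℝ) ≤ X.card := by exact_mod_cast hX2
      nlinarith
    have h3 := hSt.hGc
    have h4 : (p.u0 + 2 * p.c1 + 1 : ℝ) < G.card := lt_of_lt_of_le h1 h3
    have h5 : p.u0 + 2 * p.c1 + 1 < G.card := by exact_mod_cast h4
    have h6 := le_card_sdiff W G
    omega
  obtain ⟨x, hx⟩ := exists_x hT (Z := W) hG hm2 hne
  have hxG : x ∈ G := (mem_sdiff.1 hx.hx).1
  have hxW : x ∉ W := (mem_sdiff.1 hx.hx).2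
  have hxX : x ∈ X := hG hxG
  have hxc : p.c1 ≤ (nI R X x).card := by
    by_contra h
    exact hxW (hWlow x hxX (by omega))
  have hxU : x ∉ U := fun h => hxW (mem_union_left _ h)
  have hW4 : W.card ≤ 4 * (p.c1 + p.u0 + p.g) := by omega
  have hc1 := hp.hc1
  have he := hp.he
  have hc0 := hp.hc0
  have hcF : FOL p.b p.l K 0 c := hF.heavy hFc
  have hQF : OutB (Qi K p.b M) F := hF.outB (Nat.zero_le _) hab hKa hM
  have hQc : OutB (Qi K p.b M) c := hcF.outB (Nat.zero_le _) hab hKa (by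
    have := size_lt_of_mem (hv_mem hFc)
    simp only at this
    omega)
  have hinF : inw F ≤ p.r0 := (inw_le hF.1 hBF).trans hp.hr0
  have hinc : inw c ≤ p.r0 := (inw_le hcF.1 hBc).trans hp.hr0
  -- the last hypothesis of `cov_of`
  have hlast : ∀ E : Finset V, ∀ k : ℕ, ∀ u ∈ W, u ∈ X → u ∉ E → R u x → p.c1 ≤ (nI R X u).card → u ∉ U →
      2 * p.c + k < (nI R (nO R (G \ W) x) u).card := by
    intro E k u hu _ _ _ h4 h5
    rcases mem_union.1 hu with h6 | h6
    · exact absurd h6 h5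
    · have := (mem_filter.1 h6).2
      omega
  by_cases hNx : N x
  · -- the root at `x`
    have h2r : 2 ^ p.r0 ≤ (nI R X x).card := by omega
    obtain ⟨w, hwl, hwm, hwp⟩ := exists_tl hT p.r0 (nI R X x) h2r
    have hwx : ∀ z ∈ w, R z x := fun z hz => (mem_nI.1 (hwm z hz)).2
    have hwX : ∀ z ∈ w, z ∈ X := fun z hz => (mem_nI.1 (hwm z hz)).1
    obtain ⟨Z, L, h1, h2, h3, h4, hq⟩ := pe_whole hT F hQF x w hwp hwx (by omega)
    have hxZ : x ∉ Z := fun h => hT.irr x (hwx x (List.mem_toFinset.1 (h2 h)))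
    have hZc : Z.card ≤ p.r0 := (card_le_card h2).trans ((List.toFinset_card_le w).trans hwl.le)
    refine ⟨x, x, Z, L, c, Or.inl rfl, ⟨⟨hxX, hxX, hNx, hxZ, ?_, h1, by omega, Or.inl rfl, h4 c (hv_mem hFc), ?_⟩, hq⟩, ?_⟩
    · intro z hz
      exact hXY (hwX z (List.mem_toFinset.1 (h2 hz)))
    · intro i hi
      rw [h3 i hi]
      exact hSt.hGd x hxG
    · have hdis : Disjoint (insert x Z) (nO R (G \ W) x) := by
        rw [disjoint_left]
        intro z hz hz2
        have h5 := (mem_nO.1 hz2).2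
        rcases mem_insert.1 hz with rfl | h6
        · exact hT.irr _ h5
        · exact hT.asym _ _ h5 (hwx z (List.mem_toFinset.1 (h2 h6)))
      refine hn₁ hT hX1 hG hx hSt.hGc hm1 hW4 hWlow 0 0 p.u0 U hU le_rfl (Nat.zero_le _) (Or.inl (Nat.zero_le _)) ?_ ?_
        (hlast _ 0)
      · rw [disjoint_iff_inter_eq_empty.1 hdis]
        simp
      · intro u _ _ _ _
        exact (hdis.symm.mono_left nI_sub)
  · -- the root at a dominator `v` of `x`
    obtain ⟨v, hvX, hNv, hvx, hvG, hvc⟩ : ∃ v ∈ X, N v ∧ R v x ∧ Gd v ∧ p.c0 ≤ (nI R Y v).card := by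
      rcases hcov x hxX with h | h | h | h
      · exact absurd h hNx
      · omega
      · exact absurd h hxU
      · obtain ⟨v, h1, h2, h3, h4⟩ := h
        exact ⟨v, h1, h2, h3, h4.1, h4.2⟩
    obtain ⟨H, hHc, -, hH⟩ := harm hT hx (2 * p.c + p.r0)
    -- the list below `x`
    have h2r : 2 ^ p.r0 ≤ ((nI R X x).erase v).card := by
      have := Finset.pred_card_le_card_erase (s := nI R X x) (a := v)
      omega
    obtain ⟨w, hwl, hwm, hwp⟩ := exists_tl hT p.r0 _ h2r
    have hwx : ∀ z ∈ w, R z x := fun z hz => (mem_nI.1 (mem_erase.1 (hwm z hz)).2).2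
    have hwX : ∀ z ∈ w, z ∈ X := fun z hz => (mem_nI.1 (mem_erase.1 (hwm z hz)).2).1
    have hwv : ∀ z ∈ w, z ≠ v := fun z hz => (mem_erase.1 (hwm z hz)).1
    have hwc : w.toFinset.card ≤ p.r0 := (List.toFinset_card_le w).trans hwl.le
    -- the list below `v`
    have h2v : 2 ^ p.r0 ≤ (nI R Y v \ (w.toFinset ∪ H)).card := by
      have h1 := le_card_sdiff (w.toFinset ∪ H) (nI R Y v)
      have h2 : (w.toFinset ∪ H).card ≤ p.r0 + 2 * (2 * p.c + p.r0) ^ 2 := by
        refine (card_union_le _ _).trans (Nat.add_le_add hwc (hHc.trans (le_of_eq ?_)))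
        ring
      omega
    obtain ⟨w', hwl', hwm', hwp'⟩ := exists_tl hT p.r0 _ h2v
    have hwv' : ∀ z ∈ w', R z v := fun z hz => (mem_nI.1 (mem_sdiff.1 (hwm' z hz)).1).2
    have hwY' : ∀ z ∈ w', z ∈ Y := fun z hz => (mem_nI.1 (mem_sdiff.1 (hwm' z hz)).1).1
    have hww' : ∀ z ∈ w', z ∉ w.toFinset := fun z hz h => (mem_sdiff.1 (hwm' z hz)).2 (mem_union_left _ h)
    have hwH' : ∀ z ∈ w', z ∉ H := fun z hz h => (mem_sdiff.1 (hwm' z hz)).2 (mem_union_right _ h)
    have hwc' : w'.toFinset.card ≤ p.r0 := (List.toFinset_card_le w').trans hwl'.le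
    obtain ⟨Z₁, L₁, h1, h2, h3, h4, hq₁⟩ := pe_whole hT c hQc x w hwp hwx (by omega)
    have hxZ₁ : x ∉ Z₁ := fun h => hT.irr x (hwx x (List.mem_toFinset.1 (h2 h)))
    have hvx' : v ≠ x := fun h => hT.irr x (h ▸ hvx)
    obtain ⟨Z, L, h5, h6, h7, h8, h9, hq⟩ := pe_heavy_whole hT hQF hFc v x w' hwp' hwv' hvx h1 hq₁ hxZ₁ (fun z hz =>
      ⟨fun h => hT.asym _ _ hvx (h ▸ hwv' z hz), fun h => hww' z hz (h2 h)⟩) (by omega)
    have hZmem : ∀ z ∈ Z, z ∈ w' ∨ z = x ∨ z ∈ w := by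
      intro z hz
      rcases mem_union.1 (h6 hz) with h | h
      · exact Or.inl (List.mem_toFinset.1 h)
      · rcases mem_insert.1 h with h | h
        · exact Or.inr (Or.inl h)
        · exact Or.inr (Or.inr (List.mem_toFinset.1 (h2 h)))
    have hvZ : v ∉ Z := by
      intro h
      rcases hZmem v h with h | h | h
      · exact hT.irr v (hwv' v h)
      · exact hvx' h
      · exact hwv v h rfl
    have hZc : Z.card ≤ p.r0 + (p.r0 + 1) := by
      refine (card_le_card h6).trans ((card_union_le _ _).trans (Nat.add_le_add hwc' ?_))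
      refine (card_insert_le _ _).trans (Nat.add_le_add_right ?_ 1)
      exact (card_le_card h2).trans hwc
    refine ⟨v, x, Z, L, c', Or.inr rfl, ⟨⟨hvX, hxX, hNv, hvZ, ?_, h5, by omega, Or.inr (h7 (mem_insert_self _ _)),
      h8 _ (h4 c' (hv_mem hcc)), ?_⟩, hq⟩, ?_⟩
    · intro z hz
      rcases hZmem z hz with h | h | h
      · exact hwY' z h
      · rw [h]; exact hXY hxX
      · exact hXY (hwX z h)
    · intro i hi
      rcases h9 i hi with h | h
      · rw [h]; exact hvG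
      · rw [h3 i h]; exact hSt.hGd x hxG
    · -- the hosts dominated by `x` are on the list `w'`
      have hE : ∀ z ∈ insert v Z, z ∈ nO R (G \ W) x → z ∈ w' := by
        intro z hz hz2
        have h10 := (mem_nO.1 hz2).2
        rcases mem_insert.1 hz with rfl | h11
        · exact absurd hvx (hT.asym _ _ h10)
        · rcases hZmem z h11 with h | h | h
          · exact h
          · rw [h] at h10
            exact absurd h10 (hT.irr x)
          · exact absurd (hwx z h) (hT.asym _ _ h10)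
      refine hn₁ hT hX1 hG hx hSt.hGc hm1 hW4 hWlow p.r0 (2 * p.c + p.r0) p.u0 U hU (by omega) (by omega)
        (Or.inr le_rfl) ?_ ?_ (hlast _ p.r0)
      · refine (card_le_card ?_).trans hwc'
        intro z hz
        exact List.mem_toFinset.2 (hE z (mem_inter.1 hz).1 (mem_inter.1 hz).2)
      · intro u hu huW hux hud
        rw [disjoint_left]
        intro z hz hz2
        exact hwH' z (hE z hz2 (nI_sub hz)) (hH u hu huW hux hud hz)

end AET
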