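import Pool.Agent.AET.CfgBL
import Pool.Agent.AET.CfgEL
import Pool.Agent.AET.CfgSL

/-!
# Light branches: the configuration theorem
-/

namespace AET

open Finset AE15 AED AEB
open scoped Classical

theorem HostQ.u {V : Type*} {R : V → V → Prop} {Q : Fd → Prop} {p : NP} {Gd : V → Prop} {Y X : Finset V} (hXY : X ⊆ Y)
    {N : V → Prop} {F : Fd} {y₀ x : V} {Z : Finset V} {L : List (V × Fd)} {D : Fd} (h : HostQ Q R p Gd X N F y₀ x Z L D) :
    HostUQ Q R p Gd Y X N F y₀ x Z L D := ⟨h.1.u hXY, h.2⟩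

/-- **configuration theorem** (interface for the core) -/
theorem cfg (p : NP) (hp : p.OK) (hab : ab p.b p.l ≤ p.a) (hB2 : (2 * p.b) ^ p.A0 ≤ p.B) {γ₀ s : ℝ} (hγ : 0 < γ₀) (hs : 0 < s) :
    ∃ n₀ : ℕ, ∀ {V : Type} {R : V → V → Prop} {Gd : V → Prop} {Y X G : Finset V} {N : V → Prop}, X ⊆ Y → n₀ ≤ X.card →
      St R p Gd γ₀ s X G N → ∀ {K M : ℕ}, K * p.a ≤ M → ∀ {F : Fd}, FOL p.b p.l K 0 F → F.size + 1 ≤ M →
      p.A ≤ F.size → ClU R Gd s p F Y X N →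
      ∃ y₀ x Z L D, HostUQ (Qi K p.b M) R p Gd Y X N F y₀ x Z L D ∧ FOL p.b p.l K 0 D ∧ D.size < F.size ∧
        F.size + 1 ≤ p.A * (D.size + 1) ∧
        ((¬ NN D ∧ γ₀ / 16 * X.card ≤ ((nO R G x).card : ℝ)) ∨ Cov R p (γ₀ / 16) X G (insert y₀ Z) x (p.ub D)) := by
  obtain ⟨n₁, hD⟩ := cfg_dense p hp hab hγ hs
  obtain ⟨n₂, hE⟩ := cfg_exact p hp hab hγ hs
  obtain ⟨n₃, hS⟩ := cfg_small p hp hab hγ hs
  obtain ⟨n₄, hB⟩ := cfg_big p hp hab hB2 hγ hs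
  have hb := hp.hb
  refine ⟨max (max n₁ n₂) (max n₃ n₄), ?_⟩
  intro V R Gd Y X G N hXY hn hSt K M hKa F hF hM hA hcl
  have hn1 : n₁ ≤ X.card := (le_max_left _ _).trans ((le_max_left _ _).trans hn)
  have hn2 : n₂ ≤ X.card := (le_max_right _ _).trans ((le_max_left _ _).trans hn)
  have hn3 : n₃ ≤ X.card := (le_max_left _ _).trans ((le_max_right _ _).trans hn)
  have hn4 : n₄ ≤ X.card := (le_max_right _ _).trans ((le_max_right _ _).trans hn)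
  have h2b : 1 ≤ 2 * p.b := by omega
  -- the final item `D₁` is `D` or the heavy out-child of `D`
  have hsz : ∀ {D : Fd}, FOL p.b p.l K 0 D → F.size + 1 ≤ (2 * p.b) ^ (p.l + 2) * (D.size + 1) →
      F.size + 1 ≤ p.A * (D.size + 1) ∧ ∀ D', D.hv = some (true, D') → F.size + 1 ≤ p.A * (D'.size + 1) := by
    intro D hDF h1
    refine ⟨h1.trans (Nat.mul_le_mul_right _ (Nat.pow_le_pow_right h2b (by omega))), fun D' hD' => ?_⟩
    have h2 := size_child hb hD' hDF.1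
    calc F.size + 1 ≤ (2 * p.b) ^ (p.l + 2) * (2 * p.b * (D'.size + 1)) := h1.trans (Nat.mul_le_mul_left _ h2)
      _ = (2 * p.b) ^ (p.l + 3) * (D'.size + 1) := by ring
      _ ≤ p.A * (D'.size + 1) := Nat.mul_le_mul_right _ (Nat.pow_le_pow_right h2b (by omega))
  have hturn : ∀ {D : Fd}, (Turn F D ∨ ∃ c, F.hv = some (true, c) ∧ Turn c D) → FOL p.b p.l K 0 D → D.size < F.size →
      F.size + 1 ≤ (2 * p.b) ^ (p.l + 2) * (D.size + 1) →
      ∃ y₀ x Z L D, HostUQ (Qi K p.b M) R p Gd Y X N F y₀ x Z L D ∧ FOL p.b p.l K 0 D ∧ D.size < F.size ∧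
        F.size + 1 ≤ p.A * (D.size + 1) ∧
        ((¬ NN D ∧ γ₀ / 16 * X.card ≤ ((nO R G x).card : ℝ)) ∨ Cov R p (γ₀ / 16) X G (insert y₀ Z) x (p.ub D)) := by
    intro D hT hDF hDs hDsz
    obtain ⟨s1, s2⟩ := hsz hDF hDsz
    by_cases hD' : ∃ D', D.hv = some (true, D')
    · obtain ⟨D', hD'⟩ := hD'
      obtain ⟨y₀, x, Z, L, D₁, hD₁, hH, hC⟩ := hE hn2 hSt hKa hF hM hT hD'
      refine ⟨y₀, x, Z, L, D₁, hH.u hXY, ?_, ?_, ?_, Or.inr (hC.mono' (p.u0_le_ub D₁))⟩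
      · rcases hD₁ with rfl | rfl
        · exact hDF
        · exact hDF.heavy hD'
      · rcases hD₁ with rfl | rfl
        · exact hDs
        · exact (size_lt_of_mem (hv_mem hD')).trans hDs
      · rcases hD₁ with rfl | rfl
        · exact s1
        · exact s2 _ hD'
    · obtain ⟨y₀, x, Z, L, hH, hC⟩ := hD hn1 hSt hKa hF hM hT
      refine ⟨y₀, x, Z, L, D, hH.u hXY, hDF, hDs, s1, Or.inl ⟨?_, hC⟩⟩
      rintro ⟨c, c', h1, -⟩
      exact hD' ⟨c, h1⟩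
  rcases routeL hb hF ((Nat.pow_le_pow_right h2b (by omega)).trans hA) with hNN | ⟨D, h1, h2, h3, h4⟩ | ⟨c, D, h0, h1, -, h2, h3, h4⟩
  · obtain ⟨c, c', hc, hc'⟩ := id hNN
    have hcF : FOL p.b p.l K 0 c := hF.heavy hc
    have hc'F : FOL p.b p.l K 0 c' := hcF.heavy hc'
    have hcs : c.size < F.size := size_lt_of_mem (hv_mem hc)
    have hc's : c'.size < F.size := (size_lt_of_mem (hv_mem hc')).trans hcs
    have g1 := size_child hb hc hF.1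
    have g2 := size_child hb hc' hcF.1
    have s1 : F.size + 1 ≤ p.A * (c.size + 1) := by
      refine g1.trans (Nat.mul_le_mul_right _ ?_)
      calc 2 * p.b = (2 * p.b) ^ 1 := (pow_one _).symm
        _ ≤ p.A := Nat.pow_le_pow_right h2b (by omega)
    have s2 : F.size + 1 ≤ p.A * (c'.size + 1) := by
      calc F.size + 1 ≤ 2 * p.b * (2 * p.b * (c'.size + 1)) := g1.trans (Nat.mul_le_mul_left _ g2)
        _ = (2 * p.b) ^ 2 * (c'.size + 1) := by ring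
        _ ≤ p.A * (c'.size + 1) := Nat.mul_le_mul_right _ (Nat.pow_le_pow_right h2b (by omega))
    have fin : ∀ D₁, (D₁ = c ∨ D₁ = c') → FOL p.b p.l K 0 D₁ ∧ D₁.size < F.size ∧ F.size + 1 ≤ p.A * (D₁.size + 1) := by
      rintro D₁ (rfl | rfl)
      · exact ⟨hcF, hcs, s1⟩
      · exact ⟨hc'F, hc's, s2⟩
    have hclB := hcl.2 hNN
    by_cases hBig : Big p.B F ∨ Big p.B c
    · obtain ⟨y₀, x, Z, L, D₁, hD₁, hH, hC⟩ := hB hn4 hXY hSt hKa hF hM hc hc' hBig hclB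
      obtain ⟨f1, f2, f3⟩ := fin D₁ hD₁
      exact ⟨y₀, x, Z, L, D₁, hH, f1, f2, f3, Or.inr hC⟩
    · rw [not_or] at hBig
      have hub : p.ub F = p.u0 := by
        unfold NP.ub
        rw [if_neg hBig.1]
      rw [hub] at hclB
      obtain ⟨y₀, x, Z, L, D₁, hD₁, hH, hC⟩ := hS hXY hn3 hSt hKa hF hM hc hc' hBig.1 hBig.2 hclB
      obtain ⟨f1, f2, f3⟩ := fin D₁ hD₁
      exact ⟨y₀, x, Z, L, D₁, hH, f1, f2, f3, Or.inr (hC.mono' (p.u0_le_ub D₁))⟩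
  · exact hturn (Or.inl h1) h2 h3 h4
  · exact hturn (Or.inr ⟨c, h0, h1⟩) h2 h3 h4

end AET
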