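import Pool.Agent.AEG.Short
import Pool.Agent.AET.FinSmL
import Pool.Agent.AET.FinLL

/-!
# Light branches, short paths: the coded statement
-/

set_option autoImplicit false

namespace AET

open Finset Relation AE15 AED AEB AEG
open scoped Classical

/-- the branches of a vertex of the line -/
def BrOkL (b l Kl g : ℕ) (q : Fd × Fd) : Prop :=
  FON b l Kl g q.1 ∧ FON b l Kl g q.2 ∧ (∀ t ∈ q.1.trees, t.1 = true) ∧ ∀ t ∈ q.2.trees, t.1 = true

theorem BrOkL.mono {b l Kl g Kl' g' : ℕ} {q : Fd × Fd} (h : BrOkL b l Kl g q) (h1 : Kl' ≤ Kl) (h2 : g' ≤ g) :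
    BrOkL b l Kl' g' q :=
  ⟨(h.1.mono h2).mono_K h1, (h.2.1.mono h2).mono_K h1, h.2.2⟩

/-- the finishing lemma, few vertices in the in-branches -/
def FinSmallL (b l N : ℕ) : Prop := ∀ κ : ℝ, 0 < κ → ∃ (κ₁ δ : ℝ) (Kl g C : ℕ), 0 < κ₁ ∧ 0 < δ ∧
  ∀ {V : Type} {R : V → V → Prop}, AE32.Tour R → ∀ (G rest : List (Fd × Fd)) (q : Fd × Fd) (X : Finset V),
    (G ++ [q]).length ≤ N → (∀ t ∈ G ++ q :: rest, BrOkL b l Kl g t) → szS (G ++ q :: rest) + C ≤ X.card →
    ((inS (G ++ [q]) : ℕ) : ℝ) ≤ κ₁ * X.card → κ * X.card ≤ (q.2.size : ℝ) → (szS rest : ℝ) ≤ δ * X.card →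
    InX R (G ++ q :: rest) X

/-- the finishing lemma, both parts of linear size -/
def FinLinL (b l N : ℕ) : Prop := ∀ κ : ℝ, 0 < κ → ∃ Kl g C : ℕ,
  ∀ {V : Type} {R : V → V → Prop}, AE32.Tour R → ∀ (L : List (Fd × Fd)) (X : Finset V), L ≠ [] → L.length ≤ N →
    (∀ t ∈ L, BrOkL b l Kl g t) → szS L + C ≤ X.card → κ * X.card ≤ (inS L : ℝ) → κ * X.card ≤ (outS L : ℝ) → InX R L X

/-- few vertices in the in-branches, and a big out-branch followed by at most `k` vertices of the line -/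
theorem short_indL {b l N : ℕ} (hS : FinSmallL b l N) (k : ℕ) : ∀ κ : ℝ, 0 < κ → ∃ (κ₁ : ℝ) (Kl g C : ℕ), 0 < κ₁ ∧
    ∀ {V : Type} {R : V → V → Prop}, AE32.Tour R → ∀ (G rest : List (Fd × Fd)) (q : Fd × Fd) (X : Finset V),
      rest.length ≤ k → (G ++ q :: rest).length ≤ N → (∀ t ∈ G ++ q :: rest, BrOkL b l Kl g t) →
      szS (G ++ q :: rest) + C ≤ X.card → ((inS (G ++ q :: rest) : ℕ) : ℝ) ≤ κ₁ * X.card →
      κ * X.card ≤ (q.2.size : ℝ) → InX R (G ++ q :: rest) X := by
  induction k with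
  | zero =>
    intro κ hκ
    obtain ⟨κ₁, δ, Kl, g, C, h1, h2, h3⟩ := hS κ hκ
    refine ⟨κ₁, Kl, g, C, h1, ?_⟩
    intro V R hT G rest q X hr hN hB hX hin hq
    obtain rfl : rest = [] := List.eq_nil_of_length_eq_zero (by omega)
    exact h3 hT G [] q X hN hB hX hin hq (by
      have : (0 : ℝ) ≤ δ * X.card := by positivity
      simpa [szS] using this)
  | succ k ih =>
    intro κ hκ
    obtain ⟨κ₁, δ, Kl₁, g₁, C, h1, h2, h3⟩ := hS κ hκ
    obtain ⟨ε, hε⟩ : ∃ ε : ℝ, ε = δ / (4 * (N + 1)) := ⟨_, rfl⟩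
    have hε0 : 0 < ε := by rw [hε]; positivity
    obtain ⟨κ₂, Kl₂, g₂, C', h4, h5⟩ := ih ε hε0
    obtain ⟨κ₃, hκ₃⟩ : ∃ κ₃ : ℝ, κ₃ = min (min κ₁ κ₂) (δ / 4) := ⟨_, rfl⟩
    have h6 : 0 < κ₃ := by rw [hκ₃]; positivity
    have h7 : κ₃ ≤ κ₁ := by rw [hκ₃]; exact (min_le_left _ _).trans (min_le_left _ _)
    have h8 : κ₃ ≤ κ₂ := by rw [hκ₃]; exact (min_le_left _ _).trans (min_le_right _ _)
    have h9 : κ₃ ≤ δ / 4 := by rw [hκ₃]; exact min_le_right _ _
    obtain ⟨C₁, hC₁⟩ : ∃ C₁ : ℕ, C₁ = C + C' + ⌈4 * N / δ⌉₊ := ⟨_, rfl⟩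
    refine ⟨κ₃, max Kl₁ Kl₂, max g₁ g₂, C₁, h6, ?_⟩
    intro V R hT G rest q X hr hN hB hX hin hq
    have hX0 : (0 : ℝ) ≤ X.card := Nat.cast_nonneg _
    by_cases hsm : (szS rest : ℝ) ≤ δ * X.card
    · refine h3 hT G rest q X ?_ (fun t ht => (hB t ht).mono (le_max_left _ _) (le_max_left _ _)) (by omega) ?_ hq hsm
      · rw [List.length_append, List.length_cons] at hN
        rw [List.length_append, List.length_singleton]
        omega
      · refine le_trans ?_ (mul_le_mul_of_nonneg_right h7 hX0)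
        refine le_trans (Nat.cast_le.2 ?_) hin
        rw [inS_append, inS_append]
        simp only [inS, List.map_cons, List.map_nil, List.sum_cons, List.sum_nil]
        omega
    · push Not at hsm
      have hNX : (N : ℝ) ≤ δ / 4 * X.card := by
        have hc : (⌈4 * N / δ⌉₊ : ℝ) ≤ X.card := by exact_mod_cast (by omega : ⌈4 * N / δ⌉₊ ≤ X.card)
        have h10 : 4 * (N : ℝ) / δ ≤ X.card := (Nat.le_ceil _).trans hc
        rw [div_le_iff₀ h2] at h10
        linarith
      have hlen : rest.length ≤ N := by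
        rw [List.length_append, List.length_cons] at hN
        omega
      have hin' : (inS rest : ℝ) ≤ δ / 4 * X.card := by
        refine le_trans ?_ (hin.trans (mul_le_mul_of_nonneg_right h9 hX0))
        refine Nat.cast_le.2 ?_
        rw [inS_append]
        simp only [inS, List.map_cons, List.sum_cons]
        omega
      have hout : (N : ℝ) * (ε * X.card) < outS rest := by
        have h10 := szS_eq rest
        have h11 : (szS rest : ℝ) = inS rest + outS rest + rest.length := by exact_mod_cast h10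
        have h12 : (rest.length : ℝ) ≤ N := by exact_mod_cast hlen
        have h13 : (N : ℝ) * ε ≤ δ / 4 := by
          rw [hε, mul_div_assoc', div_le_div_iff₀ (by positivity) (by norm_num)]
          nlinarith [(Nat.cast_nonneg N : (0 : ℝ) ≤ N)]
        have h14 := mul_le_mul_of_nonneg_right h13 hX0
        nlinarith
      obtain ⟨G', q', rest', h15, h16⟩ := exists_big_out (by positivity) hlen hout
      have h17 : G ++ q :: rest = (G ++ q :: G') ++ q' :: rest' := by
        rw [h15]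
        simp
      rw [h17] at hN hB hX hin ⊢
      refine h5 hT (G ++ q :: G') rest' q' X ?_ hN (fun t ht => (hB t ht).mono (le_max_right _ _) (le_max_right _ _))
        (by omega) (hin.trans (mul_le_mul_of_nonneg_right h8 hX0)) h16.le
      rw [h15, List.length_append, List.length_cons] at hr
      omega

/-- few vertices in the in-branches -/
theorem short_smallL {b l N : ℕ} (hS : FinSmallL b l N) : ∃ (κ₁ : ℝ) (Kl g C : ℕ), 0 < κ₁ ∧
    ∀ {V : Type} {R : V → V → Prop}, AE32.Tour R → ∀ (L : List (Fd × Fd)) (X : Finset V), L ≠ [] →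
      L.length ≤ N → (∀ t ∈ L, BrOkL b l Kl g t) → szS L + C ≤ X.card → X.card ≤ 2 * szS L →
      ((inS L : ℕ) : ℝ) ≤ κ₁ * X.card → InX R L X := by
  obtain ⟨κ₁, Kl, g, C, h1, h2⟩ := short_indL hS N (1 / (8 * (N + 1))) (by positivity)
  refine ⟨min κ₁ (1 / 8), Kl, g, C + 8 * N, by positivity, ?_⟩
  intro V R hT L X hL hN hB hX hX2' hin
  have hX2 : (X.card : ℝ) ≤ 2 * szS L := by exact_mod_cast hX2'
  have hX0 : (0 : ℝ) ≤ X.card := Nat.cast_nonneg _
  have hNX : 8 * (N : ℝ) ≤ X.card := by exact_mod_cast (by omega : 8 * N ≤ X.card)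
  have h3 : (szS L : ℝ) = inS L + outS L + L.length := by exact_mod_cast szS_eq L
  have h4 : (L.length : ℝ) ≤ N := by exact_mod_cast hN
  have h5 : ((inS L : ℕ) : ℝ) ≤ 1 / 8 * X.card := hin.trans (mul_le_mul_of_nonneg_right (min_le_right _ _) hX0)
  have hXp : (0 : ℝ) < X.card := by
    have h6 : 0 < szS L := by
      cases L with
      | nil => exact absurd rfl hL
      | cons q L => rw [szS_cons]; omega
    exact_mod_cast (by omega : 0 < X.card)
  have hout : (N : ℝ) * (1 / (8 * (N + 1)) * X.card) < outS L := by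
    have h13 : (N : ℝ) * (1 / (8 * (N + 1))) ≤ 1 / 8 := by
      rw [mul_one_div, div_le_div_iff₀ (by positivity) (by norm_num)]
      nlinarith [(Nat.cast_nonneg N : (0 : ℝ) ≤ N)]
    have h14 := mul_le_mul_of_nonneg_right h13 hX0
    nlinarith
  obtain ⟨G, q, rest, h15, h16⟩ := exists_big_out (by positivity) hN hout
  subst h15
  exact h2 hT G rest q X (by rw [List.length_append, List.length_cons] at hN; omega) hN hB (by omega)
    (hin.trans (mul_le_mul_of_nonneg_right (min_le_left _ _) hX0)) h16.le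

theorem brOkL_revL {b l Kl g : ℕ} {L : List (Fd × Fd)} (h : ∀ t ∈ L, BrOkL b l Kl g t) : ∀ t ∈ revL L, BrOkL b l Kl g t := by
  intro t ht
  rw [revL, List.mem_reverse, List.mem_map] at ht
  obtain ⟨q, hq, rfl⟩ := ht
  obtain ⟨h1, h2, h3, h4⟩ := h q hq
  exact ⟨h2, h1, h4, h3⟩

/-- the coded statement: every coded line of the class with `szS L` vertices is contained in every tournament with
`szS L + C` vertices -/
def Cod0L (b l N Kl g : ℕ) (C : ℕ) : Prop := ∀ {V : Type} {R : V → V → Prop}, AE32.Tour R → ∀ L : List (Fd × Fd),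
  L ≠ [] → (∀ q ∈ L, BrOkL b l Kl g q) →
  L.length ≤ N → ∀ X : Finset V, szS L + C ≤ X.card → ∃ y ∈ X, ∃ S ⊆ X, y ∉ S ∧ EmbS R L y S

/-- the coded statement from the two finishing lemmas -/
theorem cod0L {b l N : ℕ} (hS : FinSmallL b l N) (hL : FinLinL b l N) : ∃ Kl g C : ℕ, Cod0L b l N Kl g C := by
  obtain ⟨κ₁, Kl₁, g₁, C₁, h1, h2⟩ := short_smallL hS
  obtain ⟨Kl₂, g₂, C₂, h3⟩ := hL κ₁ h1
  refine ⟨max Kl₁ Kl₂, max g₁ g₂, 4 * (C₁ + C₂), ?_⟩
  intro V R hT L hL0 hB hN X hX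
  by_cases hsm : szS L < C₁ + C₂
  · exact inX_four hT hL0 (by omega)
  push Not at hsm
  obtain ⟨X', hX', hc⟩ := exists_subset_card_eq (s := X) (n := szS L + (C₁ + C₂)) (by omega)
  have key : InX R L X' := by
    by_cases hin : ((inS L : ℕ) : ℝ) ≤ κ₁ * X'.card
    · exact h2 hT L X' hL0 hN (fun t ht => (hB t ht).mono (le_max_left _ _) (le_max_left _ _)) (by omega) (by omega) hin
    by_cases hout : ((outS L : ℕ) : ℝ) ≤ κ₁ * X'.card
    · obtain ⟨y, hy, S, hS', hyS, hE⟩ := h2 (SPD.rv_tour hT) (revL L) X' (by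
          intro h
          rw [revL, List.reverse_eq_nil_iff, List.map_eq_nil_iff] at h
          exact hL0 h) (by rw [revL, List.length_reverse, List.length_map]; exact hN) (brOkL_revL (fun t ht => (hB t ht).mono (le_max_left _ _) (le_max_left _ _)))
          (by rw [szS_revL]; omega) (by rw [szS_revL]; omega) (by rw [inS_revL]; exact hout)
      obtain ⟨y', S', g1, g2, g3⟩ := embS_rev hE hyS
      have g4 : insert y' S' ⊆ X' := by
        rw [g2]
        exact insert_subset hy hS'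
      exact ⟨y', g4 (mem_insert_self _ _), S', (subset_insert _ _).trans g4, g1, g3⟩
    · push Not at hin hout
      exact h3 hT L X' hL0 hN (fun t ht => (hB t ht).mono (le_max_right _ _) (le_max_right _ _)) (by omega) hin.le hout.le
  obtain ⟨y, hy, S, hS', hyS, hE⟩ := key
  exact ⟨y, hX' hy, S, hS'.trans hX', hyS, hE⟩

/-- the coded statement for short paths -/
theorem exists_cod0L (b l N : ℕ) (hb : 1 ≤ b) (hN : 1 ≤ N) : ∃ Kl g C : ℕ, Cod0L b l N Kl g C := by
  refine cod0L (fun _ hκ => fin_smallL b l N hb hN hκ) (fun κ hκ => ?_)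
  obtain ⟨δ, Kl, g, C, hδ, h⟩ := fin_linL b l N hb hN hκ
  refine ⟨Kl, g, C, ?_⟩
  intro V R hT L X hL hLN hB hX hin hout
  have h1 := h hT L [] X hL hLN hB (by rw [List.append_nil]; exact hX) hin hout (by
    have : (0 : ℝ) ≤ δ * X.card := by positivity
    simpa [szS] using this)
  rwa [List.append_nil] at h1

end AET
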