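import Pool.Agent.AET.FinHL
import Pool.Agent.AET.ShortL
import Pool.Agent.AEG.FinAL

/-!
# Light branches: the final step at the first vertex of the line, from the state
-/

set_option autoImplicit false

namespace AET

open Finset AE15 AED AEB SPD AEG
open scoped Classical

/-- **Final step at the first vertex of the line**, from the state; the factor `K` depends only on the class and on `P` -/
theorem finALL (p : NP) (hp : p.OK) (hab : ab p.b p.l ≤ p.a) (hB2 : (2 * p.b) ^ p.A0 ≤ p.B) {D₀ : ℕ}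
    (hD₀ : 2 * p.A ≤ D₀) {ω c η η₁ κ₀ κ₁ κ γ₀ τ s σ₂ μ : ℝ} (P : KB D₀ ω c η η₁ κ₀ κ₁ κ γ₀ τ s σ₂ μ) {gl el ul : ℝ}
    {ml : ℕ} (hgl : 0 < gl) (hel : 0 < el) (hul : 0 < ul) (hLi : LightH p.b κ η gl el ul ml) {Kl : ℕ} (hKl0 : 0 < Kl)
    (hKl4 : 4 * ((p.b * (p.e + 1) : ℕ) : ℝ) ≤ gl * ω * Kl) : ∃ K : ℕ,
    ∀ {κU ηU s' : ℝ}, 0 < κU → κU ≤ κ → ηU ≤ η → 0 < s' → ∃ gd : ℕ, ∀ h lam sig w K1 : ℕ, 4 * h + p.e ≤ lam → ∃ C : ℕ,
    ∀ {V : Type} {R : V → V → Prop}, AE32.Tour R → ∀ {Y W : Finset V} {N : V → Prop},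
      StM R Y W N κU ηU s' lam sig K1 → (W \ low R sig (Y ∪ W)).card ≤ w →
      ∀ {q : Fd × Fd} {L : List (Fd × Fd)}, q.1.size ≤ h → (∀ t ∈ L.take 1, t.1.size ≤ h) →
      (∀ t ∈ q.1.trees, t.1 = true) → (∀ t ∈ q :: L, FON p.b p.l Kl gd t.1 ∧ FON p.b p.l Kl gd t.2) →
      K * (szS L + 1) ≤ q.2.size → szS (q :: L) + C ≤ (Y ∪ W).card → InS R (q :: L) N (Y ∪ W) := by
  obtain ⟨K, hK⟩ := finTLL p hp hab hB2 hD₀ P hgl hel hul hLi hKl0 hKl4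
  refine ⟨K, ?_⟩
  intro κU ηU s' hU0 hUκ hηU hs'
  obtain ⟨gd, hK⟩ := hK hU0 hUκ hs'
  refine ⟨gd, fun h lam sig w K1 hlam => ?_⟩
  obtain ⟨C, hC⟩ := hK h lam sig (w + 2 * sig) (K1 * (2 * p.c0)) hlam
  refine ⟨C, ?_⟩
  intro V R hT Y W N hS hw q L hq hL hqf hcls hKq hsz
  have hmono : ∀ v, Good R κU ηU Y v → Good R κU η Y v := fun v hv C hC hvC hcl =>
    (hv C hC hvC hcl).trans (mul_le_mul_of_nonneg_right hηU (Nat.cast_nonneg _))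
  have h0 : s' * Y.card ≤ ((Y.filter (fun v => N v ∧ Good R κU η Y v ∧ lam ≤ (nI R (Y ∪ W) v).card)).card : ℝ) := by
    refine hS.dense.trans (Nat.cast_le.2 (card_le_card ?_))
    intro v hv
    rw [mem_cg] at hv
    rw [mem_filter]
    exact ⟨hv.1, hv.2.1, hmono v hv.2.2.1, hv.2.2.2⟩
  have h1 : (Y.filter (fun u => ¬ N u ∧ sig ≤ (nI R (Y ∪ W) u).card ∧
        (Y.filter (fun v => N v ∧ R v u ∧ Good R κU η Y v ∧ lam ≤ (nI R (Y ∪ W) v).card)).card ≤ 2 * p.c0)).card ≤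
        K1 * (2 * p.c0) := by
    refine le_trans (card_le_card ?_) (hS.cnt (2 * p.c0))
    intro u hu
    rw [mem_filter] at hu ⊢
    refine ⟨hu.1, hu.2.1, hu.2.2.1, le_trans (card_le_card ?_) hu.2.2.2⟩
    intro v hv
    rw [mem_nI, mem_cg] at hv
    rw [mem_filter]
    exact ⟨hv.1.1, hv.1.2.1, hv.2, hmono v hv.1.2.2.1, hv.1.2.2.2⟩
  have h2 : W.card ≤ w + 2 * sig := by
    have h1 : W ⊆ (W \ low R sig (Y ∪ W)) ∪ (Y ∪ W).filter (fun v => (nI R (Y ∪ W) v).card < sig) := by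
      intro v hv
      by_cases h2 : v ∈ low R sig (Y ∪ W)
      · exact mem_union_right _ h2
      · exact mem_union_left _ (mem_sdiff.2 ⟨hv, h2⟩)
    have h3 := (card_le_card h1).trans (card_union_le _ _)
    have h4 := card_lowin hT (Y ∪ W) sig
    omega
  have h3 : szS (q :: L) + C ≤ Y.card + W.card := by
    rw [← card_union_of_disjoint hS.disj]
    exact hsz
  obtain ⟨y, hy, hN, S, hS1, hS2, hS3⟩ := hC hT (Y := Y) (W := W) (N := N) h0 h1 h2 hq hL hqf hcls hKq h3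
  exact ⟨y, mem_union_left _ hy, hN, S, hS1, hS2, hS3⟩

/-- **Final step at the first vertex of the line**, from the state -/
theorem finASL (p : NP) (hp : p.OK) (hab : ab p.b p.l ≤ p.a) (hB2 : (2 * p.b) ^ p.A0 ≤ p.B) {DF : ℕ}
    (hD : 2 * p.A ≤ DF) {ω c ηF η₁ κ₀ κ₁ κF γ₀ τ s σ₂ μ : ℝ} (P : KB DF ω c ηF η₁ κ₀ κ₁ κF γ₀ τ s σ₂ μ) {gl el ul : ℝ}
    {ml : ℕ} (hgl : 0 < gl) (hel : 0 < el) (hul : 0 < ul) (hLi : LightH p.b κF ηF gl el ul ml) {Kl : ℕ} (hKl0 : 0 < Kl)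
    (hKl4 : 4 * ((p.b * (p.e + 1) : ℕ) : ℝ) ≤ gl * ω * Kl) : ∃ K : ℕ, 16 * p.b ≤ K ∧
    ∀ κU s' : ℝ, 0 < κU → κU ≤ κF → 0 < s' → ∃ gd M C₀ : ℕ, ∀ h lam sig w K1 : ℕ, M * h + C₀ ≤ lam → ∃ C : ℕ,
    ∀ {V : Type} {R : V → V → Prop}, AE32.Tour R → ∀ {Y W : Finset V} {N : V → Prop},
      StM R Y W N κU ηF s' lam sig K1 → (W \ low R sig (Y ∪ W)).card ≤ w →
      ∀ {q : Fd × Fd} {L : List (Fd × Fd)}, q.1.size ≤ h → (∀ q' ∈ L.head?, q'.1.size ≤ h) →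
      (∀ t ∈ q :: L, BrOkL p.b p.l Kl gd t) → K * (szS L + 1) ≤ q.2.size → szS (q :: L) + C ≤ (Y ∪ W).card →
      InS R (q :: L) N (Y ∪ W) := by
  obtain ⟨K, hK⟩ := finALL p hp hab hB2 hD P hgl hel hul hLi hKl0 hKl4
  refine ⟨K + 16 * p.b, by omega, ?_⟩
  intro κU s' hU0 hUκ hs'
  obtain ⟨gd, hK⟩ := hK hU0 hUκ le_rfl hs'
  refine ⟨gd, 4, p.e, ?_⟩
  intro h lam sig w K1 hlam
  obtain ⟨C, hC⟩ := hK h lam sig w K1 hlam
  refine ⟨C, ?_⟩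
  intro V R hT Y W N hS hw q L hq hL hcl hKq hsz
  refine hC hT hS hw hq ?_ (hcl q List.mem_cons_self).2.2.1 (fun t ht => ⟨(hcl t ht).1, (hcl t ht).2.1⟩) ?_ hsz
  · intro t ht
    cases L with
    | nil => simp at ht
    | cons q' L' =>
      have h1 : t = q' := by simpa using ht
      rw [h1]
      exact hL q' (by simp)
  · have h1 : K * (szS L + 1) ≤ (K + 16 * p.b) * (szS L + 1) := Nat.mul_le_mul_right _ (by omega)
    omega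

end AET
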