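import Pool.Agent.AET.NearL
import Pool.Agent.AEB.Place

/-!
# Light branches: the placing lemma
-/

namespace AET

open Finset AE15 AED AEB
open scoped Classical

variable {V : Type*} {R : V → V → Prop}

private theorem ab_pos {b l : ℕ} : 1 ≤ ab b l := by
  unfold ab
  rw [sum_range_succ']
  simp

private theorem vB_pos {b l : ℕ} (hb : 1 ≤ b) (i : ℕ) : 1 ≤ vB b (ab b l) i :=
  Nat.one_le_pow _ _ (Nat.mul_pos ab_pos hb)

/-- one item at level `i + 1`: its block is placed in level `i` -/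
private theorem place_one (hT : AE32.Tour R) {U Ks : Finset V} {k : ℝ} {b l : ℕ} (i : ℕ)
    {F c : Fd} {z y : V} {Z F₀ : Finset V} {L L₁ : List (V × Fd)} {K m : ℕ} (hPE : PE R F z Z L)
    (hL : L.Perm ((y, c) :: L₁)) (hy : y ∈ Lv R U Ks k (i + 1)) (hyK : y ∉ Ks) (hc : FON b l K (m + ab b l) c)
    (hk : (F₀.card : ℝ) + Z.card + 1 + 2 ^ ab b l ≤ k) :
    ∃ Z' L' L'', PE R F z Z' L'' ∧ L''.Perm (L' ++ L₁) ∧ Z ⊆ Z' ∧ Z' \ Z ⊆ Lv R U Ks k i ∧ z ∉ Z' \ Z ∧
      Disjoint (Z' \ Z) F₀ ∧ (Z' \ Z).card ≤ ab b l ∧ L'.length ≤ ab b l * b ∧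
      ∀ q ∈ L', q.1 ∈ Lv R U Ks k i ∧ FON b l K m q.2 := by
  have hyd : k ≤ ((nO R (Lv R U Ks k i) y).card : ℝ) := by
    change y ∈ Ks ∪ U.filter (fun z => k ≤ ((nO R (Lv R U Ks k i) z).card : ℝ)) at hy
    rw [mem_union, mem_filter] at hy
    rcases hy with h | h
    · exact absurd h hyK
    · exact h.2
  set S := nO R (Lv R U Ks k i) y \ (F₀ ∪ insert z Z) with hS
  have hScard : 2 ^ ab b l ≤ S.card := by
    have h1 := le_card_sdiff (F₀ ∪ insert z Z) (nO R (Lv R U Ks k i) y)
    have h2 : (F₀ ∪ insert z Z).card ≤ F₀.card + (Z.card + 1) :=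
      (card_union_le _ _).trans (Nat.add_le_add_left (card_insert_le _ _) _)
    have h3 : F₀.card + Z.card + 1 + 2 ^ ab b l ≤ (nO R (Lv R U Ks k i) y).card := by
      exact_mod_cast hk.trans hyd
    have h4 : (nO R (Lv R U Ks k i) y).card - (F₀ ∪ insert z Z).card ≤ S.card := h1
    omega
  obtain ⟨w, hwl, hwS, hwR⟩ := exists_tl hT (ab b l) S hScard
  have hwne : w ≠ [] := by
    intro h
    rw [h] at hwl
    simp only [List.length_nil] at hwl
    have := ab_pos (b := b) (l := l)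
    omega
  obtain ⟨w', x, rfl⟩ : ∃ w' x, w = w' ++ [x] := ⟨w.dropLast, w.getLast hwne, (List.dropLast_append_getLast hwne).symm⟩
  have hnd := tl_nodup hT hwR
  rw [List.pairwise_append] at hwR
  obtain ⟨hw'R, _, hw'x⟩ := hwR
  have hw'x' : ∀ u ∈ w', R u x := fun u hu => hw'x u hu x (by simp)
  have hxw' : x ∉ w' := by
    rw [List.nodup_append] at hnd
    intro h
    exact hnd.2.2 x h x (by simp) rfl
  have hxS : x ∈ S := hwS x (by simp)
  have hw'S : ∀ u ∈ w', u ∈ S := fun u hu => hwS u (by simp [hu])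
  have hSmem : ∀ u ∈ S, u ∈ Lv R U Ks k i ∧ R y u ∧ u ∉ F₀ ∧ u ≠ z ∧ u ∉ Z := by
    intro u hu
    rw [hS, mem_sdiff, mem_union, mem_insert, nO, mem_filter] at hu
    push Not at hu
    exact ⟨hu.1.1, hu.1.2, hu.2.1, hu.2.2.1, hu.2.2.2⟩
  have hblk : blk c ≤ w'.length := by
    have h2 : w'.length + 1 = ab b l := by rw [← hwl]; simp
    have h3 : blk c + 1 ≤ ab b l := hc.1.blk_lt_a (Nat.zero_le l) le_rfl
    omega
  obtain ⟨Zc, Lc, hPc, hZc, _⟩ := AEB.pe_block hT c x w' hw'R hw'x' hblk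
  have hZcS : ∀ u ∈ Zc, u ∈ S := fun u hu => hw'S u (List.mem_toFinset.mp (hZc hu))
  have hxZc : x ∉ Zc := fun h => hxw' (List.mem_toFinset.mp (hZc h))
  have hZccard : Zc.card + 1 ≤ ab b l := by
    have h1 := card_le_card hZc
    have h2 := List.toFinset_card_le w'
    have h3 : w'.length + 1 = ab b l := by rw [← hwl]; simp
    omega
  obtain ⟨A, B, rfl⟩ := List.append_of_mem (hL.symm.subset (List.mem_cons_self) : (y, c) ∈ L)
  have hAB : (A ++ B).Perm L₁ := (List.perm_middle.symm.trans hL).cons_inv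
  have hZx : x ∉ Z := (hSmem x hxS).2.2.2.2
  have hdZ : Disjoint Z Zc := by
    rw [disjoint_right]
    exact fun u hu => (hSmem u (hZcS u hu)).2.2.2.2
  have hE := hPE.extend (hSmem x hxS).2.1 hxZc hZx hdZ hPc
  have hnew : ∀ u ∈ (Z ∪ insert x Zc) \ Z, u ∈ S := by
    intro u hu
    rw [mem_sdiff, mem_union, mem_insert] at hu
    rcases hu.1 with h | h | h
    · exact absurd h hu.2
    · rw [h]; exact hxS
    · exact hZcS u h
  refine ⟨Z ∪ insert x Zc, Lc, A ++ (Lc ++ B), hE, ?_, subset_union_left, ?_, ?_, ?_, ?_, ?_, ?_⟩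
  · refine List.Perm.trans ?_ (List.Perm.append_left Lc hAB)
    rw [← List.append_assoc, ← List.append_assoc]
    exact List.Perm.append_right B List.perm_append_comm
  · exact fun u hu => (hSmem u (hnew u hu)).1
  · exact fun h => (hSmem z (hnew z h)).2.2.2.1 rfl
  · rw [disjoint_left]
    exact fun u hu => (hSmem u (hnew u hu)).2.2.1
  · have h1 : (Z ∪ insert x Zc) \ Z ⊆ insert x Zc := by
      intro u hu
      rw [mem_sdiff, mem_union] at hu
      rcases hu.1 with h | h
      · exact absurd h hu.2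
      · exact h
    exact (card_le_card h1).trans ((card_insert_le _ _).trans hZccard)
  · have h1 := hPc.length_le hc.1.1 hc.1.2.1
    calc Lc.length ≤ b * (Zc.card + 1) := h1
      _ ≤ b * ab b l := Nat.mul_le_mul_left _ hZccard
      _ = ab b l * b := Nat.mul_comm _ _
  · intro q hq
    have h1 := (PE.host hPc q hq).1
    refine ⟨?_, (PE.near hPc hc (by omega) q hq).mono (by omega)⟩
    rcases h1 with h1 | h1
    · rw [h1]; exact (hSmem x hxS).1
    · exact (hSmem _ (hZcS _ h1)).1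

/-- **Placing lemma**: the items `L₀` at hosts in level `i` are replaced by items at hosts in `Ks` -/
theorem placing (hT : AE32.Tour R) {U Ks : Finset V} {k : ℝ} {b l K : ℕ} (hb : 1 ≤ b) (hK : Ks ⊆ U) (i m : ℕ)
    {F : Fd} {z : V} {Z F₀ : Finset V} {L L₀ L₁ : List (V × Fd)} (hPE : PE R F z Z L) (hL : L.Perm (L₀ ++ L₁))
    (hL₀ : ∀ q ∈ L₀, q.1 ∈ Lv R U Ks k i ∧ FON b l K (m + i * ab b l) q.2)
    (hk : (F₀.card : ℝ) + Z.card + 1 + L₀.length * wB b (ab b l) i + 2 ^ ab b l ≤ k) :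
    ∃ Z' L' L'', PE R F z Z' L'' ∧ L''.Perm (L' ++ L₁) ∧ Z ⊆ Z' ∧ Z' \ Z ⊆ U ∧ z ∉ Z' \ Z ∧ Disjoint (Z' \ Z) F₀ ∧
      (Z' \ Z).card ≤ L₀.length * wB b (ab b l) i ∧ L'.length ≤ L₀.length * vB b (ab b l) i ∧
      ∀ q ∈ L', q.1 ∈ Ks ∧ FON b l K m q.2 := by
  induction i generalizing Z L L₀ L₁ with
  | zero =>
    refine ⟨Z, L₀, L, hPE, hL, Subset.refl _, ?_, ?_, ?_, ?_, ?_, ?_⟩
    · simp
    · simp
    · simp
    · simp
    · simp [vB]
    · intro q hq
      obtain ⟨h1, h2⟩ := hL₀ q hq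
      exact ⟨h1, h2.mono (Nat.le_add_right _ _)⟩
  | succ i ih =>
    induction L₀ generalizing Z L L₁ with
    | nil =>
      refine ⟨Z, [], L, hPE, hL, Subset.refl _, ?_, ?_, ?_, ?_, ?_, ?_⟩ <;> simp
    | cons p T₀ ihT =>
      obtain ⟨y, c⟩ := p
      obtain ⟨hy, hc⟩ := hL₀ (y, c) (List.mem_cons_self)
      have hT₀ : ∀ q ∈ T₀, q.1 ∈ Lv R U Ks k (i + 1) ∧ FON b l K (m + (i + 1) * ab b l) q.2 :=
        fun q hq => hL₀ q (List.mem_cons_of_mem _ hq)
      have hW : wB b (ab b l) (i + 1) = ab b l + ab b l * b * wB b (ab b l) i := rfl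
      have hV : vB b (ab b l) (i + 1) = ab b l * b * vB b (ab b l) i := by
        unfold vB; rw [pow_succ]; ring
      have hk' : (F₀.card : ℝ) + Z.card + 1 + ((T₀.length : ℝ) + 1) * wB b (ab b l) (i + 1) + 2 ^ ab b l ≤ k := by
        have := hk
        rw [List.length_cons] at this
        push_cast at this
        exact this
      by_cases hyK : y ∈ Ks
      · have hL' : L.Perm (T₀ ++ (y, c) :: L₁) := hL.trans (by
          rw [List.cons_append]; exact List.perm_middle.symm)
        have hkT : (F₀.card : ℝ) + Z.card + 1 + T₀.length * wB b (ab b l) (i + 1) + 2 ^ ab b l ≤ k := by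
          have h0 : (0 : ℝ) ≤ wB b (ab b l) (i + 1) := Nat.cast_nonneg _
          nlinarith
        obtain ⟨Z', L', L'', h1, h2, h3, h4, h5, h6, h7, h8, h9⟩ := ihT hPE hL' hT₀ hkT
        refine ⟨Z', (y, c) :: L', L'', h1, h2.trans ?_, h3, h4, h5, h6, ?_, ?_, ?_⟩
        · rw [List.cons_append]; exact List.perm_middle
        · rw [List.length_cons, Nat.add_mul]; omega
        · have := vB_pos (b := b) (l := l) hb (i + 1)
          rw [List.length_cons, List.length_cons, Nat.add_mul]; omega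
        · intro q hq
          rcases List.mem_cons.mp hq with h | h
          · rw [h]; exact ⟨hyK, hc.mono (Nat.le_add_right _ _)⟩
          · exact h9 q h
      · have hWa : (ab b l : ℝ) + ab b l * b * wB b (ab b l) i = wB b (ab b l) (i + 1) := by
          rw [hW]; push_cast; ring
        have hWn : (0 : ℝ) ≤ wB b (ab b l) (i + 1) := Nat.cast_nonneg _
        have hwn : (0 : ℝ) ≤ wB b (ab b l) i := Nat.cast_nonneg _
        have hTn : (0 : ℝ) ≤ (T₀.length : ℝ) * wB b (ab b l) (i + 1) := by positivity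
        have hk1 : (F₀.card : ℝ) + Z.card + 1 + 2 ^ ab b l ≤ k := by nlinarith
        have hL1 : L.Perm ((y, c) :: (T₀ ++ L₁)) := by rw [List.cons_append] at hL; exact hL
        obtain ⟨Z₁, Lc, L₁'', p1, p2, p3, p4, p5, p6, p7, p8, p9⟩ :=
          place_one hT i (F₀ := F₀) (m := m + i * ab b l) hPE hL1 hy hyK (hc.mono (by
            rw [Nat.add_mul, Nat.one_mul, Nat.add_assoc])) hk1
        have hZ₁ : Z₁.card ≤ Z.card + ab b l := by
          have := card_sdiff_add_card_eq_card p3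
          omega
        have hZ₁' : (Z₁.card : ℝ) ≤ Z.card + ab b l := by exact_mod_cast hZ₁
        have hLcn : (Lc.length : ℝ) ≤ ab b l * b := by exact_mod_cast p8
        have hk2 : (F₀.card : ℝ) + Z₁.card + 1 + Lc.length * wB b (ab b l) i + 2 ^ ab b l ≤ k := by
          have h1 : (Lc.length : ℝ) * wB b (ab b l) i ≤ ab b l * b * wB b (ab b l) i :=
            mul_le_mul_of_nonneg_right hLcn hwn
          linarith
        obtain ⟨Z₂, L₂', L₂'', q1, q2, q3, q4, q5, q6, q7, q8, q9⟩ := ih p1 p2 p9 hk2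
        have hq7 : (Z₂ \ Z₁).card ≤ ab b l * b * wB b (ab b l) i :=
          q7.trans (Nat.mul_le_mul_right _ p8)
        have hZ₂ : Z₂.card ≤ Z.card + wB b (ab b l) (i + 1) := by
          have := card_sdiff_add_card_eq_card q3
          rw [hW]
          omega
        have hZ₂' : (Z₂.card : ℝ) ≤ Z.card + wB b (ab b l) (i + 1) := by exact_mod_cast hZ₂
        have hL2 : L₂''.Perm (T₀ ++ (L₂' ++ L₁)) := by
          refine q2.trans ?_
          rw [← List.append_assoc, ← List.append_assoc]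
          exact List.Perm.append_right _ List.perm_append_comm
        have hk3 : (F₀.card : ℝ) + Z₂.card + 1 + T₀.length * wB b (ab b l) (i + 1) + 2 ^ ab b l ≤ k := by
          linarith
        obtain ⟨Z₃, L₃', L₃'', r1, r2, r3, r4, r5, r6, r7, r8, r9⟩ := ihT q1 hL2 hT₀ hk3
        have hsub : Z₃ \ Z ⊆ (Z₃ \ Z₂) ∪ ((Z₂ \ Z₁) ∪ (Z₁ \ Z)) := by
          intro u hu
          rw [mem_sdiff] at hu
          by_cases h1 : u ∈ Z₂
          · by_cases h2 : u ∈ Z₁
            · simp [h2, hu.2]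
            · simp [h1, h2]
          · simp [hu.1, h1]
        have hLvU : Lv R U Ks k i ⊆ U := Lv_sub hK i
        refine ⟨Z₃, L₃' ++ L₂', L₃'', r1, ?_, p3.trans (q3.trans r3), ?_, ?_, ?_, ?_, ?_, ?_⟩
        · rw [List.append_assoc]; exact r2
        · exact hsub.trans (union_subset r4 (union_subset q4 (p4.trans hLvU)))
        · intro h
          have := hsub h
          rw [mem_union, mem_union] at this
          rcases this with h | h | h
          · exact r5 h
          · exact q5 h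
          · exact p5 h
        · exact (disjoint_union_left.mpr ⟨r6, disjoint_union_left.mpr ⟨q6, p6⟩⟩).mono_left hsub
        · have h1 := card_le_card hsub
          have h2 := card_union_le (Z₃ \ Z₂) ((Z₂ \ Z₁) ∪ (Z₁ \ Z))
          have h3 := card_union_le (Z₂ \ Z₁) (Z₁ \ Z)
          rw [List.length_cons, Nat.add_mul]
          rw [hW] at r7 ⊢
          omega
        · have h1 : L₂'.length ≤ ab b l * b * vB b (ab b l) i := q8.trans (Nat.mul_le_mul_right _ p8)
          rw [List.length_append, List.length_cons, Nat.add_mul]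
          rw [hV] at r8 ⊢
          omega
        · intro q hq
          rcases List.mem_append.mp hq with h | h
          · exact r9 q h
          · exact q9 q h

end AET
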