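import Pool.Agent.AET.TameL
import Pool.Agent.AET.PlaceL
import Pool.Agent.AEG.FinH

/-!
# Light branches: the final step at the first vertex of the line
-/

set_option autoImplicit false

namespace AET

open Finset AE15 AED AEB SPD AEG
open scoped Classical

private theorem sum_le_isz {V : Type*} (M : List (V × Fd)) (t : V × Fd → ℝ) (a B : ℝ)
    (h : ∀ r ∈ M, t r ≤ a * (r.2.size + 1) + B) : (M.map t).sum ≤ a * AEB.isz M + M.length * B := by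
  induction M with
  | nil => simp [AEB.isz]
  | cons r M ih =>
    have h1 := h r List.mem_cons_self
    have h2 := ih (fun r hr => h r (List.mem_cons_of_mem _ hr))
    rw [List.map_cons, List.sum_cons, AEB.isz_cons, List.length_cons]
    push_cast
    linarith

private theorem toF_flags (L : List (Fd × Fd)) : ∀ t ∈ (toF L).trees, t.1 = true := by
  cases L with
  | nil => simp [toF, Fd.trees]
  | cons q L => simp [toF, Fd.trees]

theorem inR_big (F : Fd) : ∀ {l j : ℕ}, j + F.size ≤ l → InR l j F := by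
  induction F with
  | nil => intro _ _ _; exact trivial
  | node d c s ihc ihs =>
    intro l j h
    simp only [Fd.size] at h
    refine ⟨?_, ihs (by omega)⟩
    cases d with
    | true => simpa using ihc (j := 0) (by omega)
    | false => simpa using ⟨(by omega : j + 1 ≤ l), ihc (j := j + 1) (by omega)⟩

theorem fok_of_deg {b l : ℕ} {F : Fd} (h1 : F.len ≤ b) (h2 : F.Deg b) (h : F.size ≤ l) : FOK b l 0 F :=
  ⟨h1, h2, inR_big F (by omega)⟩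

theorem toF_degL {b l Kl : ℕ} (L : List (Fd × Fd)) (h : ∀ t ∈ L, FOL b l Kl 0 t.1 ∧ FOL b l Kl 0 t.2) :
    ∀ t ∈ (toF L).trees, t.2.len ≤ 2 * b + 1 ∧ t.2.Deg (2 * b + 1) := by
  cases L with
  | nil => simp [toF, Fd.trees]
  | cons q L =>
    have h2 : ∀ t ∈ q :: L, t.1.size + t.2.size + 1 ≤ szS (q :: L) := by
      intro t ht
      unfold szS
      exact List.single_le_sum (by simp) _ (List.mem_map.2 ⟨t, ht, rfl⟩)
    have h1 := chF_fok (b := b) (l := szS (q :: L)) (B := szS (q :: L)) q L (fun t ht => by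
      have h3 := h2 t ht
      exact ⟨fok_of_deg (h t ht).1.1 (h t ht).1.2.1 (by omega), fok_of_deg (h t ht).2.1 (h t ht).2.2.1 (by omega)⟩) (by
      intro t ht
      have h3 := h2 t ht
      omega)
    intro t ht
    have : t = (true, chF q L) := by simpa [toF, Fd.trees, chF] using ht
    rw [this]
    exact ⟨h1.1, h1.2.1⟩

theorem fg_blk_chFL {b l a Kl : ℕ} (hab : ab b l ≤ a) {q : Fd × Fd} (hq : FOL b l Kl 0 q.2) (L : List (Fd × Fd)) :
    blk (chF q L) ≤ q.1.size + a := by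
  have h1 : blk (toF L) = 0 := by
    cases L with
    | nil => rfl
    | cons q L => simp [toF, blk]
  have h2 := AEG.blk_le_size (flip q.1)
  rw [flip_size] at h2
  have h3 := FOL.blk_lt_a hq (Nat.zero_le _) hab
  unfold chF
  rw [AEG.blk_app, AEG.blk_app, h1]
  omega

/-- **Final step at the first vertex of the line**; the factor `K` depends only on the class and on `P` -/
theorem finTLL (p : NP) (hp : p.OK) (hab : ab p.b p.l ≤ p.a) (hB2 : (2 * p.b) ^ p.A0 ≤ p.B) {D₀ : ℕ}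
    (hD₀ : 2 * p.A ≤ D₀) {ω c η η₁ κ₀ κ₁ κ γ₀ τ s σ₂ μ : ℝ} (P : KB D₀ ω c η η₁ κ₀ κ₁ κ γ₀ τ s σ₂ μ) {gl el ul : ℝ}
    {ml : ℕ} (hgl : 0 < gl) (hel : 0 < el) (hul : 0 < ul) (hLi : LightH p.b κ η gl el ul ml) {Kl : ℕ} (hKl0 : 0 < Kl)
    (hKl4 : 4 * ((p.b * (p.e + 1) : ℕ) : ℝ) ≤ gl * ω * Kl) : ∃ K : ℕ,
    ∀ {κU s' : ℝ}, 0 < κU → κU ≤ κ → 0 < s' → ∃ gd : ℕ, ∀ h lam sig w K1 : ℕ, 4 * h + p.e ≤ lam → ∃ C : ℕ,
    ∀ {V : Type} {R : V → V → Prop}, AE32.Tour R → ∀ {Y W : Finset V} {N : V → Prop},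
      s' * Y.card ≤ ((Y.filter (fun v => N v ∧ Good R κU η Y v ∧ lam ≤ (nI R (Y ∪ W) v).card)).card : ℝ) →
      (Y.filter (fun u => ¬ N u ∧ sig ≤ (nI R (Y ∪ W) u).card ∧
        (Y.filter (fun v => N v ∧ R v u ∧ Good R κU η Y v ∧ lam ≤ (nI R (Y ∪ W) v).card)).card ≤ 2 * p.c0)).card ≤ K1 →
      W.card ≤ w → ∀ {q : Fd × Fd} {L : List (Fd × Fd)}, q.1.size ≤ h → (∀ t ∈ L.take 1, t.1.size ≤ h) →
      (∀ t ∈ q.1.trees, t.1 = true) → (∀ t ∈ q :: L, FON p.b p.l Kl gd t.1 ∧ FON p.b p.l Kl gd t.2) →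
      K * (szS L + 1) ≤ q.2.size → szS (q :: L) + C ≤ Y.card + W.card →
      ∃ y ∈ Y, N y ∧ ∃ S ⊆ Y ∪ W, y ∉ S ∧ EmbS R (q :: L) y S := by
  obtain ⟨hω0, hω1, hc0, hc1, hη0, hη1, hη₁0, hη₁1, hκ₀0, hκ₁0, hκ₁1, hκ0, hκ1, hs0, hγ₀0, hτ0, hσ₂0, hμ0, hκ₁η, hκs⟩ :=
    P.num
  obtain ⟨hD, hω, hc, hη, hη₁, hκ₀, hκ₁, hκ, hγ₀, hτ, hs, hσ₂, hμ⟩ := id P
  have hpc0 : (0 : ℝ) ≤ p.c0 := Nat.cast_nonneg _
  have hpc : (0 : ℝ) ≤ p.c := Nat.cast_nonneg _
  have hcη : c * η ≤ 1 * η := mul_le_mul_of_nonneg_right (by linarith) hη0.le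
  have hη₁1' : η₁ ≤ 1 / 16 := by linarith
  have hcη₁ : c * η₁ ≤ 1 * η₁ := mul_le_mul_of_nonneg_right (by linarith) hη₁0.le
  obtain ⟨K, hK⟩ : ∃ K : ℕ, K = p.A + ⌈1 / ω⌉₊ := ⟨_, rfl⟩
  have hKA : p.A ≤ K := by omega
  have hK1 : 1 ≤ ω * K := by
    have h1 : 1 / ω ≤ (⌈1 / ω⌉₊ : ℝ) := Nat.le_ceil _
    have h2 : ((⌈1 / ω⌉₊ : ℕ) : ℝ) ≤ K := by exact_mod_cast (by omega : ⌈1 / ω⌉₊ ≤ K)
    have h3 := h1.trans h2
    rw [div_le_iff₀ hω0] at h3
    linarith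
  refine ⟨K, ?_⟩
  intro κU s' hU0 hUκ hs'
  obtain ⟨n₂, w₀, m₀, gd, hplace⟩ := placeL p hp P hU0 hUκ p.e
  refine ⟨gd, ?_⟩
  intro h lam sig w K1 hlam
  obtain ⟨k, hk⟩ : ∃ k : ℝ, k = min (κU / 2) (κU * s' / 4) := ⟨_, rfl⟩
  have hk0 : 0 < k := by rw [hk]; exact lt_min (by positivity) (by positivity)
  have hkU : 2 * k ≤ κU := by
    have : k ≤ κU / 2 := by rw [hk]; exact min_le_left _ _
    linarith
  have hks : 2 * k / κU ≤ s' / 2 := by
    have : k ≤ κU * s' / 4 := by rw [hk]; exact min_le_right _ _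
    rw [div_le_iff₀ hU0]
    linarith
  have hk1 : k ≤ 1 := by linarith
  obtain ⟨γL, ε₀, μ₀, mL, hγL, hε₀, hμ₀, hone⟩ := AET.itX_one (2 * p.b + 1) (by omega) hk0 hk1
    (show 0 < 2 * η by positivity) (by linarith)
  obtain ⟨μ', hμ'⟩ : ∃ μ' : ℝ, μ' = min (k / 4) μ₀ := ⟨_, rfl⟩
  obtain ⟨σ, hσ⟩ : ∃ σ : ℝ, σ = μ' / (8 * (1 + p.c0 + p.c)) := ⟨_, rfl⟩
  obtain ⟨ε, hε⟩ : ∃ ε : ℝ, ε = min (c * σ / 8) ε₀ := ⟨_, rfl⟩
  have hμ'0 : 0 < μ' := by rw [hμ']; exact lt_min (by positivity) hμ₀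
  have hμ'k : μ' ≤ k / 4 := by rw [hμ']; exact min_le_left _ _
  have hμ'μ : μ' ≤ μ₀ := by rw [hμ']; exact min_le_right _ _
  have hσ0 : 0 < σ := by rw [hσ]; positivity
  have hε0 : 0 < ε := by rw [hε]; exact lt_min (by positivity) hε₀
  have hεc : ε ≤ c * σ / 8 := by rw [hε]; exact min_le_left _ _
  have hεε : ε ≤ ε₀ := by rw [hε]; exact min_le_right _ _
  have hσ1 : (1 + (p.c0 : ℝ) + p.c) * σ = μ' / 8 := by
    rw [hσ]
    field_simp
  have hσ2 : σ ≤ μ' / 8 := by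
    have h1 : 0 ≤ ((p.c0 : ℝ) + p.c) * σ := by positivity
    linarith
  have hcσ : c * σ ≤ 1 * σ := mul_le_mul_of_nonneg_right (by linarith) hσ0.le
  have hεσ : ε ≤ σ / 8 := by linarith
  have hkκ : k ≤ κ := by linarith
  obtain ⟨m₁, hm₁⟩ : ∃ m₁ : ℕ, m₁ = ⌈16 * ((p.c : ℝ) + p.c0 + 2) / σ₂⌉₊ := ⟨_, rfl⟩
  have hm₁' : 16 * ((p.c : ℝ) + p.c0 + 2) ≤ σ₂ * m₁ := by
    have h1 : 16 * ((p.c : ℝ) + p.c0 + 2) / σ₂ ≤ m₁ := by rw [hm₁]; exact Nat.le_ceil _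
    rw [div_le_iff₀ hσ₂0] at h1
    linarith
  obtain ⟨J, hJ⟩ : ∃ J : ℕ, J = 1 + p.e + w₀ + h := ⟨_, rfl⟩
  obtain ⟨m, hm⟩ : ∃ m : ℕ, m = m₀ + 1 := ⟨_, rfl⟩
  obtain ⟨n₁, hn₁⟩ := host_itemsG (c := c) hε0 (by linarith) hc0 m
  -- the constants which depend on the state
  obtain ⟨p₁, hp₁d⟩ : ∃ p₁ : NP, p₁ = up p (2 * max lam sig + K1) := ⟨_, rfl⟩
  have hp₁ : p₁.OK := by rw [hp₁d]; exact up_ok hp _
  have hab₁ : ab p₁.b p₁.l ≤ p₁.a := by rw [hp₁d]; exact hab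
  have hpb₁ : p₁.b = p.b := by rw [hp₁d]; rfl
  have hpl₁ : p₁.l = p.l := by rw [hp₁d]; rfl
  have hpe₁ : p₁.e = p.e := by rw [hp₁d]; rfl
  have hpA₁ : p₁.A = p.A := by rw [hp₁d]; rfl
  have hpc₁ : p₁.c0 = p.c0 := by rw [hp₁d]; rfl
  have hB2₁ : (2 * p₁.b) ^ p₁.A0 ≤ p₁.B := by rw [hp₁d]; exact hB2
  have hpu₁ : 2 * max lam sig + K1 ≤ p₁.u0 := by rw [hp₁d]; exact Nat.le_add_left _ _
  obtain ⟨m₂, hm₂⟩ : ∃ m₂ : ℕ, m₂ = p₁.g + (2 * (J + p.e + 2 * p₁.c0 + 1) + 4 * (p₁.c1 + p₁.u0 + p₁.g)) := ⟨_, rfl⟩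
  have hp₂ : (up p₁ m₂).OK := up_ok hp₁ m₂
  obtain ⟨n₃, hcfg⟩ := AET.cfg p₁ hp₁ hab₁ hB2₁ hγ₀0 hs'
  obtain ⟨CE', hEE⟩ := ee_allU (up p₁ m₂) hp₂ hab₁ hB2₁ (by
    show p₁.A ≤ D₀
    rw [hpA₁]
    omega) P hgl hel hul (by
    show LightH p₁.b κ η gl el ul ml
    rw [hpb₁]
    exact hLi) hKl0 (by
    show 4 * ((p₁.b * (p₁.e + 1) : ℕ) : ℝ) ≤ gl * ω * Kl
    rw [hpb₁, hpe₁]
    exact hKl4)
  obtain ⟨CE, hCEe⟩ : ∃ CE : ℝ, CE = CE' := ⟨_, rfl⟩
  have hCE : 0 ≤ CE := by rw [hCEe]; exact Nat.cast_nonneg _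
  rw [← hCEe] at hEE
  obtain ⟨BB, hBB⟩ : ∃ BB : ℝ, BB = 2 * CE + m₁ + ((h + p.a + 1 : ℕ) / γL + mL) := ⟨_, rfl⟩
  obtain ⟨n₄, hn₄⟩ := exists_big [((1 : ℝ), κ₀), (2 * (p₁.c0 : ℝ) + 2, s' / 2), ((h : ℝ), κU ^ 2 / 128),
      (((J + p.e + 2 * p₁.c0 + 1 : ℕ) : ℝ), γ₀ / 16),
      (8 * ((p₁.c0 : ℝ) + p₁.c1 + (p₁.u0 + m₂ : ℕ) + p₁.g + 1), c * σ), (2 * (n₁ : ℝ), 1), ((J : ℝ), ε),
      ((m : ℝ) * BB, ω / 4), ((4 : ℝ), σ₂), ((40 : ℝ), 1), ((m : ℝ), 1)] (by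
    intro q hq
    simp only [List.mem_cons, List.not_mem_nil, or_false] at hq
    rcases hq with rfl | rfl | rfl | rfl | rfl | rfl | rfl | rfl | rfl | rfl | rfl
    · exact hκ₀0
    · show 0 < s' / 2
      positivity
    · show 0 < κU ^ 2 / 128
      positivity
    · show 0 < γ₀ / 16
      positivity
    · show 0 < c * σ
      positivity
    · exact one_pos
    · exact hε0
    · show 0 < ω / 4
      positivity
    · exact hσ₂0
    · exact one_pos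
    · exact one_pos)
  refine ⟨w + (n₂ + n₃ + n₄ + h + mL + ⌈CE⌉₊ + 1), ?_⟩
  intro V R hT X W N hdense hcnt hW q L hq1 hL1 hqf hcls hKq hsz
  have hXn : szS (q :: L) + (n₂ + n₃ + n₄ + h + mL + ⌈CE⌉₊ + 1) ≤ X.card := by omega
  have hbig := hn₄ X.card (by omega)
  obtain ⟨n, hnd⟩ : ∃ n : ℝ, n = (X.card : ℝ) := ⟨_, rfl⟩
  rw [← hnd] at hbig
  have b1 : (1 : ℝ) ≤ κ₀ * n := hbig _ List.mem_cons_self
  have b2 : 2 * (p₁.c0 : ℝ) + 2 ≤ s' / 2 * n := hbig (2 * (p₁.c0 : ℝ) + 2, s' / 2) (by simp)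
  have b3 : (h : ℝ) ≤ κU ^ 2 / 128 * n := hbig ((h : ℝ), κU ^ 2 / 128) (by simp)
  have b4 : ((J + p.e + 2 * p₁.c0 + 1 : ℕ) : ℝ) ≤ γ₀ / 16 * n :=
    hbig (((J + p.e + 2 * p₁.c0 + 1 : ℕ) : ℝ), γ₀ / 16) (by simp)
  have b5 : 8 * ((p₁.c0 : ℝ) + p₁.c1 + (p₁.u0 + m₂ : ℕ) + p₁.g + 1) ≤ c * σ * n :=
    hbig (8 * ((p₁.c0 : ℝ) + p₁.c1 + (p₁.u0 + m₂ : ℕ) + p₁.g + 1), c * σ) (by simp)
  have b6 : 2 * (n₁ : ℝ) ≤ 1 * n := hbig (2 * (n₁ : ℝ), 1) (by simp)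
  have b7 : (J : ℝ) ≤ ε * n := hbig ((J : ℝ), ε) (by simp)
  have b8 : (m : ℝ) * BB ≤ ω / 4 * n := hbig ((m : ℝ) * BB, ω / 4) (by simp)
  have b9 : (4 : ℝ) ≤ σ₂ * n := hbig ((4 : ℝ), σ₂) (by simp)
  have b10 : (40 : ℝ) ≤ 1 * n := hbig ((40 : ℝ), 1) (by simp)
  have b11 : (m : ℝ) ≤ 1 * n := hbig ((m : ℝ), 1) (by simp)
  have hn0 : 0 < n := by linarith
  have hX1 : 1 ≤ X.card := by omega
  have hX : X.Nonempty := card_pos.1 hX1
  have hszS := szS_cons q L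
  -- the class
  obtain ⟨N', hN'⟩ : ∃ N' : V → Prop, ∀ v, N' v ↔ (N v ∧ lam ≤ (nI R (X ∪ W) v).card ∧
    Good R k (2 * η) X v) := ⟨_, fun _ => Iff.rfl⟩
  have hcl : Cl R (Good R κU η X) s' p₁ q.2 X N' :=
    cls_good hT hp₁ (A := X ∪ W) (N := N) (k := k) (η' := 2 * η) subset_union_left hU0 hk0.le hkU
      (by linarith) hks (by rw [← hnd]; exact b2) hdense (by rw [hpc₁]; exact hcnt) hpu₁ hN' q.2
  obtain ⟨G, hG, hGg, hGc, hGo⟩ := exists_G P hT X (by rw [← hnd]; exact b1)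
  have hSt : AEB.St R p₁ (Good R κU η X) γ₀ s' X G N' := by
    refine ⟨hT, hG, fun g hg => ?_, hGc, hGo, hcl.1⟩
    exact AEB.Good.gdU (hGg g hg) (Subset.refl _) (mul_le_mul_of_nonneg_right (by linarith) (Nat.cast_nonneg _))
      (by linarith)
  have hFON : FON p.b p.l Kl gd q.2 := (hcls q List.mem_cons_self).2
  have hFOK : FOL p₁.b p₁.l Kl 0 q.2 := by
    rw [hpb₁, hpl₁]
    exact hFON.1
  have hDA : p₁.A ≤ q.2.size := by
    rw [hpA₁]
    have h1 : K * 1 ≤ K * (szS L + 1) := Nat.mul_le_mul_left _ (by omega)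
    omega
  obtain ⟨y₀, x, Z, L₁, D, hH, hDF, hDs, hDsz, hcov⟩ := hcfg (Y := X) (Subset.refl _) (by omega) hSt (K := Kl)
    (M := q.2.size + 1 + Kl * p₁.a) (by omega) hFOK (by omega) hDA hcl
  obtain ⟨⟨hy₀, hx, hNy, hyZ, hZX, hPE, hZe, hxZ, hxD, hGd⟩, -⟩ := hH
  rw [hpe₁] at hZe
  obtain ⟨hNy1, hNy2, hNy3⟩ := (hN' y₀).1 hNy
  -- the small in-part
  have hT' := SPD.rv_tour hT
  obtain ⟨SA, hSA, hEA⟩ := fd_four hT' y₀ q.1 (nI R (X ∪ W) y₀ \ Z) hqf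
    (fun y hy => (mem_nI.1 (mem_sdiff.1 hy).1).2) (by
      have h1 := le_card_sdiff Z (nI R (X ∪ W) y₀)
      omega)
  have hSAm : ∀ z ∈ SA, z ∈ X ∪ W ∧ R z y₀ ∧ z ∉ Z := by
    intro z hz
    have h1 := hSA hz
    rw [mem_sdiff, mem_nI] at h1
    exact ⟨h1.1.1, h1.1.2, h1.2⟩
  have hSAc : SA.card ≤ h := by
    rw [EmbB.card hEA]
    exact hq1
  have hySA : y₀ ∉ SA := fun hy => hT.irr y₀ (hSAm y₀ hy).2.1
  have hSAc' : (SA.card : ℝ) ≤ h := by exact_mod_cast hSAc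
  -- placing
  rw [hpb₁, hpl₁] at hFOK hDF
  obtain ⟨Ks, hKs, hKh, Z', L', L'', hPE', hL'', hZZ', hZ'X, hyZ', hZ'SA, hZ'c, hL'c, hL'K⟩ := hplace hT (U := X) (X := X)
    (Z := Z) (F₀ := SA) (h := y₀) (x := x) (F := q.2) (D := D) (L := L₁) (by omega) (Subset.refl _)
    (mul_le_mul_of_nonneg_right hUκ (Nat.cast_nonneg _)) hPE hFON hZe hxD (by
      intro r hr
      refine ⟨?_, Or.inl (hGd r hr)⟩
      rcases (PE.host hPE r hr).1 with h1 | h1
      · rw [h1]; exact hy₀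
      · exact hZX h1) (by
      rw [← hnd]
      linarith)
  have hyZ'' : y₀ ∉ Z' := fun hy => hyZ' (mem_sdiff.2 ⟨hy, hyZ⟩)
  have hZ'X' : Z' ⊆ X := by
    intro v hv
    by_cases hvZ : v ∈ Z
    · exact hZX hvZ
    · exact hZ'X (mem_sdiff.2 ⟨hv, hvZ⟩)
  have hZ'cc : Z'.card ≤ p.e + w₀ := by
    have h1 := card_sdiff_add_card_eq_card hZZ'
    omega
  have hSAZ' : Disjoint SA Z' := by
    rw [disjoint_left]
    intro v hv hv'
    by_cases hvZ : v ∈ Z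
    · exact (hSAm v hv).2.2 hvZ
    · exact disjoint_left.1 hZ'SA (mem_sdiff.2 ⟨hv', hvZ⟩) hv
  obtain ⟨Za, hZa⟩ : ∃ Za, Za = insert y₀ (Z' ∪ SA) := ⟨_, rfl⟩
  have hZaJ : Za.card ≤ J := by
    rw [hZa]
    have h1 := card_insert_le y₀ (Z' ∪ SA)
    have h2 := card_union_le Z' SA
    omega
  have hyZa : y₀ ∈ Za := by rw [hZa]; exact mem_insert_self _ _
  have hZ'Za : Z' ⊆ Za := by rw [hZa]; exact subset_union_left.trans (subset_insert _ _)
  have hSAZa : SA ⊆ Za := by rw [hZa]; exact subset_union_right.trans (subset_insert _ _)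
  have hxZa : x ∈ Za := by
    rcases hxZ with h1 | h1
    · rw [h1]; exact hyZa
    · exact hZ'Za (hZZ' h1)
  have hZaZ : (Za \ Z').card ≤ 1 + h := by
    have h1 : Za \ Z' ⊆ insert y₀ SA := by
      intro v hv
      rw [hZa, mem_sdiff, mem_insert, mem_union] at hv
      rw [mem_insert]
      rcases hv.1 with h1 | h1 | h1
      · exact Or.inl h1
      · exact absurd h1 hv.2
      · exact Or.inr h1
    have h2 := (card_le_card h1).trans (card_insert_le _ _)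
    omega
  -- the coverage at the final host
  have hEc : (insert y₀ Z).card ≤ p.e := (card_insert_le _ _).trans hZe
  have hcov' : (¬ NN D ∧ γ₀ / 16 * X.card ≤ ((nO R G x).card : ℝ)) ∨
      CovE R (up p₁ m₂) (γ₀ / 16) X G Za x ((up p₁ m₂).ub D) := by
    refine hcov.imp id (fun h1 => ?_)
    have h2 := covE_of_cov hp₁ hG h1 (by rw [hpe₁]; exact hEc)
    have h3 := covE_any hT hp₁ hG h2 J m₂ (by
      rw [← hnd]
      refine le_trans ?_ b4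
      exact_mod_cast (by omega : J + (insert y₀ Z).card + 2 * p₁.c0 + 1 ≤ J + p.e + 2 * p₁.c0 + 1)) hZaJ
    have h4 : insert y₀ Z ∪ Za = Za := union_eq_right.2 (insert_subset hyZa (hZZ'.trans hZ'Za))
    rw [h4] at h3
    obtain ⟨Nx, U, Q, a1, a2, a3, a4, a5, a6, a7, a8⟩ := h3
    refine ⟨Nx, U, Q, a1, a2, a3, a4.trans ?_, a5, a6, a7, a8⟩
    have h5 : p₁.ub D ≤ p₁.u0 + p₁.g := by
      unfold NP.ub
      split_ifs <;> omega
    have h6 : p₁.u0 + m₂ ≤ (up p₁ m₂).ub D := by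
      unfold NP.ub
      split_ifs
      · exact Nat.le_add_right _ _
      · exact le_rfl
    omega
  obtain ⟨𝓕x, H, h𝓕x, hHX, hHE, hHc, hfin⟩ := final_clE hT hp₂ (κ := κ) (η := η) (s := s) (σ := σ) (δ := ε) (ε := ε)
    (c := c) hG hGg hcov' hxZa hX hκ0 hη0 hκ₁0 hη₁0 hσ0 hε0.le hε0 hc0 (by linarith) (by linarith) (by linarith)
    (by linarith) (by linarith) (by linarith) hs0 (by rw [hs, hγ₀]; linarith) (by
      rw [← hnd]
      exact b5)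
  -- the items
  have hPT := pendallB (R := R) (toF L) y₀ (toF_flags L)
  obtain ⟨Lt, hLt⟩ : ∃ Lt, Lt = (toF L).trees.map (fun r => (y₀, r.2)) := ⟨_, rfl⟩
  rw [← hLt] at hPT
  have hLtc : Lt.length ≤ 1 := by
    rw [hLt, List.length_map, lenB]
    exact toF_len L
  have hLts : AEB.isz Lt = szS L := by
    have h1 := hPT.size
    rw [toF_size, card_empty] at h1
    omega
  have hLtm : ∀ r ∈ Lt, r.1 = y₀ ∧ r.2.len ≤ 2 * p.b + 1 ∧ r.2.Deg (2 * p.b + 1) ∧ r.2.size + 1 ≤ szS L ∧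
      blk r.2 ≤ h + p.a := by
    intro r hr
    have h2 : r.2.size + 1 ≤ AEB.isz Lt := by
      unfold AEB.isz
      exact List.single_le_sum (by simp) _ (List.mem_map.2 ⟨r, hr, rfl⟩)
    have hr' := hr
    rw [hLt] at hr'
    obtain ⟨t, ht, rfl⟩ := List.mem_map.1 hr'
    have h1 := toF_degL L (fun t ht => ⟨(hcls t (List.mem_cons_of_mem _ ht)).1.1, (hcls t (List.mem_cons_of_mem _ ht)).2.1⟩) t ht
    refine ⟨rfl, h1.1, h1.2, by omega, ?_⟩
    cases L with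
    | nil => simp [toF, Fd.trees] at ht
    | cons q' L' =>
      have h3 : t = (true, chF q' L') := by simpa [toF, Fd.trees, chF] using ht
      rw [h3]
      have h4 := fg_blk_chFL hab (hcls q' (by simp)).2.1 L'
      have h5 := hL1 q' (by simp)
      show blk (chF q' L') ≤ h + p.a
      omega
  have hPEF : PE R (app q.2 (toF L)) y₀ Z' (L'' ++ Lt) := by
    have h1 := pe_app hPE' hPT (disjoint_empty_right _)
    rwa [union_empty] at h1
  have hEmb : ∀ r ∈ L', FOL p.b p.l Kl 0 r.2 := fun r hr => (hL'K r hr).2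
  have h17 : 0 < 1 - 7 * η := by linarith
  have h16 : 0 < 1 - 8 * (2 * η) := by linarith
  have hm₁0 : (0 : ℝ) ≤ m₁ := Nat.cast_nonneg _
  have hmL0 : (0 : ℝ) ≤ mL := Nat.cast_nonneg _
  have hγL0 : 0 ≤ ((h + p.a + 1 : ℕ) : ℝ) / γL := by positivity
  obtain ⟨t, ht⟩ : ∃ t : V × Fd → ℝ, t = fun r => 1 / (1 - 8 * (2 * η)) * ((r.2.size : ℝ) + 1) + BB := ⟨_, rfl⟩
  have hBB0 : 0 ≤ BB := by rw [hBB]; linarith
  have hlen : (L' ++ Lt).length ≤ m := by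
    rw [List.length_append]
    omega
  -- sizes
  have hDX : (q.2.size : ℝ) ≤ n := by
    rw [hnd]
    exact_mod_cast (by omega : q.2.size ≤ X.card)
  have hisz : (AEB.isz (L' ++ Lt) : ℝ) ≤ (1 - 3 * ω) * n := by
    have h1 : q.2.size = Z'.card + (D.size + 1 + AEB.isz L') := by
      rw [hPE'.size]
      congr 1
      unfold AEB.isz
      rw [(hL''.map _).sum_eq]
      simp
    have h2 : ((K * (szS L + 1) : ℕ) : ℝ) ≤ q.2.size := by exact_mod_cast hKq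
    push_cast at h2
    have h3 : (szS L : ℝ) ≤ ω * q.2.size := by
      have h4 : ω * (K * ((szS L : ℝ) + 1)) ≤ ω * q.2.size := mul_le_mul_of_nonneg_left h2 hω0.le
      have h5 : 1 * ((szS L : ℝ) + 1) ≤ ω * K * ((szS L : ℝ) + 1) := mul_le_mul_of_nonneg_right hK1 (by positivity)
      linarith
    have h6 : 4 * ω * q.2.size ≤ (D.size : ℝ) + 1 := by
      have h7 : ((q.2.size + 1 : ℕ) : ℝ) ≤ ((p.A * (D.size + 1) : ℕ) : ℝ) := by
        rw [hpA₁] at hDsz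
        exact_mod_cast hDsz
      push_cast at h7
      have h8 : 2 * (p.A : ℝ) ≤ D₀ := by exact_mod_cast hD₀
      have h9 : (0 : ℝ) < D₀ := by
        have : (64 : ℝ) ≤ D₀ := by exact_mod_cast hD
        linarith
      have h10 : 2 * (q.2.size : ℝ) ≤ D₀ * (D.size + 1) := by
        have : 2 * (p.A : ℝ) * (D.size + 1) ≤ D₀ * (D.size + 1) := mul_le_mul_of_nonneg_right h8 (by positivity)
        linarith
      rw [hω]
      have h11 : 4 * (1 / (2 * (D₀ : ℝ))) * q.2.size = 2 * q.2.size / D₀ := by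
        field_simp
        ring
      rw [h11, div_le_iff₀ h9]
      linarith
    have h12 : (q.2.size : ℝ) = Z'.card + (D.size + 1 + AEB.isz L') := by exact_mod_cast h1
    rw [AEB.isz_append, hLts]
    push_cast
    have h13 : (0 : ℝ) ≤ Z'.card := Nat.cast_nonneg _
    have h14 : (1 - 3 * ω) * q.2.size ≤ (1 - 3 * ω) * n := mul_le_mul_of_nonneg_left hDX (by linarith)
    linarith
  have hsum : ((L' ++ Lt).map t).sum ≤ (1 - 5 * ω / 16) * X.card := by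
    rw [← hnd]
    have h1 := sum_le_isz (L' ++ Lt) t (1 / (1 - 8 * (2 * η))) BB (by
      intro r _
      rw [ht])
    refine h1.trans ?_
    have h4 : 1 / (1 - 8 * (2 * η)) * (AEB.isz (L' ++ Lt) : ℝ) ≤ (1 - 2 * ω) * n := by
      rw [div_mul_eq_mul_div, div_le_iff₀ h16, one_mul]
      refine hisz.trans ?_
      rw [hη]
      have h5 : (1 - 2 * ω) * n * (1 - 8 * (2 * (ω / 56))) - (1 - 3 * ω) * n = (5 * ω / 7 + 4 * ω * ω / 7) * n := by ring
      have h6 : 0 ≤ (5 * ω / 7 + 4 * ω * ω / 7) * n := by positivity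
      linarith
    have h8 : ((L' ++ Lt).length : ℝ) * BB ≤ m * BB := mul_le_mul_of_nonneg_right (by exact_mod_cast hlen) hBB0
    have h10 : 0 ≤ ω * n := by positivity
    linarith
  -- the core
  obtain ⟨S, hSX, hSZa, hS⟩ := coreG (R := R) (X := X) (H := H) (Z := Z') (Za := Za) (h := y₀) (e := x) (ω := ω) (c := c)
    (μ := μ') (ε := ε) (δ := ε) (m := m) hω0 (by linarith) hc hμ'0 (by linarith) (by linarith) (by
      have : (40 : ℝ) ≤ X.card := by rw [← hnd]; linarith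
      exact_mod_cast this) (by
      have : (m : ℝ) ≤ X.card := by rw [← hnd]; linarith
      exact_mod_cast this) h𝓕x hHX (by
      refine hHc.trans ?_
      have h1 : 3 * (1 + ((up p₁ m₂).c0 : ℝ) + (up p₁ m₂).c) * σ * X.card = 3 * ((1 + (p.c0 : ℝ) + p.c) * σ) * X.card := by
        have h2 : (up p₁ m₂).c0 = p.c0 := by rw [hp₁d]; rfl
        have h3 : (up p₁ m₂).c = p.c := by rw [hp₁d]; rfl
        rw [h2, h3]
        ring
      rw [h1, hσ1]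
      have h2 : 0 ≤ μ' * X.card := by positivity
      linarith) (F := app q.2 (toF L)) (L := L'' ++ Lt) (Lh := L' ++ Lt) (cf := D) (t := t) (by
      intro A Q P₀ a1 a2 a3 a4 a5 a6 a7 a8 a9 a10 a11
      have hcl' := hfin A Q P₀ a1 a2 a3 a4 a5 a6 a7 a8 a9 a10
      refine hEE hT D (by
        show FOL p₁.b p₁.l Kl 0 D
        rw [hpb₁, hpl₁]
        exact hDF) P₀ (R x) ?_ hcl'
      rw [app_size, toF_size] at a11
      have h1 : D.size + 1 + ⌈CE⌉₊ ≤ P₀.card := by omega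
      have h2 : ((D.size + 1 + ⌈CE⌉₊ : ℕ) : ℝ) ≤ P₀.card := by exact_mod_cast h1
      push_cast at h2
      have h3 := Nat.le_ceil CE
      linarith) hPEF (insert_subset hyZa hZ'Za) (by
      intro r hr
      rcases List.mem_append.1 hr with h1 | h1
      · exact (PE.host hPE' r h1).1
      · exact Or.inl (hLtm r h1).1) hHE.symm (by
      rw [← hnd]
      have : (Za.card : ℝ) ≤ J := by exact_mod_cast hZaJ
      linarith) (by
      rw [← List.cons_append]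
      exact hL''.append_right Lt) hlen (by
      intro r _
      rw [ht]
      show (0 : ℝ) ≤ 1 / (1 - 8 * (2 * η)) * ((r.2.size : ℝ) + 1) + BB
      positivity) (by
      intro r hr
      have hmono : ∀ t' : ℝ, t' ≤ t r → ItX R X ε μ' t' r.1 r.2 → ItX R X ε μ' (t r) r.1 r.2 := by
        rintro t' ht' ⟨𝓕, g1, g2⟩
        exact ⟨𝓕, g1, fun A hA hXA hz P₀ hP₀ hPc => g2 A hA hXA hz P₀ hP₀ (ht'.trans hPc)⟩
      rcases List.mem_append.1 hr with h1 | h1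
      · obtain ⟨Y, hY, hXY, hSY⟩ := hKh r.1 (hL'K r h1).1
        refine hmono _ ?_ (itX_super hT (up p₁ m₂) (κ := κ) (η := η) (s := s) (σ₂ := σ₂) (μ := μ') (ε := ε) (m := m₁)
          hY hXY hSY hκ0 hη0 (by linarith) hκ₁0 (by linarith) hη₁0 hσ₂0 hμ'0 hε0 (by linarith) (by linarith)
          (by linarith) (by linarith) (by rw [← hnd]; exact b9) (by linarith) (by linarith) (by linarith)
          (by linarith) (by linarith) (by
            have h3 : (up p₁ m₂).c0 = p.c0 := by rw [hp₁d]; rfl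
            have h4 : (up p₁ m₂).c = p.c := by rw [hp₁d]; rfl
            rw [h3, h4]
            exact hm₁') (K := 1) (C := CE) zero_le_one hCE (D := r.2) (hEE hT r.2 (by
            show FOL p₁.b p₁.l Kl 0 r.2
            rw [hpb₁, hpl₁]
            exact hEmb r h1)))
        rw [ht]
        show (1 * ((r.2.size : ℝ) + 1) + CE) / (1 - 7 * η) + m₁ ≤ 1 / (1 - 8 * (2 * η)) * ((r.2.size : ℝ) + 1) + BB
        have h3 : (1 * ((r.2.size : ℝ) + 1) + CE) / (1 - 7 * η) =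
            1 / (1 - 7 * η) * ((r.2.size : ℝ) + 1) + CE / (1 - 7 * η) := by
          field_simp
        have h4 : 1 / (1 - 7 * η) * ((r.2.size : ℝ) + 1) ≤ 1 / (1 - 8 * (2 * η)) * ((r.2.size : ℝ) + 1) := by
          apply mul_le_mul_of_nonneg_right _ (by positivity)
          exact one_div_le_one_div_of_le h16 (by linarith)
        have h7 : CE / (1 - 7 * η) ≤ 2 * CE := by
          rw [div_le_iff₀ h17]
          have : 0 ≤ CE * (1 - 14 * η) := mul_nonneg hCE (by linarith)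
          linarith
        rw [h3, hBB]
        linarith
      · obtain ⟨g1, g2, g3, g4, g5⟩ := hLtm r h1
        refine hmono _ ?_ (hone hT X r.1 (by omega) (by rw [g1]; exact hNy3) ε μ' hε0 hεε hμ'0 hμ'μ r.2 g2 g3)
        rw [ht]
        show ((r.2.size : ℝ) + 1) / (1 - 8 * (2 * η)) + ((blk r.2 : ℝ) + 1) / γL + mL ≤
          1 / (1 - 8 * (2 * η)) * ((r.2.size : ℝ) + 1) + BB
        have h3 : ((r.2.size : ℝ) + 1) / (1 - 8 * (2 * η)) = 1 / (1 - 8 * (2 * η)) * ((r.2.size : ℝ) + 1) := by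
          field_simp
        have h4 : ((blk r.2 : ℝ) + 1) / γL ≤ ((h + p.a + 1 : ℕ) : ℝ) / γL := by
          apply div_le_div_of_nonneg_right _ hγL.le
          exact_mod_cast (by omega : blk r.2 + 1 ≤ h + p.a + 1)
        rw [h3, hBB]
        linarith) hsum (n₁ := n₁) (by
      have : 2 * (n₁ : ℝ) ≤ X.card := by rw [← hnd]; linarith
      exact_mod_cast this) (fun A 𝓕 => hn₁ A 𝓕)
  -- the whole tree
  have hySX : y₀ ∉ S := fun hy => disjoint_left.1 hSZa hy hyZa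
  have hdisj : Disjoint SA (Z' ∪ S) := disjoint_union_right.2 ⟨hSAZ', (hSZa.mono_right hSAZa).symm⟩
  refine ⟨y₀, hy₀, hNy1, SA ∪ (Z' ∪ S), ?_, ?_, ?_⟩
  · refine union_subset (fun z hz => (hSAm z hz).1) (union_subset ?_ ?_)
    · exact hZ'X'.trans subset_union_left
    · exact hSX.trans subset_union_left
  · rw [mem_union, mem_union]
    rintro (h1 | h1 | h1)
    · exact hySA h1
    · exact hyZ'' h1
    · exact hySX h1
  · exact embS_of_chF q L (app_emb hdisj (flip_emb hEA) hS)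

end AET
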