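import Pool.Agent.AET.PlaceBL
import Pool.Agent.AEB.FinY

/-!
# Light branches: the last step of the embedding on one side of a cut
-/

namespace AET

open Finset AE15 AED AEB
open scoped Classical

/-- **The pieces**: all light items hang at hosts in `Ks`, everything used so far is in `Za` -/
theorem finYL (p : NP) (hp : p.OK) {D₀ : ℕ} {ω c η η₁ κ₀ κ₁ κ γ₀ τ s σ₂ μ : ℝ}
    (P : KB D₀ ω c η η₁ κ₀ κ₁ κ γ₀ τ s σ₂ μ) {C : ℝ} (hC : 0 ≤ C) (m J : ℕ) : ∃ n₀ : ℕ,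
    ∀ {V : Type} {R : V → V → Prop}, AE32.Tour R → ∀ {X G Ks Z Za : Finset V} {h x : V} {F D : Fd}
      {L Lh : List (V × Fd)} {K : ℕ}, n₀ ≤ X.card → G ⊆ X → (∀ g ∈ G, Good R κ₁ η₁ X g) →
      ((¬ NN D ∧ γ₀ / 16 * X.card ≤ ((nO R G x).card : ℝ)) ∨ CovE R p (γ₀ / 16) X G Za x (p.ub D)) →
      insert h Z ⊆ Za → Za.card ≤ J → x ∈ Za → Ks ⊆ X →
      (∀ y ∈ Ks, ∃ Y ⊆ X, ((X \ Y).card : ℝ) ≤ 5 * η * X.card ∧ SuperG R κ₁ η₁ τ Y y) →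
      PE R F h Z L → FOL p.b p.l K 0 D → L.Perm ((x, D) :: Lh) → (∀ q ∈ Lh, q.1 ∈ Ks ∧ FOL p.b p.l K 0 q.2) →
      Lh.length ≤ m → F.size ≤ D₀ * (D.size + 1) → (∀ F' : Fd, FOL p.b p.l K 0 F' → EE R κ η s p 1 C F') →
      (F.size : ℝ) + C + J ≤ X.card → ∃ S ⊆ X, Disjoint S Za ∧ Emb R F h (Z ∪ S) := by
  obtain ⟨hω0, hω1, hc0, hc1, hη0, hη1, hη₁0, hη₁1, hκ₀0, hκ₁0, hκ₁1, hκ0, hκ1, hs0, hγ₀0, hτ0, hσ₂0, hμ0, hκ₁η, hκs⟩ :=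
    P.num
  obtain ⟨hD, hω, hc, hη, hη₁, hκ₀, hκ₁, hκ, hγ₀, hτ, hs, hσ₂, hμ⟩ := P
  have hpc0 : (0 : ℝ) ≤ p.c0 := Nat.cast_nonneg _
  have hpc : (0 : ℝ) ≤ p.c := Nat.cast_nonneg _
  have hcη : c * η ≤ 1 * η := mul_le_mul_of_nonneg_right (by linarith) hη0.le
  have hη₁1' : η₁ ≤ 1 / 16 := by linarith
  have hcη₁ : c * η₁ ≤ 1 * η₁ := mul_le_mul_of_nonneg_right (by linarith) hη₁0.le
  obtain ⟨σ, hσ⟩ : ∃ σ : ℝ, σ = μ / (8 * (1 + p.c0 + p.c)) := ⟨_, rfl⟩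
  obtain ⟨ε, hε⟩ : ∃ ε : ℝ, ε = c * σ / 8 := ⟨_, rfl⟩
  have hσ0 : 0 < σ := by rw [hσ]; positivity
  have hε0 : 0 < ε := by rw [hε]; positivity
  have hσ1 : (1 + (p.c0 : ℝ) + p.c) * σ = μ / 8 := by
    rw [hσ]
    field_simp
  have hσ2 : σ ≤ μ / 8 := by
    have h1 : 0 ≤ ((p.c0 : ℝ) + p.c) * σ := by positivity
    linarith
  have hcσ : c * σ ≤ 1 * σ := mul_le_mul_of_nonneg_right (by linarith) hσ0.le
  have hεσ : ε ≤ σ / 8 := by rw [hε]; linarith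
  have hμκ : μ = κ₁ / 16 := by rw [hμ, hσ₂]; ring
  obtain ⟨m₁, hm₁⟩ : ∃ m₁ : ℕ, m₁ = ⌈16 * ((p.c : ℝ) + p.c0 + 2) / σ₂⌉₊ := ⟨_, rfl⟩
  have hm₁' : 16 * ((p.c : ℝ) + p.c0 + 2) ≤ σ₂ * m₁ := by
    have h1 : 16 * ((p.c : ℝ) + p.c0 + 2) / σ₂ ≤ m₁ := by rw [hm₁]; exact Nat.le_ceil _
    rw [div_le_iff₀ hσ₂0] at h1
    linarith
  obtain ⟨n₁, hn₁⟩ := host_itemsB (c := c) hε0 (by linarith) hc0 m m₁
  obtain ⟨n₀, hn₀⟩ := exists_big [(100, ε), ((m : ℝ) * m₁, ω / 16),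
      (8 * (p.c0 + p.c1 + p.u0 + p.g + 1 : ℝ), c * σ), (2 * n₁, 1), ((J : ℝ), ε), ((m : ℝ) * C, ω / 4), (1, 1)] (by
    intro q hq
    simp only [List.mem_cons, List.not_mem_nil, or_false] at hq
    rcases hq with rfl | rfl | rfl | rfl | rfl | rfl | rfl
    · exact hε0
    · show 0 < ω / 16
      positivity
    · show 0 < c * σ
      positivity
    · exact one_pos
    · exact hε0
    · show 0 < ω / 4
      positivity
    · exact one_pos)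
  refine ⟨n₀, ?_⟩
  intro V R hT X G Ks Z Za h x F D L Lh K hnX hG hGg hcov hhZ hZaJ hxZ hKX hKh hPE hDF hL hLhF hlen hsize hEE hn
  have hLh : ∀ q ∈ Lh, q.1 ∈ Ks := fun q hq => (hLhF q hq).1
  have hbig := hn₀ X.card hnX
  obtain ⟨n, hnd⟩ : ∃ n : ℝ, n = (X.card : ℝ) := ⟨_, rfl⟩
  rw [← hnd] at hbig hn
  have b1 : (100 : ℝ) ≤ ε * n := hbig (100, ε) (by simp)
  have b2 : (m : ℝ) * m₁ ≤ ω / 16 * n := hbig ((m : ℝ) * m₁, ω / 16) (by simp)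
  have b3 : 8 * (p.c0 + p.c1 + p.u0 + p.g + 1 : ℝ) ≤ c * σ * n :=
    hbig (8 * (p.c0 + p.c1 + p.u0 + p.g + 1 : ℝ), c * σ) (by simp)
  have b6 : 2 * (n₁ : ℝ) ≤ 1 * n := hbig (2 * (n₁ : ℝ), 1) (by simp)
  have b7 : (J : ℝ) ≤ ε * n := hbig ((J : ℝ), ε) (by simp)
  have b8 : (m : ℝ) * C ≤ ω / 4 * n := hbig ((m : ℝ) * C, ω / 4) (by simp)
  have b9 : 1 ≤ 1 * n := hbig (1, 1) (by simp)
  have hn0 : 0 < n := by linarith
  have hX : X.Nonempty := by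
    rw [← card_pos]
    rw [hnd] at hn0
    exact_mod_cast hn0
  have PC : CstB p n ω c η η₁ κ₁ κ τ s σ₂ μ ε ε m m₁ := by
    refine ⟨hω0, by linarith, hc, hη, hη₁0, ?_, hκ₁0, by linarith, hκ0, by linarith, hσ₂0, by linarith, by linarith,
      ?_, ?_, hμ0, by linarith, hε0, by linarith, by linarith, hε0, by linarith, b1, hm₁', b2⟩
    · linarith
    · linarith
    · linarith
  obtain ⟨𝓕x, H, h𝓕x, hHX, hHE, hHc, hfin⟩ := final_clE hT hp (κ := κ) (η := η) (s := s) (σ := σ) (δ := ε) (ε := ε)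
    (c := c) hG hGg hcov hxZ hX hκ0 hη0 hκ₁0 hη₁0 hσ0 hε0.le hε0 hc0 (by linarith) (by linarith) (by linarith)
    (by linarith) (by linarith) (by linarith) hs0 (by rw [hs, hγ₀]; linarith) (by rw [← hnd]; exact b3)
  rw [← hnd] at hHc
  have hJa : (Za.card : ℝ) ≤ J := by exact_mod_cast hZaJ
  refine coreZ hT (by rw [← hnd]; exact PC) h𝓕x hHX ?_ hfin hKX hKh hPE hhZ ?_ hHE.symm ?_ hL hLh hlen (n₁ := n₁) ?_
    (fun A 𝓕 => hn₁ A 𝓕) (K := 1) (C := C) (K' := 1) (C' := C) zero_le_one hC le_rfl hC (by linarith) ?_ ?_ ?_ ?_ ?_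
  · rw [← hnd]
    refine hHc.trans ?_
    have h1 : 3 * (1 + (p.c0 : ℝ) + p.c) * σ * n = 3 * ((1 + (p.c0 : ℝ) + p.c) * σ) * n := by ring
    rw [h1, hσ1]
    have h2 : 0 ≤ μ * n := by positivity
    linarith
  · exact fun q hq => (PE.host hPE q hq).1
  · rw [← hnd]
    linarith
  · have : 2 * (n₁ : ℝ) ≤ X.card := by rw [← hnd]; linarith
    exact_mod_cast this
  · rw [← hnd]
    exact b8
  · intro q hq
    exact hEE q.2 (hLhF q hq).2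
  · exact hEE D hDF
  · have h1 : (F.size : ℝ) ≤ D₀ * (D.size + 1) := by exact_mod_cast hsize
    have hD' : (64 : ℝ) ≤ D₀ := by exact_mod_cast hD
    rw [hω]
    have h2 : 2 * (1 / (2 * (D₀ : ℝ))) * F.size = F.size / D₀ := by
      field_simp
    rw [h2, div_le_iff₀ (by linarith)]
    linarith
  · rw [← hnd]
    have h1 : ((Za \ Z).card : ℝ) ≤ Za.card := by exact_mod_cast card_le_card sdiff_subset
    linarith

end AET
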