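import Pool.Agent.AET.GlueP
import Pool.Agent.AET.ShortL

/-!
# Light branches along a short path: from trees to coded lines
-/

set_option autoImplicit false

namespace AET

open Finset Relation AE15 AED AEB
open scoped Classical

set_option linter.unusedSectionVars false

/-- In the branches which are attached to the path `p 0, …, p m` by arcs leaving it, every directed path with `l + 1` arcs
towards the path starts behind a light arc: an arc from a vertex `u` at distance at least `g` from the path to a child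
`w ≠ h u` such that the number of vertices from which a directed path towards the path leads to `w` is at most `1 / K` of
the number of vertices behind `u` -/
def LightRunsP {τ : Type*} (l K g : ℕ) (E : τ → τ → Prop) (G : SimpleGraph τ) (m : ℕ) (p : ℕ → τ) (h : τ → τ) : Prop :=
  ∀ i ≤ m, ∀ a, E (p i) a → (∀ j ≤ m, a ≠ p j) → ∀ q : ℕ → τ,
    (∀ j ≤ l, E (q j) (q (j + 1)) ∧ G.dist (p i) (q j) = G.dist (p i) (q (j + 1)) + 1) →
    G.dist (p i) (q 0) = G.dist a (q 0) + 1 →
    ∃ u w, E u w ∧ G.dist (p i) w = G.dist (p i) u + 1 ∧ g ≤ G.dist (p i) u ∧ w ≠ h u ∧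
      K * {x | ReflTransGen (fun a b => E a b ∧ G.dist (p i) a = G.dist (p i) b + 1) x w}.ncard ≤
        {x | G.dist (p i) x = G.dist (p i) u + G.dist u x}.ncard ∧
      G.dist (p i) (q 0) = G.dist (p i) w + G.dist w (q 0)

section conv

variable {τ : Type*} [Fintype τ]

theorem rtg_iff {S S' : τ → τ → Prop} {D : τ → Prop} (hD : ∀ a c, D a → S a c → D c) (h : ∀ a c, D a → (S a c ↔ S' a c))
    {x y : τ} (hx : D x) : ReflTransGen S x y ↔ ReflTransGen S' x y := by
  constructor
  · intro hxy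
    have key : D y ∧ ReflTransGen S' x y := by
      induction hxy with
      | refl => exact ⟨hx, ReflTransGen.refl⟩
      | tail _ h2 ih => exact ⟨hD _ _ ih.1 h2, ih.2.tail ((h _ _ ih.1).1 h2)⟩
    exact key.2
  · intro hxy
    have key : D y ∧ ReflTransGen S x y := by
      induction hxy with
      | refl => exact ⟨hx, ReflTransGen.refl⟩
      | tail _ h2 ih => exact ⟨hD _ _ ih.1 ((h _ _ ih.1).2 h2), ih.2.tail ((h _ _ ih.1).2 h2)⟩
    exact key.2

variable {G : SimpleGraph τ}

/-- the parent relation of the tree rooted at `r` -/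
def Pr (G : SimpleGraph τ) (r : τ) (a c : τ) : Prop := G.Adj a c ∧ G.dist r c = G.dist r a + 1

theorem Pr.inj (hG : G.IsTree) (r : τ) {a b c : τ} (h1 : Pr G r a c) (h2 : Pr G r b c) : a = b :=
  AEG.parent_unique hG r h1.1 h2.1 h1.2 h2.2

theorem pr_root {q u : τ} (h : G.Adj q u) : Pr G q q u :=
  ⟨h, by rw [SimpleGraph.dist_self, SimpleGraph.dist_eq_one_iff_adj.2 h]⟩

/-- below a child of `q` the distances from the root and from `q` give the same parents -/
theorem step_iff (hG : G.IsTree) (r : τ) {q u : τ} (hqu : Pr G r q u) {x y : τ} (hx : ReflTransGen (Pr G r) u x) :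
    Pr G r x y ↔ Pr G q x y := by
  have e1 := AEG.dist_below' hG r hqu hx
  have e2 := AEG.dist_below hG r u hx
  constructor
  · intro h
    refine ⟨h.1, ?_⟩
    have e3 := AEG.dist_below' hG r hqu (hx.tail h)
    have e4 := AEG.dist_below hG r u (hx.tail h)
    have e5 := h.2
    omega
  · intro h
    rcases hG.dist_eq_dist_add_one_of_adj r h.1 with h1 | h1
    · exfalso
      have h2 : Pr G r y x := ⟨h.1.symm, h1⟩
      have h3 := h.2
      rcases hx.cases_tail with h4 | ⟨c, h4, h5⟩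
      · subst h4
        have : y = q := Pr.inj hG r h2 hqu
        rw [this, SimpleGraph.dist_self] at h3
        omega
      · have : y = c := Pr.inj hG r h2 h5
        subst this
        have e3 := AEG.dist_below' hG r hqu h4
        have e4 := AEG.dist_below hG r u h4
        omega
    · exact ⟨h.1, h1⟩

/-- the ancestors, seen from `q`, of a vertex below a child of `q` -/
theorem anc (hG : G.IsTree) (r : τ) {q u : τ} (hqu : Pr G r q u) {w x : τ} (hx : ReflTransGen (Pr G r) u x)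
    (hw : ReflTransGen (Pr G q) w x) (hne : w ≠ q) : ReflTransGen (Pr G r) u w ∧ ReflTransGen (Pr G r) w x := by
  induction hw using ReflTransGen.head_induction_on with
  | refl => exact ⟨hx, ReflTransGen.refl⟩
  | @head w w' h1 _ ih =>
    obtain ⟨h2, h3⟩ := ih (by
      rintro rfl
      have := h1.2
      rw [SimpleGraph.dist_self] at this
      omega)
    rcases h2.cases_tail with h4 | ⟨c, h4, h5⟩
    · subst h4
      exact absurd (Pr.inj hG q h1 (pr_root hqu.1)) hne
    · obtain rfl : w = c := Pr.inj hG q h1 ((step_iff hG r hqu h4).1 h5)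
      exact ⟨h4, h3.head h5⟩

theorem desc_iff (hG : G.IsTree) (r : τ) {q u : τ} (hqu : Pr G r q u) {x y : τ} (hx : ReflTransGen (Pr G r) u x) :
    ReflTransGen (Pr G r) x y ↔ G.dist q y = G.dist q x + G.dist x y := by
  rw [rtg_iff (S' := Pr G q) (D := fun z => ReflTransGen (Pr G r) u z) (fun a c ha hac => ReflTransGen.tail ha hac)
    (fun a c ha => step_iff hG r hqu ha) hx]
  exact reach_iffP hG q x y

theorem inc_iff' (hG : G.IsTree) (r : τ) {E : τ → τ → Prop} (hadj' : ∀ a c, E a c → G.Adj a c) {q u : τ}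
    (hqu : Pr G r q u) {w x : τ} (hw : ReflTransGen (Pr G r) u w) :
    x ∈ inc E (Pr G r) w ↔ ReflTransGen (fun a b => E a b ∧ G.dist q a = G.dist q b + 1) x w := by
  rw [mem_inc, rtg_iff (S' := fun x y => Pr G q x y ∧ E y x) (D := fun z => ReflTransGen (Pr G r) u z)
    (fun a c ha hac => ReflTransGen.tail ha hac.1) (fun a c ha => by rw [step_iff hG r hqu ha]) hw,
    ← Relation.reflTransGen_swap]
  have hrel : (Function.swap fun x y => Pr G q x y ∧ E y x) = fun a b => E a b ∧ G.dist q a = G.dist q b + 1 := by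
    funext a b
    apply propext
    constructor
    · rintro ⟨h1, h2⟩
      exact ⟨h2, h1.2⟩
    · rintro ⟨h1, h2⟩
      exact ⟨⟨(hadj' _ _ h1).symm, h2⟩, h1⟩
  rw [hrel]

theorem side_of_light (hG : G.IsTree) {E : τ → τ → Prop} (hadj : ∀ a c, G.Adj a c → E a c ∨ E c a)
    (hadj' : ∀ a c, E a c → G.Adj a c) (hanti : ∀ a c, E a c → ¬ E c a) {b l K g : ℕ}
    (hdeg : ∀ v, {w | E v w ∨ E w v}.ncard ≤ b) (hg : 1 ≤ g) {m : ℕ} {p : ℕ → τ} {h : τ → τ} (hm : MainChild G (p 0) h)
    (hl : LightRunsP l K g E G m p h) {i : ℕ} (hi : i ≤ m) (K₂ : Finset τ)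
    (hK : ∀ u ∈ K₂, (∀ j ≤ m, u ≠ p j) ∧ Pr G (p 0) (p i) u ∧ E (p i) u) :
    ∃ D, FON b l K g D ∧ SideF E (Pr G (p 0)) (p i) K₂ D := by
  have hE : ∀ a c, Pr G (p 0) a c → G.dist (p 0) a < G.dist (p 0) c := by
    rintro a c ⟨-, h⟩
    omega
  have hD : ∀ u, (AE32.desc (Pr G (p 0)) u).card = {x | G.dist (p 0) x = G.dist (p 0) u + G.dist u x}.ncard := by
    intro u
    rw [← Set.ncard_coe_finset]
    congr 1
    ext x
    rw [mem_coe, AE32.mem_desc]
    exact reach_iffP hG (p 0) u x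
  refine side_genL (E := E) hE (fun a b c h1 h2 => Pr.inj hG _ h1 h2) (fun a c h => hadj a c h.1) hanti hdeg h
    (fun u w huw => ?_) (p i) (fun x => G.dist (p i) x) K₂ (fun u hu => ⟨(hK u hu).2.2, (hK u hu).2.1⟩)
    (fun u hu => SimpleGraph.dist_eq_one_iff_adj.2 (hK u hu).2.1.1)
    (fun u hu x w hx hxw => ((step_iff hG _ (hK u hu).2.1 hx).1 hxw).2) ?_
  · obtain ⟨h1, h2, h3⟩ := hm u w huw.1 huw.2
    refine ⟨⟨h1, h2⟩, ?_⟩
    rw [hD, hD]
    exact h3
  · intro u hu f hf
    obtain ⟨hne, hPu, hEu⟩ := hK u hu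
    have hstep : ∀ j ≤ l, E (f j) (f (j + 1)) ∧ G.dist (p i) (f j) = G.dist (p i) (f (j + 1)) + 1 := by
      intro j hj
      obtain ⟨h1, h2, h3⟩ := hf j hj
      refine ⟨h1, ?_⟩
      rcases h3.cases_tail with h4 | ⟨c, h4, h5⟩
      · have h6 : f (j + 1) = p i := Pr.inj hG _ h2 (by rw [h4]; exact hPu)
        rw [h6, SimpleGraph.dist_self, h4]
        exact SimpleGraph.dist_eq_one_iff_adj.2 hPu.1
      · have h6 : f (j + 1) = c := Pr.inj hG _ h2 h5
        rw [h6]
        exact ((step_iff hG _ hPu h4).1 h5).2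
    obtain ⟨x, w, e1, e2, e3, e4, e5, e6⟩ := hl i hi u hEu hne f hstep (AEG.dist_below' hG (p 0) hPu (hf 0 (by omega)).2.2)
    have hwne : w ≠ p i := by
      rintro rfl
      rw [SimpleGraph.dist_self] at e2
      omega
    have hxne : x ≠ p i := by
      rintro rfl
      rw [SimpleGraph.dist_self] at e3
      omega
    have hw1 : ReflTransGen (Pr G (p i)) w (f 0) := (reach_iffP hG (p i) w (f 0)).2 e6
    have hxw : Pr G (p i) x w := ⟨hadj' _ _ e1, e2⟩
    obtain ⟨a1, a2⟩ := anc hG (p 0) hPu (hf 0 (by omega)).2.2 hw1 hwne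
    obtain ⟨a3, a4⟩ := anc hG (p 0) hPu (hf 0 (by omega)).2.2 (hw1.head hxw) hxne
    refine ⟨x, w, a3, (step_iff hG _ hPu a3).2 hxw, e1, e4, e3, ?_, AE32.mem_desc.2 a2⟩
    refine le_trans (le_of_eq ?_) (e5.trans (le_of_eq ?_))
    · congr 1
      rw [← Set.ncard_coe_finset]
      congr 1
      ext y
      rw [mem_coe, inc_iff' hG (p 0) hadj' hPu a1]
      rfl
    · rw [← Set.ncard_coe_finset]
      congr 1
      ext y
      rw [mem_coe, AE32.mem_desc, desc_iff hG (p 0) hPu a3]
      rfl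

end conv

theorem final_of_Cod0L (Δ l N K g C : ℕ) (hg : 1 ≤ g) (hC : Cod0L (Δ + 1) l N K g C) :
    ∀ k n : ℕ, k + (C + 1) ≤ n → ∀ R : Fin n → Fin n → Prop,
    (∀ a, ¬ R a a) → (∀ a b, a ≠ b → R a b ∨ R b a) → (∀ a b, R a b → ¬ R b a) →
    ∀ E : Fin (k + 1) → Fin (k + 1) → Prop,
      (∀ a b, E a b → ¬ E b a) →
      (SimpleGraph.fromRel E).IsTree →
      (∀ v, ((SimpleGraph.fromRel E).neighborSet v).ncard ≤ Δ) →
      (∃ (m : ℕ) (p : ℕ → Fin (k + 1)) (h : Fin (k + 1) → Fin (k + 1)), m < N ∧ (∀ i < m, E (p i) (p (i + 1))) ∧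
        MainChild (SimpleGraph.fromRel E) (p 0) h ∧
        LightRunsP l K g E (SimpleGraph.fromRel E) m p h ∧
        LightRunsP l K g (fun a b => E b a) (SimpleGraph.fromRel E) m p h) →
      ∃ f : Fin (k + 1) → Fin n, Function.Injective f ∧ ∀ a b, E a b → R (f a) (f b) := by
  intro k n hn R h1 h2 h3 E h4 h5 h6 ⟨m, p, h, hmN, hp, hm, h7, h8⟩
  have h6' : ∀ v, {w | E v w ∨ E w v}.ncard ≤ Δ + 1 := by
    intro v
    refine le_trans (le_of_eq ?_) ((h6 v).trans (Nat.le_succ Δ))
    congr 1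
    ext w
    simp only [Set.mem_ofPred_eq, SimpleGraph.mem_neighborSet, SimpleGraph.fromRel_adj]
    constructor
    · intro h
      refine ⟨?_, h⟩
      rintro rfl
      rcases h with h | h <;> exact h4 _ _ h h
    · exact fun h => h.2
  set G : SimpleGraph (Fin (k + 1)) := SimpleGraph.fromRel E with hG
  have hadj : ∀ a c, G.Adj a c → E a c ∨ E c a := by
    intro a c h
    rw [hG, SimpleGraph.fromRel_adj] at h
    exact h.2
  have hadj' : ∀ a c, E a c → G.Adj a c := by
    intro a c h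
    rw [hG, SimpleGraph.fromRel_adj]
    refine ⟨?_, Or.inl h⟩
    rintro rfl
    exact h4 _ _ h h
  have hpp : ∀ i < m, Pr G (p 0) (p i) (p (i + 1)) := by
    intro i
    induction i with
    | zero =>
      intro hi
      have h1 := hadj' _ _ (hp 0 hi)
      refine ⟨h1, ?_⟩
      rw [SimpleGraph.dist_self, SimpleGraph.dist_eq_one_iff_adj.2 h1]
    | succ i ih =>
      intro hi
      have h1 := hadj' _ _ (hp (i + 1) hi)
      refine ⟨h1, ?_⟩
      rcases h5.dist_eq_dist_add_one_of_adj (p 0) h1 with h | h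
      · exfalso
        have h2 : p i = p (i + 1 + 1) := Pr.inj h5 _ (ih (by omega)) ⟨h1.symm, h⟩
        have h3 := hp i (by omega)
        rw [h2] at h3
        exact h4 _ _ h3 (hp (i + 1) hi)
      · exact h
  obtain ⟨L, l1, l2, l3, l4⟩ := lineP (E := E) (P := Pr G (p 0)) (h := fun v => G.dist (p 0) v)
    (Cl := fun F => FON (Δ + 1) l K g F) (fun a c h => h.2)
    (fun a b c h1 h2 => Pr.inj h5 _ h1 h2) (fun a c h => hadj a c h.1) h4 (fun i hi => ⟨hp i hi, hpp i hi⟩)
    (fun i hi K₂ hK => side_of_light h5 hadj hadj' h4 h6' hg hm h7 hi K₂ hK)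
    (fun i hi K₁ hK => side_of_light (E := fun a c => E c a) h5 (fun a c h => (hadj a c h).symm)
      (fun a c h => (hadj' c a h).symm) (fun a c h => h4 c a h) (fun v => by
        rw [show {w | E w v ∨ E v w} = {w | E v w ∨ E w v} from by ext u; exact or_comm]
        exact h6' v) hg hm h8 hi K₁ hK) m 0 (by omega)
  have hroot : AE32.desc (Pr G (p 0)) (p 0) = univ := by
    rw [eq_univ_iff_forall]
    intro v
    rw [AE32.mem_desc]
    refine (reach_iffP h5 (p 0) (p 0) v).2 ?_
    rw [SimpleGraph.dist_self, zero_add]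
  rw [hroot, card_univ, Fintype.card_fin] at l2
  obtain ⟨y, -, S, -, hy, hS⟩ := hC (R := R) ⟨h1, h2, h3⟩ L (by rintro rfl; simp at l1) l3 (by omega) univ (by
    rw [card_univ, Fintype.card_fin, AEG.szS, l2]; omega)
  obtain ⟨f, -, -, f3, f4⟩ := l4 hy hS
  rw [hroot] at f3 f4
  refine ⟨f, fun a a' haa => f3 a (mem_univ _) a' (mem_univ _) haa, fun a c hac => ?_⟩
  rcases h5.dist_eq_dist_add_one_of_adj (p 0) (hadj' a c hac) with h | h
  · exact (f4 c (mem_univ _) a ⟨(hadj' a c hac).symm, h⟩).2 hac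
  · exact (f4 a (mem_univ _) c ⟨hadj' a c hac, h⟩).1 hac

end AET
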