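import Pool.Agent.AET.PredL
import Pool.Agent.AE32.Arb

/-!
# Light branches: from oriented trees to coded trees
-/

namespace AET

open Finset Relation AE15 AED AEB
open scoped Classical

set_option linter.unusedSectionVars false

section glue

variable {τ : Type*} [Fintype τ] {E P : τ → τ → Prop}

/-- the in-closure of `w` inside the tree below `w` (`P`: the parent relation) -/
noncomputable def inc (E P : τ → τ → Prop) (w : τ) : Finset τ :=
  univ.filter (fun a => ReflTransGen (fun x y => P x y ∧ E y x) w a)

theorem mem_inc {w a : τ} : a ∈ inc E P w ↔ ReflTransGen (fun x y => P x y ∧ E y x) w a := by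
  simp [inc]

theorem self_mem_inc (w : τ) : w ∈ inc E P w := mem_inc.2 ReflTransGen.refl

theorem inc_subset (w : τ) : inc E P w ⊆ AE32.desc P w := by
  intro a ha
  rw [AE32.mem_desc]
  rw [mem_inc] at ha
  induction ha with
  | refl => exact ReflTransGen.refl
  | tail _ h ih => exact ih.tail h.1

/-- the forest with the children forests `g c` of the vertices `c` of the list -/
private noncomputable def mkF (E : τ → τ → Prop) (v : τ) (g : τ → Fd) : List τ → Fd
  | [] => .nil
  | c :: l => .node (decide (E v c)) (g c) (mkF E v g l)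

private theorem mkF_trees (v : τ) (g : τ → Fd) (l : List τ) :
    (mkF E v g l).trees = l.map (fun c => (decide (E v c), g c)) := by
  induction l with
  | nil => rfl
  | cons c l ih => simp [mkF, Fd.trees, ih]

private theorem mkF_len (v : τ) (g : τ → Fd) (l : List τ) : (mkF E v g l).len = l.length := by
  induction l with
  | nil => rfl
  | cons c l ih => simp [mkF, Fd.len, ih]

private theorem mkF_size (v : τ) (g : τ → Fd) (l : List τ) :
    (mkF E v g l).size = (l.map (fun c => (g c).size + 1)).sum := by
  induction l with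
  | nil => rfl
  | cons c l ih =>
    simp only [mkF, Fd.size, ih, List.map_cons, List.sum_cons]
    omega

private theorem mkF_blk (v : τ) (g : τ → Fd) (l : List τ) :
    blk (mkF E v g l) = (l.map (fun c => if E v c then 0 else blk (g c) + 1)).sum := by
  induction l with
  | nil => rfl
  | cons c l ih =>
    simp only [mkF, blk, ih, List.map_cons, List.sum_cons, decide_eq_true_eq]

private theorem mkF_deg {b : ℕ} (v : τ) (g : τ → Fd) (l : List τ) (h : ∀ c ∈ l, (g c).len ≤ b ∧ (g c).Deg b) :
    (mkF E v g l).Deg b := by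
  induction l with
  | nil => trivial
  | cons c l ih =>
    exact ⟨(h c List.mem_cons_self).1, (h c List.mem_cons_self).2, ih fun d hd => h d (List.mem_cons_of_mem _ hd)⟩

/-- a copy of the forest gives a copy of the vertices -/
private def EmbL (E P : τ → τ → Prop) (v : τ) (l : List τ) (F : Fd) : Prop :=
  ∀ {V : Type} {R : V → V → Prop} {x : V} {S : Finset V}, Emb R F x S →
      ∃ f : τ → V, (∀ c ∈ l, Adj R (decide (E v c)) x (f c)) ∧ (∀ c ∈ l, ∀ a ∈ AE32.desc P c, f a ∈ S) ∧
        (∀ c ∈ l, ∀ a ∈ AE32.desc P c, ∀ c' ∈ l, ∀ a' ∈ AE32.desc P c', f a = f a' → a = a') ∧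
        ∀ c ∈ l, ∀ a ∈ AE32.desc P c, ∀ a', P a a' → Adj R (decide (E a a')) (f a) (f a')

/-- a copy of the tree gives a copy of the vertices below `v` -/
private def EmbV (E P : τ → τ → Prop) (v : τ) (c : Fd) : Prop :=
  ∀ {V : Type} {R : V → V → Prop} {x : V} {S : Finset V}, x ∉ S → Emb R c x S →
      ∃ f : τ → V, f v = x ∧ (∀ a ∈ AE32.desc P v, f a ∈ insert x S) ∧
        (∀ a ∈ AE32.desc P v, ∀ a' ∈ AE32.desc P v, f a = f a' → a = a') ∧
        ∀ a ∈ AE32.desc P v, ∀ a', P a a' → Adj R (decide (E a a')) (f a) (f a')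

private theorem embL_of (v : τ) (g : τ → Fd) (l : List τ) (hl : l.Nodup)
    (hdis : ∀ c ∈ l, ∀ d ∈ l, c ≠ d → Disjoint (AE32.desc P c) (AE32.desc P d))
    (h : ∀ c ∈ l, EmbV E P c (g c)) : EmbL E P v l (mkF E v g l) := by
  induction l with
  | nil =>
    intro V R x S _
    exact ⟨fun _ => x, by simp, by simp, by simp, by simp⟩
  | cons c l ih =>
    rw [List.nodup_cons] at hl
    have hF4 : EmbL E P v l (mkF E v g l) := ih hl.2
      (fun c hc d hd => hdis c (List.mem_cons_of_mem _ hc) d (List.mem_cons_of_mem _ hd))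
      (fun c hc => h c (List.mem_cons_of_mem _ hc))
    have hG4 : EmbV E P c (g c) := h c List.mem_cons_self
    have hcl : ∀ d ∈ l, Disjoint (AE32.desc P c) (AE32.desc P d) := fun d hd =>
      hdis c List.mem_cons_self d (List.mem_cons_of_mem _ hd) (fun e => hl.1 (e ▸ hd))
    have hnot : ∀ d ∈ l, ∀ a ∈ AE32.desc P d, a ∉ AE32.desc P c := fun d hd a ha ha' =>
      (Finset.disjoint_left.1 (hcl d hd)) ha' ha
    intro V R x S hS
    obtain ⟨y, A, B, hy, hyA, hyB, hAB, rfl, hA, hB⟩ := hS
    obtain ⟨f₁, p1, p2, p3, p4⟩ := hG4 hyA hA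
    obtain ⟨f₂, q1, q2, q3, q4⟩ := hF4 hB
    have hsep : Disjoint (insert y A) B := by
      rw [disjoint_insert_left]
      exact ⟨hyB, hAB⟩
    refine ⟨fun a => if a ∈ AE32.desc P c then f₁ a else f₂ a, ?_, ?_, ?_, ?_⟩
    · intro d hd
      rcases List.mem_cons.1 hd with rfl | hd
      · simp only [AE32.self_mem_desc, if_true, p1]
        exact hy
      · simp only [hnot d hd d (AE32.self_mem_desc d), if_false]
        exact q1 d hd
    · intro d hd a ha
      rcases List.mem_cons.1 hd with rfl | hd
      · simp only [ha, if_true]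
        have := p2 a ha
        rw [mem_insert] at this
        simp only [mem_insert, mem_union]
        tauto
      · simp only [hnot d hd a ha, if_false]
        exact mem_insert_of_mem (mem_union_right _ (q2 d hd a ha))
    · intro d hd a ha d' hd' a' ha' haa
      rcases List.mem_cons.1 hd with e | hd1
      · rw [e] at ha
        rcases List.mem_cons.1 hd' with e' | hd2
        · rw [e'] at ha'
          simp only [ha, ha', if_true] at haa
          exact p3 a ha a' ha' haa
        · simp only [ha, if_true, hnot d' hd2 a' ha', if_false] at haa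
          exact absurd (haa ▸ q2 d' hd2 a' ha') ((Finset.disjoint_left.1 hsep) (p2 a ha))
      · rcases List.mem_cons.1 hd' with e' | hd2
        · rw [e'] at ha'
          simp only [ha', if_true, hnot d hd1 a ha, if_false] at haa
          exact absurd (haa.symm ▸ q2 d hd1 a ha) ((Finset.disjoint_left.1 hsep) (p2 a' ha'))
        · simp only [hnot d hd1 a ha, hnot d' hd2 a' ha', if_false] at haa
          exact q3 d hd1 a ha d' hd2 a' ha' haa
    · intro d hd a ha a' haa
      rcases List.mem_cons.1 hd with rfl | hd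
      · have ha' : a' ∈ AE32.desc P d := AE32.mem_desc.2 ((AE32.mem_desc.1 ha).tail haa)
        simp only [ha, ha', if_true]
        exact p4 a ha a' haa
      · have ha' : a' ∈ AE32.desc P d := AE32.mem_desc.2 ((AE32.mem_desc.1 ha).tail haa)
        simp only [hnot d hd a ha, hnot d hd a' ha', if_false]
        exact q4 d hd a ha a' haa

/-- the conditions on a code of the tree below `v`, without runs and light branches -/
private def CodesB (E P : τ → τ → Prop) (b : ℕ) (v : τ) (c : Fd) : Prop :=
  c.size + 1 = (AE32.desc P v).card ∧ c.len ≤ b ∧ c.Deg b ∧ blk c + 1 = (inc E P v).card ∧ EmbV E P v c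

/-- a directed walk with `j` arcs starts at `v` and goes towards the root -/
private def Wk (E P : τ → τ → Prop) (j : ℕ) (v : τ) : Prop :=
  ∃ f : ℕ → τ, f 0 = v ∧ ∀ i < j, E (f i) (f (i + 1)) ∧ P (f (i + 1)) (f i)

private theorem wk_zero (v : τ) : Wk E P 0 v := ⟨fun _ => v, rfl, fun i hi => by omega⟩

private theorem wk_succ {j : ℕ} {v w : τ} (h : Wk E P j v) (hw : E w v) (hP : P v w) : Wk E P (j + 1) w := by
  obtain ⟨f, h1, h2⟩ := h
  refine ⟨fun i => match i with
    | 0 => w
    | i + 1 => f i, rfl, ?_⟩
  intro i hi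
  cases i with
  | zero =>
    show E w (f 0) ∧ P (f 0) w
    rw [h1]
    exact ⟨hw, hP⟩
  | succ i => exact h2 i (by omega)

/-- `v` is not behind a light arc -/
private def NL (E P : τ → τ → Prop) (K : ℕ) (hm : τ → τ) (v : τ) : Prop :=
  ∀ u w, P u w → E u w → w ≠ hm u → K * (inc E P w).card ≤ (AE32.desc P u).card → v ∉ AE32.desc P w

private theorem wk_le {l K : ℕ} {hm : τ → τ}
    (h7 : ∀ f : ℕ → τ, (∀ i ≤ l, E (f i) (f (i + 1)) ∧ P (f (i + 1)) (f i)) → ¬ NL E P K hm (f 0)) {j : ℕ} {v : τ}
    (h : Wk E P j v) (hv : NL E P K hm v) : j ≤ l := by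
  obtain ⟨f, h1, h2⟩ := h
  by_contra hj
  push Not at hj
  exact h7 f (fun i hi => h2 i (by omega)) (h1 ▸ hv)

private theorem mkF_inL_tail {L K S j : ℕ} (v : τ) (g : τ → Fd) (l : List τ)
    (h : ∀ c ∈ l, (E v c → K * (blk (g c) + 1) ≤ S ∨ InL L K true ((g c).size + 1) 0 (g c)) ∧
      (¬ E v c → j + 1 ≤ L ∧ InL L K true ((g c).size + 1) (j + 1) (g c))) : InL L K false S j (mkF E v g l) := by
  induction l with
  | nil => trivial
  | cons c l ih =>
    refine ⟨?_, ih fun d hd => h d (List.mem_cons_of_mem _ hd), by simp⟩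
    obtain ⟨h1, h2⟩ := h c List.mem_cons_self
    by_cases he : E v c
    · simp only [he, decide_true, if_true, true_and]
      exact h1 he
    · simp only [he, decide_false, Bool.false_eq_true, if_false]
      exact h2 he

private theorem mkF_inL_head {L K S j : ℕ} (v : τ) (g : τ → Fd) (m : τ) (l : List τ)
    (hm : (E v m → InL L K true ((g m).size + 1) 0 (g m)) ∧
      (¬ E v m → j + 1 ≤ L ∧ InL L K true ((g m).size + 1) (j + 1) (g m)))
    (hs : ∀ c ∈ l, (g c).size ≤ (g m).size)
    (h : ∀ c ∈ l, (E v c → K * (blk (g c) + 1) ≤ S ∨ InL L K true ((g c).size + 1) 0 (g c)) ∧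
      (¬ E v c → j + 1 ≤ L ∧ InL L K true ((g c).size + 1) (j + 1) (g c))) :
    InL L K true S j (mkF E v g (m :: l)) := by
  refine ⟨?_, mkF_inL_tail v g l h, ?_⟩
  · by_cases he : E v m
    · simp only [he, decide_true, if_true]
      exact Or.inr (hm.1 he)
    · simp only [he, decide_false, Bool.false_eq_true, if_false]
      exact hm.2 he
  · intro _ q hq
    rw [mkF_trees, List.mem_map] at hq
    obtain ⟨c, hc, rfl⟩ := hq
    exact hs c hc

private theorem codes_of {h : τ → ℕ} (hE : ∀ a b, P a b → h a < h b) (hin : ∀ a b c, P a c → P b c → a = b)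
    (hP : ∀ a c, P a c → E a c ∨ E c a) (hanti : ∀ a c, E a c → ¬ E c a) {b L K : ℕ}
    (hout : ∀ v, {w | E v w ∨ E w v}.ncard ≤ b) (hm : τ → τ)
    (hmain : ∀ u w, P u w → P u (hm u) ∧ (AE32.desc P w).card ≤ (AE32.desc P (hm u)).card)
    (h7 : ∀ f : ℕ → τ, (∀ i ≤ L, E (f i) (f (i + 1)) ∧ P (f (i + 1)) (f i)) → ¬ NL E P K hm (f 0)) (n : ℕ) :
    ∀ v j, (AE32.desc P v).card = n → ∃ c, CodesB E P b v c ∧
      (Wk E P j v → NL E P K hm v → InL L K true (c.size + 1) j c) := by
  induction n using Nat.strong_induction_on with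
  | _ n ih =>
    intro v j hv
    set ch : Finset τ := univ.filter (fun w => P v w) with hch
    have hmemch : ∀ c, c ∈ ch ↔ P v c := by
      intro c
      rw [hch, mem_filter]
      simp
    have hlt : ∀ c, P v c → (AE32.desc P c).card < n := by
      intro c hc
      rw [← hv]
      refine card_lt_card ⟨AE32.desc_subset hc, fun hcon => ?_⟩
      exact AE32.notMem_desc hE hc (hcon (AE32.self_mem_desc v))
    -- the codes of the children
    have hex : ∀ c, ∃ G, P v c → CodesB E P b c G ∧ (E v c → NL E P K hm c → InL L K true (G.size + 1) 0 G) ∧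
        (¬ E v c → Wk E P j v → NL E P K hm c → j + 1 ≤ L ∧ InL L K true (G.size + 1) (j + 1) G) := by
      intro c
      by_cases hc : P v c
      · by_cases he : E v c
        · obtain ⟨G, h1, h2⟩ := ih _ (hlt c hc) c 0 rfl
          exact ⟨G, fun _ => ⟨h1, fun _ h3 => h2 (wk_zero c) h3, fun h3 => absurd he h3⟩⟩
        · obtain ⟨G, h1, h2⟩ := ih _ (hlt c hc) c (j + 1) rfl
          have h0 : E c v := (hP _ _ hc).resolve_left he
          refine ⟨G, fun _ => ⟨h1, fun h3 => absurd h3 he, fun _ h3 h4 => ?_⟩⟩
          have h5 : Wk E P (j + 1) c := wk_succ h3 h0 hc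
          exact ⟨wk_le h7 h5 h4, h2 h5 h4⟩
      · exact ⟨.nil, fun h => absurd h hc⟩
    choose g hg using hex
    -- the list of the children, the main one first
    obtain ⟨l, hl1, hl2, hl3⟩ : ∃ l : List τ, l.Nodup ∧ (∀ c, c ∈ l ↔ P v c) ∧
        (l = [] ∨ ∃ l', l = hm v :: l' ) := by
      by_cases hne : ∃ w, P v w
      · obtain ⟨w, hw⟩ := hne
        have h1 := (hmain v w hw).1
        refine ⟨hm v :: (ch.erase (hm v)).toList, ?_, ?_, Or.inr ⟨_, rfl⟩⟩
        · rw [List.nodup_cons]
          exact ⟨by simp, Finset.nodup_toList _⟩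
        · intro c
          rw [List.mem_cons, Finset.mem_toList, mem_erase, hmemch]
          constructor
          · rintro (rfl | h2)
            · exact h1
            · exact h2.2
          · intro h2
            by_cases h3 : c = hm v
            · exact Or.inl h3
            · exact Or.inr ⟨h3, h2⟩
      · refine ⟨[], List.nodup_nil, ?_, Or.inl rfl⟩
        intro c
        constructor
        · intro h; simp at h
        · intro h; exact absurd ⟨c, h⟩ hne
    have hfin : l.toFinset = ch := by
      ext c
      rw [List.mem_toFinset, hl2, hmemch]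
    have hsum : ∀ q : τ → ℕ, (l.map q).sum = ∑ c ∈ ch, q c := by
      intro q
      rw [← hfin, List.sum_toFinset q hl1]
    have hdesc : AE32.desc P v = insert v (ch.biUnion (AE32.desc P)) := by
      ext x
      rw [mem_insert, mem_biUnion, AE32.mem_desc, ReflTransGen.cases_head_iff]
      constructor
      · rintro (h1 | ⟨c, h1, h2⟩)
        · exact Or.inl h1.symm
        · exact Or.inr ⟨c, by simp [hch, h1], AE32.mem_desc.2 h2⟩
      · rintro (h1 | ⟨c, h1, h2⟩)
        · exact Or.inl h1.symm
        · exact Or.inr ⟨c, by simpa [hch] using h1, AE32.mem_desc.1 h2⟩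
    have hnv : v ∉ ch.biUnion (AE32.desc P) := by
      rw [mem_biUnion]
      rintro ⟨c, h1, h2⟩
      exact AE32.notMem_desc hE (by simpa [hch] using h1) h2
    have hincv : inc E P v = insert v ((ch.filter (fun c => ¬ E v c)).biUnion (inc E P)) := by
      ext x
      rw [mem_insert, mem_biUnion, mem_inc, ReflTransGen.cases_head_iff]
      constructor
      · rintro (h1 | ⟨c, h1, h2⟩)
        · exact Or.inl h1.symm
        · refine Or.inr ⟨c, ?_, mem_inc.2 h2⟩
          rw [mem_filter, hmemch]
          exact ⟨h1.1, hanti _ _ h1.2⟩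
      · rintro (h1 | ⟨c, h1, h2⟩)
        · exact Or.inl h1.symm
        · rw [mem_filter, hmemch] at h1
          exact Or.inr ⟨c, ⟨h1.1, (hP _ _ h1.1).resolve_left h1.2⟩, mem_inc.1 h2⟩
    have hnv' : v ∉ (ch.filter (fun c => ¬ E v c)).biUnion (inc E P) := by
      rw [mem_biUnion]
      rintro ⟨c, h1, h2⟩
      rw [mem_filter, hmemch] at h1
      exact AE32.notMem_desc hE h1.1 (inc_subset _ h2)
    have hsize : (mkF E v g l).size + 1 = (AE32.desc P v).card := by
      rw [mkF_size, hsum, hdesc, card_insert_of_notMem hnv, card_biUnion]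
      · congr 1
        exact sum_congr rfl fun c hc => (hg c ((hmemch c).1 hc)).1.1
      · intro c hc d hd hcd
        exact AE32.desc_disjoint hE hin ((hmemch c).1 hc) ((hmemch d).1 hd) hcd
    have hblk : blk (mkF E v g l) + 1 = (inc E P v).card := by
      rw [mkF_blk, hsum, hincv, card_insert_of_notMem hnv', card_biUnion]
      · congr 1
        rw [sum_filter (s := ch) (fun c => ¬ E v c) (fun c => (inc E P c).card)]
        apply sum_congr rfl
        intro c hc
        by_cases he : E v c
        · simp [he]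
        · simp only [he, if_false, not_false_eq_true, if_true]
          exact (hg c ((hmemch c).1 hc)).1.2.2.2.1
      · intro c hc d hd hcd
        rw [mem_coe, mem_filter] at hc hd
        exact Disjoint.mono (inc_subset _) (inc_subset _)
          (AE32.desc_disjoint hE hin ((hmemch c).1 hc.1) ((hmemch d).1 hd.1) hcd)
    have hemb : EmbL E P v l (mkF E v g l) := embL_of (E := E) (P := P) v g l hl1
      (fun c hc d hd hcd => AE32.desc_disjoint hE hin ((hl2 c).1 hc) ((hl2 d).1 hd) hcd)
      (fun c hc => (hg c ((hl2 c).1 hc)).1.2.2.2.2)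
    refine ⟨mkF E v g l, ⟨hsize, ?_, ?_, hblk, ?_⟩, ?_⟩
    · rw [mkF_len, ← List.toFinset_card_of_nodup hl1, hfin, hch]
      have h1 := hout v
      have h2 : {w | P v w}.ncard ≤ {w | E v w ∨ E w v}.ncard :=
        Set.ncard_le_ncard (fun w hw => hP v w hw) (Set.toFinite _)
      have h3 := h2.trans h1
      rwa [Set.ncard_eq_toFinset_card', Set.toFinset_ofPred] at h3
    · exact mkF_deg v g l fun c hc => ⟨(hg c ((hl2 c).1 hc)).1.2.1, (hg c ((hl2 c).1 hc)).1.2.2.1⟩
    · intro V R x S hxS hS
      obtain ⟨f, q1, q2, q3, q4⟩ := hemb hS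
      have hcase : ∀ a ∈ AE32.desc P v, a = v ∨ ∃ c ∈ l, a ∈ AE32.desc P c := by
        intro a ha
        rw [hdesc, mem_insert, mem_biUnion] at ha
        rcases ha with h1 | ⟨c, h1, h2⟩
        · exact Or.inl h1
        · exact Or.inr ⟨c, (hl2 c).2 ((hmemch c).1 h1), h2⟩
      have hne : ∀ c ∈ l, ∀ a ∈ AE32.desc P c, a ≠ v := by
        rintro c hc a ha rfl
        exact AE32.notMem_desc hE ((hl2 c).1 hc) ha
      refine ⟨fun a => if a = v then x else f a, by simp, ?_, ?_, ?_⟩
      · intro a ha
        rcases hcase a ha with rfl | ⟨c, hc, hac⟩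
        · simp
        · simp only [hne c hc a hac, if_false]
          exact mem_insert_of_mem (q2 c hc a hac)
      · intro a ha a' ha' haa
        rcases hcase a ha with rfl | ⟨c, hc, hac⟩
        · rcases hcase a' ha' with rfl | ⟨c', hc', hac'⟩
          · rfl
          · simp only [if_true, hne c' hc' a' hac', if_false] at haa
            exact absurd (haa ▸ q2 c' hc' a' hac') hxS
        · rcases hcase a' ha' with rfl | ⟨c', hc', hac'⟩
          · simp only [if_true, hne c hc a hac, if_false] at haa
            exact absurd (haa.symm ▸ q2 c hc a hac) hxS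
          · simp only [hne c hc a hac, hne c' hc' a' hac', if_false] at haa
            exact q3 c hc a hac c' hc' a' hac' haa
      · intro a ha a' haa
        have ha'v : a' ≠ v := by
          rintro rfl
          have h1 := AE32.rank_le hE (AE32.mem_desc.1 ha)
          have h2 := hE _ _ haa
          omega
        rcases hcase a ha with rfl | ⟨c, hc, hac⟩
        · simp only [if_true, ha'v, if_false]
          exact q1 a' ((hl2 a').2 haa)
        · simp only [hne c hc a hac, ha'v, if_false]
          exact q4 c hc a hac a' haa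
    · intro hw hNL
      -- the children which are not behind a light arc
      have hNLc : ∀ c, P v c → (E v c → c ≠ hm v → ¬ K * (inc E P c).card ≤ (AE32.desc P v).card) →
          NL E P K hm c := by
        intro c hc hcl u w huw hE' hwm hKw hcw
        rcases (AE32.mem_desc.1 hcw).cases_tail with h1 | ⟨e, h1, h2⟩
        · subst h1
          obtain rfl := hin _ _ _ huw hc
          exact hcl hE' hwm hKw
        · obtain rfl := hin _ _ _ h2 hc
          exact hNL u w huw hE' hwm hKw (AE32.mem_desc.2 h1)
      have hany : ∀ c, P v c → (E v c → K * (blk (g c) + 1) ≤ (mkF E v g l).size + 1 ∨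
          InL L K true ((g c).size + 1) 0 (g c)) ∧
          (¬ E v c → j + 1 ≤ L ∧ InL L K true ((g c).size + 1) (j + 1) (g c)) := by
        intro c hc
        obtain ⟨h1, h2, h3⟩ := hg c hc
        refine ⟨fun he => ?_, fun he => h3 he hw (hNLc c hc fun h => absurd h he)⟩
        by_cases hlight : K * (inc E P c).card ≤ (AE32.desc P v).card
        · left
          rw [h1.2.2.2.1, hsize]
          exact hlight
        · right
          exact h2 he (hNLc c hc fun _ _ => hlight)
      rcases hl3 with rfl | ⟨l', rfl⟩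
      · trivial
      · have hmv : P v (hm v) := (hl2 _).1 List.mem_cons_self
        obtain ⟨h1, h2, h3⟩ := hg (hm v) hmv
        have hNm : NL E P K hm (hm v) := hNLc _ hmv fun _ h => absurd rfl h
        refine mkF_inL_head v g (hm v) l' ⟨fun he => h2 he hNm, fun he => h3 he hw hNm⟩ ?_ ?_
        · intro c hc
          have hcv : P v c := (hl2 c).1 (List.mem_cons_of_mem _ hc)
          have h4 := (hmain v c hcv).2
          have h5 := (hg c hcv).1.1
          have h6 := h1.1
          omega
        · intro c hc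
          exact hany c ((hl2 c).1 (List.mem_cons_of_mem _ hc))

/-- in a tree every vertex has at most one neighbour which is closer to a fixed vertex -/
private theorem parent_unique {G : SimpleGraph τ} (hG : G.IsTree) (ρ : τ) {a b c : τ} (ha : G.Adj a c)
    (hb : G.Adj b c) (h1 : G.dist ρ c = G.dist ρ a + 1) (h2 : G.dist ρ c = G.dist ρ b + 1) : a = b := by
  obtain ⟨p, hp⟩ := hG.connected.exists_walk_length_eq_dist ρ a
  obtain ⟨q, hq⟩ := hG.connected.exists_walk_length_eq_dist ρ b
  have hp' : (p.concat ha).IsPath := by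
    apply SimpleGraph.Walk.isPath_of_length_eq_dist
    rw [SimpleGraph.Walk.length_concat, hp, h1]
  have hq' : (q.concat hb).IsPath := by
    apply SimpleGraph.Walk.isPath_of_length_eq_dist
    rw [SimpleGraph.Walk.length_concat, hq, h2]
  have he : p.concat ha = q.concat hb := (hG.existsUnique_path ρ c).unique hp' hq'
  have h3 := congrArg (fun w => w.penultimate) he
  simpa using h3

/-- the vertices behind `u`, seen from `ρ` -/
private theorem reach_iff {G : SimpleGraph τ} (hG : G.IsTree) (ρ u : τ) (v : τ) :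
    ReflTransGen (fun a c => G.Adj a c ∧ G.dist ρ c = G.dist ρ a + 1) u v ↔ G.dist ρ v = G.dist ρ u + G.dist u v := by
  constructor
  · intro h
    induction h with
    | refl => simp
    | @tail a c _ h2 ih =>
      have h3 := hG.connected.dist_triangle (u := ρ) (v := u) (w := c)
      have h4 := hG.connected.dist_triangle (u := u) (v := a) (w := c)
      have h5 : G.dist a c = 1 := SimpleGraph.dist_eq_one_iff_adj.2 h2.1
      have h6 := h2.2
      omega
  · generalize hn : G.dist u v = n
    intro h
    induction n generalizing v with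
    | zero =>
      rw [hG.connected.dist_eq_zero_iff] at hn
      rw [hn]
    | succ n ih =>
      obtain ⟨p, hp⟩ := hG.connected.exists_walk_length_eq_dist u v
      have hnil : ¬ p.Nil := by
        intro hn'
        have := SimpleGraph.Walk.length_eq_zero_iff.2 hn'
        omega
      have hadj := p.adj_penultimate hnil
      have h2 := SimpleGraph.dist_le p.dropLast
      have h3 : p.dropLast.length + 1 = p.length := by
        have := congrArg SimpleGraph.Walk.length (p.concat_dropLast hadj)
        rw [SimpleGraph.Walk.length_concat] at this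
        exact this
      have h4 := hG.connected.dist_triangle (u := u) (v := p.penultimate) (w := v)
      have h5 : G.dist p.penultimate v = 1 := SimpleGraph.dist_eq_one_iff_adj.2 hadj
      have h6 := hG.connected.dist_triangle (u := ρ) (v := p.penultimate) (w := v)
      have h7 := hG.connected.dist_triangle (u := ρ) (v := u) (w := p.penultimate)
      have h8 : G.dist u p.penultimate = n := by omega
      exact (ih p.penultimate h8 (by omega)).tail ⟨hadj, by omega⟩

private theorem inc_iff {w x : τ} : x ∈ inc E P w ↔ ReflTransGen (fun a b => E a b ∧ P b a) x w := by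
  rw [mem_inc, ← Relation.reflTransGen_swap]
  constructor
  · intro h
    refine ReflTransGen.mono ?_ _ _ h
    intro a b hab
    exact ⟨hab.2, hab.1⟩
  · intro h
    refine ReflTransGen.mono ?_ _ _ h
    intro a b hab
    exact ⟨hab.2, hab.1⟩

end glue

/-- Every oriented tree with root `r` and degrees at most `b` in which every directed path with `l + 1` arcs towards `r`
starts behind a light arc is coded by a tree of the class. Here `h u` is a child of `u` with the maximal number of
vertices behind it, and an arc from `u` to a child `w ≠ h u` is light if the number of vertices from which a directed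
path towards `r` leads to `w` is at most `1 / K` of the number of vertices behind `u`. -/
theorem glueL {k b l K : ℕ} {E : Fin (k + 1) → Fin (k + 1) → Prop} (h4 : ∀ a c, E a c → ¬ E c a)
    (h5 : (SimpleGraph.fromRel E).IsTree) (h6 : ∀ v, {w | E v w ∨ E w v}.ncard ≤ b) (r : Fin (k + 1))
    (h : Fin (k + 1) → Fin (k + 1))
    (hh : ∀ u w, (SimpleGraph.fromRel E).Adj u w →
      (SimpleGraph.fromRel E).dist r w = (SimpleGraph.fromRel E).dist r u + 1 →
      (SimpleGraph.fromRel E).Adj u (h u) ∧
      (SimpleGraph.fromRel E).dist r (h u) = (SimpleGraph.fromRel E).dist r u + 1 ∧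
      {x | (SimpleGraph.fromRel E).dist r x =
        (SimpleGraph.fromRel E).dist r w + (SimpleGraph.fromRel E).dist w x}.ncard ≤
      {x | (SimpleGraph.fromRel E).dist r x =
        (SimpleGraph.fromRel E).dist r (h u) + (SimpleGraph.fromRel E).dist (h u) x}.ncard)
    (h7 : ∀ p : ℕ → Fin (k + 1), (∀ i ≤ l, E (p i) (p (i + 1)) ∧
      (SimpleGraph.fromRel E).dist r (p i) = (SimpleGraph.fromRel E).dist r (p (i + 1)) + 1) →
      ∃ u w, E u w ∧ (SimpleGraph.fromRel E).dist r w = (SimpleGraph.fromRel E).dist r u + 1 ∧ w ≠ h u ∧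
        K * {x | ReflTransGen (fun a b => E a b ∧
          (SimpleGraph.fromRel E).dist r a = (SimpleGraph.fromRel E).dist r b + 1) x w}.ncard ≤
          {x | (SimpleGraph.fromRel E).dist r x =
            (SimpleGraph.fromRel E).dist r u + (SimpleGraph.fromRel E).dist u x}.ncard ∧
        (SimpleGraph.fromRel E).dist r (p 0) =
          (SimpleGraph.fromRel E).dist r w + (SimpleGraph.fromRel E).dist w (p 0)) :
    ∃ c : Fd, c.size = k ∧ FOL b l K 0 c ∧
      ∀ {V : Type} {R : V → V → Prop} {N : V → Prop} {X : Finset V}, In R c N X →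
        ∃ f : Fin (k + 1) → V, Function.Injective f ∧ (∀ a, f a ∈ X) ∧ N (f r) ∧ ∀ a c, E a c → R (f a) (f c) := by
  set G : SimpleGraph (Fin (k + 1)) := SimpleGraph.fromRel E with hG
  set P : Fin (k + 1) → Fin (k + 1) → Prop := fun a c => G.Adj a c ∧ G.dist r c = G.dist r a + 1 with hPdef
  have hE : ∀ a c, P a c → G.dist r a < G.dist r c := by
    rintro a c ⟨-, h⟩
    omega
  have hin : ∀ a b c, P a c → P b c → a = b := by
    rintro a b c ⟨h1, h2⟩ ⟨h3, h4⟩
    exact parent_unique h5 r h1 h3 h2 h4
  have hP : ∀ a c, P a c → E a c ∨ E c a := by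
    rintro a c ⟨h1, -⟩
    rw [hG, SimpleGraph.fromRel_adj] at h1
    exact h1.2
  have hadj : ∀ a c, E a c → G.Adj a c := by
    intro a c hac
    rw [hG, SimpleGraph.fromRel_adj]
    refine ⟨?_, Or.inl hac⟩
    rintro rfl
    exact h4 _ _ hac hac
  have hPE : ∀ a c, E a c → P a c ∨ P c a := by
    intro a c hac
    rcases h5.dist_eq_dist_add_one_of_adj r (hadj a c hac) with h | h
    · exact Or.inr ⟨(hadj a c hac).symm, h⟩
    · exact Or.inl ⟨hadj a c hac, h⟩
  have hD : ∀ u, (AE32.desc P u).card = {x | G.dist r x = G.dist r u + G.dist u x}.ncard := by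
    intro u
    rw [← Set.ncard_coe_finset]
    congr 1
    ext x
    rw [mem_coe, AE32.mem_desc, reach_iff h5 r u x]
    rfl
  have hI : ∀ w, (inc E P w).card =
      {x | ReflTransGen (fun a b => E a b ∧ G.dist r a = G.dist r b + 1) x w}.ncard := by
    intro w
    rw [← Set.ncard_coe_finset]
    congr 1
    ext x
    rw [mem_coe, inc_iff]
    have hrel : (fun a b => E a b ∧ P b a) = fun a b => E a b ∧ G.dist r a = G.dist r b + 1 := by
      funext a b
      apply propext
      constructor
      · rintro ⟨h1, h2⟩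
        exact ⟨h1, h2.2⟩
      · rintro ⟨h1, h2⟩
        exact ⟨h1, (hadj _ _ h1).symm, h2⟩
    rw [hrel]
    rfl
  obtain ⟨c, ⟨hc1, hc2, hc3, -, hc4⟩, hc5⟩ := codes_of hE hin hP h4 h6 h
    (fun u w huw => by
      obtain ⟨h1, h2, h3⟩ := hh u w huw.1 huw.2
      refine ⟨⟨h1, h2⟩, ?_⟩
      rw [hD, hD]
      exact h3) (L := l) (K := K)
    (fun f hf hNL => by
      obtain ⟨u, w, h1, h2, h3, h8, h9⟩ := h7 f fun i hi => ⟨(hf i hi).1, (hf i hi).2.2⟩
      refine hNL u w ⟨hadj _ _ h1, h2⟩ h1 h3 ?_ ?_
      · rw [hD, hI]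
        exact h8
      · rw [AE32.mem_desc, reach_iff h5 r w (f 0)]
        exact h9) _ r 0 rfl
  have hc5' : InL l K true (c.size + 1) 0 c := by
    refine hc5 (wk_zero (E := E) (P := P) r) ?_
    intro u w huw _ _ _ hrw
    have h1 := AE32.rank_le hE (AE32.mem_desc.1 hrw)
    have h2 := hE _ _ huw
    rw [SimpleGraph.dist_self] at h1
    omega
  have hroot : AE32.desc P r = univ := by
    rw [eq_univ_iff_forall]
    intro v
    rw [AE32.mem_desc, reach_iff h5 r r v, SimpleGraph.dist_self, zero_add]
  rw [hroot, card_univ, Fintype.card_fin] at hc1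
  refine ⟨c, by omega, ⟨hc2, hc3, hc5'⟩, ?_⟩
  rintro V R N X ⟨x, hx, A, hA, hxA, hN, hS⟩
  obtain ⟨f, p1, p2, p3, p4⟩ := hc4 hxA hS
  rw [hroot] at p2 p3 p4
  refine ⟨f, fun a b hab => p3 a (mem_univ _) b (mem_univ _) hab, fun a => ?_, by rw [p1]; exact hN, fun a c hac => ?_⟩
  · have := p2 a (mem_univ _)
    rw [mem_insert] at this
    rcases this with h | h
    · rw [h]
      exact hx
    · exact hA h
  · rcases hPE a c hac with h | h
    · have h1 := p4 a (mem_univ _) c h
      simpa [Adj, hac] using h1
    · have h1 := p4 c (mem_univ _) a h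
      have h2 : ¬ E c a := h4 _ _ hac
      simpa [Adj, h2] using h1

/-- the final theorem from the statement on coded trees -/
theorem final_of_fol (hm : ∀ b l : ℕ, 1 ≤ b → ∃ K C : ℕ,
    ∀ {V : Type} {R : V → V → Prop}, AE32.Tour R → ∀ F : Fd, FOL b l K 0 F → ∀ X : Finset V,
      F.size + 1 + C ≤ X.card → In R F (fun _ => True) X) (Δ l : ℕ) :
    ∃ K C : ℕ, ∀ k n : ℕ, k + C ≤ n → ∀ R : Fin n → Fin n → Prop,
    (∀ a, ¬ R a a) → (∀ a b, a ≠ b → R a b ∨ R b a) → (∀ a b, R a b → ¬ R b a) →
    ∀ E : Fin (k + 1) → Fin (k + 1) → Prop,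
      (∀ a b, E a b → ¬ E b a) →
      (SimpleGraph.fromRel E).IsTree →
      (∀ v, ((SimpleGraph.fromRel E).neighborSet v).ncard ≤ Δ) →
      (∃ (r : Fin (k + 1)) (h : Fin (k + 1) → Fin (k + 1)),
        (∀ u w, (SimpleGraph.fromRel E).Adj u w →
          (SimpleGraph.fromRel E).dist r w = (SimpleGraph.fromRel E).dist r u + 1 →
          (SimpleGraph.fromRel E).Adj u (h u) ∧
          (SimpleGraph.fromRel E).dist r (h u) = (SimpleGraph.fromRel E).dist r u + 1 ∧
          {x | (SimpleGraph.fromRel E).dist r x =
            (SimpleGraph.fromRel E).dist r w + (SimpleGraph.fromRel E).dist w x}.ncard ≤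
          {x | (SimpleGraph.fromRel E).dist r x =
            (SimpleGraph.fromRel E).dist r (h u) + (SimpleGraph.fromRel E).dist (h u) x}.ncard) ∧
        ∀ p : ℕ → Fin (k + 1), (∀ i ≤ l, E (p i) (p (i + 1)) ∧
          (SimpleGraph.fromRel E).dist r (p i) = (SimpleGraph.fromRel E).dist r (p (i + 1)) + 1) →
          ∃ u w, E u w ∧ (SimpleGraph.fromRel E).dist r w = (SimpleGraph.fromRel E).dist r u + 1 ∧ w ≠ h u ∧
            K * {x | Relation.ReflTransGen (fun a b => E a b ∧
              (SimpleGraph.fromRel E).dist r a = (SimpleGraph.fromRel E).dist r b + 1) x w}.ncard ≤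
            {x | (SimpleGraph.fromRel E).dist r x =
              (SimpleGraph.fromRel E).dist r u + (SimpleGraph.fromRel E).dist u x}.ncard ∧
            (SimpleGraph.fromRel E).dist r (p 0) =
              (SimpleGraph.fromRel E).dist r w + (SimpleGraph.fromRel E).dist w (p 0)) →
      ∃ f : Fin (k + 1) → Fin n, Function.Injective f ∧ ∀ a b, E a b → R (f a) (f b) := by
  obtain ⟨K, C, hC⟩ := hm (max Δ 1) l (le_max_right _ _)
  refine ⟨K, C + 1, fun k n hn R h1 h2 h3 E h4 h5 h6 ⟨r, h, hh, h7⟩ => ?_⟩
  have h6' : ∀ v, {w | E v w ∨ E w v}.ncard ≤ max Δ 1 := by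
    intro v
    refine le_trans (le_of_eq ?_) ((h6 v).trans (le_max_left _ _))
    congr 1
    ext w
    rw [SimpleGraph.mem_neighborSet, SimpleGraph.fromRel_adj]
    constructor
    · intro h
      refine ⟨?_, h⟩
      rintro rfl
      rcases h with h | h
      · exact h4 _ _ h h
      · exact h4 _ _ h h
    · intro h
      exact h.2
  obtain ⟨c, hc1, hc2, hc5⟩ := glueL h4 h5 h6' r h hh h7
  have hT : AE32.Tour R := ⟨h1, h2, h3⟩
  have hIn := hC hT c hc2 univ (by rw [card_univ, Fintype.card_fin]; omega)
  obtain ⟨f, hf1, -, -, hf3⟩ := hc5 hIn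
  exact ⟨f, hf1, hf3⟩

end AET
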