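import Pool.Agent.AET.FinalP
import Pool.Agent.AEG.FinalM2

/-!
# Light branches along a path of any length: from trees to coded lines
-/

set_option autoImplicit false

namespace AET

open Finset Relation AE15 AED AEB
open scoped Classical

set_option linter.unusedSectionVars false

section line

variable {τ : Type*} [Fintype τ] {E P : τ → τ → Prop}

/-- one vertex of the line: the side trees -/
theorem sidesQ {h : τ → ℕ} (hE : ∀ a b, P a b → h a < h b) (hin : ∀ a b c, P a c → P b c → a = b)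
    (hP : ∀ a c, P a c → E a c ∨ E c a) (has : ∀ a c, E a c → ¬ E c a) {Cl : Fd → Prop} (v : τ) (M : Finset τ)
    (hM : ∀ u ∈ M, E v u ∧ P v u)
    (h7 : ∀ K₂ : Finset τ, (∀ u ∈ K₂, u ∉ M ∧ P v u ∧ E v u) → ∃ D, Cl D ∧ SideF E P v K₂ D)
    (h8 : ∀ K₁ : Finset τ, (∀ u ∈ K₁, u ∉ M ∧ P v u ∧ E u v) → ∃ A, Cl A ∧ SideF (fun a c => E c a) P v K₁ A) :
    ∃ (A D : Fd) (B : Finset τ), (A.size = {x | ∃ u, u ∉ M ∧ P v u ∧ E u v ∧ ReflTransGen P u x}.ncard ∧
        A.size + D.size = {x | ∃ u, u ∉ M ∧ P v u ∧ (E v u ∨ E u v) ∧ ReflTransGen P u x}.ncard) ∧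
      Cl A ∧ Cl D ∧ (∀ q ∈ A.trees, q.1 = true) ∧ (∀ q ∈ D.trees, q.1 = true) ∧
      A.size + D.size = B.card ∧ Disjoint B (M.biUnion (AE32.desc P)) ∧
      AE32.desc P v = insert v (B ∪ M.biUnion (AE32.desc P)) ∧ v ∉ B ∪ M.biUnion (AE32.desc P) ∧
      (∀ a, P v a → a ∈ B ∪ M.biUnion (AE32.desc P)) ∧
      ∀ {V : Type} {R : V → V → Prop} {x : V} {S₁ S₂ : Finset V}, Disjoint S₁ S₂ → Emb (SPD.rv R) A x S₁ →
        Emb R D x S₂ → ∃ f, AEG.Blk E P R v x B (S₁ ∪ S₂) f := by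
  set K₂ : Finset τ := univ.filter (fun u => u ∉ M ∧ P v u ∧ E v u) with hK2
  set K₁ : Finset τ := univ.filter (fun u => u ∉ M ∧ P v u ∧ E u v) with hK1
  have m2 : ∀ u, u ∈ K₂ ↔ u ∉ M ∧ P v u ∧ E v u := by simp [hK2]
  have m1 : ∀ u, u ∈ K₁ ↔ u ∉ M ∧ P v u ∧ E u v := by simp [hK1]
  obtain ⟨D, a0, a1, a5, a6⟩ := h7 K₂ fun u hu => (m2 u).1 hu
  obtain ⟨A, b0, b1, b5, b6⟩ := h8 K₁ fun u hu => (m1 u).1 hu
  have hdj : ∀ K K' : Finset τ, (∀ u ∈ K, P v u) → (∀ u ∈ K', P v u) → Disjoint K K' →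
      Disjoint (K.biUnion (AE32.desc P)) (K'.biUnion (AE32.desc P)) := by
    intro K K' h1 h2 h3
    rw [disjoint_biUnion_left]
    intro u hu
    rw [disjoint_biUnion_right]
    intro w hw
    refine AE32.desc_disjoint hE hin (h1 u hu) (h2 w hw) ?_
    rintro rfl
    exact (Finset.disjoint_left.1 h3) hu hw
  have c12 : Disjoint (K₁.biUnion (AE32.desc P)) (K₂.biUnion (AE32.desc P)) := by
    refine hdj _ _ (fun u hu => ((m1 u).1 hu).2.1) (fun u hu => ((m2 u).1 hu).2.1) ?_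
    rw [Finset.disjoint_left]
    intro u h1 h2
    exact has _ _ ((m1 u).1 h1).2.2 ((m2 u).1 h2).2.2
  have c1M : Disjoint (K₁.biUnion (AE32.desc P)) (M.biUnion (AE32.desc P)) := by
    refine hdj _ _ (fun u hu => ((m1 u).1 hu).2.1) (fun u hu => (hM u hu).2) ?_
    rw [Finset.disjoint_left]
    intro u h1 h2
    exact ((m1 u).1 h1).1 h2
  have c2M : Disjoint (K₂.biUnion (AE32.desc P)) (M.biUnion (AE32.desc P)) := by
    refine hdj _ _ (fun u hu => ((m2 u).1 hu).2.1) (fun u hu => (hM u hu).2) ?_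
    rw [Finset.disjoint_left]
    intro u h1 h2
    exact ((m2 u).1 h1).1 h2
  have hchild : ∀ a, P v a → a ∈ K₁ ∨ a ∈ K₂ ∨ a ∈ M := by
    intro a ha
    by_cases haM : a ∈ M
    · exact Or.inr (Or.inr haM)
    · rcases hP _ _ ha with h | h
      · exact Or.inr (Or.inl ((m2 a).2 ⟨haM, ha, h⟩))
      · exact Or.inl ((m1 a).2 ⟨haM, ha, h⟩)
  have hself : ∀ K : Finset τ, ∀ u ∈ K, u ∈ K.biUnion (AE32.desc P) := fun K u hu =>
    mem_biUnion.2 ⟨u, hu, AE32.self_mem_desc u⟩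
  have hcl : ∀ K : Finset τ, ∀ a ∈ K.biUnion (AE32.desc P), ∀ a', P a a' → a' ∈ K.biUnion (AE32.desc P) := by
    intro K a ha a' haa
    obtain ⟨u, hu, hau⟩ := mem_biUnion.1 ha
    exact mem_biUnion.2 ⟨u, hu, AE32.mem_desc.2 ((AE32.mem_desc.1 hau).tail haa)⟩
  have hnv : ∀ K : Finset τ, (∀ u ∈ K, P v u) → v ∉ K.biUnion (AE32.desc P) := by
    intro K hK hmem
    obtain ⟨u, hu, h⟩ := mem_biUnion.1 hmem
    exact AE32.notMem_desc hE (hK u hu) h
  have g0 : A.size = {x | ∃ u, u ∉ M ∧ P v u ∧ E u v ∧ ReflTransGen P u x}.ncard := by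
    rw [b1, ← Set.ncard_coe_finset]
    congr 1
    ext x
    rw [mem_coe, mem_biUnion]
    constructor
    · rintro ⟨u, hu, hx⟩
      exact ⟨u, ((m1 u).1 hu).1, ((m1 u).1 hu).2.1, ((m1 u).1 hu).2.2, AE32.mem_desc.1 hx⟩
    · rintro ⟨u, h1, h2, h3, h4⟩
      exact ⟨u, (m1 u).2 ⟨h1, h2, h3⟩, AE32.mem_desc.2 h4⟩
  have g00 : A.size + D.size = {x | ∃ u, u ∉ M ∧ P v u ∧ (E v u ∨ E u v) ∧ ReflTransGen P u x}.ncard := by
    rw [a1, b1, ← card_union_of_disjoint c12, ← Set.ncard_coe_finset]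
    congr 1
    ext x
    rw [mem_coe, mem_union, mem_biUnion, mem_biUnion]
    constructor
    · rintro (⟨u, hu, hx⟩ | ⟨u, hu, hx⟩)
      · exact ⟨u, ((m1 u).1 hu).1, ((m1 u).1 hu).2.1, Or.inr ((m1 u).1 hu).2.2, AE32.mem_desc.1 hx⟩
      · exact ⟨u, ((m2 u).1 hu).1, ((m2 u).1 hu).2.1, Or.inl ((m2 u).1 hu).2.2, AE32.mem_desc.1 hx⟩
    · rintro ⟨u, h1, h2, h3, h4⟩
      rcases h3 with h3 | h3
      · exact Or.inr ⟨u, (m2 u).2 ⟨h1, h2, h3⟩, AE32.mem_desc.2 h4⟩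
      · exact Or.inl ⟨u, (m1 u).2 ⟨h1, h2, h3⟩, AE32.mem_desc.2 h4⟩
  refine ⟨A, D, K₁.biUnion (AE32.desc P) ∪ K₂.biUnion (AE32.desc P), ⟨g0, g00⟩, b0, a0, b5, a5, ?_, ?_, ?_, ?_, ?_, ?_⟩
  · rw [card_union_of_disjoint c12, a1, b1]
  · rw [disjoint_union_left]
    exact ⟨c1M, c2M⟩
  · ext a
    rw [AE32.mem_desc, ReflTransGen.cases_head_iff]
    simp only [mem_insert, mem_union]
    constructor
    · rintro (h1 | ⟨c, h1, h2⟩)
      · exact Or.inl h1.symm
      · right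
        rcases hchild c h1 with h | h | h
        · exact Or.inl (Or.inl (mem_biUnion.2 ⟨c, h, AE32.mem_desc.2 h2⟩))
        · exact Or.inl (Or.inr (mem_biUnion.2 ⟨c, h, AE32.mem_desc.2 h2⟩))
        · exact Or.inr (mem_biUnion.2 ⟨c, h, AE32.mem_desc.2 h2⟩)
    · rintro (h1 | (h1 | h1) | h1)
      · exact Or.inl h1.symm
      · obtain ⟨u, hu, h⟩ := mem_biUnion.1 h1
        exact Or.inr ⟨u, ((m1 u).1 hu).2.1, AE32.mem_desc.1 h⟩
      · obtain ⟨u, hu, h⟩ := mem_biUnion.1 h1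
        exact Or.inr ⟨u, ((m2 u).1 hu).2.1, AE32.mem_desc.1 h⟩
      · obtain ⟨u, hu, h⟩ := mem_biUnion.1 h1
        exact Or.inr ⟨u, (hM u hu).2, AE32.mem_desc.1 h⟩
  · rw [mem_union, mem_union]
    rintro ((h | h) | h)
    · exact hnv K₁ (fun u hu => ((m1 u).1 hu).2.1) h
    · exact hnv K₂ (fun u hu => ((m2 u).1 hu).2.1) h
    · exact hnv M (fun u hu => (hM u hu).2) h
  · intro a ha
    rw [mem_union, mem_union]
    rcases hchild a ha with h | h | h
    · exact Or.inl (Or.inl (hself _ _ h))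
    · exact Or.inl (Or.inr (hself _ _ h))
    · exact Or.inr (hself _ _ h)
  · intro V R x S₁ S₂ hd he1 he2
    obtain ⟨f₁, q1, q2, q3, q4⟩ := b6 he1
    obtain ⟨f₂, p1, p2, p3, p4⟩ := a6 he2
    have hroot : ∀ K : Finset τ, (∀ u ∈ K, P v u) → ∀ a ∈ K.biUnion (AE32.desc P), P v a → a ∈ K := by
      intro K hK a ha hva
      obtain ⟨u, hu, h⟩ := mem_biUnion.1 ha
      have : a = u := by
        by_contra hne
        exact (Finset.disjoint_left.1 (AE32.desc_disjoint hE hin hva (hK u hu) hne)) (AE32.self_mem_desc a) h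
      rw [this]
      exact hu
    have k1 : AEG.Blk E P R v x (K₁.biUnion (AE32.desc P)) S₁ f₁ := by
      refine ⟨q2, q3, ?_, fun a ha a' haa => ⟨hcl K₁ a ha a' haa, ?_⟩⟩
      · intro a ha hva
        have h1 := hroot K₁ (fun u hu => ((m1 u).1 hu).2.1) a ha hva
        exact ⟨fun h => absurd ((m1 a).1 h1).2.2 (has _ _ h), fun _ => q1 a h1⟩
      · have h := q4 a ha a' haa
        refine ⟨fun h' => ?_, fun h' => ?_⟩
        · have h'' : ¬ E a' a := has _ _ h'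
          simpa [Adj, h'', SPD.rv] using h
        · simpa [Adj, h', SPD.rv] using h
    have k2 : AEG.Blk E P R v x (K₂.biUnion (AE32.desc P)) S₂ f₂ := by
      refine ⟨p2, p3, ?_, fun a ha a' haa => ⟨hcl K₂ a ha a' haa, ?_⟩⟩
      · intro a ha hva
        have h1 := hroot K₂ (fun u hu => ((m2 u).1 hu).2.1) a ha hva
        exact ⟨fun _ => p1 a h1, fun h => absurd ((m2 a).1 h1).2.2 (has _ _ h)⟩
      · have h := p4 a ha a' haa
        refine ⟨fun h' => ?_, fun h' => ?_⟩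
        · simpa [Adj, h'] using h
        · have h'' : ¬ E a a' := has _ _ h'
          simpa [Adj, h''] using h
    exact ⟨_, k1.union k2 c12 hd⟩

/-- the tree below a vertex of the line is coded by a list of pairs of forests -/
theorem lineQ {h : τ → ℕ} (hh : ∀ a c, P a c → h c = h a + 1) (hin : ∀ a b c, P a c → P b c → a = b)
    (hP : ∀ a c, P a c → E a c ∨ E c a) (has : ∀ a c, E a c → ¬ E c a) {Cl : Fd → Prop} {m : ℕ} {p : ℕ → τ}
    (hp : ∀ i < m, E (p i) (p (i + 1)) ∧ P (p i) (p (i + 1)))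
    (h7 : ∀ i ≤ m, ∀ K₂ : Finset τ, (∀ u ∈ K₂, (∀ j ≤ m, u ≠ p j) ∧ P (p i) u ∧ E (p i) u) →
      ∃ D, Cl D ∧ SideF E P (p i) K₂ D)
    (h8 : ∀ i ≤ m, ∀ K₁ : Finset τ, (∀ u ∈ K₁, (∀ j ≤ m, u ≠ p j) ∧ P (p i) u ∧ E u (p i)) →
      ∃ A, Cl A ∧ SideF (fun a c => E c a) P (p i) K₁ A) (n : ℕ) :
    ∀ i, i + n = m → ∃ L : List (Fd × Fd), L.length = n + 1 ∧
      (L.map (fun q => q.1.size + q.2.size + 1)).sum = (AE32.desc P (p i)).card ∧
      (∀ s ≤ n, ∃ q, L[s]? = some q ∧ q.1.size =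
        {x | ∃ u, (∀ j ≤ m, u ≠ p j) ∧ P (p (i + s)) u ∧ E u (p (i + s)) ∧ ReflTransGen P u x}.ncard ∧
        q.1.size + q.2.size = {x | ∃ u, (∀ j ≤ m, u ≠ p j) ∧ P (p (i + s)) u ∧
          (E (p (i + s)) u ∨ E u (p (i + s))) ∧ ReflTransGen P u x}.ncard) ∧
      (∀ q ∈ L, Cl q.1 ∧ Cl q.2 ∧ (∀ t ∈ q.1.trees, t.1 = true) ∧ ∀ t ∈ q.2.trees, t.1 = true) ∧
      ∀ {V : Type} {R : V → V → Prop} {y : V} {S : Finset V}, y ∉ S → AEG.EmbS R L y S → AEG.Dec E P R (p i) y S := by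
  have hE : ∀ a b, P a b → h a < h b := fun a c hac => by rw [hh a c hac]; omega
  have hrank : ∀ i ≤ m, h (p i) = h (p 0) + i := by
    intro i hi
    induction i with
    | zero => rfl
    | succ i ih =>
      rw [hh _ _ (hp i (by omega)).2, ih (by omega)]
      omega
  have hnext : ∀ i ≤ m, ∀ j ≤ m, P (p i) (p j) → j = i + 1 := by
    intro i hi j hj hij
    have h1 := hh _ _ hij
    rw [hrank i hi, hrank j hj] at h1
    omega
  induction n with
  | zero =>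
    intro i hi
    have him : i = m := by omega
    subst him
    have hne : ∀ u, P (p i) u → ∀ j ≤ i, u ≠ p j := by
      rintro u hu j hj rfl
      have := hnext i le_rfl j hj hu
      omega
    obtain ⟨A, D, B, g0, g1, g2, g3, g4, g5, g6, g7, g8, g9, g10⟩ := sidesQ (E := E) hE hin hP has (p i) ∅ (by simp)
      (fun K₂ hK => h7 i le_rfl K₂ fun u hu => ⟨hne u (hK u hu).2.1, (hK u hu).2⟩)
      (fun K₁ hK => h8 i le_rfl K₁ fun u hu => ⟨hne u (hK u hu).2.1, (hK u hu).2⟩)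
    rw [biUnion_empty, union_empty] at g7 g8 g9
    refine ⟨[(A, D)], rfl, ?_, ?_, ?_, ?_⟩
    · rw [g7, card_insert_of_notMem g8, ← g5]
      simp
    · intro s hs
      obtain rfl : s = 0 := by omega
      refine ⟨(A, D), rfl, ?_, ?_⟩
      · rw [g0.1, add_zero]
        congr 1
        ext x
        simp only [Set.mem_ofPred_eq]
        exact ⟨fun ⟨u, _, h⟩ => ⟨u, hne u h.1, h⟩, fun ⟨u, _, h⟩ => ⟨u, notMem_empty _, h⟩⟩
      · rw [g0.2, add_zero]
        congr 1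
        ext x
        simp only [Set.mem_ofPred_eq]
        exact ⟨fun ⟨u, _, h⟩ => ⟨u, hne u h.1, h⟩, fun ⟨u, _, h⟩ => ⟨u, notMem_empty _, h⟩⟩
    · intro q hq
      rw [List.mem_singleton] at hq
      subst hq
      exact ⟨g1, g2, g3, g4⟩
    · intro V R y S hy hS
      obtain ⟨S₁, S₂, s1, rfl, s2, s3⟩ := hS
      obtain ⟨f, hf⟩ := g10 s1 s2 s3
      exact hf.root g8 g7 hy g9
  | succ n ih =>
    intro i hi
    obtain ⟨L', l1, l2, l0, l3, l4⟩ := ih (i + 1) (by omega)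
    obtain ⟨pe, pp⟩ := hp i (by omega)
    have hne : ∀ u, u ∉ ({p (i + 1)} : Finset τ) → P (p i) u → ∀ j ≤ m, u ≠ p j := by
      rintro u hu1 hu j hj rfl
      have := hnext i (by omega) j hj hu
      subst this
      exact hu1 (mem_singleton_self _)
    obtain ⟨A, D, B, g0, g1, g2, g3, g4, g5, g6, g7, g8, g9, g10⟩ := sidesQ (E := E) hE hin hP has (p i) {p (i + 1)}
      (fun u hu => by rw [mem_singleton] at hu; subst hu; exact ⟨pe, pp⟩)
      (fun K₂ hK => h7 i (by omega) K₂ fun u hu => ⟨hne u (hK u hu).1 (hK u hu).2.1, (hK u hu).2⟩)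
      (fun K₁ hK => h8 i (by omega) K₁ fun u hu => ⟨hne u (hK u hu).1 (hK u hu).2.1, (hK u hu).2⟩)
    rw [singleton_biUnion] at g6 g7 g8 g9
    obtain ⟨q', L'', rfl⟩ : ∃ q' L'', L' = q' :: L'' := by
      cases L' with
      | nil => simp at l1
      | cons q' L'' => exact ⟨q', L'', rfl⟩
    refine ⟨(A, D) :: q' :: L'', by rw [List.length_cons, l1], ?_, ?_, ?_, ?_⟩
    · rw [List.map_cons, List.sum_cons, l2, g7, card_insert_of_notMem g8, card_union_of_disjoint g6, ← g5]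
      simp only
      omega
    · intro s hs
      rcases s with _ | s
      · refine ⟨(A, D), rfl, ?_, ?_⟩
        · rw [g0.1, add_zero]
          congr 1
          ext x
          simp only [Set.mem_ofPred_eq]
          refine ⟨fun ⟨u, h1, h2⟩ => ⟨u, hne u h1 h2.1, h2⟩, fun ⟨u, h1, h2⟩ => ⟨u, ?_, h2⟩⟩
          rw [mem_singleton]
          exact h1 (i + 1) (by omega)
        · rw [g0.2, add_zero]
          congr 1
          ext x
          simp only [Set.mem_ofPred_eq]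
          refine ⟨fun ⟨u, h1, h2⟩ => ⟨u, hne u h1 h2.1, h2⟩, fun ⟨u, h1, h2⟩ => ⟨u, ?_, h2⟩⟩
          rw [mem_singleton]
          exact h1 (i + 1) (by omega)
      · obtain ⟨q, hq1, hq2, hq3⟩ := l0 s (by omega)
        refine ⟨q, by simpa using hq1, ?_, ?_⟩
        · rw [hq2, show i + 1 + s = i + (s + 1) by omega]
        · rw [hq3, show i + 1 + s = i + (s + 1) by omega]
    · intro q hq
      rcases List.mem_cons.1 hq with rfl | hq
      · exact ⟨g1, g2, g3, g4⟩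
      · exact l3 q hq
    · intro V R y S hy hS
      obtain ⟨S₁, S₂, z, S₃, s1, s2, s3, s4, rfl, s5, s6, s7⟩ := hS
      obtain ⟨f, hf⟩ := g10 s1 s5 s6
      obtain ⟨f', hf'⟩ := (l4 s3 s7).blk hE hin pp pe (has _ _ pe) s4
      exact (hf.union hf' g6 s2).root g8 g7 hy g9


end line

/-- An oriented tree with degrees at most `b` and a directed path `p 0, …, p m` whose branches have light runs is coded by a
list of pairs of forests of the class. -/
theorem glueQ {k b l K g : ℕ} {E : Fin (k + 1) → Fin (k + 1) → Prop} (h4 : ∀ a c, E a c → ¬ E c a)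
    (h5 : (SimpleGraph.fromRel E).IsTree) (h6 : ∀ v, {w | E v w ∨ E w v}.ncard ≤ b) (hg : 1 ≤ g) {m : ℕ}
    {p : ℕ → Fin (k + 1)} {h : Fin (k + 1) → Fin (k + 1)} (hp : ∀ i < m, E (p i) (p (i + 1)))
    (hm : MainChild (SimpleGraph.fromRel E) (p 0) h)
    (h7 : LightRunsP l K g E (SimpleGraph.fromRel E) m p h)
    (h8 : LightRunsP l K g (fun a b => E b a) (SimpleGraph.fromRel E) m p h) :
    ∃ L : List (Fd × Fd), L.length = m + 1 ∧ (L.map (fun q => q.1.size + q.2.size + 1)).sum = k + 1 ∧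
      (∀ i ≤ m, ∃ q, L[i]? = some q ∧ q.1.size = {x | ∃ u, E u (p i) ∧ (∀ j ≤ m, u ≠ p j) ∧
        (SimpleGraph.fromRel E).dist (p i) x = (SimpleGraph.fromRel E).dist u x + 1}.ncard ∧
        q.1.size + q.2.size = {x | ∃ u, (E (p i) u ∨ E u (p i)) ∧ (∀ j ≤ m, u ≠ p j) ∧
        (SimpleGraph.fromRel E).dist (p i) x = (SimpleGraph.fromRel E).dist u x + 1}.ncard) ∧
      (∀ q ∈ L, BrOkL b l K g q) ∧
      ∀ {V : Type} {R : V → V → Prop} {y : V} {S : Finset V}, y ∉ S → AEG.EmbS R L y S →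
        ∃ f : Fin (k + 1) → V, Function.Injective f ∧ ∀ a c, E a c → R (f a) (f c) := by
  set G : SimpleGraph (Fin (k + 1)) := SimpleGraph.fromRel E with hG
  have hadj : ∀ a c, G.Adj a c → E a c ∨ E c a := by
    intro a c h
    rw [hG, SimpleGraph.fromRel_adj] at h
    exact h.2
  have hadj' : ∀ a c, E a c → G.Adj a c := by
    intro a c h
    rw [hG, SimpleGraph.fromRel_adj]
    refine ⟨?_, Or.inl h⟩
    rintro rfl
    exact h4 _ _ h h
  have hpp : ∀ i < m, Pr G (p 0) (p i) (p (i + 1)) := by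
    intro i
    induction i with
    | zero =>
      intro hi
      have h1 := hadj' _ _ (hp 0 hi)
      refine ⟨h1, ?_⟩
      rw [SimpleGraph.dist_self, SimpleGraph.dist_eq_one_iff_adj.2 h1]
    | succ i ih =>
      intro hi
      have h1 := hadj' _ _ (hp (i + 1) hi)
      refine ⟨h1, ?_⟩
      rcases h5.dist_eq_dist_add_one_of_adj (p 0) h1 with h | h
      · exfalso
        have h2 : p i = p (i + 1 + 1) := Pr.inj h5 _ (ih (by omega)) ⟨h1.symm, h⟩
        have h3 := hp i (by omega)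
        rw [h2] at h3
        exact h4 _ _ h3 (hp (i + 1) hi)
      · exact h
  obtain ⟨L, l1, l2, l0, l3, l4⟩ := lineQ (E := E) (P := Pr G (p 0)) (h := fun v => G.dist (p 0) v)
    (Cl := fun F => FON b l K g F) (fun a c h => h.2)
    (fun a b c h1 h2 => Pr.inj h5 _ h1 h2) (fun a c h => hadj a c h.1) h4 (fun i hi => ⟨hp i hi, hpp i hi⟩)
    (fun i hi K₂ hK => side_of_light h5 hadj hadj' h4 h6 hg hm h7 hi K₂ hK)
    (fun i hi K₁ hK => side_of_light (E := fun a c => E c a) h5 (fun a c h => (hadj a c h).symm)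
      (fun a c h => (hadj' c a h).symm) (fun a c h => h4 c a h) (fun v => by
        rw [show {w | E w v ∨ E v w} = {w | E v w ∨ E w v} from by ext u; exact or_comm]
        exact h6 v) hg hm h8 hi K₁ hK) m 0 (by omega)
  have hroot : AE32.desc (Pr G (p 0)) (p 0) = univ := by
    rw [eq_univ_iff_forall]
    intro v
    rw [AE32.mem_desc]
    refine (reach_iffP h5 (p 0) (p 0) v).2 ?_
    rw [SimpleGraph.dist_self, zero_add]
  rw [hroot, card_univ, Fintype.card_fin] at l2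
  refine ⟨L, l1, l2, ?_, l3, ?_⟩
  · intro i hi
    obtain ⟨q, hq1, hq2, hq3⟩ := l0 i (by omega)
    have hPu : ∀ u, (E (p i) u ∨ E u (p i)) → (∀ j ≤ m, u ≠ p j) → Pr G (p 0) (p i) u := by
      intro u u3 u1
      have hadu : G.Adj (p i) u := by
        rcases u3 with h | h
        · exact hadj' _ _ h
        · exact (hadj' _ _ h).symm
      refine ⟨hadu, ?_⟩
      rcases h5.dist_eq_dist_add_one_of_adj (p 0) hadu with h | h
      · exfalso
        rcases i with _ | i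
        · rw [SimpleGraph.dist_self] at h
          omega
        · exact u1 i (by omega) (Pr.inj h5 _ ⟨hadu.symm, h⟩ (hpp i (by omega)))
      · exact h
    refine ⟨q, hq1, ?_, ?_⟩
    · rw [hq2, zero_add]
      congr 1
      ext x
      constructor
      · rintro ⟨u, u1, u2, u3, hx⟩
        exact ⟨u, u3, u1, AEG.dist_below' h5 (p 0) u2 hx⟩
      · rintro ⟨u, u3, u1, hx⟩
        have h := hPu u (Or.inr u3) u1
        exact ⟨u, u1, h, u3, AEG.below_of_dist h5 (p 0) h _ x rfl hx⟩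
    · rw [hq3, zero_add]
      congr 1
      ext x
      constructor
      · rintro ⟨u, u1, u2, u3, hx⟩
        exact ⟨u, u3, u1, AEG.dist_below' h5 (p 0) u2 hx⟩
      · rintro ⟨u, u3, u1, hx⟩
        have h := hPu u u3 u1
        exact ⟨u, u1, h, u3, AEG.below_of_dist h5 (p 0) h _ x rfl hx⟩
  · intro V R y S hy hS
    obtain ⟨f, -, -, f3, f4⟩ := l4 hy hS
    rw [hroot] at f3 f4
    refine ⟨f, fun a a' haa => f3 a (mem_univ _) a' (mem_univ _) haa, fun a c hac => ?_⟩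
    rcases h5.dist_eq_dist_add_one_of_adj (p 0) (hadj' a c hac) with h | h
    · exact (f4 c (mem_univ _) a ⟨(hadj' a c hac).symm, h⟩).2 hac
    · exact (f4 a (mem_univ _) c ⟨hadj' a c hac, h⟩).1 hac

/-- the coded statement: every coded line of the class with `szS L` vertices is contained in every tournament with
`szS L + C` vertices -/
def CodIIL (b l B N K g : ℕ) (C : ℕ) : Prop := ∀ {V : Type} {R : V → V → Prop}, AE32.Tour R → ∀ L : List (Fd × Fd),
  L ≠ [] → (∀ q ∈ L, BrOkL b l K g q) →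
  AEG.ClsB (AEG.smB B) 6 B N L → AEG.ClsA (AEG.smB B) 6 B N L →
  ∀ X : Finset V, AEG.szS L + C ≤ X.card → ∃ y ∈ X, ∃ S ⊆ X, y ∉ S ∧ AEG.EmbS R L y S

/-- the coded class grows with smaller parameters -/
theorem CodIIL.mono {b l B N K g C K' g' : ℕ} (h : CodIIL b l B N K g C) (h1 : K ≤ K') (h2 : g ≤ g') :
    CodIIL b l B N K' g' C := fun hT L hL hq => h hT L hL fun q hq' => (hq q hq').mono h1 h2

theorem final_of_CodIIL (Δ l B N K g C : ℕ) (hg : 1 ≤ g) (hC : CodIIL (Δ + 1) l B N K g C) : ∀ k n : ℕ,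
    k + (C + 1) ≤ n → ∀ R : Fin n → Fin n → Prop,
    (∀ a, ¬ R a a) → (∀ a b, a ≠ b → R a b ∨ R b a) → (∀ a b, R a b → ¬ R b a) →
    ∀ E : Fin (k + 1) → Fin (k + 1) → Prop,
      (∀ a b, E a b → ¬ E b a) →
      (SimpleGraph.fromRel E).IsTree →
      (∀ v, ((SimpleGraph.fromRel E).neighborSet v).ncard ≤ Δ) →
      (∃ (m : ℕ) (p : ℕ → Fin (k + 1)) (h : Fin (k + 1) → Fin (k + 1)), (∀ i < m, E (p i) (p (i + 1))) ∧
        MainChild (SimpleGraph.fromRel E) (p 0) h ∧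
        LightRunsP l K g E (SimpleGraph.fromRel E) m p h ∧
        LightRunsP l K g (fun a b => E b a) (SimpleGraph.fromRel E) m p h ∧
        (∀ i ≤ m, B < {x | ∃ u, E u (p i) ∧ (∀ t ≤ m, u ≠ p t) ∧
            (SimpleGraph.fromRel E).dist (p i) x = (SimpleGraph.fromRel E).dist u x + 1}.ncard →
          (N ≤ i → ∃ j, i ≤ j + N ∧ j + 6 ≤ i ∧ ∀ s < 6, {x | ∃ u, (E (p (j + s)) u ∨ E u (p (j + s))) ∧
            (∀ t ≤ m, u ≠ p t) ∧
            (SimpleGraph.fromRel E).dist (p (j + s)) x = (SimpleGraph.fromRel E).dist u x + 1}.ncard ≤ B) ∧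
          (i + N ≤ m → ∃ j, i < j ∧ j + 6 ≤ i + 1 + N ∧ ∀ s < 6, {x | ∃ u, (E (p (j + s)) u ∨ E u (p (j + s))) ∧
            (∀ t ≤ m, u ≠ p t) ∧
            (SimpleGraph.fromRel E).dist (p (j + s)) x = (SimpleGraph.fromRel E).dist u x + 1}.ncard ≤ B))) →
      ∃ f : Fin (k + 1) → Fin n, Function.Injective f ∧ ∀ a b, E a b → R (f a) (f b) := by
  intro k n hn R h1 h2 h3 E h4 h5 h6 ⟨m, p, h, hp, hm, h7, h8, h9⟩
  have h6' : ∀ v, {w | E v w ∨ E w v}.ncard ≤ Δ + 1 := by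
    intro v
    refine le_trans (le_of_eq ?_) ((h6 v).trans (Nat.le_succ Δ))
    congr 1
    ext w
    simp only [Set.mem_ofPred_eq, SimpleGraph.mem_neighborSet, SimpleGraph.fromRel_adj]
    constructor
    · intro h
      refine ⟨?_, h⟩
      rintro rfl
      rcases h with h | h <;> exact h4 _ _ h h
    · exact fun h => h.2
  obtain ⟨L, l1, l2, l0, l3, l4⟩ := glueQ h4 h5 h6' hg hp hm h7 h8
  have hbig : ∀ i, AEG.BgL B L i → i ≤ m ∧ B < {x | ∃ u, E u (p i) ∧ (∀ t ≤ m, u ≠ p t) ∧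
      (SimpleGraph.fromRel E).dist (p i) x = (SimpleGraph.fromRel E).dist u x + 1}.ncard := by
    intro i hb
    have him : i ≤ m := by
      have := hb.lt
      omega
    obtain ⟨q, hq, hB⟩ := hb
    obtain ⟨q₀, hq₀, hs₀, -⟩ := l0 i him
    rw [hq] at hq₀
    obtain rfl : q = q₀ := by simpa using hq₀
    rw [hs₀] at hB
    exact ⟨him, hB⟩
  have hrun : ∀ j, j + 6 ≤ m + 1 → (∀ s < 6, {x | ∃ u, (E (p (j + s)) u ∨ E u (p (j + s))) ∧ (∀ t ≤ m, u ≠ p t) ∧
      (SimpleGraph.fromRel E).dist (p (j + s)) x = (SimpleGraph.fromRel E).dist u x + 1}.ncard ≤ B) →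
      AEG.RunG (AEG.smB B) 6 L j := by
    intro j hj h s hs
    obtain ⟨q, hq, -, hs'⟩ := l0 (j + s) (by omega)
    refine ⟨q, hq, ?_⟩
    unfold AEG.smB
    rw [hs']
    exact h s hs
  have hB : AEG.ClsB (AEG.smB B) 6 B N L := by
    intro i hi hb
    obtain ⟨him, hb'⟩ := hbig i hb
    obtain ⟨j, j1, j2, j3⟩ := (h9 i him hb').1 hi
    exact ⟨j, j1, j2, hrun j (by omega) j3⟩
  have hA : AEG.ClsA (AEG.smB B) 6 B N L := by
    intro i hi hb
    obtain ⟨him, hb'⟩ := hbig i hb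
    obtain ⟨j, j1, j2, j3⟩ := (h9 i him hb').2 (by omega)
    exact ⟨j, j1, j2, hrun j (by omega) j3⟩
  obtain ⟨y, -, S, -, hy, hS⟩ := hC (R := R) ⟨h1, h2, h3⟩ L (by rintro rfl; simp at l1) l3 hB hA univ (by
    rw [card_univ, Fintype.card_fin, AEG.szS, l2]; omega)
  exact l4 hy hS

/-- **The statement about trees from the coded statement** -/
theorem mainM2L_of (h : ∀ b l B N : ℕ, 1 ≤ b → ∃ K g C : ℕ, CodIIL b l B N K g C) : ∀ Δ l B N : ℕ, ∃ K g C : ℕ,
    ∀ k n : ℕ, k + C ≤ n → ∀ R : Fin n → Fin n → Prop,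
    (∀ a, ¬ R a a) → (∀ a b, a ≠ b → R a b ∨ R b a) → (∀ a b, R a b → ¬ R b a) →
    ∀ E : Fin (k + 1) → Fin (k + 1) → Prop,
      (∀ a b, E a b → ¬ E b a) →
      (SimpleGraph.fromRel E).IsTree →
      (∀ v, ((SimpleGraph.fromRel E).neighborSet v).ncard ≤ Δ) →
      (∃ (m : ℕ) (p : ℕ → Fin (k + 1)) (h : Fin (k + 1) → Fin (k + 1)), (∀ i < m, E (p i) (p (i + 1))) ∧
        MainChild (SimpleGraph.fromRel E) (p 0) h ∧
        LightRunsP l K g E (SimpleGraph.fromRel E) m p h ∧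
        LightRunsP l K g (fun a b => E b a) (SimpleGraph.fromRel E) m p h ∧
        (∀ i ≤ m, B < {x | ∃ u, E u (p i) ∧ (∀ t ≤ m, u ≠ p t) ∧
            (SimpleGraph.fromRel E).dist (p i) x = (SimpleGraph.fromRel E).dist u x + 1}.ncard →
          (N ≤ i → ∃ j, i ≤ j + N ∧ j + 6 ≤ i ∧ ∀ s < 6, {x | ∃ u, (E (p (j + s)) u ∨ E u (p (j + s))) ∧
            (∀ t ≤ m, u ≠ p t) ∧
            (SimpleGraph.fromRel E).dist (p (j + s)) x = (SimpleGraph.fromRel E).dist u x + 1}.ncard ≤ B) ∧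
          (i + N ≤ m → ∃ j, i < j ∧ j + 6 ≤ i + 1 + N ∧ ∀ s < 6, {x | ∃ u, (E (p (j + s)) u ∨ E u (p (j + s))) ∧
            (∀ t ≤ m, u ≠ p t) ∧
            (SimpleGraph.fromRel E).dist (p (j + s)) x = (SimpleGraph.fromRel E).dist u x + 1}.ncard ≤ B))) →
      ∃ f : Fin (k + 1) → Fin n, Function.Injective f ∧ ∀ a b, E a b → R (f a) (f b) := by
  intro Δ l B N
  obtain ⟨K, g, C, hC⟩ := h (Δ + 1) l B N (Nat.le_add_left 1 Δ)
  exact ⟨K, max g 1, C + 1, final_of_CodIIL Δ l B N K (max g 1) C (le_max_right _ _) (hC.mono le_rfl (le_max_left _ _))⟩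


end AET
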