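import Pool.Agent.AET.TopL
import Pool.Agent.AEG.PackTwo

/-!
# Light branches: packing several forests, preparations
-/

set_option autoImplicit false

namespace AET

open Finset AE15 AED AEB SPD AEG
open scoped Classical

variable {V : Type} {R : V → V → Prop}

theorem PEsB.host : ∀ {os : List (V × Fd)} {Z : Finset V} {L : List (V × Fd)}, PEsB R os Z L →
    ∀ q ∈ L, q.1 ∈ Z ∨ ∃ p ∈ os, q.1 = p.1
  | [], Z, L, ⟨_, h2⟩, q, hq => by
    rw [h2] at hq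
    simp at hq
  | p :: os, Z, L, ⟨Z₁, Z₂, L₁, L₂, _, h2, h3, h4, h5⟩, q, hq => by
    rw [h3] at hq
    rcases List.mem_append.1 hq with h | h
    · rcases (PE.host h4 q h).1 with h6 | h6
      · exact Or.inr ⟨p, List.mem_cons_self, h6⟩
      · exact Or.inl (by rw [h2]; exact mem_union_left _ h6)
    · rcases PEsB.host h5 q h with h6 | ⟨p', h6, h8⟩
      · exact Or.inl (by rw [h2]; exact mem_union_right _ h6)
      · exact Or.inr ⟨p', List.mem_cons_of_mem _ h6, h8⟩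

/-- placing the top parts of several forests -/
theorem place_allL (hT : AE32.Tour R) {U Ks : Finset V} {k : ℝ} {b l Kl : ℕ} (hb : 1 ≤ b) (hK : Ks ⊆ U) (M : ℕ) :
    ∀ (os : List (V × Fd)) (F₀ : Finset V), (∀ p ∈ os, p.1 ∈ Lv R U Ks k M ∧ FON b l Kl (M * ab b l + 1) p.2 ∧
      (∀ q ∈ p.2.trees, q.1 = true)) →
      (F₀.card : ℝ) + ((os.length + 1 : ℕ) : ℝ) * (b * wB b (ab b l) M + 1 + 2 ^ ab b l : ℕ) ≤ k →
      ∃ (Z : Finset V) (L : List (V × Fd)), PEsB R os Z L ∧ Z ⊆ U ∧ Disjoint Z F₀ ∧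
        Z.card ≤ os.length * (b * wB b (ab b l) M) ∧ L.length ≤ os.length * (b * vB b (ab b l) M) ∧
        (∀ q ∈ L, q.1 ∈ Ks ∧ FOL b l Kl 0 q.2)
  | [], F₀, _, _ => ⟨∅, [], ⟨rfl, rfl⟩, by simp, by simp, by simp, by simp, by simp⟩
  | p :: os, F₀, h, hk => by
    obtain ⟨W, hW⟩ : ∃ W : ℕ, W = b * wB b (ab b l) M := ⟨_, rfl⟩
    obtain ⟨Wv, hWv⟩ : ∃ W : ℕ, W = b * vB b (ab b l) M := ⟨_, rfl⟩
    have hl : (((p :: os).length + 1 : ℕ) : ℝ) = ((os.length + 1 : ℕ) : ℝ) + 1 := by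
      simp only [List.length_cons]
      push_cast
      ring
    rw [hl, ← hW] at hk
    obtain ⟨h1, h2, h3⟩ := h p List.mem_cons_self
    have hlenF : ((p.2.trees.map (fun q => (p.1, q.2))).length) ≤ b := by
      rw [List.length_map, lenB]
      exact h2.1.1
    have hol : (0 : ℝ) ≤ ((os.length + 1 : ℕ) : ℝ) * (W + 1 + 2 ^ ab b l : ℕ) := by positivity
    have hwn : ((p.2.trees.map (fun q => (p.1, q.2))).length : ℝ) * wB b (ab b l) M ≤ W := by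
      have : (p.2.trees.map (fun q => (p.1, q.2))).length * wB b (ab b l) M ≤ W := by
        rw [hW]
        exact Nat.mul_le_mul_right _ hlenF
      exact_mod_cast this
    have hPE := pendallB (R := R) p.2 p.1 h3
    push_cast at hk hol
    obtain ⟨Z₁, L', L₁, hPE1, hLp, _, hZU, _, hZF, hZc, hLc, hLh⟩ := placing (K := Kl) hT hb hK M 0
      (F₀ := F₀) (k := k) hPE
      (L₀ := p.2.trees.map (fun q => (p.1, q.2))) (L₁ := []) (by rw [List.append_nil]) (by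
        intro q hq
        obtain ⟨h4, -⟩ := PE.host hPE q hq
        have h5 := PE.near hPE h2 (by rw [card_empty]; omega) q hq
        refine ⟨?_, h5.mono (by rw [card_empty]; omega)⟩
        rcases h4 with h4 | h4
        · rw [h4]; exact h1
        · simp at h4) (by
        rw [card_empty]
        push_cast
        linarith)
    rw [sdiff_empty] at hZU hZF hZc
    rw [List.append_nil] at hLp
    have hZ1 : Z₁.card ≤ W := hZc.trans (by rw [hW]; exact Nat.mul_le_mul_right _ hlenF)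
    obtain ⟨Z₂, L₂, hPE2, hZX2, hZA2, hZc2, hLc2, hLh2⟩ := place_allL hT hb hK M os (F₀ ∪ Z₁) (by
      intro q hq
      exact h q (List.mem_cons_of_mem _ hq)) (by
      have h5 : ((F₀ ∪ Z₁).card : ℝ) ≤ F₀.card + W := by
        exact_mod_cast (card_union_le F₀ Z₁).trans (by omega)
      rw [← hW]
      push_cast
      have h6 : (0 : ℝ) ≤ 2 ^ ab b l := by positivity
      linarith)
    rw [← hW] at hZc2
    rw [← hWv] at hLc2
    rw [disjoint_union_right] at hZA2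
    refine ⟨Z₁ ∪ Z₂, L₁ ++ L₂, ⟨Z₁, Z₂, L₁, L₂, hZA2.2.symm, rfl, rfl, hPE1, hPE2⟩, union_subset hZU hZX2,
      disjoint_union_left.2 ⟨hZF, hZA2.1⟩, ?_, ?_, ?_⟩
    · rw [← hW]
      have h5 := card_union_le Z₁ Z₂
      have h6 : (p :: os).length * W = os.length * W + W := by
        simp only [List.length_cons]
        ring
      omega
    · rw [← hWv]
      rw [List.length_append, hLp.length_eq]
      have h6 : (p :: os).length * Wv = os.length * Wv + Wv := by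
        simp only [List.length_cons]
        ring
      have h7 : L'.length ≤ Wv := hLc.trans (by rw [hWv]; exact Nat.mul_le_mul_right _ hlenF)
      omega
    · intro q hq
      rcases List.mem_append.1 hq with h5 | h5
      · exact ⟨(hLh q (hLp.subset h5)).1, (hLh q (hLp.subset h5)).2.1⟩
      · exact hLh2 q h5

/-- **The pieces**: all light items hang at hosts in `Ks`, everything used so far is in `Za` -/
theorem finWL (p : NP) (hp : p.OK) {D₀ : ℕ} {ω c η η₁ κ₀ κ₁ κ γ₀ τ s σ₂ μ : ℝ}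
    (P : KB D₀ ω c η η₁ κ₀ κ₁ κ γ₀ τ s σ₂ μ) {C : ℝ} (hC : 0 ≤ C) (m J : ℕ) : ∃ n₀ : ℕ,
    ∀ {V : Type} {R : V → V → Prop}, AE32.Tour R → ∀ {X G Ks Za : Finset V} {x : V} {D : Fd}
      {L Lh : List (V × Fd)} {T z : ℝ}, n₀ ≤ X.card → G ⊆ X → (∀ g ∈ G, Good R κ₁ η₁ X g) →
      ((¬ NN D ∧ γ₀ / 16 * X.card ≤ ((nO R G x).card : ℝ)) ∨ CovE R p (γ₀ / 16) X G Za x (p.ub D)) →
      Za.card ≤ J → x ∈ Za → Ks ⊆ X →
      (∀ y ∈ Ks, ∃ Y ⊆ X, ((X \ Y).card : ℝ) ≤ 5 * η * X.card ∧ SuperG R κ₁ η₁ τ Y y) →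
      (∀ q ∈ Lh, q.1 ∈ Za) → (∀ q ∈ L, AEB.EE R κ η s p 1 C q.2) → L.Perm ((x, D) :: Lh) → (∀ q ∈ Lh, q.1 ∈ Ks) →
      Lh.length ≤ m → 0 ≤ z → T = z + ((D.size : ℝ) + 1) + AEB.isz Lh →
      T ≤ D₀ * (D.size + 1) →
      T + C + J ≤ X.card → ∃ S ⊆ X, Disjoint S Za ∧ EmbI R L S := by
  obtain ⟨hω0, hω1, hc0, hc1, hη0, hη1, hη₁0, hη₁1, hκ₀0, hκ₁0, hκ₁1, hκ0, hκ1, hs0, hγ₀0, hτ0, hσ₂0, hμ0, hκ₁η, hκs⟩ :=
    P.num
  obtain ⟨hD, hω, hc, hη, hη₁, hκ₀, hκ₁, hκ, hγ₀, hτ, hs, hσ₂, hμ⟩ := P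
  have hpc0 : (0 : ℝ) ≤ p.c0 := Nat.cast_nonneg _
  have hpc : (0 : ℝ) ≤ p.c := Nat.cast_nonneg _
  have hcη : c * η ≤ 1 * η := mul_le_mul_of_nonneg_right (by linarith) hη0.le
  have hη₁1' : η₁ ≤ 1 / 16 := by linarith
  have hcη₁ : c * η₁ ≤ 1 * η₁ := mul_le_mul_of_nonneg_right (by linarith) hη₁0.le
  obtain ⟨σ, hσ⟩ : ∃ σ : ℝ, σ = μ / (8 * (1 + p.c0 + p.c)) := ⟨_, rfl⟩
  obtain ⟨ε, hε⟩ : ∃ ε : ℝ, ε = c * σ / 8 := ⟨_, rfl⟩
  have hσ0 : 0 < σ := by rw [hσ]; positivity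
  have hε0 : 0 < ε := by rw [hε]; positivity
  have hσ1 : (1 + (p.c0 : ℝ) + p.c) * σ = μ / 8 := by
    rw [hσ]
    field_simp
  have hσ2 : σ ≤ μ / 8 := by
    have h1 : 0 ≤ ((p.c0 : ℝ) + p.c) * σ := by positivity
    linarith
  have hcσ : c * σ ≤ 1 * σ := mul_le_mul_of_nonneg_right (by linarith) hσ0.le
  have hεσ : ε ≤ σ / 8 := by rw [hε]; linarith
  have hμκ : μ = κ₁ / 16 := by rw [hμ, hσ₂]; ring
  obtain ⟨m₁, hm₁⟩ : ∃ m₁ : ℕ, m₁ = ⌈16 * ((p.c : ℝ) + p.c0 + 2) / σ₂⌉₊ := ⟨_, rfl⟩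
  have hm₁' : 16 * ((p.c : ℝ) + p.c0 + 2) ≤ σ₂ * m₁ := by
    have h1 : 16 * ((p.c : ℝ) + p.c0 + 2) / σ₂ ≤ m₁ := by rw [hm₁]; exact Nat.le_ceil _
    rw [div_le_iff₀ hσ₂0] at h1
    linarith
  obtain ⟨n₁, hn₁⟩ := host_itemsB (c := c) hε0 (by linarith) hc0 m m₁
  obtain ⟨n₀, hn₀⟩ := exists_big [(100, ε), ((m : ℝ) * m₁, ω / 16),
      (8 * (p.c0 + p.c1 + p.u0 + p.g + 1 : ℝ), c * σ), (2 * n₁, 1), ((J : ℝ), ε), ((m : ℝ) * C, ω / 4), (1, 1)] (by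
    intro q hq
    simp only [List.mem_cons, List.not_mem_nil, or_false] at hq
    rcases hq with rfl | rfl | rfl | rfl | rfl | rfl | rfl
    · exact hε0
    · show 0 < ω / 16
      positivity
    · show 0 < c * σ
      positivity
    · exact one_pos
    · exact hε0
    · show 0 < ω / 4
      positivity
    · exact one_pos)
  refine ⟨n₀, ?_⟩
  intro V R hT X G Ks Za x D L Lh T z hnX hG hGg hcov hZaJ hxZ hKX hKh hmem hF hL hLh hlen hz0 hTz hsize hn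
  have hbig := hn₀ X.card hnX
  obtain ⟨n, hnd⟩ : ∃ n : ℝ, n = (X.card : ℝ) := ⟨_, rfl⟩
  rw [← hnd] at hbig hn
  have b1 : (100 : ℝ) ≤ ε * n := hbig (100, ε) (by simp)
  have b2 : (m : ℝ) * m₁ ≤ ω / 16 * n := hbig ((m : ℝ) * m₁, ω / 16) (by simp)
  have b3 : 8 * (p.c0 + p.c1 + p.u0 + p.g + 1 : ℝ) ≤ c * σ * n :=
    hbig (8 * (p.c0 + p.c1 + p.u0 + p.g + 1 : ℝ), c * σ) (by simp)
  have b6 : 2 * (n₁ : ℝ) ≤ 1 * n := hbig (2 * (n₁ : ℝ), 1) (by simp)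
  have b7 : (J : ℝ) ≤ ε * n := hbig ((J : ℝ), ε) (by simp)
  have b8 : (m : ℝ) * C ≤ ω / 4 * n := hbig ((m : ℝ) * C, ω / 4) (by simp)
  have b9 : 1 ≤ 1 * n := hbig (1, 1) (by simp)
  have hn0 : 0 < n := by linarith
  have hX : X.Nonempty := by
    rw [← card_pos]
    rw [hnd] at hn0
    exact_mod_cast hn0
  have PC : CstB p n ω c η η₁ κ₁ κ τ s σ₂ μ ε ε m m₁ := by
    refine ⟨hω0, by linarith, hc, hη, hη₁0, ?_, hκ₁0, by linarith, hκ0, by linarith, hσ₂0, by linarith, by linarith,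
      ?_, ?_, hμ0, by linarith, hε0, by linarith, by linarith, hε0, by linarith, b1, hm₁', b2⟩
    · linarith
    · linarith
    · linarith
  obtain ⟨𝓕x, H, h𝓕x, hHX, hHE, hHc, hfin⟩ := final_clE hT hp (κ := κ) (η := η) (s := s) (σ := σ) (δ := ε) (ε := ε)
    (c := c) hG hGg hcov hxZ hX hκ0 hη0 hκ₁0 hη₁0 hσ0 hε0.le hε0 hc0 (by linarith) (by linarith) (by linarith)
    (by linarith) (by linarith) (by linarith) hs0 (by rw [hs, hγ₀]; linarith) (by rw [← hnd]; exact b3)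
  rw [← hnd] at hHc
  have hJa : (Za.card : ℝ) ≤ J := by exact_mod_cast hZaJ
  refine coreW hT (by rw [← hnd]; exact PC) h𝓕x hHX ?_ hfin hKX hKh hmem hHE.symm ?_ hL hLh hlen (n₁ := n₁) ?_
    (fun A 𝓕 => hn₁ A 𝓕) (K := 1) (C := C) (K' := 1) (C' := C) zero_le_one hC le_rfl hC (by linarith) ?_ ?_ ?_ hz0 hTz
    ?_ ?_
  · rw [← hnd]
    refine hHc.trans ?_
    have h1 : 3 * (1 + (p.c0 : ℝ) + p.c) * σ * n = 3 * ((1 + (p.c0 : ℝ) + p.c) * σ) * n := by ring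
    rw [h1, hσ1]
    have h2 : 0 ≤ μ * n := by positivity
    linarith
  · rw [← hnd]
    linarith
  · have : 2 * (n₁ : ℝ) ≤ X.card := by rw [← hnd]; linarith
    exact_mod_cast this
  · rw [← hnd]
    exact b8
  · intro q hq
    exact hF q (hL.symm.subset (List.mem_cons_of_mem _ hq))
  · exact hF (x, D) (hL.symm.subset List.mem_cons_self)
  · have hD' : (64 : ℝ) ≤ D₀ := by exact_mod_cast hD
    rw [hω]
    have h2 : 2 * (1 / (2 * (D₀ : ℝ))) * T = T / D₀ := by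
      field_simp
    rw [h2, div_le_iff₀ (by linarith)]
    linarith
  · rw [← hnd]
    linarith

end AET
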