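import Pool.Agent.AET.StepUL
import Pool.Agent.AET.PackL
import Pool.Agent.AEG.LightCore
import Pool.Agent.AEG.Unroot

/-!
# Light branches: light items at good hosts, with a rest which is again in a good state
-/

set_option autoImplicit false

namespace AET

open Finset AE15 AED AEB SPD AEG
open scoped Classical

/-- the trees of a forest without light arcs at the root -/
theorem FON.trees {b l Kl g : ℕ} {F : Fd} (h : FON b l Kl g F) (hg : 1 ≤ g) (hfl : ∀ q ∈ F.trees, q.1 = true) :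
    ∀ q ∈ F.trees, FOL b l Kl 0 q.2 := by
  intro q hq
  obtain ⟨g', rfl⟩ : ∃ g', g = g' + 1 := ⟨g - 1, by omega⟩
  obtain ⟨h4, h5⟩ := (Fd.deg_iff b F).1 h.1.2.1 q hq
  refine ⟨h4, h5, ?_⟩
  have h2 := h.2
  clear h h4 h5
  induction F with
  | nil => simp [Fd.trees] at hq
  | node d c s _ ihs =>
    simp only [Fd.trees, List.mem_cons] at hq
    simp only [NL] at h2
    rcases hq with rfl | hq
    · exact h2.1 (hfl (d, c) (by simp [Fd.trees]))
    · exact ihs (fun q hq => hfl q (by simp [Fd.trees, hq])) hq h2.2.2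

/-- **Light items at good hosts.** `z` is a super vertex of the structure set `G` (up to the small set `Z`); the forests of
`os` are embedded at their hosts, onto `T`, and `Q` is a part of the rest in which `z` has kept its dominators; `P₀`, `P₁`
and `P₂` are three further parts of the rest; `P₂` has at least `w` vertices and represents the family `𝓕z`. -/
theorem light_coreL (p : NP) (hp : p.OK) {D₀ : ℕ} {ω c η η₁ κ₀ κ₁ κ γ₀ τ s σ₂ μ : ℝ}
    (P : KB D₀ ω c η η₁ κ₀ κ₁ κ γ₀ τ s σ₂ μ) {κU : ℝ} (hU0 : 0 < κU) (hUκ : κU ≤ κ) (C : ℝ) (hC : 0 ≤ C) (N : ℕ)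
    {εs : ℝ} (hεs : 0 < εs) :
    ∃ (δZ : ℝ) (gd n₀ M₉ C₉ K₁ : ℕ), 0 < δZ ∧ δZ ≤ κU ^ 2 / 256 ∧ 1 ≤ M₉ ∧ ∀ {V : Type} {R : V → V → Prop}, AE32.Tour R →
      ∀ Kl : ℕ, (∀ F : Fd, FOL p.b p.l Kl 0 F → AEB.EE R κ η s p 1 C F) →
      ∀ (X Y G Z : Finset V) (z : V) (m : ℕ) (os : List (V × Fd)), n₀ ≤ Y.card → G ⊆ Y →
        (∀ g ∈ G, Good R κ₁ η₁ Y g) → γ₀ * Y.card ≤ G.card → XD R Y G Z m z → (m : ℝ) ≤ γ₀ / 16 * Y.card →
        (Z.card : ℝ) ≤ δZ * Y.card → os.length ≤ N →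
        (∀ o ∈ os, o.1 ∈ Y ∧ Good R κU η Y o.1 ∧ ¬ R z o.1 ∧ FON p.b p.l Kl gd o.2 ∧ ∀ q ∈ o.2.trees, q.1 = true) →
        z ∈ hosts os → ∀ (𝓕z : Finset (Finset V)) (w : ℝ), 𝓕z.card ≤ 6 * Y.card ^ 2 → 0 ≤ w →
        (totB os : ℝ) + w ≤ (1 - 2 * ω) * Y.card →
        ∃ T Q P₀ P₁ P₂ : Finset V, (P₂ ⊆ Y \ (Z ∪ hosts os) ∧ Disjoint T P₂ ∧ Disjoint Q P₂ ∧ Disjoint P₀ P₂ ∧
          Disjoint P₁ P₂ ∧ w ≤ P₂.card ∧ ∃ A ⊆ Y, ((Y \ A).card : ℝ) ≤ εs * Y.card ∧ P₂ ⊆ A ∧ Rep A 𝓕z εs P₂) ∧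
          EmbAllB R os T ∧ T ⊆ Y \ (Z ∪ hosts os) ∧ Q ⊆ Y \ (Z ∪ hosts os) ∧
          P₀ ⊆ Y \ (Z ∪ hosts os) ∧ P₁ ⊆ Y \ (Z ∪ hosts os) ∧ Disjoint T Q ∧ Disjoint T P₀ ∧ Disjoint T P₁ ∧
          Disjoint Q P₀ ∧ Disjoint Q P₁ ∧ Disjoint P₀ P₁ ∧
          (∀ Y' : Finset V, Y' ⊆ Y → Q ⊆ Y' → ∀ w ∈ G, Good R κ η Y' w) ∧
          s * Y.card ≤ (nO R (G \ Z) z ∩ Q).card ∧
          (∀ j : ℕ, (Y.filter (fun u => u ∉ Z ∧ u ∉ hosts os ∧ ¬ R z u ∧
            (nI R (nO R (G \ Z) z) u ∩ Q).card ≤ j)).card ≤ K₁ * j) ∧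
          (∀ w ∈ Q ∪ hosts os, ∀ Q' : Finset V, Q' = Q ∨ Q' = P₀ ∨ Q' = P₁ →
            (nI R X w).card ≤ M₉ * (nI R ((X \ Y) ∪ (Z \ hosts os) ∪ Q') w).card + C₉) := by
  obtain ⟨hω0, hω1, hc0, hc1, hη0, hη1, hη₁0, hη₁1, hκ₀0, hκ₁0, hκ₁1, hκ0, hκ1, hs0, hγ₀0, hτ0, hσ₂0, hμ0, hκ₁η, hκs⟩ :=
    P.num
  obtain ⟨hD, hω, hc, hη, hη₁, hκ₀, hκ₁, hκ, hγ₀, hτ, hs, hσ₂, hμ⟩ := P
  have hη₁1' : η₁ ≤ 1 / 16 := by
    have : c * η ≤ 1 * η := mul_le_mul_of_nonneg_right (by linarith) hη0.le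
    linarith
  have hcκ : 0 < c * κ₁ := by positivity
  have hcκ' : c * κ₁ ≤ 1 / 1024 * κ₁ := mul_le_mul_of_nonneg_right hc1 hκ₁0.le
  have hcη : c * η ≤ 1 / 1024 * η := mul_le_mul_of_nonneg_right hc1 hη0.le
  have hcη₁ : 0 < c * η₁ := by positivity
  have hcγ : c * γ₀ = c * η₁ / 2 := by rw [hγ₀]; ring
  have hcη₁' : c * η₁ ≤ 1 / 1024 * η₁ := mul_le_mul_of_nonneg_right hc1 hη₁0.le
  obtain ⟨ε, hεd⟩ : ∃ ε : ℝ, ε = min (c * κ₁ / 16) εs := ⟨_, rfl⟩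
  have hε0 : 0 < ε := by rw [hεd]; exact lt_min (by positivity) hεs
  have hε : ε ≤ c * κ₁ / 16 := by rw [hεd]; exact min_le_left _ _
  have hεεs : ε ≤ εs := by rw [hεd]; exact min_le_right _ _
  obtain ⟨δZ, hδZ⟩ : ∃ δZ : ℝ, δZ = min (κU ^ 2 / 256) (ε / 16) := ⟨_, rfl⟩
  have hδZ0 : 0 < δZ := by rw [hδZ]; exact lt_min (by positivity) (by positivity)
  have hδZ1 : δZ ≤ κU ^ 2 / 256 := by rw [hδZ]; exact min_le_left _ _
  have hδZ2 : δZ ≤ ε / 16 := by rw [hδZ]; exact min_le_right _ _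
  obtain ⟨M, hM⟩ : ∃ M : ℕ, M = ⌈8 / κU⌉₊ + 1 := ⟨_, rfl⟩
  obtain ⟨w₀, hw₀⟩ : ∃ w₀ : ℕ, w₀ = N * (p.b * wB p.b (ab p.b p.l) M) := ⟨_, rfl⟩
  obtain ⟨m₂, hm₂⟩ : ∃ m : ℕ, m = N * (p.b * vB p.b (ab p.b p.l) M) := ⟨_, rfl⟩
  obtain ⟨m₁, hm₁⟩ : ∃ m₁ : ℕ, m₁ = ⌈16 * ((p.c : ℝ) + p.c0 + 2) / σ₂⌉₊ := ⟨_, rfl⟩
  have hm₁' : 16 * ((p.c : ℝ) + p.c0 + 2) ≤ σ₂ * m₁ := by
    have h1 : 16 * ((p.c : ℝ) + p.c0 + 2) / σ₂ ≤ m₁ := by rw [hm₁]; exact Nat.le_ceil _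
    rw [div_le_iff₀ hσ₂0] at h1
    linarith
  obtain ⟨g₀, hg₀⟩ := exists_nat_ge (8 / γ₀)
  have hg₀' : 8 ≤ γ₀ * g₀ := by
    rw [div_le_iff₀ hγ₀0] at hg₀
    linarith
  obtain ⟨Kg, hKg⟩ : ∃ Kg : ℕ, Kg = (g₀ + 2) * (w₀ + 1) + 4 + N := ⟨_, rfl⟩
  obtain ⟨n₁, M₉, c₉, hM₉, hitems⟩ := items_keep (c := c) hε0 (by linarith) hc0 m₂ m₁ Kg
  obtain ⟨Wp, hWp⟩ : ∃ W : ℕ, W = p.b * wB p.b (ab p.b p.l) M + 1 + 2 ^ ab p.b p.l := ⟨_, rfl⟩
  obtain ⟨n₀, hn₀⟩ := exists_big [(16 * (N + w₀ : ℝ), ε), ((m₂ : ℝ) * m₁, ω / 16), ((m₂ : ℝ) * C, ω / 8),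
      ((2 : ℝ), η), ((8 : ℝ), κ₀), (2 * n₁, 1), ((4 : ℝ), σ₂), ((4 : ℝ), γ₀ / 16),
      (2 * (w₀ : ℝ) * w₀ + N + (N + 1) * Wp, κU ^ 2 / 64), (40, 1)] (by
    intro q hq
    simp only [List.mem_cons, List.not_mem_nil, or_false] at hq
    rcases hq with rfl | rfl | rfl | rfl | rfl | rfl | rfl | rfl | rfl | rfl
    · exact hε0
    · show 0 < ω / 16
      positivity
    · show 0 < ω / 8
      positivity
    · exact hη0
    · exact hκ₀0
    · exact one_pos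
    · exact hσ₂0
    · show 0 < γ₀ / 16
      positivity
    · show 0 < κU ^ 2 / 64
      positivity
    · exact one_pos)
  obtain ⟨gd, hgd⟩ : ∃ gd : ℕ, gd = M * ab p.b p.l + 1 := ⟨_, rfl⟩
  refine ⟨δZ, gd, n₀, M₉, c₉ + w₀ + N, Kg * (M₉ + 1), hδZ0, hδZ1, hM₉, ?_⟩
  intro V R hT Kl hEE X Y G Z z m os hnY hG hGg hGc hXD hm hZc hosN hos hzos 𝓕z w h𝓕z hw hsize
  have hbig := hn₀ Y.card hnY
  obtain ⟨n, hnd⟩ : ∃ n : ℝ, n = (Y.card : ℝ) := ⟨_, rfl⟩
  rw [← hnd] at hbig hGc hm hZc hsize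
  have b1 : 16 * (N + w₀ : ℝ) ≤ ε * n := hbig (16 * (N + w₀ : ℝ), ε) (by simp)
  have b2 : (m₂ : ℝ) * m₁ ≤ ω / 16 * n := hbig ((m₂ : ℝ) * m₁, ω / 16) (by simp)
  have b3 : (m₂ : ℝ) * C ≤ ω / 8 * n := hbig ((m₂ : ℝ) * C, ω / 8) (by simp)
  have b4 : 2 ≤ η * n := hbig (2, η) (by simp)
  have b5 : 8 ≤ κ₀ * n := hbig (8, κ₀) (by simp)
  have b6 : 2 * (n₁ : ℝ) ≤ 1 * n := hbig (2 * (n₁ : ℝ), 1) (by simp)
  have b7 : 4 ≤ σ₂ * n := hbig (4, σ₂) (by simp)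
  have b8 : 4 ≤ γ₀ / 16 * n := hbig (4, γ₀ / 16) (by simp)
  have b9 : 2 * (w₀ : ℝ) * w₀ + N + (N + 1) * Wp ≤ κU ^ 2 / 64 * n :=
    hbig (2 * (w₀ : ℝ) * w₀ + N + (N + 1) * Wp, κU ^ 2 / 64) (by simp)
  have b10 : 40 ≤ 1 * n := hbig (40, 1) (by simp)
  have hn0 : 0 < n := by linarith
  have hY : Y.Nonempty := by
    rw [← card_pos]
    rw [hnd] at hn0
    exact_mod_cast hn0
  have hκU1 : κU ≤ c * κ₁ / 4 := by rw [← hκ]; exact hUκ
  have hκU2 : κU ^ 2 ≤ κU := by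
    rw [sq]
    have : κU * κU ≤ 1 * κU := mul_le_mul_of_nonneg_right (by linarith) hU0.le
    linarith
  -- the dominators of the super vertex
  obtain ⟨Dz, hDz⟩ : ∃ Dz, Dz = nO R (G \ Z) z := ⟨_, rfl⟩
  rw [← hDz]
  have hDG : Dz ⊆ G \ Z := by rw [hDz]; exact nO_sub
  have hDY : Dz ⊆ Y := hDG.trans (sdiff_subset.trans hG)
  have hDR : ∀ w ∈ Dz, R z w := fun w hw => by rw [hDz, mem_nO] at hw; exact hw.2
  have hzG := hXD.hx
  have hDc : γ₀ / 4 * n ≤ Dz.card := by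
    have h1 : (G.card : ℝ) ≤ (G \ Z).card + Z.card := by
      exact_mod_cast card_le_card_sdiff_add_card (s := G) (t := Z)
    have h2 : ((G \ Z).card : ℝ) ≤ 2 * Dz.card + 1 := by
      have := hXD.h4
      rw [← hDz] at this
      exact_mod_cast this
    have h3 : δZ * n ≤ γ₀ / 256 * n := by
      apply mul_le_mul_of_nonneg_right _ hn0.le
      linarith
    linarith
  -- the harm set
  obtain ⟨Hm, hHc, hHD, hHm⟩ := harm hT hXD w₀
  rw [← hDz] at hHD hHm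
  -- the levels
  obtain ⟨Ks, hKX, hKh, hKc⟩ := exists_K hT (X := Y) (η := η) (η₁ := η₁) hκ₀0 (by linarith) (by linarith) hη0
    (by linarith) (by rw [← hnd]; exact b4) (by rw [← hnd]; exact b5)
  rw [← hκ₁, ← hτ] at hKh
  have hlev : ∀ o ∈ os, o.1 ∈ Lv R Y Ks (κU ^ 2 / 32 * Y.card) M := by
    intro o ho
    obtain ⟨h1, h2, -⟩ := hos o ho
    rw [hM]
    exact (GdU_self.2 h2).level hT hU0 (by linarith) (Subset.refl _) hKX hKc (by
      rw [← hnd]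
      exact mul_le_mul_of_nonneg_right (by linarith) hn0.le) h1
  obtain ⟨Hs, hHs⟩ : ∃ Hs, Hs = hosts os := ⟨_, rfl⟩
  rw [← hHs]
  have hHsc : Hs.card ≤ N := by rw [hHs]; exact (hosts_card os).trans hosN
  have hHsY : Hs ⊆ Y := by
    intro v hv
    rw [hHs, mem_hosts] at hv
    obtain ⟨o, ho, rfl⟩ := hv
    exact (hos o ho).1
  have hHsD : Disjoint Hs Dz := by
    rw [disjoint_left]
    intro v hv hvD
    rw [hHs, mem_hosts] at hv
    obtain ⟨o, ho, rfl⟩ := hv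
    exact (hos o ho).2.2.1 (hDR _ hvD)
  have hzHs : z ∈ Hs := by rw [hHs]; exact hzos
  -- placing
  obtain ⟨W, L, hPE, hWY, hWF, hWc, hLlen, hLK⟩ := place_allL (Kl := Kl) (l := p.l) hT hp.hb hKX M os (Hm ∪ Z ∪ Hs)
    (fun o ho => ⟨hlev o ho, (hos o ho).2.2.2.1.mono (by omega), (hos o ho).2.2.2.2⟩) (by
      rw [← hWp, ← hnd]
      have h1 : (((Hm ∪ Z ∪ Hs).card : ℕ) : ℝ) ≤ 2 * (w₀ : ℝ) * w₀ + Z.card + N := by
        have h2 := card_union_le (Hm ∪ Z) Hs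
        have h3 := card_union_le Hm Z
        have h4 : (Hm ∪ Z ∪ Hs).card ≤ 2 * w₀ * w₀ + Z.card + N := by omega
        exact_mod_cast h4
      have h2 : ((os.length + 1 : ℕ) : ℝ) * Wp ≤ (N + 1) * Wp := by
        apply mul_le_mul_of_nonneg_right _ (Nat.cast_nonneg _)
        exact_mod_cast Nat.add_le_add_right hosN 1
      have h3 : δZ * n ≤ κU ^ 2 / 256 * n := mul_le_mul_of_nonneg_right hδZ1 hn0.le
      linarith)
  have hWc' : W.card ≤ w₀ := hWc.trans (by rw [hw₀]; exact Nat.mul_le_mul_right _ hosN)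
  have hLlen' : L.length ≤ m₂ := hLlen.trans (by rw [hm₂]; exact Nat.mul_le_mul_right _ hosN)
  rw [disjoint_union_right, disjoint_union_right] at hWF
  obtain ⟨⟨hWH, hWZ⟩, hWHs⟩ := hWF
  have hmem := PEsB.host hPE
  -- the set `A`
  obtain ⟨A, hA⟩ : ∃ A, A = Y \ (Z ∪ Hs ∪ W) := ⟨_, rfl⟩
  have hAY : A ⊆ Y := by rw [hA]; exact sdiff_subset
  have hAm : ∀ v, v ∈ A ↔ v ∈ Y ∧ v ∉ Z ∧ v ∉ Hs ∧ v ∉ W := by
    intro v
    rw [hA, mem_sdiff, mem_union, mem_union]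
    tauto
  have hYA : ((Y \ A).card : ℝ) ≤ ε * n := by
    have h1 : Y \ A ⊆ Z ∪ Hs ∪ W := by
      intro w hw
      rw [mem_sdiff, hA, mem_sdiff, not_and, not_not] at hw
      exact hw.2 hw.1
    have h2 : ((Y \ A).card : ℝ) ≤ Z.card + N + w₀ := by
      have h3 := card_le_card h1
      have h4 := card_union_le (Z ∪ Hs) W
      have h5 := card_union_le Z Hs
      have h6 : (Y \ A).card ≤ Z.card + N + w₀ := by omega
      exact_mod_cast h6
    have h3 : δZ * n ≤ ε / 16 * n := mul_le_mul_of_nonneg_right hδZ2 hn0.le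
    have h4 : 0 < ε * n := by positivity
    linarith
  have hYAc : n = A.card + (Y \ A).card := by
    have h1 := card_sdiff_add_card_eq_card hAY
    have h2 : (Y.card : ℝ) = (Y \ A).card + A.card := by exact_mod_cast h1.symm
    rw [hnd]
    linarith
  have hεμ : ε ≤ μ / 16 := by rw [hμ, hσ₂]; linarith
  have hμω : μ ≤ ω / 64 := by
    have h1 : κ₁ ≤ η := by linarith
    have h2 : 0 < η := hη0
    rw [hμ, hσ₂]
    linarith
  have hA2 : n ≤ 2 * A.card := by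
    have : ε * n ≤ 1 / 2 * n := mul_le_mul_of_nonneg_right (by linarith) hn0.le
    linarith
  have hAc : (1 - μ) * n ≤ A.card := by
    have : ε * n ≤ μ * n := mul_le_mul_of_nonneg_right (by linarith) hn0.le
    linarith
  -- the families
  obtain ⟨𝓕x, h𝓕x, hgood⟩ := good_keep (R := R) (X := Y) (Dz := Dz) (κ₁ := κ₁) (η₁ := η₁) (κ := κ) (η := η)
    (γ := γ₀ / 4) (σ := κ₁) (δ := ε) (ε := ε) (c := c) hDY (by rw [← hnd]; exact hDc) hY hκ0 hη0 hε0 hc0 (by linarith)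
    (by linarith) le_rfl (by linarith) (by linarith)
  have hfam : ∀ y : V, ∃ 𝓕 : Finset (Finset V), 𝓕.card ≤ 7 * Y.card ^ 2 ∧
      (y ∈ Ks → y ∉ A → OkB R κ η s p A 𝓕 ε m₁ (R y)) := by
    intro y
    by_cases hy : y ∈ Ks
    · obtain ⟨Y₁, hY₁, hXY, hSY⟩ := hKh y hy
      obtain ⟨𝓕, h1, h2⟩ := piece_lemmaB hT p (σ₂ := σ₂) (μ := μ) (ε := ε) (κ := κ) (s := s) (m := m₁) hY₁ hXY hSY hκ0
        hη0 (by linarith) hκ₁0 (by linarith) hη₁0 hσ₂0 hμ0 hε0 (by linarith) (by linarith) (by linarith) (by linarith)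
        (by rw [← hnd]; exact b7) (by linarith) (by linarith) (by linarith) (by linarith) (by linarith) hm₁'
      exact ⟨𝓕, h1, fun _ hyA => h2 A hAY hyA (by
        rw [← hnd]
        refine hYA.trans (mul_le_mul_of_nonneg_right (by linarith) hn0.le))⟩
    · exact ⟨∅, by simp, fun h => absurd h hy⟩
  choose Fam hFam1 hFam2 using hfam
  obtain ⟨𝓕, h𝓕⟩ : ∃ 𝓕, 𝓕 = (𝓕x ∪ 𝓕z) ∪ Ks.biUnion Fam := ⟨_, rfl⟩
  have h𝓕c : 𝓕.card ≤ A.card ^ 5 := by
    have h1 : 𝓕.card ≤ (8 * Y.card ^ 2 + 6 * Y.card ^ 2) + Ks.card * (7 * Y.card ^ 2) := by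
      rw [h𝓕]
      refine (card_union_le _ _).trans (Nat.add_le_add ((card_union_le _ _).trans (Nat.add_le_add h𝓕x h𝓕z)) ?_)
      exact card_biUnion_le_card_mul _ _ _ (fun y _ => hFam1 y)
    have h2 : Ks.card ≤ Y.card := card_le_card hKX
    have h3 : (𝓕.card : ℝ) ≤ (8 * n ^ 2 + 6 * n ^ 2) + n * (7 * n ^ 2) := by
      have h4 : (𝓕.card : ℝ) ≤ (8 * n ^ 2 + 6 * n ^ 2) + Ks.card * (7 * n ^ 2) := by
        rw [hnd]; exact_mod_cast h1
      have h5 : (Ks.card : ℝ) ≤ n := by rw [hnd]; exact_mod_cast h2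
      have h6 : (Ks.card : ℝ) * (7 * n ^ 2) ≤ n * (7 * n ^ 2) :=
        mul_le_mul_of_nonneg_right (by linarith) (by positivity)
      linarith
    have h7 : (n / 2) ^ 5 ≤ (A.card : ℝ) ^ 5 := pow_le_pow_left₀ (by positivity) (by linarith) 5
    have h8 : (8 * n ^ 2 + 6 * n ^ 2) + n * (7 * n ^ 2) ≤ (n / 2) ^ 5 := by
      have hn40 : 40 ≤ n := by linarith
      have h9 : (8 * n ^ 2 + 6 * n ^ 2) + n * (7 * n ^ 2) = n ^ 2 * (7 * n + 14) := by ring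
      have h10 : (n / 2) ^ 5 = n ^ 2 * (n * (n * n / 32)) := by ring
      have h11 : 40 * 40 ≤ n * n := mul_le_mul hn40 hn40 (by norm_num) hn0.le
      have h12 : n * 12 ≤ n * (n * n / 32) := mul_le_mul_of_nonneg_left (by linarith) hn0.le
      rw [h9, h10]
      exact mul_le_mul_of_nonneg_left (by linarith) (by positivity)
    exact_mod_cast h3.trans (h8.trans h7)
  -- the graded family of the dominators
  obtain ⟨Gf, hGf⟩ : ∃ Gf, Gf = Y.filter (fun u => u ∉ Z ∧ u ∉ Hs ∧ ¬ R z u) := ⟨_, rfl⟩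
  have hGfm : ∀ u ∈ Gf, u ∈ Y ∧ u ∉ Z ∧ R u z := by
    intro u hu
    rw [hGf, mem_filter] at hu
    obtain ⟨h1, h2, h3, h4⟩ := hu
    refine ⟨h1, h2, ?_⟩
    rcases hT.tot u z (fun e => h3 (e ▸ hzHs)) with h | h
    · exact h
    · exact absurd h h4
  have hout : ∀ u ∈ Y, u ∉ G → γ₀ / 8 * n ≤ (nI R Dz u).card := by
    intro u hu huG
    have h1 := hXD.h3 u hu huG
    rw [← hDz] at h1
    have h2 : (Dz.card : ℝ) ≤ (nI R Dz u).card + m := by exact_mod_cast h1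
    linarith
  have hDsub : ∀ u, nI R Dz u \ W ⊆ A := by
    intro u w hw
    rw [mem_sdiff, mem_nI] at hw
    obtain ⟨⟨h1, h2⟩, h3⟩ := hw
    rw [hAm]
    exact ⟨hDY h1, (mem_sdiff.1 (hDG h1)).2, fun h => disjoint_left.1 hHsD h h1, h3⟩
  have hDinter : ∀ u, ∀ Q ⊆ A, (nI R Dz u \ W) ∩ Q = nI R Dz u ∩ Q := by
    intro u Q hQ
    ext w
    rw [mem_inter, mem_inter, mem_sdiff]
    constructor
    · rintro ⟨⟨h1, h2⟩, h3⟩
      exact ⟨h1, h3⟩
    · rintro ⟨h1, h2⟩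
      exact ⟨⟨h1, ((hAm w).1 (hQ h2)).2.2.2⟩, h2⟩
  have hDle : ∀ u, (nI R Dz u).card ≤ (nI R Dz u \ W).card + w₀ := by
    intro u
    have := le_card_sdiff W (nI R Dz u)
    omega
  have hDne : ∀ u ∈ Gf, (nI R Dz u \ W).Nonempty := by
    intro u hu
    obtain ⟨h1, h2, h3⟩ := hGfm u hu
    by_cases h4 : (nI R Dz u).card ≤ w₀
    · by_cases huG : u ∈ G
      · have h5 := hHm u huG h2 h3 h4
        have h6 : nI R Dz u \ W = nI R Dz u := by
          exact Finset.sdiff_eq_self_of_disjoint (hWH.mono_right h5).symm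
        rw [h6]
        have h7 := hXD.h1 u huG h2 h3
        rw [← hDz] at h7
        exact h7
      · exfalso
        have h5 := hout u h1 huG
        have h6 : ((nI R Dz u).card : ℝ) ≤ w₀ := by exact_mod_cast h4
        have h7 : ε * n ≤ γ₀ / 8 * n := mul_le_mul_of_nonneg_right (by linarith) hn0.le
        have h8 : 0 < γ₀ / 8 * n := by positivity
        have h9 : (0 : ℝ) ≤ N := Nat.cast_nonneg _
        have h10 : (0 : ℝ) ≤ w₀ := Nat.cast_nonneg _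
        linarith
    · rw [← card_pos]
      have := hDle u
      omega
  have hGr : Pool.Agent.AEF.Graded Gf (fun u => nI R Dz u \ W) Kg := by
    intro j
    have hkey : (Gf.filter (fun u => (nI R Dz u \ W).card ≤ j)).card ≤ (g₀ + 2) * (j + w₀) := by
      by_cases hj : ((j + w₀ : ℕ) : ℝ) < γ₀ / 8 * n
      · have hsub : Gf.filter (fun u => (nI R Dz u \ W).card ≤ j) ⊆
            (G \ Z).filter (fun u => R u z ∧ (nI R (nO R (G \ Z) z) u).card ≤ j + w₀) := by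
          intro u hu
          rw [mem_filter] at hu
          obtain ⟨h1, h2, h3⟩ := hGfm u hu.1
          have h4 := hDle u
          have h5 : (nI R Dz u).card ≤ j + w₀ := by
            have := hu.2
            omega
          rw [mem_filter, mem_sdiff]
          refine ⟨⟨?_, h2⟩, h3, by rw [← hDz]; exact h5⟩
          by_contra huG
          have h6 := hout u h1 huG
          have h7 : ((nI R Dz u).card : ℝ) ≤ ((j + w₀ : ℕ) : ℝ) := by exact_mod_cast h5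
          linarith
        refine (card_le_card hsub).trans ((hXD.h2 (j + w₀)).trans ?_)
        exact Nat.mul_le_mul_right _ (by omega)
      · push Not at hj
        have h1 : (Gf.filter (fun u => (nI R Dz u \ W).card ≤ j)).card ≤ Y.card := by
          refine card_le_card ((filter_subset _ _).trans ?_)
          rw [hGf]
          exact filter_subset _ _
        have h2 : (Y.card : ℝ) ≤ ((g₀ + 2) * (j + w₀) : ℕ) := by
          rw [← hnd]
          push_cast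
          push_cast at hj
          have h3 : n ≤ g₀ * (γ₀ / 8 * n) := by
            have : n * 1 ≤ n * (γ₀ * g₀ / 8) := mul_le_mul_of_nonneg_left (by linarith) hn0.le
            linarith
          have h4 : (g₀ : ℝ) * (γ₀ / 8 * n) ≤ g₀ * (j + w₀) := mul_le_mul_of_nonneg_left hj (Nat.cast_nonneg _)
          have h5 : (0 : ℝ) ≤ j + w₀ := by positivity
          linarith
        exact h1.trans (by exact_mod_cast h2)
    refine hkey.trans ?_
    rw [hKg]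
    have h1 : j + w₀ ≤ (w₀ + 1) * (j + 1) := by
      have : (w₀ + 1) * (j + 1) = w₀ * j + j + w₀ + 1 := by ring
      have h2 : 0 ≤ w₀ * j := Nat.zero_le _
      omega
    calc (g₀ + 2) * (j + w₀) ≤ (g₀ + 2) * ((w₀ + 1) * (j + 1)) := Nat.mul_le_mul_left _ h1
      _ = (g₀ + 2) * (w₀ + 1) * (j + 1) := by ring
      _ ≤ ((g₀ + 2) * (w₀ + 1) + 4 + N) * (j + 1) := Nat.mul_le_mul_right _ (by omega)
  have hGrI : Pool.Agent.AEF.Graded (A ∪ Hs) (fun w => nI R A w) Kg := by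
    intro j
    have h1 : (A ∪ Hs).filter (fun w => (nI R A w).card ≤ j) ⊆ (A.filter (fun w => (nI R A w).card < j + 1)) ∪ Hs := by
      intro w hw
      rw [mem_filter, mem_union] at hw
      rw [mem_union, mem_filter]
      rcases hw.1 with h | h
      · exact Or.inl ⟨h, by have := hw.2; omega⟩
      · exact Or.inr h
    have h2 := (card_le_card h1).trans (card_union_le _ _)
    have h3 := card_lowin hT A (j + 1)
    have h4 : 2 * (j + 1) + N ≤ Kg * (j + 1) := by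
      have h5 : (4 + N) * (j + 1) ≤ Kg * (j + 1) := by
        rw [hKg]
        exact Nat.mul_le_mul_right _ (by omega)
      have h6 : (4 + N) * (j + 1) = 4 * (j + 1) + N * j + N := by ring
      have h7 : 0 ≤ N * j := Nat.zero_le _
      omega
    exact h2.trans (by omega)
  obtain ⟨S, Q, P₀, P₁, P₂, q1, q2, q3, q4, q5, q6, q7, q8, q9, q10, qP, q11, q12, q13, q14, q15⟩ := hitems (R := R) A 𝓕 (by
      have h2 : (n₁ : ℝ) ≤ A.card := by linarith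
      exact_mod_cast h2) h𝓕c Gf (fun u => nI R Dz u \ W) (fun u _ => hDsub u) hDne hGr (A ∪ Hs) (fun w => nI R A w)
    (fun w _ => nI_sub) hGrI p κ η s 1 C zero_le_one hC hη0 (by linarith) L hLlen' (by
      intro q hq
      have hqA : q.1 ∉ A := by
        rw [hAm]
        rintro ⟨-, -, h1, h2⟩
        rcases hmem q hq with h | ⟨o, ho, h⟩
        · exact h2 h
        · apply h1
          rw [hHs, mem_hosts]
          exact ⟨o, ho, h.symm⟩
      refine (hFam2 q.1 (hLK q hq).1 hqA).mono ?_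
      rw [h𝓕]
      refine Subset.trans ?_ subset_union_right
      exact subset_biUnion_of_mem Fam (hLK q hq).1) (fun q hq => hEE q.2 (hLK q hq).2) w hw (by
      have hi : (AEB.isz L : ℝ) + w ≤ (1 - 2 * ω) * n := by
        refine le_trans (add_le_add_left ?_ w) hsize
        have := hPE.size
        exact_mod_cast (by omega : AEB.isz L ≤ totB os)
      have h2 : (1 * (AEB.isz L : ℝ) + m₂ * C) / (1 - 7 * η) ≤ (1 - 7 * ω / 4) * n - w := by
        rw [div_le_iff₀ (by linarith), hη]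
        have h3 : ((1 - 7 * ω / 4) * n - w) * (1 - 7 * (ω / 56)) =
          (1 - 15 * ω / 8) * n + 7 * (ω * ω) / 32 * n - w + ω / 8 * w := by ring
        have h4 : 0 ≤ 7 * (ω * ω) / 32 * n := by positivity
        have h5 : 0 ≤ ω / 8 * w := by positivity
        linarith
      have h4 : (1 - 3 * c) * ((1 - μ) * n) ≤ (1 - 3 * c) * A.card := mul_le_mul_of_nonneg_left hAc (by linarith)
      refine le_trans ?_ h4
      have h5 : (1 - 3 * c) * ((1 - μ) * n) = (1 - 3 * c) * n - (1 - 3 * c) * (μ * n) := by ring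
      have h6 : (1 - 3 * c) * (μ * n) ≤ 1 * (μ * n) := mul_le_mul_of_nonneg_right (by linarith) (by positivity)
      have h7 : μ * n ≤ ω / 64 * n := mul_le_mul_of_nonneg_right hμω hn0.le
      have h8 : 0 ≤ ω * n := by positivity
      have h9 : c * n = ω / 8 * n := by rw [hc]
      rw [h5]
      linarith)
  obtain ⟨hg1, hg2⟩ := hgood A Q hAY (by rw [← hnd]; exact hA2) q2 (fun F hF => q13 F (by
    rw [h𝓕]; exact mem_union_left _ (mem_union_left _ hF))) q12 (by rw [← hnd]; exact hYA)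
  obtain ⟨r1, r2, r3, r4, r5, r6, r7⟩ := qP
  rw [← hnd] at hg2
  have hAsub : A ⊆ Y \ (Z ∪ Hs) := by
    intro v hv
    rw [hAm] at hv
    rw [mem_sdiff, mem_union]
    exact ⟨hv.1, fun h => h.elim hv.2.1 hv.2.2.1⟩
  have hWsub : W ⊆ Y \ (Z ∪ Hs) := by
    intro v hv
    rw [mem_sdiff, mem_union]
    exact ⟨hWY hv, fun h => h.elim (disjoint_left.1 hWZ hv) (disjoint_left.1 hWHs hv)⟩
  have hWA : ∀ B ⊆ A, Disjoint W B := by
    intro B hB
    rw [disjoint_left]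
    intro v hv hvB
    exact ((hAm v).1 (hB hvB)).2.2.2 hv
  refine ⟨W ∪ S, Q, P₀, P₁, P₂, ⟨r1.trans hAsub, disjoint_union_left.2 ⟨hWA P₂ r1, r2⟩, r3, r4, r5, r6, A, hAY, ?_, r1,
    ?_⟩, hPE.complete S (hWA S q1) q11, union_subset hWsub (q1.trans hAsub), q2.trans hAsub,
    q3.trans hAsub, q4.trans hAsub, disjoint_union_left.2 ⟨hWA Q q2, q5⟩, disjoint_union_left.2 ⟨hWA P₀ q3, q6⟩,
    disjoint_union_left.2 ⟨hWA P₁ q4, q7⟩, q8, q9, q10, ?_, ?_, ?_, ?_⟩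
  · rw [← hnd]
    exact hYA.trans (mul_le_mul_of_nonneg_right hεεs hn0.le)
  · intro F hF
    refine le_trans (mul_le_mul_of_nonneg_right (sub_le_sub_left hεεs _) (Nat.cast_nonneg _)) (r7 F ?_)
    rw [h𝓕]
    exact mem_union_left _ (mem_union_right _ hF)
  · intro Y' hY' hQY' w hw
    exact hg1 Y' hY' hQY' w (hG hw) (hGg w hw)
  · rw [← hnd]
    refine le_trans (mul_le_mul_of_nonneg_right ?_ hn0.le) hg2
    rw [hs]
    linarith
  · intro j
    rcases Nat.eq_zero_or_pos j with rfl | hj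
    · rw [Nat.mul_zero, Nat.le_zero, card_eq_zero, filter_eq_empty_iff]
      rintro u hu ⟨h1, h2, h3, h4⟩
      have huG : u ∈ Gf := by
        rw [hGf, mem_filter]
        exact ⟨hu, h1, h2, h3⟩
      have h5 := (q14 u huG).1
      rw [hDinter u Q q2, ← card_pos] at h5
      omega
    · have h1 : Y.filter (fun u => u ∉ Z ∧ u ∉ Hs ∧ ¬ R z u ∧ (nI R Dz u ∩ Q).card ≤ j) ⊆
          Gf.filter (fun u => (nI R Dz u \ W).card ≤ M₉ * j) := by
        intro u hu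
        rw [mem_filter] at hu
        obtain ⟨h1, h2, h3, h4, h5⟩ := hu
        have huG : u ∈ Gf := by
          rw [hGf, mem_filter]
          exact ⟨h1, h2, h3, h4⟩
        have h6 := (q14 u huG).2
        rw [hDinter u Q q2] at h6
        rw [mem_filter]
        exact ⟨huG, h6.trans (Nat.mul_le_mul_left _ h5)⟩
      refine (card_le_card h1).trans ((hGr (M₉ * j)).trans ?_)
      have h2 : M₉ * j + 1 ≤ (M₉ + 1) * j := by
        have : (M₉ + 1) * j = M₉ * j + j := by ring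
        omega
      calc Kg * (M₉ * j + 1) ≤ Kg * ((M₉ + 1) * j) := Nat.mul_le_mul_left _ h2
        _ = Kg * (M₉ + 1) * j := by ring
  · intro w hw Q' hQ'
    have hwA : w ∈ A ∪ Hs := by
      rcases mem_union.1 hw with h | h
      · exact mem_union_left _ (q2 h)
      · exact mem_union_right _ h
    have hQ'A : Q' ⊆ A := by
      rcases hQ' with rfl | rfl | rfl
      · exact q2
      · exact q3
      · exact q4
    have h1 : nI R X w ⊆ (nI R A w ∪ nI R ((X \ Y) ∪ (Z \ Hs)) w) ∪ (Hs ∪ W) := by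
      intro v hv
      rw [mem_nI] at hv
      rw [mem_union, mem_union, mem_union, mem_nI, mem_nI, mem_union, mem_sdiff, mem_sdiff, hAm]
      by_cases h1 : v ∈ Y
      · by_cases h2 : v ∈ Hs
        · exact Or.inr (Or.inl h2)
        · by_cases h3 : v ∈ W
          · exact Or.inr (Or.inr h3)
          · by_cases h4 : v ∈ Z
            · exact Or.inl (Or.inr ⟨Or.inr ⟨h4, h2⟩, hv.2⟩)
            · exact Or.inl (Or.inl ⟨⟨h1, h4, h2, h3⟩, hv.2⟩)
      · exact Or.inl (Or.inr ⟨Or.inl ⟨hv.1, h1⟩, hv.2⟩)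
    have h2 : (nI R X w).card ≤ (nI R A w).card + (nI R ((X \ Y) ∪ (Z \ Hs)) w).card + (N + w₀) := by
      have h3 := card_le_card h1
      have h4 := card_union_le (nI R A w ∪ nI R ((X \ Y) ∪ (Z \ Hs)) w) (Hs ∪ W)
      have h5 := card_union_le (nI R A w) (nI R ((X \ Y) ∪ (Z \ Hs)) w)
      have h6 := card_union_le Hs W
      omega
    have h3 : nI R A w ∩ Q' = nI R Q' w := by
      ext v
      rw [mem_inter, mem_nI, mem_nI]
      exact ⟨fun h => ⟨h.2, h.1.2⟩, fun h => ⟨⟨hQ'A h.1, h.2⟩, h.1⟩⟩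
    have h4 : (nI R A w).card ≤ M₉ * (nI R Q' w).card + c₉ := by
      rw [← h3]
      by_cases h5 : c₉ ≤ (nI R A w).card
      · obtain ⟨h6, h7, h8⟩ := q15 w hwA h5
        rcases hQ' with rfl | rfl | rfl
        · exact h6.trans (Nat.le_add_right _ _)
        · exact h7.trans (Nat.le_add_right _ _)
        · exact h8.trans (Nat.le_add_right _ _)
      · omega
    have h5 : Disjoint (nI R Q' w) (nI R ((X \ Y) ∪ (Z \ Hs)) w) := by
      rw [disjoint_left]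
      intro v hv hv'
      rw [mem_nI] at hv hv'
      rw [mem_union, mem_sdiff, mem_sdiff] at hv'
      have h6 := (hAm v).1 (hQ'A hv.1)
      rcases hv'.1 with h7 | h7
      · exact h7.2 h6.1
      · exact h6.2.1 h7.1
    have h6 : (nI R Q' w).card + (nI R ((X \ Y) ∪ (Z \ Hs)) w).card ≤ (nI R ((X \ Y) ∪ (Z \ Hs) ∪ Q') w).card := by
      rw [← card_union_of_disjoint h5]
      apply card_le_card
      intro v hv
      rw [mem_union, mem_nI, mem_nI] at hv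
      rw [mem_nI, mem_union]
      rcases hv with h | h
      · exact ⟨Or.inr h.1, h.2⟩
      · exact ⟨Or.inl h.1, h.2⟩
    have h7 : M₉ * ((nI R Q' w).card + (nI R ((X \ Y) ∪ (Z \ Hs)) w).card) ≤
        M₉ * (nI R ((X \ Y) ∪ (Z \ Hs) ∪ Q') w).card := Nat.mul_le_mul_left _ h6
    have h8 : (nI R ((X \ Y) ∪ (Z \ Hs)) w).card ≤ M₉ * (nI R ((X \ Y) ∪ (Z \ Hs)) w).card :=
      Nat.le_mul_of_pos_left _ hM₉
    rw [Nat.mul_add] at h7
    omega


/-- **Unrooted forests**: a forest, all trees of which hang by arcs away from the common vertex, in a set of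
out-neighbours of the host -/
theorem unrootL {D : ℕ} {ω c η η₁ κ₀ κ₁ κ γ₀ τ s σ₂ μ : ℝ} (P : KB D ω c η η₁ κ₀ κ₁ κ γ₀ τ s σ₂ μ) (p : NP) (C : ℝ) :
    ∃ C₀ : ℕ, ∀ {V : Type} {R : V → V → Prop}, AE32.Tour R → ∀ Kl : ℕ,
      (∀ F : Fd, FOL p.b p.l Kl 0 F → EE R κ η s p 1 C F) →
      ∀ F : Fd, (∀ q ∈ F.trees, FOL p.b p.l Kl 0 q.2) → (∀ q ∈ F.trees, q.1 = true) → ∀ (v : V) (S : Finset V), (∀ w ∈ S, R v w) →
        F.size + C₀ ≤ S.card → ∃ S' ⊆ S, Emb R F v S' := by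
  have hκ₀0 : 0 < κ₀ := P.num.2.2.2.2.2.2.2.2.1
  refine ⟨⌈C⌉₊ + ⌈1 / κ₀⌉₊, fun {V R} hT Kl hEE F => ?_⟩
  induction F with
  | nil => exact fun _ _ v S _ _ => ⟨∅, empty_subset _, rfl⟩
  | node d c s _ ihs =>
    intro hF hfl v S hS hSc
    have hd : d = true := hfl (d, c) (by simp [Fd.trees])
    subst hd
    have hs : ∀ q ∈ s.trees, FOL p.b p.l Kl 0 q.2 := fun q hq => hF q (by simp [Fd.trees, hq])
    have hc : FOL p.b p.l Kl 0 c := hF (true, c) (by simp [Fd.trees])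
    simp only [Fd.size] at hSc
    obtain ⟨B, hBS, hB⟩ := ihs hs (fun q hq => hfl q (by simp [Fd.trees, hq])) v S hS (by omega)
    have hBc := emb_card hB
    have h1 : (S \ B).card = S.card - B.card := card_sdiff_of_subset hBS
    have h2 : c.size + 1 + (⌈C⌉₊ + ⌈1 / κ₀⌉₊) ≤ (S \ B).card := by omega
    obtain ⟨x, hx, A, hA, hxA, -, hE⟩ := hEE c hc (S \ B) (fun _ => True) (by
      have h3 : C ≤ ⌈C⌉₊ := Nat.le_ceil _
      have h4 : ((c.size : ℝ) + 1 + (⌈C⌉₊ + ⌈1 / κ₀⌉₊)) ≤ (S \ B).card := by exact_mod_cast h2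
      have h5 : (0 : ℝ) ≤ (⌈1 / κ₀⌉₊ : ℝ) := Nat.cast_nonneg _
      linarith) (cl_true P hT p c (S \ B) (by
        have h1 : 1 / κ₀ ≤ (⌈1 / κ₀⌉₊ : ℝ) := Nat.le_ceil _
        have h2 : ((⌈1 / κ₀⌉₊ : ℕ) : ℝ) ≤ (S \ B).card := by exact_mod_cast (by omega : ⌈1 / κ₀⌉₊ ≤ (S \ B).card)
        have h3 : 1 / κ₀ ≤ (S \ B).card := h1.trans h2
        rw [div_le_iff₀ hκ₀0] at h3
        linarith) _ fun _ => trivial)
    rw [mem_sdiff] at hx
    have hA' : ∀ w ∈ A, w ∈ S ∧ w ∉ B := fun w hw => mem_sdiff.1 (hA hw)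
    refine ⟨insert x (A ∪ B), insert_subset hx.1 (union_subset (fun w hw => (hA' w hw).1) hBS), x, A, B, hS x hx.1, hxA,
      hx.2, ?_, rfl, hE, hB⟩
    rw [disjoint_left]
    exact fun w hw => (hA' w hw).2

end AET
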