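import Pool.Agent.AET.PredL

/-!
# Light branches: in-closures and whole in-trees on transitive lists, with a condition on the pending items
-/

namespace AET

open Finset AE15 AED AEB
open scoped Classical

variable {V : Type*} {R : V → V → Prop}

/-- splitting a list at a position -/
private theorem split_at (w : List V) (n : ℕ) (h : n < w.length) :
    ∃ w₁ x w₂, w = w₁ ++ x :: w₂ ∧ w₁.length = n := by
  refine ⟨w.take n, w[n], w.drop (n + 1), ?_, ?_⟩
  · rw [← List.drop_eq_getElem_cons h, List.take_append_drop]
  · rw [List.length_take]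
    omega

private theorem split_app (w : List V) (n : ℕ) (h : n ≤ w.length) :
    ∃ w₁ w₂, w = w₁ ++ w₂ ∧ w₁.length = n := by
  refine ⟨w.take n, w.drop n, (List.take_append_drop n w).symm, ?_⟩
  rw [List.length_take]
  omega

private theorem pe_blk (hT : AE32.Tour R) {Q : Fd → Prop} (F : Fd) (hQ : OutB Q F) (v : V) (w : List V)
    (hw : w.Pairwise R) (hv : ∀ x ∈ w, R x v) (hl : blk F ≤ w.length) :
    ∃ Z L, PE R F v Z L ∧ Z ⊆ w.toFinset ∧ (∀ c, (true, c) ∈ F.trees → (v, c) ∈ L) ∧ ∀ q ∈ L, Q q.2 := by
  induction F generalizing v w with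
  | nil => exact ⟨∅, [], PE.nil v, empty_subset _, by simp [Fd.trees], by simp⟩
  | node d c s ihc ihs =>
    cases d with
    | true =>
      simp only [blk, if_true, Nat.zero_add] at hl
      obtain ⟨Z, L, h1, h2, h3, hq⟩ := ihs hQ.2 v w hw hv hl
      refine ⟨Z, (v, c) :: L, PE.pend c s v Z L h1, h2, ?_, ?_⟩
      · intro c' hc'
        simp only [Fd.trees, List.mem_cons, Prod.mk.injEq, true_and] at hc'
        rcases hc' with rfl | hc'
        · exact List.mem_cons_self
        · exact List.mem_cons_of_mem _ (h3 c' hc')
      · intro q hq'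
        rcases List.mem_cons.1 hq' with rfl | hq'
        · have h4 := hQ.1
          simpa using h4
        · exact hq q hq'
    | false =>
      simp only [blk, Bool.false_eq_true, if_false] at hl
      obtain ⟨u, w', rfl, hu⟩ := split_app w (blk c + 1) (by omega)
      obtain ⟨u₁, x, u₂, rfl, hu1⟩ := split_at u (blk c) (by omega)
      simp only [List.length_append, List.length_cons] at hu hl
      have hu2 : u₂ = [] := by
        rw [← List.length_eq_zero_iff]
        omega
      subst hu2
      have hnd := tl_nodup hT hw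
      simp only [List.nodup_append, List.nodup_cons, List.mem_append, List.mem_cons] at hnd
      have h0 := (List.pairwise_append.1 hw).1
      have h0' := (List.pairwise_append.1 h0)
      have hQc : OutB Q c := by
        have h4 := hQ.1
        simpa using h4
      obtain ⟨A, L₁, h1, h2, -, hq₁⟩ := ihc hQc x u₁ h0'.1 (fun y hy => h0'.2.2 y hy x (by simp)) (by omega)
      obtain ⟨B, L₂, h3, h4, h5, hq₂⟩ := ihs hQ.2 v w' (List.pairwise_append.1 hw).2.1
        (fun y hy => hv y (List.mem_append_right _ hy)) (by omega)
      refine ⟨insert x (A ∪ B), L₁ ++ L₂, PE.place false c s v x A B L₁ L₂ (hv x (by simp)) ?_ ?_ ?_ h1 h3, ?_, ?_, ?_⟩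
      · intro hx
        have := h2 hx
        rw [List.mem_toFinset] at this
        grind
      · intro hx
        have := h4 hx
        rw [List.mem_toFinset] at this
        grind
      · rw [disjoint_left]
        intro a ha hb
        have ha' := h2 ha
        have hb' := h4 hb
        rw [List.mem_toFinset] at ha' hb'
        grind
      · intro a ha
        rw [mem_insert, mem_union] at ha
        simp only [List.mem_toFinset, List.mem_append, List.mem_cons]
        rcases ha with ha | ha | ha
        · tauto
        · have := h2 ha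
          rw [List.mem_toFinset] at this
          tauto
        · have := h4 ha
          rw [List.mem_toFinset] at this
          tauto
      · intro c' hc'
        simp only [Fd.trees, List.mem_cons, Prod.mk.injEq, Bool.true_eq_false, false_and, false_or] at hc'
        exact List.mem_append_right _ (h5 c' hc')
      · intro q hq'
        rcases List.mem_append.1 hq' with hq' | hq'
        · exact hq₁ q hq'
        · exact hq₂ q hq'

/-- the trees of a list `ts` hanging on `v`: in-closures on the list `w` (which dominates `v`), all out-trees pending -/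
theorem pel_block (hT : AE32.Tour R) {Q : Fd → Prop} (v : V) (ts : List (Bool × Fd))
    (hQ : ∀ p ∈ ts, if p.1 then Q p.2 else OutB Q p.2) (w : List V) (hw : w.Pairwise R)
    (hv : ∀ x ∈ w, R x v) (hl : (ts.map (fun p => if p.1 then 0 else blk p.2 + 1)).sum ≤ w.length) :
    ∃ Z L, PEL R v ts Z L ∧ Z ⊆ w.toFinset ∧ (∀ c, (true, c) ∈ ts → (v, c) ∈ L) ∧ ∀ q ∈ L, Q q.2 := by
  have h1 : blk (ofT ts) ≤ w.length := by
    rw [blk_eq, trees_ofT]
    exact hl
  obtain ⟨Z, L, h2, h3, h4, hq⟩ := pe_blk hT (ofT ts) (by rw [outB_iff, trees_ofT]; exact hQ) v w hw hv h1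
  rw [pe_iff] at h2
  rw [trees_ofT] at h2 h4
  exact ⟨Z, L, h2, h3, h4, hq⟩

private theorem pe_whl (hT : AE32.Tour R) {Q : Fd → Prop} (F : Fd) (hQ : OutB Q F) (v : V) (w : List V)
    (hw : w.Pairwise R) (hv : ∀ x ∈ w, R x v) (hl : inw F ≤ w.length) :
    ∃ Z L, PE R F v Z L ∧ Z ⊆ w.toFinset ∧ (∀ p ∈ L, p.1 = v) ∧ (∀ c, (true, c) ∈ F.trees → (v, c) ∈ L) ∧
      ∀ q ∈ L, Q q.2 := by
  induction F generalizing w with
  | nil => exact ⟨∅, [], PE.nil v, empty_subset _, by simp, by simp [Fd.trees], by simp⟩
  | node d c s _ ihs =>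
    cases d with
    | true =>
      simp only [inw, if_true, Nat.zero_add] at hl
      obtain ⟨Z, L, h1, h2, h2', h3, hq⟩ := ihs hQ.2 w hw hv hl
      refine ⟨Z, (v, c) :: L, PE.pend c s v Z L h1, h2, ?_, ?_, ?_⟩
      · intro p hp
        rcases List.mem_cons.1 hp with rfl | hp
        · rfl
        · exact h2' p hp
      · intro c' hc'
        simp only [Fd.trees, List.mem_cons, Prod.mk.injEq, true_and] at hc'
        rcases hc' with rfl | hc'
        · exact List.mem_cons_self
        · exact List.mem_cons_of_mem _ (h3 c' hc')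
      · intro q hq'
        rcases List.mem_cons.1 hq' with rfl | hq'
        · have h4 := hQ.1
          simpa using h4
        · exact hq q hq'
    | false =>
      simp only [inw, Bool.false_eq_true, if_false] at hl
      obtain ⟨u, w', rfl, hu⟩ := split_app w (c.size + 1) (by omega)
      simp only [List.length_append] at hl
      have hnd := tl_nodup hT hw
      rw [List.nodup_append] at hnd
      have h0 := List.pairwise_append.1 hw
      obtain ⟨x, A, h1, h2, h3⟩ := trans_emb hT c u h0.1 hu
      obtain ⟨B, L₂, h4, h5, h5', h6, hq⟩ := ihs hQ.2 w' h0.2.1 (fun y hy => hv y (List.mem_append_right _ hy)) (by omega)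
      have hxu : x ∈ u := by
        rw [← List.mem_toFinset, ← h2]
        exact mem_insert_self _ _
      have hAu : ∀ a ∈ A, a ∈ u := by
        intro a ha
        rw [← List.mem_toFinset, ← h2]
        exact mem_insert_of_mem ha
      have hBw : ∀ a ∈ B, a ∈ w' := by
        intro a ha
        rw [← List.mem_toFinset]
        exact h5 ha
      refine ⟨insert x (A ∪ B), [] ++ L₂,
        PE.place false c s v x A B [] L₂ (hv x (List.mem_append_left _ hxu)) h1 ?_ ?_ (emb_pe h3) h4, ?_, ?_, ?_, ?_⟩
      · intro hx
        exact hnd.2.2 x hxu x (hBw x hx) rfl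
      · rw [disjoint_left]
        intro a ha hb
        exact hnd.2.2 a (hAu a ha) a (hBw a hb) rfl
      · intro a ha
        rw [mem_insert, mem_union] at ha
        simp only [List.mem_toFinset, List.mem_append]
        rcases ha with rfl | ha | ha
        · exact Or.inl hxu
        · exact Or.inl (hAu a ha)
        · exact Or.inr (hBw a ha)
      · intro p hp
        exact h5' p (by simpa using hp)
      · intro c' hc'
        simp only [Fd.trees, List.mem_cons, Prod.mk.injEq, Bool.true_eq_false, false_and, false_or] at hc'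
        exact List.mem_append_right _ (h6 c' hc')
      · intro q hq'
        exact hq q (by simpa using hq')

/-- the in-trees completely on the list, the out-trees pending (so that all items hang on `v`) -/
theorem pel_whole (hT : AE32.Tour R) {Q : Fd → Prop} (v : V) (ts : List (Bool × Fd))
    (hQ : ∀ p ∈ ts, if p.1 then Q p.2 else OutB Q p.2) (w : List V) (hw : w.Pairwise R)
    (hv : ∀ x ∈ w, R x v) (hl : (ts.map (fun p => if p.1 then 0 else p.2.size + 1)).sum ≤ w.length) :
    ∃ Z L, PEL R v ts Z L ∧ Z ⊆ w.toFinset ∧ (∀ p ∈ L, p.1 = v) ∧ (∀ c, (true, c) ∈ ts → (v, c) ∈ L) ∧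
      ∀ q ∈ L, Q q.2 := by
  have h1 : inw (ofT ts) ≤ w.length := by
    rw [inw_eq, trees_ofT]
    exact hl
  obtain ⟨Z, L, h2, h3, h3', h4, hq⟩ := pe_whl hT (ofT ts) (by rw [outB_iff, trees_ofT]; exact hQ) v w hw hv h1
  rw [pe_iff] at h2
  rw [trees_ofT] at h2 h4
  exact ⟨Z, L, h2, h3, h3', h4, hq⟩

end AET
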