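import Pool.Agent.AET.StepL
import Pool.Agent.AET.LightOne

/-!
# Light branches: the main statement for forests
-/

namespace AET

open Finset AE15 AED AEB AEG
open scoped Classical

/-- **Every tree of the class with at most `|X| - C` vertices is contained in `X`** -/
theorem main_fol (b l : ℕ) (hb : 1 ≤ b) : ∃ K C : ℕ,
    ∀ {V : Type} {R : V → V → Prop}, AE32.Tour R → ∀ F : Fd, FOL b l K 0 F → ∀ X : Finset V,
      F.size + 1 + C ≤ X.card → In R F (fun _ => True) X :=
  main_fd b l hb fun _ _ h1 h2 h3 h4 => itX_one b hb h1 h2 h3 h4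

end AET
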