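import Pool.Agent.AET.FinalP

/-!
# Light branches along a short directed path: the final theorem
-/

set_option autoImplicit false

namespace AET

open Finset Relation AE15 AED AEB AEG
open scoped Classical

theorem Cod0L.mono {b l N Kl g C Kl' g' : ℕ} (h : Cod0L b l N Kl g C) (h1 : Kl ≤ Kl') (h2 : g ≤ g') :
    Cod0L b l N Kl' g' C := fun hT L hL hq => h hT L hL fun q hq' => (hq q hq').mono h1 h2

/-- For all `Δ, l, N` there are `K, g, C` such that every tournament on at least `k + C` vertices contains every oriented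
tree with `k` edges and degrees at most `Δ` which has a directed path with at most `N` arcs such that the branches of the
path have short runs towards the path, except behind light arcs at distance at least `g` from the path. -/
theorem mainM0L : ∀ Δ l N : ℕ, ∃ K g C : ℕ, ∀ k n : ℕ, k + C ≤ n → ∀ R : Fin n → Fin n → Prop,
    (∀ a, ¬ R a a) → (∀ a b, a ≠ b → R a b ∨ R b a) → (∀ a b, R a b → ¬ R b a) →
    ∀ E : Fin (k + 1) → Fin (k + 1) → Prop,
      (∀ a b, E a b → ¬ E b a) →
      (SimpleGraph.fromRel E).IsTree →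
      (∀ v, ((SimpleGraph.fromRel E).neighborSet v).ncard ≤ Δ) →
      (∃ (m : ℕ) (p : ℕ → Fin (k + 1)) (h : Fin (k + 1) → Fin (k + 1)), m ≤ N ∧ (∀ i < m, E (p i) (p (i + 1))) ∧
        MainChild (SimpleGraph.fromRel E) (p 0) h ∧
        LightRunsP l K g E (SimpleGraph.fromRel E) m p h ∧
        LightRunsP l K g (fun a b => E b a) (SimpleGraph.fromRel E) m p h) →
      ∃ f : Fin (k + 1) → Fin n, Function.Injective f ∧ ∀ a b, E a b → R (f a) (f b) := by
  intro Δ l N
  obtain ⟨K, g, C, hC⟩ := exists_cod0L (Δ + 1) l (N + 1) (by omega) (by omega)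
  refine ⟨K, max g 1, C + 1, ?_⟩
  intro k n hn R h1 h2 h3 E h4 h5 h6 ⟨m, p, h, hm, h7⟩
  exact final_of_Cod0L Δ l (N + 1) K (max g 1) C (le_max_right _ _) (hC.mono le_rfl (le_max_left _ _)) k n hn R h1 h2 h3
    E h4 h5 h6 ⟨m, p, h, by omega, h7⟩

end AET
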