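import Pool.Agent.AET.StepL

/-!
# Light branches: no light arcs near the root
-/

namespace AET

open Finset AE15 AED AEB
open scoped Classical

variable {V : Type*} {R : V → V → Prop}

/-- `NL l K m F`: `F` is the children forest of a vertex `u`, and no light arc starts at a vertex whose distance from `u` is
less than `m` -/
def NL (l K : ℕ) : Fd → ℕ → Prop
  | _, 0 => True
  | .nil, _ + 1 => True
  | .node d c s, m + 1 => (d = true → InL l K true (c.size + 1) 0 c) ∧ NL l K c m ∧ NL l K s (m + 1)

theorem NL.zero {l K : ℕ} (F : Fd) : NL l K F 0 := by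
  cases F <;> simp [NL]

theorem NL.mono {l K : ℕ} (F : Fd) : ∀ {m m' : ℕ}, m' ≤ m → NL l K F m → NL l K F m' := by
  induction F with
  | nil =>
    intro m m' _ _
    cases m' <;> simp [NL]
  | node d c s ihc ihs =>
    intro m m' hm h
    cases m' with
    | zero => exact NL.zero _
    | succ m' =>
      cases m with
      | zero => omega
      | succ m =>
        simp only [NL] at h ⊢
        exact ⟨h.1, ihc (by omega) h.2.1, ihs hm h.2.2⟩

/-- the class near the root: as `FOL`, but no light arcs start at distance less than `m` -/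
def FON (b l K m : ℕ) (F : Fd) : Prop := FOL b l K 0 F ∧ NL l K F m

theorem FON.mono {b l K m m' : ℕ} {F : Fd} (h : FON b l K m F) (hm : m' ≤ m) : FON b l K m' F :=
  ⟨h.1, NL.mono F hm h.2⟩

theorem InL.mono_S {l K : ℕ} (F : Fd) : ∀ {e : Bool} {S S' j : ℕ}, S ≤ S' → InL l K e S j F → InL l K e S' j F := by
  induction F with
  | nil => intro e S S' j _ _; exact trivial
  | node d c s _ ihs =>
    intro e S S' j hS h
    obtain ⟨h1, h2, h3⟩ := h
    refine ⟨?_, ihs hS h2, h3⟩
    cases d with
    | true =>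
      simp only [if_true] at h1 ⊢
      rcases h1 with h1 | h1
      · exact Or.inl ⟨h1.1, h1.2.trans hS⟩
      · exact Or.inr h1
    | false =>
      simpa using h1

theorem InL.mono_K {l K K' : ℕ} (hK : K' ≤ K) (F : Fd) : ∀ {e : Bool} {S j : ℕ}, InL l K e S j F → InL l K' e S j F := by
  induction F with
  | nil => intro e S j _; exact trivial
  | node d c s ihc ihs =>
    intro e S j h
    obtain ⟨h1, h2, h3⟩ := h
    refine ⟨?_, ihs h2, h3⟩
    cases d with
    | true =>
      simp only [if_true] at h1 ⊢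
      rcases h1 with h1 | h1
      · exact Or.inl ⟨h1.1, (Nat.mul_le_mul_right _ hK).trans h1.2⟩
      · exact Or.inr (ihc h1)
    | false =>
      simp only [Bool.false_eq_true, if_false] at h1 ⊢
      exact ⟨h1.1, ihc h1.2⟩

theorem FOL.mono_K {b l K K' j : ℕ} {F : Fd} (hK : K' ≤ K) (h : FOL b l K j F) : FOL b l K' j F :=
  ⟨h.1, h.2.1, InL.mono_K hK F h.2.2⟩

theorem NL.mono_K {l K K' : ℕ} (hK : K' ≤ K) (F : Fd) : ∀ {m : ℕ}, NL l K F m → NL l K' F m := by
  induction F with
  | nil => intro m _; cases m <;> simp [NL]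
  | node d c s ihc ihs =>
    intro m h
    cases m with
    | zero => exact NL.zero _
    | succ m =>
      simp only [NL] at h ⊢
      exact ⟨fun e => InL.mono_K hK c (h.1 e), ihc h.2.1, ihs h.2.2⟩

/-- the pending items after few vertices have been placed -/
theorem PE.near_aux {b l K : ℕ} {F : Fd} {v : V} {Z : Finset V} {L : List (V × Fd)} (h : PE R F v Z L) :
    ∀ {m : ℕ}, F.Deg b → Z.card + 1 ≤ m → NL l K F m → ∀ q ∈ L, FON b l K (m - Z.card - 1) q.2 := by
  induction h with
  | nil v => intro m _ _ _ q hq; simp at hq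
  | pend c s v A L _ ih =>
    intro m hd hm hN q hq
    obtain ⟨m', rfl⟩ : ∃ m', m = m' + 1 := ⟨m - 1, by omega⟩
    simp only [NL] at hN
    rcases List.mem_cons.1 hq with rfl | hq
    · refine ⟨⟨hd.1, hd.2.1, hN.1 trivial⟩, NL.mono c ?_ hN.2.1⟩
      omega
    · exact ih hd.2.2 hm hN.2.2 q hq
  | place d c s v x A B L₁ L₂ _ h2 h3 h4 _ _ ih1 ih2 =>
    intro m hd hm hN q hq
    have hc : (insert x (A ∪ B)).card = A.card + B.card + 1 := by
      rw [card_insert_of_notMem (by simp [h2, h3]), card_union_of_disjoint h4]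
    rw [hc] at hm ⊢
    obtain ⟨m', rfl⟩ : ∃ m', m = m' + 1 := ⟨m - 1, by omega⟩
    simp only [NL] at hN
    rcases List.mem_append.1 hq with hq | hq
    · exact (ih1 hd.2.1 (by omega) hN.2.1 q hq).mono (by omega)
    · exact (ih2 hd.2.2 (by omega) hN.2.2 q hq).mono (by omega)

theorem PE.near {b l K m : ℕ} {F : Fd} {v : V} {Z : Finset V} {L : List (V × Fd)} (h : PE R F v Z L)
    (hF : FON b l K m F) (hm : Z.card + 1 ≤ m) : ∀ q ∈ L, FON b l K (m - Z.card - 1) q.2 :=
  PE.near_aux h hF.1.2.1 hm hF.2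

end AET
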