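import Pool.Agent.AET.PackTwoL
import Pool.Agent.AEG.PackT

/-!
# Light branches: packing in two phases
-/

set_option autoImplicit false

namespace AET

open Finset AE15 AED AEB SPD AEG
open scoped Classical

variable {V : Type} {R : V → V → Prop}

/-- **Packing in two phases**: the hypotheses are those of `AEG.packR`. The top parts of the forests use the set `Z` of at
most `J` vertices; the pending trees `L` can be embedded in `P` outside of every set `W` which contains `Z`, has at most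
`J + J₂` vertices in `P` and is disjoint from `Hm` -/
theorem packTL (b l N K : ℕ) (hb : 1 ≤ b) (hN : 1 ≤ N) (hK : 1 ≤ K) : ∃ (c₀ : ℕ) (η : ℝ), 0 < η ∧ η ≤ 1 / 8 ∧
    ∀ (e : ℕ) (κc ξ₀ s₁ : ℝ), 0 < κc → κc ≤ 1 → 0 < ξ₀ → ξ₀ ≤ 1 → 0 < s₁ → ∃ (Kl g J : ℕ) (δA : ℝ), 0 < δA ∧
    ∀ J₂ : ℕ, ∃ C cH : ℕ,
    ∀ {V : Type} {R : V → V → Prop}, AE32.Tour R → ∀ (U Y P A : Finset V) (y : V) (F : Fd) (os : List (V × Fd)) (t : ℝ),
      P ⊆ Y → Y ⊆ U → os.length + 1 ≤ N → FON b l Kl g F → (∀ q ∈ F.trees, q.1 = true) →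
      (∀ p ∈ os, FON b l Kl g p.2 ∧ (∀ q ∈ p.2.trees, q.1 = true) ∧ p.2.size ≤ K * (F.size + 1)) → y ∈ U → y ∉ Y → y ∈ A →
      (∀ p ∈ os, p.1 ∈ U ∧ p.1 ∉ Y ∧ p.1 ∈ A) → ξ₀ * U.card ≤ P.card → Rea R U P (κc * U.card) t y →
      s₁ * P.card ≤ ((P.filter (fun w => R y w ∧ Rea R U P (κc * U.card) t w)).card : ℝ) →
      (P.filter (fun u => R u y ∧ ¬ ∃ w ∈ P, R y w ∧ R w u ∧ Rea R U P (κc * U.card) t w ∧
        c₀ ≤ (Y.filter (fun v => R v w ∧ Rea R U P (κc * U.card) t v)).card)).card ≤ e →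
      (∀ p ∈ os, Rea R U P (κc * U.card) t p.1) → t ≤ η * P.card → (A.card : ℝ) ≤ δA * U.card → C ≤ P.card →
      ∃ (Z Hm : Finset V) (L : List (V × Fd)), PEsB R ((y, F) :: os) Z L ∧ Z ⊆ U ∧ Disjoint (Z \ Y) A ∧ Z.card ≤ J ∧
        Hm ⊆ P ∧ Hm.card ≤ cH ∧ Disjoint Hm Z ∧ (∀ q ∈ L, q.1 ∈ Z) ∧
        ∀ W : Finset V, Z ⊆ W → (W ∩ P).card ≤ J + J₂ → Disjoint W Hm → AEB.isz L + C ≤ P.card →
          ∃ T ⊆ P, Disjoint T W ∧ AEB.EmbI R L T := by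
  obtain ⟨p, hp, hpb, hpl, hab, hB2⟩ := exists_npL b l hb
  subst hpb hpl
  obtain ⟨D₀, hD₀⟩ : ∃ D₀ : ℕ, D₀ = N * (K * 2) * (p.b * p.A) := ⟨_, rfl⟩
  have hbA : p.A ≤ D₀ := by
    rw [hD₀]
    exact (Nat.le_mul_of_pos_left _ hp.hb).trans (Nat.le_mul_of_pos_left _ (by positivity))
  obtain ⟨ω, c, η, η₁, κ₀, κ₁, κ, γ₀, τ, s, σ₂, μ, P⟩ := exists_KB (hp.D₀.trans hbA)
  obtain ⟨hω0, hω1, hc0, hc1, hη0, hη1, hη₁0, hη₁1, hκ₀0, hκ₁0, hκ₁1, hκ0, hκ1, hs0, hγ₀0, hτ0, hσ₂0, hμ0, hκ₁η, hκs⟩ :=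
    P.num
  refine ⟨p.c0, η, hη0, by linarith only [hη1], ?_⟩
  intro e κc ξ₀ s₁ hκc hκc1 hξ₀ hξ₀1 hs₁
  obtain ⟨p₁, hp₁, q1, q2, q3, q4, q5, q6, q7, q8, q9⟩ := exists_np2L p hp e
  have hab₁ : ab p₁.b p₁.l ≤ p₁.a := by rw [q1, q2, q3]; exact hab
  have hB2₁ : (2 * p₁.b) ^ p₁.A0 ≤ p₁.B := by rw [q1, q8, q9]; exact hB2
  have hcη : c * η ≤ 1 * η := mul_le_mul_of_nonneg_right (by linarith only [hc1]) hη0.le
  obtain ⟨κU, hκU⟩ : ∃ κU : ℝ, κU = min (min κ κc) (κ * ξ₀) := ⟨_, rfl⟩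
  have hU0 : 0 < κU := by rw [hκU]; positivity
  have hU1 : κU ≤ κ := by rw [hκU]; exact (min_le_left _ _).trans (min_le_left _ _)
  have hU2 : κU ≤ κc := by rw [hκU]; exact (min_le_left _ _).trans (min_le_right _ _)
  have hU3 : κU ≤ κ * ξ₀ := by rw [hκU]; exact min_le_right _ _
  obtain ⟨n1, hcfg⟩ := top_cfgL p₁ hp₁ hab₁ hB2₁ P hs₁
  obtain ⟨gl, el, ml, kl, hgl, hel, hml, hLi⟩ := itX_one p₁.b hp₁.hb hκ0
    (by linarith only [hκ1, hκ₁η, hη₁1, hcη, hη1]) hη0 (by linarith only [hη1])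
  obtain ⟨Kl, CE', hEE⟩ := AET.ee_all p₁ hp₁ hab₁ hB2₁ (by rw [q6]; exact hbA) P hgl hel hml hLi
  obtain ⟨CE, hCEe⟩ : ∃ CE : ℝ, CE = CE' := ⟨_, rfl⟩
  have hCE : 0 ≤ CE := by rw [hCEe]; exact Nat.cast_nonneg _
  rw [← hCEe] at hEE
  obtain ⟨M, hM⟩ : ∃ M : ℕ, M = ⌈8 / κU⌉₊ + 1 := ⟨_, rfl⟩
  obtain ⟨wM, hwM⟩ : ∃ w : ℕ, w = wB p.b (ab p.b p.l) M := ⟨_, rfl⟩
  obtain ⟨vM, hvM⟩ : ∃ w : ℕ, w = vB p.b (ab p.b p.l) M := ⟨_, rfl⟩
  obtain ⟨s₀, hs₀⟩ : ∃ s₀ : ℕ, s₀ = K * (p.b * (p.A + Kl * p.a + 1)) := ⟨_, rfl⟩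
  obtain ⟨J, hJ⟩ : ∃ J : ℕ, J = p.e + p.b * (p.e + 1) * wM + N * (p.b * wM) + N * s₀ + 1 := ⟨_, rfl⟩
  obtain ⟨m, hm⟩ : ∃ m : ℕ, m = p.b * (p.e + 1) * vM + N * (p.b * vM) := ⟨_, rfl⟩
  obtain ⟨δA, hδA⟩ : ∃ δA : ℝ, δA = min (κU ^ 2 / 128) (κc * ξ₀ / 4) := ⟨_, rfl⟩
  have hδA0 : 0 < δA := by rw [hδA]; positivity
  have hδA1 : δA ≤ κU ^ 2 / 128 := by rw [hδA]; exact min_le_left _ _
  have hδA2 : δA ≤ κc * ξ₀ / 4 := by rw [hδA]; exact min_le_right _ _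
  obtain ⟨g, hg⟩ : ∃ g : ℕ, g = M * ab p.b p.l + p.e + 2 := ⟨_, rfl⟩
  refine ⟨Kl, g, J, δA, hδA0, ?_⟩
  intro J₂
  obtain ⟨J', hJ'⟩ : ∃ J' : ℕ, J' = J + J₂ := ⟨_, rfl⟩
  obtain ⟨f1, hf1⟩ := finWL p₁ hp₁ P hCE m (p.e + J')
  obtain ⟨hB, hhB⟩ : ∃ hB : ℕ, hB = (2 * (J' + p.e + 2 * p₁.c0 + 1) + 4 * (p₁.c1 + p₁.u0 + p₁.g)) *
    (1 + p₁.c0 + p₁.c) := ⟨_, rfl⟩
  obtain ⟨cn, hcn⟩ : ∃ cn : ℕ, cn = hB + J + (p.e + 1) + (N + 1) * (p.b * wM + 1 + 2 ^ ab p.b p.l) +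
    p.b * (p.e + 1) * wM + 2 ^ ab p.b p.l := ⟨_, rfl⟩
  obtain ⟨n3, h3⟩ := exists_big [(((J' + p.e + 2 * p₁.c0 + 1 : ℕ) : ℝ), γ₀ / 16), (2, η), (8, κ₀),
      ((cn : ℝ), κU ^ 2 / 128),
      (((N * s₀ + 2 ^ s₀ : ℕ) : ℝ), κc * ξ₀ / 4)] (by
    intro q hq
    simp only [List.mem_cons, List.not_mem_nil, or_false] at hq
    rcases hq with rfl | rfl | rfl | rfl | rfl
    · show 0 < γ₀ / 16
      positivity
    · exact hη0
    · exact hκ₀0
    · show 0 < κU ^ 2 / 128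
      positivity
    · show 0 < κc * ξ₀ / 4
      positivity)
  obtain ⟨C, hC⟩ : ∃ C : ℕ, C = n1 + n3 + f1 + ⌈CE⌉₊ + (p.e + J') + 1 := ⟨_, rfl⟩
  refine ⟨C, hB, ?_⟩
  intro V R hT U Y P' A y F os t hPY hYU hlenN hF hFf hos hyU hyY hyA hosU hξU hReay hlin hcov₀ hReaos ht hAc hPC
  have hPU : P' ⊆ U := hPY.trans hYU
  have hyP : y ∉ P' := fun h => hyY (hPY h)
  have hU0' : (0 : ℝ) ≤ U.card := Nat.cast_nonneg _
  have hP0 : (0 : ℝ) ≤ P'.card := Nat.cast_nonneg _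
  have hPUc : (P'.card : ℝ) ≤ U.card := by exact_mod_cast card_le_card hPU
  have hlen1 : ((os.length : ℝ) + 1) ≤ N := by exact_mod_cast hlenN
  have gg := h3 P'.card (by omega)
  have g1 : ((J' + p.e + 2 * p₁.c0 + 1 : ℕ) : ℝ) ≤ γ₀ / 16 * P'.card := gg (_, _) (by simp)
  have g2 : (2 : ℝ) ≤ η * P'.card := gg (2, η) (by simp)
  have g3 : (8 : ℝ) ≤ κ₀ * P'.card := gg (8, κ₀) (by simp)
  have g5 : (cn : ℝ) ≤ κU ^ 2 / 128 * P'.card := gg ((cn : ℝ), κU ^ 2 / 128) (by simp)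
  have g6 : ((N * s₀ + 2 ^ s₀ : ℕ) : ℝ) ≤ κc * ξ₀ / 4 * P'.card :=
    gg (((N * s₀ + 2 ^ s₀ : ℕ) : ℝ), κc * ξ₀ / 4) (by simp)
  by_cases hsz : F.size < p.b * (p.A + Kl * p.a + 1)
  · -- small forests
    have htP : t ≤ P'.card / 2 := by
      have h1 : η * P'.card ≤ 1 / 7168 * P'.card := mul_le_mul_of_nonneg_right hη1 hP0
      linarith
    have hmany : ∀ z, Rea R U P' (κc * U.card) t z → κc * ξ₀ / 2 * U.card ≤ (nO R U z).card := by
      intro z hz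
      refine le_trans ?_ (Rea.many hz)
      refine le_min ?_ ?_
      · have h1 : κc * ξ₀ ≤ κc * 1 := mul_le_mul_of_nonneg_left hξ₀1 hκc.le
        refine mul_le_mul_of_nonneg_right (by linarith) hU0'
      · have h1 : κc * (ξ₀ * U.card) ≤ 1 * P'.card := mul_le_mul hκc1 hξU (by positivity) (by norm_num)
        have h2 : κc * ξ₀ / 2 * U.card = κc * (ξ₀ * U.card) / 2 := by ring
        rw [h2]
        linarith
    have hAc' : (A.card : ℝ) ≤ κc * ξ₀ / 4 * U.card := hAc.trans (mul_le_mul_of_nonneg_right hδA2 hU0')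
    have g6' : ((N * s₀ + 2 ^ s₀ : ℕ) : ℝ) ≤ κc * ξ₀ / 4 * U.card :=
      g6.trans (mul_le_mul_of_nonneg_left hPUc (by positivity))
    have hbig : ∀ z, Rea R U P' (κc * U.card) t z →
        A.card + ((y, F) :: os).length * s₀ + 2 ^ s₀ ≤ (nO R U z).card := by
      intro z hz
      have h1 := hmany z hz
      have h2 : ((y, F) :: os).length * s₀ ≤ N * s₀ :=
        Nat.mul_le_mul_right _ (by rw [List.length_cons]; exact hlenN)
      have h3 : A.card + (N * s₀ + 2 ^ s₀) ≤ (nO R U z).card := by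
        have : (A.card : ℝ) + ((N * s₀ + 2 ^ s₀ : ℕ) : ℝ) ≤ (nO R U z).card := by linarith
        exact_mod_cast this
      omega
    obtain ⟨S, h1, h2, h3, h4⟩ := small_allB hT (U := U) (s₀ := s₀) ((y, F) :: os) A (by
        intro q hq
        rcases List.mem_cons.1 hq with rfl | hq
        · exact ⟨hFf, by rw [hs₀]; exact hsz.le.trans (Nat.le_mul_of_pos_left _ hK), hbig _ hReay⟩
        · obtain ⟨g1, g2, g3⟩ := hos q hq
          exact ⟨g2, by rw [hs₀]; exact g3.trans (Nat.mul_le_mul_left _ hsz), hbig _ (hReaos q hq)⟩)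
    refine ⟨S, ∅, [], PEsB.of_emb h1, h2, h3.mono_left sdiff_subset, h4.trans ?_, empty_subset _, by simp,
      disjoint_empty_left _, by simp, fun W _ _ _ _ => ⟨∅, empty_subset _, disjoint_empty_left _, rfl⟩⟩
    have h5 : ((y, F) :: os).length * s₀ ≤ N * s₀ := Nat.mul_le_mul_right _ (by rw [List.length_cons]; exact hlenN)
    omega
  -- the main case
  push Not at hsz
  have hκUU : κU * U.card ≤ κ * P'.card := by
    have h1 : κU * U.card ≤ κ * ξ₀ * U.card := mul_le_mul_of_nonneg_right hU3 hU0'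
    have h2 : κ * (ξ₀ * U.card) ≤ κ * P'.card := mul_le_mul_of_nonneg_left hξU hκ0.le
    linarith only [h1, h2]
  have hk : κU * U.card ≤ κc * U.card := mul_le_mul_of_nonneg_right hU2 hU0'
  have hκκ₁ : κ * P'.card ≤ κ₁ * P'.card := mul_le_mul_of_nonneg_right (by linarith only [hκ1, hκ₁0]) hP0
  have hReaG : ∀ z, Rea R U P' (κc * U.card) t z → GdU R κU η U P' z := fun z hz =>
    rea_gdU hz hk (Subset.refl _) ht
  obtain ⟨G, x, E, L, D, a1, a2, a3, a4, a5, a6, a7, a8, a9, a10⟩ := hcfg hT (U := U) (Y := Y) (X := P')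
    (y := y) (κU := κU) (F := F) (K := Kl) (by omega) hPY hYU hyU hyY (hκUU.trans hκκ₁) (hReaG y hReay)
    (by rw [q1, q2]; exact hF.1) hFf (by rw [q1, q6, q3]; exact hsz)
    (fun D => cov_cl hT hp₁ (e := e) hyP hlin (by rw [q5]; exact hcov₀) hk ht q7 D)
  rw [q4] at a4
  have a10' : (¬ NN D ∧ γ₀ / 16 * P'.card ≤ ((nO R G x).card : ℝ)) ∨
      CovE R p₁ (γ₀ / 16) P' G E x (p₁.ub D) :=
    a10.imp id (fun h => covE_of_cov hp₁ a1 h (by rw [q4]; exact a4))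
  obtain ⟨Ha, d1, d2, d3, d4⟩ := dc_avoid hT hp₁ a1 a10' J' p.e a4 g1
  rw [← hhB] at d3
  -- the hosts `Ks`
  obtain ⟨Ks, hKP, hKh, hKc⟩ := exists_K hT (X := P') (η := η) (η₁ := η₁) hκ₀0 (by
    have h5 := P.hκ₀
    linarith only [h5, hη₁0]) (by linarith only [hη₁1, hcη, hη1, hη0]) hη0 (by linarith only [hη1]) g2 g3
  rw [← P.hκ₁, ← P.hτ] at hKh
  have hlev : ∀ v ∈ U, GdU R κU η U P' v → v ∈ Lv R U Ks (κU ^ 2 / 32 * U.card) M := by
    intro v hv hG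
    rw [hM]
    exact hG.level hT hU0 (by linarith only [hU1, hκ1, hκ₁1, hκ₁η, hη₁1, hcη, hη1, hη0, hκ₀0, hκ₁0, P.hκ₀])
      hPU hKP hKc (by
      have : κ * P'.card ≤ 24 * η * P'.card :=
        mul_le_mul_of_nonneg_right (by linarith only [hκ1, hκ₁η, hη₁1, hcη, hη0, hκ₁0, hη₁0]) hP0
      linarith only [this, hκUU]) hv
  -- sizes
  have hAc' : (A.card : ℝ) ≤ κU ^ 2 / 128 * U.card := hAc.trans (mul_le_mul_of_nonneg_right hδA1 hU0')
  have g5' : (cn : ℝ) ≤ κU ^ 2 / 128 * U.card := g5.trans (mul_le_mul_of_nonneg_left hPUc (by positivity))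
  have hcnR : (cn : ℝ) = hB + J + (p.e + 1) + (N + 1) * (p.b * wM + 1 + 2 ^ ab p.b p.l) +
      p.b * (p.e + 1) * wM + 2 ^ ab p.b p.l := by
    rw [hcn]
    push_cast
    ring
  have hkk : κU ^ 2 / 128 * (U.card : ℝ) + κU ^ 2 / 128 * U.card ≤ κU ^ 2 / 32 * U.card := by
    have : 0 ≤ κU ^ 2 * (U.card : ℝ) := by positivity
    linarith
  have hHaR : (Ha.card : ℝ) ≤ hB := by exact_mod_cast d3
  have hER : (E.card : ℝ) ≤ p.e := by exact_mod_cast a4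
  -- placing at `y`
  have hmemL := PE.near (b := p.b) (l := p.l) a6 hF (by omega)
  obtain ⟨L₀, hL⟩ : ∃ L₀, L.Perm ((x, D) :: L₀) := ⟨_, List.perm_cons_erase a7⟩
  have hlenL := a6.length_le hF.1.1 hF.1.2.1
  have hL₀len : L₀.length ≤ p.b * (p.e + 1) := by
    have h1 := hL.length_eq
    rw [List.length_cons] at h1
    have h2 : p.b * (E.card + 1) ≤ p.b * (p.e + 1) := Nat.mul_le_mul_left _ (by omega)
    omega
  have hL' : L.Perm (L₀ ++ [(x, D)]) := hL.trans (List.perm_append_comm (l₁ := [(x, D)]) (l₂ := L₀))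
  have hsub : ∀ q ∈ L₀, q ∈ L := fun q hq => hL.symm.subset (List.mem_cons_of_mem _ hq)
  have hwL : L₀.length * wM ≤ p.b * (p.e + 1) * wM := Nat.mul_le_mul_right _ hL₀len
  have hwLR : (L₀.length : ℝ) * wM ≤ p.b * (p.e + 1) * wM := by exact_mod_cast hwL
  have hNw0 : (0 : ℝ) ≤ (N + 1) * (p.b * wM + 1 + 2 ^ ab p.b p.l) := by positivity
  have hbw0 : (0 : ℝ) ≤ (p.b : ℝ) * (p.e + 1) * wM := by positivity
  have h2ab : (0 : ℝ) ≤ 2 ^ ab p.b p.l := by positivity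
  have hB0 : (0 : ℝ) ≤ hB := Nat.cast_nonneg _
  have hJ0 : (0 : ℝ) ≤ J := Nat.cast_nonneg _
  have hAH : ((A ∪ Ha).card : ℝ) ≤ A.card + Ha.card := by exact_mod_cast card_union_le _ _
  obtain ⟨Z₁, L₁, L₁', hPE1, hL₁, hEZ, hZU, _, hZF, hZc, hLc, hLK⟩ := AET.placing (K := Kl) hT hp.hb (hKP.trans hPU) M 0
    (F₀ := A ∪ Ha) (k := κU ^ 2 / 32 * U.card) (b := p.b) (l := p.l) a6 hL' (fun q hq =>
      ⟨hlev q.1 (a8 q (hsub q hq)).1 (a8 q (hsub q hq)).2, (hmemL q (hsub q hq)).mono (by omega)⟩) (by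
      rw [← hwM]
      linarith only [hAc', g5', hcnR, hkk, hHaR, hER, hwLR, hNw0, hbw0, h2ab, hB0, hJ0, hAH])
  rw [← hwM] at hZc
  rw [← hvM] at hLc
  have hZ₁c : Z₁.card ≤ p.e + p.b * (p.e + 1) * wM := by
    have h1 := card_sdiff_add_card_eq_card hEZ
    omega
  have hZ₁R : (Z₁.card : ℝ) ≤ p.e + p.b * (p.e + 1) * wM := by exact_mod_cast hZ₁c
  -- placing at the other hosts
  obtain ⟨Z₂, L₂, hPEs, hZ2U, hZ2F, hZ2c, hL2c, hL2h⟩ := place_allL (Kl := Kl) hT hp.hb (hKP.trans hPU) (l := p.l) M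
    (k := κU ^ 2 / 32 * U.card) os (A ∪ (Ha ∪ Z₁)) (by
      intro q hq
      exact ⟨hlev q.1 (hosU q hq).1 (hReaG q.1 (hReaos q hq)), (hos q hq).1.mono (by omega), (hos q hq).2.1⟩) (by
      have h1 : ((A ∪ (Ha ∪ Z₁)).card : ℝ) ≤ A.card + (Ha.card + Z₁.card) := by
        exact_mod_cast (card_union_le _ _).trans (Nat.add_le_add_left (card_union_le _ _) _)
      rw [← hwM]
      have h2 : ((os.length + 1 : ℕ) : ℝ) * (p.b * wM + 1 + 2 ^ ab p.b p.l : ℕ) ≤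
          (N + 1) * (p.b * wM + 1 + 2 ^ ab p.b p.l) := by
        push_cast
        exact mul_le_mul_of_nonneg_right (by linarith only [hlen1]) (by positivity)
      linarith only [h1, h2, hAc', g5', hcnR, hkk, hHaR, hZ₁R, hNw0, hbw0, h2ab, hB0, hJ0])
  rw [← hwM] at hZ2c
  rw [← hvM] at hL2c
  rw [disjoint_union_right, disjoint_union_right] at hZ2F
  obtain ⟨hZ2A, hZ2H, hZ21⟩ := hZ2F
  rw [disjoint_union_right] at hZF
  obtain ⟨hZ1A, hZ1H⟩ := hZF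
  -- all used vertices
  obtain ⟨Za, hZa⟩ : ∃ Za : Finset V, Za = Z₁ ∪ Z₂ := ⟨_, rfl⟩
  have hZaJ : Za.card ≤ J := by
    rw [hZa]
    have h1 := card_union_le Z₁ Z₂
    have h2 : os.length * (p.b * wM) ≤ N * (p.b * wM) := Nat.mul_le_mul_right _ (by omega)
    omega
  have hEZa : E ⊆ Za := by
    rw [hZa]
    exact hEZ.trans subset_union_left
  have hZaH : Disjoint Za Ha := by
    rw [hZa, disjoint_union_left]
    refine ⟨?_, hZ2H⟩
    rw [disjoint_left]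
    intro v hv hvH
    by_cases h : v ∈ E
    · exact disjoint_left.1 d2 hvH h
    · exact disjoint_left.1 hZ1H (mem_sdiff.2 ⟨hv, h⟩) hvH
  have hall : PEsB R ((y, F) :: os) Za (L₁' ++ L₂) := ⟨Z₁, Z₂, L₁', L₂, hZ21.symm, hZa, rfl, hPE1, hPEs⟩
  have hitems := PEsB.host hall
  have hitF : ∀ q ∈ L₁' ++ L₂, FOL p.b p.l Kl 0 q.2 := by
    intro q hq
    rcases List.mem_append.1 hq with h | h
    · rcases List.mem_append.1 (hL₁.subset h) with h' | h'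
      · exact (hLK q h').2.1
      · rw [List.mem_singleton] at h'
        rw [h']
        exact (hmemL _ a7).1
    · exact (hL2h q h).2
  have hLperm : (L₁' ++ L₂).Perm ((x, D) :: (L₁ ++ L₂)) := by
    rw [← List.cons_append]
    refine List.Perm.append_right _ (hL₁.trans ?_)
    exact List.perm_append_comm (l₁ := L₁) (l₂ := [(x, D)])
  have hisz : AEB.isz (L₁' ++ L₂) = D.size + 1 + AEB.isz (L₁ ++ L₂) := by
    have h1 : AEB.isz (L₁' ++ L₂) = AEB.isz ((x, D) :: (L₁ ++ L₂)) := by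
      unfold AEB.isz
      exact (hLperm.map _).sum_eq
    rw [h1, AEB.isz_cons]
  have htots := hall.size
  have hKall : ∀ q ∈ L₁ ++ L₂, q.1 ∈ Ks := by
    intro q hq
    rcases List.mem_append.1 hq with h | h
    · exact (hLK q h).1
    · exact (hL2h q h).1
  have hKhost : ∀ q ∈ L₁ ++ L₂, q.1 ∈ Za := by
    intro q hq
    have hqP : q.1 ∈ P' := hKP (hKall q hq)
    rcases hitems q (hLperm.symm.subset (List.mem_cons_of_mem _ hq)) with h | ⟨r, hr, h⟩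
    · exact h
    · exfalso
      rcases List.mem_cons.1 hr with rfl | hr
      · have h' : q.1 = y := h
        rw [h'] at hqP
        exact hyP hqP
      · rw [h] at hqP
        exact (hosU r hr).2.1 (hPY hqP)
  refine ⟨Za, Ha, L₁' ++ L₂, hall, ?_, ?_, hZaJ, d1, d3, hZaH.symm, ?_, ?_⟩
  · intro v hv
    rw [hZa, mem_union] at hv
    rcases hv with h | h
    · by_cases h' : v ∈ E
      · exact hYU (a3 h')
      · exact hZU (mem_sdiff.2 ⟨h, h'⟩)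
    · exact hZ2U h
  · rw [disjoint_left]
    intro v hv hvA
    rw [mem_sdiff, hZa, mem_union] at hv
    rcases hv.1 with h | h
    · by_cases h' : v ∈ E
      · exact hv.2 (a3 h')
      · exact disjoint_left.1 hZ1A (mem_sdiff.2 ⟨h, h'⟩) hvA
    · exact disjoint_left.1 hZ2A h hvA
  · intro q hq
    rcases List.mem_cons.1 (hLperm.subset hq) with rfl | hq'
    · exact hEZa a5
    · exact hKhost q hq'
  · intro W hZW hWc hWH hsize
    obtain ⟨Zb, hZb⟩ : ∃ Zb : Finset V, Zb = E ∪ (W ∩ P') := ⟨_, rfl⟩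
    have hcov := d4 (W ∩ P') (by rw [hJ']; exact hWc) (hWH.mono_left inter_subset_left)
    rw [← hZb] at hcov
    have hZbc : Zb.card ≤ p.e + J' := by
      rw [hZb, hJ']
      exact (card_union_le _ _).trans (Nat.add_le_add a4 hWc)
    have hKW : ∀ q ∈ L₁ ++ L₂, q.1 ∈ Zb := by
      intro q hq
      rw [hZb, mem_union, mem_inter]
      exact Or.inr ⟨hZW (hKhost q hq), hKP (hKall q hq)⟩
    obtain ⟨T, hTP, hTZ, hTE⟩ := hf1 hT (X := P') (G := G) (Ks := Ks) (Za := Zb) (x := x) (D := D) (L := L₁' ++ L₂)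
      (Lh := L₁ ++ L₂) (T := (AEB.isz (L₁' ++ L₂) : ℕ)) (z := 0) (by omega) a1 a2 hcov hZbc (by
        rw [hZb]; exact mem_union_left _ a5) hKP hKh hKW (by
        intro q hq
        exact hEE hT q.2 (by rw [q1, q2]; exact hitF q hq)) hLperm hKall (by
        rw [List.length_append, hm]
        have h1 : L₀.length * vM ≤ p.b * (p.e + 1) * vM := Nat.mul_le_mul_right _ hL₀len
        have h2 : os.length * (p.b * vM) ≤ N * (p.b * vM) := Nat.mul_le_mul_right _ (by omega)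
        omega) le_rfl (by
        rw [hisz]
        push_cast
        ring) (by
        have h1 : totB ((y, F) :: os) ≤ ((y, F) :: os).length * (K * (F.size + 1)) := totB_le (by
          intro q hq
          rcases List.mem_cons.1 hq with rfl | hq
          · exact (Nat.le_succ _).trans (Nat.le_mul_of_pos_left _ hK)
          · exact (hos q hq).2.2)
        rw [q1, q6] at a9
        have hF1 : F.size + 1 ≤ 2 * F.size := by
          have : 1 ≤ p.b * (p.A + Kl * p.a + 1) := Nat.mul_pos hp.hb (Nat.succ_pos _)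
          omega
        have h2 : ((y, F) :: os).length * (K * (F.size + 1)) ≤ N * (K * (2 * (p.b * p.A * (D.size + 1)))) :=
          Nat.mul_le_mul (by rw [List.length_cons]; exact hlenN) (Nat.mul_le_mul_left _
            (hF1.trans (Nat.mul_le_mul_left _ a9)))
        have h3 : N * (K * (2 * (p.b * p.A * (D.size + 1)))) = D₀ * (D.size + 1) := by
          rw [hD₀]
          ring
        have h4 : AEB.isz (L₁' ++ L₂) ≤ totB ((y, F) :: os) := by omega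
        exact_mod_cast ((h4.trans h1).trans h2).trans h3.le) (by
        have h1 := Nat.le_ceil CE
        have h2 : AEB.isz (L₁' ++ L₂) + ⌈CE⌉₊ + (p.e + J') ≤ P'.card := by omega
        have h3 : ((AEB.isz (L₁' ++ L₂) + ⌈CE⌉₊ + (p.e + J') : ℕ) : ℝ) ≤ P'.card := by exact_mod_cast h2
        push_cast at h3 ⊢
        linarith only [h1, h3])
    refine ⟨T, hTP, ?_, hTE⟩
    rw [disjoint_left]
    intro v hv hvW
    refine disjoint_left.1 hTZ hv ?_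
    rw [hZb, mem_union, mem_inter]
    exact Or.inr ⟨hvW, hTP hv⟩

end AET
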